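import Pool.Agent.H90.Ord.ALc

/-!
# Alignment: splitting the top, and steps above the pointed entry (module ALE)

`al_multi`: the pointed entry is on the top and has many children: `multi_kids` and `al_multi_core`; the pointers
are `child` with the indices `i1`, `i2` (`s.need` is the length of the list of marks).  The new `A` is `A'`, the
new `B` is `B' ++ B` (for `B'` use the second part of `al_multi_core`, for `B` the old conditions).
`al_above`: the top `e` is above the pointed entry `p`: any common lists (`par_step`); `AC` of `e` says that some of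
its marks are `none`, and a mark `none` has only children with mark `none` (`kids_none`); `exists_double` gives
the double list of the children.
-/

set_option autoImplicit false

namespace Pool.Agent.H90.Ord

theorem need_cons {s : St} {l : Lev} {m : Mark} {t : List (Lev × Mark)} (h : s.stk = (l, m) :: t) :
    s.need = Ord.need l m s.reg := by
  simp [St.need, h]

theorem step_stk {s : St} {l : Lev} {m : Mark} {t : List (Lev × Mark)} (h : s.stk = (l, m) :: t)
    (x : List ℕ) : (s.step x).stk = kids l m s.reg x.dropLast (x.getLastD 0) ++ t := by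
  simp [St.step, h]

theorem need_many {l l' : Lev} (hl : (∃ k, l = .inn (k + 1) ∧ l' = .inn k) ∨
    (∃ k, l = .out (k + 1) ∧ l' = .out k)) (m : Mark) (r : ℕ) :
    Ord.need l m r = (chM l m r).length := by
  rcases hl with ⟨k, rfl, rfl⟩ | ⟨k, rfl, rfl⟩ <;> rfl

theorem al_multi {ε : Bool} {κ γ : ℕ} {s t : St} {l l' : Lev} {m1 m2 : Mark} {B : List DE}
    (hl : (∃ k, l = .inn (k + 1) ∧ l' = .inn k) ∨ (∃ k, l = .out (k + 1) ∧ l' = .out k))
    (hs : s.stk = p1 ((l, m1, m2) :: B)) (ht : t.stk = p2 ((l, m1, m2) :: B))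
    (hal : Al ε κ γ [] (l, m1, m2) B) {i1 i2 : ℕ} (hi1 : i1 < s.need) (hi2 : i2 < t.need)
    {T1 T2 : Set (List ℕ)} (h1 : Big (s.need + 1) T1) (h2 : Big (t.need + 1) T2) :
    ∃ l1 ∈ T1, ∃ l2 ∈ T2, Fresh 0 l1 ∧ Fresh 0 l2 ∧ l1.length = s.need + 1 ∧
      l2.length = t.need + 1 ∧ l1.getLastD 0 = l2.getLastD 0 ∧
      ∃ A' p' B', (s.step l1).stk = p1 (A' ++ p' :: (B' ++ B)) ∧
        (t.step l2).stk = p2 (A' ++ p' :: (B' ++ B)) ∧ Al ε κ γ A' p' (B' ++ B) ∧
        B'.length + 1 = l1.getLastD 0 - l1.getD i1 0 ∧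
        B'.length + 1 = l2.getLastD 0 - l2.getD i2 0 := by
  have hs' : s.stk = (l, m1) :: p1 B := by rw [hs]; rfl
  have ht' : t.stk = (l, m2) :: p2 B := by rw [ht]; rfl
  rw [need_cons hs'] at h1 hi1 ⊢
  rw [need_cons ht'] at h2 hi2 ⊢
  have hi1' := hi1
  have hi2' := hi2
  rw [need_many hl] at hi1' hi2'
  obtain ⟨hsing, hPC, hAB⟩ := al_multi_core hl hal.hp hi1' hi2'
  obtain ⟨l1, hl1, l2, hl2, f1, f2, n1, n2, hN, A', B', k1, k2, hE, b1, b2⟩ :=
    multi_kids hl hi1' hi2' hsing h1 h2
  refine ⟨l1, hl1, l2, hl2, f1, f2, n1, n2, hN, A',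
    (l', (chM l m1 s.reg).getD i1 .none, (chM l m2 t.reg).getD i2 .none), B', ?_, ?_, ?_, b1, b2⟩
  · rw [step_stk hs', k1, ← p1_append, List.append_assoc, List.cons_append]
  · rw [step_stk ht', k2, ← p2_append, List.append_assoc, List.cons_append]
  · have hfst : (A' ++ (l', (chM l m1 s.reg).getD i1 .none, (chM l m2 t.reg).getD i2 .none)
        :: B').map Prod.fst = kidsLev l (l1.getLastD 0) := by
      rw [← kids_fst l m1 s.reg l1.dropLast (l1.getLastD 0), k1]
      unfold p1
      rw [List.map_map]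
      rfl
    refine ⟨?_, hPC, ?_, ?_⟩
    · have := sortedD_kids (T := B) hal.sorted hfst
      rwa [List.append_assoc, List.cons_append] at this
    · intro e he
      obtain ⟨q1, q2, q3⟩ := hE e (List.mem_append_left _ he)
      have h3 := (hAB e.2.1 e.2.2 q2 q3).1
      have h4 : e = (l', e.2.1, e.2.2) := by rw [← q1]
      rw [h4]
      exact h3
    · intro e he
      rcases List.mem_append.1 he with he | he
      · obtain ⟨q1, q2, q3⟩ := hE e (List.mem_append_right _ he)
        have h3 := (hAB e.2.1 e.2.2 q2 q3).2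
        have h4 : e = (l', e.2.1, e.2.2) := by rw [← q1]
        rw [h4]
        exact h3
      · exact hal.hB e he

theorem al_above {ε : Bool} {κ γ : ℕ} {s t : St} {e p : DE} {A B : List DE}
    (hs : s.stk = p1 (e :: A ++ p :: B)) (ht : t.stk = p2 (e :: A ++ p :: B))
    (hal : Al ε κ γ (e :: A) p B)
    {T1 T2 : Set (List ℕ)} (h1 : Big (s.need + 1) T1) (h2 : Big (t.need + 1) T2) :
    ∃ l1 ∈ T1, ∃ l2 ∈ T2, Fresh 0 l1 ∧ Fresh 0 l2 ∧ l1.length = s.need + 1 ∧
      l2.length = t.need + 1 ∧ l1.getLastD 0 = l2.getLastD 0 ∧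
      ∃ K, (s.step l1).stk = p1 (K ++ A ++ p :: B) ∧ (t.step l2).stk = p2 (K ++ A ++ p :: B) ∧
        Al ε κ γ (K ++ A) p B := by
  have hs' : s.stk = (e.1, e.2.1) :: p1 (A ++ p :: B) := by rw [hs]; rfl
  have ht' : t.stk = (e.1, e.2.2) :: p2 (A ++ p :: B) := by rw [ht]; rfl
  have hpar : Par ⟨[], s.stk, s.reg, s.pk⟩ ⟨[], t.stk, t.reg, t.pk⟩ := by
    refine ⟨rfl, ?_⟩
    show s.stk.map Prod.fst = t.stk.map Prod.fst
    rw [hs, ht]
    unfold p1 p2
    rw [List.map_map, List.map_map]
    rfl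
  obtain ⟨l1, hl1, l2, hl2, f1, f2, n1, n2, hN, -⟩ := par_step hpar h1 h2
  have hfst : (kids e.1 e.2.1 s.reg l1.dropLast (l1.getLastD 0)).map Prod.fst =
      (kids e.1 e.2.2 t.reg l2.dropLast (l2.getLastD 0)).map Prod.fst := by
    rw [kids_fst, kids_fst, hN]
  obtain ⟨K, hK1, hK2⟩ := exists_double hfst
  have hKf : K.map Prod.fst = kidsLev e.1 (l1.getLastD 0) := by
    rw [← kids_fst e.1 e.2.1 s.reg l1.dropLast (l1.getLastD 0), hK1]
    unfold p1
    rw [List.map_map]
    rfl
  have hn1 : e.2.1 = .none → ∀ x ∈ K, x.2.1 = .none := by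
    intro h x hx
    have hx1 : (x.1, x.2.1) ∈ kids e.1 e.2.1 s.reg l1.dropLast (l1.getLastD 0) := by
      rw [hK1]
      exact List.mem_map.2 ⟨x, hx, rfl⟩
    rw [h, kids_none] at hx1
    obtain ⟨y, -, hy⟩ := List.mem_map.1 hx1
    exact (Prod.mk.inj hy).2.symm
  have hn2 : e.2.2 = .none → ∀ x ∈ K, x.2.2 = .none := by
    intro h x hx
    have hx1 : (x.1, x.2.2) ∈ kids e.1 e.2.2 t.reg l2.dropLast (l2.getLastD 0) := by
      rw [hK2]
      exact List.mem_map.2 ⟨x, hx, rfl⟩
    rw [h, kids_none] at hx1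
    obtain ⟨y, -, hy⟩ := List.mem_map.1 hx1
    exact (Prod.mk.inj hy).2.symm
  refine ⟨l1, hl1, l2, hl2, f1, f2, n1, n2, hN, K, ?_, ?_, ?_⟩
  · rw [step_stk hs', hK1, ← p1_append, List.append_assoc]
  · rw [step_stk ht', hK2, ← p2_append, List.append_assoc]
  · have hAe : AC ε κ γ p e := hal.hA e List.mem_cons_self
    refine ⟨?_, hal.hp, ?_, hal.hB⟩
    · have hsort : SortedD ((e.1, e.2) :: (A ++ p :: B)) := hal.sorted
      have := sortedD_kids (T := A ++ p :: B) hsort hKf
      rwa [← List.append_assoc] at this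
    · intro x hx
      rcases List.mem_append.1 hx with hx | hx
      · obtain ⟨a1, a2, a3, a4⟩ := hAe
        refine ⟨fun k hk hkk => hn2 (a1 k hk hkk) x hx, fun k hk hkk => hn1 (a2 k hk hkk) x hx,
          ?_, ?_⟩
        · intro k hk hkk
          have := a3 k hk hkk
          cases ε
          · exact hn2 this x hx
          · exact hn1 this x hx
        · intro k hk hkk
          have := a4 k hk hkk
          cases ε
          · exact hn1 this x hx
          · exact hn2 this x hx
      · exact hal.hA x (List.mem_cons_of_mem _ hx)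

end Pool.Agent.H90.Ord
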