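import Pool.Agent.H90.Ord.ALd
import Pool.Agent.H90.Ord.ALe

/-!
# The alignment lemma (module ALF)

`ald_step`: cases of `Ald`: both stacks `[(root, U)]`: `al_root` (both pointers are `single`, height `1`).  Otherwise
the common stack is `A ++ p :: B`.  `A = e :: A'`: the pointers are `keep` (`h` is smaller than the length of the
stack), `al_above`.  `A = []`: `h` is the length; the level of `p` is not `root` (`GM`); `inn 0`: no pointer rule
applies; `out 0`: both pointers are `single`, `al_out_zero`; `inn (k+1)`, `out (k+1)`: both pointers are `child`,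
`al_multi`; then `g1 l1 = B.length + (B'.length + 1) = g2 l2`.
`ald_AT`: if the top is `(inn 0, U)` and `h` is the length, then `p = (inn 0, U, m2)`, and `GM (inn 0) m2` gives
`m2 = U`.
-/

set_option autoImplicit false

namespace Pool.Agent.H90.Ord

private theorem p1_fst (D : List DE) : (p1 D).map Prod.fst = D.map Prod.fst := by
  unfold p1
  rw [List.map_map]
  rfl

private theorem p2_fst (D : List DE) : (p2 D).map Prod.fst = D.map Prod.fst := by
  unfold p2
  rw [List.map_map]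
  rfl

/-- possible pointer updates -/
private theorem ptr_inv {h : ℕ} {s : St} {g : List ℕ → ℕ} (hg : PtrStep h s g) (h0 : 0 < h) :
    (h < s.stk.length ∧ g = fun _ => h) ∨
    (h = s.stk.length ∧ ∃ l m t, s.stk = (l, m) :: t ∧
      (((l = .out 0 ∨ l = .root) ∧ g = fun _ => h) ∨
        ∃ k i, (l = .inn (k + 1) ∨ l = .out (k + 1)) ∧ i < s.need ∧
          g = fun x => t.length + (x.getLastD 0 - x.getD i 0))) := by
  cases hg with
  | zero => omega
  | keep h0 h1 => exact Or.inl ⟨h1, rfl⟩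
  | single hs hl => exact Or.inr ⟨rfl, _, _, _, hs, Or.inl ⟨hl, rfl⟩⟩
  | child k i hs hl hi => exact Or.inr ⟨rfl, _, _, _, hs, Or.inr ⟨k, i, hl, hi, rfl⟩⟩

theorem Ald.par {ε : Bool} {s t : St} {h : ℕ} (ha : Ald ε s t h) : Par s t := by
  obtain ⟨h1, h2⟩ := ha
  refine ⟨h1, ?_⟩
  rcases h2 with ⟨hs, ht, -⟩ | ⟨κ, γ, A, p, B, hs, ht, -, -⟩
  · rw [hs, ht]
  · rw [hs, ht, p1_fst, p2_fst]

theorem ald_start (ε : Bool) : Ald ε start start 1 :=
  ⟨rfl, Or.inl ⟨rfl, rfl, rfl⟩⟩

theorem Ald.pick1 {ε : Bool} {s t : St} {h : ℕ} (ha : Ald ε s t h) (n : ℕ) :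
    Ald ε (s.pick n) t h := ha

theorem Ald.pick2 {ε : Bool} {s t : St} {h : ℕ} (ha : Ald ε s t h) (n : ℕ) :
    Ald ε s (t.pick n) h := ha

theorem Ald.pos {ε : Bool} {s t : St} {h : ℕ} (ha : Ald ε s t h) : 0 < h ∧ s.stk ≠ [] := by
  obtain ⟨h1, h2⟩ := ha
  rcases h2 with ⟨hs, ht, hh⟩ | ⟨κ, γ, A, p, B, hs, ht, hh, -⟩
  · rw [hs, hh]
    exact ⟨Nat.one_pos, List.cons_ne_nil _ _⟩
  · refine ⟨by omega, ?_⟩
    rw [hs]
    intro h3
    have h4 := congrArg List.length h3
    rw [p1_length, List.length_append, List.length_cons, List.length_nil] at h4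
    omega

/-- the pointed entry is on the top if the pointer is the length -/
private theorem ald_top {s : St} {A : List DE} {p : DE} {B : List DE} {h : ℕ}
    (hs : s.stk = p1 (A ++ p :: B)) (hh : B.length + 1 = h) (hl : h = s.stk.length) : A = [] := by
  rw [hs, p1_length, List.length_append, List.length_cons] at hl
  exact List.length_eq_zero_iff.1 (by omega)

theorem Ald.at_iff {ε : Bool} {s t : St} {h : ℕ} (ha : Ald ε s t h) : AT s h ↔ AT t h := by
  obtain ⟨h1, h2⟩ := ha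
  rcases h2 with ⟨hs, ht, hh⟩ | ⟨κ, γ, A, p, B, hs, ht, hh, hal⟩
  · constructor
    · rintro ⟨-, u, hu⟩
      rw [hs] at hu
      cases hu
    · rintro ⟨-, u, hu⟩
      rw [ht] at hu
      cases hu
  · have hlen : s.stk.length = t.stk.length := by rw [hs, ht, p1_length, p2_length]
    obtain ⟨lv, m1, m2⟩ := p
    constructor
    · rintro ⟨hl, u, hu⟩
      have hA := ald_top hs hh hl
      subst hA
      have hs' : s.stk = (lv, m1) :: p1 B := hs
      have ht' : t.stk = (lv, m2) :: p2 B := ht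
      rw [hs', List.cons.injEq, Prod.mk.injEq] at hu
      have hgm : GM lv m2 := hal.hp.2.1
      rw [hu.1.1] at hgm ht'
      rw [GM_inn_zero hgm] at ht'
      exact ⟨hl.trans hlen, _, ht'⟩
    · rintro ⟨hl, u, hu⟩
      have hl' : h = s.stk.length := hl.trans hlen.symm
      have hA := ald_top hs hh hl'
      subst hA
      have hs' : s.stk = (lv, m1) :: p1 B := hs
      have ht' : t.stk = (lv, m2) :: p2 B := ht
      rw [ht', List.cons.injEq, Prod.mk.injEq] at hu
      have hgm : GM lv m1 := hal.hp.1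
      rw [hu.1.1] at hgm hs'
      rw [GM_inn_zero hgm] at hs'
      exact ⟨hl', _, hs'⟩

theorem Ald.target {ε : Bool} {s t : St} {h : ℕ} (ha : Ald ε s t h) (hat : AT s h) :
    ∃ κ γ B, s.stk = p1 ((.inn 0, .U, .U) :: B) ∧ t.stk = p2 ((.inn 0, .U, .U) :: B) ∧
      SortedD ((.inn 0, .U, .U) :: B) ∧ ∀ e ∈ B, BC ε κ γ e := by
  obtain ⟨h1, h2⟩ := ha
  obtain ⟨hl, u, hu⟩ := hat
  rcases h2 with ⟨hs, ht, hh⟩ | ⟨κ, γ, A, p, B, hs, ht, hh, hal⟩
  · rw [hs] at hu
    cases hu
  · have hA := ald_top hs hh hl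
    subst hA
    obtain ⟨lv, m1, m2⟩ := p
    have hs' : s.stk = (lv, m1) :: p1 B := hs
    rw [hs', List.cons.injEq, Prod.mk.injEq] at hu
    obtain ⟨⟨e1, e2⟩, -⟩ := hu
    subst e1
    subst e2
    have e3 : m2 = .U := GM_inn_zero hal.hp.2.1
    subst e3
    exact ⟨κ, γ, B, hs, ht, hal.sorted, hal.hB⟩

theorem ald_step {ε : Bool} {s t : St} {h : ℕ} (ha : Ald ε s t h) {g1 g2 : List ℕ → ℕ}
    (hg1 : PtrStep h s g1) (hg2 : PtrStep h t g2)
    {T1 T2 : Set (List ℕ)} (h1 : Big (s.need + 1) T1) (h2 : Big (t.need + 1) T2) :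
    ∃ l1 ∈ T1, ∃ l2 ∈ T2, Fresh 0 l1 ∧ Fresh 0 l2 ∧ l1.length = s.need + 1 ∧
      l2.length = t.need + 1 ∧ l1.getLastD 0 = l2.getLastD 0 ∧ g1 l1 = g2 l2 ∧
      Ald ε (s.step l1) (t.step l2) (g1 l1) := by
  obtain ⟨hpos, hne⟩ := ha.pos
  have hne' : t.stk ≠ [] := fun hc => hne (ha.par.stk_nil.2 hc)
  have i1 := ptr_inv hg1 hpos
  have i2 := ptr_inv hg2 hpos
  have hreal : ∀ l1 l2 : List ℕ, l1.getLastD 0 = l2.getLastD 0 →
      (s.step l1).real = (t.step l2).real := by
    intro l1 l2 hl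
    rw [step_real hne, step_real hne', ha.1, hl]
  obtain ⟨hr, hcase⟩ := ha
  rcases hcase with ⟨hs, ht, hh⟩ | ⟨κ, γ, A, p, B, hs, ht, hh, hal⟩
  · obtain ⟨l1, hl1, l2, hl2, f1, f2, n1, n2, hlast, κ, γ, p, q1, q2, hal⟩ :=
      al_root (ε := ε) hs ht h1 h2
    have e1 : g1 l1 = 1 := by
      rcases i1 with ⟨a1, a2⟩ | ⟨a1, l, m, u, a2, a3⟩
      · rw [a2]; exact hh
      · rw [hs, List.cons.injEq, Prod.mk.injEq] at a2
        rcases a3 with ⟨-, a3⟩ | ⟨k, i, a3, -, -⟩
        · rw [a3]; exact hh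
        · rw [← a2.1.1] at a3
          rcases a3 with a3 | a3 <;> cases a3
    have e2 : g2 l2 = 1 := by
      rcases i2 with ⟨a1, a2⟩ | ⟨a1, l, m, u, a2, a3⟩
      · rw [a2]; exact hh
      · rw [ht, List.cons.injEq, Prod.mk.injEq] at a2
        rcases a3 with ⟨-, a3⟩ | ⟨k, i, a3, -, -⟩
        · rw [a3]; exact hh
        · rw [← a2.1.1] at a3
          rcases a3 with a3 | a3 <;> cases a3
    refine ⟨l1, hl1, l2, hl2, f1, f2, n1, n2, hlast, by rw [e1, e2], hreal l1 l2 hlast, Or.inr ?_⟩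
    exact ⟨κ, γ, [], p, [], q1, q2, by rw [e1]; rfl, hal⟩
  · have hlen1 : s.stk.length = A.length + (B.length + 1) := by
      rw [hs, p1_length, List.length_append, List.length_cons]
    have hlen2 : t.stk.length = A.length + (B.length + 1) := by
      rw [ht, p2_length, List.length_append, List.length_cons]
    cases A with
    | cons e A =>
      rw [List.length_cons] at hlen1 hlen2
      obtain ⟨l1, hl1, l2, hl2, f1, f2, n1, n2, hlast, K, q1, q2, hal'⟩ := al_above hs ht hal h1 h2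
      have e1 : g1 l1 = h := by
        rcases i1 with ⟨a1, a2⟩ | ⟨a1, -⟩
        · rw [a2]
        · omega
      have e2 : g2 l2 = h := by
        rcases i2 with ⟨a1, a2⟩ | ⟨a1, -⟩
        · rw [a2]
        · omega
      refine ⟨l1, hl1, l2, hl2, f1, f2, n1, n2, hlast, by rw [e1, e2], hreal l1 l2 hlast, Or.inr ?_⟩
      exact ⟨κ, γ, K ++ A, p, B, q1, q2, by rw [e1]; exact hh, hal'⟩
    | nil =>
      rw [List.length_nil, Nat.zero_add] at hlen1 hlen2
      obtain ⟨lv, m1, m2⟩ := p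
      have hs' : s.stk = (lv, m1) :: p1 B := hs
      have ht' : t.stk = (lv, m2) :: p2 B := ht
      have hgm : GM lv m1 := hal.hp.1
      have j1 : ((lv = .out 0 ∨ lv = .root) ∧ g1 = fun _ => h) ∨
          ∃ k i, (lv = .inn (k + 1) ∨ lv = .out (k + 1)) ∧ i < s.need ∧
            g1 = fun x => B.length + (x.getLastD 0 - x.getD i 0) := by
        rcases i1 with ⟨a1, -⟩ | ⟨-, l, m, u, a2, a3⟩
        · omega
        · rw [hs', List.cons.injEq, Prod.mk.injEq] at a2
          obtain ⟨⟨b1, -⟩, b2⟩ := a2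
          rw [← b1, ← b2, p1_length] at a3
          exact a3
      have j2 : ((lv = .out 0 ∨ lv = .root) ∧ g2 = fun _ => h) ∨
          ∃ k i, (lv = .inn (k + 1) ∨ lv = .out (k + 1)) ∧ i < t.need ∧
            g2 = fun x => B.length + (x.getLastD 0 - x.getD i 0) := by
        rcases i2 with ⟨a1, -⟩ | ⟨-, l, m, u, a2, a3⟩
        · omega
        · rw [ht', List.cons.injEq, Prod.mk.injEq] at a2
          obtain ⟨⟨b1, -⟩, b2⟩ := a2
          rw [← b1, ← b2, p2_length] at a3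
          exact a3
      have hmulti : ∀ l' : Lev,
          ((∃ k, lv = .inn (k + 1) ∧ l' = .inn k) ∨ (∃ k, lv = .out (k + 1) ∧ l' = .out k)) →
          ∃ l1 ∈ T1, ∃ l2 ∈ T2, Fresh 0 l1 ∧ Fresh 0 l2 ∧ l1.length = s.need + 1 ∧
            l2.length = t.need + 1 ∧ l1.getLastD 0 = l2.getLastD 0 ∧ g1 l1 = g2 l2 ∧
            Ald ε (s.step l1) (t.step l2) (g1 l1) := by
        intro l' hl'
        have hno : ¬ (lv = .out 0 ∨ lv = .root) := by
          rintro (hc | hc) <;> rcases hl' with ⟨k, b1, -⟩ | ⟨k, b1, -⟩ <;> rw [hc] at b1 <;> cases b1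
        rcases j1 with ⟨a1, -⟩ | ⟨-, i1, -, hi1, hgg1⟩
        · exact absurd a1 hno
        rcases j2 with ⟨a2, -⟩ | ⟨-, i2, -, hi2, hgg2⟩
        · exact absurd a2 hno
        obtain ⟨l1, hl1, l2, hl2, f1, f2, n1, n2, hlast, A', p', B', q1, q2, hal', w1, w2⟩ :=
          al_multi hl' hs ht hal hi1 hi2 h1 h2
        have e1 : g1 l1 = B.length + (B'.length + 1) := by rw [hgg1, w1]
        have e2 : g2 l2 = B.length + (B'.length + 1) := by rw [hgg2, w2]
        refine ⟨l1, hl1, l2, hl2, f1, f2, n1, n2, hlast, by rw [e1, e2], hreal l1 l2 hlast, Or.inr ?_⟩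
        refine ⟨κ, γ, A', p', B' ++ B, q1, q2, ?_, hal'⟩
        rw [e1, List.length_append]
        omega
      rcases lv with (_ | k) | (_ | k) | _
      · exfalso
        rcases j1 with ⟨a1, -⟩ | ⟨k, i, a1, -, -⟩
        · rcases a1 with a1 | a1 <;> cases a1
        · rcases a1 with a1 | a1 <;> cases a1
      · exact hmulti (.inn k) (Or.inl ⟨k, rfl, rfl⟩)
      · obtain ⟨l1, hl1, l2, hl2, f1, f2, n1, n2, hlast, γ', p', q1, q2, hal'⟩ :=
          al_out_zero hs ht hal h1 h2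
        have e1 : g1 l1 = h := by
          rcases j1 with ⟨-, a1⟩ | ⟨k, i, a1, -, -⟩
          · rw [a1]
          · rcases a1 with a1 | a1 <;> cases a1
        have e2 : g2 l2 = h := by
          rcases j2 with ⟨-, a1⟩ | ⟨k, i, a1, -, -⟩
          · rw [a1]
          · rcases a1 with a1 | a1 <;> cases a1
        refine ⟨l1, hl1, l2, hl2, f1, f2, n1, n2, hlast, by rw [e1, e2], hreal l1 l2 hlast, Or.inr ?_⟩
        exact ⟨κ, γ', [], p', B, q1, q2, by rw [e1]; exact hh, hal'⟩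
      · exact hmulti (.out k) (Or.inr ⟨k, rfl, rfl⟩)
      · exact absurd hgm (by simp [GM])

end Pool.Agent.H90.Ord
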