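import Pool.Agent.H90.Ord.Mach

/-!
# Iterated ultrafilter quantifier (module BIG)

All by induction on the length, with the ultrafilter `hyperfilter ℕ`, which contains the sets
`{c | m ≤ c}`.  `big_merge`: induction on the script `σ`, for all `T1`, `T2`, `m`; a symbol `(true, true)` means
that the number is taken into both lists, `(true, false)` only into the first one, `(false, true)` only into
the second one, `(false, false)` does not occur (it may be handled by any fresh number).
-/

set_option autoImplicit false

namespace Pool.Agent.H90.Ord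

open Filter

theorem big_mono {n : ℕ} {S T : Set (List ℕ)} (h : S ⊆ T) (hS : Big n S) : Big n T := by
  induction n generalizing S T with
  | zero => exact h hS
  | succ n ih =>
      refine Filter.Eventually.mono hS ?_
      intro c hc
      exact ih (fun l hl => h hl) hc

theorem big_inter {n : ℕ} {S T : Set (List ℕ)} (hS : Big n S) (hT : Big n T) :
    Big n (S ∩ T) := by
  induction n generalizing S T with
  | zero => exact ⟨hS, hT⟩
  | succ n ih =>
      refine (Filter.Eventually.and hS hT).mono ?_
      intro c hc
      exact ih hc.1 hc.2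

theorem big_compl {n : ℕ} {S : Set (List ℕ)} (h : ¬ Big n S) : Big n Sᶜ := by
  induction n generalizing S with
  | zero => exact h
  | succ n ih =>
      have h1 : ∀ᶠ c in (hyperfilter ℕ : Filter ℕ), ¬ Big n {l | c :: l ∈ S} :=
        Ultrafilter.eventually_not.2 h
      refine h1.mono ?_
      intro c hc
      exact ih hc

theorem big_not_compl {n : ℕ} {S : Set (List ℕ)} (h : Big n S) : ¬ Big n Sᶜ := by
  induction n generalizing S with
  | zero => exact fun h' => h' h
  | succ n ih =>
      intro h'
      have h1 : ∀ᶠ c in (hyperfilter ℕ : Filter ℕ), False := by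
        refine (Filter.Eventually.and h h').mono ?_
        intro c hc
        exact ih hc.1 hc.2
      obtain ⟨c, hc⟩ := h1.exists
      exact hc

private theorem eventually_ge_hyper (m : ℕ) : ∀ᶠ c in (hyperfilter ℕ : Filter ℕ), m ≤ c := by
  have h1 : ∀ᶠ c in (cofinite : Filter ℕ), m ≤ c := by
    rw [Nat.cofinite_eq_atTop]
    exact eventually_ge_atTop m
  exact h1.filter_mono hyperfilter_le_cofinite

theorem big_fresh (n m : ℕ) : Big n {l | l.length = n ∧ Fresh m l} := by
  induction n generalizing m with
  | zero => exact ⟨rfl, trivial⟩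
  | succ n ih =>
      refine (eventually_ge_hyper (m + 3)).mono ?_
      intro c hc
      refine big_mono ?_ (ih c)
      intro l hl
      refine ⟨?_, hc, hl.2⟩
      rw [List.length_cons, hl.1]

private theorem big_exists {n : ℕ} {S : Set (List ℕ)} (h : Big n S) : ∃ l, l ∈ S := by
  induction n generalizing S with
  | zero => exact ⟨[], h⟩
  | succ n ih =>
      obtain ⟨c, hc⟩ := Filter.Eventually.exists h
      obtain ⟨l, hl⟩ := ih hc
      exact ⟨c :: l, hl⟩

theorem big_nonempty {n : ℕ} {S : Set (List ℕ)} (h : Big n S) : ∃ l ∈ S, l.length = n := by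
  obtain ⟨l, hl1, hl2⟩ := big_exists (big_inter h (big_fresh n 0))
  exact ⟨l, hl1, hl2.1⟩

/-- a function with finitely many values is constant on a Big set -/
theorem big_pigeon {n : ℕ} {S : Set (List ℕ)} (h : Big n S) {ι : Type} (F : Finset ι)
    (P : ι → List ℕ → Prop) (hP : ∀ l ∈ S, ∃ i ∈ F, P i l) : ∃ i ∈ F, Big n {l | P i l} := by
  classical
  by_contra hcon
  push Not at hcon
  have h1 : ∀ G : Finset ι, G ⊆ F → Big n {l | ∀ i ∈ G, ¬ P i l} := by
    intro G
    induction G using Finset.induction_on with
    | empty =>
        intro _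
        refine big_mono ?_ h
        intro l _ i hi
        exact absurd hi (Finset.notMem_empty i)
    | insert a G ha ih =>
        intro hG
        have h2 := ih (fun i hi => hG (Finset.mem_insert_of_mem hi))
        have h3 := big_compl (hcon a (hG (Finset.mem_insert_self a G)))
        refine big_mono ?_ (big_inter h2 h3)
        intro l hl i hi
        rcases Finset.mem_insert.1 hi with rfl | hi
        · exact hl.2
        · exact hl.1 i hi
  obtain ⟨l, hl⟩ := big_exists (big_inter h (h1 F (Finset.Subset.refl F)))
  obtain ⟨i, hi, hPi⟩ := hP l hl.1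
  exact hl.2 i hi hPi

/-- the elements of `e` at the places where the first component of the script is `true` -/
def sel1 : List (Bool × Bool) → List ℕ → List ℕ
  | (true, _) :: σ, c :: e => c :: sel1 σ e
  | (false, _) :: σ, _ :: e => sel1 σ e
  | _, _ => []

/-- the elements of `e` at the places where the second component of the script is `true` -/
def sel2 : List (Bool × Bool) → List ℕ → List ℕ
  | (_, true) :: σ, c :: e => c :: sel2 σ e
  | (_, false) :: σ, _ :: e => sel2 σ e
  | _, _ => []

theorem big_merge (σ : List (Bool × Bool)) (m : ℕ) {T1 T2 : Set (List ℕ)}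
    (h1 : Big ((σ.filter fun p => p.1).length + 1) T1)
    (h2 : Big ((σ.filter fun p => p.2).length + 1) T2) :
    ∃ (e : List ℕ) (N : ℕ), e.length = σ.length ∧ Fresh m (e ++ [N]) ∧ sel1 σ e ++ [N] ∈ T1 ∧
      sel2 σ e ++ [N] ∈ T2 := by
  induction σ generalizing m T1 T2 with
  | nil =>
      have h1' : ∀ᶠ c in (hyperfilter ℕ : Filter ℕ), [c] ∈ T1 := h1
      have h2' : ∀ᶠ c in (hyperfilter ℕ : Filter ℕ), [c] ∈ T2 := h2
      obtain ⟨N, hN⟩ := ((h1'.and h2').and (eventually_ge_hyper (m + 3))).exists
      exact ⟨[], N, rfl, ⟨hN.2, trivial⟩, hN.1.1, hN.1.2⟩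
  | cons p σ ih =>
      obtain ⟨p1, p2⟩ := p
      cases p1 with
      | true =>
          have h1' : ∀ᶠ c in (hyperfilter ℕ : Filter ℕ),
              Big ((σ.filter fun p => p.1).length + 1) {l | c :: l ∈ T1} := h1
          cases p2 with
          | true =>
              have h2' : ∀ᶠ c in (hyperfilter ℕ : Filter ℕ),
                  Big ((σ.filter fun p => p.2).length + 1) {l | c :: l ∈ T2} := h2
              obtain ⟨c, hc⟩ := ((h1'.and h2').and (eventually_ge_hyper (m + 3))).exists
              obtain ⟨e, N, he, hf, ht1, ht2⟩ := ih c hc.1.1 hc.1.2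
              refine ⟨c :: e, N, ?_, ⟨hc.2, hf⟩, ht1, ht2⟩
              rw [List.length_cons, List.length_cons, he]
          | false =>
              obtain ⟨c, hc⟩ := (h1'.and (eventually_ge_hyper (m + 3))).exists
              obtain ⟨e, N, he, hf, ht1, ht2⟩ := ih c hc.1 h2
              refine ⟨c :: e, N, ?_, ⟨hc.2, hf⟩, ht1, ht2⟩
              rw [List.length_cons, List.length_cons, he]
      | false =>
          cases p2 with
          | true =>
              have h2' : ∀ᶠ c in (hyperfilter ℕ : Filter ℕ),
                  Big ((σ.filter fun p => p.2).length + 1) {l | c :: l ∈ T2} := h2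
              obtain ⟨c, hc⟩ := (h2'.and (eventually_ge_hyper (m + 3))).exists
              obtain ⟨e, N, he, hf, ht1, ht2⟩ := ih c h1 hc.1
              refine ⟨c :: e, N, ?_, ⟨hc.2, hf⟩, ht1, ht2⟩
              rw [List.length_cons, List.length_cons, he]
          | false =>
              obtain ⟨e, N, he, hf, ht1, ht2⟩ := ih (m + 3) h1 h2
              refine ⟨(m + 3) :: e, N, ?_, ⟨le_refl _, hf⟩, ht1, ht2⟩
              rw [List.length_cons, List.length_cons, he]

theorem Fresh.mono {m m' : ℕ} {l : List ℕ} (h : Fresh m l) (hm : m' ≤ m) : Fresh m' l := by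
  cases l with
  | nil => trivial
  | cons c l => exact ⟨le_trans (Nat.add_le_add_right hm 3) h.1, h.2⟩

theorem Fresh.ge {m : ℕ} {l : List ℕ} (h : Fresh m l) {c : ℕ} (hc : c ∈ l) : m + 3 ≤ c := by
  induction l generalizing m with
  | nil => exact absurd hc List.not_mem_nil
  | cons d l ih =>
      rcases List.mem_cons.1 hc with rfl | hc
      · exact h.1
      · have h1 := ih h.2 hc
        have h2 := h.1
        omega

theorem Fresh.sorted {m : ℕ} {l : List ℕ} (h : Fresh m l) : l.Pairwise (fun a b => a + 3 ≤ b) := by
  induction l generalizing m with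
  | nil => exact List.Pairwise.nil
  | cons c l ih =>
      refine List.Pairwise.cons ?_ (ih h.2)
      intro b hb
      exact Fresh.ge h.2 hb

theorem Fresh.sublist {m : ℕ} {l l' : List ℕ} (h : Fresh m l) (hl : l'.Sublist l) :
    Fresh m l' := by
  induction hl generalizing m with
  | slnil => trivial
  | cons a _ ih =>
      refine Fresh.mono (ih h.2) ?_
      have := h.1
      omega
  | cons_cons a _ ih => exact ⟨h.1, ih h.2⟩

end Pool.Agent.H90.Ord
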