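import Pool.Agent.H90.Ord.EMC

/-!
# All blocks (module EMD)

Take `adj x y := ∃ hx hy, G.Adj ⟨x, hx⟩ ⟨y, hy⟩` in `em_block`; the elements of `V` are the lists `n :: r` with
`r ∈ Run [out n]`; `f (n :: r) = (n+1) :: g_n r`.
-/

set_option autoImplicit false

namespace Pool.Agent.H90.Ord

theorem em_all (G : SimpleGraph V) (hG : G.CliqueFree 3)
    (hc : ∀ x y : V, x.1.head? ≠ y.1.head? → ¬ G.Adj x y) :
    ∃ f : V → V, StrictMono f ∧ ∀ x y, ¬ G.Adj (f x) (f y) := by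
  classical
  let adj : List ℕ → List ℕ → Prop := fun x y =>
    ∃ (hx : runS [Lev.root] x = some []) (hy : runS [Lev.root] y = some []),
      G.Adj ⟨x, hx⟩ ⟨y, hy⟩
  have hs : ∀ x y, adj x y → adj y x := fun x y ⟨hx, hy, h⟩ => ⟨hy, hx, h.symm⟩
  have hi : ∀ x, ¬ adj x x := fun x ⟨hx, hy, h⟩ => G.loopless.irrefl _ h
  have ht : ∀ x y z, adj x y → adj y z → adj x z → False := by
    rintro x y z ⟨hx, hy, h1⟩ ⟨_, hz, h2⟩ ⟨_, _, h3⟩
    apply hG {⟨x, hx⟩, ⟨y, hy⟩, ⟨z, hz⟩}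
    rw [SimpleGraph.is3Clique_triple_iff]
    exact ⟨h1, h3, h2⟩
  choose g hg1 hg2 hg3 using em_block adj hs hi ht
  -- decomposition of the elements of `V`
  have hdec : ∀ x : V, ∃ n r, x.1 = n :: r ∧ r ∈ Run [Lev.out n] := by
    intro x
    obtain ⟨n, r, h1, h2⟩ := run_cons.1 (show x.1 ∈ Run [Lev.root] from x.2)
    exact ⟨n, r, h1, by simpa [kidsLev] using h2⟩
  choose hd tl hx1 hx2 using hdec
  have hmem : ∀ x : V, runS [Lev.root] ((hd x + 1) :: g (hd x) (tl x)) = some [] := by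
    intro x
    have h1 := hg1 (hd x) (tl x) (hx2 x)
    have h2 : ((hd x + 1) :: g (hd x) (tl x)) ∈ Run [Lev.root] :=
      run_cons.2 ⟨_, _, rfl, by simpa [kidsLev] using h1⟩
    exact h2
  refine ⟨fun x => ⟨(hd x + 1) :: g (hd x) (tl x), hmem x⟩, ?_, ?_⟩
  · intro x y hxy
    have h1 : x.1 < y.1 := hxy
    rw [hx1 x, hx1 y] at h1
    show ((hd x + 1) :: g (hd x) (tl x)) < ((hd y + 1) :: g (hd y) (tl y))
    rw [List.cons_lt_cons_iff] at h1 ⊢
    rcases h1 with h1 | ⟨h1, h2⟩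
    · exact Or.inl (by omega)
    · refine Or.inr ⟨by rw [h1], ?_⟩
      have h3 := hx2 x
      have h4 := hx2 y
      rw [h1] at h3 ⊢
      exact hg2 (hd y) _ h3 _ h4 h2
  · intro x y hadj
    by_cases hh : hd x = hd y
    · have h3 := hx2 x
      have h4 := hx2 y
      rw [hh] at h3
      apply hg3 (hd y) _ h3 _ h4
      have e1 : ((hd y + 1) :: g (hd y) (tl x)) = ((hd x + 1) :: g (hd x) (tl x)) := by rw [hh]
      rw [e1]
      exact ⟨hmem x, hmem y, hadj⟩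
    · apply hc _ _ _ hadj
      simp [hh]

end Pool.Agent.H90.Ord
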