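import Pool.Agent.H90.Ord.K4R2

/-!
# From the pattern to the block function (module K4Pat)

`vt r` is the set of the numbers of a strictly increasing run with their levels.  `pat_blocks`: from the
decomposition into blocks define `t n = 1 +` the number of `k` in `2..13` such that the smallest number of
the block number `k` is `≤ n`.  `pat_lt`: the first number of `x` is smaller than the first number of `y`.
`GI_cliqueFree`: four pairwise adjacent vertices of `VI` can be ordered increasingly; by `pat_lt` each pair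
`(smaller, larger)` has the pattern; apply `noFour`.
-/

set_option autoImplicit false

namespace Pool.Agent.H90.Ord

open Classical in
/-- the numbers of a run with their levels -/
noncomputable def vt (r : List ℕ) : Vt where
  s := {n | n ∈ r}
  lv n := if h : ∃ l, (n, l) ∈ tagged r then Classical.choose h else .root

theorem lvls_length (s : List Lev) (r : List ℕ) (h : runS s r ≠ none) :
    (lvls s r).length = r.length := by
  induction r generalizing s with
  | nil => cases s <;> rfl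
  | cons n r ih =>
    cases s with
    | nil => exact absurd rfl h
    | cons l s =>
      have := ih (kidsLev l n ++ s) h
      simp only [lvls, List.length_cons, this]

theorem tagged_fst (x : VI) : (tagged x.1).map Prod.fst = x.1 := by
  have hl : (lvls [.root] x.1).length = x.1.length :=
    lvls_length _ _ (by rw [x.2.1]; simp)
  unfold tagged
  rw [List.map_fst_zip (by omega)]

theorem tagged_nodup (x : VI) : ((tagged x.1).map Prod.fst).Nodup := by
  rw [tagged_fst]
  exact x.2.2.imp (fun h => ne_of_lt h)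

theorem mem_tagged (x : VI) {n : ℕ} (hn : n ∈ x.1) : ∃ l, (n, l) ∈ tagged x.1 := by
  have h : n ∈ (tagged x.1).map Prod.fst := by rw [tagged_fst]; exact hn
  obtain ⟨p, hp, rfl⟩ := List.mem_map.1 h
  exact ⟨p.2, hp⟩

theorem of_mem_tagged (x : VI) {p : ℕ × Lev} (hp : p ∈ tagged x.1) : p.1 ∈ x.1 := by
  have h : p.1 ∈ (tagged x.1).map Prod.fst := List.mem_map.2 ⟨p, hp, rfl⟩
  rwa [tagged_fst] at h

theorem tagged_inj (x : VI) {p q : ℕ × Lev} (hp : p ∈ tagged x.1) (hq : q ∈ tagged x.1)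
    (h : p.1 = q.1) : p = q :=
  List.inj_on_of_nodup_map (tagged_nodup x) hp hq h

theorem lv_eq (x : VI) {p : ℕ × Lev} (hp : p ∈ tagged x.1) : (vt x.1).lv p.1 = p.2 := by
  have h : ∃ l, (p.1, l) ∈ tagged x.1 := ⟨p.2, hp⟩
  have e : (vt x.1).lv p.1 = Classical.choose h := by
    simp only [vt]
    rw [dif_pos h]
  rw [e]
  have := tagged_inj x (Classical.choose_spec h) hp rfl
  exact congrArg Prod.snd this

/-- the general block function -/
theorem exists_t (Z : ℕ → List (ℕ × Lev)) (hne : ∀ k, 1 ≤ k → k ≤ 13 → Z k ≠ [])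
    (hb : ∀ k, 1 ≤ k → k ≤ 12 → Before (Z k) (Z (k + 1))) :
    ∃ t : ℕ → ℕ, Monotone t ∧ ∀ k, 1 ≤ k → k ≤ 13 → ∀ p ∈ Z k, t p.1 = k := by
  classical
  have hb' : ∀ d j, 1 ≤ j → j + d + 1 ≤ 13 → Before (Z j) (Z (j + d + 1)) := by
    intro d
    induction d with
    | zero => intro j h1 h2; exact hb j h1 (by omega)
    | succ d ih =>
      intro j h1 h2 p hp q hq
      obtain ⟨r, hr⟩ := List.exists_mem_of_ne_nil _ (hne (j + d + 1) (by omega) (by omega))
      exact lt_trans (ih j h1 (by omega) p hp r hr)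
        (hb (j + d + 1) (by omega) (by omega) r hr q hq)
  have hb'' : ∀ j k, 1 ≤ j → j < k → k ≤ 13 → Before (Z j) (Z k) := by
    intro j k h1 h2 h3
    obtain ⟨d, rfl⟩ : ∃ d, k = j + d + 1 := ⟨k - j - 1, by omega⟩
    exact hb' d j h1 h3
  refine ⟨fun n => 1 + ((Finset.Icc 2 13).filter (fun k => ∃ p ∈ Z k, p.1 ≤ n)).card, ?_, ?_⟩
  · intro a b hab
    refine Nat.add_le_add_left (Finset.card_le_card ?_) 1
    intro k hk
    rw [Finset.mem_filter] at hk ⊢
    obtain ⟨h1, p, hp, hpa⟩ := hk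
    exact ⟨h1, p, hp, le_trans hpa hab⟩
  · intro k h1 h2 p hp
    have e : (Finset.Icc 2 13).filter (fun j => ∃ q ∈ Z j, q.1 ≤ p.1) = Finset.Icc 2 k := by
      ext j
      rw [Finset.mem_filter, Finset.mem_Icc, Finset.mem_Icc]
      constructor
      · rintro ⟨⟨h3, h4⟩, q, hq, hqp⟩
        refine ⟨h3, ?_⟩
        by_contra hlt
        have := hb'' k j h1 (by omega) h4 p hp q hq
        omega
      · rintro ⟨h3, h4⟩
        refine ⟨⟨h3, by omega⟩, ?_⟩
        rcases Nat.lt_or_ge j k with h5 | h5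
        · obtain ⟨q, hq⟩ := List.exists_mem_of_ne_nil _ (hne j (by omega) (by omega))
          exact ⟨q, hq, le_of_lt (hb'' j k (by omega) h5 h2 q hq p hp)⟩
        · have : j = k := by omega
          subst this
          exact ⟨p, hp, le_refl _⟩
    show 1 + ((Finset.Icc 2 13).filter (fun j => ∃ q ∈ Z j, q.1 ≤ p.1)).card = k
    rw [e, Nat.card_Icc]
    omega

theorem pat_blocks {x y : VI} (h : Pat (tagged x.1) (tagged y.1)) :
    ∃ t A B, Blocks (vt x.1) (vt y.1) t A B := by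
  obtain ⟨X1, X3, X5, X7, X9, X11, X13, Y2, Y4, Y6, Y8, Y10, Y12, hx, hy,
    ⟨n1, n3, n5, n7, n9, n11, n13⟩, ⟨n2, n4, n6, n8, n10, n12⟩,
    ⟨b1, b2, b3, b4, b5, b6, b7, b8, b9, b10, b11, b12⟩, ⟨i3, i11, i4, i6, i8, i10⟩,
    A, B, hAB, m5, m7, m9⟩ := h
  let Z : ℕ → List (ℕ × Lev) := fun k => match k with
    | 1 => X1 | 2 => Y2 | 3 => X3 | 4 => Y4 | 5 => X5 | 6 => Y6 | 7 => X7 | 8 => Y8
    | 9 => X9 | 10 => Y10 | 11 => X11 | 12 => Y12 | 13 => X13 | _ => []
  obtain ⟨t, tm, ht⟩ := exists_t Z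
    (by intro k h1 h2; interval_cases k <;> assumption)
    (by intro k h1 h2; interval_cases k <;> assumption)
  have hZx : ∀ p ∈ tagged x.1, ∃ k, Odd k ∧ 1 ≤ k ∧ k ≤ 13 ∧ p ∈ Z k := by
    intro p hp
    rw [hx] at hp
    simp only [List.mem_append] at hp
    rcases hp with (((((h | h) | h) | h) | h) | h) | h
    · exact ⟨1, by decide, by norm_num, by norm_num, h⟩
    · exact ⟨3, by decide, by norm_num, by norm_num, h⟩
    · exact ⟨5, by decide, by norm_num, by norm_num, h⟩
    · exact ⟨7, by decide, by norm_num, by norm_num, h⟩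
    · exact ⟨9, by decide, by norm_num, by norm_num, h⟩
    · exact ⟨11, by decide, by norm_num, by norm_num, h⟩
    · exact ⟨13, by decide, by norm_num, by norm_num, h⟩
  have hZy : ∀ p ∈ tagged y.1, ∃ k, Even k ∧ 2 ≤ k ∧ k ≤ 12 ∧ p ∈ Z k := by
    intro p hp
    rw [hy] at hp
    simp only [List.mem_append] at hp
    rcases hp with ((((h | h) | h) | h) | h) | h
    · exact ⟨2, by decide, by norm_num, by norm_num, h⟩
    · exact ⟨4, by decide, by norm_num, by norm_num, h⟩
    · exact ⟨6, by decide, by norm_num, by norm_num, h⟩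
    · exact ⟨8, by decide, by norm_num, by norm_num, h⟩
    · exact ⟨10, by decide, by norm_num, by norm_num, h⟩
    · exact ⟨12, by decide, by norm_num, by norm_num, h⟩
  have hxZ : ∀ k, Odd k → k ≤ 13 → ∀ p ∈ Z k, p ∈ tagged x.1 := by
    intro k h1 h2 p hp
    rw [hx]
    simp only [List.mem_append]
    interval_cases k
    · exact absurd h1 (by decide)
    · simp only [Z] at hp; tauto
    · exact absurd h1 (by decide)
    · simp only [Z] at hp; tauto
    · exact absurd h1 (by decide)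
    · simp only [Z] at hp; tauto
    · exact absurd h1 (by decide)
    · simp only [Z] at hp; tauto
    · exact absurd h1 (by decide)
    · simp only [Z] at hp; tauto
    · exact absurd h1 (by decide)
    · simp only [Z] at hp; tauto
    · exact absurd h1 (by decide)
    · simp only [Z] at hp; tauto
  have hyZ : ∀ k, Even k → 2 ≤ k → k ≤ 12 → ∀ p ∈ Z k, p ∈ tagged y.1 := by
    intro k h1 h3 h2 p hp
    rw [hy]
    simp only [List.mem_append]
    interval_cases k
    · simp only [Z] at hp; tauto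
    · exact absurd h1 (by decide)
    · simp only [Z] at hp; tauto
    · exact absurd h1 (by decide)
    · simp only [Z] at hp; tauto
    · exact absurd h1 (by decide)
    · simp only [Z] at hp; tauto
    · exact absurd h1 (by decide)
    · simp only [Z] at hp; tauto
    · exact absurd h1 (by decide)
    · simp only [Z] at hp; tauto
  -- the element of `Z (t n)` above `n`
  have hX : ∀ n ∈ x.1, Odd (t n) ∧ t n ≤ 13 ∧ (n, (vt x.1).lv n) ∈ Z (t n) := by
    intro n hn
    obtain ⟨l, hl⟩ := mem_tagged x hn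
    obtain ⟨k, k1, k2, k3, k4⟩ := hZx _ hl
    have e := ht k k2 k3 _ k4
    have e2 := lv_eq x hl
    simp only at e e2
    rw [e, e2]
    exact ⟨k1, k3, k4⟩
  have hY : ∀ n ∈ y.1, Even (t n) ∧ 2 ≤ t n ∧ t n ≤ 12 ∧ (n, (vt y.1).lv n) ∈ Z (t n) := by
    intro n hn
    obtain ⟨l, hl⟩ := mem_tagged y hn
    obtain ⟨k, k1, k2, k3, k4⟩ := hZy _ hl
    have e := ht k (by omega) (by omega) _ k4
    have e2 := lv_eq y hl
    simp only at e e2
    rw [e, e2]
    exact ⟨k1, k2, k3, k4⟩
  have hZX : ∀ k, Odd k → 1 ≤ k → k ≤ 13 → ∀ p ∈ Z k,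
      p.1 ∈ (vt x.1).s ∧ t p.1 = k ∧ (vt x.1).lv p.1 = p.2 := by
    intro k h1 h2 h3 p hp
    have := hxZ k h1 h3 p hp
    exact ⟨of_mem_tagged x this, ht k h2 h3 p hp, lv_eq x this⟩
  refine ⟨t, A, B, ⟨tm, ?_, ?_, ?_, ?_, ?_, ?_, hAB, ?_, ?_, ?_, ?_, ?_, ?_⟩⟩
  · intro n hn
    exact ⟨(hX n hn).1, (hX n hn).2.1⟩
  · intro n hn
    exact ⟨(hY n hn).1, (hY n hn).2.1, (hY n hn).2.2.1⟩
  · intro k h1 h2
    have h0 : 1 ≤ k := h1.pos
    have hne : Z k ≠ [] := by interval_cases k <;> assumption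
    obtain ⟨p, hp⟩ := List.exists_mem_of_ne_nil _ hne
    exact ⟨p.1, (hZX k h1 h0 h2 p hp).1, (hZX k h1 h0 h2 p hp).2.1⟩
  · intro k h1 h2 h3
    have hne : Z k ≠ [] := by interval_cases k <;> assumption
    obtain ⟨p, hp⟩ := List.exists_mem_of_ne_nil _ hne
    exact ⟨p.1, of_mem_tagged y (hyZ k h1 h2 h3 p hp), ht k (by omega) (by omega) p hp⟩
  · intro n hn h
    obtain ⟨_, _, h3⟩ := hX n hn
    rcases h with h | h
    · rw [h] at h3
      exact i3 _ h3
    · rw [h] at h3
      exact i11 _ h3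
  · intro n hn h4 h10
    obtain ⟨h1, _, _, h3⟩ := hY n hn
    have hc : t n = 4 ∨ t n = 6 ∨ t n = 8 ∨ t n = 10 := by
      obtain ⟨m, hm⟩ := h1
      omega
    rcases hc with h | h | h | h
    · rw [h] at h3; exact i4 _ h3
    · rw [h] at h3; exact i6 _ h3
    · rw [h] at h3; exact i8 _ h3
    · rw [h] at h3; exact i10 _ h3
  · obtain ⟨⟨p, hp, hpA⟩, _⟩ := m5
    obtain ⟨q1, q2, q3⟩ := hZX 5 (by decide) (by norm_num) (by norm_num) p hp
    exact ⟨p.1, q1, q2, by rw [q3, hpA]⟩
  · intro n hn h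
    obtain ⟨_, _, h3⟩ := hX n hn
    rw [h] at h3
    exact m5.2 _ h3
  · obtain ⟨⟨p, hp, hpA⟩, _⟩ := m7
    obtain ⟨q1, q2, q3⟩ := hZX 7 (by decide) (by norm_num) (by norm_num) p hp
    exact ⟨p.1, q1, q2, by rw [q3, hpA]⟩
  · intro n hn h
    obtain ⟨_, _, h3⟩ := hX n hn
    rw [h] at h3
    exact m7.2 _ h3
  · obtain ⟨⟨p, hp, hpA⟩, _⟩ := m9
    obtain ⟨q1, q2, q3⟩ := hZX 9 (by decide) (by norm_num) (by norm_num) p hp
    exact ⟨p.1, q1, q2, by rw [q3, hpA]⟩
  · intro n hn h
    obtain ⟨_, _, h3⟩ := hX n hn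
    rw [h] at h3
    exact m9.2 _ h3

theorem pat_lt {x y : VI} (h : Pat (tagged x.1) (tagged y.1)) : x < y := by
  obtain ⟨X1, X3, X5, X7, X9, X11, X13, Y2, Y4, Y6, Y8, Y10, Y12, hx, hy,
    ⟨n1, _⟩, ⟨n2, _⟩, ⟨b1, _⟩, _⟩ := h
  have ex := tagged_fst x
  have ey := tagged_fst y
  cases X1 with
  | nil => exact absurd rfl n1
  | cons p P =>
    cases Y2 with
    | nil => exact absurd rfl n2
    | cons q Q =>
      have hlt : p.1 < q.1 := b1 p (by simp) q (by simp)
      rw [hx] at ex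
      rw [hy] at ey
      simp only [List.cons_append, List.map_cons] at ex ey
      show x.1 < y.1
      rw [← ex, ← ey]
      exact List.Lex.rel hlt

theorem GI_cliqueFree : GI.CliqueFree 4 := by
  intro s hs
  have hc : s.card = 4 := hs.card_eq
  let e := s.orderEmbOfFin hc
  have he : ∀ i, e i ∈ s := fun i => s.orderEmbOfFin_mem hc i
  have hadj : ∀ i j : Fin 4, i < j → ∃ t A B, Blocks (vt (e i).1) (vt (e j).1) t A B := by
    intro i j hij
    have hlt : e i < e j := e.strictMono hij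
    have ha : GI.Adj (e i) (e j) := hs.isClique (he i) (he j) (ne_of_lt hlt)
    rcases ha.2 with h | h
    · exact pat_blocks h
    · exact absurd (pat_lt h) (not_lt_of_gt hlt)
  obtain ⟨ab, A1, B1, hab⟩ := hadj 0 1 (by decide)
  obtain ⟨ac, A2, B2, hac⟩ := hadj 0 2 (by decide)
  obtain ⟨ad, A3, B3, had⟩ := hadj 0 3 (by decide)
  obtain ⟨bc, A4, B4, hbc⟩ := hadj 1 2 (by decide)
  obtain ⟨bd, A5, B5, hbd⟩ := hadj 1 3 (by decide)
  obtain ⟨cd, A6, B6, hcd⟩ := hadj 2 3 (by decide)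
  exact noFour ⟨ab, ac, ad, bc, bd, cd, A1, B1, A2, B2, A3, B3, A4, B4, A5, B5, A6, B6,
    hab, hac, had, hbc, hbd, hcd⟩

end Pool.Agent.H90.Ord
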