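import Pool.Agent.H90.Ord.FFin

/-!
# FUS: the fusion theorem
-/

set_option autoImplicit false

namespace Pool.Agent.H90.Ord

private theorem list_append_lt (R : List ℕ) {α β : ℕ} (h : α < β) (u v : List ℕ) : R ++ α :: u < R ++ β :: v := by
  rw [append_lt_append_left]
  exact List.Lex.rel h

theorem fusion (red : List ℕ → List ℕ → Prop) (h : ¬ Win red start start) :
    ∃ f : V → V, StrictMono f ∧ (∀ x, (f x).1.Pairwise (· < ·)) ∧
      ∀ (x y : V) (a b : ℕ), x.1.head? = some a → y.1.head? = some b → a < b →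
        ¬ red (f x).1 (f y).1 := by
  obtain ⟨F, hF⟩ := tr_exists h
  have hst : ∀ x : V, stkOf x.1.reverse = some [] := by
    intro x
    unfold stkOf
    rw [List.reverse_reverse]
    exact x.2
  have hok : ∀ x : V, Ok (F (code x.1.reverse)) [] ∧ (F (code x.1.reverse)).Nonrun := fun x =>
    (hF (code x.1.reverse + 1)).ok _ _ (Nat.lt_succ_self _) (hst x)
  have hstk : ∀ x : V, (F (code x.1.reverse)).stk = [] := fun x =>
    (nonrun_nil (hok x).1.copy (hok x).2).1 rfl
  refine ⟨fun x => ⟨(F (code x.1.reverse)).real, ?_⟩, ?_, ?_, ?_⟩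
  · have h1 := (hok x).1.run
    rw [hstk x] at h1
    exact h1
  · intro x y hxy
    have hlt : x.1 < y.1 := hxy
    have hnp : ¬ x.1 <+: y.1 := by
      intro hp
      have := run_prefix (s := [Lev.root]) x.2 y.2 hp
      rw [this] at hlt
      exact lt_irrefl _ hlt
    obtain ⟨p, a, b, x', y', hx, hy, hab⟩ := lex_split hlt hnp
    have hx1 : x.1 = (p ++ [a]) ++ x' := by rw [hx]; simp
    have hy1 : y.1 = (p ++ [b]) ++ y' := by rw [hy]; simp
    have hsx := hst x
    have hsy := hst y
    rw [hx1] at hsx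
    rw [hy1] at hsy
    obtain ⟨rx, hrx⟩ := real_prefix hF (p ++ [a]) x' hsx
    obtain ⟨ry, hry⟩ := real_prefix hF (p ++ [b]) y' hsy
    obtain ⟨σa, hσa⟩ := stk_prefix hsx
    obtain ⟨σb, hσb⟩ := stk_prefix hsy
    have ha : (p ++ [a]).reverse = a :: p.reverse := by simp
    have hb : (p ++ [b]).reverse = b :: p.reverse := by simp
    rw [ha] at hσa
    rw [hb] at hσb
    obtain ⟨ra, hra, hra0, -⟩ := (hF (code (a :: p.reverse) + 1)).ext a p.reverse σa (Nat.lt_succ_self _) hσa
    obtain ⟨rb, hrb, hrb0, hrb1⟩ := (hF (code (b :: p.reverse) + 1)).ext b p.reverse σb (Nat.lt_succ_self _) hσb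
    obtain ⟨α, ua, rfl⟩ := List.exists_cons_of_ne_nil hra0
    obtain ⟨β, ub, rfl⟩ := List.exists_cons_of_ne_nil hrb0
    have hαβ : α < β := by
      refine hrb1 β (List.mem_cons_self) _ (code_mono hab p.reverse) α ?_
      rw [hra]
      simp
    show (F (code x.1.reverse)).real < (F (code y.1.reverse)).real
    rw [hx1, hy1, hrx, hry, ha, hb, hra, hrb]
    rw [List.append_assoc, List.append_assoc, List.cons_append, List.cons_append]
    exact list_append_lt _ hαβ _ _
  · intro x
    exact (hok x).1.inc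
  · intro x y a b hxa hyb hab hred
    have h1 : x.1.reverse.getLast? = some a := by rw [List.getLast?_reverse]; exact hxa
    have h2 : y.1.reverse.getLast? = some b := by rw [List.getLast?_reverse]; exact hyb
    have h3 := (hF (max (code x.1.reverse) (code y.1.reverse) + 1)).nw x.1.reverse y.1.reverse [] [] a b
      (by omega) (by omega) (hst x) (hst y) h1 h2 hab
    exact h3 (Win.done (hstk x) (hstk y) hred)

end Pool.Agent.H90.Ord
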