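import Pool.Agent.H90.Ord.STPtr

/-!
# Inner and outer pointed entries, invariants (module STCls)
-/

set_option autoImplicit false

namespace Pool.Agent.H90.Ord

private theorem lev_le_trans {a b c : Lev} (h1 : a.le b) (h2 : b.le c) : a.le c := by
  cases a <;> cases b <;> cases c <;> simp_all [Lev.le] <;> omega

private theorem step_stk {s : St} {lv : Lev} {m : Mark} {t : List (Lev × Mark)}
    (hs : s.stk = (lv, m) :: t) (l : List ℕ) :
    (s.step l).stk = kids lv m s.reg l.dropLast (l.getLastD 0) ++ t := by
  unfold St.step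
  rw [hs]

private theorem entryAt_top {s : St} {x : Lev × Mark} {t : List (Lev × Mark)} (hs : s.stk = x :: t) :
    EntryAt s.stk s.stk.length x := by
  rw [hs]
  exact entryAt_cons.mpr (Or.inl ⟨by rw [List.length_cons], rfl⟩)

private theorem entryAt_step_low {s : St} {h : ℕ} (h1 : h < s.stk.length) {l : List ℕ}
    {e : Lev × Mark} (he : EntryAt (s.step l).stk h e) : EntryAt s.stk h e := by
  have h0 : s.stk ≠ [] := by
    intro h2
    rw [h2, List.length_nil] at h1
    omega
  obtain ⟨⟨lv, m⟩, t, hs⟩ : ∃ x t, s.stk = x :: t := List.exists_cons_of_ne_nil h0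
  rw [step_stk hs] at he
  rw [hs] at h1 ⊢
  rw [List.length_cons] at h1
  exact entryAt_cons.mpr (Or.inr ((entryAt_append_low (by omega)).mp he))

private theorem step_real_aux {s : St} (h0 : s.stk ≠ []) (l : List ℕ) : (s.step l).real ≠ [] := by
  obtain ⟨⟨lv, m⟩, t, hs⟩ : ∃ x t, s.stk = x :: t := List.exists_cons_of_ne_nil h0
  unfold St.step
  rw [hs]
  exact List.append_ne_nil_of_right_ne_nil _ (List.cons_ne_nil _ _)

/-- a move which removes an inner level: if the target is in an inner entry after it, then also before -/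
theorem ptrStep_in {s : St} {h : ℕ} {g : List ℕ → ℕ} (hp : PtrStep h s g) {l : List ℕ}
    (hin : PIn (s.step l) (g l)) (ht : ¬ TopOut s) : PIn s h := by
  obtain ⟨e, he, hei⟩ := hin
  cases hp with
  | zero =>
    exact absurd he.pos.1 (Nat.lt_irrefl 0)
  | keep h0 h1 =>
    exact ⟨e, entryAt_step_low h1 he, hei⟩
  | single hs hl =>
    exfalso
    apply ht
    refine ⟨_, _, _, hs, ?_⟩
    rcases hl with rfl | rfl <;> exact id
  | child k i hs hl hi =>
    rcases hl with rfl | rfl
    · exact ⟨_, entryAt_top hs, trivial⟩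
    · exact absurd ⟨_, _, _, hs, id⟩ ht

/-- a move which removes an outer level: if the target is in an inner entry after it, then it was in the
top entry before (the entries below an outer entry are outer) -/
theorem ptrStep_in_out {s : St} (hi : Inv s) {h : ℕ} {g : List ℕ → ℕ} (hp : PtrStep h s g)
    {l : List ℕ} (hin : PIn (s.step l) (g l)) (ht : TopOut s) : POut s h := by
  obtain ⟨e, he, hei⟩ := hin
  obtain ⟨lv, m, t, hs, hlv⟩ := ht
  cases hp with
  | zero =>
    exact absurd he.pos.1 (Nat.lt_irrefl 0)
  | keep h0 h1 =>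
    exfalso
    have h2 : EntryAt s.stk h e := entryAt_step_low h1 he
    rw [hs] at h2 h1
    rw [List.length_cons] at h1
    rcases entryAt_cons.mp h2 with ⟨h3, _⟩ | h3
    · omega
    · have h4 := hi.sorted
      rw [hs] at h4
      have h5 := (List.pairwise_cons.mp h4).1 e h3.mem
      obtain ⟨e1, e2⟩ := e
      cases e1 with
      | inn j =>
        cases lv with
        | inn j' => exact hlv trivial
        | out j' => exact h5
        | root => exact h5
      | out j => exact hei
      | root => exact hei
  | single hs' hl =>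
    exact ⟨_, entryAt_top hs, hlv⟩
  | child k i hs' hl hi =>
    exact ⟨_, entryAt_top hs, hlv⟩

/-- if the target is in an outer entry after a move, then also before (in the case `child` the hidden
number `l.getD i 0` is smaller than the last element of `l`, so the height `g l` is that of a new entry) -/
theorem ptrStep_out {s : St} {h : ℕ} {g : List ℕ → ℕ} (hp : PtrStep h s g) {l : List ℕ}
    (hl : l.length = s.need + 1) (hf : Fresh 0 l) (hout : POut (s.step l) (g l)) : POut s h := by
  obtain ⟨e, he, hei⟩ := hout
  cases hp with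
  | zero =>
    exact absurd he.pos.1 (Nat.lt_irrefl 0)
  | keep h0 h1 =>
    exact ⟨e, entryAt_step_low h1 he, hei⟩
  | single hs hl' =>
    refine ⟨_, entryAt_top hs, ?_⟩
    rcases hl' with rfl | rfl <;> exact id
  | @child _ lv m t k i hs hl' hi =>
    rcases hl' with rfl | rfl
    · exfalso
      have hlt : l.getD i 0 < l.getLastD 0 := by
        have hne : l ≠ [] := by
          intro h
          rw [h, List.length_nil] at hl
          omega
        have hi' : i < l.length := by omega
        have h1 : l.getLastD 0 = l[l.length - 1]'(by omega) := by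
          rw [List.getLastD_eq_getLast?, List.getLast?_eq_getElem?,
            List.getElem?_eq_getElem (by omega)]
          rfl
        rw [h1, List.getD_eq_getElem _ _ hi']
        have h2 := List.pairwise_iff_getElem.mp hf.sorted i (l.length - 1) hi' (by omega) (by omega)
        omega
      have hgt : t.length < t.length + (l.getLastD 0 - l.getD i 0) := by omega
      have he' : EntryAt (kids (.inn (k + 1)) m s.reg l.dropLast (l.getLastD 0) ++ t)
          (t.length + (l.getLastD 0 - l.getD i 0)) e := by
        have h3 := he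
        rw [step_stk hs] at h3
        exact h3
      obtain ⟨A, B, hk, _⟩ := entryAt_append_high hgt he'
      have hmem : e ∈ kids (.inn (k + 1)) m s.reg l.dropLast (l.getLastD 0) := by
        rw [hk]
        exact List.mem_append_right _ List.mem_cons_self
      exact hei (kids_inn hmem trivial)
    · exact ⟨_, entryAt_top hs, id⟩

theorem hasInner_step {s : St} (h0 : s.stk ≠ []) {l : List ℕ} (h : HasInnerMark (s.step l))
    (ht : ¬ TopOut s) : HasInnerMark s := by
  obtain ⟨⟨lv, m⟩, t, hs⟩ : ∃ x t, s.stk = x :: t := List.exists_cons_of_ne_nil h0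
  obtain ⟨e, he, hei, hem⟩ := h
  rw [step_stk hs, List.mem_append] at he
  rcases he with he | he
  · refine ⟨(lv, m), by rw [hs]; exact List.mem_cons_self, ?_, kids_marked he hem⟩
    by_contra hlv
    exact ht ⟨lv, m, t, hs, hlv⟩
  · exact ⟨e, by rw [hs]; exact List.mem_cons_of_mem _ he, hei, hem⟩

theorem Inv.pick {s : St} (hi : Inv s) (n : ℕ) : Inv (s.pick n) := by
  exact ⟨hi.sorted, hi.root⟩

theorem Inv.step {s : St} (hi : Inv s) (l : List ℕ) : Inv (s.step l) := by
  rcases List.eq_nil_or_concat s.stk with h | _
  · have h1 : s.step l = s := by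
      unfold St.step
      rw [h]
    rw [h1]
    exact hi
  · by_cases h0 : s.stk = []
    · have h1 : s.step l = s := by
        unfold St.step
        rw [h0]
      rw [h1]
      exact hi
    · obtain ⟨⟨lv, m⟩, t, hs⟩ : ∃ x t, s.stk = x :: t := List.exists_cons_of_ne_nil h0
      have hsort := hi.sorted
      rw [hs] at hsort
      obtain ⟨hs1, hs2⟩ := List.pairwise_cons.mp hsort
      refine ⟨?_, Or.inr ⟨?_, step_real_aux h0 l⟩⟩
      · rw [step_stk hs, List.pairwise_append]
        refine ⟨kids_pairwise _ _ _ _ _, hs2, ?_⟩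
        intro e he f hf
        exact lev_le_trans (kids_le he).1 (hs1 f hf)
      · intro e he
        rw [step_stk hs, List.mem_append] at he
        rcases he with he | he
        · exact (kids_le he).2
        · rcases hi.root with ⟨h1, _⟩ | ⟨h1, _⟩
          · rw [hs] at h1
            rw [(List.cons.inj h1).2] at he
            exact absurd he List.not_mem_nil
          · exact h1 e (by rw [hs]; exact List.mem_cons_of_mem _ he)

theorem Inv.start : Inv start := by
  exact ⟨List.pairwise_singleton _ _, Or.inl ⟨rfl, rfl⟩⟩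

theorem step_real_ne {s : St} (h0 : s.stk ≠ []) (l : List ℕ) : (s.step l).real ≠ [] := by
  exact step_real_aux h0 l

theorem step_started {s : St} (h0 : s.stk ≠ []) (l : List ℕ) : Started (s.step l) := by
  exact Or.inl (step_real_aux h0 l)

theorem pick_started (s : St) (n : ℕ) : Started (s.pick n) := by
  exact Or.inr rfl

theorem pick_run {s : St} (h0 : s.stk ≠ []) (n : ℕ) : ¬ (s.pick n).Nonrun := by
  rintro (h | ⟨h, _⟩)
  · exact h0 h
  · exact Bool.noConfusion h

/-- a started incomplete vertex which is not running has a marked unit on the top -/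
theorem nonrun_unit {s : St} (hi : Inv s) (hs : s.Nonrun) (h0 : s.stk ≠ []) (hst : Started s) :
    ∃ t, s.stk = (.inn 0, .U) :: t := by
  rcases hs with h | ⟨hpk, t, h | h⟩
  · exact absurd h h0
  · exact ⟨t, h⟩
  · exfalso
    rcases hi.root with ⟨_, h2⟩ | ⟨h1, _⟩
    · rcases hst with h3 | h3
      · exact h3 h2
      · rw [hpk] at h3
        exact Bool.noConfusion h3
    · exact h1 (.root, .U) (by rw [h]; exact List.mem_cons_self) rfl

/-- the same for a vertex with `real ≠ []`, without the assumption that it is not running but picked -/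
theorem pick_unit {s : St} (hi : Inv s) (hs : s.Nonrun) (h0 : s.stk ≠ []) (hr : s.real ≠ []) :
    ∃ t, s.stk = (.inn 0, .U) :: t := by
  exact nonrun_unit hi hs h0 (Or.inl hr)

theorem at_top {s : St} {t : List (Lev × Mark)} (h : s.stk = (.inn 0, .U) :: t) :
    AT s s.stk.length ∧ PtrOK s s.stk.length ∧ PIn s s.stk.length ∧ HasInnerMark s := by
  have h1 : EntryAt s.stk s.stk.length (.inn 0, .U) := entryAt_top h
  refine ⟨⟨rfl, t, h⟩, ⟨_, h1, ?_⟩, ⟨_, h1, trivial⟩, ⟨(.inn 0, .U), ?_, trivial, ?_⟩⟩
  · exact fun h2 => Mark.noConfusion h2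
  · rw [h]
    exact List.mem_cons_self
  · exact fun h2 => Mark.noConfusion h2

theorem NotTop.nt {s : St} {h : ℕ} (H : NotTop s h)
    (hs : ∃ t, s.stk = (.inn 0, .U) :: t ∨ s.stk = (.root, .U) :: t) : NT s h := by
  obtain ⟨t, h1 | h1⟩ := hs
  · exact Or.inl (H.2 ⟨_, _, h1⟩)
  · exact Or.inr ⟨t, h1⟩

theorem NotTop.lt {s : St} {h : ℕ} (H : NotTop s h) {t : List (Lev × Mark)}
    (hs : s.stk = (.inn 0, .U) :: t) : h < s.stk.length := by
  exact H.2 ⟨_, _, hs⟩

/-- picking does not change the stack, so it does not change these properties of pointers -/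
theorem notTop_pick {s : St} {n h : ℕ} : NotTop (s.pick n) h ↔ NotTop s h := by
  exact Iff.rfl

theorem PtrW.notTop_of_pick {s : St} {n h : ℕ} (h0 : s.stk ≠ []) (H : PtrW (s.pick n) h) :
    NotTop s h := by
  exact H.2 (pick_run h0 n)

theorem NotTop.ptrW {s : St} {h : ℕ} (H : NotTop s h) : PtrW s h := by
  exact ⟨H.1, fun _ => H⟩

theorem ptrW_of_ok {s : St} {h : ℕ} (hs : s.Nonrun) (H : PtrOK s h) : PtrW s h := by
  exact ⟨H, fun h1 => absurd hs h1⟩

end Pool.Agent.H90.Ord
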