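import Pool.Agent.H90.Ord.STPred
import Pool.Agent.H90.Ord.STCls

/-!
# One step, status `SI` (module STI)

`pickA_i`: the first alternative of `SI.xy`: from `(1, 0, h)` at `(a.pick n, b)` by the rule
`ph = 1, v = true, ann' = ann`; from the second alternative by the rule `ph = 1, v = true, AT b hb` with
`h = b.stk.length` (`nonrun_unit`, `at_top`).  `pickB_i`: `a` is nonrunning, so the first alternative holds, and
`PtrW.notTop_of_pick`, `NotTop.nt` give `NT b h`.  `stepA_i`: `T` is the union of the sets of `l` with the first and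
with the second alternative, one of them is Big (`big_pigeon` over `Bool`); in the first case `ptr_const` for `h`.
`stepB_i`: `ptr_pred` for `b`.  `stepA_a`: `a` completes in this step (second alternative).
The rules `XZI` need `b.stk = [] → a.stk = []`.
-/

set_option autoImplicit false

namespace Pool.Agent.H90.Ord

variable {red : List ℕ → List ℕ → Prop} {a b : St}

theorem pickA_i (ha : a.Nonrun) (hb : b.Nonrun) (h0 : a.stk ≠ []) (h1 : b.stk ≠ []) (ib : Inv b)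
    (sb : Started b) (n : ℕ) (h : SI red (a.pick n) b) : SI red a b := by
  refine ⟨?_, ?_, ?_⟩
  · exact AW.pickA (ann' := ⟨0, 0, 0, false⟩) n ha hb h0 ⟨fun e => absurd e h1, rfl⟩ h.xz
  · exact AW.pickA (ann' := ⟨2, 0, 0, false⟩) n ha hb h0 (Or.inr (Or.inr ⟨rfl, rfl⟩)) h.yz
  · rcases h.xy with ⟨k, hk, hw⟩ | ⟨_, hw⟩
    · exact Or.inl ⟨k, hk, AW.pickA (ann' := ⟨1, 0, k, false⟩) n ha hb h0
        (Or.inl ⟨rfl, rfl, rfl⟩) hw⟩
    · obtain ⟨t, ht⟩ := nonrun_unit ib hb h1 sb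
      obtain ⟨at1, at2, _, _⟩ := at_top ht
      exact Or.inl ⟨b.stk.length, ptrW_of_ok hb at2, AW.pickA (ann' := ⟨2, 0, 0, false⟩) n ha hb h0
        (Or.inr (Or.inl ⟨rfl, rfl, at1, rfl⟩)) hw⟩

theorem pickB_i (ha : a.Nonrun) (hb : b.Nonrun) (h0 : a.stk ≠ []) (h1 : b.stk ≠ []) (ib : Inv b)
    (hr : a.real ≠ []) (sb : Started b) (n : ℕ) (h : SI red a (b.pick n)) : SI red a b := by
  refine ⟨?_, ?_, ?_⟩
  · exact AW.pickB (ann' := ⟨0, 0, 0, false⟩) n ha hb h1 hr ⟨fun e => absurd e h1, rfl⟩ h.xz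
  · exact AW.pickB (ann' := ⟨2, 0, 0, false⟩) n ha hb h1 hr (Or.inr (Or.inr ⟨rfl, rfl⟩)) h.yz
  · rcases h.xy with ⟨k, hk, hw⟩ | ⟨hna, _⟩
    · have hnt : NotTop b k := PtrW.notTop_of_pick h1 hk
      obtain ⟨t, ht⟩ := nonrun_unit ib hb h1 sb
      have hn : NT b k := hnt.nt ⟨t, Or.inl ht⟩
      exact Or.inl ⟨k, hnt.ptrW, AW.pickB (ann' := ⟨1, 0, k, false⟩) n ha hb h1 hr
        (Or.inr (Or.inr (Or.inl ⟨rfl, rfl, hn, rfl⟩))) hw⟩
    · exact absurd ha hna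

theorem stepA_i (ha : ¬ a.Nonrun) (hb : b.Nonrun) (h1 : b.stk ≠ [])
    {T : Set (List ℕ)} (hT : Big (a.need + 1) T) (h : ∀ l ∈ T, SI red (a.step l) b) :
    SI red a b := by
  refine ⟨?_, ?_, ?_⟩
  · exact AW.stepA (fun _ => ⟨0, 0, 0, false⟩) T ha hb ⟨fun e => absurd e h1, rfl⟩ hT
      (fun l hl => (h l hl).xz)
  · exact AW.stepA (fun _ => ⟨2, 0, 0, false⟩) T ha hb (Or.inr ⟨rfl, rfl⟩) hT
      (fun l hl => (h l hl).yz)
  · obtain ⟨i, _, hi⟩ := big_pigeon hT (Finset.univ : Finset Bool)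
      (fun i l => if i = true then ∃ k, PtrW b k ∧ AW red XYI ⟨1, 0, k, false⟩ (a.step l) b
        else AW red XYI ⟨2, 0, 0, false⟩ (a.step l) b)
      (fun l hl => by
        rcases (h l hl).xy with h2 | ⟨_, h2⟩
        · exact ⟨true, Finset.mem_univ _, by simpa using h2⟩
        · exact ⟨false, Finset.mem_univ _, by simpa using h2⟩)
    cases i with
    | true =>
      have hi' : Big (a.need + 1)
          {l | ∃ k, PtrW b k ∧ AW red XYI ⟨1, 0, k, false⟩ (a.step l) b} :=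
        big_mono (fun l hl => by simpa using hl) hi
      obtain ⟨k, hk, hB⟩ := ptr_const hi' b (fun k => PtrW b k) (fun k hk => hk.1)
        (fun k l => AW red XYI ⟨1, 0, k, false⟩ (a.step l) b) (fun l hl => hl)
      exact Or.inl ⟨k, hk, AW.stepA (fun _ => ⟨1, 0, k, false⟩) _ ha hb
        (Or.inl ⟨rfl, rfl, rfl⟩) hB (fun l hl => hl.2)⟩
    | false =>
      have hi' : Big (a.need + 1) {l | AW red XYI ⟨2, 0, 0, false⟩ (a.step l) b} :=
        big_mono (fun l hl => by simpa using hl) hi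
      exact Or.inr ⟨ha, AW.stepA (fun _ => ⟨2, 0, 0, false⟩) _ ha hb
        (Or.inr (Or.inr (Or.inl ⟨rfl, rfl, rfl⟩))) hi' (fun l hl => hl)⟩

theorem stepA_a (ha : ¬ a.Nonrun) (hb : b.Nonrun) (h1 : b.stk ≠ [])
    {T : Set (List ℕ)} (hT : Big (a.need + 1) T) (h : ∀ l ∈ T, SA red (a.step l) b) :
    SI red a b := by
  refine ⟨?_, ?_, ?_⟩
  · exact AW.stepA (fun _ => ⟨0, 0, 0, false⟩) T ha hb ⟨fun e => absurd e h1, rfl⟩ hT
      (fun l hl => (h l hl).xz)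
  · exact AW.stepA (fun _ => ⟨2, 0, 0, false⟩) T ha hb (Or.inr ⟨rfl, rfl⟩) hT
      (fun l hl => (h l hl).yz)
  · exact Or.inr ⟨ha, AW.stepA (fun _ => ⟨2, 0, 0, false⟩) T ha hb
      (Or.inr (Or.inr (Or.inl ⟨rfl, rfl, rfl⟩))) hT (fun l hl => (h l hl).xy2 hb h1)⟩

theorem stepB_i (ha : a.Nonrun) (hb : ¬ b.Nonrun) (h0 : a.stk ≠ [])
    {T : Set (List ℕ)} (hT : Big (b.need + 1) T) (h : ∀ l ∈ T, SI red a (b.step l)) :
    SI red a b := by
  have h1 : b.stk ≠ [] := fun e => hb (Or.inl e)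
  refine ⟨?_, ?_, ?_⟩
  · exact AW.stepB (fun _ => ⟨0, 0, 0, false⟩) T ha hb ⟨fun e => absurd e h1, rfl⟩ hT
      (fun l hl => (h l hl).xz)
  · exact AW.stepB (fun _ => ⟨2, 0, 0, false⟩) T ha hb (Or.inr ⟨rfl, rfl⟩) hT
      (fun l hl => (h l hl).yz)
  · obtain ⟨k, g, hs, hnt, hB⟩ := ptr_pred h1 hT
      (fun k l => AW red XYI ⟨1, 0, k, false⟩ a (b.step l))
      (fun l hl => by
        rcases (h l hl).xy with ⟨k, hk, hw⟩ | ⟨hna, _⟩
        · exact ⟨k, hk.1, hw⟩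
        · exact absurd ha hna)
    exact Or.inl ⟨k, hnt.ptrW, AW.stepB (fun l => ⟨1, 0, g l, false⟩) _ ha hb
      (Or.inr (Or.inl ⟨rfl, rfl, g, hs, rfl⟩)) hB (fun l hl => hl.2.2.2.2)⟩

end Pool.Agent.H90.Ord
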