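import Pool.Agent.H90.Ord.STPred
import Pool.Agent.H90.Ord.STCls

/-!
# One step, status `N0` (module STN0)

`xy4` in a step: if `TopOut b` the rule sets the flag, `xy4 true` at the next position is used; otherwise `Same`.
`xy2`, `xy3`, `xz3` for nonrunning `b`: the rule with `AT a ha`, `ha = a.stk.length` (`pick_unit`, `at_top`) leads to
phase 4.  For running `b` they are vacuous.
-/

set_option autoImplicit false

namespace Pool.Agent.H90.Ord

variable {red : List ℕ → List ℕ → Prop} {a b : St}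

theorem pickB_n0 (ha : a.Nonrun) (hb : b.Nonrun) (h0 : a.stk ≠ []) (h1 : b.stk ≠ []) (ia : Inv a)
    (hr : a.real ≠ []) (n : ℕ) (h : N0 red a (b.pick n)) : N0 red a b := by
  obtain ⟨t, ht⟩ := pick_unit ia ha h0 hr
  have hat : AT a a.stk.length := (at_top ht).1
  refine ⟨ha, ?_, ?_, ?_, ?_, ?_, ?_, ?_, ?_⟩
  · refine AW.pickB n ha hb h1 hr (ann' := ⟨5, 0, 0, false⟩) ?_ h.xy5
    simp [XY1]
  · intro fl
    refine AW.pickB n ha hb h1 hr (ann' := ⟨4, 0, 0, fl⟩) ?_ (h.xy4 fl)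
    simp [XY1]
  · intro _
    refine AW.pickB n ha hb h1 hr (ann' := ⟨4, 0, 0, false⟩) ?_ (h.xy4 false)
    simp [XY1, hat]
  · intro _
    refine AW.pickB n ha hb h1 hr (ann' := ⟨4, 0, 0, false⟩) ?_ (h.xy4 false)
    simp [XY1, hat]
  · refine AW.pickB n ha hb h1 hr (ann' := ⟨4, 0, 0, false⟩) ?_ h.xz4
    simp [XZ]
  · intro _
    refine AW.pickB n ha hb h1 hr (ann' := ⟨4, 0, 0, false⟩) ?_ h.xz4
    simp [XZ, hat]
  · refine AW.pickB n ha hb h1 hr (ann' := ⟨3, 0, 0, false⟩) ?_ h.yz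
    simp [YZ, h0]
  · refine AW.pickB n ha hb h1 hr (ann' := ⟨2, 0, 0, false⟩) ?_ h.r2
    simp [R1]

theorem stepB_n0 (ha : a.Nonrun) (hb : ¬ b.Nonrun) (h0 : a.stk ≠ [])
    {T : Set (List ℕ)} (hT : Big (b.need + 1) T) (h : ∀ l ∈ T, N0 red a (b.step l)) :
    N0 red a b := by
  refine ⟨ha, ?_, ?_, ?_, ?_, ?_, ?_, ?_, ?_⟩
  · refine AW.stepB (fun _ => ⟨5, 0, 0, false⟩) T ha hb ?_ hT (fun l hl => (h l hl).xy5)
    simp [XY1, Same]
  · intro fl
    by_cases hto : TopOut b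
    · refine AW.stepB (fun _ => ⟨4, 0, 0, true⟩) T ha hb ?_ hT (fun l hl => (h l hl).xy4 true)
      simp [XY1, Same, hto]
    · refine AW.stepB (fun _ => ⟨4, 0, 0, fl⟩) T ha hb ?_ hT (fun l hl => (h l hl).xy4 fl)
      simp [XY1, Same, hto]
  · intro hn
    exact absurd hn hb
  · intro hn
    exact absurd hn hb
  · refine AW.stepB (fun _ => ⟨4, 0, 0, false⟩) T ha hb ?_ hT (fun l hl => (h l hl).xz4)
    simp [XZ, Same]
  · intro hn
    exact absurd hn hb
  · refine AW.stepB (fun _ => ⟨3, 0, 0, false⟩) T ha hb ?_ hT (fun l hl => (h l hl).yz)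
    simp [YZ, Same, h0]
  · refine AW.stepB (fun _ => ⟨2, 0, 0, false⟩) T ha hb ?_ hT (fun l hl => (h l hl).r2)
    simp [R1, Same]

theorem stepB_b (ha : a.Nonrun) (hb : ¬ b.Nonrun) (h0 : a.stk ≠ [])
    {T : Set (List ℕ)} (hT : Big (b.need + 1) T) (h : ∀ l ∈ T, SB red a (b.step l)) :
    N0 red a b := by
  refine ⟨ha, ?_, ?_, ?_, ?_, ?_, ?_, ?_, ?_⟩
  · refine AW.stepB (fun _ => ⟨5, 0, 0, false⟩) T ha hb ?_ hT (fun l hl => (h l hl).xy5)
    simp [XY1, Same]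
  · intro fl
    by_cases hto : TopOut b
    · refine AW.stepB (fun _ => ⟨4, 0, 0, true⟩) T ha hb ?_ hT
        (fun l hl => (h l hl).xy4 ha h0 true)
      simp [XY1, Same, hto]
    · refine AW.stepB (fun _ => ⟨4, 0, 0, fl⟩) T ha hb ?_ hT
        (fun l hl => (h l hl).xy4 ha h0 fl)
      simp [XY1, Same, hto]
  · intro hn
    exact absurd hn hb
  · intro hn
    exact absurd hn hb
  · refine AW.stepB (fun _ => ⟨4, 0, 0, false⟩) T ha hb ?_ hT
      (fun l hl => (h l hl).xz4 ha h0)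
    simp [XZ, Same]
  · intro hn
    exact absurd hn hb
  · refine AW.stepB (fun _ => ⟨3, 0, 0, false⟩) T ha hb ?_ hT (fun l hl => (h l hl).yz)
    simp [YZ, Same, h0]
  · refine AW.stepB (fun _ => ⟨2, 0, 0, false⟩) T ha hb ?_ hT
      (fun l hl => (h l hl).r2 ha h0)
    simp [R1, Same]

end Pool.Agent.H90.Ord
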