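import Pool.Agent.H90.Ord.STPred
import Pool.Agent.H90.Ord.STCls

/-!
# One pick, status `N1` (module STN1)

`pickA_n1`: `xy1`: from the first alternative by the rule `ph = 1, v = true, NT a ha`; from the second one by the
rule `ph = 1, v = true, AT b hb, POut a ha` with `hb = b.stk.length`.  `xz`: from the first alternative by
`ph = 2, v = true, NT a ha`; from the second one by `ph = 2, v = true, ha < a.stk.length, AT b hb`.  `yz2`: the rule
`ph = 2, v = true, AT b hb`.  `xy4`: the rule to phase 5 with `fl = true`.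
`pickB_n1`: `a` is nonrunning, so the first alternatives hold; `NT b hb` from `PtrW.notTop_of_pick`, `NotTop.nt`;
`ha < a.stk.length` from `NotTop.lt` and `pick_unit`.  All pointers stay the same.
-/

set_option autoImplicit false

namespace Pool.Agent.H90.Ord

variable {red : List ℕ → List ℕ → Prop} {a b : St}

theorem pickA_n1 (ha : a.Nonrun) (hb : b.Nonrun) (h0 : a.stk ≠ []) (h1 : b.stk ≠ []) (ia : Inv a)
    (ib : Inv b) (hr : a.real ≠ []) (sb : Started b) (n : ℕ) (h : N1 red (a.pick n) b) :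
    N1 red a b := by
  obtain ⟨t, ht⟩ := pick_unit ia ha h0 hr
  obtain ⟨t', ht'⟩ := nonrun_unit ib hb h1 sb
  obtain ⟨hAT, hOK, -, -⟩ := at_top ht'
  have hW : PtrW b b.stk.length := ptrW_of_ok hb hOK
  have hna : ¬ (a.pick n).Nonrun := pick_run h0 n
  refine ⟨?_, ?_, Or.inl ?_, Or.inl ?_, ?_, ?_⟩
  · exact AW.pickA n ha hb h0 (by simp [XY1]) h.xy5
  · intro _
    exact AW.pickA n ha hb h0 (by simp [XY1]) h.xy5
  · rcases h.xy1 with ⟨x, y, hx, hy, hw⟩ | ⟨-, x, hx, ho, hw⟩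
    · have hx' : NotTop a x := notTop_pick.1 hx
      have hnt : NT a x := hx'.nt ⟨t, Or.inl ht⟩
      exact ⟨x, y, hx', hy, AW.pickA n ha hb h0 (Or.inl ⟨rfl, rfl, hnt, rfl⟩) hw⟩
    · have hx' : NotTop a x := notTop_pick.1 hx
      have ho' : POut a x := ho
      exact ⟨x, b.stk.length, hx', hW,
        AW.pickA n ha hb h0 (Or.inr (Or.inl ⟨rfl, rfl, hAT, ho', rfl⟩)) hw⟩
  · rcases h.xz with ⟨x, y, hx, hy, hw⟩ | ⟨-, x, hx, hw⟩
    · have hx' : NotTop a x := notTop_pick.1 hx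
      have hnt : NT a x := hx'.nt ⟨t, Or.inl ht⟩
      exact ⟨x, y, hx', hy,
        AW.pickA n ha hb h0 (Or.inr (Or.inr (Or.inl ⟨rfl, rfl, hnt, rfl⟩))) hw⟩
    · have hx' : NotTop a x := notTop_pick.1 hx
      exact ⟨x, b.stk.length, hx', hW,
        AW.pickA n ha hb h0 (Or.inr (Or.inr (Or.inr (Or.inl ⟨rfl, rfl, hx'.lt ht, hAT, rfl⟩)))) hw⟩
  · exact AW.pickA n ha hb h0
      (Or.inr (Or.inr (Or.inr (Or.inr ⟨rfl, fun h' => absurd h' h0, rfl⟩)))) h.yz3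
  · intro _
    exact ⟨b.stk.length, hW,
      AW.pickA n ha hb h0 (Or.inr (Or.inr (Or.inr (Or.inl ⟨rfl, rfl, hAT, rfl⟩)))) h.yz3⟩

theorem pickB_n1 (ha : a.Nonrun) (hb : b.Nonrun) (h0 : a.stk ≠ []) (h1 : b.stk ≠ []) (ia : Inv a)
    (ib : Inv b) (hr : a.real ≠ []) (sb : Started b) (n : ℕ) (h : N1 red a (b.pick n)) :
    N1 red a b := by
  obtain ⟨t, ht⟩ := pick_unit ia ha h0 hr
  obtain ⟨t', ht'⟩ := nonrun_unit ib hb h1 sb
  refine ⟨?_, ?_, Or.inl ?_, Or.inl ?_, ?_, ?_⟩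
  · exact AW.pickB n ha hb h1 hr (by simp [XY1]) h.xy5
  · intro h'
    exact AW.pickB n ha hb h1 hr (by simp [XY1]) (h.xy4 h')
  · rcases h.xy1 with ⟨x, y, hx, hy, hw⟩ | ⟨hn, -⟩
    · have hy' : NotTop b y := PtrW.notTop_of_pick h1 hy
      have hnt : NT b y := hy'.nt ⟨t', Or.inl ht'⟩
      exact ⟨x, y, hx, hy'.ptrW,
        AW.pickB n ha hb h1 hr (Or.inr (Or.inr (Or.inl ⟨rfl, rfl, hnt, rfl⟩))) hw⟩
    · exact absurd ha hn
  · rcases h.xz with ⟨x, y, hx, hy, hw⟩ | ⟨hn, -⟩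
    · have hy' : NotTop b y := PtrW.notTop_of_pick h1 hy
      have hnt : NT b y := hy'.nt ⟨t', Or.inl ht'⟩
      exact ⟨x, y, hx, hy'.ptrW,
        AW.pickB n ha hb h1 hr
          (Or.inr (Or.inr (Or.inr (Or.inr (Or.inl ⟨rfl, rfl, hnt, hx.lt ht, rfl⟩))))) hw⟩
    · exact absurd ha hn
  · exact AW.pickB n ha hb h1 hr
      (Or.inr (Or.inr (Or.inr (Or.inr ⟨rfl, fun h' => absurd h' h0, rfl⟩)))) h.yz3
  · intro h'
    obtain ⟨y, hy, hw⟩ := h.yz2 h'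
    have hy' : NotTop b y := PtrW.notTop_of_pick h1 hy
    have hnt : NT b y := hy'.nt ⟨t', Or.inl ht'⟩
    exact ⟨y, hy'.ptrW, AW.pickB n ha hb h1 hr (Or.inr (Or.inr (Or.inl ⟨rfl, rfl, hnt, rfl⟩))) hw⟩

end Pool.Agent.H90.Ord
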