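import Pool.Agent.H90.Ord.STPred
import Pool.Agent.H90.Ord.STCls

/-!
# Steps of `a` which change the status (module STN12)

From `N0` at `(a.step l, b)`: the pointer of `a.step l` is its height (`nonrun_unit` for `a.step l`, whose top is a
marked unit: `PtrOK`, `PIn`), phases 2, 3 of `XY1` by `xy2`, `xy3`, phase 3 of `XZ` by `xz3`.  `ptr_pred` gives the pointer
of `a`; `PIn a` by `ptrStep_in` if `¬ TopOut a`, and `POut a` by `ptrStep_in_out` if `TopOut a`.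
-/

set_option autoImplicit false

namespace Pool.Agent.H90.Ord

variable {red : List ℕ → List ℕ → Prop} {a b : St}

private theorem stk_ne (ha : ¬ a.Nonrun) : a.stk ≠ [] := fun h => ha (Or.inl h)

private theorem n0_top (ha : ¬ a.Nonrun) (ia : Inv a) {l : List ℕ}
    (hne : (a.step l).stk ≠ []) (h : N0 red (a.step l) b) :
    PtrOK (a.step l) (a.step l).stk.length ∧ PIn (a.step l) (a.step l).stk.length := by
  obtain ⟨t, ht⟩ := nonrun_unit (ia.step l) h.na hne (step_started (stk_ne ha) l)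
  exact ⟨(at_top ht).2.1, (at_top ht).2.2.1⟩

/-- phase 5 of `XY1` -/
private theorem mk_xy5 (ha : ¬ a.Nonrun) (hb : b.Nonrun) {T : Set (List ℕ)}
    (hT : Big (a.need + 1) T) (h : ∀ l ∈ T, AW red XY1 ⟨5, 0, 0, false⟩ (a.step l) b) :
    AW red XY1 ⟨5, 0, 0, false⟩ a b := by
  refine AW.stepA (fun _ => ⟨5, 0, 0, false⟩) T ha hb ?_ hT h
  show (_ ∨ _ ∨ _ ∨ _ ∨ _ ∨ _ ∨ _ ∨ _)
  exact Or.inr (Or.inr (Or.inr (Or.inr (Or.inr (Or.inr (Or.inr ⟨rfl, rfl⟩))))))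

/-- phase 3 of `YZ` -/
private theorem mk_yz3 (ha : ¬ a.Nonrun) (hb : b.Nonrun) {T : Set (List ℕ)}
    (hT : Big (a.need + 1) T) (h : ∀ l ∈ T, AW red YZ ⟨3, 0, 0, false⟩ (a.step l) b) :
    AW red YZ ⟨3, 0, 0, false⟩ a b := by
  refine AW.stepA (fun _ => ⟨3, 0, 0, false⟩) T ha hb ?_ hT h
  show (_ ∨ _ ∨ _)
  exact Or.inr (Or.inr ⟨rfl, fun h0 => absurd h0 (stk_ne ha), rfl⟩)

/-- phases 2, 3 of `XY1` with a pointer -/
private theorem mk_xy (p : ℕ) (hp : p = 2 ∨ p = 3) (ha : ¬ a.Nonrun) (hb : b.Nonrun)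
    {T : Set (List ℕ)} (hT : Big (a.need + 1) T)
    (h : ∀ l ∈ T, ∃ ha', PtrOK (a.step l) ha' ∧ PIn (a.step l) ha' ∧
      AW red XY1 ⟨p, ha', 0, false⟩ (a.step l) b) :
    ∃ ha' g l, PtrStep ha' a g ∧ NotTop a ha' ∧ PIn (a.step l) (g l) ∧
      AW red XY1 ⟨p, ha', 0, false⟩ a b := by
  obtain ⟨h', g, hg, hn, hB⟩ := ptr_pred (stk_ne ha) hT
    (fun h' l => PIn (a.step l) h' ∧ AW red XY1 ⟨p, h', 0, false⟩ (a.step l) b) h
  obtain ⟨l0, hl0, _⟩ := big_nonempty hB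
  refine ⟨h', g, l0, hg, hn, hl0.2.2.2.2.1, ?_⟩
  refine AW.stepA (fun l => ⟨p, g l, 0, false⟩) _ ha hb ?_ hB (fun l hl => hl.2.2.2.2.2)
  show (_ ∨ _ ∨ _ ∨ _ ∨ _ ∨ _ ∨ _ ∨ _)
  rcases hp with rfl | rfl
  · exact Or.inr (Or.inr (Or.inl ⟨rfl, rfl, g, hg, rfl⟩))
  · exact Or.inr (Or.inr (Or.inr (Or.inl ⟨rfl, rfl, g, hg, rfl⟩)))

/-- phase 3 of `XZ` with a pointer -/
private theorem mk_xz3 (ha : ¬ a.Nonrun) (hb : b.Nonrun)
    {T : Set (List ℕ)} (hT : Big (a.need + 1) T)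
    (h : ∀ l ∈ T, ∃ ha', PtrOK (a.step l) ha' ∧ PIn (a.step l) ha' ∧
      AW red XZ ⟨3, ha', 0, false⟩ (a.step l) b) :
    ∃ ha' g l, PtrStep ha' a g ∧ NotTop a ha' ∧ PIn (a.step l) (g l) ∧
      AW red XZ ⟨3, ha', 0, false⟩ a b := by
  obtain ⟨h', g, hg, hn, hB⟩ := ptr_pred (stk_ne ha) hT
    (fun h' l => PIn (a.step l) h' ∧ AW red XZ ⟨3, h', 0, false⟩ (a.step l) b) h
  obtain ⟨l0, hl0, _⟩ := big_nonempty hB
  refine ⟨h', g, l0, hg, hn, hl0.2.2.2.2.1, ?_⟩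
  refine AW.stepA (fun l => ⟨3, g l, 0, false⟩) _ ha hb ?_ hB (fun l hl => hl.2.2.2.2.2)
  show (_ ∨ _ ∨ _ ∨ _)
  exact Or.inl ⟨Or.inr (Or.inr (Or.inr rfl)), rfl, g, hg, rfl⟩

/-- phase 2 of `XZ` with two pointers -/
private theorem mk_xz2 (ha : ¬ a.Nonrun) (hb : b.Nonrun)
    {T : Set (List ℕ)} (hT : Big (a.need + 1) T)
    (h : ∀ l ∈ T, ∃ ha', PtrOK (a.step l) ha' ∧ ∃ hb', PtrW b hb' ∧
      AW red XZ ⟨2, ha', hb', false⟩ (a.step l) b) :
    ∃ ha' hb', NotTop a ha' ∧ PtrW b hb' ∧ AW red XZ ⟨2, ha', hb', false⟩ a b := by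
  obtain ⟨h', g, hg, hn, hB⟩ := ptr_pred (stk_ne ha) hT
    (fun h' l => ∃ hb', PtrW b hb' ∧ AW red XZ ⟨2, h', hb', false⟩ (a.step l) b) h
  obtain ⟨hb', hw, hB'⟩ := ptr_const hB b (fun hb' => PtrW b hb') (fun _ hw => hw.1)
    (fun hb' l => AW red XZ ⟨2, g l, hb', false⟩ (a.step l) b)
    (fun l hl => hl.2.2.2.2)
  refine ⟨h', hb', hn, hw, ?_⟩
  refine AW.stepA (fun l => ⟨2, g l, hb', false⟩) _ ha hb ?_ hB' (fun l hl => hl.2)
  show (_ ∨ _ ∨ _ ∨ _)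
  exact Or.inl ⟨Or.inr (Or.inr (Or.inl rfl)), rfl, g, hg, rfl⟩

theorem stepA_n0_in (ha : ¬ a.Nonrun) (hb : b.Nonrun) (ia : Inv a) (h1 : b.stk ≠ [])
    (ht : ¬ TopOut a) {T : Set (List ℕ)} (hT : Big (a.need + 1) T)
    (hne : ∀ l ∈ T, (a.step l).stk ≠ []) (h : ∀ l ∈ T, N0 red (a.step l) b) : N2 red a b := by
  have hx : ∀ p, p = 2 ∨ p = 3 → ∃ ha, PtrW a ha ∧ PIn a ha ∧ AW red XY1 ⟨p, ha, 0, false⟩ a b := by
    intro p hp
    obtain ⟨h', g, l, hg, hn, hin, hAW⟩ := mk_xy (red := red) p hp ha hb hT (fun l hl => by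
      obtain ⟨k1, k2⟩ := n0_top ha ia (hne l hl) (h l hl)
      refine ⟨_, k1, k2, ?_⟩
      rcases hp with rfl | rfl
      · exact (h l hl).xy2 hb
      · exact (h l hl).xy3 hb)
    exact ⟨h', hn.ptrW, ptrStep_in hg hin ht, hAW⟩
  exact
  { xy5 := mk_xy5 ha hb hT (fun l hl => (h l hl).xy5)
    xy4 := fun h0 => absurd h0 ha
    xyk := fun h0 => absurd h0 ha
    xy2 := fun _ => hx 2 (Or.inl rfl)
    xy3 := fun _ => hx 3 (Or.inr rfl)
    xz := by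
      obtain ⟨h', g, l, hg, hn, hin, hAW⟩ := mk_xz3 (red := red) ha hb hT (fun l hl => by
        obtain ⟨k1, k2⟩ := n0_top ha ia (hne l hl) (h l hl)
        exact ⟨_, k1, k2, (h l hl).xz3 hb⟩)
      exact Or.inr ⟨ha, h', hn, ptrStep_in hg hin ht, hAW⟩
    yz3 := mk_yz3 ha hb hT (fun l hl => (h l hl).yz)
    yz2 := fun h0 => absurd h0 ha }

theorem stepA_n0_out (ha : ¬ a.Nonrun) (hb : b.Nonrun) (ia : Inv a) (h1 : b.stk ≠ [])
    (ht : TopOut a) {T : Set (List ℕ)} (hT : Big (a.need + 1) T)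
    (hne : ∀ l ∈ T, (a.step l).stk ≠ []) (h : ∀ l ∈ T, N0 red (a.step l) b) : N1 red a b := by
  exact
  { xy5 := mk_xy5 ha hb hT (fun l hl => (h l hl).xy5)
    xy4 := fun h0 => absurd h0 ha
    xy1 := by
      obtain ⟨h', g, l, hg, hn, hin, hAW⟩ := mk_xy (red := red) 2 (Or.inl rfl) ha hb hT
        (fun l hl => by
          obtain ⟨k1, k2⟩ := n0_top ha ia (hne l hl) (h l hl)
          exact ⟨_, k1, k2, (h l hl).xy2 hb⟩)
      exact Or.inr ⟨ha, h', hn, ptrStep_in_out ia hg hin ht, hAW⟩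
    xz := by
      obtain ⟨h', g, l, hg, hn, hin, hAW⟩ := mk_xz3 (red := red) ha hb hT (fun l hl => by
        obtain ⟨k1, k2⟩ := n0_top ha ia (hne l hl) (h l hl)
        exact ⟨_, k1, k2, (h l hl).xz3 hb⟩)
      exact Or.inr ⟨ha, h', hn, hAW⟩
    yz3 := mk_yz3 ha hb hT (fun l hl => (h l hl).yz)
    yz2 := fun h0 => absurd h0 ha }

theorem stepA_n2_out (ha : ¬ a.Nonrun) (hb : b.Nonrun) (ia : Inv a) (h1 : b.stk ≠ [])
    (ht : TopOut a) {T : Set (List ℕ)} (hT : Big (a.need + 1) T)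
    (h : ∀ l ∈ T, N2 red (a.step l) b) : N1 red a b := by
  exact
  { xy5 := mk_xy5 ha hb hT (fun l hl => (h l hl).xy5)
    xy4 := fun h0 => absurd h0 ha
    xy1 := by
      obtain ⟨h', g, l, hg, hn, hin, hAW⟩ := mk_xy (red := red) 2 (Or.inl rfl) ha hb hT
        (fun l hl => by
          obtain ⟨ha', k1, k2, k3⟩ := (h l hl).xy2 hb
          exact ⟨_, k1.1, k2, k3⟩)
      exact Or.inr ⟨ha, h', hn, ptrStep_in_out ia hg hin ht, hAW⟩
    xz := by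
      obtain ⟨i, _, hB⟩ := big_pigeon hT (Finset.univ : Finset Bool)
        (fun i l => l ∈ T ∧ if i = true then
          (∃ ha hb, NotTop (a.step l) ha ∧ PIn (a.step l) ha ∧ PtrW b hb ∧
            AW red XZ ⟨2, ha, hb, false⟩ (a.step l) b)
          else (¬ (a.step l).Nonrun ∧ ∃ ha, NotTop (a.step l) ha ∧ PIn (a.step l) ha ∧
            AW red XZ ⟨3, ha, 0, false⟩ (a.step l) b))
        (fun l hl => by
          rcases (h l hl).xz with h2 | h2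
          · exact ⟨true, Finset.mem_univ _, hl, by rw [if_pos rfl]; exact h2⟩
          · exact ⟨false, Finset.mem_univ _, hl, by
              rw [if_neg (by decide)]; exact h2⟩)
      cases i with
      | true =>
          obtain ⟨h', hb', hn, hw, hAW⟩ := mk_xz2 (red := red) ha hb hB (fun l hl => by
            have h3 := hl.2
            rw [if_pos rfl] at h3
            obtain ⟨h4, hb', k1, _, k2, k3⟩ := h3
            exact ⟨h4, k1.1, hb', k2, k3⟩)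
          exact Or.inl ⟨h', hb', hn, hw, hAW⟩
      | false =>
          obtain ⟨h', g, l, hg, hn, hin, hAW⟩ := mk_xz3 (red := red) ha hb hB (fun l hl => by
            have h3 := hl.2
            rw [if_neg (by decide)] at h3
            obtain ⟨_, h4, k1, k2, k3⟩ := h3
            exact ⟨h4, k1.1, k2, k3⟩)
          exact Or.inr ⟨ha, h', hn, hAW⟩
    yz3 := mk_yz3 ha hb hT (fun l hl => (h l hl).yz3)
    yz2 := fun h0 => absurd h0 ha }

end Pool.Agent.H90.Ord
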