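import Pool.Agent.H90.Ord.STPred
import Pool.Agent.H90.Ord.STCls

/-!
# One step, status `N1` (module STN1s)

`stepA_n1`: `a` is running, so `xy4` and `yz2` are vacuous.  `xy1`: one of the two alternatives holds on a Big set
(`big_pigeon` over `Bool`); first one: `ptr_pred` for `ha` (with `Q h l` = there is `hb` ..), then `ptr_const` for `hb`,
rule `PtrA`; second one: `ptr_pred`, `POut a` by `ptrStep_out` (take some `l` in the Big set), rule
`ph = 2, PtrA`, the second alternative again.  `xz` in the same way with phases 2 and 3.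
`stepB_n1`: `a` is nonrunning, so the first alternatives hold: `ptr_const` for `ha` and `ptr_pred` for `hb`.
`xy4` as in STN0 (flag `true`).
-/

set_option autoImplicit false

namespace Pool.Agent.H90.Ord

variable {red : List ℕ → List ℕ → Prop} {a b : St}

private theorem ne_nil_of_run {s : St} (h : ¬ s.Nonrun) : s.stk ≠ [] :=
  fun h0 => h (Or.inl h0)

theorem stepA_n1 (ha : ¬ a.Nonrun) (hb : b.Nonrun) (h1 : b.stk ≠ [])
    {T : Set (List ℕ)} (hT : Big (a.need + 1) T) (h : ∀ l ∈ T, N1 red (a.step l) b) :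
    N1 red a b := by
  have h0 : a.stk ≠ [] := ne_nil_of_run ha
  refine ⟨?_, fun hn => absurd hn ha, ?_, ?_, ?_, fun hn => absurd hn ha⟩
  · refine AW.stepA (fun _ => ⟨5, 0, 0, false⟩) T ha hb ?_ hT (fun l hl => (h l hl).xy5)
    simp [XY1, Same]
  · -- xy1
    obtain ⟨i, -, hi⟩ := big_pigeon hT (Finset.univ : Finset Bool)
      (fun i l => l ∈ T ∧ (if i = true then
        ∃ ha hb, NotTop (a.step l) ha ∧ PtrW b hb ∧ AW red XY1 ⟨1, ha, hb, false⟩ (a.step l) b
        else ∃ ha, NotTop (a.step l) ha ∧ POut (a.step l) ha ∧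
          AW red XY1 ⟨2, ha, 0, false⟩ (a.step l) b)) (by
        intro l hl
        rcases (h l hl).xy1 with h2 | h2
        · exact ⟨true, Finset.mem_univ _, hl, by simpa using h2⟩
        · exact ⟨false, Finset.mem_univ _, hl, by simpa using h2.2⟩)
    cases i with
    | true =>
        left
        obtain ⟨p, g, hg, hnt, hB⟩ := ptr_pred h0 hi
          (fun p l => ∃ hb, PtrW b hb ∧ AW red XY1 ⟨1, p, hb, false⟩ (a.step l) b) (by
            intro l hl
            obtain ⟨-, hl2⟩ := hl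
            rw [if_pos rfl] at hl2
            obtain ⟨pa, pb, h3, h4, h5⟩ := hl2
            exact ⟨pa, h3.1, pb, h4, h5⟩)
        obtain ⟨q, hq, hB2⟩ := ptr_const hB b (PtrW b) (fun _ hh => hh.1)
          (fun q l => AW red XY1 ⟨1, g l, q, false⟩ (a.step l) b) (by
            intro l hl
            obtain ⟨-, -, -, -, pb, h4, h5⟩ := hl
            exact ⟨pb, h4, h5⟩)
        refine ⟨p, q, hnt, hq, AW.stepA (fun l => ⟨1, g l, q, false⟩) _ ha hb ?_ hB2
          (fun l hl => hl.2)⟩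
        left
        exact ⟨rfl, rfl, g, hg, rfl⟩
    | false =>
        right
        refine ⟨ha, ?_⟩
        obtain ⟨p, g, hg, hnt, hB⟩ := ptr_pred h0 hi
          (fun p l => POut (a.step l) p ∧ AW red XY1 ⟨2, p, 0, false⟩ (a.step l) b) (by
            intro l hl
            obtain ⟨-, hl2⟩ := hl
            rw [if_neg (by simp)] at hl2
            obtain ⟨pa, h3, h4, h5⟩ := hl2
            exact ⟨pa, h3.1, h4, h5⟩)
        obtain ⟨l, hl, -⟩ := big_nonempty hB
        refine ⟨p, hnt, ptrStep_out hg hl.2.1 hl.2.2.1 hl.2.2.2.2.1,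
          AW.stepA (fun l => ⟨2, g l, 0, false⟩) _ ha hb ?_ hB (fun l hl => hl.2.2.2.2.2)⟩
        right; right; left
        exact ⟨rfl, rfl, g, hg, rfl⟩
  · -- xz
    obtain ⟨i, -, hi⟩ := big_pigeon hT (Finset.univ : Finset Bool)
      (fun i l => l ∈ T ∧ (if i = true then
        ∃ ha hb, NotTop (a.step l) ha ∧ PtrW b hb ∧ AW red XZ ⟨2, ha, hb, false⟩ (a.step l) b
        else ∃ ha, NotTop (a.step l) ha ∧ AW red XZ ⟨3, ha, 0, false⟩ (a.step l) b)) (by
        intro l hl
        rcases (h l hl).xz with h2 | h2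
        · exact ⟨true, Finset.mem_univ _, hl, by simpa using h2⟩
        · exact ⟨false, Finset.mem_univ _, hl, by simpa using h2.2⟩)
    cases i with
    | true =>
        left
        obtain ⟨p, g, hg, hnt, hB⟩ := ptr_pred h0 hi
          (fun p l => ∃ hb, PtrW b hb ∧ AW red XZ ⟨2, p, hb, false⟩ (a.step l) b) (by
            intro l hl
            obtain ⟨-, hl2⟩ := hl
            rw [if_pos rfl] at hl2
            obtain ⟨pa, pb, h3, h4, h5⟩ := hl2
            exact ⟨pa, h3.1, pb, h4, h5⟩)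
        obtain ⟨q, hq, hB2⟩ := ptr_const hB b (PtrW b) (fun _ hh => hh.1)
          (fun q l => AW red XZ ⟨2, g l, q, false⟩ (a.step l) b) (by
            intro l hl
            obtain ⟨-, -, -, -, pb, h4, h5⟩ := hl
            exact ⟨pb, h4, h5⟩)
        refine ⟨p, q, hnt, hq, AW.stepA (fun l => ⟨2, g l, q, false⟩) _ ha hb ?_ hB2
          (fun l hl => hl.2)⟩
        left
        exact ⟨Or.inr (Or.inr (Or.inl rfl)), rfl, g, hg, rfl⟩
    | false =>
        right
        refine ⟨ha, ?_⟩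
        obtain ⟨p, g, hg, hnt, hB⟩ := ptr_pred h0 hi
          (fun p l => AW red XZ ⟨3, p, 0, false⟩ (a.step l) b) (by
            intro l hl
            obtain ⟨-, hl2⟩ := hl
            rw [if_neg (by simp)] at hl2
            obtain ⟨pa, h3, h5⟩ := hl2
            exact ⟨pa, h3.1, h5⟩)
        refine ⟨p, hnt, AW.stepA (fun l => ⟨3, g l, 0, false⟩) _ ha hb ?_ hB
          (fun l hl => hl.2.2.2.2)⟩
        left
        exact ⟨Or.inr (Or.inr (Or.inr rfl)), rfl, g, hg, rfl⟩
  · refine AW.stepA (fun _ => ⟨3, 0, 0, false⟩) T ha hb ?_ hT (fun l hl => (h l hl).yz3)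
    right; right
    exact ⟨rfl, fun h2 => absurd h2 h0, rfl⟩

theorem stepB_n1 (ha : a.Nonrun) (hb : ¬ b.Nonrun) (h0 : a.stk ≠ [])
    {T : Set (List ℕ)} (hT : Big (b.need + 1) T) (h : ∀ l ∈ T, N1 red a (b.step l)) :
    N1 red a b := by
  have h1 : b.stk ≠ [] := ne_nil_of_run hb
  refine ⟨?_, fun _ => ?_, ?_, ?_, ?_, fun _ => ?_⟩
  · refine AW.stepB (fun _ => ⟨5, 0, 0, false⟩) T ha hb ?_ hT (fun l hl => (h l hl).xy5)
    simp [XY1, Same]
  · refine AW.stepB (fun _ => ⟨4, 0, 0, true⟩) T ha hb ?_ hT (fun l hl => (h l hl).xy4 ha)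
    by_cases ht : TopOut b
    · right; right; right; right; right; left
      exact ⟨rfl, rfl, ht, rfl⟩
    · right; right; right; right; right; right; left
      exact ⟨rfl, rfl, ht, rfl⟩
  · left
    obtain ⟨p, hp, hB⟩ := ptr_const hT a (NotTop a) (fun _ hh => hh.1)
      (fun p l => ∃ q, PtrW (b.step l) q ∧ AW red XY1 ⟨1, p, q, false⟩ a (b.step l)) (by
        intro l hl
        rcases (h l hl).xy1 with h2 | h2
        · obtain ⟨pa, pb, h3, h4, h5⟩ := h2
          exact ⟨pa, h3, pb, h4, h5⟩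
        · exact absurd ha h2.1)
    obtain ⟨q, g, hg, hnt, hB2⟩ := ptr_pred h1 hB
      (fun q l => AW red XY1 ⟨1, p, q, false⟩ a (b.step l)) (by
        intro l hl
        obtain ⟨-, q, h4, h5⟩ := hl
        exact ⟨q, h4.1, h5⟩)
    refine ⟨p, q, hp, hnt.ptrW, AW.stepB (fun l => ⟨1, p, g l, false⟩) _ ha hb ?_ hB2
      (fun l hl => hl.2.2.2.2)⟩
    right; left
    exact ⟨rfl, rfl, g, hg, rfl⟩
  · left
    obtain ⟨p, hp, hB⟩ := ptr_const hT a (NotTop a) (fun _ hh => hh.1)
      (fun p l => ∃ q, PtrW (b.step l) q ∧ AW red XZ ⟨2, p, q, false⟩ a (b.step l)) (by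
        intro l hl
        rcases (h l hl).xz with h2 | h2
        · obtain ⟨pa, pb, h3, h4, h5⟩ := h2
          exact ⟨pa, h3, pb, h4, h5⟩
        · exact absurd ha h2.1)
    obtain ⟨q, g, hg, hnt, hB2⟩ := ptr_pred h1 hB
      (fun q l => AW red XZ ⟨2, p, q, false⟩ a (b.step l)) (by
        intro l hl
        obtain ⟨-, q, h4, h5⟩ := hl
        exact ⟨q, h4.1, h5⟩)
    refine ⟨p, q, hp, hnt.ptrW, AW.stepB (fun l => ⟨2, p, g l, false⟩) _ ha hb ?_ hB2
      (fun l hl => hl.2.2.2.2)⟩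
    right; left
    exact ⟨rfl, rfl, g, hg, rfl⟩
  · refine AW.stepB (fun _ => ⟨3, 0, 0, false⟩) T ha hb ?_ hT (fun l hl => (h l hl).yz3)
    right; right
    exact ⟨rfl, fun h2 => absurd h2 h0, rfl⟩
  · obtain ⟨q, g, hg, hnt, hB⟩ := ptr_pred h1 hT
      (fun q l => AW red YZ ⟨2, 0, q, false⟩ a (b.step l)) (by
        intro l hl
        obtain ⟨q, h4, h5⟩ := (h l hl).yz2 ha
        exact ⟨q, h4.1, h5⟩)
    refine ⟨q, hnt.ptrW, AW.stepB (fun l => ⟨2, 0, g l, false⟩) _ ha hb ?_ hB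
      (fun l hl => hl.2.2.2.2)⟩
    right; left
    exact ⟨rfl, rfl, g, hg, rfl⟩

end Pool.Agent.H90.Ord
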