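import Pool.Agent.H90.Ord.STPred
import Pool.Agent.H90.Ord.STCls

/-!
# One pick, status `N2` (module STN2)

`pickA_n2`: `xyk`: the second alternative: `HasInnerMark b` (`nonrun_unit`, `at_top`), and `xy3` of the content at
`(a.pick n, b)` with `PtrW.notTop_of_pick`, rule `ph = 3, v = true, NT a ha`.  `xy2`, `xy3`: rules
`ph = 2 or 3, v = true, NT a ha`.  The rest as in STN1, `PIn` is kept.
`pickB_n2`: `xyk` by the rules `ph = 4, v = false` and `ph = 3, v = false, ha < a.stk.length`.  `xy2`, `xy3` come from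
`xyk` at `(a, b.pick n)`: if `AW ⟨4, 0, 0, false⟩` then `ha = a.stk.length` and the rule with `AT a ha`
(`pick_unit`, `at_top`), otherwise the same `ha` with the rules `ph = 2, v = false, PIn a ha` and
`ph = 3, v = false, ha < a.stk.length`.
-/

set_option autoImplicit false

namespace Pool.Agent.H90.Ord

variable {red : List ℕ → List ℕ → Prop} {a b : St}

theorem pickA_n2 (ha : a.Nonrun) (hb : b.Nonrun) (h0 : a.stk ≠ []) (h1 : b.stk ≠ []) (ia : Inv a)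
    (ib : Inv b) (hr : a.real ≠ []) (sb : Started b) (n : ℕ) (h : N2 red (a.pick n) b) :
    N2 red a b := by
  have ru := pick_run h0 n
  have oa : ∃ t, a.stk = (.inn 0, .U) :: t ∨ a.stk = (.root, .U) :: t := (ha.resolve_left h0).2
  obtain ⟨ta, hta⟩ := pick_unit ia ha h0 hr
  obtain ⟨tb, htb⟩ := nonrun_unit ib hb h1 sb
  obtain ⟨at1, at2, at3, at4⟩ := at_top htb
  refine ⟨?_, ?_, ?_, ?_, ?_, ?_, ?_, ?_⟩
  · exact AW.pickA n ha hb h0 (Or.inr (Or.inr (Or.inr (Or.inr (Or.inr (Or.inr (Or.inr (Or.inr (Or.inr (Or.inr (⟨rfl, rfl⟩))))))))))) h.xy5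
  · intro _
    exact AW.pickA n ha hb h0 (Or.inr (Or.inr (Or.inr (Or.inr (Or.inr (Or.inr (Or.inr (Or.inr (Or.inr (Or.inl ⟨rfl, rfl, Or.inl rfl, rfl⟩)))))))))) h.xy5
  · intro _
    obtain ⟨p, p1, p2, p3⟩ := h.xy3 hb
    have q1 := PtrW.notTop_of_pick h0 p1
    exact Or.inr ⟨at4, p, q1, p2, AW.pickA n ha hb h0
      (Or.inr (Or.inr (Or.inr (Or.inr (Or.inr (Or.inl ⟨rfl, rfl, NotTop.nt q1 oa, rfl⟩)))))) p3⟩
  · intro _
    obtain ⟨p, p1, p2, p3⟩ := h.xy2 hb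
    have q1 := PtrW.notTop_of_pick h0 p1
    exact ⟨p, q1.ptrW, p2, AW.pickA n ha hb h0
      (Or.inr (Or.inr (Or.inr (Or.inl ⟨rfl, rfl, NotTop.nt q1 oa, rfl⟩)))) p3⟩
  · intro _
    obtain ⟨p, p1, p2, p3⟩ := h.xy3 hb
    have q1 := PtrW.notTop_of_pick h0 p1
    exact ⟨p, q1.ptrW, p2, AW.pickA n ha hb h0
      (Or.inr (Or.inr (Or.inr (Or.inr (Or.inr (Or.inl ⟨rfl, rfl, NotTop.nt q1 oa, rfl⟩)))))) p3⟩
  · rcases h.xz with ⟨p, q, p1, p2, p3, p4⟩ | ⟨-, p, p1, p2, p3⟩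
    · have q1 := notTop_pick.1 p1
      exact Or.inl ⟨p, q, q1, p2, p3, AW.pickA n ha hb h0
        (Or.inr (Or.inr (Or.inl ⟨rfl, rfl, NotTop.nt q1 oa, rfl⟩))) p4⟩
    · have q1 := notTop_pick.1 p1
      exact Or.inl ⟨p, b.stk.length, q1, p2, ptrW_of_ok hb at2, AW.pickA n ha hb h0
        (Or.inr (Or.inr (Or.inr (Or.inl ⟨rfl, rfl, NotTop.lt q1 hta, at1, rfl⟩)))) p3⟩
  · exact AW.pickA n ha hb h0 (Or.inr (Or.inr (Or.inr (Or.inr (⟨rfl, fun h2 => absurd h2 h0, rfl⟩))))) h.yz3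
  · intro _
    exact ⟨b.stk.length, ptrW_of_ok hb at2, AW.pickA n ha hb h0
      (Or.inr (Or.inr (Or.inr (Or.inl ⟨rfl, rfl, at1, rfl⟩)))) h.yz3⟩

theorem pickB_n2 (ha : a.Nonrun) (hb : b.Nonrun) (h0 : a.stk ≠ []) (h1 : b.stk ≠ []) (ia : Inv a)
    (ib : Inv b) (hr : a.real ≠ []) (sb : Started b) (n : ℕ) (h : N2 red a (b.pick n)) :
    N2 red a b := by
  have ru := pick_run h1 n
  have ob : ∃ t, b.stk = (.inn 0, .U) :: t ∨ b.stk = (.root, .U) :: t := (hb.resolve_left h1).2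
  obtain ⟨ta, hta⟩ := pick_unit ia ha h0 hr
  obtain ⟨at1, at2, at3, at4⟩ := at_top hta
  refine ⟨?_, ?_, ?_, ?_, ?_, ?_, ?_, ?_⟩
  · exact AW.pickB n ha hb h1 hr (Or.inr (Or.inr (Or.inr (Or.inr (Or.inr (Or.inr (Or.inr (Or.inr (Or.inr (Or.inr (⟨rfl, rfl⟩))))))))))) h.xy5
  · intro _
    exact AW.pickB n ha hb h1 hr (Or.inr (Or.inr (Or.inr (Or.inr (Or.inr (Or.inr (Or.inr (Or.inr (Or.inl ⟨rfl, rfl, rfl⟩))))))))) (h.xy4 ha)
  · intro _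
    rcases h.xyk ha with h2 | ⟨h2, p, p1, p2, p3⟩
    · exact Or.inl (AW.pickB n ha hb h1 hr (Or.inr (Or.inr (Or.inr (Or.inr (Or.inr (Or.inr (Or.inr (Or.inr (Or.inl ⟨rfl, rfl, rfl⟩))))))))) h2)
    · exact Or.inr ⟨h2, p, p1, p2, AW.pickB n ha hb h1 hr
        (Or.inr (Or.inr (Or.inr (Or.inr (Or.inr (Or.inr (Or.inl ⟨rfl, rfl, NotTop.lt p1 hta, rfl⟩))))))) p3⟩
  · intro _
    rcases h.xyk ha with h2 | ⟨h2, p, p1, p2, p3⟩
    · exact ⟨a.stk.length, ptrW_of_ok ha at2, at3, AW.pickB n ha hb h1 hr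
        (Or.inr (Or.inr (Or.inr (Or.inr (Or.inr (Or.inr (Or.inr (Or.inl ⟨Or.inl rfl, rfl, at1, rfl⟩)))))))) h2⟩
    · exact ⟨p, p1.ptrW, p2, AW.pickB n ha hb h1 hr
        (Or.inr (Or.inr (Or.inr (Or.inr (Or.inl ⟨rfl, rfl, p2, NotTop.lt p1 hta, rfl⟩))))) p3⟩
  · intro _
    rcases h.xyk ha with h2 | ⟨h2, p, p1, p2, p3⟩
    · exact ⟨a.stk.length, ptrW_of_ok ha at2, at3, AW.pickB n ha hb h1 hr
        (Or.inr (Or.inr (Or.inr (Or.inr (Or.inr (Or.inr (Or.inr (Or.inl ⟨Or.inr rfl, rfl, at1, rfl⟩)))))))) h2⟩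
    · exact ⟨p, p1.ptrW, p2, AW.pickB n ha hb h1 hr
        (Or.inr (Or.inr (Or.inr (Or.inr (Or.inr (Or.inr (Or.inl ⟨rfl, rfl, NotTop.lt p1 hta, rfl⟩))))))) p3⟩
  · rcases h.xz with ⟨p, q, p1, p2, p3, p4⟩ | ⟨h2, -⟩
    · have q1 := PtrW.notTop_of_pick h1 p3
      exact Or.inl ⟨p, q, p1, p2, q1.ptrW, AW.pickB n ha hb h1 hr
        (Or.inr (Or.inr (Or.inr (Or.inr (Or.inl ⟨rfl, rfl, NotTop.nt q1 ob, NotTop.lt p1 hta, rfl⟩))))) p4⟩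
    · exact absurd ha h2
  · exact AW.pickB n ha hb h1 hr (Or.inr (Or.inr (Or.inr (Or.inr (⟨rfl, fun h2 => absurd h2 h0, rfl⟩))))) h.yz3
  · intro _
    obtain ⟨q, p1, p2⟩ := h.yz2 ha
    have q1 := PtrW.notTop_of_pick h1 p1
    exact ⟨q, q1.ptrW, AW.pickB n ha hb h1 hr
      (Or.inr (Or.inr (Or.inl ⟨rfl, rfl, NotTop.nt q1 ob, rfl⟩))) p2⟩

end Pool.Agent.H90.Ord
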