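import Pool.Agent.H90.Ord.STPred
import Pool.Agent.H90.Ord.STCls

/-!
# One step, status `N2` (module STN2s)

`stepA_n2`: `a` is running, so `xy4`, `xyk`, `yz2` are vacuous; `xy2`, `xy3`, `xz`: `ptr_pred` for `ha` with `PIn` in
`Q`, then `ptrStep_in` for some `l` of the Big set; `ptr_const` for `hb`.
`stepB_n2`: `xyk`: if `TopOut b` then `AW ⟨4, 0, 0, false⟩` by the rule which sets the flag and `xy4` at the next
positions.  Otherwise one alternative holds on a Big set; the first one: `Same`; the second one: `HasInnerMark b`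
by `hasInner_step`, `ptr_const` for `ha`, rule `ph = 3, v = false, HasInnerMark b, Same`.  `xy2`, `xy3` are vacuous.
-/

set_option autoImplicit false

namespace Pool.Agent.H90.Ord

variable {red : List ℕ → List ℕ → Prop} {a b : St}

private theorem run_stk {s : St} (h : ¬ s.Nonrun) : s.stk ≠ [] := fun h1 => h (Or.inl h1)

/-- one step of `a` with a prediction of its pointer -/
private theorem stepA_ptr {A : Auto} {p hb' : ℕ} (ha : ¬ a.Nonrun) (hb : b.Nonrun) (ht : ¬ TopOut a)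
    {T : Set (List ℕ)} (hT : Big (a.need + 1) T)
    (hA : ∀ (h : ℕ) (g : List ℕ → ℕ), PtrStep h a g →
      A.stepT ⟨p, h, hb', false⟩ true a b fun l => ⟨p, g l, hb', false⟩)
    (h : ∀ l ∈ T, ∃ h, PtrOK (a.step l) h ∧ PIn (a.step l) h ∧
      AW red A ⟨p, h, hb', false⟩ (a.step l) b) :
    ∃ h, NotTop a h ∧ PIn a h ∧ AW red A ⟨p, h, hb', false⟩ a b := by
  obtain ⟨h', g, hp, hnt, hB⟩ := ptr_pred (run_stk ha) hT
    (fun h l => PIn (a.step l) h ∧ AW red A ⟨p, h, hb', false⟩ (a.step l) b) h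
  obtain ⟨l, hl, -⟩ := big_nonempty hB
  exact ⟨h', hnt, ptrStep_in hp hl.2.2.2.2.1 ht, AW.stepA (fun l => ⟨p, g l, hb', false⟩) _ ha hb
    (hA h' g hp) hB fun l hl => hl.2.2.2.2.2⟩

/-- one of two alternatives holds on a Big set -/
private theorem big_or {n : ℕ} {T : Set (List ℕ)} (hT : Big n T) {P Q : List ℕ → Prop}
    (h : ∀ l ∈ T, P l ∨ Q l) : Big n {l | P l} ∨ Big n {l | Q l} := by
  obtain ⟨i, -, hi⟩ := big_pigeon hT (Finset.univ : Finset Bool)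
    (fun i l => if i = true then P l else Q l) (fun l hl => by
      rcases h l hl with h1 | h1
      · exact ⟨true, Finset.mem_univ _, by simpa using h1⟩
      · exact ⟨false, Finset.mem_univ _, by simpa using h1⟩)
  cases i with
  | true => exact Or.inl (by simpa using hi)
  | false => exact Or.inr (by simpa using hi)

theorem stepA_n2 (ha : ¬ a.Nonrun) (hb : b.Nonrun) (h1 : b.stk ≠ []) (ht : ¬ TopOut a)
    {T : Set (List ℕ)} (hT : Big (a.need + 1) T) (h : ∀ l ∈ T, N2 red (a.step l) b) :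
    N2 red a b := by
  have _ := h1
  have h0 := run_stk ha
  refine ⟨?_, fun h2 => absurd h2 ha, fun h2 => absurd h2 ha, fun _ => ?_, fun _ => ?_, ?_, ?_,
    fun h2 => absurd h2 ha⟩
  · refine AW.stepA (fun _ => ⟨5, 0, 0, false⟩) T ha hb ?_ hT fun l hl => (h l hl).xy5
    exact Or.inr (Or.inr (Or.inr (Or.inr (Or.inr (Or.inr (Or.inr ⟨rfl, rfl⟩))))))
  · obtain ⟨h', h2, h3, h4⟩ := stepA_ptr (red := red) (A := XY1) (p := 2) (hb' := 0) ha hb ht hT
      (fun h g hp => Or.inr (Or.inr (Or.inl ⟨rfl, rfl, g, hp, rfl⟩)))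
      (fun l hl => by
        obtain ⟨h', h2, h3, h4⟩ := (h l hl).xy2 hb
        exact ⟨h', h2.1, h3, h4⟩)
    exact ⟨h', h2.ptrW, h3, h4⟩
  · obtain ⟨h', h2, h3, h4⟩ := stepA_ptr (red := red) (A := XY1) (p := 3) (hb' := 0) ha hb ht hT
      (fun h g hp => Or.inr (Or.inr (Or.inr (Or.inl ⟨rfl, rfl, g, hp, rfl⟩))))
      (fun l hl => by
        obtain ⟨h', h2, h3, h4⟩ := (h l hl).xy3 hb
        exact ⟨h', h2.1, h3, h4⟩)
    exact ⟨h', h2.ptrW, h3, h4⟩
  · rcases big_or hT (fun l hl => (h l hl).xz) with h2 | h2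
    · left
      obtain ⟨h', g, hp, hnt, hB⟩ := ptr_pred h0 h2
        (fun h l => PIn (a.step l) h ∧ ∃ hb', PtrW b hb' ∧
          AW red XZ ⟨2, h, hb', false⟩ (a.step l) b) (fun l hl => by
          obtain ⟨ha', hb', h3, h4, h5, h6⟩ := hl
          exact ⟨ha', h3.1, h4, hb', h5, h6⟩)
      obtain ⟨l, hl, -⟩ := big_nonempty hB
      obtain ⟨hb', h3, hB'⟩ := ptr_const hB b (PtrW b) (fun h h4 => h4.1)
        (fun h l => AW red XZ ⟨2, g l, h, false⟩ (a.step l) b) (fun l hl => hl.2.2.2.2.2)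
      exact ⟨h', hb', hnt, ptrStep_in hp hl.2.2.2.2.1 ht, h3,
        AW.stepA (fun l => ⟨2, g l, hb', false⟩) _ ha hb
          (Or.inl ⟨Or.inr (Or.inr (Or.inl rfl)), rfl, g, hp, rfl⟩) hB' fun l hl => hl.2⟩
    · right
      refine ⟨ha, stepA_ptr (red := red) (A := XZ) (p := 3) (hb' := 0) ha hb ht h2
        (fun h g hp => Or.inl ⟨Or.inr (Or.inr (Or.inr rfl)), rfl, g, hp, rfl⟩)
        (fun l hl => ?_)⟩
      obtain ⟨-, h', h3, h4, h5⟩ := hl
      exact ⟨h', h3.1, h4, h5⟩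
  · refine AW.stepA (fun _ => ⟨3, 0, 0, false⟩) T ha hb ?_ hT fun l hl => (h l hl).yz3
    exact Or.inr (Or.inr ⟨rfl, fun h2 => absurd h2 h0, rfl⟩)

theorem stepB_n2 (ha : a.Nonrun) (hb : ¬ b.Nonrun) (h0 : a.stk ≠ [])
    {T : Set (List ℕ)} (hT : Big (b.need + 1) T) (h : ∀ l ∈ T, N2 red a (b.step l)) :
    N2 red a b := by
  have h1 := run_stk hb
  refine ⟨?_, fun _ => ?_, fun _ => ?_, fun h2 => absurd h2 hb, fun h2 => absurd h2 hb, Or.inl ?_,
    ?_, fun _ => ?_⟩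
  · refine AW.stepB (fun _ => ⟨5, 0, 0, false⟩) T ha hb ?_ hT fun l hl => (h l hl).xy5
    exact Or.inr (Or.inr (Or.inr (Or.inr (Or.inr (Or.inr (Or.inr ⟨rfl, rfl⟩))))))
  · refine AW.stepB (fun _ => ⟨4, 0, 0, true⟩) T ha hb ?_ hT fun l hl => (h l hl).xy4 ha
    by_cases h2 : TopOut b
    · exact Or.inr (Or.inr (Or.inr (Or.inr (Or.inr (Or.inl ⟨rfl, rfl, h2, rfl⟩)))))
    · exact Or.inr (Or.inr (Or.inr (Or.inr (Or.inr (Or.inr (Or.inl ⟨rfl, rfl, h2, rfl⟩))))))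
  · by_cases h2 : TopOut b
    · left
      refine AW.stepB (fun _ => ⟨4, 0, 0, true⟩) T ha hb ?_ hT fun l hl => (h l hl).xy4 ha
      exact Or.inr (Or.inr (Or.inr (Or.inr (Or.inr (Or.inl ⟨rfl, rfl, h2, rfl⟩)))))
    · rcases big_or hT (fun l hl => (h l hl).xyk ha) with h3 | h3
      · left
        refine AW.stepB (fun _ => ⟨4, 0, 0, false⟩) _ ha hb ?_ h3 fun l hl => hl
        exact Or.inr (Or.inr (Or.inr (Or.inr (Or.inr (Or.inr (Or.inl ⟨rfl, rfl, h2, rfl⟩))))))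
      · right
        obtain ⟨l, hl, -⟩ := big_nonempty h3
        have h4 : HasInnerMark b := hasInner_step h1 hl.1 h2
        obtain ⟨h', h5, hB⟩ := ptr_const h3 a (fun h => NotTop a h ∧ PIn a h) (fun h h6 => h6.1.1)
          (fun h l => AW red XY1 ⟨3, h, 0, false⟩ a (b.step l)) (fun l hl => by
            obtain ⟨-, h', h6, h7, h8⟩ := hl
            exact ⟨h', ⟨h6, h7⟩, h8⟩)
        refine ⟨h4, h', h5.1, h5.2, AW.stepB (fun _ => ⟨3, h', 0, false⟩) _ ha hb ?_ hB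
          fun l hl => hl.2⟩
        exact Or.inr (Or.inr (Or.inr (Or.inr (Or.inl ⟨rfl, rfl, h4, rfl⟩))))
  · obtain ⟨h', g, hp, hnt, hB⟩ := ptr_pred h1 hT
      (fun h l => ∃ ha', (NotTop a ha' ∧ PIn a ha') ∧ AW red XZ ⟨2, ha', h, false⟩ a (b.step l))
      (fun l hl => by
        rcases (h l hl).xz with ⟨ha', hb', h3, h4, h5, h6⟩ | h3
        · exact ⟨hb', h5.1, ha', ⟨h3, h4⟩, h6⟩
        · exact absurd ha h3.1)
    obtain ⟨ha', h3, hB'⟩ := ptr_const hB a (fun h => NotTop a h ∧ PIn a h) (fun h h4 => h4.1.1)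
      (fun h l => AW red XZ ⟨2, h, g l, false⟩ a (b.step l)) (fun l hl => hl.2.2.2.2)
    exact ⟨ha', h', h3.1, h3.2, hnt.ptrW, AW.stepB (fun l => ⟨2, ha', g l, false⟩) _ ha hb
      (Or.inr (Or.inl ⟨rfl, rfl, g, hp, rfl⟩)) hB' fun l hl => hl.2⟩
  · refine AW.stepB (fun _ => ⟨3, 0, 0, false⟩) T ha hb ?_ hT fun l hl => (h l hl).yz3
    exact Or.inr (Or.inr ⟨rfl, fun h2 => absurd h2 h0, rfl⟩)
  · obtain ⟨h', g, hp, hnt, hB⟩ := ptr_pred h1 hT
      (fun h l => AW red YZ ⟨2, 0, h, false⟩ a (b.step l)) (fun l hl => by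
        obtain ⟨h', h2, h3⟩ := (h l hl).yz2 ha
        exact ⟨h', h2.1, h3⟩)
    exact ⟨h', hnt.ptrW, AW.stepB (fun l => ⟨2, 0, g l, false⟩) _ ha hb
      (Or.inr (Or.inl ⟨rfl, rfl, g, hp, rfl⟩)) hB fun l hl => hl.2.2.2.2⟩

end Pool.Agent.H90.Ord
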