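import Pool.Agent.H90.Ord.STPred
import Pool.Agent.H90.Ord.STCls

/-!
# `b` is complete (module STSB)

Induction on `Win` with `b.stk = []`: only `done`, `pickA`, `stepA` are possible.
-/

set_option autoImplicit false

namespace Pool.Agent.H90.Ord

variable {red : List ℕ → List ℕ → Prop} {a b : St}

theorem sb_of_win (h : Win red a b) (hb : b.stk = []) : SB red a b := by
  induction h with
  | done ha hb' h =>
      exact ⟨AW.done ha hb' h rfl, fun _ h0 => absurd ha h0, AW.done ha hb' h rfl, fun _ h0 => absurd ha h0,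
        AW.done ha hb' h rfl, AW.done ha hb' h rfl, fun _ h0 => absurd ha h0⟩
  | @pickA a b n ha hb' h0 _ ih =>
      have hs := ih hb
      refine ⟨?_, ?_, ?_, ?_, ?_, ?_, ?_⟩
      · exact AW.pickA n ha hb' h0
          (Or.inr (Or.inr (Or.inr (Or.inr (Or.inr (Or.inr (Or.inr (Or.inr (Or.inr (Or.inr ⟨rfl, rfl⟩))))))))))
          hs.xy5
      · intro _ _ fl
        exact AW.pickA n ha hb' h0
          (Or.inr (Or.inr (Or.inr (Or.inr (Or.inr (Or.inr (Or.inr (Or.inr (Or.inr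
            (Or.inl ⟨rfl, rfl, Or.inr hb, rfl⟩)))))))))) hs.xy5
      · exact AW.pickA n ha hb' h0
          (Or.inr (Or.inr (Or.inr (Or.inr (Or.inr (Or.inr (Or.inr (Or.inr (Or.inr ⟨rfl, rfl, rfl⟩)))))))))
          hs.xz5
      · intro _ _
        exact AW.pickA n ha hb' h0
          (Or.inr (Or.inr (Or.inr (Or.inr (Or.inr (Or.inr (Or.inr (Or.inr (Or.inl ⟨rfl, rfl, hb, rfl⟩)))))))))
          hs.xz5
      · exact AW.pickA n ha hb' h0 (Or.inr (Or.inr (Or.inr (Or.inr ⟨rfl, fun _ => hb, rfl⟩)))) hs.yz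
      · exact AW.pickA n ha hb' h0 (Or.inr (Or.inr (Or.inr (Or.inr ⟨rfl, rfl, rfl⟩)))) hs.r3
      · intro _ _
        exact AW.pickA n ha hb' h0 (Or.inr (Or.inr (Or.inr (Or.inl ⟨rfl, rfl, hb, rfl⟩)))) hs.r3
  | pickB n ha hb' h0 _ _ _ => exact absurd hb h0
  | @stepA a b T ha hb' hT _ ih =>
      have hs := fun l hl => ih l hl hb
      refine ⟨?_, fun h => absurd h ha, ?_, fun h => absurd h ha, ?_, ?_, fun h => absurd h ha⟩
      · exact AW.stepA (fun _ => ⟨5, 0, 0, false⟩) T ha hb'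
          (Or.inr (Or.inr (Or.inr (Or.inr (Or.inr (Or.inr (Or.inr ⟨rfl, rfl⟩))))))) hT
          (fun l hl => (hs l hl).xy5)
      · exact AW.stepA (fun _ => ⟨5, 0, 0, false⟩) T ha hb'
          (Or.inr (Or.inr (Or.inr ⟨rfl, rfl, rfl⟩))) hT (fun l hl => (hs l hl).xz5)
      · exact AW.stepA (fun _ => ⟨3, 0, 0, false⟩) T ha hb'
          (Or.inr (Or.inr ⟨rfl, fun _ => hb, rfl⟩)) hT (fun l hl => (hs l hl).yz)
      · exact AW.stepA (fun _ => ⟨3, 0, 0, false⟩) T ha hb'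
          ⟨Or.inr (Or.inr ⟨rfl, rfl⟩), rfl⟩ hT (fun l hl => (hs l hl).r3)
  | stepB T ha hb' _ _ _ => exact absurd (Or.inl hb) hb'

end Pool.Agent.H90.Ord
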