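import Pool.Agent.H90.Ord.STPred
import Pool.Agent.H90.Ord.STCls

/-!
# `b` not started, the moves of `a` (module STUp)

`b` is the unpicked initial state (`hbs`), `b.Nonrun`.  `pickA_u`, `stepA_u`: all contents are kept: `Same` or
`PtrA` with `ptr_pred`; `NT a ha` for a nonrunning incomplete `a`: the top is a marked unit or the marked root
(`Nonrun` with `a.stk ≠ []`), `PtrW.notTop_of_pick`, `NotTop.nt`.
-/

set_option autoImplicit false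

namespace Pool.Agent.H90.Ord

variable {red : List ℕ → List ℕ → Prop} {a b : St}

private theorem up_ptr (A : Auto) (ph hb' : ℕ) (h0 : a.stk ≠ []) (ha : ¬ a.Nonrun) (hb : b.Nonrun)
    {T : Set (List ℕ)} (hT : Big (a.need + 1) T)
    (hQ : ∀ l ∈ T, ∃ h, PtrOK (a.step l) h ∧ AW red A ⟨ph, h, hb', false⟩ (a.step l) b)
    (hrule : ∀ h g, PtrStep h a g → A.stepT ⟨ph, h, hb', false⟩ true a b (fun l => ⟨ph, g l, hb', false⟩)) :
    ∃ h, NotTop a h ∧ AW red A ⟨ph, h, hb', false⟩ a b := by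
  obtain ⟨h, g, h1, h2, h3⟩ := ptr_pred h0 hT (fun h l => AW red A ⟨ph, h, hb', false⟩ (a.step l) b) hQ
  exact ⟨h, h2, AW.stepA (fun l => ⟨ph, g l, hb', false⟩) _ ha hb (hrule h g h1) h3
    (fun l hl => hl.2.2.2.2)⟩

private theorem up_ne (ha : ¬ a.Nonrun) : a.stk ≠ [] := fun h => ha (Or.inl h)

private theorem up_top (ha : a.Nonrun) (h0 : a.stk ≠ []) :
    ∃ t, a.stk = (.inn 0, .U) :: t ∨ a.stk = (.root, .U) :: t := by
  rcases ha with h | h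
  · exact absurd h h0
  · exact h.2

private theorem up_bne (hbs : b.stk = [(.root, .U)]) : b.stk ≠ [] := by
  rw [hbs]
  simp

theorem pickA_u (ha : a.Nonrun) (hb : b.Nonrun) (h0 : a.stk ≠ [])
    (hbs : b.stk = [(.root, .U)]) (n : ℕ) (σ : Stu) (h : ContU red σ (a.pick n) b) :
    ContU red σ a b := by
  have hbn := up_bne hbs
  have htop := up_top ha h0
  cases σ with
  | t => exact AW.pickA n ha hb h0 (Or.inl ⟨rfl, rfl, rfl⟩) h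
  | i =>
    obtain ⟨h1, h2, p, h3, h4⟩ := h
    have h5 := PtrW.notTop_of_pick h0 h3
    refine ⟨AW.pickA n ha hb h0 (Or.inl ⟨rfl, rfl, rfl⟩) h1,
      AW.pickA n ha hb h0 ⟨fun h => absurd h hbn, rfl⟩ h2, p, NotTop.ptrW h5,
      AW.pickA n ha hb h0 (Or.inl ⟨rfl, rfl, NotTop.nt h5 htop, rfl⟩) h4⟩
  | r => exact AW.pickA n ha hb h0 (Or.inl ⟨rfl, rfl, rfl⟩) h
  | u2 =>
    obtain ⟨⟨p, h1, h2⟩, ⟨q, h3, h4⟩⟩ := h
    have h5 := notTop_pick.1 h1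
    have h6 := PtrW.notTop_of_pick h0 h3
    exact ⟨⟨p, h5, AW.pickA n ha hb h0 (Or.inl ⟨Or.inr rfl, rfl, NotTop.nt h5 htop, rfl⟩) h2⟩,
      ⟨q, NotTop.ptrW h6, AW.pickA n ha hb h0 (Or.inl ⟨rfl, rfl, NotTop.nt h6 htop, rfl⟩) h4⟩⟩
  | u1 =>
    obtain ⟨⟨o, h7, h8⟩, ⟨p, h1, h2⟩, ⟨q, h3, h4⟩⟩ := h
    have h5 := notTop_pick.1 h1
    have h6 := PtrW.notTop_of_pick h0 h3
    have h9 := notTop_pick.1 h7
    exact ⟨⟨o, h9, AW.pickA n ha hb h0 (Or.inl ⟨rfl, rfl, NotTop.nt h9 htop, rfl⟩) h8⟩,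
      ⟨p, h5, AW.pickA n ha hb h0 (Or.inl ⟨Or.inl rfl, rfl, NotTop.nt h5 htop, rfl⟩) h2⟩,
      ⟨q, NotTop.ptrW h6, AW.pickA n ha hb h0 (Or.inl ⟨rfl, rfl, NotTop.nt h6 htop, rfl⟩) h4⟩⟩

theorem stepA_u (ha : ¬ a.Nonrun) (hb : b.Nonrun) (hbs : b.stk = [(.root, .U)])
    {T : Set (List ℕ)} (hT : Big (a.need + 1) T) (σ : Stu)
    (h : ∀ l ∈ T, ContU red σ (a.step l) b) : ContU red σ a b := by
  have hbn := up_bne hbs
  have h0 := up_ne ha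
  cases σ with
  | t => exact AW.stepA (fun _ => ⟨1, 0, 0, false⟩) T ha hb ⟨Or.inl ⟨rfl, rfl⟩, rfl⟩ hT h
  | i =>
    refine ⟨AW.stepA (fun _ => ⟨1, 0, 1, false⟩) T ha hb (Or.inl ⟨rfl, rfl, rfl⟩) hT (fun l hl => (h l hl).xy),
      AW.stepA (fun _ => ⟨0, 0, 0, false⟩) T ha hb ⟨fun h => absurd h hbn, rfl⟩ hT (fun l hl => (h l hl).xz), ?_⟩
    obtain ⟨p, h1, h2⟩ := up_ptr YZI 1 0 h0 ha hb hT (red := red) (fun l hl => by
      obtain ⟨q, h3, h4⟩ := (h l hl).yz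
      exact ⟨q, h3.1, h4⟩) (fun h g hg => Or.inl ⟨rfl, rfl, g, hg, rfl⟩)
    exact ⟨p, NotTop.ptrW h1, h2⟩
  | r => exact AW.stepA (fun _ => ⟨1, 0, 0, false⟩) T ha hb ⟨Or.inl ⟨rfl, rfl⟩, rfl⟩ hT h
  | u2 =>
    constructor
    · exact up_ptr XZ 6 0 h0 ha hb hT (red := red) (fun l hl => by
        obtain ⟨q, h3, h4⟩ := (h l hl).xz
        exact ⟨q, h3.1, h4⟩) (fun h g hg => Or.inl ⟨Or.inr (Or.inl rfl), rfl, g, hg, rfl⟩)
    · obtain ⟨p, h1, h2⟩ := up_ptr YZ 1 0 h0 ha hb hT (red := red) (fun l hl => by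
        obtain ⟨q, h3, h4⟩ := (h l hl).yz
        exact ⟨q, h3.1, h4⟩) (fun h g hg => Or.inl ⟨rfl, rfl, g, hg, rfl⟩)
      exact ⟨p, NotTop.ptrW h1, h2⟩
  | u1 =>
    refine ⟨?_, ?_, ?_⟩
    · exact up_ptr XY1 1 1 h0 ha hb hT (red := red) (fun l hl => by
        obtain ⟨q, h3, h4⟩ := (h l hl).xy
        exact ⟨q, h3.1, h4⟩) (fun h g hg => Or.inl ⟨rfl, rfl, g, hg, rfl⟩)
    · exact up_ptr XZ 1 0 h0 ha hb hT (red := red) (fun l hl => by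
        obtain ⟨q, h3, h4⟩ := (h l hl).xz
        exact ⟨q, h3.1, h4⟩) (fun h g hg => Or.inl ⟨Or.inl rfl, rfl, g, hg, rfl⟩)
    · obtain ⟨p, h1, h2⟩ := up_ptr YZ 1 0 h0 ha hb hT (red := red) (fun l hl => by
        obtain ⟨q, h3, h4⟩ := (h l hl).yz
        exact ⟨q, h3.1, h4⟩) (fun h g hg => Or.inl ⟨rfl, rfl, g, hg, rfl⟩)
      exact ⟨p, NotTop.ptrW h1, h2⟩

theorem stepA_a_u (ha : ¬ a.Nonrun) (hb : b.Nonrun) (hbs : b.stk = [(.root, .U)])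
    {T : Set (List ℕ)} (hT : Big (a.need + 1) T) (h : ∀ l ∈ T, SA red (a.step l) b) :
    ContU red .t a b := by
  exact AW.stepA (fun _ => ⟨1, 0, 0, false⟩) T ha hb ⟨Or.inl ⟨rfl, rfl⟩, rfl⟩ hT
    (fun l hl => (h l hl).t1 hb (up_bne hbs))

end Pool.Agent.H90.Ord
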