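import Pool.Agent.H90.Ord.STPred
import Pool.Agent.H90.Ord.STCls

/-!
# The start of `b` (module STUs)

`b` is the unpicked initial state (`hbs`), it is picked now; `a` is nonrunning, incomplete and started, so its top is
a marked unit (`pick_unit`).  A pointer of `b.pick n` is `1` (`PtrOK` and the stack has one entry).
`i`: `XYI` by the rule `ph = 1, v = false, NT b 1` (`b.stk = (root, U) :: []`), `YZI` by the rule with `AT a ha`,
`ha = a.stk.length`.  `n0`: `R1`.  `n2`: `XZ` from phase 6 (the rule needs `PIn a ha`), `YZ` by the rule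
`ph = 1, v = false, AT a ha`.  `n1`: `XY1` by the rule `ph = 1, v = false, NT b 1`, `XZ` from phase 1, `YZ` as before.
-/

set_option autoImplicit false

namespace Pool.Agent.H90.Ord

variable {red : List ℕ → List ℕ → Prop} {a b : St}

/-- the status after the start of `b` determines the status before it -/
def startOf : Sta → Stu
  | .i => .i
  | .n0 => .r
  | .n2 => .u2
  | .n1 => .u1

theorem pickB_u (ha : a.Nonrun) (hb : b.Nonrun) (h0 : a.stk ≠ []) (ia : Inv a)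
    (hr : a.real ≠ []) (hbs : b.stk = [(.root, .U)]) (n : ℕ) (σ : Sta)
    (h : ContS red σ a (b.pick n)) : ContU red (startOf σ) a b := by
  have hbn : b.stk ≠ [] := by
    rw [hbs]
    simp
  obtain ⟨t, ht⟩ := pick_unit ia ha h0 hr
  obtain ⟨hAT, hOK, _, _⟩ := at_top ht
  have hone : ∀ p, PtrW (b.pick n) p → p = 1 := by
    rintro p ⟨⟨e, he, _⟩, _⟩
    have h1 := he.pos
    have h2 : (b.pick n).stk.length = 1 := by
      show b.stk.length = 1
      rw [hbs]
      rfl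
    omega
  have hNT : NT b 1 := Or.inr ⟨[], hbs⟩
  cases σ with
  | i =>
    obtain ⟨h1, h2, h3⟩ := h
    rcases h3 with ⟨p, h4, h5⟩ | ⟨h4, _⟩
    · have hp := hone p h4
      subst hp
      exact ⟨AW.pickB n ha hb hbn hr (Or.inr (Or.inr (Or.inl ⟨rfl, rfl, hNT, rfl⟩))) h5,
        AW.pickB n ha hb hbn hr ⟨fun h => absurd h hbn, rfl⟩ h1,
        a.stk.length, ptrW_of_ok ha hOK,
        AW.pickB n ha hb hbn hr (Or.inr (Or.inl ⟨rfl, rfl, hAT, rfl⟩)) h2⟩
    · exact absurd ha h4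
  | n0 =>
    exact AW.pickB n ha hb hbn hr (Or.inr (Or.inl ⟨rfl, rfl, hbs, h0, rfl⟩)) h.r2
  | n1 =>
    obtain ⟨q, k1, k2⟩ := h.yz2 ha
    have hq := hone q k1
    subst hq
    refine ⟨?_, ?_, ?_⟩
    · rcases h.xy1 with ⟨p, p', h1, h2, h3⟩ | ⟨h1, _⟩
      · have hp := hone p' h2
        subst hp
        exact ⟨p, h1, AW.pickB n ha hb hbn hr (Or.inr (Or.inr (Or.inl ⟨rfl, rfl, hNT, rfl⟩))) h3⟩
      · exact absurd ha h1
    · rcases h.xz with ⟨p, p', h1, h2, h3⟩ | ⟨h1, _⟩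
      · have hp := hone p' h2
        subst hp
        exact ⟨p, h1, AW.pickB n ha hb hbn hr (Or.inr (Or.inl ⟨Or.inl rfl, rfl, NotTop.lt h1 ht, hbs, rfl⟩)) h3⟩
      · exact absurd ha h1
    · exact ⟨a.stk.length, ptrW_of_ok ha hOK,
        AW.pickB n ha hb hbn hr (Or.inr (Or.inl ⟨rfl, rfl, hAT, hbs, rfl⟩)) k2⟩
  | n2 =>
    obtain ⟨q, k1, k2⟩ := h.yz2 ha
    have hq := hone q k1
    subst hq
    refine ⟨?_, ?_⟩
    · rcases h.xz with ⟨p, p', h1, h1', h2, h3⟩ | ⟨h1, _⟩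
      · have hp := hone p' h2
        subst hp
        exact ⟨p, h1, AW.pickB n ha hb hbn hr
          (Or.inr (Or.inl ⟨Or.inr ⟨rfl, h1'⟩, rfl, NotTop.lt h1 ht, hbs, rfl⟩)) h3⟩
      · exact absurd ha h1
    · exact ⟨a.stk.length, ptrW_of_ok ha hOK,
        AW.pickB n ha hb hbn hr (Or.inr (Or.inl ⟨rfl, rfl, hAT, hbs, rfl⟩)) k2⟩

end Pool.Agent.H90.Ord
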