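import Pool.Agent.H90.Ord.STSA
import Pool.Agent.H90.Ord.STSB
import Pool.Agent.H90.Ord.STI
import Pool.Agent.H90.Ord.STN0
import Pool.Agent.H90.Ord.STN1
import Pool.Agent.H90.Ord.STN1s
import Pool.Agent.H90.Ord.STN2
import Pool.Agent.H90.Ord.STN2s
import Pool.Agent.H90.Ord.STN12
import Pool.Agent.H90.Ord.STUp
import Pool.Agent.H90.Ord.STUs

/-!
# The status theorem (module STMain)

`cont_of_win`: induction on `Win`; in a step `big_pigeon` over the statuses (and `complete`) of the next position,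
then the lemma for this status.  `pickA`: `N0` at `(a.pick n, b)` is impossible since `a.pick n` is running.
`contU_of_win` in the same way with `pickB_u`.  `status`: a pointer of `start` is `1`.
-/

set_option autoImplicit false

namespace Pool.Agent.H90.Ord

variable {red : List ℕ → List ℕ → Prop} {a b : St}

theorem stk_ne_of_run {s : St} (h : ¬ s.Nonrun) : s.stk ≠ [] := fun h0 => h (Or.inl h0)

theorem stkNil_dec (s : St) : s.stk = [] ∨ s.stk ≠ [] := Classical.em _

theorem cont_stepA {σ : Sta} (ia : Inv a) (ha : ¬ a.Nonrun) (hb : b.Nonrun) (h1 : b.stk ≠ [])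
    {T : Set (List ℕ)} (hT : Big (a.need + 1) T) (hne : ∀ l ∈ T, (a.step l).stk ≠ [])
    (h : ∀ l ∈ T, ContS red σ (a.step l) b) : ∃ σ, ContS red σ a b := by
  cases σ with
  | i => exact ⟨.i, stepA_i ha hb h1 hT h⟩
  | n0 =>
      by_cases ht : TopOut a
      · exact ⟨.n1, stepA_n0_out ha hb ia h1 ht hT hne h⟩
      · exact ⟨.n2, stepA_n0_in ha hb ia h1 ht hT hne h⟩
  | n1 => exact ⟨.n1, stepA_n1 ha hb h1 hT h⟩
  | n2 =>
      by_cases ht : TopOut a
      · exact ⟨.n1, stepA_n2_out ha hb ia h1 ht hT h⟩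
      · exact ⟨.n2, stepA_n2 ha hb h1 ht hT h⟩

theorem cont_stepB {σ : Sta} (ha : a.Nonrun) (hb : ¬ b.Nonrun) (h0 : a.stk ≠ [])
    {T : Set (List ℕ)} (hT : Big (b.need + 1) T)
    (h : ∀ l ∈ T, ContS red σ a (b.step l)) : ∃ σ, ContS red σ a b := by
  cases σ with
  | i => exact ⟨.i, stepB_i ha hb h0 hT h⟩
  | n0 => exact ⟨.n0, stepB_n0 ha hb h0 hT h⟩
  | n1 => exact ⟨.n1, stepB_n1 ha hb h0 hT h⟩
  | n2 => exact ⟨.n2, stepB_n2 ha hb h0 hT h⟩

theorem cont_of_win (h : Win red a b) (ia : Inv a) (ib : Inv b) (h0 : a.stk ≠ [])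
    (h1 : b.stk ≠ []) (hr : a.real ≠ []) (sb : Started b) : ∃ σ, ContS red σ a b := by
  induction h with
  | done ha hb h => exact absurd ha h0
  | @pickA a b n ha hb h0' hw ih =>
      obtain ⟨σ, hσ⟩ := ih (ia.pick n) ib h0 h1 hr sb
      cases σ with
      | i => exact ⟨.i, pickA_i ha hb h0 h1 ib sb n hσ⟩
      | n0 => exact absurd hσ.na (pick_run h0 n)
      | n1 => exact ⟨.n1, pickA_n1 ha hb h0 h1 ia ib hr sb n hσ⟩
      | n2 => exact ⟨.n2, pickA_n2 ha hb h0 h1 ia ib hr sb n hσ⟩
  | @pickB a b n ha hb h0' hr' hw ih =>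
      obtain ⟨σ, hσ⟩ := ih ia (ib.pick n) h0 h1 hr (pick_started b n)
      cases σ with
      | i => exact ⟨.i, pickB_i ha hb h0 h1 ib hr sb n hσ⟩
      | n0 => exact ⟨.n0, pickB_n0 ha hb h0 h1 ia hr n hσ⟩
      | n1 => exact ⟨.n1, pickB_n1 ha hb h0 h1 ia ib hr sb n hσ⟩
      | n2 => exact ⟨.n2, pickB_n2 ha hb h0 h1 ia ib hr sb n hσ⟩
  | @stepA a b T ha hb hT hw ih =>
      obtain ⟨o, _, ho⟩ := big_pigeon hT (Finset.univ : Finset (Option Sta))
        (fun o l => match o with
          | some σ => (a.step l).stk ≠ [] ∧ ContS red σ (a.step l) b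
          | none => SA red (a.step l) b) (by
          intro l hl
          by_cases hs : (a.step l).stk = []
          · exact ⟨none, Finset.mem_univ _, sa_of_win (hw l hl) hs⟩
          · obtain ⟨σ, hσ⟩ := ih l hl (ia.step l) ib hs h1 (step_real_ne h0 l) sb
            exact ⟨some σ, Finset.mem_univ _, hs, hσ⟩)
      cases o with
      | none => exact ⟨.i, stepA_a ha hb h1 ho (fun l hl => hl)⟩
      | some σ => exact cont_stepA ia ha hb h1 ho (fun l hl => hl.1) (fun l hl => hl.2)
  | @stepB a b T ha hb hT hw ih =>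
      obtain ⟨o, _, ho⟩ := big_pigeon hT (Finset.univ : Finset (Option Sta))
        (fun o l => match o with
          | some σ => ContS red σ a (b.step l)
          | none => SB red a (b.step l)) (by
          intro l hl
          by_cases hs : (b.step l).stk = []
          · exact ⟨none, Finset.mem_univ _, sb_of_win (hw l hl) hs⟩
          · obtain ⟨σ, hσ⟩ := ih l hl ia (ib.step l) h0 hs hr (step_started h1 l)
            exact ⟨some σ, Finset.mem_univ _, hσ⟩)
      cases o with
      | none => exact ⟨.n0, stepB_b ha hb h0 ho (fun l hl => hl)⟩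
      | some σ => exact cont_stepB ha hb h0 ho (fun l hl => hl)

theorem contU_of_win (h : Win red a b) (ia : Inv a) (ib : Inv b) (h0 : a.stk ≠ [])
    (hbs : b.stk = [(.root, .U)]) (sb : ¬ Started b) : ∃ σ, ContU red σ a b := by
  induction h with
  | done ha hb h => exact absurd ha h0
  | @pickA a b n ha hb h0' hw ih =>
      obtain ⟨σ, hσ⟩ := ih (ia.pick n) ib h0 hbs sb
      exact ⟨σ, pickA_u ha hb h0 hbs n σ hσ⟩
  | @pickB a b n ha hb h0' hr' hw ih =>
      obtain ⟨σ, hσ⟩ := cont_of_win hw ia (ib.pick n) h0 h0' hr' (pick_started b n)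
      exact ⟨_, pickB_u ha hb h0 ia hr' hbs n σ hσ⟩
  | @stepA a b T ha hb hT hw ih =>
      obtain ⟨o, _, ho⟩ := big_pigeon hT (Finset.univ : Finset (Option Stu))
        (fun o l => match o with
          | some σ => ContU red σ (a.step l) b
          | none => SA red (a.step l) b) (by
          intro l hl
          by_cases hs : (a.step l).stk = []
          · exact ⟨none, Finset.mem_univ _, sa_of_win (hw l hl) hs⟩
          · obtain ⟨σ, hσ⟩ := ih l hl (ia.step l) ib hs hbs sb
            exact ⟨some σ, Finset.mem_univ _, hσ⟩)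
      cases o with
      | none => exact ⟨.t, stepA_a_u ha hb hbs ho (fun l hl => hl)⟩
      | some σ => exact ⟨σ, stepA_u ha hb hbs ho σ (fun l hl => hl)⟩
  | @stepB a b T ha hb hT hw ih =>
      refine absurd (Or.inr ⟨?_, [], Or.inr hbs⟩) hb
      cases hp : b.pk with
      | false => rfl
      | true => exact absurd (Or.inr hp) sb

theorem ptr_start {h : ℕ} (H : PtrOK start h) : h = 1 := by
  obtain ⟨e, ⟨A, B, hAB, hh⟩, _⟩ := H
  have h1 : (start.stk).length = 1 := rfl
  rw [hAB, List.length_append, List.length_cons] at h1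
  omega

/-- the status theorem -/
theorem status (red : List ℕ → List ℕ → Prop) (h : Win red start start) :
    AW red T0 ⟨1, 0, 0, false⟩ start start ∨
    (AW red XYI ⟨1, 0, 1, false⟩ start start ∧ AW red XZI ⟨0, 0, 0, false⟩ start start ∧
      AW red YZI ⟨1, 1, 0, false⟩ start start) ∨
    AW red R1 ⟨1, 0, 0, false⟩ start start ∨
    (AW red XZ ⟨6, 1, 0, false⟩ start start ∧ AW red YZ ⟨1, 1, 0, false⟩ start start) ∨
    (AW red XY1 ⟨1, 1, 1, false⟩ start start ∧ AW red XZ ⟨1, 1, 0, false⟩ start start ∧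
      AW red YZ ⟨1, 1, 0, false⟩ start start) := by
  have hns : ¬ Started start := by
    rintro (h | h)
    · exact h rfl
    · exact Bool.noConfusion h
  obtain ⟨σ, hσ⟩ := contU_of_win h Inv.start Inv.start (by simp [start]) rfl hns
  cases σ with
  | t => exact Or.inl hσ
  | i =>
      obtain ⟨ha, hp, hy⟩ := hσ.yz
      have h1 := ptr_start hp.1
      subst h1
      exact Or.inr (Or.inl ⟨hσ.xy, hσ.xz, hy⟩)
  | r => exact Or.inr (Or.inr (Or.inl hσ))
  | u2 =>
      obtain ⟨ha, hp, hy⟩ := hσ.yz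
      have h1 := ptr_start hp.1
      subst h1
      obtain ⟨ha', hp', hx⟩ := hσ.xz
      have h2 := ptr_start hp'.1
      subst h2
      exact Or.inr (Or.inr (Or.inr (Or.inl ⟨hx, hy⟩)))
  | u1 =>
      obtain ⟨ha, hp, hy⟩ := hσ.yz
      have h1 := ptr_start hp.1
      subst h1
      obtain ⟨ha', hp', hx⟩ := hσ.xz
      have h2 := ptr_start hp'.1
      subst h2
      obtain ⟨ha'', hp'', hxy⟩ := hσ.xy
      have h3 := ptr_start hp''.1
      subst h3
      exact Or.inr (Or.inr (Or.inr (Or.inr ⟨hxy, hx, hy⟩)))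

end Pool.Agent.H90.Ord
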