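import Pool.Agent.H90.Ord.MA

/-!
# Marks of the children (module ALA)

All by cases on the mark.  In `DescSp L` the numbers of `L` descend with gaps at least `3` and the last one is at
least `3`.  `GM l m` says that `m` may be found on a pointed entry of level `l`.
-/

set_option autoImplicit false

namespace Pool.Agent.H90.Ord

theorem DescSp.ge {L : List ℕ} (h : DescSp L) {g : ℕ} (hg : g ∈ L) : 3 ≤ g := by
  have h1 := Fresh.ge h (List.mem_reverse.2 hg)
  omega

theorem DescSp.tail {g : ℕ} {L : List ℕ} (h : DescSp (g :: L)) : DescSp L := by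
  unfold DescSp at h ⊢
  rw [List.reverse_cons] at h
  exact h.sublist (List.sublist_append_left _ _)

theorem DescSp.second {g g' : ℕ} {L : List ℕ} (h : DescSp (g :: g' :: L)) : g' + 3 ≤ g := by
  have h1 := Fresh.sorted h
  rw [List.reverse_cons, List.pairwise_append] at h1
  exact h1.2.2 g' (List.mem_reverse.2 List.mem_cons_self) g (List.mem_singleton.2 rfl)

theorem DescSp.of_fresh {m : ℕ} {H : List ℕ} (h : Fresh m H) : DescSp H.reverse := by
  unfold DescSp
  rw [List.reverse_reverse]
  exact h.mono (Nat.zero_le m)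

theorem GM.ne_none {l : Lev} {m : Mark} (h : GM l m) : m ≠ .none := by
  rintro rfl
  cases l <;> exact h

theorem GM_inn_zero {m : Mark} (h : GM (.inn 0) m) : m = .U := by
  rcases m with _ | _ | ⟨_ | _, L⟩ | ⟨_ | _, L⟩
  · exact h.elim
  · rfl
  · obtain ⟨h1, g, L', rfl, h2⟩ := h
    have := h1.ge (g := g) List.mem_cons_self
    omega
  · exact h.elim
  · obtain ⟨h1, g, L', rfl, h2⟩ := h
    have := h1.ge (g := g) List.mem_cons_self
    omega
  · exact h.elim

theorem GM_out_zero {m : Mark} (h : GM (.out 0) m) : m = .U ∨ ∃ g, m = .B true [g] := by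
  rcases m with _ | _ | ⟨_ | _, L⟩ | ⟨_ | _, L⟩
  · exact h.elim
  · exact Or.inl rfl
  · exact h.elim
  · obtain ⟨h1, g, L', rfl, h2⟩ := h
    have := h1.ge (g := g) List.mem_cons_self
    omega
  · exact h.elim
  · obtain ⟨h1, g, L', rfl, h2, h3⟩ := h
    have h4 := h1.ge (g := g) List.mem_cons_self
    by_cases h5 : L' = []
    · subst h5
      exact Or.inr ⟨g, rfl⟩
    · have := h3 h5
      omega

/-- the marks of the children at a level `inn (k + 1)` -/
private theorem ala_chi {k r : ℕ} {m c : Mark} (h : GM (.inn (k + 1)) m) (hc : c ∈ chM (.inn (k + 1)) m r) :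
    GM (.inn k) c ∧ ∀ γ, HiM γ m → HiM γ c := by
  rcases m with _ | _ | ⟨_ | _, L⟩ | ⟨_ | _, L⟩
  · exact h.elim
  · rw [show chM (.inn (k + 1)) .U r = [.U] from rfl, List.mem_singleton] at hc
    subst hc
    exact ⟨trivial, fun _ _ => Or.inl rfl⟩
  · obtain ⟨h1, g, L', rfl, h2⟩ := h
    have e : chM (.inn (k + 1)) (.E false (g :: L')) r =
      if (g :: L').head? = some (k + 1) then [.U, .B false (g :: L')] else [.E false (g :: L')] := rfl
    rw [e] at hc
    by_cases h3 : (g :: L').head? = some (k + 1)
    · rw [if_pos h3] at hc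
      rw [List.head?_cons, Option.some.injEq] at h3
      rcases List.mem_cons.1 hc with rfl | hc
      · exact ⟨trivial, fun _ _ => Or.inl rfl⟩
      · rw [List.mem_singleton] at hc
        subst hc
        refine ⟨⟨h1, g, L', rfl, h3.symm⟩, fun γ hh => ?_⟩
        rcases hh with hh | ⟨o, M, hh, hM⟩
        · cases hh
        · rcases hh with hh | hh
          · cases hh
            exact Or.inr ⟨false, _, Or.inr rfl, hM⟩
          · cases hh
    · rw [if_neg h3, List.mem_singleton] at hc
      subst hc
      rw [List.head?_cons, Option.some.injEq] at h3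
      exact ⟨⟨h1, g, L', rfl, by omega⟩, fun _ hh => hh⟩
  · exact h.elim
  · obtain ⟨h1, g, L', rfl, h2⟩ := h
    have e : chM (.inn (k + 1)) (.B false (g :: L')) r = List.replicate r (mkE false L') := rfl
    rw [e] at hc
    have hc' := (List.mem_replicate.1 hc).2
    rcases L' with _ | ⟨g', L''⟩
    · have e2 : mkE false [] = .U := rfl
      rw [e2] at hc'
      subst hc'
      exact ⟨trivial, fun _ _ => Or.inl rfl⟩
    · have e2 : mkE false (g' :: L'') = .E false (g' :: L'') := rfl
      rw [e2] at hc'
      subst hc'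
      have h3 := h1.second
      refine ⟨⟨h1.tail, g', L'', rfl, by omega⟩, fun γ hh => ?_⟩
      rcases hh with hh | ⟨o, M, hh, hM⟩
      · cases hh
      · rcases hh with hh | hh
        · cases hh
        · cases hh
          exact Or.inr ⟨false, _, Or.inl rfl, fun x hx => hM x (List.mem_cons_of_mem _ hx)⟩
  · exact h.elim

private theorem ala_cho {k r : ℕ} {m c : Mark} (h : GM (.out (k + 1)) m) (hc : c ∈ chM (.out (k + 1)) m r) :
    GM (.out k) c ∧ ∀ γ, HiM γ m → HiM γ c := by
  rcases m with _ | _ | ⟨_ | _, L⟩ | ⟨_ | _, L⟩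
  · exact h.elim
  · rw [show chM (.out (k + 1)) .U r = [.U] from rfl, List.mem_singleton] at hc
    subst hc
    exact ⟨trivial, fun _ _ => Or.inl rfl⟩
  · exact h.elim
  · obtain ⟨h1, g, L', rfl, h2⟩ := h
    have e : chM (.out (k + 1)) (.E true (g :: L')) r =
      if (g :: L').head? = some (k + 1) then [.U, .B true (g :: L')] else [.E true (g :: L')] := rfl
    rw [e] at hc
    by_cases h3 : (g :: L').head? = some (k + 1)
    · rw [if_pos h3] at hc
      rw [List.head?_cons, Option.some.injEq] at h3
      rcases List.mem_cons.1 hc with rfl | hc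
      · exact ⟨trivial, fun _ _ => Or.inl rfl⟩
      · rw [List.mem_singleton] at hc
        subst hc
        refine ⟨⟨h1, g, L', rfl, h3.symm.le, fun _ => h3.symm⟩, fun γ hh => ?_⟩
        rcases hh with hh | ⟨o, M, hh, hM⟩
        · cases hh
        · rcases hh with hh | hh
          · cases hh
            exact Or.inr ⟨true, _, Or.inr rfl, hM⟩
          · cases hh
    · rw [if_neg h3, List.mem_singleton] at hc
      subst hc
      rw [List.head?_cons, Option.some.injEq] at h3
      exact ⟨⟨h1, g, L', rfl, by omega⟩, fun _ hh => hh⟩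
  · exact h.elim
  · obtain ⟨h1, g, L', rfl, h2, h4⟩ := h
    have e : chM (.out (k + 1)) (.B true (g :: L')) r =
      if 2 ≤ (g :: L').length then List.replicate r (mkE true L') else [.B true (g :: L')] := rfl
    rw [e] at hc
    rcases L' with _ | ⟨g', L''⟩
    · rw [if_neg (by simp), List.mem_singleton] at hc
      subst hc
      exact ⟨⟨h1, g, [], rfl, by omega, fun h => absurd rfl h⟩, fun _ hh => hh⟩
    · rw [if_pos (by simp)] at hc
      have hc' := (List.mem_replicate.1 hc).2
      have e2 : mkE true (g' :: L'') = .E true (g' :: L'') := rfl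
      rw [e2] at hc'
      subst hc'
      have h3 := h1.second
      have h5 := h4 (by simp)
      refine ⟨⟨h1.tail, g', L'', rfl, by omega⟩, fun γ hh => ?_⟩
      rcases hh with hh | ⟨o, M, hh, hM⟩
      · cases hh
      · rcases hh with hh | hh
        · cases hh
        · cases hh
          exact Or.inr ⟨true, _, Or.inl rfl, fun x hx => hM x (List.mem_cons_of_mem _ hx)⟩

private theorem ala_getD {L : List Mark} {i : ℕ} (hi : i < L.length) : L.getD i .none ∈ L := by
  rw [List.getD_eq_getElem _ _ hi]
  exact List.getElem_mem hi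

theorem GM_child_inn {k r i : ℕ} {m : Mark} (h : GM (.inn (k + 1)) m)
    (hi : i < (chM (.inn (k + 1)) m r).length) :
    GM (.inn k) ((chM (.inn (k + 1)) m r).getD i .none) :=
  (ala_chi h (ala_getD hi)).1

theorem GM_child_out {k r i : ℕ} {m : Mark} (h : GM (.out (k + 1)) m)
    (hi : i < (chM (.out (k + 1)) m r).length) :
    GM (.out k) ((chM (.out (k + 1)) m r).getD i .none) :=
  (ala_cho h (ala_getD hi)).1

/-- a low mark passes to a single child at inner levels `≥ γ` -/
theorem chM_lo_inn {γ k r : ℕ} {m : Mark} (h : GM (.inn (k + 1)) m) (hlo : LoM γ m)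
    (hk : γ ≤ k + 1) : chM (.inn (k + 1)) m r = [m] := by
  rcases hlo with rfl | ⟨o, L, rfl, hL⟩
  · rfl
  · cases o
    · obtain ⟨h1, g, L', rfl, h2⟩ := h
      have e : chM (.inn (k + 1)) (.E false (g :: L')) r =
        if (g :: L').head? = some (k + 1) then [.U, .B false (g :: L')] else [.E false (g :: L')] := rfl
      have h3 := hL g List.mem_cons_self
      rw [e, if_neg]
      rw [List.head?_cons, Option.some.injEq]
      omega
    · exact h.elim

theorem chM_lo_out {κ k r : ℕ} {m : Mark} (h : GM (.out (k + 1)) m) (hlo : LoM κ m)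
    (hk : κ ≤ k + 1) : chM (.out (k + 1)) m r = [m] := by
  rcases hlo with rfl | ⟨o, L, rfl, hL⟩
  · rfl
  · cases o
    · exact h.elim
    · obtain ⟨h1, g, L', rfl, h2⟩ := h
      have e : chM (.out (k + 1)) (.E true (g :: L')) r =
        if (g :: L').head? = some (k + 1) then [.U, .B true (g :: L')] else [.E true (g :: L')] := rfl
      have h3 := hL g List.mem_cons_self
      rw [e, if_neg]
      rw [List.head?_cons, Option.some.injEq]
      omega

theorem chM_U_inn {k r : ℕ} : chM (.inn (k + 1)) .U r = [.U] := rfl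

theorem chM_pass_out {k r : ℕ} {m : Mark} (h : PassO m) : chM (.out (k + 1)) m r = [m] := by
  rcases h with rfl | ⟨g, rfl⟩
  · rfl
  · have e : chM (.out (k + 1)) (.B true [g]) r =
      if 2 ≤ [g].length then List.replicate r (mkE true [g].tail) else [.B true [g]] := rfl
    rw [e, if_neg (by simp)]

/-- at the last inner level above `γ` the high mark is `U` -/
theorem hi_edge_inn {k : ℕ} {m : Mark} (h : GM (.inn (k + 1)) m) (hhi : HiM (k + 1) m) :
    m = .U := by
  rcases hhi with rfl | ⟨o, L, rfl | rfl, hL⟩
  · rfl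
  · cases o
    · obtain ⟨h1, g, L', rfl, h2⟩ := h
      have := hL g List.mem_cons_self
      omega
    · exact h.elim
  · cases o
    · obtain ⟨h1, g, L', rfl, h2⟩ := h
      have := hL g List.mem_cons_self
      omega
    · exact h.elim

/-- at the last outer level above `κ` the high mark is not split any more at outer levels -/
theorem hi_edge_out {k : ℕ} {m : Mark} (h : GM (.out (k + 1)) m) (hhi : HiM (k + 1) m) :
    PassO m := by
  rcases hhi with rfl | ⟨o, L, rfl | rfl, hL⟩
  · exact Or.inl rfl
  · cases o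
    · exact h.elim
    · obtain ⟨h1, g, L', rfl, h2⟩ := h
      have := hL g List.mem_cons_self
      omega
  · cases o
    · exact h.elim
    · obtain ⟨h1, g, L', rfl, h2, h3⟩ := h
      have h4 := hL g List.mem_cons_self
      by_cases h5 : L' = []
      · subst h5
        exact Or.inr ⟨g, rfl⟩
      · have := h3 h5
        omega

theorem HiM_child_inn {γ k r i : ℕ} {m : Mark} (h : GM (.inn (k + 1)) m) (hhi : HiM γ m)
    (hi : i < (chM (.inn (k + 1)) m r).length) :
    HiM γ ((chM (.inn (k + 1)) m r).getD i .none) :=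
  (ala_chi h (ala_getD hi)).2 γ hhi

theorem HiM_child_out {κ k r i : ℕ} {m : Mark} (h : GM (.out (k + 1)) m) (hhi : HiM κ m)
    (hi : i < (chM (.out (k + 1)) m r).length) :
    HiM κ ((chM (.out (k + 1)) m r).getD i .none) :=
  (ala_cho h (ala_getD hi)).2 κ hhi

end Pool.Agent.H90.Ord
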