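import Pool.Agent.H90.Ord.MA

/-!
# The children on two boards (module ALB)

`multi_kids`: the level `l` has many children of level `l'`; on board `1` the marks `M1 = chM l m1 r1` are put at
the places `H1` (the hidden numbers), on board `2` the marks `M2` at the places `H2`; one of the two lists of
marks has length `1`.  By `big_merge` the hidden numbers can be chosen so that `H1[i1] = H2[i2] = c` is a common
number and all the others are different: if `M2` has length `1` (so `i2 = 0`) take the script `i1` times
`(true, false)`, once `(true, true)`, then `|M1| - i1 - 1` times `(true, false)`; if `M1` has length `1`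
symmetrically.  The list of the children is cut at the place `c`: `A'` are the children `0, ..., c-1`, then the
child `c` which carries both marks, `B'` are the children `c+1, ..., N-1`.  If `M1` has length `1` then only the
child `c` has a mark on board `1` (`markAt_get`, `markAt_not_mem` of module MA).
-/

set_option autoImplicit false

namespace Pool.Agent.H90.Ord

theorem p1_append (D D' : List DE) : p1 (D ++ D') = p1 D ++ p1 D' := by
  simp [p1]

theorem p2_append (D D' : List DE) : p2 (D ++ D') = p2 D ++ p2 D' := by
  simp [p2]

theorem p1_length (D : List DE) : (p1 D).length = D.length := by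
  simp [p1]

theorem p2_length (D : List DE) : (p2 D).length = D.length := by
  simp [p2]

/-- two lists of entries with the same levels are the projections of a double list -/
theorem exists_double {K1 K2 : List (Lev × Mark)} (h : K1.map Prod.fst = K2.map Prod.fst) :
    ∃ K : List DE, K1 = p1 K ∧ K2 = p2 K := by
  induction K1 generalizing K2 with
  | nil =>
    have h1 : K2 = [] := by
      rw [List.map_nil] at h
      exact List.map_eq_nil_iff.1 h.symm
    exact ⟨[], rfl, h1⟩
  | cons a K1 ih =>
    cases K2 with
    | nil => simp at h
    | cons b K2 =>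
      rw [List.map_cons, List.map_cons, List.cons.injEq] at h
      obtain ⟨K, h1, h2⟩ := ih h.2
      refine ⟨(a.1, a.2, b.2) :: K, ?_, ?_⟩
      · show a :: K1 = (a.1, a.2) :: p1 K
        rw [← h1]
      · show b :: K2 = (a.1, b.2) :: p2 K
        rw [← h2, h.1]

private theorem sel1_all (b : ℕ) (e : List ℕ) (h : e.length = b) : sel1 (List.replicate b (true, false)) e = e := by
  induction b generalizing e with
  | zero =>
    rw [List.length_eq_zero_iff] at h
    rw [h]
    rfl
  | succ b ih =>
    cases e with
    | nil => simp at h
    | cons c e =>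
      rw [List.replicate_succ]
      show c :: sel1 (List.replicate b (true, false)) e = c :: e
      rw [ih e (by simpa using h)]

private theorem sel2_all (b : ℕ) (e : List ℕ) (h : e.length = b) : sel2 (List.replicate b (false, true)) e = e := by
  induction b generalizing e with
  | zero =>
    rw [List.length_eq_zero_iff] at h
    rw [h]
    rfl
  | succ b ih =>
    cases e with
    | nil => simp at h
    | cons c e =>
      rw [List.replicate_succ]
      show c :: sel2 (List.replicate b (false, true)) e = c :: e
      rw [ih e (by simpa using h)]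

private theorem sel2_no (b : ℕ) (e : List ℕ) (h : e.length = b) : sel2 (List.replicate b (true, false)) e = [] := by
  induction b generalizing e with
  | zero =>
    rw [List.length_eq_zero_iff] at h
    rw [h]
    rfl
  | succ b ih =>
    cases e with
    | nil => simp at h
    | cons c e =>
      rw [List.replicate_succ]
      show sel2 (List.replicate b (true, false)) e = []
      exact ih e (by simpa using h)

private theorem sel1_no (b : ℕ) (e : List ℕ) (h : e.length = b) : sel1 (List.replicate b (false, true)) e = [] := by
  induction b generalizing e with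
  | zero =>
    rw [List.length_eq_zero_iff] at h
    rw [h]
    rfl
  | succ b ih =>
    cases e with
    | nil => simp at h
    | cons c e =>
      rw [List.replicate_succ]
      show sel1 (List.replicate b (false, true)) e = []
      exact ih e (by simpa using h)

private theorem sel_tf (a b : ℕ) (e : List ℕ) (h : e.length = a + (b + 1)) :
    sel1 (List.replicate a (true, false) ++ (true, true) :: List.replicate b (true, false)) e = e ∧
      sel2 (List.replicate a (true, false) ++ (true, true) :: List.replicate b (true, false)) e = [e.getD a 0] := by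
  induction a generalizing e with
  | zero =>
    cases e with
    | nil => simp at h
    | cons c e =>
      have h1 : e.length = b := by
        rw [List.length_cons] at h
        omega
      constructor
      · show c :: sel1 (List.replicate b (true, false)) e = c :: e
        rw [sel1_all b e h1]
      · show c :: sel2 (List.replicate b (true, false)) e = [(c :: e).getD 0 0]
        rw [sel2_no b e h1]
        simp
  | succ a ih =>
    cases e with
    | nil =>
      rw [List.length_nil] at h
      omega
    | cons c e =>
      have h1 : e.length = a + (b + 1) := by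
        rw [List.length_cons] at h
        omega
      obtain ⟨h2, h3⟩ := ih e h1
      rw [List.replicate_succ, List.cons_append]
      constructor
      · show c :: sel1 (List.replicate a (true, false) ++ (true, true) :: List.replicate b (true, false)) e = c :: e
        rw [h2]
      · show sel2 (List.replicate a (true, false) ++ (true, true) :: List.replicate b (true, false)) e = [(c :: e).getD (a + 1) 0]
        rw [h3]
        simp

private theorem sel_ft (a b : ℕ) (e : List ℕ) (h : e.length = a + (b + 1)) :
    sel2 (List.replicate a (false, true) ++ (true, true) :: List.replicate b (false, true)) e = e ∧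
      sel1 (List.replicate a (false, true) ++ (true, true) :: List.replicate b (false, true)) e = [e.getD a 0] := by
  induction a generalizing e with
  | zero =>
    cases e with
    | nil => simp at h
    | cons c e =>
      have h1 : e.length = b := by
        rw [List.length_cons] at h
        omega
      constructor
      · show c :: sel2 (List.replicate b (false, true)) e = c :: e
        rw [sel2_all b e h1]
      · show c :: sel1 (List.replicate b (false, true)) e = [(c :: e).getD 0 0]
        rw [sel1_no b e h1]
        simp
  | succ a ih =>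
    cases e with
    | nil =>
      rw [List.length_nil] at h
      omega
    | cons c e =>
      have h1 : e.length = a + (b + 1) := by
        rw [List.length_cons] at h
        omega
      obtain ⟨h2, h3⟩ := ih e h1
      rw [List.replicate_succ, List.cons_append]
      constructor
      · show c :: sel2 (List.replicate a (false, true) ++ (true, true) :: List.replicate b (false, true)) e = c :: e
        rw [h2]
      · show sel1 (List.replicate a (false, true) ++ (true, true) :: List.replicate b (false, true)) e = [(c :: e).getD (a + 1) 0]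
        rw [h3]
        simp

private theorem mrg {n1 n2 i1 i2 : ℕ} (h1 : i1 < n1) (h2 : i2 < n2) (hs : n1 = 1 ∨ n2 = 1) {T1 T2 : Set (List ℕ)}
    (hT1 : Big (n1 + 1) T1) (hT2 : Big (n2 + 1) T2) : ∃ (H1 H2 : List ℕ) (N : ℕ), H1 ++ [N] ∈ T1 ∧ H2 ++ [N] ∈ T2 ∧
      Fresh 0 (H1 ++ [N]) ∧ Fresh 0 (H2 ++ [N]) ∧ H1.length = n1 ∧ H2.length = n2 ∧ H1.getD i1 0 = H2.getD i2 0 := by
  rcases hs with hs | hs
  · have hi : i1 = 0 := by omega
    subst hs hi
    obtain ⟨b, rfl⟩ : ∃ b, n2 = i2 + (b + 1) := ⟨n2 - i2 - 1, by omega⟩
    obtain ⟨e, N, he, -, ht1, ht2⟩ := big_merge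
      (List.replicate i2 (false, true) ++ (true, true) :: List.replicate b (false, true)) 0
      (T1 := T1 ∩ {l | l.length = 1 + 1 ∧ Fresh 0 l}) (T2 := T2 ∩ {l | l.length = i2 + (b + 1) + 1 ∧ Fresh 0 l})
      (by
        have e1 : ((List.replicate i2 (false, true) ++ (true, true) :: List.replicate b (false, true)).filter
            fun p : Bool × Bool => p.1).length = 1 := by simp
        rw [e1]
        exact big_inter hT1 (big_fresh _ 0))
      (by
        have e1 : ((List.replicate i2 (false, true) ++ (true, true) :: List.replicate b (false, true)).filter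
            fun p : Bool × Bool => p.2).length = i2 + (b + 1) := by simp
        rw [e1]
        exact big_inter hT2 (big_fresh _ 0))
    have he' : e.length = i2 + (b + 1) := by
      rw [he]
      simp
    obtain ⟨h3, h4⟩ := sel_ft i2 b e he'
    rw [h4] at ht1
    rw [h3] at ht2
    exact ⟨_, _, N, ht1.1, ht2.1, ht1.2.2, ht2.2.2, rfl, he', by simp⟩
  · have hi : i2 = 0 := by omega
    subst hs hi
    obtain ⟨b, rfl⟩ : ∃ b, n1 = i1 + (b + 1) := ⟨n1 - i1 - 1, by omega⟩
    obtain ⟨e, N, he, -, ht1, ht2⟩ := big_merge
      (List.replicate i1 (true, false) ++ (true, true) :: List.replicate b (true, false)) 0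
      (T1 := T1 ∩ {l | l.length = i1 + (b + 1) + 1 ∧ Fresh 0 l}) (T2 := T2 ∩ {l | l.length = 1 + 1 ∧ Fresh 0 l})
      (by
        have e1 : ((List.replicate i1 (true, false) ++ (true, true) :: List.replicate b (true, false)).filter
            fun p : Bool × Bool => p.1).length = i1 + (b + 1) := by simp
        rw [e1]
        exact big_inter hT1 (big_fresh _ 0))
      (by
        have e1 : ((List.replicate i1 (true, false) ++ (true, true) :: List.replicate b (true, false)).filter
            fun p : Bool × Bool => p.2).length = 1 := by simp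
        rw [e1]
        exact big_inter hT2 (big_fresh _ 0))
    have he' : e.length = i1 + (b + 1) := by
      rw [he]
      simp
    obtain ⟨h3, h4⟩ := sel_tf i1 b e he'
    rw [h3] at ht1
    rw [h4] at ht2
    exact ⟨_, _, N, ht1.1, ht2.1, ht1.2.2, ht2.2.2, he', rfl, by simp⟩

private theorem markAt_one {H : List ℕ} {M : List Mark} (h : H.length = 1) {c i : ℕ} (hc : H.getD 0 0 = c) (hi : i ≠ c) :
    markAt H M i = .none := by
  apply markAt_not_mem
  obtain ⟨a, rfl⟩ := List.length_eq_one_iff.1 h
  rw [List.mem_singleton]
  intro h1
  apply hi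
  rw [← hc, h1]
  simp

private theorem cut {l' : Lev} {M1 M2 : List Mark} {H1 H2 : List ℕ} {N i1 i2 c : ℕ} (e1 : H1.length = M1.length)
    (e2 : H2.length = M2.length) (s1 : H1.Pairwise (· < ·)) (s2 : H2.Pairwise (· < ·)) (h1 : i1 < M1.length)
    (h2 : i2 < M2.length) (c1 : H1.getD i1 0 = c) (c2 : H2.getD i2 0 = c) (hN : c < N) :
    ∃ A' B' : List DE,
      ((List.range N).map fun i => (l', markAt H1 M1 i)) = p1 (A' ++ (l', M1.getD i1 .none, M2.getD i2 .none) :: B') ∧
      ((List.range N).map fun i => (l', markAt H2 M2 i)) = p2 (A' ++ (l', M1.getD i1 .none, M2.getD i2 .none) :: B') ∧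
      (∀ e ∈ A' ++ B', e.1 = l' ∧ (M1.length = 1 → e.2.1 = .none) ∧ (M2.length = 1 → e.2.2 = .none)) ∧
      B'.length + 1 = N - c := by
  obtain ⟨b, rfl⟩ : ∃ b, N = c + (b + 1) := ⟨N - c - 1, by omega⟩
  have hr : List.range (c + (b + 1)) = List.range c ++ c :: (List.range b).map (fun i => c + (i + 1)) := by
    rw [List.range_add, List.range_succ_eq_map, List.map_cons, List.map_map]
    rfl
  have m1 : markAt H1 M1 c = M1.getD i1 .none := by
    rw [← c1]
    exact markAt_get s1 e1 (by omega)
  have m2 : markAt H2 M2 c = M2.getD i2 .none := by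
    rw [← c2]
    exact markAt_get s2 e2 (by omega)
  refine ⟨(List.range c).map (fun i => (l', markAt H1 M1 i, markAt H2 M2 i)),
    (List.range b).map (fun i => (l', markAt H1 M1 (c + (i + 1)), markAt H2 M2 (c + (i + 1)))), ?_, ?_, ?_, ?_⟩
  · rw [hr]
    unfold p1
    simp only [List.map_append, List.map_cons, List.map_map, m1]
    rfl
  · rw [hr]
    unfold p2
    simp only [List.map_append, List.map_cons, List.map_map, m2]
    rfl
  · have key : ∀ i, i ≠ c → (M1.length = 1 → markAt H1 M1 i = .none) ∧ (M2.length = 1 → markAt H2 M2 i = .none) := by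
      intro i hi
      constructor
      · intro h3
        have h4 : i1 = 0 := by omega
        rw [h4] at c1
        exact markAt_one (e1.trans h3) c1 hi
      · intro h3
        have h4 : i2 = 0 := by omega
        rw [h4] at c2
        exact markAt_one (e2.trans h3) c2 hi
    intro e he
    rw [List.mem_append, List.mem_map, List.mem_map] at he
    rcases he with ⟨i, hi, rfl⟩ | ⟨i, hi, rfl⟩
    · rw [List.mem_range] at hi
      exact ⟨rfl, key i (by omega)⟩
    · exact ⟨rfl, key (c + (i + 1)) (by omega)⟩
  · rw [List.length_map, List.length_range]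
    omega

theorem multi_kids {l l' : Lev}
    (hl : (∃ k, l = .inn (k + 1) ∧ l' = .inn k) ∨ (∃ k, l = .out (k + 1) ∧ l' = .out k))
    {m1 m2 : Mark} {r1 r2 i1 i2 : ℕ} (h1 : i1 < (chM l m1 r1).length)
    (h2 : i2 < (chM l m2 r2).length)
    (hs : (chM l m1 r1).length = 1 ∨ (chM l m2 r2).length = 1) {T1 T2 : Set (List ℕ)}
    (hT1 : Big (need l m1 r1 + 1) T1) (hT2 : Big (need l m2 r2 + 1) T2) :
    ∃ l1 ∈ T1, ∃ l2 ∈ T2, Fresh 0 l1 ∧ Fresh 0 l2 ∧ l1.length = need l m1 r1 + 1 ∧
      l2.length = need l m2 r2 + 1 ∧ l1.getLastD 0 = l2.getLastD 0 ∧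
      ∃ A' B' : List DE,
        kids l m1 r1 l1.dropLast (l1.getLastD 0) =
          p1 (A' ++ (l', (chM l m1 r1).getD i1 .none, (chM l m2 r2).getD i2 .none) :: B') ∧
        kids l m2 r2 l2.dropLast (l2.getLastD 0) =
          p2 (A' ++ (l', (chM l m1 r1).getD i1 .none, (chM l m2 r2).getD i2 .none) :: B') ∧
        (∀ e ∈ A' ++ B', e.1 = l' ∧ ((chM l m1 r1).length = 1 → e.2.1 = .none) ∧
          ((chM l m2 r2).length = 1 → e.2.2 = .none)) ∧
        B'.length + 1 = l1.getLastD 0 - l1.getD i1 0 ∧
        B'.length + 1 = l2.getLastD 0 - l2.getD i2 0 := by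
  have hneed : ∀ m r, need l m r = (chM l m r).length := by
    intro m r
    rcases hl with ⟨k, rfl, _⟩ | ⟨k, rfl, _⟩ <;> rfl
  have hkids : ∀ m r H N, kids l m r H N = (List.range N).map fun i => (l', markAt H (chM l m r) i) := by
    intro m r H N
    rcases hl with ⟨k, rfl, rfl⟩ | ⟨k, rfl, rfl⟩ <;> rfl
  rw [hneed] at hT1 hT2
  obtain ⟨H1, H2, N, a1, a2, f1, f2, b1, b2, hc⟩ := mrg h1 h2 hs hT1 hT2
  have g1 := f1.sorted
  have g2 := f2.sorted
  rw [List.pairwise_append] at g1 g2
  have hlast : ∀ H : List ℕ, (H ++ [N]).getLastD 0 = N := by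
    intro H
    simp
  have hdrop : ∀ H : List ℕ, (H ++ [N]).dropLast = H := by
    intro H
    simp
  have hget : ∀ (H : List ℕ) (i : ℕ), i < H.length → (H ++ [N]).getD i 0 = H.getD i 0 := by
    intro H i hi
    rw [List.getD_eq_getElem _ _ (by rw [List.length_append]; omega), List.getD_eq_getElem _ _ hi,
      List.getElem_append_left hi]
  have hN : H1.getD i1 0 < N := by
    have h3 : i1 < H1.length := by omega
    have h4 : H1.getD i1 0 ∈ H1 := by
      rw [List.getD_eq_getElem _ _ h3]
      exact List.getElem_mem h3
    have h5 := g1.2.2 _ h4 N (by simp)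
    omega
  obtain ⟨A', B', k1, k2, k3, k4⟩ := cut (l' := l') b1 b2 (g1.1.imp fun h => by omega) (g2.1.imp fun h => by omega) h1 h2
    rfl hc.symm hN
  refine ⟨H1 ++ [N], a1, H2 ++ [N], a2, f1, f2, ?_, ?_, ?_, A', B', ?_, ?_, k3, ?_, ?_⟩
  · rw [hneed, List.length_append, b1]
    rfl
  · rw [hneed, List.length_append, b2]
    rfl
  · rw [hlast, hlast]
  · rw [hlast, hdrop, hkids]
    exact k1
  · rw [hlast, hdrop, hkids]
    exact k2
  · rw [hlast, hget H1 i1 (by omega)]
    exact k4
  · rw [hlast, hget H2 i2 (by omega), ← hc]
    exact k4

end Pool.Agent.H90.Ord
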