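import Pool.Agent.H90.Ord.ALa
import Pool.Agent.H90.Ord.ALb

/-!
# Alignment: splitting the pointed entry (module ALC)

`al_multi_core`: conditions `PC`, `AC`, `BC` for the children.  Cases:
outer `out (k+1)`, `κ ≤ k+1`: the list of board `2` is `[m2]` (`chM_lo_out`); the new `HiM`, `LoM` are inherited;
if `k < κ` then `κ = k+1`, `hi_edge_out` gives `PassO m1`, so the list of board `1` is `[m1]` too.
outer, `k+1 < κ`: the list of board `1` is `[m1]` by `chM_pass_out`.
inner `inn (k+1)`, `γ ≤ k+1`: the low list is single; if `k < γ` then `γ = k+1` and the high mark is `U`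
(`hi_edge_inn`).  inner, `k+1 < γ`: the high mark is `U`, its list is `[U]`.
`x`, `y` stand for the marks of the other children: `none` on a board whose list is single.
-/

set_option autoImplicit false

namespace Pool.Agent.H90.Ord

private theorem alc_one {L : List Mark} {m : Mark} {i : ℕ} (h : L = [m]) (hi : i < L.length) :
    L.length = 1 ∧ L.getD i .none = m := by
  subst h
  have h0 : i = 0 := by simpa using hi
  subst h0
  exact ⟨rfl, rfl⟩

private theorem alc_out {ε : Bool} {κ γ k : ℕ} {m1 m2 : Mark} {r1 r2 i1 i2 : ℕ}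
    (hp : PC ε κ γ (.out (k + 1), m1, m2))
    (h1 : i1 < (chM (.out (k + 1)) m1 r1).length) (h2 : i2 < (chM (.out (k + 1)) m2 r2).length) :
    ((chM (.out (k + 1)) m1 r1).length = 1 ∨ (chM (.out (k + 1)) m2 r2).length = 1) ∧
    PC ε κ γ (.out k, (chM (.out (k + 1)) m1 r1).getD i1 .none, (chM (.out (k + 1)) m2 r2).getD i2 .none) ∧
    ∀ x y : Mark, ((chM (.out (k + 1)) m1 r1).length = 1 → x = .none) →
      ((chM (.out (k + 1)) m2 r2).length = 1 → y = .none) →
      AC ε κ γ (.out k, (chM (.out (k + 1)) m1 r1).getD i1 .none, (chM (.out (k + 1)) m2 r2).getD i2 .none)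
        (.out k, x, y) ∧ BC ε κ γ (.out k, x, y) := by
  obtain ⟨g1, g2, p3, p4, p5, p6⟩ := hp
  have g1' := GM_child_out g1 h1
  have g2' := GM_child_out g2 h2
  rcases Nat.lt_or_ge (k + 1) κ with hκ | hκ
  · have hP := p4 (k + 1) rfl hκ
    obtain ⟨e1, e2⟩ := alc_one (chM_pass_out hP) h1
    refine ⟨Or.inl e1, ⟨g1', g2', ?_, ?_, ?_, ?_⟩, ?_⟩
    · intro k' hk' hle
      cases hk'
      omega
    · intro k' hk' _
      show PassO ((chM (.out (k + 1)) m1 r1).getD i1 .none)
      rw [e2]
      exact hP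
    · intro k' hk'
      cases hk'
    · intro k' hk'
      cases hk'
    · intro x y hx hy
      have hx0 := hx e1
      refine ⟨⟨?_, ?_, ?_, ?_⟩, ⟨?_, ?_, ?_⟩⟩
      · intro k' hk' hle
        cases hk'
        omega
      · intro _ _ _
        exact hx0
      · intro k' hk'
        cases hk'
      · intro k' hk'
        cases hk'
      · intro j hj
        cases hj
        exact ⟨fun h => absurd hx0 h, fun _ => by omega⟩
      · intro j hj
        cases hj
      · intro h
        cases h
  · obtain ⟨hhi, hlo⟩ := p3 (k + 1) rfl hκ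
    obtain ⟨e1, e2⟩ := alc_one (chM_lo_out g2 hlo hκ) h2
    have hedge : k < κ → (chM (.out (k + 1)) m1 r1).length = 1 ∧
        PassO ((chM (.out (k + 1)) m1 r1).getD i1 .none) := by
      intro hlt
      have hk : κ = k + 1 := by omega
      subst hk
      have hP := hi_edge_out g1 hhi
      obtain ⟨f1, f2⟩ := alc_one (chM_pass_out hP) h1
      refine ⟨f1, ?_⟩
      rw [f2]
      exact hP
    refine ⟨Or.inr e1, ⟨g1', g2', ?_, ?_, ?_, ?_⟩, ?_⟩
    · intro k' hk' hle
      refine ⟨HiM_child_out g1 hhi h1, ?_⟩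
      show LoM κ ((chM (.out (k + 1)) m2 r2).getD i2 .none)
      rw [e2]
      exact hlo
    · intro k' hk' hlt
      cases hk'
      exact (hedge hlt).2
    · intro k' hk'
      cases hk'
    · intro k' hk'
      cases hk'
    · intro x y hx hy
      have hy0 := hy e1
      refine ⟨⟨?_, ?_, ?_, ?_⟩, ⟨?_, ?_, ?_⟩⟩
      · intro _ _ _
        exact hy0
      · intro k' hk' hlt
        cases hk'
        exact hx (hedge hlt).1
      · intro k' hk'
        cases hk'
      · intro k' hk'
        cases hk'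
      · intro j hj
        cases hj
        refine ⟨fun h => ?_, fun h => absurd hy0 h⟩
        by_contra hlt
        exact h (hx (hedge (by omega)).1)
      · intro j hj
        cases hj
      · intro h
        cases h

private theorem alc_inn {γ k : ℕ} {mh ml : Mark} {rh rl ih il : ℕ}
    (gh : GM (.inn (k + 1)) mh) (gl : GM (.inn (k + 1)) ml)
    (p5 : γ ≤ k + 1 → HiM γ mh ∧ LoM γ ml) (p6 : k + 1 < γ → mh = .U)
    (h1 : ih < (chM (.inn (k + 1)) mh rh).length) (h2 : il < (chM (.inn (k + 1)) ml rl).length) :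
    ((chM (.inn (k + 1)) mh rh).length = 1 ∨ (chM (.inn (k + 1)) ml rl).length = 1) ∧
    (γ ≤ k → HiM γ ((chM (.inn (k + 1)) mh rh).getD ih .none) ∧
      LoM γ ((chM (.inn (k + 1)) ml rl).getD il .none)) ∧
    (k < γ → (chM (.inn (k + 1)) mh rh).getD ih .none = .U) ∧
    ∀ x y : Mark, ((chM (.inn (k + 1)) mh rh).length = 1 → x = .none) →
      ((chM (.inn (k + 1)) ml rl).length = 1 → y = .none) →
      ((γ ≤ k → y = .none) ∧ (k < γ → x = .none)) ∧ ((y ≠ .none → k < γ) ∧ (x ≠ .none → γ ≤ k)) := by
  rcases Nat.lt_or_ge (k + 1) γ with hγ | hγ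
  · have hU := p6 hγ
    subst hU
    obtain ⟨e1, e2⟩ := alc_one (chM_U_inn (k := k) (r := rh)) h1
    refine ⟨Or.inl e1, fun h => absurd h (by omega), fun _ => e2, ?_⟩
    intro x y hx hy
    have hx0 := hx e1
    exact ⟨⟨fun h => absurd h (by omega), fun _ => hx0⟩, ⟨fun _ => by omega, fun h => absurd hx0 h⟩⟩
  · obtain ⟨hhi, hlo⟩ := p5 hγ
    obtain ⟨e1, e2⟩ := alc_one (chM_lo_inn gl hlo hγ) h2
    have hedge : k < γ → (chM (.inn (k + 1)) mh rh).length = 1 ∧
        (chM (.inn (k + 1)) mh rh).getD ih .none = .U := by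
      intro hlt
      have hk : γ = k + 1 := by omega
      subst hk
      have hU := hi_edge_inn gh hhi
      subst hU
      exact alc_one (chM_U_inn (k := k) (r := rh)) h1
    refine ⟨Or.inr e1, fun _ => ⟨HiM_child_inn gh hhi h1, ?_⟩, fun h => (hedge h).2, ?_⟩
    · rw [e2]
      exact hlo
    · intro x y hx hy
      have hy0 := hy e1
      refine ⟨⟨fun _ => hy0, fun h => hx (hedge h).1⟩, ⟨fun h => absurd hy0 h, fun h => ?_⟩⟩
      by_contra hlt
      exact h (hx (hedge (by omega)).1)

/-- one of the two lists is single, and the conditions for the children hold -/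
theorem al_multi_core {ε : Bool} {κ γ : ℕ} {l l' : Lev}
    (hl : (∃ k, l = .inn (k + 1) ∧ l' = .inn k) ∨ (∃ k, l = .out (k + 1) ∧ l' = .out k))
    {m1 m2 : Mark} {r1 r2 i1 i2 : ℕ} (hp : PC ε κ γ (l, m1, m2))
    (h1 : i1 < (chM l m1 r1).length) (h2 : i2 < (chM l m2 r2).length) :
    ((chM l m1 r1).length = 1 ∨ (chM l m2 r2).length = 1) ∧
    PC ε κ γ (l', (chM l m1 r1).getD i1 .none, (chM l m2 r2).getD i2 .none) ∧
    ∀ x y : Mark, ((chM l m1 r1).length = 1 → x = .none) → ((chM l m2 r2).length = 1 → y = .none) →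
      AC ε κ γ (l', (chM l m1 r1).getD i1 .none, (chM l m2 r2).getD i2 .none) (l', x, y) ∧
      BC ε κ γ (l', x, y) := by
  rcases hl with ⟨k, rfl, rfl⟩ | ⟨k, rfl, rfl⟩
  · obtain ⟨g1, g2, -, -, p5, p6⟩ := hp
    have g1' := GM_child_inn g1 h1
    have g2' := GM_child_inn g2 h2
    cases ε with
    | true =>
      have q5 : γ ≤ k + 1 → HiM γ m2 ∧ LoM γ m1 := fun h => p5 (k + 1) rfl h
      have q6 : k + 1 < γ → m2 = .U := fun h => p6 (k + 1) rfl h
      obtain ⟨a1, a2, a3, a4⟩ := alc_inn g2 g1 q5 q6 h2 h1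
      refine ⟨a1.symm, ⟨g1', g2', ?_, ?_, ?_, ?_⟩, ?_⟩
      · intro k' hk'
        cases hk'
      · intro k' hk'
        cases hk'
      · intro k' hk' hle
        cases hk'
        exact a2 hle
      · intro k' hk' hlt
        cases hk'
        exact a3 hlt
      · intro x y hx hy
        obtain ⟨⟨b1, b2⟩, ⟨b3, b4⟩⟩ := a4 y x hy hx
        refine ⟨⟨?_, ?_, ?_, ?_⟩, ⟨?_, ?_, ?_⟩⟩
        · intro k' hk'
          cases hk'
        · intro k' hk'
          cases hk'
        · intro k' hk' hle
          cases hk'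
          exact b1 hle
        · intro k' hk' hlt
          cases hk'
          exact b2 hlt
        · intro j hj
          cases hj
        · intro j hj
          cases hj
          exact ⟨b3, b4⟩
        · intro h
          cases h
    | false =>
      have q5 : γ ≤ k + 1 → HiM γ m1 ∧ LoM γ m2 := fun h => p5 (k + 1) rfl h
      have q6 : k + 1 < γ → m1 = .U := fun h => p6 (k + 1) rfl h
      obtain ⟨a1, a2, a3, a4⟩ := alc_inn g1 g2 q5 q6 h1 h2
      refine ⟨a1, ⟨g1', g2', ?_, ?_, ?_, ?_⟩, ?_⟩
      · intro k' hk'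
        cases hk'
      · intro k' hk'
        cases hk'
      · intro k' hk' hle
        cases hk'
        exact a2 hle
      · intro k' hk' hlt
        cases hk'
        exact a3 hlt
      · intro x y hx hy
        obtain ⟨⟨b1, b2⟩, ⟨b3, b4⟩⟩ := a4 x y hx hy
        refine ⟨⟨?_, ?_, ?_, ?_⟩, ⟨?_, ?_, ?_⟩⟩
        · intro k' hk'
          cases hk'
        · intro k' hk'
          cases hk'
        · intro k' hk' hle
          cases hk'
          exact b1 hle
        · intro k' hk' hlt
          cases hk'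
          exact b2 hlt
        · intro j hj
          cases hj
        · intro j hj
          cases hj
          exact ⟨b3, b4⟩
        · intro h
          cases h
  · exact alc_out hp h1 h2

/-- sortedness after a step -/
theorem sortedD_kids {l : Lev} {m : Mark × Mark} {K T : List DE} {N : ℕ}
    (h : SortedD ((l, m) :: T)) (hK : K.map Prod.fst = kidsLev l N) : SortedD (K ++ T) := by
  unfold SortedD at h ⊢
  rw [List.pairwise_cons] at h
  rw [List.pairwise_append]
  refine ⟨?_, h.2, ?_⟩
  · have h1 : (K.map Prod.fst).Pairwise Lev.le := by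
      rw [hK]
      rcases l with (_ | k) | (_ | k) | _
      · simp [kidsLev]
      · simp only [kidsLev]
        rw [List.pairwise_replicate]
        exact Or.inr (le_refl' _)
      · simp [kidsLev]
      · simp only [kidsLev]
        rw [List.pairwise_replicate]
        exact Or.inr (le_refl' _)
      · simp [kidsLev]
    rwa [List.pairwise_map] at h1
  · intro e he f hf
    have h2 : e.1 ∈ kidsLev l N := by
      rw [← hK]
      exact List.mem_map_of_mem he
    exact le_trans' (kidsLev_le h2).1 (h.1 f hf)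

/-- `BC` for an entry below an outer entry does not depend on `γ` -/
theorem BC_of_out {ε : Bool} {κ γ γ' : ℕ} {e : DE} (h : BC ε κ γ e) (he : ¬ e.1.IsInn) :
    BC ε κ γ' e := by
  obtain ⟨h1, h2, h3⟩ := h
  refine ⟨h1, fun j hj => ?_, h3⟩
  exfalso
  apply he
  rw [hj]
  exact trivial

end Pool.Agent.H90.Ord
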