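import Pool.Agent.H90.Ord.ALc

/-!
# Alignment: the steps at the levels with one child (module ALD)

`al_root`: script: first the numbers of board `2`, then those of board `1`; `κ` = 1 + the last number of board `2`
(board `2` has at least one hidden number), `γ = 0`.
`al_out_zero`: both pointers stay (`single`); marks on `out 0` are `U` or `B true [g]` (`GM_out_zero`).  Script:
first the hidden numbers of the board with the low inner host levels (`ε = true`: board `1`), then those of the
other board; `γ'` = 1 + the last hidden number of the low board, or `0` if it has no hidden number.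
The hidden numbers of a board whose mark is `U` are none (`need = 0`).
-/

set_option autoImplicit false

namespace Pool.Agent.H90.Ord

theorem sel1_ft (b : ℕ) (τ : List (Bool × Bool)) (e : List ℕ) (h : b ≤ e.length) :
    sel1 (List.replicate b (false, true) ++ τ) e = sel1 τ (e.drop b) := by
  induction b generalizing e with
  | zero => simp
  | succ b ih =>
    cases e with
    | nil => simp at h
    | cons c e =>
      rw [List.replicate_succ, List.cons_append, List.drop_succ_cons]
      exact ih e (by simpa using h)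

theorem sel2_ft (b : ℕ) (τ : List (Bool × Bool)) (e : List ℕ) (h : b ≤ e.length) :
    sel2 (List.replicate b (false, true) ++ τ) e = e.take b ++ sel2 τ (e.drop b) := by
  induction b generalizing e with
  | zero => simp
  | succ b ih =>
    cases e with
    | nil => simp at h
    | cons c e =>
      rw [List.replicate_succ, List.cons_append, List.drop_succ_cons, List.take_succ_cons,
        List.cons_append, ← ih e (by simpa using h)]
      rfl

theorem sel1_tf (a : ℕ) (e : List ℕ) (h : e.length = a) :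
    sel1 (List.replicate a (true, false)) e = e := by
  induction a generalizing e with
  | zero =>
    rw [List.length_eq_zero_iff] at h
    subst h
    rfl
  | succ a ih =>
    cases e with
    | nil => simp at h
    | cons c e =>
      rw [List.replicate_succ]
      show c :: sel1 (List.replicate a (true, false)) e = c :: e
      rw [ih e (by simpa using h)]

theorem sel2_tf (a : ℕ) (e : List ℕ) :
    sel2 (List.replicate a (true, false)) e = [] := by
  induction a generalizing e with
  | zero => cases e <;> rfl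
  | succ a ih =>
    cases e with
    | nil => rw [List.replicate_succ]; rfl
    | cons c e =>
      rw [List.replicate_succ]
      exact ih e

/-- first the numbers of board 2, then those of board 1 -/
theorem merge_21 (a b : ℕ) {T1 T2 : Set (List ℕ)} (h1 : Big (a + 1) T1) (h2 : Big (b + 1) T2) :
    ∃ (H1 H2 : List ℕ) (N : ℕ), H1.length = a ∧ H2.length = b ∧ Fresh 0 (H2 ++ H1 ++ [N]) ∧
      H1 ++ [N] ∈ T1 ∧ H2 ++ [N] ∈ T2 := by
  have e1 : ((List.replicate b (false, true) ++ List.replicate a (true, false)).filter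
      fun p : Bool × Bool => p.1).length = a := by simp
  have e2 : ((List.replicate b (false, true) ++ List.replicate a (true, false)).filter
      fun p : Bool × Bool => p.2).length = b := by simp
  obtain ⟨e, N, he, hf, hT1, hT2⟩ := big_merge
    (List.replicate b (false, true) ++ List.replicate a (true, false)) 0
    (T1 := T1) (T2 := T2) (by rw [e1]; exact h1) (by rw [e2]; exact h2)
  have hl : e.length = b + a := by rw [he]; simp
  rw [sel1_ft b _ e (by omega), sel1_tf a _ (by rw [List.length_drop]; omega)] at hT1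
  rw [sel2_ft b _ e (by omega), sel2_tf, List.append_nil] at hT2
  refine ⟨e.drop b, e.take b, N, ?_, ?_, ?_, hT1, hT2⟩
  · rw [List.length_drop]; omega
  · rw [List.length_take]; omega
  · rw [List.take_append_drop]; exact hf

theorem fresh_parts {H2 H1 : List ℕ} {N : ℕ} (h : Fresh 0 (H2 ++ H1 ++ [N])) :
    Fresh 0 (H1 ++ [N]) ∧ Fresh 0 (H2 ++ [N]) ∧ (∀ x ∈ H2, ∀ y ∈ H1, x + 3 ≤ y) ∧
      (∀ x ∈ H2, x + 3 ≤ N) ∧ (∀ x ∈ H1, x + 3 ≤ N) := by
  have hs := h.sorted
  rw [List.pairwise_append, List.pairwise_append] at hs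
  refine ⟨h.sublist ?_, h.sublist ?_, fun x hx y hy => hs.1.2.2 x hx y hy,
    fun x hx => hs.2.2 x (List.mem_append_left _ hx) N (by simp),
    fun x hx => hs.2.2 x (List.mem_append_right _ hx) N (by simp)⟩
  · exact List.Sublist.append (List.sublist_append_right _ _) (List.Sublist.refl _)
  · exact List.Sublist.append (List.sublist_append_left _ _) (List.Sublist.refl _)

theorem fresh_left {m : ℕ} {H : List ℕ} {N : ℕ} (h : Fresh m (H ++ [N])) : Fresh m H :=
  h.sublist (List.sublist_append_left _ _)

theorem fresh_last {m : ℕ} {L : List ℕ} {c : ℕ} (h : Fresh m (L ++ [c])) : ∀ g ∈ L ++ [c], g ≤ c := by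
  have hs := h.sorted
  rw [List.pairwise_append] at hs
  intro g hg
  rcases List.mem_append.1 hg with hg | hg
  · have := hs.2.2 g hg c (by simp)
    omega
  · rw [List.mem_singleton.1 hg]

theorem al_root {ε : Bool} {s t : St} (hs : s.stk = [(.root, .U)]) (ht : t.stk = [(.root, .U)])
    {T1 T2 : Set (List ℕ)} (h1 : Big (s.need + 1) T1) (h2 : Big (t.need + 1) T2) :
    ∃ l1 ∈ T1, ∃ l2 ∈ T2, Fresh 0 l1 ∧ Fresh 0 l2 ∧ l1.length = s.need + 1 ∧
      l2.length = t.need + 1 ∧ l1.getLastD 0 = l2.getLastD 0 ∧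
      ∃ κ γ p, (s.step l1).stk = p1 [p] ∧ (t.step l2).stk = p2 [p] ∧ Al ε κ γ [] p [] := by
  have ns : s.need = s.reg + 1 := by simp [St.need, hs, Ord.need]
  have nt : t.need = t.reg + 1 := by simp [St.need, ht, Ord.need]
  obtain ⟨H1, H2, N, n1, n2, hf, hT1, hT2⟩ := merge_21 s.need t.need h1 h2
  obtain ⟨f1, f2, h21, h2N, h1N⟩ := fresh_parts hf
  rcases List.eq_nil_or_concat' H1 with hH1 | ⟨L1, c1, hH1⟩
  · rw [hH1, ns] at n1; simp at n1
  rcases List.eq_nil_or_concat' H2 with hH2 | ⟨L2, c2, hH2⟩
  · rw [hH2, nt] at n2; simp at n2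
  have k1 : (s.step (H1 ++ [N])).stk = [(.out N, .E true H1.reverse)] := by
    simp [St.step, hs, kids]
  have k2 : (t.step (H2 ++ [N])).stk = [(.out N, .E true H2.reverse)] := by
    simp [St.step, ht, kids]
  have c1m : c1 ∈ H1 := by rw [hH1]; simp
  have c2m : c2 ∈ H2 := by rw [hH2]; simp
  have g1 : GM (.out N) (.E true H1.reverse) := by
    refine ⟨DescSp.of_fresh (fresh_left f1), c1, L1.reverse, by rw [hH1]; simp, ?_⟩
    have := h1N c1 c1m
    omega
  have g2 : GM (.out N) (.E true H2.reverse) := by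
    refine ⟨DescSp.of_fresh (fresh_left f2), c2, L2.reverse, by rw [hH2]; simp, ?_⟩
    have := h2N c2 c2m
    omega
  refine ⟨H1 ++ [N], hT1, H2 ++ [N], hT2, f1, f2, by simp [n1], by simp [n2], by simp,
    c2 + 1, 0, (.out N, .E true H1.reverse, .E true H2.reverse), k1, k2, ?_, ?_, ?_, ?_⟩
  · exact List.pairwise_singleton _ _
  · refine ⟨g1, g2, ?_, ?_, ?_, ?_⟩
    · intro k _ _
      refine ⟨Or.inr ⟨true, H1.reverse, Or.inl rfl, ?_⟩, Or.inr ⟨true, H2.reverse, rfl, ?_⟩⟩
      · intro g hg
        have := h21 c2 c2m g (List.mem_reverse.1 hg)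
        omega
      · intro g hg
        have h3 : g ∈ L2 ++ [c2] := by
          rw [← hH2]; exact List.mem_reverse.1 hg
        have h4 : Fresh 0 (L2 ++ [c2]) := by
          rw [← hH2]; exact fresh_left f2
        have := fresh_last h4 g h3
        omega
    · intro k hk hkk
      have hk' : N = k := by
        have hk2 : Lev.out N = Lev.out k := hk
        injection hk2
      have := h2N c2 c2m
      omega
    · intro k hk
      exact absurd hk (by simp)
    · intro k hk
      exact absurd hk (by simp)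
  · intro e he
    simp at he
  · intro e he
    simp at he

/-- conditions for the new inner entry -/
theorem inn_cond {Hlo Hhi : List ℕ} {N : ℕ} (hf : Fresh 0 (Hlo ++ Hhi ++ [N])) :
    ∃ γ : ℕ, GM (.inn N) (mkE false Hlo.reverse) ∧ GM (.inn N) (mkE false Hhi.reverse) ∧
      HiM γ (mkE false Hhi.reverse) ∧ LoM γ (mkE false Hlo.reverse) ∧ ¬ N < γ := by
  obtain ⟨f1, f2, h21, h2N, h1N⟩ := fresh_parts hf
  have gm : ∀ H : List ℕ, Fresh 0 (H ++ [N]) → (∀ x ∈ H, x + 3 ≤ N) →
      GM (.inn N) (mkE false H.reverse) := by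
    intro H hH hN
    rcases List.eq_nil_or_concat' H with rfl | ⟨L, c, rfl⟩
    · exact trivial
    · have h3 : (L ++ [c]).reverse = c :: L.reverse := by simp
      have h4 : mkE false (L ++ [c]).reverse = .E false (c :: L.reverse) := by rw [h3]; rfl
      rw [h4]
      refine ⟨?_, c, L.reverse, rfl, ?_⟩
      · have := DescSp.of_fresh (fresh_left hH)
        rwa [h3] at this
      · have := hN c (by simp)
        omega
  rcases List.eq_nil_or_concat' Hlo with hlo | ⟨L, c, hlo⟩
  · refine ⟨0, gm Hlo f2 h2N, gm Hhi f1 h1N, ?_, ?_, Nat.not_lt_zero _⟩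
    · rcases List.eq_nil_or_concat' Hhi with rfl | ⟨L, c, rfl⟩
      · exact Or.inl rfl
      · have h3 : (L ++ [c]).reverse = c :: L.reverse := by simp
        refine Or.inr ⟨false, c :: L.reverse, Or.inl (by rw [h3]; rfl), ?_⟩
        intro g hg
        have hg' : g ∈ (L ++ [c]) ++ [N] := by
          rw [← h3] at hg
          exact List.mem_append_left _ (List.mem_reverse.1 hg)
        have := f1.ge hg'
        omega
    · rw [hlo]
      exact Or.inl rfl
  · refine ⟨c + 1, gm Hlo f2 h2N, gm Hhi f1 h1N, ?_, ?_, ?_⟩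
    · rcases List.eq_nil_or_concat' Hhi with rfl | ⟨L', c', rfl⟩
      · exact Or.inl rfl
      · have h3 : (L' ++ [c']).reverse = c' :: L'.reverse := by simp
        refine Or.inr ⟨false, c' :: L'.reverse, Or.inl (by rw [h3]; rfl), ?_⟩
        intro g hg
        rw [← h3] at hg
        have := h21 c (by rw [hlo]; simp) g (List.mem_reverse.1 hg)
        omega
    · have h3 : (L ++ [c]).reverse = c :: L.reverse := by simp
      refine Or.inr ⟨false, c :: L.reverse, by rw [hlo, h3]; rfl, ?_⟩
      intro g hg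
      rw [← h3] at hg
      have h4 : Fresh 0 (L ++ [c]) := by
        rw [← hlo]; exact fresh_left f2
      have := fresh_last h4 g (List.mem_reverse.1 hg)
      omega
    · have := h2N c (by rw [hlo]; simp)
      omega

/-- the child of a marked `out 0` -/
theorem kid_out_zero {m : Mark} (h : m = .U ∨ ∃ g, m = .B true [g]) (r : ℕ) {H : List ℕ}
    (hH : H.length = Ord.need (.out 0) m r) (N : ℕ) :
    kids (.out 0) m r H N = [(.inn N, mkE false H.reverse)] := by
  rcases h with rfl | ⟨g, rfl⟩
  · have : H = [] := by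
      rw [← List.length_eq_zero_iff, hH]; rfl
    rw [this]
    rfl
  · rfl

theorem al_out_zero {ε : Bool} {κ γ : ℕ} {s t : St} {m1 m2 : Mark} {B : List DE}
    (hs : s.stk = p1 ((.out 0, m1, m2) :: B)) (ht : t.stk = p2 ((.out 0, m1, m2) :: B))
    (hal : Al ε κ γ [] (.out 0, m1, m2) B)
    {T1 T2 : Set (List ℕ)} (h1 : Big (s.need + 1) T1) (h2 : Big (t.need + 1) T2) :
    ∃ l1 ∈ T1, ∃ l2 ∈ T2, Fresh 0 l1 ∧ Fresh 0 l2 ∧ l1.length = s.need + 1 ∧
      l2.length = t.need + 1 ∧ l1.getLastD 0 = l2.getLastD 0 ∧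
      ∃ γ' p, (s.step l1).stk = p1 (p :: B) ∧ (t.step l2).stk = p2 (p :: B) ∧
        Al ε κ γ' [] p B := by
  have hs' : s.stk = (.out 0, m1) :: p1 B := by rw [hs]; rfl
  have ht' : t.stk = (.out 0, m2) :: p2 B := by rw [ht]; rfl
  have ns : s.need = Ord.need (.out 0) m1 s.reg := by simp [St.need, hs']
  have nt : t.need = Ord.need (.out 0) m2 t.reg := by simp [St.need, ht']
  have g1 : m1 = .U ∨ ∃ g, m1 = .B true [g] := GM_out_zero hal.hp.1
  have g2 : m2 = .U ∨ ∃ g, m2 = .B true [g] := GM_out_zero hal.hp.2.1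
  have hBC : ∀ γ', ∀ e ∈ B, BC ε κ γ' e := by
    intro γ' e he
    have h3 : SortedD ((.out 0, m1, m2) :: B) := hal.sorted
    have h4 := (List.pairwise_cons.1 h3).1 e he
    refine BC_of_out (hal.hB e he) ?_
    intro h5
    obtain ⟨l, x⟩ := e
    cases l with
    | inn k => exact h4
    | out k => exact h5
    | root => exact h5
  -- the conclusion from the two lists
  have main : ∀ (H1 H2 : List ℕ) (N : ℕ), H1.length = s.need → H2.length = t.need →
      Fresh 0 (H1 ++ [N]) → Fresh 0 (H2 ++ [N]) → H1 ++ [N] ∈ T1 → H2 ++ [N] ∈ T2 →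
      (∃ γ' : ℕ, PC ε κ γ' (.inn N, mkE false H1.reverse, mkE false H2.reverse)) →
      ∃ l1 ∈ T1, ∃ l2 ∈ T2, Fresh 0 l1 ∧ Fresh 0 l2 ∧ l1.length = s.need + 1 ∧
      l2.length = t.need + 1 ∧ l1.getLastD 0 = l2.getLastD 0 ∧
      ∃ γ' p, (s.step l1).stk = p1 (p :: B) ∧ (t.step l2).stk = p2 (p :: B) ∧
        Al ε κ γ' [] p B := by
    rintro H1 H2 N n1 n2 f1 f2 hT1 hT2 ⟨γ', hPC⟩
    have k1 : (s.step (H1 ++ [N])).stk = (.inn N, mkE false H1.reverse) :: p1 B := by
      have h3 : (s.step (H1 ++ [N])).stk = kids (.out 0) m1 s.reg H1 N ++ p1 B := by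
        simp [St.step, hs']
      rw [h3, kid_out_zero g1 s.reg (by rw [n1, ns]) N]
      rfl
    have k2 : (t.step (H2 ++ [N])).stk = (.inn N, mkE false H2.reverse) :: p2 B := by
      have h3 : (t.step (H2 ++ [N])).stk = kids (.out 0) m2 t.reg H2 N ++ p2 B := by
        simp [St.step, ht']
      rw [h3, kid_out_zero g2 t.reg (by rw [n2, nt]) N]
      rfl
    refine ⟨H1 ++ [N], hT1, H2 ++ [N], hT2, f1, f2, by simp [n1], by simp [n2], by simp,
      γ', (.inn N, mkE false H1.reverse, mkE false H2.reverse), k1, k2, ?_, hPC, ?_, hBC γ'⟩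
    · have := sortedD_kids (K := [(.inn N, mkE false H1.reverse, mkE false H2.reverse)]) (T := B)
        (N := N) hal.sorted rfl
      exact this
    · intro e he
      simp at he
  cases ε with
  | false =>
    -- low board: board 2
    obtain ⟨H1, H2, N, n1, n2, hf, hT1, hT2⟩ := merge_21 s.need t.need h1 h2
    obtain ⟨f1, f2, -, -, -⟩ := fresh_parts hf
    obtain ⟨γ', a1, a2, a3, a4, a5⟩ := inn_cond hf
    refine main H1 H2 N n1 n2 f1 f2 hT1 hT2 ⟨γ', a2, a1, ?_, ?_, ?_, ?_⟩
    · intro k hk
      exact absurd hk (by simp)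
    · intro k hk
      exact absurd hk (by simp)
    · intro k _ _
      exact ⟨a3, a4⟩
    · intro k hk hkk
      have hk' : N = k := by
        have hk2 : Lev.inn N = Lev.inn k := hk
        injection hk2
      exact absurd hkk (hk' ▸ a5)
  | true =>
    obtain ⟨H2, H1, N, n2, n1, hf, hT2, hT1⟩ := merge_21 t.need s.need h2 h1
    obtain ⟨f2, f1, -, -, -⟩ := fresh_parts hf
    obtain ⟨γ', a1, a2, a3, a4, a5⟩ := inn_cond hf
    refine main H1 H2 N n1 n2 f1 f2 hT1 hT2 ⟨γ', a1, a2, ?_, ?_, ?_, ?_⟩
    · intro k hk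
      exact absurd hk (by simp)
    · intro k hk
      exact absurd hk (by simp)
    · intro k _ _
      exact ⟨a3, a4⟩
    · intro k hk hkk
      have hk' : N = k := by
        have hk2 : Lev.inn N = Lev.inn k := hk
        injection hk2
      exact absurd hkk (hk' ▸ a5)

end Pool.Agent.H90.Ord
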