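import Pool.Agent.H90.Ord.Auto

/-!
# Two boards on one vertex

The two states of one vertex on its two boards have the same real numbers and the same levels.
`D` is their common stack: every entry has a level and two marks.
-/

set_option autoImplicit false

namespace Pool.Agent.H90.Ord

/-- entry of a double stack: level, mark on the first board, mark on the second board -/
abbrev DE : Type := Lev × Mark × Mark

/-- the stack on the first board -/
def p1 (D : List DE) : List (Lev × Mark) := D.map fun e => (e.1, e.2.1)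

/-- the stack on the second board -/
def p2 (D : List DE) : List (Lev × Mark) := D.map fun e => (e.1, e.2.2)

/-- `s` and `t` are the states of one vertex on two boards, with common stack `D` -/
structure Dbl (s t : St) (D : List DE) : Prop where
  real : s.real = t.real
  h1 : s.stk = p1 D
  h2 : t.stk = p2 D

/-- the two states have the same real numbers and the same levels -/
def Par (s t : St) : Prop := s.real = t.real ∧ s.stk.map Prod.fst = t.stk.map Prod.fst

/-- levels ascend from the top to the bottom -/
def SortedD (D : List DE) : Prop := D.Pairwise fun e f => e.1.le f.1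

/-- descending list with gaps at least `3` and last element at least `3` -/
def DescSp (L : List ℕ) : Prop := Fresh 0 L.reverse

/-- a mark which may be found on a pointed entry of level `l` -/
def GM : Lev → Mark → Prop
  | .root, _ => False
  | _, .none => False
  | _, .U => True
  | .out k, .E true L => DescSp L ∧ ∃ g L', L = g :: L' ∧ g ≤ k
  | .out k, .B true L => DescSp L ∧ ∃ g L', L = g :: L' ∧ k + 1 ≤ g ∧ (L' ≠ [] → k + 1 = g)
  | .inn k, .E false L => DescSp L ∧ ∃ g L', L = g :: L' ∧ g ≤ k
  | .inn k, .B false L => DescSp L ∧ ∃ g L', L = g :: L' ∧ k + 1 = g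
  | _, _ => False

/-- all host levels of the mark are below `t`, and the mark is not a body -/
def LoM (t : ℕ) (m : Mark) : Prop := m = .U ∨ ∃ o L, m = .E o L ∧ ∀ g ∈ L, g < t

/-- all host levels of the mark are at least `t + 2` -/
def HiM (t : ℕ) (m : Mark) : Prop :=
  m = .U ∨ ∃ o L, (m = .E o L ∨ m = .B o L) ∧ ∀ g ∈ L, t + 2 ≤ g

/-- the mark will not be split at outer levels -/
def PassO (m : Mark) : Prop := m = .U ∨ ∃ g, m = .B true [g]

/-- the mark of the board whose inner host levels are high (mode `a`, `ε = true`: board 2) -/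
def hiI (ε : Bool) (e : DE) : Mark := if ε then e.2.2 else e.2.1

/-- the mark of the board whose inner host levels are low (mode `a`, `ε = true`: board 1) -/
def loI (ε : Bool) (e : DE) : Mark := if ε then e.2.1 else e.2.2

/-- conditions on the pointed entry; `κ` separates the outer host levels (board 2 below, board 1
above), `γ` separates the inner host levels -/
def PC (ε : Bool) (κ γ : ℕ) (e : DE) : Prop :=
  GM e.1 e.2.1 ∧ GM e.1 e.2.2 ∧
  (∀ k, e.1 = .out k → κ ≤ k → HiM κ e.2.1 ∧ LoM κ e.2.2) ∧
  (∀ k, e.1 = .out k → k < κ → PassO e.2.1) ∧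
  (∀ k, e.1 = .inn k → γ ≤ k → HiM γ (hiI ε e) ∧ LoM γ (loI ε e)) ∧
  (∀ k, e.1 = .inn k → k < γ → hiI ε e = .U)

/-- conditions on an entry above the pointed entry `p` -/
def AC (ε : Bool) (κ γ : ℕ) (p e : DE) : Prop :=
  (∀ k, p.1 = .out k → κ ≤ k → e.2.2 = .none) ∧
  (∀ k, p.1 = .out k → k < κ → e.2.1 = .none) ∧
  (∀ k, p.1 = .inn k → γ ≤ k → loI ε e = .none) ∧
  (∀ k, p.1 = .inn k → k < γ → hiI ε e = .none)

/-- conditions on an entry below the pointed entry -/
def BC (ε : Bool) (κ γ : ℕ) (e : DE) : Prop :=
  (∀ j, e.1 = .out j → (e.2.1 ≠ .none → κ ≤ j) ∧ (e.2.2 ≠ .none → j < κ)) ∧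
  (∀ j, e.1 = .inn j → (loI ε e ≠ .none → j < γ) ∧ (hiI ε e ≠ .none → γ ≤ j)) ∧
  e.1 ≠ .root

/-- aligned double stack: `A` above, `p` the pointed entry, `B` below -/
structure Al (ε : Bool) (κ γ : ℕ) (A : List DE) (p : DE) (B : List DE) : Prop where
  sorted : SortedD (A ++ p :: B)
  hp : PC ε κ γ p
  hA : ∀ e ∈ A, AC ε κ γ p e
  hB : ∀ e ∈ B, BC ε κ γ e

/-- two states of one vertex before the common target, which is in the entry of height `h` -/
def Ald (ε : Bool) (s t : St) (h : ℕ) : Prop :=
  s.real = t.real ∧ ((s.stk = [(.root, .U)] ∧ t.stk = [(.root, .U)] ∧ h = 1) ∨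
    ∃ κ γ A p B, s.stk = p1 (A ++ p :: B) ∧ t.stk = p2 (A ++ p :: B) ∧ B.length + 1 = h ∧
      Al ε κ γ A p B)

end Pool.Agent.H90.Ord
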