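import Pool.Agent.H90.Ord.Mach

/-!
# Annotated games

`AW red A ann a b`: the challenger wins the pair game from `(a, b)`, and on the way the annotation
(phase, pointer of `a`, pointer of `b`, flag) follows the rules of the automaton `A`.
-/

set_option autoImplicit false

namespace Pool.Agent.H90.Ord

/-- `e` is the entry of height `h` of the stack `s` (the lowest entry has height `1`) -/
def EntryAt (s : List (Lev × Mark)) (h : ℕ) (e : Lev × Mark) : Prop :=
  ∃ A B, s = A ++ e :: B ∧ B.length + 1 = h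

/-- the entry of height `h` exists and is marked -/
def PtrOK (s : St) (h : ℕ) : Prop := ∃ e, EntryAt s.stk h e ∧ e.2 ≠ .none

/-- the entry of height `h` exists and has an inner level -/
def PIn (s : St) (h : ℕ) : Prop := ∃ e, EntryAt s.stk h e ∧ e.1.IsInn

/-- the entry of height `h` exists and does not have an inner level -/
def POut (s : St) (h : ℕ) : Prop := ∃ e, EntryAt s.stk h e ∧ ¬ e.1.IsInn

/-- some entry of inner level is marked -/
def HasInnerMark (s : St) : Prop := ∃ e ∈ s.stk, e.1.IsInn ∧ e.2 ≠ .none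

/-- the target (entry of height `h`) is not the open unit on the top -/
def NT (s : St) (h : ℕ) : Prop := h < s.stk.length ∨ ∃ t, s.stk = (.root, .U) :: t

/-- the target is the open unit on the top -/
def AT (s : St) (h : ℕ) : Prop := h = s.stk.length ∧ ∃ t, s.stk = (.inn 0, .U) :: t

/-- the top entry exists and has no inner level -/
def TopOut (s : St) : Prop := ∃ l m t, s.stk = (l, m) :: t ∧ ¬ l.IsInn

/-- possible updates of a pointer in a step; pointer `0` means no pointer -/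
inductive PtrStep : ℕ → St → (List ℕ → ℕ) → Prop
  | zero {s : St} : PtrStep 0 s (fun _ => 0)
  | keep {h : ℕ} {s : St} (h0 : 0 < h) (h1 : h < s.stk.length) : PtrStep h s (fun _ => h)
  | single {s : St} {l : Lev} {m : Mark} {t : List (Lev × Mark)} (hs : s.stk = (l, m) :: t)
      (hl : l = .out 0 ∨ l = .root) : PtrStep s.stk.length s (fun _ => s.stk.length)
  | child {s : St} {l : Lev} {m : Mark} {t : List (Lev × Mark)} (k i : ℕ)
      (hs : s.stk = (l, m) :: t) (hl : l = .inn (k + 1) ∨ l = .out (k + 1)) (hi : i < s.need) :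
      PtrStep s.stk.length s (fun x => t.length + (x.getLastD 0 - x.getD i 0))

/-- an annotation: phase, pointers, flag -/
structure Ann where
  ph : ℕ
  ha : ℕ
  hb : ℕ
  fl : Bool

/-- rules for the annotation; in `pickT` and `stepT` the Boolean tells which vertex moves -/
structure Auto where
  pickT : Ann → Bool → St → St → Ann → Prop
  stepT : Ann → Bool → St → St → (List ℕ → Ann) → Prop
  doneT : Ann → Prop

/-- the challenger wins from `(a, b)` respecting the automaton `A` -/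
inductive AW (red : List ℕ → List ℕ → Prop) (A : Auto) : Ann → St → St → Prop
  | done {ann : Ann} {a b : St} (ha : a.stk = []) (hb : b.stk = []) (h : red a.real b.real)
      (hd : A.doneT ann) : AW red A ann a b
  | pickA {ann ann' : Ann} {a b : St} (n : ℕ) (ha : a.Nonrun) (hb : b.Nonrun) (h0 : a.stk ≠ [])
      (ht : A.pickT ann true a b ann') (h : AW red A ann' (a.pick n) b) : AW red A ann a b
  | pickB {ann ann' : Ann} {a b : St} (n : ℕ) (ha : a.Nonrun) (hb : b.Nonrun) (h0 : b.stk ≠ [])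
      (hr : a.real ≠ []) (ht : A.pickT ann false a b ann') (h : AW red A ann' a (b.pick n)) :
      AW red A ann a b
  | stepA {ann : Ann} {a b : St} (f : List ℕ → Ann) (T : Set (List ℕ)) (ha : ¬ a.Nonrun)
      (hb : b.Nonrun) (ht : A.stepT ann true a b f) (hT : Big (a.need + 1) T)
      (h : ∀ l ∈ T, AW red A (f l) (a.step l) b) : AW red A ann a b
  | stepB {ann : Ann} {a b : St} (f : List ℕ → Ann) (T : Set (List ℕ)) (ha : a.Nonrun)
      (hb : ¬ b.Nonrun) (ht : A.stepT ann false a b f) (hT : Big (b.need + 1) T)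
      (h : ∀ l ∈ T, AW red A (f l) a (b.step l)) : AW red A ann a b

/-- pointer update of `a` -/
def PtrA (ann : Ann) (a : St) (f : List ℕ → Ann) : Prop :=
  ∃ g, PtrStep ann.ha a g ∧ f = fun l => { ann with ha := g l }

/-- pointer update of `b` -/
def PtrB (ann : Ann) (b : St) (f : List ℕ → Ann) : Prop :=
  ∃ g, PtrStep ann.hb b g ∧ f = fun l => { ann with hb := g l }

/-- no change of the annotation in a step -/
def Same (ann : Ann) (f : List ℕ → Ann) : Prop := f = fun _ => ann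

/-- role of the board `xy` in type II with an outer segment of `x` in the life of `y`.
Phases: 1 before the last outer segment `w → w'` of `a`; 2 this segment (`b` waits at `q`);
3 inner segments alternate until `a` is at `v`; 4 the outer or final segment of `b`; 5 the rest.
The pointer of `a` shows `v` (phases 1, 2, 3), the pointer of `b` shows `q` (phase 1). -/
def XY1 : Auto where
  pickT ann v a b ann' :=
    (ann.ph = 1 ∧ v = true ∧ NT a ann.ha ∧ ann' = ann) ∨
    (ann.ph = 1 ∧ v = true ∧ AT b ann.hb ∧ POut a ann.ha ∧ ann' = ⟨2, ann.ha, 0, false⟩) ∨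
    (ann.ph = 1 ∧ v = false ∧ NT b ann.hb ∧ ann' = ann) ∨
    (ann.ph = 2 ∧ v = true ∧ NT a ann.ha ∧ ann' = ann) ∨
    (ann.ph = 2 ∧ v = false ∧ PIn a ann.ha ∧ ann.ha < a.stk.length ∧
      ann' = ⟨3, ann.ha, 0, false⟩) ∨
    (ann.ph = 3 ∧ v = true ∧ NT a ann.ha ∧ ann' = ann) ∨
    (ann.ph = 3 ∧ v = false ∧ ann.ha < a.stk.length ∧ ann' = ann) ∨
    ((ann.ph = 2 ∨ ann.ph = 3) ∧ v = false ∧ AT a ann.ha ∧ ann' = ⟨4, 0, 0, false⟩) ∨
    (ann.ph = 4 ∧ v = false ∧ ann' = ann) ∨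
    (ann.ph = 4 ∧ v = true ∧ (ann.fl = true ∨ b.stk = []) ∧ ann' = ⟨5, 0, 0, false⟩) ∨
    (ann.ph = 5 ∧ ann' = ann)
  stepT ann v a b f :=
    (ann.ph = 1 ∧ v = true ∧ PtrA ann a f) ∨
    (ann.ph = 1 ∧ v = false ∧ PtrB ann b f) ∨
    (ann.ph = 2 ∧ v = true ∧ PtrA ann a f) ∨
    (ann.ph = 3 ∧ v = true ∧ PtrA ann a f) ∨
    (ann.ph = 3 ∧ v = false ∧ HasInnerMark b ∧ Same ann f) ∨
    (ann.ph = 4 ∧ v = false ∧ TopOut b ∧ f = fun _ => { ann with fl := true }) ∨
    (ann.ph = 4 ∧ v = false ∧ ¬ TopOut b ∧ Same ann f) ∨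
    (ann.ph = 5 ∧ Same ann f)
  doneT ann := ann.ph = 5

/-- role of the board `xz` in type II (and of the board `xy` if the segments of `x` in the life of
`y` are inner).  Phases: 1 (or 6, then the first cut of `a` must be in the inner block of `v`):
`a` alone up to its first cut; 2: `a` and `b` alternate; 3: `a` moves to `v`, its position when `b`
completes, while `b` waits at its last cut `u`; 4: `b` completes; 5: `a` completes.
The pointer of `a` shows `v` (phases 1, 6, 2, 3), the pointer of `b` shows `u` (phase 2). -/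
def XZ : Auto where
  pickT ann v a b ann' :=
    ((ann.ph = 1 ∨ ann.ph = 6) ∧ v = true ∧ NT a ann.ha ∧ ann' = ann) ∨
    ((ann.ph = 1 ∨ (ann.ph = 6 ∧ PIn a ann.ha)) ∧ v = false ∧ ann.ha < a.stk.length ∧
      b.stk = [(.root, .U)] ∧ ann' = ⟨2, ann.ha, 1, false⟩) ∨
    (ann.ph = 2 ∧ v = true ∧ NT a ann.ha ∧ ann' = ann) ∨
    (ann.ph = 2 ∧ v = true ∧ ann.ha < a.stk.length ∧ AT b ann.hb ∧ ann' = ⟨3, ann.ha, 0, false⟩) ∨
    (ann.ph = 2 ∧ v = false ∧ NT b ann.hb ∧ ann.ha < a.stk.length ∧ ann' = ann) ∨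
    (ann.ph = 3 ∧ v = true ∧ NT a ann.ha ∧ ann' = ann) ∨
    (ann.ph = 3 ∧ v = false ∧ AT a ann.ha ∧ ann' = ⟨4, 0, 0, false⟩) ∨
    (ann.ph = 4 ∧ v = false ∧ ann' = ann) ∨
    (ann.ph = 4 ∧ v = true ∧ b.stk = [] ∧ ann' = ⟨5, 0, 0, false⟩) ∨
    (ann.ph = 5 ∧ v = true ∧ ann' = ann)
  stepT ann v a b f :=
    ((ann.ph = 1 ∨ ann.ph = 6 ∨ ann.ph = 2 ∨ ann.ph = 3) ∧ v = true ∧ PtrA ann a f) ∨
    (ann.ph = 2 ∧ v = false ∧ PtrB ann b f) ∨
    (ann.ph = 4 ∧ v = false ∧ Same ann f) ∨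
    (ann.ph = 5 ∧ v = true ∧ Same ann f)
  doneT ann := ann.ph = 5

/-- role of the board `yz` in type II.  Phases: 1: `a` alone up to its first cut `q`; 2: `b` alone
up to its first cut `u`; 3: the rest, `b` completes before `a`.
The pointer of `a` shows `q` (phase 1), the pointer of `b` shows `u` (phase 2). -/
def YZ : Auto where
  pickT ann v a b ann' :=
    (ann.ph = 1 ∧ v = true ∧ NT a ann.ha ∧ ann' = ann) ∨
    (ann.ph = 1 ∧ v = false ∧ AT a ann.ha ∧ b.stk = [(.root, .U)] ∧ ann' = ⟨2, 0, 1, false⟩) ∨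
    (ann.ph = 2 ∧ v = false ∧ NT b ann.hb ∧ ann' = ann) ∨
    (ann.ph = 2 ∧ v = true ∧ AT b ann.hb ∧ ann' = ⟨3, 0, 0, false⟩) ∨
    (ann.ph = 3 ∧ (a.stk = [] → b.stk = []) ∧ ann' = ann)
  stepT ann v a b f :=
    (ann.ph = 1 ∧ v = true ∧ PtrA ann a f) ∨
    (ann.ph = 2 ∧ v = false ∧ PtrB ann b f) ∨
    (ann.ph = 3 ∧ (a.stk = [] → b.stk = []) ∧ Same ann f)
  doneT ann := ann.ph = 3

/-- role of the board `xy` in type I.  Phases: 1 before the final segment of `a` (the pointer of `b`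
shows the position of `b` at that time), 2 the final segment of `a`, 3 the rest. -/
def XYI : Auto where
  pickT ann v a b ann' :=
    (ann.ph = 1 ∧ v = true ∧ ann' = ann) ∨
    (ann.ph = 1 ∧ v = true ∧ AT b ann.hb ∧ ann' = ⟨2, 0, 0, false⟩) ∨
    (ann.ph = 1 ∧ v = false ∧ NT b ann.hb ∧ ann' = ann) ∨
    (ann.ph = 2 ∧ v = true ∧ ann' = ann) ∨
    (ann.ph = 2 ∧ v = false ∧ a.stk = [] ∧ ann' = ⟨3, 0, 0, false⟩) ∨
    (ann.ph = 3 ∧ v = false ∧ ann' = ann)
  stepT ann v _ b f :=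
    (ann.ph = 1 ∧ v = true ∧ Same ann f) ∨
    (ann.ph = 1 ∧ v = false ∧ PtrB ann b f) ∨
    (ann.ph = 2 ∧ v = true ∧ Same ann f) ∨
    (ann.ph = 3 ∧ v = false ∧ Same ann f)
  doneT ann := ann.ph = 3

/-- role of the board `xz` in type I: `a` completes before `b` -/
def XZI : Auto where
  pickT ann _ a b ann' := (b.stk = [] → a.stk = []) ∧ ann' = ann
  stepT ann _ a b f := (b.stk = [] → a.stk = []) ∧ Same ann f
  doneT _ := True

/-- role of the board `yz` in type I: phase 1 until the first cut of `a`, then phase 2 -/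
def YZI : Auto where
  pickT ann v a _ ann' :=
    (ann.ph = 1 ∧ v = true ∧ NT a ann.ha ∧ ann' = ann) ∨
    (ann.ph = 1 ∧ v = false ∧ AT a ann.ha ∧ ann' = ⟨2, 0, 0, false⟩) ∨
    (ann.ph = 2 ∧ ann' = ann)
  stepT ann v a _ f :=
    (ann.ph = 1 ∧ v = true ∧ PtrA ann a f) ∨
    (ann.ph = 2 ∧ Same ann f)
  doneT ann := ann.ph = 2

/-- type 0: `a` completes before `b` starts -/
def T0 : Auto where
  pickT ann v a _ ann' :=
    (ann.ph = 1 ∧ v = true ∧ ann' = ann) ∨
    (ann.ph = 1 ∧ v = false ∧ a.stk = [] ∧ ann' = ⟨2, 0, 0, false⟩) ∨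
    (ann.ph = 2 ∧ v = false ∧ ann' = ann)
  stepT ann v _ _ f := ((ann.ph = 1 ∧ v = true) ∨ (ann.ph = 2 ∧ v = false)) ∧ Same ann f
  doneT ann := ann.ph = 2

/-- type R: `a` moves to its only cut, `b` completes, `a` completes -/
def R1 : Auto where
  pickT ann v a b ann' :=
    (ann.ph = 1 ∧ v = true ∧ ann' = ann) ∨
    (ann.ph = 1 ∧ v = false ∧ b.stk = [(.root, .U)] ∧ a.stk ≠ [] ∧ ann' = ⟨2, 0, 0, false⟩) ∨
    (ann.ph = 2 ∧ v = false ∧ ann' = ann) ∨
    (ann.ph = 2 ∧ v = true ∧ b.stk = [] ∧ ann' = ⟨3, 0, 0, false⟩) ∨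
    (ann.ph = 3 ∧ v = true ∧ ann' = ann)
  stepT ann v _ _ f :=
    ((ann.ph = 1 ∧ v = true) ∨ (ann.ph = 2 ∧ v = false) ∨ (ann.ph = 3 ∧ v = true)) ∧ Same ann f
  doneT ann := ann.ph = 3

end Pool.Agent.H90.Ord
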