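import Mathlib

/-!
# The tree machine

`Lev` are the ordinals `0, 1, ..., ω, ω+1, ..., ω·2`.  A stack is a list of levels, its first element
is the top.  Reading a number `N` removes the top entry `l` and puts `kidsLev l N` in its place.  The
complete runs from `[root]`, ordered lexicographically, have order type `ω^(ω^(ω·2))`.
-/

set_option autoImplicit false

namespace Pool.Agent.H90.Ord

/-- `inn k` is the ordinal `k`, `out k` is `ω + k`, `root` is `ω·2` -/
inductive Lev
  | inn (k : ℕ)
  | out (k : ℕ)
  | root
  deriving DecidableEq

namespace Lev

/-- the level is one of the `inn k` -/
def IsInn : Lev → Prop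
  | inn _ => True
  | _ => False

/-- code used to compare levels: `inn k < out k' < root` -/
def le : Lev → Lev → Prop
  | inn j, inn k => j ≤ k
  | inn _, _ => True
  | out _, inn _ => False
  | out j, out k => j ≤ k
  | out _, root => True
  | root, root => True
  | root, _ => False

end Lev

/-- the entries which replace the top entry `l` when the number `N` is read -/
def kidsLev : Lev → ℕ → List Lev
  | .inn 0, _ => []
  | .inn (k + 1), N => List.replicate N (.inn k)
  | .out 0, N => [.inn N]
  | .out (k + 1), N => List.replicate N (.out k)
  | .root, N => [.out N]

/-- the stack after the numbers `r` have been read, `none` if a number is read with empty stack -/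
def runS : List Lev → List ℕ → Option (List Lev)
  | s, [] => some s
  | [], _ :: _ => none
  | l :: s, n :: r => runS (kidsLev l n ++ s) r

/-- the complete runs from the stack `s` -/
def Run (s : List Lev) : Set (List ℕ) := {r | runS s r = some []}

/-- the vertices: complete runs from `[root]`, with the lexicographic order -/
abbrev V : Type := {r : List ℕ // runS [Lev.root] r = some []}

/-- the strictly increasing complete runs from `[root]`, with the lexicographic order -/
abbrev VI : Type := {r : List ℕ // runS [Lev.root] r = some [] ∧ r.Pairwise (· < ·)}

/-- `s'` is a stack which can follow `s` -/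
def StkLt (s' s : List Lev) : Prop := ∃ l t n, s = l :: t ∧ s' = kidsLev l n ++ t

end Pool.Agent.H90.Ord
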