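import Pool.Agent.H90.Ord.WF

/-!
# Runs and the lexicographic order (module EMA)

Complete runs from a fixed stack are prefix-free (`run_prefix`).  Hence for `r < r'` in `Run s` the lists
differ at some place, and appending anything keeps the order.
-/

/-!
# Runs and the lexicographic order (module EMA)

Complete runs from a fixed stack are prefix-free (`run_prefix`).  Hence for `r < r'` in `Run s` the lists
differ at some place, and appending anything keeps the order.
-/

set_option autoImplicit false

namespace Pool.Agent.H90.Ord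

theorem run_nil : Run [] = {[]} := by
  ext r
  rw [Set.mem_singleton_iff]
  constructor
  · intro h
    cases r with
    | nil => rfl
    | cons n r =>
      have h' : runS [] (n :: r) = some [] := h
      rw [runS] at h'
      exact absurd h' (by simp)
  · rintro rfl
    exact rfl

theorem run_cons {l : Lev} {s : List Lev} {r : List ℕ} :
    r ∈ Run (l :: s) ↔ ∃ n r', r = n :: r' ∧ r' ∈ Run (kidsLev l n ++ s) := by
  constructor
  · intro h
    cases r with
    | nil =>
      have h' : runS (l :: s) [] = some [] := h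
      rw [runS] at h'
      exact absurd h' (by simp)
    | cons n r => exact ⟨n, r, rfl, h⟩
  · rintro ⟨n, r', rfl, h⟩
    exact h

theorem run_append {s t : List Lev} {r : List ℕ} :
    r ∈ Run (s ++ t) ↔ ∃ r1 ∈ Run s, ∃ r2 ∈ Run t, r = r1 ++ r2 := by
  constructor
  · intro h
    induction r generalizing s with
    | nil =>
      have h' : runS (s ++ t) [] = some [] := h
      rw [runS] at h'
      have h2 := List.append_eq_nil_iff.1 (Option.some.inj h')
      exact ⟨[], by rw [h2.1]; rfl, [], by rw [h2.2]; rfl, rfl⟩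
    | cons n r ih =>
      cases s with
      | nil => exact ⟨[], rfl, n :: r, h, rfl⟩
      | cons l s =>
        have h' : r ∈ Run ((kidsLev l n ++ s) ++ t) := by
          rw [List.append_assoc]
          exact h
        obtain ⟨r1, h1, r2, h2, rfl⟩ := ih h'
        exact ⟨n :: r1, h1, r2, h2, rfl⟩
  · rintro ⟨r1, h1, r2, h2, rfl⟩
    show runS (s ++ t) (r1 ++ r2) = some []
    rw [runS_append, runS_stack_append h1]
    exact h2

theorem run_prefix {s : List Lev} {r r' : List ℕ} (h : r ∈ Run s) (h' : r' ∈ Run s)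
    (hp : r <+: r') : r = r' := by
  obtain ⟨q, rfl⟩ := hp
  have h1 : runS s (r ++ q) = some [] := h'
  rw [runS_append, show runS s r = some [] from h] at h1
  have h2 : q ∈ Run [] := h1
  rw [run_nil, Set.mem_singleton_iff] at h2
  rw [h2, List.append_nil]

private theorem lt_append_of {r r' : List ℕ} (hlt : r < r') (hp : ¬ r <+: r') (q q' : List ℕ) : r ++ q < r' ++ q' := by
  induction r generalizing r' with
  | nil => exact absurd List.nil_prefix hp
  | cons a r ih =>
    cases r' with
    | nil => exact absurd hlt (by simp)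
    | cons b r' =>
      rw [List.cons_lt_cons_iff] at hlt
      rw [List.cons_append, List.cons_append, List.cons_lt_cons_iff]
      rcases hlt with h1 | ⟨h1, h2⟩
      · exact Or.inl h1
      · refine Or.inr ⟨h1, ih h2 (fun h3 => hp ?_)⟩
        rw [h1, List.prefix_cons_inj]
        exact h3

theorem run_lt_append {s : List Lev} {r r' : List ℕ} (h : r ∈ Run s) (h' : r' ∈ Run s)
    (hlt : r < r') (q q' : List ℕ) : r ++ q < r' ++ q' := by
  refine lt_append_of hlt (fun hp => ?_) q q'
  rw [run_prefix h h' hp] at hlt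
  exact lt_irrefl _ hlt

theorem append_lt_append_left (r : List ℕ) {q q' : List ℕ} : r ++ q < r ++ q' ↔ q < q' := by
  induction r with
  | nil => exact Iff.rfl
  | cons a r ih =>
    rw [List.cons_append, List.cons_append, List.cons_lt_cons_iff, ih]
    simp

theorem run_nonempty (s : List Lev) : (Run s).Nonempty := by
  induction s using stkLt_wf.induction with
  | _ s ih =>
    cases s with
    | nil => exact ⟨[], rfl⟩
    | cons l t =>
      obtain ⟨r, hr⟩ := ih (kidsLev l 0 ++ t) ⟨l, t, 0, rfl, rfl⟩
      exact ⟨0 :: r, hr⟩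

/-- `A` embeds in `B` (strictly monotone map between sets of lists, lexicographic order) -/
def Emb (A B : Set (List ℕ)) : Prop :=
  ∃ g : List ℕ → List ℕ, (∀ r ∈ A, g r ∈ B) ∧ ∀ r ∈ A, ∀ r' ∈ A, r < r' → g r < g r'

theorem Emb.refl (A : Set (List ℕ)) : Emb A A :=
  ⟨id, fun _ h => h, fun _ _ _ _ h => h⟩

theorem Emb.trans {A B C : Set (List ℕ)} (h : Emb A B) (h' : Emb B C) : Emb A C := by
  obtain ⟨g, g1, g2⟩ := h
  obtain ⟨k, k1, k2⟩ := h'
  exact ⟨fun r => k (g r), fun r hr => k1 _ (g1 r hr), fun r hr r' hr' hlt => k2 _ (g1 r hr) _ (g1 r' hr') (g2 r hr r' hr' hlt)⟩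

theorem Emb.mono {A B C : Set (List ℕ)} (h : Emb A B) (h' : B ⊆ C) : Emb A C := by
  obtain ⟨g, g1, g2⟩ := h
  exact ⟨g, fun r hr => h' (g1 r hr), g2⟩

/-- more copies: `Run (replicate j l)` embeds in `Run (replicate N l)` for `j ≤ N` (append a fixed run) -/
theorem emb_replicate (l : Lev) {j N : ℕ} (h : j ≤ N) :
    Emb (Run (List.replicate j l)) (Run (List.replicate N l)) := by
  obtain ⟨d, rfl⟩ := Nat.exists_eq_add_of_le h
  obtain ⟨r0, hr0⟩ := run_nonempty (List.replicate d l)
  refine ⟨fun r => r ++ r0, fun r hr => ?_, fun r hr r' hr' hlt => run_lt_append hr hr' hlt r0 r0⟩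
  rw [List.replicate_add]
  exact run_append.2 ⟨r, hr, r0, hr0, rfl⟩

/-- `Run [inn j]` embeds in `Run [inn N]` for `j ≤ N` (one step: `r` goes to `1 :: r`) -/
theorem emb_inn {j N : ℕ} (h : j ≤ N) : Emb (Run [Lev.inn j]) (Run [Lev.inn N]) := by
  induction N, h using Nat.le_induction with
  | base => exact Emb.refl _
  | succ N _ ih =>
    refine ih.trans ⟨fun r => 1 :: r, fun r hr => ?_, fun r _ r' _ hlt => ?_⟩
    · exact run_cons.2 ⟨1, r, rfl, hr⟩
    · exact (append_lt_append_left [1]).2 hlt

end Pool.Agent.H90.Ord
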