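import Pool.Agent.H90.Ord.EMA

/-!
# Indecomposability (module EMB)

`Indec A`: for every finite colouring some colour class contains a copy of `A`.
`indec_append`: let `c` be a colouring of `Run (s ++ t)`.  For `r1 ∈ Run s` the colouring `r2 ↦ c (r1 ++ r2)` of
`Run t` has a colour `i(r1)` whose class contains a copy of `Run t` (map `g_{r1}`).  The colouring `i` of `Run s`
has a colour `i0` with a copy `g` of `Run s` in its class.  The map `r1 ++ r2 ↦ g r1 ++ g_{g r1} r2` is the copy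
(to define it on `Run (s ++ t)` choose the decomposition; it is unique).
`indec_single`: induction on the level.  For `inn (k+1)`: `Run [inn (k+1)]` is the disjoint union of the
`N :: Run (replicate N (inn k))`, each of these is indecomposable (`indec_append`, induction on `N`), so for
every `N` there is a colour `c(N)`; some colour is `c(N)` for infinitely many `N`, `N_0 < N_1 < ...` with
`N_j ≥ j`; embed `j :: Run (replicate j (inn k))` into `N_j :: Run (replicate N_j (inn k))` by `emb_replicate`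
followed by the monochromatic copy.  `out (k+1)` and `out 0` (with `emb_inn`) in the same way.
-/

set_option autoImplicit false

namespace Pool.Agent.H90.Ord

/-- every finite colouring has a monochromatic copy of the whole set -/
def Indec (A : Set (List ℕ)) : Prop :=
  ∀ (k : ℕ) (c : List ℕ → ℕ), (∀ r ∈ A, c r < k) → ∃ i < k, Emb A {r | r ∈ A ∧ c r = i}

theorem indec_nil : Indec (Run []) := by
  intro k c hc
  have h0 : ([] : List ℕ) ∈ Run [] := by rw [run_nil]; rfl
  refine ⟨c [], hc [] h0, fun r => r, ?_, fun r _ r' _ h => h⟩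
  intro r hr
  refine ⟨hr, ?_⟩
  rw [run_nil] at hr
  rw [Set.mem_singleton_iff.1 hr]

/-- the decomposition of a run is unique -/
theorem run_append_uniq {s : List Lev} {r1 r2 q1 q2 : List ℕ} (h1 : r1 ∈ Run s) (h2 : q1 ∈ Run s)
    (h : r1 ++ r2 = q1 ++ q2) : r1 = q1 ∧ r2 = q2 := by
  have ha : r1 <+: r1 ++ r2 := List.prefix_append _ _
  have hb : q1 <+: r1 ++ r2 := by rw [h]; exact List.prefix_append _ _
  have he : r1 = q1 := by
    rcases List.prefix_or_prefix_of_prefix ha hb with hp | hp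
    · exact run_prefix h1 h2 hp
    · exact (run_prefix h2 h1 hp).symm
  subst he
  exact ⟨rfl, List.append_cancel_left h⟩

open Classical in
theorem indec_append {s t : List Lev} (hs : Indec (Run s)) (ht : Indec (Run t)) :
    Indec (Run (s ++ t)) := by
  intro k c hc
  have h1 : ∀ r1 : List ℕ, ∃ (i : ℕ) (g : List ℕ → List ℕ), r1 ∈ Run s → i < k ∧
      (∀ r ∈ Run t, g r ∈ {r | r ∈ Run t ∧ c (r1 ++ r) = i}) ∧
      ∀ r ∈ Run t, ∀ r' ∈ Run t, r < r' → g r < g r' := by
    intro r1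
    by_cases h : r1 ∈ Run s
    · obtain ⟨i, hi, g, hg1, hg2⟩ := ht k (fun r => c (r1 ++ r))
        (fun r hr => hc _ (run_append.2 ⟨r1, h, r, hr, rfl⟩))
      exact ⟨i, g, fun _ => ⟨hi, hg1, hg2⟩⟩
    · exact ⟨0, fun r => r, fun hh => absurd hh h⟩
  choose ii gg hgg using h1
  obtain ⟨i0, hi0, g0, hg1, hg2⟩ := hs k ii (fun r hr => (hgg r hr).1)
  refine ⟨i0, hi0, ?_⟩
  obtain ⟨g, hg⟩ : ∃ g : List ℕ → List ℕ, ∀ r1 ∈ Run s, ∀ r2 ∈ Run t,
      g (r1 ++ r2) = g0 r1 ++ gg (g0 r1) r2 := by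
    refine ⟨fun r => if h : ∃ p : List ℕ × List ℕ, p.1 ∈ Run s ∧ p.2 ∈ Run t ∧ r = p.1 ++ p.2 then
      g0 (Classical.choose h).1 ++ gg (g0 (Classical.choose h).1) (Classical.choose h).2 else [], ?_⟩
    intro r1 hr1 r2 hr2
    have h : ∃ p : List ℕ × List ℕ, p.1 ∈ Run s ∧ p.2 ∈ Run t ∧ r1 ++ r2 = p.1 ++ p.2 :=
      ⟨(r1, r2), hr1, hr2, rfl⟩
    show (if h : ∃ p : List ℕ × List ℕ, p.1 ∈ Run s ∧ p.2 ∈ Run t ∧ r1 ++ r2 = p.1 ++ p.2 then
      g0 (Classical.choose h).1 ++ gg (g0 (Classical.choose h).1) (Classical.choose h).2 else []) = _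
    rw [dif_pos h]
    obtain ⟨ha, hb, hcc⟩ := Classical.choose_spec h
    obtain ⟨e1, e2⟩ := run_append_uniq hr1 ha hcc
    rw [← e1, ← e2]
  refine ⟨g, ?_, ?_⟩
  · intro r hr
    obtain ⟨r1, hr1, r2, hr2, rfl⟩ := run_append.1 hr
    rw [hg r1 hr1 r2 hr2]
    obtain ⟨ha, hb⟩ := hg1 r1 hr1
    obtain ⟨-, hd, -⟩ := hgg (g0 r1) ha
    obtain ⟨he, hf⟩ := hd r2 hr2
    exact ⟨run_append.2 ⟨_, ha, _, he, rfl⟩, hf.trans hb⟩
  · intro r hr r' hr' hlt
    obtain ⟨r1, hr1, r2, hr2, rfl⟩ := run_append.1 hr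
    obtain ⟨q1, hq1, q2, hq2, rfl⟩ := run_append.1 hr'
    rw [hg r1 hr1 r2 hr2, hg q1 hq1 q2 hq2]
    obtain ⟨ha, hb⟩ := hg1 r1 hr1
    obtain ⟨ha', hb'⟩ := hg1 q1 hq1
    obtain ⟨-, hd, hd2⟩ := hgg (g0 r1) ha
    rcases lt_trichotomy r1 q1 with h | h | h
    · exact run_lt_append ha ha' (hg2 r1 hr1 q1 hq1 h) _ _
    · subst h
      rw [append_lt_append_left] at hlt ⊢
      exact hd2 r2 hr2 q2 hq2 hlt
    · exact absurd (run_lt_append hq1 hr1 h q2 r2) (lt_asymm hlt)

theorem indec_replicate {l : Lev} (h : Indec (Run [l])) (N : ℕ) :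
    Indec (Run (List.replicate N l)) := by
  induction N with
  | zero => exact indec_nil
  | succ N ih =>
    have h1 := indec_append h ih
    exact h1

theorem indec_of_kids (l : Lev) (h1 : ∀ N, Indec (Run (kidsLev l N)))
    (h2 : ∀ j N, j ≤ N → Emb (Run (kidsLev l j)) (Run (kidsLev l N))) : Indec (Run [l]) := by
  intro k c hc
  have hmem : ∀ N, ∀ r ∈ Run (kidsLev l N), N :: r ∈ Run [l] := by
    intro N r hr
    rw [run_cons]
    exact ⟨N, r, rfl, by rw [List.append_nil]; exact hr⟩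
  have h3 : ∀ N, ∃ i : Fin k, Emb (Run (kidsLev l N))
      {r | r ∈ Run (kidsLev l N) ∧ c (N :: r) = i} := by
    intro N
    obtain ⟨i, hi, he⟩ := h1 N k (fun r => c (N :: r)) (fun r hr => hc _ (hmem N r hr))
    exact ⟨⟨i, hi⟩, he⟩
  choose ii hii using h3
  obtain ⟨i, hi⟩ := Finite.exists_infinite_fiber ii
  have hinf : Set.Infinite {N | ii N = i} := Set.infinite_coe_iff.1 hi
  obtain ⟨φ, hφ⟩ : ∃ φ : ℕ → ℕ, φ = Nat.nth (fun N => ii N = i) := ⟨_, rfl⟩
  have hφm : StrictMono φ := by rw [hφ]; exact Nat.nth_strictMono hinf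
  have hφi : ∀ n, ii (φ n) = i := by
    intro n
    rw [hφ]
    exact Nat.nth_mem_of_infinite hinf n
  have h4 : ∀ n, Emb (Run (kidsLev l n)) {r | r ∈ Run (kidsLev l (φ n)) ∧ c (φ n :: r) = i} := by
    intro n
    have h5 := hii (φ n)
    rw [hφi n] at h5
    exact (h2 n (φ n) (hφm.id_le n)).trans h5
  choose g hg1 hg2 using h4
  refine ⟨i, i.2, fun r => match r with
    | [] => []
    | n :: r => φ n :: g n r, ?_, ?_⟩
  · intro r hr
    rw [run_cons] at hr
    obtain ⟨n, r', rfl, hr'⟩ := hr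
    rw [List.append_nil] at hr'
    obtain ⟨ha, hb⟩ := hg1 n r' hr'
    exact ⟨hmem _ _ ha, hb⟩
  · intro r hr r' hr' hlt
    rw [run_cons] at hr hr'
    obtain ⟨n, q, rfl, hq⟩ := hr
    obtain ⟨m, q', rfl, hq'⟩ := hr'
    rw [List.append_nil] at hq hq'
    show φ n :: g n q < φ m :: g m q'
    rw [List.cons_lt_cons_iff] at hlt ⊢
    rcases hlt with h | ⟨h, h'⟩
    · exact Or.inl (hφm h)
    · subst h
      exact Or.inr ⟨rfl, hg2 n q hq q' hq' h'⟩

theorem emb_out {j N : ℕ} (h : j ≤ N) : Emb (Run [Lev.out j]) (Run [Lev.out N]) := by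
  induction N, h using Nat.le_induction with
  | base => exact Emb.refl _
  | succ N _ ih =>
    refine ih.trans ⟨fun r => 1 :: r, ?_, ?_⟩
    · intro r hr
      rw [run_cons]
      exact ⟨1, r, rfl, hr⟩
    · intro r _ r' _ hlt
      rw [List.cons_lt_cons_iff]
      exact Or.inr ⟨rfl, hlt⟩

theorem indec_single (l : Lev) : Indec (Run [l]) := by
  have hinn : ∀ k, Indec (Run [Lev.inn k]) := by
    intro k
    induction k with
    | zero => exact indec_of_kids _ (fun _ => indec_nil) (fun _ _ _ => Emb.refl _)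
    | succ k ih =>
      exact indec_of_kids _ (fun N => indec_replicate ih N) (fun j N h => emb_replicate _ h)
  have hout : ∀ k, Indec (Run [Lev.out k]) := by
    intro k
    induction k with
    | zero => exact indec_of_kids _ (fun N => hinn N) (fun j N h => emb_inn h)
    | succ k ih =>
      exact indec_of_kids _ (fun N => indec_replicate ih N) (fun j N h => emb_replicate _ h)
  cases l with
  | inn k => exact hinn k
  | out k => exact hout k
  | root => exact indec_of_kids _ (fun N => hout N) (fun j N h => emb_out h)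

open Classical in
/-- finitely many sets without a copy of `Run [l]` do not cover `Run [l]` -/
theorem indec_cover (l : Lev) (F : List (Set (List ℕ)))
    (hF : ∀ S ∈ F, ¬ Emb (Run [l]) (S ∩ Run [l])) : ∃ r ∈ Run [l], ∀ S ∈ F, r ∉ S := by
  by_contra hcon
  have h1 : ∀ r ∈ Run [l], ∃ i, ∃ hi : i < F.length, r ∈ F[i] := by
    intro r hr
    by_contra h
    apply hcon
    refine ⟨r, hr, fun S hS hrS => h ?_⟩
    obtain ⟨i, hi, he⟩ := List.getElem_of_mem hS
    exact ⟨i, hi, by rw [he]; exact hrS⟩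
  obtain ⟨c, hcdef⟩ : ∃ c : List ℕ → ℕ, ∀ r, ∀ h : (∃ i, ∃ hi : i < F.length, r ∈ F[i]),
      c r = Classical.choose h := by
    refine ⟨fun r => if h : (∃ i, ∃ hi : i < F.length, r ∈ F[i]) then Classical.choose h else 0, ?_⟩
    intro r h
    show (if h : (∃ i, ∃ hi : i < F.length, r ∈ F[i]) then Classical.choose h else 0) = _
    rw [dif_pos h]
  have h2 : ∀ r ∈ Run [l], ∃ hi : c r < F.length, r ∈ F[c r] := by
    intro r hr
    have h := h1 r hr
    have h3 := Classical.choose_spec h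
    rw [← hcdef r h] at h3
    exact h3
  obtain ⟨i, hi, he⟩ := indec_single l F.length c (fun r hr => (h2 r hr).1)
  refine hF F[i] (List.getElem_mem hi) (he.mono ?_)
  intro r hr
  obtain ⟨hr1, hr2⟩ := hr
  obtain ⟨hj, hj2⟩ := h2 r hr1
  subst hr2
  exact ⟨hj2, hr1⟩

end Pool.Agent.H90.Ord
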