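import Pool.Agent.H90.Ord.EMB

/-!
# One block (module EMC)

`adj` is a symmetric relation without triangles on lists.  Section 2.4 (ii) of proofs 343 with
`P = Run [out n]`, and the map `(r1, r2) ↦ (n+1) :: 2 :: (r1 ++ r2)`; `2 :: (r1 ++ r2) ∈ Run [out (n+1)]` for
`r1, r2 ∈ P`.  Case 1: there are a list `v` and `r1 ∈ P` such that `{r2 ∈ P | adj v ((n+1) :: 2 :: (r1 ++ r2))}`
contains a copy of `P` (map `h`): take `g r = 2 :: (r1 ++ h r)`; two values are not adjacent, because both are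
adjacent to `v`.  Case 2 otherwise: enumerate `P` (lists of numbers are encodable) and choose by strong
recursion for every `r1 ∈ P` an `r2 = q r1 ∈ P` such that `(n+1) :: 2 :: (r1 ++ q r1)` is not adjacent to the
vertices `(n+1) :: 2 :: (r ++ q r)` for all `r` with smaller code (`indec_cover` with the finitely many sets
`{r2 | adj v ((n+1) :: 2 :: (r1 ++ r2))}`); `g r = 2 :: (r ++ q r)`.
-/

set_option autoImplicit false

namespace Pool.Agent.H90.Ord

/-- recursive choice along the natural numbers -/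
private theorem emc_choice {α : Type} (P : ∀ m : ℕ, (∀ k < m, α) → α → Prop)
    (h : ∀ m f, ∃ a, P m f a) : ∃ f : ℕ → α, ∀ m, P m (fun k _ => f k) (f m) := by
  classical
  obtain ⟨f, hf⟩ : ∃ f : ℕ → α, f = Nat.lt_wfRel.wf.fix
      (fun m ih => (h m fun k hk => ih k hk).choose) := ⟨_, rfl⟩
  refine ⟨f, fun m => ?_⟩
  have h1 : f m = (h m fun k _ => f k).choose := by
    rw [hf, WellFounded.fix_eq]
  rw [h1]
  exact (h m fun k _ => f k).choose_spec

private theorem emc_mem {n : ℕ} {r1 r2 : List ℕ} (h1 : r1 ∈ Run [Lev.out n])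
    (h2 : r2 ∈ Run [Lev.out n]) : 2 :: (r1 ++ r2) ∈ Run [Lev.out (n + 1)] := by
  rw [run_cons]
  refine ⟨2, r1 ++ r2, rfl, ?_⟩
  have h : kidsLev (Lev.out (n + 1)) 2 ++ [] = [Lev.out n] ++ [Lev.out n] := rfl
  rw [h, run_append]
  exact ⟨r1, h1, r2, h2, rfl⟩

private theorem emc_cons {a : ℕ} {r r' : List ℕ} (h : r < r') : a :: r < a :: r' :=
  List.cons_lt_cons_iff.2 (Or.inr ⟨rfl, h⟩)

theorem em_block (adj : List ℕ → List ℕ → Prop) (hs : ∀ x y, adj x y → adj y x)
    (hi : ∀ x, ¬ adj x x) (ht : ∀ x y z, adj x y → adj y z → adj x z → False) (n : ℕ) :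
    ∃ g : List ℕ → List ℕ, (∀ r ∈ Run [Lev.out n], g r ∈ Run [Lev.out (n + 1)]) ∧
      (∀ r ∈ Run [Lev.out n], ∀ r' ∈ Run [Lev.out n], r < r' → g r < g r') ∧
      ∀ r ∈ Run [Lev.out n], ∀ r' ∈ Run [Lev.out n],
        ¬ adj ((n + 1) :: g r) ((n + 1) :: g r') := by
  classical
  by_cases hcase : ∃ (v r1 : List ℕ), r1 ∈ Run [Lev.out n] ∧
      Emb (Run [Lev.out n]) ({r2 | adj v ((n + 1) :: 2 :: (r1 ++ r2))} ∩ Run [Lev.out n])
  · obtain ⟨v, r1, hr1, h, hh1, hh2⟩ := hcase
    refine ⟨fun r => 2 :: (r1 ++ h r), fun r hr => emc_mem hr1 (hh1 r hr).2,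
      fun r hr r' hr' hlt => emc_cons ((append_lt_append_left r1).2 (hh2 r hr r' hr' hlt)),
      fun r hr r' hr' hadj => ?_⟩
    exact ht v _ _ (hh1 r hr).1 hadj (hh1 r' hr').1
  · have hno : ∀ (v r1 : List ℕ), r1 ∈ Run [Lev.out n] →
        ¬ Emb (Run [Lev.out n]) ({r2 | adj v ((n + 1) :: 2 :: (r1 ++ r2))} ∩ Run [Lev.out n]) :=
      fun v r1 h1 h2 => hcase ⟨v, r1, h1, h2⟩
    obtain ⟨dd, hdd⟩ : ∃ dd : ℕ → List ℕ, ∀ r, dd (Encodable.encode r) = r :=
      ⟨fun k => ((Encodable.decode k : Option (List ℕ))).getD [], fun r => by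
        simp only [Encodable.encodek, Option.getD_some]⟩
    obtain ⟨f, hf⟩ := emc_choice (α := List ℕ) (fun m f a => dd m ∈ Run [Lev.out n] →
      a ∈ Run [Lev.out n] ∧ ∀ k (hk : k < m),
        ¬ adj ((n + 1) :: 2 :: (dd k ++ f k hk)) ((n + 1) :: 2 :: (dd m ++ a))) (by
      intro m f
      by_cases hm : dd m ∈ Run [Lev.out n]
      · obtain ⟨r, hr, hr'⟩ := indec_cover (Lev.out n) ((List.finRange m).map fun (k : Fin m) =>
          {r2 | adj ((n + 1) :: 2 :: (dd k ++ f k k.2)) ((n + 1) :: 2 :: (dd m ++ r2))}) (by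
          intro S hS
          rw [List.mem_map] at hS
          obtain ⟨k, -, rfl⟩ := hS
          exact hno _ _ hm)
        refine ⟨r, fun _ => ⟨hr, fun k hk hadj => ?_⟩⟩
        refine hr' _ (List.mem_map.2 ⟨⟨k, hk⟩, List.mem_finRange _, rfl⟩) ?_
        exact hadj
      · exact ⟨[], fun h => absurd h hm⟩)
    have hq : ∀ r ∈ Run [Lev.out n], f (Encodable.encode r) ∈ Run [Lev.out n] := by
      intro r hr
      exact (hf (Encodable.encode r) (by rw [hdd]; exact hr)).1
    have hlt : ∀ r ∈ Run [Lev.out n], ∀ r' ∈ Run [Lev.out n],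
        Encodable.encode r < Encodable.encode r' →
        ¬ adj ((n + 1) :: 2 :: (r ++ f (Encodable.encode r)))
          ((n + 1) :: 2 :: (r' ++ f (Encodable.encode r'))) := by
      intro r hr r' hr' hlt
      have h := (hf (Encodable.encode r') (by rw [hdd]; exact hr')).2 (Encodable.encode r) hlt
      rwa [hdd, hdd] at h
    refine ⟨fun r => 2 :: (r ++ f (Encodable.encode r)), fun r hr => emc_mem hr (hq r hr),
      fun r hr r' hr' hlt' => emc_cons (run_lt_append hr hr' hlt' _ _),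
      fun r hr r' hr' hadj => ?_⟩
    rcases lt_trichotomy (Encodable.encode r) (Encodable.encode r') with h | h | h
    · exact hlt r hr r' hr' h hadj
    · have h' : r = r' := Encodable.encode_injective h
      subst h'
      exact hi _ hadj
    · exact hlt r' hr' r hr h (hs _ _ hadj)

end Pool.Agent.H90.Ord
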