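import Pool.Agent.H90.Ord.FDef

/-!
# FCOD: the numbering of the nodes, dependent choice

`code_surj`: strong induction, `k + 1 = Nat.pair a b + 1` (`Nat.pair_unpair`, `Nat.unpair_left_le`).  `code_inj`: induction, `Nat.pair_eq_pair`.  `code_tail`: `Nat.left_le_pair`.  `code_mono`: `Nat.pair_lt_pair_right`.
`code_header`: induction on the list: `code [a] ≤ code u` if `a` is the last element of `u` (`code_tail`).
`stkOf_cons`: `runS_append` for `u.reverse ++ [n]`; `runS (l :: τ) [n] = some (kidsLev l n ++ τ)`, `runS [] [n] = none`.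
`dcf`: build `g : ℕ → (ℕ → α)` with `P K (g K)` and `g (K+1) = Function.update (g K) K a` (recursion on the subtype), `f i = g (i+1) i`; `g K i = g (i+1) i` for `i < K` (induction on `K`), so `P K f` by `hloc`.
-/

set_option autoImplicit false

namespace Pool.Agent.H90.Ord

theorem code_surj (k : ℕ) : ∃ u, code u = k := by
  induction k using Nat.strong_induction_on with
  | _ k ih =>
    cases k with
    | zero => exact ⟨[], rfl⟩
    | succ k =>
      obtain ⟨u, hu⟩ := ih (Nat.unpair k).1 (Nat.lt_succ_of_le (Nat.unpair_left_le k))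
      refine ⟨(Nat.unpair k).2 :: u, ?_⟩
      show Nat.pair (code u) (Nat.unpair k).2 + 1 = k + 1
      rw [hu, Nat.pair_unpair]

theorem code_inj {u v : List ℕ} (h : code u = code v) : u = v := by
  induction u generalizing v with
  | nil =>
    cases v with
    | nil => rfl
    | cons m v =>
      have h' : 0 = Nat.pair (code v) m + 1 := h
      omega
  | cons n u ih =>
    cases v with
    | nil =>
      have h' : Nat.pair (code u) n + 1 = 0 := h
      omega
    | cons m v =>
      have h' : Nat.pair (code u) n + 1 = Nat.pair (code v) m + 1 := h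
      have h2 := Nat.pair_eq_pair.1 (Nat.succ.inj h')
      rw [ih h2.1, h2.2]

theorem code_tail (n : ℕ) (u : List ℕ) : code u < code (n :: u) := by
  show code u < Nat.pair (code u) n + 1
  exact Nat.lt_succ_of_le (Nat.left_le_pair _ _)

theorem code_mono {n n' : ℕ} (h : n < n') (u : List ℕ) : code (n :: u) < code (n' :: u) := by
  show Nat.pair (code u) n + 1 < Nat.pair (code u) n' + 1
  exact Nat.succ_lt_succ (Nat.pair_lt_pair_right _ h)

theorem code_header {u : List ℕ} {a n : ℕ} (h : u.getLast? = some a) (hn : n < a) : code [n] < code u := by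
  induction u with
  | nil => exact absurd h (by simp)
  | cons x u ih =>
    cases u with
    | nil =>
      have hx : x = a := by simpa using h
      subst hx
      exact code_mono hn []
    | cons y t =>
      rw [List.getLast?_cons_cons] at h
      exact (ih h).trans (code_tail _ _)

theorem stkOf_cons {n : ℕ} {u : List ℕ} {σ : List Lev} (h : stkOf (n :: u) = some σ) :
    ∃ l τ, stkOf u = some (l :: τ) ∧ σ = kidsLev l n ++ τ := by
  unfold stkOf at h ⊢
  rw [List.reverse_cons, runS_append] at h
  cases h1 : runS [Lev.root] u.reverse with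
  | none =>
    rw [h1] at h
    exact absurd h (by simp)
  | some s =>
    rw [h1] at h
    cases s with
    | nil =>
      have h2 : runS [] [n] = some σ := h
      rw [runS] at h2
      exact absurd h2 (by simp)
    | cons l τ =>
      have h2 : runS (l :: τ) [n] = some σ := h
      rw [runS, runS] at h2
      exact ⟨l, τ, rfl, (Option.some.inj h2).symm⟩

theorem dcf {α : Type} (P : ℕ → (ℕ → α) → Prop)
    (hloc : ∀ K f g, (∀ i < K, f i = g i) → P K f → P K g) (h0 : ∃ f, P 0 f)
    (hs : ∀ K f, P K f → ∃ a, P (K + 1) (Function.update f K a)) : ∃ f, ∀ K, P K f := by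
  obtain ⟨f0, hf0⟩ := h0
  choose A hA using hs
  let G : (K : ℕ) → {f : ℕ → α // P K f} := fun K =>
    Nat.rec (motive := fun K => {f : ℕ → α // P K f}) ⟨f0, hf0⟩
      (fun K g => ⟨Function.update g.1 K (A K g.1 g.2), hA K g.1 g.2⟩) K
  have hG : ∀ K, (G (K + 1)).1 = Function.update (G K).1 K (A K (G K).1 (G K).2) := fun K => rfl
  have hc : ∀ K, ∀ i < K, (G K).1 i = (G (i + 1)).1 i := by
    intro K
    induction K with
    | zero =>
      intro i hi
      exact absurd hi (Nat.not_lt_zero _)
    | succ K ih =>
      intro i hi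
      rcases Nat.lt_succ_iff_lt_or_eq.1 hi with h | h
      · rw [hG, Function.update_of_ne (Nat.ne_of_lt h)]
        exact ih i h
      · rw [h]
  exact ⟨fun i => (G (i + 1)).1 i, fun K => hloc K (G K).1 _ (hc K) (G K).2⟩

end Pool.Agent.H90.Ord
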