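import Pool.Agent.H90.Ord.FStp

/-!
# FCOP: steps and picks keep the copy relation

`ok_step`: `s` is running, so `s.stk = (lv, mk) :: t`, `s.step l = ⟨s.real ++ [N], kids lv mk s.reg H N ++ t, s.reg, false⟩` with `H = l.dropLast`, `N = l.getLastD 0`, `l = H ++ [N]` (`List.dropLast_append_getLast?`; `l ≠ []`).
Copy relation, first alternative of `CopyOf` (not picked): cases on `mk`: `none`: `filt_kids_none`, nothing changes (the head of `filt s.stk` is the head of `filt t`).  `U`: `filt s.stk = (lv, U) :: filt t`, so the second alternative of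
`RepR` is impossible; `lv ≠ root` from `RepF` (cases), `lv ≠ inn 0` because otherwise `s` is nonrunning; `stp_U`.  `E o L`: `stp_E`.  `B o L`: the first alternative of `RepR` is impossible (no rule of `RepF`), `stp_B`.
Second alternative: `s` is nonrunning, impossible.  Third: `kids (inn 0) U .. = []`.  Fourth: `stp_root`.
Run: `runS_append`, `fkids_fst`: `runS (lv :: t') [N] = some (kidsLev lv N ++ t')`.  Increasing: the new number is larger than `m` (`Fresh.ge`).
`ok_pick`: `σ ≠ []`: `s.stk ≠ []` (`nonrun_nil`), so `s` is not picked and open.  `RepF ((lv, U) :: filt t) (l :: τ)`: `unit`: `l = inn 0`, `kidsLev (inn 0) n = []`; `trig`: `l = levOf o L`, right alternative of `RepR`.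
The open top `(root, U)` with the first alternative of `CopyOf` is impossible (`RepF` demands `lv ≠ root`).
`nonrun_nil`: `RepF [] σ` gives `σ = []`; an open top gives `σ ≠ []`.
-/

set_option autoImplicit false

namespace Pool.Agent.H90.Ord

private theorem fc_filt_cons (l : Lev) {m : Mark} (hm : m ≠ .none) (t : List (Lev × Mark)) :
    filt ((l, m) :: t) = (l, m) :: filt t := by
  unfold filt
  rw [List.filter_cons_of_pos (by simpa using hm)]

private theorem fc_filt_none (l : Lev) (t : List (Lev × Mark)) :
    filt ((l, .none) :: t) = filt t := by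
  unfold filt
  rw [List.filter_cons_of_neg (by simp)]

private theorem fc_runS_nil (s : List Lev) : runS s [] = some s := by
  cases s <;> rfl

private theorem fc_nil {σ : List Lev} (h : RepF [] σ) : σ = [] := by
  cases h
  rfl

private theorem fc_U_ne {l : Lev} {x : List (Lev × Mark)} {σ : List Lev}
    (h : RepF ((l, .U) :: x) σ) : σ ≠ [] ∧ l ≠ .root := by
  cases h with
  | unit hl h => exact ⟨by simp, hl⟩
  | trig hl hg h => exact ⟨by simp, hl⟩

private theorem fc_B {l : Lev} {o : Bool} {L : List ℕ} {x : List (Lev × Mark)} {σ : List Lev}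
    (h : RepF ((l, .B o L) :: x) σ) : False := by
  cases h

theorem ok_start : Ok start [.root] := by
  refine ⟨Or.inr (Or.inl ⟨rfl, rfl, rfl⟩), rfl, List.Pairwise.nil⟩

theorem fstart_nonrun : start.Nonrun := by
  exact Or.inr ⟨rfl, [], Or.inr rfl⟩

theorem nonrun_nil {s : St} {σ : List Lev} (h : CopyOf s σ) (hs : s.Nonrun) : σ = [] ↔ s.stk = [] := by
  obtain ⟨real, stk, reg, pk⟩ := s
  change stk = [] ∨ (pk = false ∧ ∃ t, stk = (.inn 0, .U) :: t ∨ stk = (.root, .U) :: t) at hs
  change σ = [] ↔ stk = []
  rcases hs with hs | ⟨hpk, t, hs⟩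
  · refine iff_of_true ?_ hs
    rcases h with ⟨-, h⟩ | ⟨-, h, -⟩ | ⟨-, t, h, -⟩ | ⟨-, h, -⟩
    · change RepR reg stk σ at h
      rw [hs] at h
      rcases h with h | ⟨l, o, L, s', σ', h, -⟩
      · exact fc_nil h
      · exact absurd h (by simp [filt])
    · change stk = _ at h
      rw [hs] at h
      exact absurd h (by simp)
    · change stk = _ at h
      rw [hs] at h
      exact absurd h (by simp)
    · change stk = _ at h
      rw [hs] at h
      exact absurd h (by simp)
  · have hne : stk ≠ [] := by
      rcases hs with hs | hs <;> rw [hs] <;> simp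
    refine iff_of_false ?_ hne
    rcases h with ⟨-, h⟩ | ⟨-, -, h⟩ | ⟨h, -⟩ | ⟨h, -⟩
    · change RepR reg stk σ at h
      have hf : ∃ l x, filt stk = (l, Mark.U) :: x := by
        rcases hs with hs | hs
        · exact ⟨_, _, by rw [hs]; exact fc_filt_cons _ (by simp) t⟩
        · exact ⟨_, _, by rw [hs]; exact fc_filt_cons _ (by simp) t⟩
      obtain ⟨l, x, hf⟩ := hf
      rcases h with h | ⟨l', o, L, s', σ', h, -⟩
      · rw [hf] at h
        exact (fc_U_ne h).1
      · rw [hf] at h
        exact absurd h (by simp)
    · rw [h]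
      simp
    · change pk = true at h
      rw [hpk] at h
      exact absurd h (by simp)
    · change pk = true at h
      rw [hpk] at h
      exact absurd h (by simp)

theorem ok_pick {s : St} {l : Lev} {τ : List Lev} (h : Ok s (l :: τ)) (hs : s.Nonrun) (n : ℕ) :
    Ok (s.pick n) (kidsLev l n ++ τ) := by
  have hne : s.stk ≠ [] := fun h0 => absurd ((nonrun_nil h.copy hs).2 h0) (by simp)
  refine ⟨?_, h.run, h.inc⟩
  have hcopy := h.copy
  obtain ⟨real, stk, reg, pk⟩ := s
  change stk ≠ [] at hne
  change stk = [] ∨ (pk = false ∧ ∃ t, stk = (.inn 0, .U) :: t ∨ stk = (.root, .U) :: t) at hs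
  rcases hs with hs | ⟨hpk, t, hs⟩
  · exact absurd hs hne
  · rcases hcopy with ⟨-, h1⟩ | ⟨-, h1, h2⟩ | ⟨h1, -⟩ | ⟨h1, -⟩
    · change RepR reg stk (l :: τ) at h1
      rcases hs with hs | hs
      · have hf : filt stk = (.inn 0, .U) :: filt t := by
          rw [hs]
          exact fc_filt_cons _ (by simp) t
        rcases h1 with h1 | ⟨l', o, L, s', σ', h1, -⟩
        · rw [hf] at h1
          refine Or.inr (Or.inr (Or.inl ⟨rfl, t, hs, ?_⟩))
          change RepR n t (kidsLev l n ++ τ)
          generalize hft : filt t = ft at h1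
          cases h1 with
          | unit hl h2 =>
            refine Or.inl ?_
            rw [hft]
            exact h2
          | trig hl hg h2 => exact Or.inr ⟨_, _, _, _, _, hft, hg, h2, rfl⟩
        · rw [hf] at h1
          exact absurd h1 (by simp)
      · have hf : filt stk = (.root, .U) :: filt t := by
          rw [hs]
          exact fc_filt_cons _ (by simp) t
        rcases h1 with h1 | ⟨l', o, L, s', σ', h1, -⟩
        · rw [hf] at h1
          exact absurd rfl (fc_U_ne h1).2
        · rw [hf] at h1
          exact absurd h1 (by simp)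
    · change stk = [(.root, .U)] at h1
      rw [List.cons.injEq] at h2
      obtain ⟨h3, h4⟩ := h2
      refine Or.inr (Or.inr (Or.inr ⟨rfl, h1, ?_⟩))
      rw [h3, h4, List.append_nil]
      rfl
    · change pk = true at h1
      rw [hpk] at h1
      exact absurd h1 (by simp)
    · change pk = true at h1
      rw [hpk] at h1
      exact absurd h1 (by simp)

theorem fstep_real {s : St} (hs : ¬ s.Nonrun) (l : List ℕ) : (s.step l).real = s.real ++ [l.getLastD 0] := by
  obtain ⟨real, stk, reg, pk⟩ := s
  cases stk with
  | nil => exact absurd (Or.inl rfl) hs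
  | cons e t => rfl

theorem step_lt {s : St} (hs : ¬ s.Nonrun) (l : List ℕ) :
    StkLt ((s.step l).stk.map Prod.fst) (s.stk.map Prod.fst) := by
  obtain ⟨real, stk, reg, pk⟩ := s
  cases stk with
  | nil => exact absurd (Or.inl rfl) hs
  | cons e t =>
    obtain ⟨lv, mk⟩ := e
    refine ⟨lv, t.map Prod.fst, l.getLastD 0, rfl, ?_⟩
    change (kids lv mk reg l.dropLast (l.getLastD 0) ++ t).map Prod.fst = _
    rw [List.map_append, fkids_fst]

theorem ok_step {s : St} {σ : List Lev} (h : Ok s σ) (hs : ¬ s.Nonrun) {m : ℕ} (hm : ∀ x ∈ s.real, x ≤ m)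
    {l : List ℕ} (hl : l.length = s.need + 1) (hf : Fresh m l) : Ok (s.step l) σ := by
  obtain ⟨real, stk, reg, pk⟩ := s
  cases stk with
  | nil => exact absurd (Or.inl rfl) hs
  | cons e t =>
    obtain ⟨lv, mk⟩ := e
    change l.length = need lv mk reg + 1 at hl
    have hlne : l ≠ [] := by
      intro h0
      rw [h0] at hl
      simp at hl
    obtain ⟨H, N, rfl⟩ : ∃ H N, l = H ++ [N] :=
      ⟨l.dropLast, l.getLast hlne, (List.dropLast_append_getLast hlne).symm⟩
    have hH : H.length = need lv mk reg := by
      rw [List.length_append, List.length_singleton] at hl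
      omega
    have hf' := hf
    have e1 : (H ++ [N]).getLastD 0 = N := by simp
    have e2 : (H ++ [N]).dropLast = H := by simp
    have hstep : (St.mk real ((lv, mk) :: t) reg pk).step (H ++ [N]) =
        ⟨real ++ [N], kids lv mk reg H N ++ t, reg, false⟩ := by
      change (⟨real ++ [(H ++ [N]).getLastD 0],
        kids lv mk reg (H ++ [N]).dropLast ((H ++ [N]).getLastD 0) ++ t, reg, false⟩ : St) = _
      rw [e1, e2]
    rw [hstep]
    have hrun := h.run
    have hinc := h.inc
    have hcopy := h.copy
    change runS [Lev.root] real = some (((lv, mk) :: t).map Prod.fst) at hrun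
    change real.Pairwise (· < ·) at hinc
    change ∀ x ∈ real, x ≤ m at hm
    have hop : pk = false → ¬ (lv = .inn 0 ∧ mk = .U) ∧ ¬ (lv = .root ∧ mk = .U) := by
      intro hpk
      constructor
      · rintro ⟨h1, h2⟩
        exact hs (Or.inr ⟨hpk, t, Or.inl (by rw [h1, h2])⟩)
      · rintro ⟨h1, h2⟩
        exact hs (Or.inr ⟨hpk, t, Or.inr (by rw [h1, h2])⟩)
    refine ⟨?_, ?_, ?_⟩
    · rcases hcopy with ⟨hpk, h1⟩ | ⟨hpk, h1, -⟩ | ⟨-, t', h1, h2⟩ | ⟨-, h1, h2⟩
      · change RepR reg ((lv, mk) :: t) σ at h1
        refine Or.inl ⟨rfl, ?_⟩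
        change RepR reg (kids lv mk reg H N ++ t) σ
        cases mk with
        | none =>
          have h3 : filt (kids lv .none reg H N ++ t) = filt ((lv, .none) :: t) := by
            rw [filt_append, filt_kids_none, fc_filt_none, List.nil_append]
          unfold RepR
          rw [h3]
          exact h1
        | U =>
          have hf : filt ((lv, .U) :: t) = (lv, .U) :: filt t := fc_filt_cons _ (by simp) t
          rcases h1 with h1 | ⟨l', o, L, s', σ', h1, -⟩
          · rw [hf] at h1
            refine Or.inl ?_
            rw [filt_append]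
            exact stp_U (fun h0 => (hop hpk).2 ⟨h0, rfl⟩) (fun h0 => (hop hpk).1 ⟨h0, rfl⟩) h1 hH hf'
          · rw [hf] at h1
            exact absurd h1 (by simp)
        | E o L =>
          have hf : filt ((lv, .E o L) :: t) = (lv, .E o L) :: filt t := fc_filt_cons _ (by simp) t
          rcases h1 with h1 | ⟨l', o', L', s', σ', h1, -⟩
          · rw [hf] at h1
            refine Or.inl ?_
            rw [filt_append]
            exact stp_E h1 hH hf'
          · rw [hf] at h1
            exact absurd h1 (by simp)
        | B o L =>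
          have hf : filt ((lv, .B o L) :: t) = (lv, .B o L) :: filt t := fc_filt_cons _ (by simp) t
          rcases h1 with h1 | ⟨l', o', L', s', σ', h1, hg, h2, h3⟩
          · rw [hf] at h1
            exact (fc_B h1).elim
          · rw [hf, List.cons.injEq, Prod.mk.injEq, Mark.B.injEq] at h1
            obtain ⟨⟨rfl, rfl, rfl⟩, rfl⟩ := h1
            rw [h3]
            rcases stp_B hg h2 hH hf' with h4 | ⟨l'', h4, h5⟩
            · refine Or.inl ?_
              rw [filt_append]
              exact h4
            · refine Or.inr ⟨l'', o, L, filt t, σ', ?_, h5, h2, rfl⟩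
              rw [filt_append]
              exact h4
      · change (lv, mk) :: t = [(.root, .U)] at h1
        change pk = false at hpk
        rw [List.cons.injEq, Prod.mk.injEq] at h1
        exact absurd h1.1 (hop hpk).2
      · change (lv, mk) :: t = (.inn 0, .U) :: t' at h1
        rw [List.cons.injEq, Prod.mk.injEq] at h1
        obtain ⟨⟨rfl, rfl⟩, rfl⟩ := h1
        exact Or.inl ⟨rfl, h2⟩
      · change (lv, mk) :: t = [(.root, .U)] at h1
        rw [List.cons.injEq, Prod.mk.injEq] at h1
        obtain ⟨⟨rfl, rfl⟩, rfl⟩ := h1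
        refine Or.inl ⟨rfl, Or.inl ?_⟩
        change RepF (filt (kids .root .U reg H N ++ [])) σ
        rw [List.append_nil, h2]
        exact stp_root hH hf'
    · change runS [Lev.root] (real ++ [N]) = some ((kids lv mk reg H N ++ t).map Prod.fst)
      rw [runS_append, hrun, List.map_append, fkids_fst]
      change runS (kidsLev lv N ++ t.map Prod.fst) [] = _
      exact fc_runS_nil _
    · change (real ++ [N]).Pairwise (· < ·)
      rw [List.pairwise_append]
      refine ⟨hinc, List.pairwise_singleton _ _, fun a ha b hb => ?_⟩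
      rw [List.mem_singleton] at hb
      have h1 := hm a ha
      have h2 := hf'.ge (c := N) (by simp)
      omega

end Pool.Agent.H90.Ord
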