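import Pool.Agent.H90.Ord.Basic

/-!
# The stack relation is well-founded (module WF)

`acc_append` by induction on `Acc StkLt s` (for all `t`): a predecessor of `s ++ t` is a predecessor of `s`
followed by `t`, or, if `s = []`, a predecessor of `t`.  `acc_single`: every one-element stack is accessible, by
cases on the level: `inn k` by induction on `k` (the predecessors are the lists `replicate N (inn (k-1))`, so
`acc_append` and induction on `N`), then `out 0`, then `out k` by induction on `k`, then `root`.
-/

set_option autoImplicit false

namespace Pool.Agent.H90.Ord

theorem acc_nil : Acc StkLt [] := by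
  refine Acc.intro _ fun y hy => ?_
  obtain ⟨l, t, n, h1, -⟩ := hy
  exact absurd h1 (by simp)

theorem acc_append {s t : List Lev} (hs : Acc StkLt s) (ht : Acc StkLt t) : Acc StkLt (s ++ t) := by
  induction hs with
  | intro s _ ih =>
    cases s with
    | nil => exact ht
    | cons l s =>
      refine Acc.intro _ fun y hy => ?_
      obtain ⟨l', t', n, h1, h2⟩ := hy
      rw [List.cons_append, List.cons.injEq] at h1
      obtain ⟨h3, h4⟩ := h1
      rw [h2, ← h3, ← h4, ← List.append_assoc]
      exact ih (kidsLev l n ++ s) ⟨l, s, n, rfl, rfl⟩

private theorem acc_of {l : Lev} (h : ∀ n, Acc StkLt (kidsLev l n)) : Acc StkLt [l] := by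
  refine Acc.intro _ fun y hy => ?_
  obtain ⟨l', t', n, h1, h2⟩ := hy
  rw [List.cons.injEq] at h1
  obtain ⟨h3, h4⟩ := h1
  rw [h2, ← h3, ← h4, List.append_nil]
  exact h n

private theorem acc_rep {l : Lev} (h : Acc StkLt [l]) (N : ℕ) : Acc StkLt (List.replicate N l) := by
  induction N with
  | zero => exact acc_nil
  | succ N ih =>
    rw [List.replicate_succ]
    exact acc_append h ih

private theorem acc_inn (k : ℕ) : Acc StkLt [Lev.inn k] := by
  induction k with
  | zero => exact acc_of fun _ => acc_nil
  | succ k ih => exact acc_of fun n => acc_rep ih n

private theorem acc_out (k : ℕ) : Acc StkLt [Lev.out k] := by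
  induction k with
  | zero => exact acc_of fun n => acc_inn n
  | succ k ih => exact acc_of fun n => acc_rep ih n

theorem acc_single (l : Lev) : Acc StkLt [l] := by
  cases l with
  | inn k => exact acc_inn k
  | out k => exact acc_out k
  | root => exact acc_of fun n => acc_out n

theorem stkLt_wf : WellFounded StkLt := by
  refine ⟨fun s => ?_⟩
  induction s with
  | nil => exact acc_nil
  | cons l s ih => exact acc_append (acc_single l) ih

theorem runS_append (s : List Lev) (r r' : List ℕ) :
    runS s (r ++ r') = (runS s r).bind fun s' => runS s' r' := by
  induction r generalizing s with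
  | nil => cases s <;> rfl
  | cons n r ih =>
    cases s with
    | nil => rfl
    | cons l s =>
      show runS (kidsLev l n ++ s) (r ++ r') = (runS (kidsLev l n ++ s) r).bind fun s' => runS s' r'
      exact ih _

/-- reading numbers from `s ++ t`: as long as `s` is not used up, `t` stays -/
theorem runS_stack_append {s s' t : List Lev} {r : List ℕ} (h : runS s r = some s') :
    runS (s ++ t) r = some (s' ++ t) := by
  induction r generalizing s with
  | nil =>
    have h1 : s = s' := by
      cases s <;> exact Option.some.inj h
    subst h1
    cases (s ++ t) <;> rfl
  | cons n r ih =>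
    cases s with
    | nil => exact absurd h (by simp [runS])
    | cons l s =>
      have h1 : runS (kidsLev l n ++ s) r = some s' := h
      have h2 := ih h1
      rw [List.append_assoc] at h2
      exact h2

end Pool.Agent.H90.Ord
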