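import Pool.Agent.H90.Ord.Al
import Pool.Agent.H90.Ord.Big
import Pool.Agent.H90.Ord.WF

/-!
# Fusion (chapter FUS): definitions

`filt s`: the marked entries of a marked stack.  `levOf o L`: level of the copy entry which is simulated by the mark `E o L` (and by a trigger `U` followed by the body `B o L`).
`RepF s σ`: the stack `s` of marked entries (nothing pending) simulates the copy stack `σ`.
`RepR r s σ`: the marked stack `s` simulates `σ`, if the number in the register is `r`; in the second case the next marked entry is a body `B o L` whose copy number `r` has already been chosen, but which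
has not been split yet.
`CopyOf s σ`: the state `s` simulates the copy stack `σ`.  `Ok s σ`: moreover the numbers read are an increasing run with the right stack.
`stkOf u`: the stack after the numbers `u` (the last number first).  `code`: numbering of the finite lists (the last number first), a list is numbered after its tails, `code (n :: u)` is increasing in `n`.
`Tr red K f`: the construction of the fusion up to the number `K`: the node `u` has the state `f (code u)`.
-/

set_option autoImplicit false

namespace Pool.Agent.H90.Ord

/-- the marked entries -/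
def filt (s : List (Lev × Mark)) : List (Lev × Mark) := s.filter fun e => decide (e.2 ≠ Mark.none)

/-- level of the copy entry simulated by a mark -/
def levOf : Bool → List ℕ → Lev
  | false, L => .inn L.length
  | true, L => .out (L.length - 1)

/-- copy stack simulated by a list of marked entries -/
inductive RepF : List (Lev × Mark) → List Lev → Prop
  | nil : RepF [] []
  | unit {l : Lev} {s : List (Lev × Mark)} {σ : List Lev} (hl : l ≠ .root) (h : RepF s σ) :
      RepF ((l, .U) :: s) (.inn 0 :: σ)
  | trig {l l' : Lev} {o : Bool} {L : List ℕ} {s : List (Lev × Mark)} {σ : List Lev} (hl : l ≠ .root)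
      (hg : GM l' (.B o L)) (h : RepF s σ) : RepF ((l, .U) :: (l', .B o L) :: s) (levOf o L :: σ)
  | ent {l : Lev} {o : Bool} {L : List ℕ} {s : List (Lev × Mark)} {σ : List Lev} (hg : GM l (.E o L))
      (h : RepF s σ) : RepF ((l, .E o L) :: s) (levOf o L :: σ)

/-- copy stack simulated by a marked stack with register `r` -/
def RepR (r : ℕ) (s : List (Lev × Mark)) (σ : List Lev) : Prop :=
  RepF (filt s) σ ∨ ∃ l o L s' σ', filt s = (l, Mark.B o L) :: s' ∧ GM l (.B o L) ∧ RepF s' σ' ∧
    σ = kidsLev (levOf o L) r ++ σ'

/-- the state `s` simulates the copy stack `σ` -/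
def CopyOf (s : St) (σ : List Lev) : Prop :=
  (s.pk = false ∧ RepR s.reg s.stk σ) ∨ (s.pk = false ∧ s.stk = [(.root, .U)] ∧ σ = [.root]) ∨
    (s.pk = true ∧ ∃ t, s.stk = (.inn 0, .U) :: t ∧ RepR s.reg t σ) ∨
    (s.pk = true ∧ s.stk = [(.root, .U)] ∧ σ = kidsLev .root s.reg)

structure Ok (s : St) (σ : List Lev) : Prop where
  copy : CopyOf s σ
  run : runS [Lev.root] s.real = some (s.stk.map Prod.fst)
  inc : s.real.Pairwise (· < ·)

/-- the stack after the numbers `u`, the last number first -/
def stkOf (u : List ℕ) : Option (List Lev) := runS [Lev.root] u.reverse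

/-- numbering of the nodes -/
def code : List ℕ → ℕ
  | [] => 0
  | n :: u => Nat.pair (code u) n + 1

/-- the construction up to the number `K` -/
structure Tr (red : List ℕ → List ℕ → Prop) (K : ℕ) (f : ℕ → St) : Prop where
  ok : ∀ u σ, code u < K → stkOf u = some σ → Ok (f (code u)) σ ∧ (f (code u)).Nonrun
  st : 0 < K → f 0 = start
  ne : ∀ u σ, u ≠ [] → code u < K → stkOf u = some σ →
    (f (code u)).real ≠ [] ∧ ¬ Win red (f (code u)) start
  ext : ∀ n v σ, code (n :: v) < K → stkOf (n :: v) = some σ →
    ∃ r, (f (code (n :: v))).real = (f (code v)).real ++ r ∧ r ≠ [] ∧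
      ∀ x ∈ r, ∀ i < code (n :: v), ∀ y ∈ (f i).real, y < x
  nw : ∀ u v σ σ' a b, code u < K → code v < K → stkOf u = some σ → stkOf v = some σ' →
    u.getLast? = some a → v.getLast? = some b → a < b → ¬ Win red (f (code u)) (f (code v))

end Pool.Agent.H90.Ord
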