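import Pool.Agent.H90.Ord.FCop

/-!
# FEXT: the extension lemma

`big_fin`: finite intersections of Big sets (`Set.Finite.induction_on`, `big_inter`; empty intersection: `big_mono` from `big_fresh`).
`run_ext`: well-founded induction on `s.stk.map Prod.fst` (`stkLt_wf`), for all `m`.  If `s` is nonrunning: `s' = s`, `r = []`.  Otherwise the set of the lists `l` with `l.length = s.need + 1`, `Fresh m l`, `¬ Win red t (s.step l)` for `t ∈ A` and
`¬ Win red (s.step l) t` for `t ∈ B` is Big: if `{l | ¬ Win red t (s.step l)}` is not Big, then `{l | Win red t (s.step l)}` is Big (`big_compl`) and `Win.stepB` gives `Win red t s`.  Take such an `l` (`big_nonempty`), `N = l.getLastD 0 > m`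
(`Fresh.ge`, `N ∈ l`), apply the induction hypothesis to `s.step l` with `m' = N` (all real numbers are `≤ N`), `r = N :: r'`.
`ext`: `s.pick n`: not Win is kept (`Win.pickA`, `Win.pickB`, `s.stk ≠ []` by `nonrun_nil`); `s.pick n` is running (picked, stack not empty): `run_ext`.
-/

set_option autoImplicit false

namespace Pool.Agent.H90.Ord

theorem big_fin {n : ℕ} {A : Set St} (hA : A.Finite) (S : St → Set (List ℕ)) (h : ∀ t ∈ A, Big n (S t)) :
    Big n {l | ∀ t ∈ A, l ∈ S t} := by
  classical
  obtain ⟨F, rfl⟩ := hA.exists_finset_coe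
  induction F using Finset.induction_on with
  | empty =>
    refine big_mono ?_ (big_fresh n 0)
    intro l _ t ht
    rw [Finset.coe_empty] at ht
    exact absurd ht (Set.notMem_empty t)
  | insert a F ha ih =>
    have h1 := ih F.finite_toSet (fun t ht => h t (by
      rw [Finset.coe_insert]
      exact Set.mem_insert_of_mem a ht))
    have h2 := h a (by
      rw [Finset.coe_insert]
      exact Set.mem_insert a _)
    refine big_mono ?_ (big_inter h2 h1)
    intro l hl t ht
    rw [Finset.coe_insert] at ht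
    rcases Set.mem_insert_iff.1 ht with rfl | ht
    · exact hl.1
    · exact hl.2 t ht

private theorem fext_real {s : St} (hs : s.stk ≠ []) (l : List ℕ) :
    (s.step l).real = s.real ++ [l.getLastD 0] := by
  rcases h : s.stk with _ | ⟨⟨lv, mk⟩, t⟩
  · exact absurd h hs
  · simp [St.step, h]

private theorem fext_last {l : List ℕ} (h : l ≠ []) : l.getLastD 0 ∈ l := by
  cases l with
  | nil => exact absurd rfl h
  | cons a l =>
    rw [List.getLastD_cons]
    induction l generalizing a with
    | nil => exact List.mem_cons_self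
    | cons b l ih =>
      rw [List.getLastD_cons]
      exact List.mem_cons_of_mem _ (ih b (List.cons_ne_nil _ _))

theorem run_ext {red : List ℕ → List ℕ → Prop} {s : St} {σ : List Lev} (h : Ok s σ) {m : ℕ}
    (hm : ∀ x ∈ s.real, x ≤ m) {A B : Set St} (hA : A.Finite) (hB : B.Finite)
    (hA' : ∀ t ∈ A, t.Nonrun ∧ ¬ Win red t s) (hB' : ∀ t ∈ B, t.Nonrun ∧ ¬ Win red s t) :
    ∃ s' r, Ok s' σ ∧ s'.Nonrun ∧ s'.real = s.real ++ r ∧ (∀ x ∈ r, m < x) ∧ (¬ s.Nonrun → r ≠ []) ∧
      (∀ t ∈ A, ¬ Win red t s') ∧ ∀ t ∈ B, ¬ Win red s' t := by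
  obtain ⟨w, hw⟩ : ∃ w, w = s.stk.map Prod.fst := ⟨_, rfl⟩
  induction w using stkLt_wf.induction generalizing s m with
  | _ w ih =>
    by_cases hs : s.Nonrun
    · refine ⟨s, [], h, hs, by rw [List.append_nil], ?_, fun hc => absurd hs hc,
        fun t ht => (hA' t ht).2, fun t ht => (hB' t ht).2⟩
      intro x hx
      exact absurd hx List.not_mem_nil
    · have hstk : s.stk ≠ [] := fun hc => hs (Or.inl hc)
      have b1 : Big (s.need + 1) {l | ∀ t ∈ A, l ∈ {l | ¬ Win red t (s.step l)}} := by
        refine big_fin hA _ fun t ht => ?_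
        by_contra hb
        refine (hA' t ht).2 (Win.stepB _ (hA' t ht).1 hs (big_compl hb) ?_)
        intro l hl
        by_contra hc
        exact hl hc
      have b2 : Big (s.need + 1) {l | ∀ t ∈ B, l ∈ {l | ¬ Win red (s.step l) t}} := by
        refine big_fin hB _ fun t ht => ?_
        by_contra hb
        refine (hB' t ht).2 (Win.stepA _ hs (hB' t ht).1 (big_compl hb) ?_)
        intro l hl
        by_contra hc
        exact hl hc
      obtain ⟨l, hl, -⟩ := big_nonempty (big_inter (big_fresh (s.need + 1) m) (big_inter b1 b2))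
      obtain ⟨⟨hl1, hl2⟩, hlA, hlB⟩ := hl
      have hne : l ≠ [] := by
        intro hc
        rw [hc, List.length_nil] at hl1
        omega
      have hN : m + 3 ≤ l.getLastD 0 := hl2.ge (fext_last hne)
      have hreal := fext_real hstk l
      have hm' : ∀ x ∈ (s.step l).real, x ≤ l.getLastD 0 := by
        intro x hx
        rw [hreal, List.mem_append, List.mem_singleton] at hx
        rcases hx with hx | hx
        · have := hm x hx
          omega
        · omega
      obtain ⟨s', r, c1, c2, c3, c4, -, c6, c7⟩ := ih _ (by rw [hw]; exact step_lt hs l)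
        (ok_step h hs hm hl1 hl2) hm'
        (fun t ht => ⟨(hA' t ht).1, hlA t ht⟩) (fun t ht => ⟨(hB' t ht).1, hlB t ht⟩) rfl
      refine ⟨s', l.getLastD 0 :: r, c1, c2, ?_, ?_, fun _ => List.cons_ne_nil _ _, c6, c7⟩
      · rw [c3, hreal, List.append_assoc]
        rfl
      · intro x hx
        rcases List.mem_cons.1 hx with rfl | hx
        · omega
        · have := c4 x hx
          omega

theorem ext {red : List ℕ → List ℕ → Prop} {s : St} {l : Lev} {τ : List Lev} (h : Ok s (l :: τ))
    (hs : s.Nonrun) (n : ℕ) {m : ℕ} (hm : ∀ x ∈ s.real, x ≤ m) {A B : Set St} (hA : A.Finite)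
    (hB : B.Finite) (hA' : ∀ t ∈ A, t.Nonrun ∧ t.real ≠ [] ∧ ¬ Win red t s)
    (hB' : ∀ t ∈ B, t.Nonrun ∧ ¬ Win red s t) :
    ∃ s' r, Ok s' (kidsLev l n ++ τ) ∧ s'.Nonrun ∧ s'.real = s.real ++ r ∧ r ≠ [] ∧ (∀ x ∈ r, m < x) ∧
      (∀ t ∈ A, ¬ Win red t s') ∧ ∀ t ∈ B, ¬ Win red s' t := by
  have hstk : s.stk ≠ [] := fun hc => absurd ((nonrun_nil h.copy hs).2 hc) (List.cons_ne_nil _ _)
  have hrun : ¬ (s.pick n).Nonrun := by
    rintro (hc | ⟨hc, -⟩)
    · exact hstk hc
    · exact absurd hc (by simp [St.pick])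
  obtain ⟨s', r, c1, c2, c3, c4, c5, c6, c7⟩ := run_ext (red := red) (s := s.pick n) (ok_pick h hs n)
    (m := m) hm hA hB
    (fun t ht => ⟨(hA' t ht).1, fun hw => (hA' t ht).2.2
      (Win.pickB n (hA' t ht).1 hs hstk (hA' t ht).2.1 hw)⟩)
    (fun t ht => ⟨(hB' t ht).1, fun hw => (hB' t ht).2
      (Win.pickA n hs (hB' t ht).1 hstk hw)⟩)
  exact ⟨s', r, c1, c2, c3, c5 hrun, c4, c6, c7⟩

end Pool.Agent.H90.Ord
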