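import Pool.Agent.H90.Ord.FTre
import Pool.Agent.H90.Ord.EMA

/-!
# FFIN: the fused copy

`lex_split`: two different complete runs from the same stack are not prefixes of each other (`run_prefix`), so `x < y` (lexicographic) gives a common prefix `p` and `x = p ++ a :: x'`, `y = p ++ b :: y'` with `a < b` (induction on `List.Lex`).
`stk_prefix`: `runS_append` (`Option.bind` is `some`).
`real_prefix`: induction on `q` from the right (`List.reverseRecOn`): field `ext`, all prefixes are valid (`stk_prefix`).
-/

set_option autoImplicit false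

namespace Pool.Agent.H90.Ord

theorem lex_split {x y : List ℕ} (h : x < y) (hp : ¬ x <+: y) :
    ∃ p a b x' y', x = p ++ a :: x' ∧ y = p ++ b :: y' ∧ a < b := by
  induction x generalizing y with
  | nil => exact absurd List.nil_prefix hp
  | cons a x ih =>
    cases y with
    | nil => exact absurd h (by simp)
    | cons b y =>
      rw [List.cons_lt_cons_iff] at h
      rcases h with h1 | ⟨h1, h2⟩
      · exact ⟨[], a, b, x, y, rfl, rfl, h1⟩
      · subst h1
        have hp' : ¬ x <+: y := fun h3 => hp ((List.prefix_cons_inj a).2 h3)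
        obtain ⟨p, c, d, x', y', rfl, rfl, hcd⟩ := ih h2 hp'
        exact ⟨a :: p, c, d, x', y', rfl, rfl, hcd⟩

theorem stk_prefix {p q : List ℕ} {σ : List Lev} (h : stkOf (p ++ q).reverse = some σ) :
    ∃ σ', stkOf p.reverse = some σ' := by
  unfold stkOf at h ⊢
  rw [List.reverse_reverse, runS_append] at h
  rw [List.reverse_reverse]
  cases h1 : runS [Lev.root] p with
  | none =>
    rw [h1] at h
    exact absurd h (by simp)
  | some s => exact ⟨s, rfl⟩

theorem real_prefix {red : List ℕ → List ℕ → Prop} {f : ℕ → St} (hf : ∀ K, Tr red K f) (p q : List ℕ)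
    {σ : List Lev} (h : stkOf (p ++ q).reverse = some σ) :
    ∃ r, (f (code (p ++ q).reverse)).real = (f (code p.reverse)).real ++ r := by
  induction q using List.reverseRecOn generalizing σ with
  | nil => exact ⟨[], by simp⟩
  | append_singleton q n ih =>
    rw [← List.append_assoc] at h ⊢
    obtain ⟨σ', h'⟩ := stk_prefix (p := p ++ q) (q := [n]) h
    obtain ⟨r, hr⟩ := ih h'
    have e : (p ++ q ++ [n]).reverse = n :: (p ++ q).reverse := by
      rw [List.reverse_append]
      rfl
    rw [e] at h ⊢
    obtain ⟨r', hr', -, -⟩ := (hf (code (n :: (p ++ q).reverse) + 1)).ext n _ σ (Nat.lt_succ_self _) h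
    exact ⟨r ++ r', by rw [hr', hr, List.append_assoc]⟩

end Pool.Agent.H90.Ord
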