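import Pool.Agent.H90.Ord.FDef

/-!
# FKID: children of an entry

`fkids_fst`: cases on the level (and the mark for `out 0`, `root`).
`filt_range`: write the children as `List.range' a b` (`List.range N = List.range' 0 N`) and use induction on `H` (for all `M`, `a`, `b`) for the statement: `H` strictly increasing, all elements in `[a, a+b)`, `|H| = |M|`, then
`filt ((List.range' a b).map fun i => (lv, markAt H M i)) = M.map (lv, ·)`; for `H = c :: H'`, `M = m :: M'` split the range at `c`: before `c` `markAt` gives `none` (no element of `H` is `i`), at `c` it gives `m`, after `c` it is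
`markAt H' M'` (`i ≠ c`).  (`List.range'_append`, `List.range'_succ`, `List.filter_append`, `List.filter_cons`.)
`chM_ne`: cases (`mkE o L ≠ none`).
`filt_kids_inn`, `filt_kids_out`: `kids` is a map over the range, `filt_range` with `M = chM ..` (`need` is its length).
-/

set_option autoImplicit false

namespace Pool.Agent.H90.Ord

theorem fkids_fst (l : Lev) (m : Mark) (r : ℕ) (H : List ℕ) (N : ℕ) :
    (kids l m r H N).map Prod.fst = kidsLev l N := by
  rcases l with (_ | k) | (_ | k) | _
  · simp [kids, kidsLev]
  · simp only [kids, kidsLev, List.map_map]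
    simp [Function.comp_def]
  · rcases m with _ | _ | ⟨o, L⟩ | ⟨_ | _, L⟩ <;> simp [kids, kidsLev]
  · simp only [kids, kidsLev, List.map_map]
    simp [Function.comp_def]
  · rcases m with _ | _ | ⟨o, L⟩ | ⟨_ | _, L⟩ <;> simp [kids, kidsLev]

private theorem fk_cons (h : ℕ) (H : List ℕ) (m : Mark) (M : List Mark) (c : ℕ) :
    markAt (h :: H) (m :: M) c = if h = c then m else markAt H M c := by
  unfold markAt
  rw [List.zip_cons_cons, List.find?_cons]
  by_cases hc : h = c
  · simp [hc]
  · simp [hc]

private theorem fk_none {H : List ℕ} {M : List Mark} {c : ℕ} (hc : c ∉ H) : markAt H M c = .none := by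
  induction H generalizing M with
  | nil => simp [markAt]
  | cons h H ih =>
    cases M with
    | nil => simp [markAt]
    | cons m M =>
      rw [List.mem_cons, not_or] at hc
      rw [fk_cons, if_neg (fun h' => hc.1 h'.symm)]
      exact ih hc.2

theorem filt_append (s t : List (Lev × Mark)) : filt (s ++ t) = filt s ++ filt t := by
  unfold filt
  exact List.filter_append _ _

private theorem fk_zero (lv : Lev) (H : List ℕ) (M : List Mark) (a b : ℕ) (hH : ∀ c ∈ H, a + b ≤ c) :
    filt ((List.range' a b).map fun i => (lv, markAt H M i)) = [] := by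
  unfold filt
  rw [List.filter_eq_nil_iff]
  intro e he
  obtain ⟨i, hi, rfl⟩ := List.mem_map.1 he
  rw [List.mem_range'_1] at hi
  have h1 : markAt H M i = .none := fk_none fun hc => by
    have := hH i hc
    omega
  simp [h1]

private theorem fk_range (lv : Lev) (H : List ℕ) (M : List Mark) (a b : ℕ) (hl : H.length = M.length)
    (hH : H.Pairwise (· < ·)) (h0 : ∀ c ∈ H, a ≤ c) (hN : ∀ c ∈ H, c < a + b) (hM : ∀ m ∈ M, m ≠ Mark.none) :
    filt ((List.range' a b).map fun i => (lv, markAt H M i)) = M.map fun m => (lv, m) := by
  induction H generalizing M a b with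
  | nil =>
    cases M with
    | nil => rw [fk_zero lv [] [] a b (by simp), List.map_nil]
    | cons m M => simp at hl
  | cons c H ih =>
    cases M with
    | nil => simp at hl
    | cons m M =>
      rw [List.pairwise_cons] at hH
      obtain ⟨u, rfl⟩ := Nat.exists_eq_add_of_le (h0 c List.mem_cons_self)
      have h1 := hN _ List.mem_cons_self
      obtain ⟨v, rfl⟩ := Nat.exists_eq_add_of_lt (show u < b by omega)
      have e1 : List.range' a (u + v + 1) = List.range' a u ++ (a + u) :: List.range' (a + u + 1) v := by
        rw [show u + v + 1 = u + (v + 1) by omega, ← List.range'_append_1, List.range'_succ]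
      rw [e1, List.map_append, filt_append, fk_zero lv ((a + u) :: H) (m :: M) a u, List.nil_append, List.map_cons]
      · have e2 : (List.range' (a + u + 1) v).map (fun i => (lv, markAt ((a + u) :: H) (m :: M) i)) =
            (List.range' (a + u + 1) v).map (fun i => (lv, markAt H M i)) := by
          refine List.map_congr_left fun i hi => ?_
          rw [List.mem_range'_1] at hi
          rw [fk_cons, if_neg (by omega)]
        rw [e2]
        have hm : m ≠ Mark.none := hM m List.mem_cons_self
        have e3 : filt ((lv, markAt ((a + u) :: H) (m :: M) (a + u)) :: (List.range' (a + u + 1) v).map fun i => (lv, markAt H M i)) =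
            (lv, m) :: filt ((List.range' (a + u + 1) v).map fun i => (lv, markAt H M i)) := by
          rw [fk_cons, if_pos rfl]
          unfold filt
          rw [List.filter_cons_of_pos (by simpa using hm)]
        rw [e3, List.map_cons]
        congr 1
        refine ih M (a + u + 1) v (by simpa using hl) hH.2 (fun c hc => hH.1 c hc) (fun c hc => ?_)
          (fun m hm => hM m (List.mem_cons_of_mem _ hm))
        have := hN c (List.mem_cons_of_mem _ hc)
        omega
      · intro c hc
        rcases List.mem_cons.1 hc with rfl | hc
        · exact le_rfl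
        · exact (hH.1 c hc).le

theorem filt_range (lv : Lev) (H : List ℕ) (M : List Mark) (N : ℕ) (hl : H.length = M.length)
    (hH : H.Pairwise (· < ·)) (hN : ∀ c ∈ H, c < N) (hM : ∀ m ∈ M, m ≠ Mark.none) :
    filt ((List.range N).map fun i => (lv, markAt H M i)) = M.map fun m => (lv, m) := by
  rw [List.range_eq_range']
  exact fk_range lv H M 0 N hl hH (fun _ _ => Nat.zero_le _) (fun c hc => by have := hN c hc; omega) hM

theorem mkE_ne (o : Bool) (L : List ℕ) : mkE o L ≠ Mark.none := by
  cases o <;> cases L <;> simp [mkE]

theorem chM_ne (l : Lev) (m : Mark) (r : ℕ) : ∀ m' ∈ chM l m r, m' ≠ Mark.none := by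
  intro m' hm'
  rcases m with _ | _ | ⟨_ | _, L⟩ | ⟨_ | _, L⟩ <;> rcases l with k | k | _ <;> simp only [chM] at hm'
  all_goals first
    | exact absurd hm' List.not_mem_nil
    | (rw [List.mem_singleton] at hm'; subst hm'; simp)
    | (have h2 := (List.mem_replicate.1 hm').2; subst h2; exact mkE_ne _ _)
    | (split_ifs at hm' with hc
       · rcases List.mem_cons.1 hm' with rfl | h2
         · simp
         · rw [List.mem_singleton] at h2
           subst h2
           simp
       · rw [List.mem_singleton] at hm'
         subst hm'
         simp)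
    | (split_ifs at hm' with hc
       · have h2 := (List.mem_replicate.1 hm').2
         subst h2
         exact mkE_ne _ _
       · rw [List.mem_singleton] at hm'
         subst hm'
         simp)

theorem filt_kids_inn (k : ℕ) (m : Mark) (r : ℕ) (H : List ℕ) (N : ℕ)
    (hl : H.length = need (.inn (k + 1)) m r) (hH : H.Pairwise (· < ·)) (hN : ∀ c ∈ H, c < N) :
    filt (kids (.inn (k + 1)) m r H N) = (chM (.inn (k + 1)) m r).map fun x => (Lev.inn k, x) :=
  filt_range (.inn k) H (chM (.inn (k + 1)) m r) N hl hH hN (chM_ne _ _ _)

theorem filt_kids_out (k : ℕ) (m : Mark) (r : ℕ) (H : List ℕ) (N : ℕ)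
    (hl : H.length = need (.out (k + 1)) m r) (hH : H.Pairwise (· < ·)) (hN : ∀ c ∈ H, c < N) :
    filt (kids (.out (k + 1)) m r H N) = (chM (.out (k + 1)) m r).map fun x => (Lev.out k, x) :=
  filt_range (.out k) H (chM (.out (k + 1)) m r) N hl hH hN (chM_ne _ _ _)

/-- unmarked entries have unmarked children -/
theorem filt_kids_none (l : Lev) (r : ℕ) (H : List ℕ) (N : ℕ) : filt (kids l .none r H N) = [] := by
  rcases l with (_ | k) | (_ | k) | _
  · rfl
  · unfold filt
    simp [kids, chM, markAt]
  · rfl
  · unfold filt
    simp [kids, chM, markAt]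
  · rfl

end Pool.Agent.H90.Ord
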