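import Pool.Agent.H90.Ord.FKid

/-!
# FSTP: the step of a marked entry

`H` are the hidden numbers (`need`), `N` the real number, `Fresh m (H ++ [N])` (so `H` is increasing with gaps, all `< N`, `DescSp H.reverse` by `Fresh.mono`).
`stp_U`: `(l, U)` with `l ≠ root`, `l ≠ inn 0`: exactly one child is marked, with `U`, its level is not `root`; `RepF` does not depend on the level of a `U`-entry (cases on `RepF`).
`stp_E`: `GM l (E o L)`: `o = false`: `l = inn k`, `L = g :: L'`, `g ≤ k`; all elements of a `DescSp` list are `≥ 3`, so `k = k' + 1`.  If `g = k`: children `(inn k', U), (inn k', B false L)`: `RepF.trig`; else one child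
`(inn k', E false L)` with `g ≤ k'`: `RepF.ent`.  `o = true` in the same way at `out k`.  `GM l (E o L)` is false for the other levels.
`stp_B`: `GM l (B o L)`: `o = false`: `l = inn k`, `L = g :: L'`, `k + 1 = g ≥ 3`, `k = k' + 1`: `reg` children with mark `mkE false L'`; if `L' = []` these are units (`levOf false [] = inn 0`), otherwise entries `E false L'` at
`inn k'`, `L' = g' :: _` with `g' + 3 ≤ g` (`DescSp`), so `g' ≤ k'`; `kidsLev (inn |L|) r = replicate r (inn |L'|)`: left alternative of `RepR`, induction on the number of children.
`o = true`, `|L| ≥ 2`: the same at `out`; `levOf true L = out (|L|-1)`, `|L| - 1 = |L'| ≥ 1`.  `|L| = 1`: at `out (k'+1)` one child with the same mark `B true L`: right alternative; at `out 0`: child `(inn N, mkE false H.reverse)`, `|H| = r`: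
`RepF` of `inn r :: σ'` (`r = 0`: unit), left alternative, `kidsLev (out 0) r = [inn r]`.
`stp_root`: `GM (out N) (E true H.reverse)`.
-/

set_option autoImplicit false

namespace Pool.Agent.H90.Ord

private theorem fs_split {m N : ℕ} {H : List ℕ} (h : Fresh m (H ++ [N])) :
    H.Pairwise (· < ·) ∧ (∀ c ∈ H, c < N) ∧ Fresh 0 H := by
  have h1 := List.pairwise_append.1 h.sorted
  refine ⟨h1.1.imp (fun {a b} hab => by omega), fun c hc => ?_, ?_⟩
  · have := h1.2.2 c hc N (List.mem_singleton.2 rfl)
    omega
  · exact Fresh.mono (Fresh.sublist h (List.sublist_append_left _ _)) (Nat.zero_le _)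

private theorem fs_desc {g : ℕ} {L : List ℕ} (h : DescSp (g :: L)) : 3 ≤ g := by
  have h1 : Fresh 0 (g :: L).reverse := h
  have := h1.ge (c := g) (by simp)
  omega

private theorem fs_desc2 {g g' : ℕ} {L : List ℕ} (h : DescSp (g :: g' :: L)) : g' + 3 ≤ g := by
  have h1 : Fresh 0 (g :: g' :: L).reverse := h
  have h2 := List.pairwise_append.1 (by simpa using h1.sorted : ((L.reverse ++ [g']) ++ [g]).Pairwise (fun a b => a + 3 ≤ b))
  exact h2.2.2 g' (by simp) g (by simp)

private theorem fs_desc_tail {g : ℕ} {L : List ℕ} (h : DescSp (g :: L)) : DescSp L := by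
  have h1 : Fresh 0 (g :: L).reverse := h
  have h2 : L.reverse.Sublist (g :: L).reverse := List.reverse_sublist.2 (List.sublist_cons_self _ _)
  exact Fresh.sublist h1 h2

private theorem fs_U {l l' : Lev} {x : List (Lev × Mark)} {σ : List Lev} (hl : l' ≠ .root)
    (h : RepF ((l, .U) :: x) σ) : RepF ((l', .U) :: x) σ := by
  cases h with
  | unit _ h => exact .unit hl h
  | trig _ hg h => exact .trig hl hg h

private theorem fs_many {lv c : Lev} {mk : Mark} {x : List (Lev × Mark)} {σ : List Lev} (hx : RepF x σ)
    (hE : ∀ y τ, RepF y τ → RepF ((lv, mk) :: y) (c :: τ)) (r : ℕ) :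
    RepF ((List.replicate r mk).map (fun m => (lv, m)) ++ x) (List.replicate r c ++ σ) := by
  induction r with
  | zero => simpa using hx
  | succ n ih =>
    rw [List.replicate_succ, List.replicate_succ, List.map_cons, List.cons_append, List.cons_append]
    exact hE _ _ ih

theorem stp_U {l : Lev} (hl : l ≠ .root) (hl0 : l ≠ .inn 0) {x : List (Lev × Mark)} {σ : List Lev}
    (h : RepF ((l, .U) :: x) σ) {r m N : ℕ} {H : List ℕ} (hH : H.length = need l .U r)
    (hf : Fresh m (H ++ [N])) : RepF (filt (kids l .U r H N) ++ x) σ := by
  obtain ⟨f1, f2, -⟩ := fs_split hf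
  rcases l with k | k | _
  · rcases k with _ | k
    · exact absurd rfl hl0
    · rw [filt_kids_inn k .U r H N hH f1 f2]
      exact fs_U (by simp) h
  · rcases k with _ | k
    · exact fs_U (l' := .inn N) (by simp) h
    · rw [filt_kids_out k .U r H N hH f1 f2]
      exact fs_U (l' := .out k) (by simp) h
  · exact absurd rfl hl

theorem stp_E {l : Lev} {o : Bool} {L : List ℕ} {x : List (Lev × Mark)} {σ : List Lev}
    (h : RepF ((l, .E o L) :: x) σ) {r m N : ℕ} {H : List ℕ} (hH : H.length = need l (.E o L) r)
    (hf : Fresh m (H ++ [N])) : RepF (filt (kids l (.E o L) r H N) ++ x) σ := by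
  obtain ⟨f1, f2, -⟩ := fs_split hf
  cases h with
  | ent hg h =>
    rcases l with k | k | _
    · rcases o with _ | _
      · obtain ⟨hd, g, L', rfl, hgk⟩ := hg
        have h3 := fs_desc hd
        obtain ⟨k', rfl⟩ : ∃ k', k = k' + 1 := ⟨k - 1, by omega⟩
        rw [filt_kids_inn k' _ r H N hH f1 f2]
        by_cases he : g = k' + 1
        · have hc : chM (.inn (k' + 1)) (.E false (g :: L')) r = [.U, .B false (g :: L')] := by
            show (if (g :: L').head? = some (k' + 1) then _ else _) = _
            rw [if_pos (by simp [he])]
          rw [hc]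
          exact .trig (by simp) ⟨hd, g, L', rfl, he.symm⟩ h
        · have hc : chM (.inn (k' + 1)) (.E false (g :: L')) r = [.E false (g :: L')] := by
            show (if (g :: L').head? = some (k' + 1) then _ else _) = _
            rw [if_neg (by simp [he])]
          rw [hc]
          exact .ent ⟨hd, g, L', rfl, by omega⟩ h
      · exact hg.elim
    · rcases o with _ | _
      · exact hg.elim
      · obtain ⟨hd, g, L', rfl, hgk⟩ := hg
        have h3 := fs_desc hd
        obtain ⟨k', rfl⟩ : ∃ k', k = k' + 1 := ⟨k - 1, by omega⟩
        rw [filt_kids_out k' _ r H N hH f1 f2]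
        by_cases he : g = k' + 1
        · have hc : chM (.out (k' + 1)) (.E true (g :: L')) r = [.U, .B true (g :: L')] := by
            show (if (g :: L').head? = some (k' + 1) then _ else _) = _
            rw [if_pos (by simp [he])]
          rw [hc]
          exact .trig (by simp) ⟨hd, g, L', rfl, by omega, fun _ => he.symm⟩ h
        · have hc : chM (.out (k' + 1)) (.E true (g :: L')) r = [.E true (g :: L')] := by
            show (if (g :: L').head? = some (k' + 1) then _ else _) = _
            rw [if_neg (by simp [he])]
          rw [hc]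
          exact .ent ⟨hd, g, L', rfl, by omega⟩ h
    · exact hg.elim

theorem stp_B {l : Lev} {o : Bool} {L : List ℕ} {x : List (Lev × Mark)} {σ' : List Lev}
    (hg : GM l (.B o L)) (h : RepF x σ') {r m N : ℕ} {H : List ℕ} (hH : H.length = need l (.B o L) r)
    (hf : Fresh m (H ++ [N])) :
    RepF (filt (kids l (.B o L) r H N) ++ x) (kidsLev (levOf o L) r ++ σ') ∨
      ∃ l', filt (kids l (.B o L) r H N) ++ x = (l', .B o L) :: x ∧ GM l' (.B o L) := by
  obtain ⟨f1, f2, f3⟩ := fs_split hf
  rcases l with k | k | _
  · rcases o with _ | _
    · obtain ⟨hd, g, L', rfl, hgk⟩ := hg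
      have h3 := fs_desc hd
      obtain ⟨k', rfl⟩ : ∃ k', k = k' + 1 := ⟨k - 1, by omega⟩
      left
      rw [filt_kids_inn k' _ r H N hH f1 f2]
      have hc : chM (.inn (k' + 1)) (.B false (g :: L')) r = List.replicate r (mkE false L') := rfl
      have hk : kidsLev (levOf false (g :: L')) r = List.replicate r (.inn L'.length) := rfl
      rw [hc, hk]
      refine fs_many h ?_ r
      intro y τ hy
      rcases L' with _ | ⟨g', L''⟩
      · exact .unit (by simp) hy
      · have h4 := fs_desc2 hd
        exact .ent (o := false) ⟨fs_desc_tail hd, g', L'', rfl, by omega⟩ hy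
    · exact hg.elim
  · rcases o with _ | _
    · exact hg.elim
    · obtain ⟨hd, g, L', rfl, hgk, hgk'⟩ := hg
      have h3 := fs_desc hd
      rcases L' with _ | ⟨g', L''⟩
      · rcases k with _ | k'
        · left
          have hr : H.length = r := hH
          show RepF ((filt [(Lev.inn N, mkE false H.reverse)]) ++ x) ([Lev.inn r] ++ σ')
          rcases hH' : H.reverse with _ | ⟨a, t⟩
          · have : H = [] := by simpa using hH'
            subst this
            have hr0 : r = 0 := by rw [← hr]; rfl
            rw [hr0]
            exact .unit (by simp) h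
          · have ha : a ∈ H := by
              rw [← List.mem_reverse, hH']
              exact List.mem_cons_self
            have hlen : (a :: t).length = r := by rw [← hH', List.length_reverse, hr]
            have h5 : GM (.inn N) (.E false (a :: t)) := by
              refine ⟨?_, a, t, rfl, (f2 a ha).le⟩
              show Fresh 0 (a :: t).reverse
              rw [← hH', List.reverse_reverse]
              exact f3
            have h6 : RepF ((.inn N, .E false (a :: t)) :: x) (levOf false (a :: t) :: σ') := .ent h5 h
            have h7 : levOf false (a :: t) = Lev.inn r := by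
              show Lev.inn (a :: t).length = _
              rw [hlen]
            rw [h7] at h6
            exact h6
        · right
          refine ⟨.out k', ?_, hd, g, [], rfl, by omega, fun h => absurd rfl h⟩
          rw [filt_kids_out k' _ r H N hH f1 f2]
          rfl
      · have hk1 := hgk' (by simp)
        obtain ⟨k', rfl⟩ : ∃ k', k = k' + 1 := ⟨k - 1, by omega⟩
        left
        rw [filt_kids_out k' _ r H N hH f1 f2]
        have hc : chM (.out (k' + 1)) (.B true (g :: g' :: L'')) r = List.replicate r (.E true (g' :: L'')) := by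
          show (if 2 ≤ (g :: g' :: L'').length then List.replicate r (mkE true (g :: g' :: L'').tail) else [Mark.B true (g :: g' :: L'')]) = _
          rw [if_pos (by simp)]
          rfl
        have hk : kidsLev (levOf true (g :: g' :: L'')) r = List.replicate r (.out L''.length) := rfl
        rw [hc, hk]
        refine fs_many h ?_ r
        intro y τ hy
        have h4 := fs_desc2 hd
        exact .ent (o := true) ⟨fs_desc_tail hd, g', L'', rfl, by omega⟩ hy
  · exact hg.elim

theorem stp_root {r m N : ℕ} {H : List ℕ} (hH : H.length = need .root .U r) (hf : Fresh m (H ++ [N])) :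
    RepF (filt (kids .root .U r H N)) (kidsLev .root r) := by
  obtain ⟨f1, f2, f3⟩ := fs_split hf
  have hr : H.length = r + 1 := hH
  show RepF [(Lev.out N, Mark.E true H.reverse)] [Lev.out r]
  rcases hH' : H.reverse with _ | ⟨a, t⟩
  · have : H = [] := by simpa using hH'
    rw [this] at hr
    simp at hr
  · have ha : a ∈ H := by
      rw [← List.mem_reverse, hH']
      exact List.mem_cons_self
    have hlen : (a :: t).length = r + 1 := by rw [← hH', List.length_reverse, hr]
    have h5 : GM (.out N) (.E true (a :: t)) := by
      refine ⟨?_, a, t, rfl, (f2 a ha).le⟩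
      show Fresh 0 (a :: t).reverse
      rw [← hH', List.reverse_reverse]
      exact f3
    have h6 : RepF [(.out N, .E true (a :: t))] [levOf true (a :: t)] := .ent h5 .nil
    have h7 : levOf true (a :: t) = Lev.out r := by
      show Lev.out ((a :: t).length - 1) = _
      rw [hlen]
      rfl
    rw [h7] at h6
    exact h6

end Pool.Agent.H90.Ord
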