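import Pool.Agent.H90.Ord.FExt
import Pool.Agent.H90.Ord.FCod

/-!
# FTRE: the construction of the fusion

`tr_loc`: every field of `Tr red K f` speaks only about `f i` with `i < K` (`code_tail`).
`tr_step`: `K = code w` (`code_surj`).  If `w = []` then `K = 0`, `a = start`: the only node with number `< 1` is `[]` (`code_inj`), `stkOf [] = some [root]`, `ok_start`.
`w = n :: v`.  If `stkOf w = none` take `a = start`: all statements about nodes concern nodes with number `< K` (`code_inj`: `code u = K` only for `u = w`).
`stkOf w = some σ`: `stkOf v = some (l :: τ)`, `σ = kidsLev l n ++ τ` (`stkOf_cons`), `code v < K` (`code_tail`).  Let `s = f (code v)`, `m` a bound for all numbers in the finite set of lists `(f i).real`, `i < K`, `h` the header (last element) of `w`,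
`A = {f (code u) | code u < K, stkOf u ≠ none, header u < h}`, `B = {start} ∪ {f (code u) | code u < K, stkOf u ≠ none, h < header u}` (images of subsets of `{i | i < K}`, finite).  Hypotheses of `ext`:
`v ≠ []`: the header of `v` is `h`: `A`: fields `ok`, `ne`, `nw`; `B`: `start`: `fstart_nonrun` and `ne`; others: `nw`.
`v = []`: `s = start` (`st`), `h = n`: `A`: `ne` gives `¬ Win (f (code u)) start`; `B`: `¬ Win start start`; there is no `u` with `n < header u` and `code u < code [n]` (`code_header`).
The new state `a` has all properties for `K + 1`: for two nodes with numbers `≤ K`: both `< K`: old; both `w`: the headers are equal; one of them `w`: `A` or `B`.  `ext` for the node `w`: `r` consists of numbers `> m`; `f i` for `i < K` does not change.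
-/

set_option autoImplicit false

namespace Pool.Agent.H90.Ord

theorem tr_loc {red : List ℕ → List ℕ → Prop} (K : ℕ) (f g : ℕ → St) (h : ∀ i < K, f i = g i)
    (hf : Tr red K f) : Tr red K g := by
  refine ⟨?_, ?_, ?_, ?_, ?_⟩
  · intro u σ hu hs
    rw [← h _ hu]
    exact hf.ok u σ hu hs
  · intro hK
    rw [← h 0 hK]
    exact hf.st hK
  · intro u σ h0 hu hs
    rw [← h _ hu]
    exact hf.ne u σ h0 hu hs
  · intro n v σ hu hs
    obtain ⟨r, h1, h2, h3⟩ := hf.ext n v σ hu hs
    have hv := code_tail n v
    rw [h _ hu, h _ (hv.trans hu)] at h1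
    refine ⟨r, h1, h2, fun x hx i hi y hy => h3 x hx i hi y ?_⟩
    rw [h i (hi.trans hu)]
    exact hy
  · intro u v σ σ' a b hu hv
    rw [← h _ hu, ← h _ hv]
    exact hf.nw u v σ σ' a b hu hv

private theorem ft_bound (f : ℕ → St) (K : ℕ) : ∃ m, ∀ i < K, ∀ y ∈ (f i).real, y ≤ m := by
  induction K with
  | zero => exact ⟨0, fun i hi => absurd hi (Nat.not_lt_zero _)⟩
  | succ K ih =>
    obtain ⟨m, hm⟩ := ih
    refine ⟨m + (f K).real.sum, fun i hi y hy => ?_⟩
    rcases Nat.lt_succ_iff_lt_or_eq.1 hi with h | h
    · have := hm i h y hy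
      omega
    · subst h
      have := List.single_le_sum (fun z _ => Nat.zero_le z) y hy
      omega

private theorem ft_case {u w : List ℕ} (h : code u < code w + 1) : code u < code w ∨ u = w := by
  rcases Nat.lt_succ_iff_lt_or_eq.1 h with h | h
  · exact Or.inl h
  · exact Or.inr (code_inj h)

theorem tr_step {red : List ℕ → List ℕ → Prop} (hw : ¬ Win red start start) (K : ℕ) (f : ℕ → St)
    (hf : Tr red K f) : ∃ a, Tr red (K + 1) (Function.update f K a) := by
  obtain ⟨w, rfl⟩ := code_surj K
  have hold : ∀ a, Tr red (code w) (Function.update f (code w) a) := fun a =>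
    tr_loc _ f _ (fun i hi => (Function.update_of_ne hi.ne _ _).symm) hf
  have hgw : ∀ a : St, Function.update f (code w) a (code w) = a := fun a => Function.update_self _ _ _
  have hgo : ∀ (a : St) (i : ℕ), i < code w → Function.update f (code w) a i = f i := fun a i hi =>
    Function.update_of_ne hi.ne _ _
  rcases w with _ | ⟨n, v⟩
  · -- the root
    refine ⟨start, ?_⟩
    have hu0 : ∀ u, code u < code [] + 1 → u = [] := by
      intro u hu
      rcases ft_case hu with h | h
      · exact absurd h (Nat.not_lt_zero _)
      · exact h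
    refine ⟨?_, ?_, ?_, ?_, ?_⟩
    · intro u σ hu hs
      rw [hu0 u hu] at hs ⊢
      have h1 : some [Lev.root] = some σ := hs
      rw [hgw, ← Option.some.inj h1]
      exact ⟨ok_start, fstart_nonrun⟩
    · intro _
      exact hgw start
    · intro u σ h0 hu
      exact absurd (hu0 u hu) h0
    · intro n v σ hu
      exact absurd (hu0 _ hu) (by simp)
    · intro u v σ σ' a b hu _ _ _ ha
      rw [hu0 u hu] at ha
      simp at ha
  · have hcv : code v < code (n :: v) := code_tail n v
    have hpos : 0 < code (n :: v) := Nat.succ_pos _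
    rcases hsw : stkOf (n :: v) with _ | σ
    · -- not a node
      refine ⟨start, ?_⟩
      have h1 : ∀ u σ, code u < code (n :: v) + 1 → stkOf u = some σ → code u < code (n :: v) := by
        intro u σ hu hs
        rcases ft_case hu with h | h
        · exact h
        · rw [h, hsw] at hs
          exact absurd hs (by simp)
      have hg := hold start
      refine ⟨?_, ?_, ?_, ?_, ?_⟩
      · intro u σ hu hs
        exact hg.ok u σ (h1 u σ hu hs) hs
      · intro _
        exact hg.st hpos
      · intro u σ h0 hu hs
        exact hg.ne u σ h0 (h1 u σ hu hs) hs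
      · intro n' v' σ hu hs
        exact hg.ext n' v' σ (h1 _ σ hu hs) hs
      · intro u u' σ σ' a b hu hu' hs hs'
        exact hg.nw u u' σ σ' a b (h1 u σ hu hs) (h1 u' σ' hu' hs') hs hs'
    · obtain ⟨l, τ, hv, hσ⟩ := stkOf_cons hsw
      obtain ⟨hok, hnr⟩ := hf.ok v _ hcv hv
      obtain ⟨m, hm⟩ := ft_bound f (code (n :: v))
      obtain ⟨h, hh⟩ : ∃ h, (n :: v).getLast? = some h :=
        ⟨(n :: v).getLast (by simp), List.getLast?_eq_some_getLast (by simp)⟩
      have hvh : v ≠ [] → v.getLast? = some h := by
        intro h0
        obtain ⟨b, t, rfl⟩ := List.exists_cons_of_ne_nil h0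
        rw [List.getLast?_cons_cons] at hh
        exact hh
      have hv0 : v = [] → f (code v) = start := by
        intro h0
        rw [h0]
        exact hf.st hpos
      obtain ⟨A, hAd⟩ : ∃ A : Set St, A = {t | ∃ u σ a, code u < code (n :: v) ∧ stkOf u = some σ ∧ u.getLast? = some a ∧
        a < h ∧ t = f (code u)} := ⟨_, rfl⟩
      obtain ⟨B, hBd⟩ : ∃ B : Set St, B = {t | t = start ∨ ∃ u σ a, code u < code (n :: v) ∧ stkOf u = some σ ∧
        u.getLast? = some a ∧ h < a ∧ t = f (code u)} := ⟨_, rfl⟩
      have hAf : A.Finite := by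
        refine Set.Finite.subset ((Set.finite_lt_nat (code (n :: v))).image f) ?_
        intro t ht
        rw [hAd] at ht
        obtain ⟨u, σ, a, h1, -, -, -, h5⟩ := ht
        exact ⟨code u, h1, h5.symm⟩
      have hBf : B.Finite := by
        refine Set.Finite.subset (((Set.finite_lt_nat (code (n :: v))).image f).insert start) ?_
        intro t ht
        rw [hBd] at ht
        rcases ht with h1 | ⟨u, σ, a, h1, -, -, -, h5⟩
        · exact Or.inl h1
        · exact Or.inr ⟨code u, h1, h5.symm⟩
      have hA' : ∀ t ∈ A, t.Nonrun ∧ t.real ≠ [] ∧ ¬ Win red t (f (code v)) := by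
        intro t ht
        rw [hAd] at ht
        obtain ⟨u, σ, a, h1, h2, h3, h4, rfl⟩ := ht
        have hu0 : u ≠ [] := by
          intro h0
          rw [h0] at h3
          simp at h3
        obtain ⟨h5, h6⟩ := hf.ne u σ hu0 h1 h2
        refine ⟨(hf.ok u σ h1 h2).2, h5, ?_⟩
        by_cases h0 : v = []
        · rw [hv0 h0]
          exact h6
        · exact hf.nw u v _ _ a h h1 hcv h2 hv h3 (hvh h0) h4
      have hB' : ∀ t ∈ B, t.Nonrun ∧ ¬ Win red (f (code v)) t := by
        intro t ht
        rw [hBd] at ht
        rcases ht with rfl | ⟨u, σ, a, h1, h2, h3, h4, rfl⟩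
        · refine ⟨fstart_nonrun, ?_⟩
          by_cases h0 : v = []
          · rw [hv0 h0]
            exact hw
          · exact (hf.ne v _ h0 hcv hv).2
        · refine ⟨(hf.ok u σ h1 h2).2, ?_⟩
          by_cases h0 : v = []
          · exfalso
            subst h0
            have h5 : h = n := by
              rw [List.getLast?_singleton] at hh
              exact (Option.some.inj hh).symm
            rw [h5] at h4
            exact absurd (code_header h3 h4) (by omega)
          · exact hf.nw v u _ _ h a hcv h1 hv h2 (hvh h0) h3 h4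
      obtain ⟨a, r, ha1, ha2, ha3, ha4, ha5, ha6, ha7⟩ := ext hok hnr n (hm _ hcv) hAf hBf hA' hB'
      refine ⟨a, ?_⟩
      have hg := hold a
      refine ⟨?_, ?_, ?_, ?_, ?_⟩
      · intro u σ' hu hs
        rcases ft_case hu with h1 | h1
        · exact hg.ok u σ' h1 hs
        · rw [h1] at hs ⊢
          rw [hsw] at hs
          rw [hgw, ← Option.some.inj hs, hσ]
          exact ⟨ha1, ha2⟩
      · intro _
        exact hg.st hpos
      · intro u σ' h0 hu hs
        rcases ft_case hu with h1 | h1
        · exact hg.ne u σ' h0 h1 hs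
        · rw [h1, hgw]
          refine ⟨?_, ha7 start (by rw [hBd]; exact Or.inl rfl)⟩
          rw [ha3]
          intro h2
          exact ha4 (List.append_eq_nil_iff.1 h2).2
      · intro n' v' σ' hu hs
        rcases ft_case hu with h1 | h1
        · exact hg.ext n' v' σ' h1 hs
        · rw [h1]
          have h2 : v' = v := (List.cons.inj h1).2
          rw [h2, hgw, hgo a _ hcv]
          refine ⟨r, ha3, ha4, fun x hx i hi y hy => ?_⟩
          rw [hgo a i hi] at hy
          exact lt_of_le_of_lt (hm i hi y hy) (ha5 x hx)
      · intro u u' σ1 σ2 x y hu hu' hs hs' hx hy hxy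
        rcases ft_case hu with h1 | h1
        · rcases ft_case hu' with h2 | h2
          · exact hg.nw u u' σ1 σ2 x y h1 h2 hs hs' hx hy hxy
          · rw [h2, hgw, hgo a _ h1]
            rw [h2, hh] at hy
            refine ha6 _ ?_
            rw [hAd]
            exact ⟨u, σ1, x, h1, hs, hx, by rw [Option.some.inj hy]; exact hxy, rfl⟩
        · rcases ft_case hu' with h2 | h2
          · rw [h1, hgw, hgo a _ h2]
            rw [h1, hh] at hx
            refine ha7 _ ?_
            rw [hBd]
            exact Or.inr ⟨u', σ2, y, h2, hs', hy, by rw [Option.some.inj hx]; exact hxy, rfl⟩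
          · exfalso
            rw [h1, hh] at hx
            rw [h2, hh] at hy
            have h3 := Option.some.inj hx
            have h4 := Option.some.inj hy
            omega

theorem tr_exists {red : List ℕ → List ℕ → Prop} (hw : ¬ Win red start start) :
    ∃ f, ∀ K, Tr red K f := by
  refine dcf (Tr red) tr_loc ?_ (tr_step hw)
  refine ⟨fun _ => start, ?_, ?_, ?_, ?_, ?_⟩
  · intro u σ h
    exact absurd h (Nat.not_lt_zero _)
  · intro h
    exact absurd h (Nat.not_lt_zero _)
  · intro u σ _ h
    exact absurd h (Nat.not_lt_zero _)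
  · intro n v σ h
    exact absurd h (Nat.not_lt_zero _)
  · intro u v σ σ' a b h
    exact absurd h (Nat.not_lt_zero _)

end Pool.Agent.H90.Ord
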