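import Pool.Agent.H90.Ord.JRb

/-!
# The final lemmas, types 0 and R (module JF)

`finalXY`: `z` is complete on both boards.  Induction on the win of the board `xy`.  `done`: `x` and `y` are
complete, so `x2`, `y2` are complete (`Par.stk_nil`), and a win at a position with two complete states is `done`.
Choice of `x` or `y` on the board `xy`: nothing happens on the other boards.  Step of `x`: `x2` is incomplete and ready
on its board (`ready_WinA`), `lead_step`.  Step of `y`: the same with the board `yz` (`y` is the first vertex there).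
`finalYZ`: `x` is complete on both boards, induction on the win of the board `yz`; `y` and `z` are second vertices
on the boards `xy`, `xz` (`ready_WinB`).

`tri0` (type 0): by induction on `AW T0 ann a start` with phase `1` there is a complete state `x` with
`Win red x start` (a step of `start` is impossible, it is nonrunning; a choice of `b` in phase `1` needs `a.stk = []`).
Then `finalYZ` with the boards `(x, start)`, `(x, start)`, `(start, start)`.

`triR` (type R): RA: by induction on `AW R1 ann a start` with phase `1` there are an incomplete nonrunning `x` and `n`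
with `AW R1 ⟨2,0,0,false⟩ x (start.pick n)`.  RB (`stageRB`): induction on `AW R1 ann y2 start`, phase `1` (board
`yz`), `y1` follows on the board `xy` in phase `2` (`ready_R2`).  RC (`stageRC`): induction on `AW R1 ann y2 z2`,
phase `2` (board `yz`), `z1` follows on the board `xz` (`ready_R2`); when `z2` is complete: `finalXY`.
-/

set_option autoImplicit false

namespace Pool.Agent.H90.Ord

variable {red : List ℕ → List ℕ → Prop}

/-- a win at a position with two complete states -/
private theorem win_complete {a b : St} (h : Win red a b) (ha : a.stk = []) (hb : b.stk = []) :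
    red a.real b.real := by
  cases h with
  | done _ _ h => exact h
  | pickA _ _ _ h0 _ => exact absurd ha h0
  | pickB _ _ _ h0 _ _ => exact absurd hb h0
  | stepA _ ha' _ _ _ => exact absurd (Or.inl ha) ha'
  | stepB _ _ hb' _ _ => exact absurd (Or.inl hb) hb'

private theorem running_stk {s : St} (h : ¬ s.Nonrun) : s.stk ≠ [] := fun h0 => h (Or.inl h0)

private theorem finalXY_aux {z1 z2 : St} (hz : z1.real = z2.real) (hz1 : z1.stk = [])
    (hz2 : z2.stk = []) {x1 y1 : St} (hxy : Win red x1 y1) :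
    ∀ x2 y2 : St, Par x1 x2 → Par y1 y2 → Win red x2 z1 → Win red y2 z2 → Tri red := by
  induction hxy with
  | @done a b ha hb h =>
      intro x2 y2 hx hy hxz hyz
      have h1 := win_complete hxz (hx.stk_nil.1 ha) hz1
      have h2 := win_complete hyz (hy.stk_nil.1 hb) hz2
      refine ⟨a.real, b.real, z1.real, h, ?_, ?_⟩
      · rw [hx.1]
        exact h1
      · rw [hy.1, hz]
        exact h2
  | pickA n _ _ _ _ ih =>
      intro x2 y2 hx hy hxz hyz
      exact ih x2 y2 (hx.pick1 n) hy hxz hyz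
  | pickB n _ _ _ _ _ ih =>
      intro x2 y2 hx hy hxz hyz
      exact ih x2 y2 hx (hy.pick1 n) hxz hyz
  | stepA T ha _ hT _ ih =>
      intro x2 y2 hx hy hxz hyz
      have h0 : x2.stk ≠ [] := fun h0 => running_stk ha (hx.stk_nil.2 h0)
      obtain ⟨l, hl, t', ht', hp⟩ := lead_step hx hT (ready_WinA hxz hz1 h0)
      exact ih l hl t' y2 hp hy ht' hyz
  | stepB T _ hb hT _ ih =>
      intro x2 y2 hx hy hxz hyz
      have h0 : y2.stk ≠ [] := fun h0 => running_stk hb (hy.stk_nil.2 h0)
      obtain ⟨l, hl, t', ht', hp⟩ := lead_step hy hT (ready_WinA hyz hz2 h0)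
      exact ih l hl x2 t' hx hp hxz ht'

private theorem finalYZ_aux {x1 x2 : St} (hx : x1.real = x2.real) (hx1 : x1.stk = [])
    (hx2 : x2.stk = []) {y2 z2 : St} (hyz : Win red y2 z2) :
    ∀ y1 z1 : St, Par y1 y2 → Par z1 z2 → Win red x1 y1 → Win red x2 z1 → Tri red := by
  induction hyz with
  | @done a b ha hb h =>
      intro y1 z1 hy hz hxy hxz
      have h1 := win_complete hxy hx1 (hy.stk_nil.2 ha)
      have h2 := win_complete hxz hx2 (hz.stk_nil.2 hb)
      refine ⟨x1.real, a.real, b.real, ?_, ?_, h⟩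
      · rw [← hy.1]
        exact h1
      · rw [← hz.1, hx]
        exact h2
  | pickA n _ _ _ _ ih =>
      intro y1 z1 hy hz hxy hxz
      exact ih y1 z1 (hy.pick2 n) hz hxy hxz
  | pickB n _ _ _ _ _ ih =>
      intro y1 z1 hy hz hxy hxz
      exact ih y1 z1 hy (hz.pick2 n) hxy hxz
  | stepA T ha _ hT _ ih =>
      intro y1 z1 hy hz hxy hxz
      have h0 : y1.stk ≠ [] := fun h0 => running_stk ha (hy.stk_nil.1 h0)
      obtain ⟨l, hl, t', ht', hp⟩ := lead_step hy.symm hT (ready_WinB hxy hx1 h0)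
      exact ih l hl t' z1 hp.symm hz ht' hxz
  | stepB T _ hb hT _ ih =>
      intro y1 z1 hy hz hxy hxz
      have h0 : z1.stk ≠ [] := fun h0 => running_stk hb (hz.stk_nil.1 h0)
      obtain ⟨l, hl, t', ht', hp⟩ := lead_step hz.symm hT (ready_WinB hxz hx2 h0)
      exact ih l hl y1 t' hy hp.symm hxy ht'

theorem finalXY {x1 x2 y1 y2 z1 z2 : St} (hxy : Win red x1 y1) (hxz : Win red x2 z1)
    (hyz : Win red y2 z2) (hx : Par x1 x2) (hy : Par y1 y2) (hz : z1.real = z2.real)
    (hz1 : z1.stk = []) (hz2 : z2.stk = []) : Tri red := by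
  exact finalXY_aux hz hz1 hz2 hxy x2 y2 hx hy hxz hyz

theorem finalYZ {x1 x2 y1 y2 z1 z2 : St} (hxy : Win red x1 y1) (hxz : Win red x2 z1)
    (hyz : Win red y2 z2) (hx : x1.real = x2.real) (hy : Par y1 y2) (hz : Par z1 z2)
    (hx1 : x1.stk = []) (hx2 : x2.stk = []) : Tri red := by
  exact finalYZ_aux hx hx1 hx2 hyz y1 z1 hy hz hxy hxz

private theorem tri0_aux {ann : Ann} {a b : St} (h : AW red T0 ann a b) :
    ann.ph = 1 → b = start → ∃ x : St, x.stk = [] ∧ Win red x start := by
  induction h with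
  | done _ _ _ hd =>
      intro hph _
      have hd' : _ = 2 := hd
      omega
  | pickA n _ _ _ ht _ ih =>
      intro hph hb
      rcases ht with ⟨_, _, rfl⟩ | ⟨_, h1, _⟩ | ⟨h1, _⟩
      · exact ih hph hb
      · exact absurd h1 (by decide)
      · omega
  | @pickB ann ann' a b n ha hb h0 hr ht h ih =>
      intro hph hbs
      rcases ht with ⟨_, h1, _⟩ | ⟨_, _, h1, _⟩ | ⟨h1, _⟩
      · exact absurd h1 (by decide)
      · subst hbs
        exact ⟨a, h1, Win.pickB n ha hb h0 hr h.toWin⟩
      · omega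
  | stepA f T _ _ ht hT _ ih =>
      intro hph hb
      obtain ⟨_, hf⟩ := ht
      have hf' : f = fun _ => _ := hf
      obtain ⟨l, hl, _⟩ := big_nonempty hT
      refine ih l hl ?_ hb
      rw [hf']
      exact hph
  | stepB f T _ hb _ _ _ _ =>
      intro _ hbs
      subst hbs
      exact absurd start_nonrun hb

theorem tri0 (h : AW red T0 ⟨1, 0, 0, false⟩ start start) : Tri red := by
  obtain ⟨x, hx, hw⟩ := tri0_aux h rfl rfl
  exact finalYZ (y1 := start) (z1 := start) hw hw h.toWin rfl ⟨rfl, rfl⟩ ⟨rfl, rfl⟩ hx hx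

private theorem stageRC_aux {x : St} (hx : x.Nonrun) {y1 : St}
    (hxy : AW red R1 ⟨2, 0, 0, false⟩ x y1) {ann : Ann} {y2 z2 : St}
    (hyz : AW red R1 ann y2 z2) : ann.ph = 2 → Par y1 y2 → ∀ z1 : St,
      AW red R1 ⟨2, 0, 0, false⟩ x z1 → Par z1 z2 → Tri red := by
  induction hyz with
  | done _ _ _ hd =>
      intro hph
      have hd' : _ = 3 := hd
      omega
  | @pickA ann ann' a b n ha hb h0 ht h ih =>
      intro hph hy z1 hxz hz
      rcases ht with ⟨h1, _⟩ | ⟨h1, _⟩ | ⟨_, h1, _⟩ | ⟨_, _, h1, _⟩ | ⟨h1, _⟩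
      · omega
      · omega
      · exact absurd h1 (by decide)
      · exact finalXY hxy.toWin hxz.toWin (Win.pickA n ha hb h0 h.toWin) ⟨rfl, rfl⟩ hy hz.1
          (hz.stk_nil.2 h1) h1
      · omega
  | pickB n _ _ _ _ ht _ ih =>
      intro hph hy z1 hxz hz
      rcases ht with ⟨h1, _⟩ | ⟨h1, _⟩ | ⟨_, _, rfl⟩ | ⟨_, h1, _⟩ | ⟨h1, _⟩
      · omega
      · omega
      · exact ih hph hy z1 hxz (hz.pick2 n)
      · exact absurd h1 (by decide)
      · omega
  | stepA f T _ _ ht _ _ _ =>
      intro hph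
      rcases ht.1 with ⟨h1, _⟩ | ⟨_, h1⟩ | ⟨h1, _⟩
      · omega
      · exact absurd h1 (by decide)
      · omega
  | stepB f T _ hb ht hT _ ih =>
      intro hph hy z1 hxz hz
      have h0 : z1.stk ≠ [] := fun h0 => running_stk hb (hz.stk_nil.1 h0)
      obtain ⟨l, hl, t', ht', hp⟩ := lead_step hz.symm hT (ready_R2 hxz hx h0)
      have hf' : f = fun _ => _ := ht.2
      refine ih l hl ?_ hy t' ht' hp.symm
      rw [hf']
      exact hph

theorem stageRC {ann : Ann} {x y1 y2 z1 z2 : St} (hyz : AW red R1 ann y2 z2) (hph : ann.ph = 2)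
    (hx : x.Nonrun) (hxy : AW red R1 ⟨2, 0, 0, false⟩ x y1)
    (hxz : AW red R1 ⟨2, 0, 0, false⟩ x z1) (hy : Par y1 y2) (hz : Par z1 z2) : Tri red := by
  exact stageRC_aux hx hxy hyz hph hy z1 hxz hz

private theorem stageRB_aux {x : St} (hx : x.Nonrun) {z1 : St}
    (hxz : AW red R1 ⟨2, 0, 0, false⟩ x z1) (hz : Par z1 start) {ann : Ann} {y2 b : St}
    (hyz : AW red R1 ann y2 b) : ann.ph = 1 → b = start → ∀ y1 : St,
      AW red R1 ⟨2, 0, 0, false⟩ x y1 → Par y1 y2 → Tri red := by
  induction hyz with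
  | done _ _ _ hd =>
      intro hph
      have hd' : _ = 3 := hd
      omega
  | pickA n _ _ _ ht _ ih =>
      intro hph hb y1 hxy hy
      rcases ht with ⟨_, _, rfl⟩ | ⟨_, h1, _⟩ | ⟨h1, _⟩ | ⟨h1, _⟩ | ⟨h1, _⟩
      · exact ih hph hb y1 hxy (hy.pick2 n)
      · exact absurd h1 (by decide)
      · omega
      · omega
      · omega
  | @pickB ann ann' a b n _ _ _ _ ht h _ =>
      intro hph hb y1 hxy hy
      rcases ht with ⟨_, h1, _⟩ | ⟨_, _, _, _, rfl⟩ | ⟨h1, _⟩ | ⟨h1, _⟩ | ⟨h1, _⟩
      · exact absurd h1 (by decide)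
      · subst hb
        exact stageRC h rfl hx hxy hxz hy (hz.pick2 n)
      · omega
      · omega
      · omega
  | stepA f T ha _ ht hT _ ih =>
      intro hph hb y1 hxy hy
      have h0 : y1.stk ≠ [] := fun h0 => running_stk ha (hy.stk_nil.1 h0)
      obtain ⟨l, hl, t', ht', hp⟩ := lead_step hy.symm hT (ready_R2 hxy hx h0)
      have hf' : f = fun _ => _ := ht.2
      refine ih l hl ?_ hb t' ht' hp.symm
      rw [hf']
      exact hph
  | stepB f T _ hb _ _ _ _ =>
      intro _ hbs
      subst hbs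
      exact absurd start_nonrun hb

theorem stageRB {ann : Ann} {x y1 y2 z1 : St} (hyz : AW red R1 ann y2 start) (hph : ann.ph = 1)
    (hx : x.Nonrun) (hxy : AW red R1 ⟨2, 0, 0, false⟩ x y1)
    (hxz : AW red R1 ⟨2, 0, 0, false⟩ x z1) (hy : Par y1 y2) (hz : Par z1 start) : Tri red := by
  exact stageRB_aux hx hxz hz hyz hph rfl y1 hxy hy

private theorem triR_aux {ann : Ann} {a b : St} (h : AW red R1 ann a b) :
    ann.ph = 1 → b = start → ∃ (x : St) (n : ℕ), x.Nonrun ∧
      AW red R1 ⟨2, 0, 0, false⟩ x (start.pick n) := by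
  induction h with
  | done _ _ _ hd =>
      intro hph
      have hd' : _ = 3 := hd
      omega
  | pickA n _ _ _ ht _ ih =>
      intro hph hb
      rcases ht with ⟨_, _, rfl⟩ | ⟨_, h1, _⟩ | ⟨h1, _⟩ | ⟨h1, _⟩ | ⟨h1, _⟩
      · exact ih hph hb
      · exact absurd h1 (by decide)
      · omega
      · omega
      · omega
  | @pickB ann ann' a b n ha _ _ _ ht h _ =>
      intro hph hb
      rcases ht with ⟨_, h1, _⟩ | ⟨_, _, _, _, rfl⟩ | ⟨h1, _⟩ | ⟨h1, _⟩ | ⟨h1, _⟩
      · exact absurd h1 (by decide)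
      · subst hb
        exact ⟨a, n, ha, h⟩
      · omega
      · omega
      · omega
  | stepA f T _ _ ht hT _ ih =>
      intro hph hb
      have hf' : f = fun _ => _ := ht.2
      obtain ⟨l, hl, _⟩ := big_nonempty hT
      refine ih l hl ?_ hb
      rw [hf']
      exact hph
  | stepB f T _ hb _ _ _ _ =>
      intro _ hbs
      subst hbs
      exact absurd start_nonrun hb

theorem triR (h : AW red R1 ⟨1, 0, 0, false⟩ start start) : Tri red := by
  obtain ⟨x, n, hx, hw⟩ := triR_aux h rfl rfl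
  exact stageRB h rfl hx hw hw ⟨rfl, rfl⟩ ⟨rfl, rfl⟩

end Pool.Agent.H90.Ord
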