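import Pool.Agent.H90.Ord.JA

/-!
# The following boards: automata XZ and YZ (module JRA)

All by inversion of `AW`: if the moving vertex is running and the other one nonrunning, the last rule is a step;
if both are nonrunning it is a choice (or `done`); after a choice the chosen vertex is running
(`pick_not_nonrun`), so the next rule is a step of it.
-/

set_option autoImplicit false

namespace Pool.Agent.H90.Ord

variable {red : List ℕ → List ℕ → Prop}

private theorem jra_a {A : Auto} {ann : Ann} {a b : St} (haw : AW red A ann a b) (ha : ¬ a.Nonrun) :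
    ∃ (f : List ℕ → Ann) (T : Set (List ℕ)), b.Nonrun ∧ A.stepT ann true a b f ∧ Big (a.need + 1) T ∧
      ∀ l ∈ T, AW red A (f l) (a.step l) b := by
  cases haw with
  | done h1 _ _ _ => exact absurd (Or.inl h1) ha
  | pickA n h1 _ _ _ _ => exact absurd h1 ha
  | pickB n h1 _ _ _ _ _ => exact absurd h1 ha
  | stepA f T _ hb ht hT h => exact ⟨f, T, hb, ht, hT, h⟩
  | stepB f T h1 _ _ _ _ => exact absurd h1 ha

private theorem jra_b {A : Auto} {ann : Ann} {a b : St} (haw : AW red A ann a b) (hb : ¬ b.Nonrun) :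
    ∃ (f : List ℕ → Ann) (T : Set (List ℕ)), a.Nonrun ∧ A.stepT ann false a b f ∧ Big (b.need + 1) T ∧
      ∀ l ∈ T, AW red A (f l) a (b.step l) := by
  cases haw with
  | done _ h1 _ _ => exact absurd (Or.inl h1) hb
  | pickA n _ h1 _ _ _ => exact absurd h1 hb
  | pickB n _ h1 _ _ _ _ => exact absurd h1 hb
  | stepA f T _ h1 _ _ _ => exact absurd h1 hb
  | stepB f T ha _ ht hT h => exact ⟨f, T, ha, ht, hT, h⟩

private theorem jra_n {A : Auto} {ann : Ann} {a b : St} (haw : AW red A ann a b) (ha : a.Nonrun)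
    (hb : b.Nonrun) : (a.stk = [] ∧ b.stk = [] ∧ A.doneT ann) ∨
    (∃ n ann', a.stk ≠ [] ∧ A.pickT ann true a b ann' ∧ AW red A ann' (a.pick n) b) ∨
    (∃ n ann', b.stk ≠ [] ∧ A.pickT ann false a b ann' ∧ AW red A ann' a (b.pick n)) := by
  cases haw with
  | done h1 h2 _ h3 => exact Or.inl ⟨h1, h2, h3⟩
  | pickA n _ _ h1 h2 h3 => exact Or.inr (Or.inl ⟨n, _, h1, h2, h3⟩)
  | pickB n _ _ h1 _ h2 h3 => exact Or.inr (Or.inr ⟨n, _, h1, h2, h3⟩)
  | stepA f T h1 _ _ _ _ => exact absurd ha h1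
  | stepB f T _ h1 _ _ _ => exact absurd hb h1

private theorem jra_open {x : St} (hx : x.Nonrun) (h0 : x.stk ≠ []) : x.OpenTop := by
  rcases hx with h | h
  · exact absurd h h0
  · exact h.2

/-- a board which is running, pointer of `a` -/
private theorem jra_rp {A : Auto} {ph hb : ℕ} {h : ℕ} {x z x' : St}
    (hx' : x' = x ∨ ∃ n, x' = x.pick n) (haw : AW red A ⟨ph, h, hb, false⟩ x' z) (hr : ¬ x'.Nonrun)
    (hst : ∀ f, A.stepT ⟨ph, h, hb, false⟩ true x' z f → PtrA ⟨ph, h, hb, false⟩ x' f) :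
    ReadyP (fun h x => AW red A ⟨ph, h, hb, false⟩ x z) h x := by
  obtain ⟨f, T, _, h1, h2, h3⟩ := jra_a haw hr
  obtain ⟨g, h4, h5⟩ := hst f h1
  subst h5
  exact ⟨x', T, g, hx', hr, h4, h2, h3⟩

theorem ready_XZ16 {ph h : ℕ} (hph : ph = 1 ∨ ph = 6) {x : St}
    (haw : AW red XZ ⟨ph, h, 0, false⟩ x start) (h0 : x.stk ≠ [])
    (ho : x.OpenTop → ¬ h < x.stk.length ∨ (ph = 6 ∧ ¬ PIn x h)) :
    ReadyP (fun h x => AW red XZ ⟨ph, h, 0, false⟩ x start) h x := by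
  have hst : ∀ (x' : St) f, XZ.stepT ⟨ph, h, 0, false⟩ true x' start f → PtrA ⟨ph, h, 0, false⟩ x' f := by
    intro x' f hf
    rcases hph with rfl | rfl <;> simpa [XZ] using hf
  by_cases hr : x.Nonrun
  · rcases jra_n haw hr start_nonrun with h1 | ⟨n, ann', _, h1, h2⟩ | ⟨n, ann', _, h1, h2⟩
    · exact absurd h1.1 h0
    · have h3 : ann' = ⟨ph, h, 0, false⟩ := by
        rcases hph with rfl | rfl <;> simp [XZ] at h1 <;> exact h1.2
      rw [h3] at h2
      exact jra_rp (Or.inr ⟨n, rfl⟩) h2 (pick_not_nonrun n h0) (hst _)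
    · exfalso
      have h4 := ho (jra_open hr h0)
      rcases hph with rfl | rfl
      · simp [XZ] at h1
        rcases h4 with h4 | ⟨h4, _⟩
        · exact h4 h1.1
        · omega
      · simp [XZ] at h1
        rcases h4 with h4 | ⟨_, h4⟩
        · exact h4 h1.2.1
        · exact h4 h1.1
  · exact jra_rp (Or.inl rfl) haw hr (hst _)

theorem ready_XZ3 {h : ℕ} {x z : St} (haw : AW red XZ ⟨3, h, 0, false⟩ x z) (hz : z.Nonrun)
    (h0 : x.stk ≠ []) (hat : ¬ AT x h) :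
    ReadyP (fun h x => AW red XZ ⟨3, h, 0, false⟩ x z) h x := by
  have hst : ∀ (x' : St) f, XZ.stepT ⟨3, h, 0, false⟩ true x' z f → PtrA ⟨3, h, 0, false⟩ x' f := by
    intro x' f hf
    simpa [XZ] using hf
  by_cases hr : x.Nonrun
  · rcases jra_n haw hr hz with h1 | ⟨n, ann', _, h1, h2⟩ | ⟨n, ann', _, h1, h2⟩
    · exact absurd h1.1 h0
    · have h3 : ann' = ⟨3, h, 0, false⟩ := by
        simp [XZ] at h1
        exact h1.2
      rw [h3] at h2
      exact jra_rp (Or.inr ⟨n, rfl⟩) h2 (pick_not_nonrun n h0) (hst _)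
    · simp [XZ] at h1
      exact absurd h1.1 hat
  · exact jra_rp (Or.inl rfl) haw hr (hst _)

theorem cut_XZ3 {h : ℕ} {x z : St} (haw : AW red XZ ⟨3, h, 0, false⟩ x z) (hat : AT x h) :
    x.Nonrun ∧ ∃ n, AW red XZ ⟨4, 0, 0, false⟩ x (z.pick n) := by
  have hx : x.Nonrun := by
    by_contra hr
    obtain ⟨f, T, _, h1, _, _⟩ := jra_a haw hr
    simp [XZ] at h1
    obtain ⟨g, h2, _⟩ := h1
    exact h2.not_at hat
  have hz : z.Nonrun := by
    by_contra hr
    obtain ⟨f, T, _, h1, _, _⟩ := jra_b haw hr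
    simp [XZ] at h1
  refine ⟨hx, ?_⟩
  rcases jra_n haw hx hz with h1 | ⟨n, ann', _, h1, h2⟩ | ⟨n, ann', _, h1, h2⟩
  · simp [XZ] at h1
  · simp [XZ] at h1
    exact absurd h1.1 hat.not_nt
  · simp [XZ] at h1
    rw [h1.2] at h2
    exact ⟨n, h2⟩

theorem ready_XZ4 {x z : St} (haw : AW red XZ ⟨4, 0, 0, false⟩ x z) (hx : x.Nonrun)
    (h0 : z.stk ≠ []) : Ready (fun z => AW red XZ ⟨4, 0, 0, false⟩ x z) z := by
  have hst : ∀ (z' : St), (z' = z ∨ ∃ n, z' = z.pick n) → ¬ z'.Nonrun → AW red XZ ⟨4, 0, 0, false⟩ x z' →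
      Ready (fun z => AW red XZ ⟨4, 0, 0, false⟩ x z) z := by
    intro z' hz' hr haw'
    obtain ⟨f, T, _, h1, h2, h3⟩ := jra_b haw' hr
    have h4 : Same ⟨4, 0, 0, false⟩ f := by simpa [XZ] using h1
    unfold Same at h4
    subst h4
    exact ⟨z', T, hz', hr, h2, h3⟩
  by_cases hr : z.Nonrun
  · rcases jra_n haw hx hr with h1 | ⟨n, ann', _, h1, h2⟩ | ⟨n, ann', _, h1, h2⟩
    · exact absurd h1.2.1 h0
    · simp [XZ] at h1
      exact absurd h1.1 h0
    · simp [XZ] at h1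
      rw [h1] at h2
      exact hst _ (Or.inr ⟨n, rfl⟩) (pick_not_nonrun n h0) h2
  · exact hst z (Or.inl rfl) hr haw

theorem ready_YZ1 {k : ℕ} {y : St} (haw : AW red YZ ⟨1, k, 0, false⟩ y start) (h0 : y.stk ≠ [])
    (hat : ¬ AT y k) : ReadyP (fun k y => AW red YZ ⟨1, k, 0, false⟩ y start) k y := by
  have hst : ∀ (x' : St) f, YZ.stepT ⟨1, k, 0, false⟩ true x' start f → PtrA ⟨1, k, 0, false⟩ x' f := by
    intro x' f hf
    simpa [YZ] using hf
  by_cases hr : y.Nonrun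
  · rcases jra_n haw hr start_nonrun with h1 | ⟨n, ann', _, h1, h2⟩ | ⟨n, ann', _, h1, h2⟩
    · exact absurd h1.1 h0
    · have h3 : ann' = ⟨1, k, 0, false⟩ := by
        simp [YZ] at h1
        exact h1.2
      rw [h3] at h2
      exact jra_rp (Or.inr ⟨n, rfl⟩) h2 (pick_not_nonrun n h0) (hst _)
    · simp [YZ] at h1
      exact absurd h1.1 hat
  · exact jra_rp (Or.inl rfl) haw hr (hst _)

theorem cut_YZ1 {k : ℕ} {y : St} (haw : AW red YZ ⟨1, k, 0, false⟩ y start) (hat : AT y k) :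
    y.Nonrun ∧ ∃ n, AW red YZ ⟨2, 0, 1, false⟩ y (start.pick n) := by
  have hx : y.Nonrun := by
    by_contra hr
    obtain ⟨f, T, _, h1, _, _⟩ := jra_a haw hr
    simp [YZ] at h1
    obtain ⟨g, h2, _⟩ := h1
    exact h2.not_at hat
  refine ⟨hx, ?_⟩
  rcases jra_n haw hx start_nonrun with h1 | ⟨n, ann', _, h1, h2⟩ | ⟨n, ann', _, h1, h2⟩
  · simp [YZ] at h1
  · simp [YZ] at h1
    exact absurd h1.1 hat.not_nt
  · simp [YZ] at h1
    rw [h1.2.2] at h2
    exact ⟨n, h2⟩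

theorem ready_YZ2 {j : ℕ} {y z : St} (haw : AW red YZ ⟨2, 0, j, false⟩ y z) (hy : y.Nonrun)
    (h0 : z.stk ≠ []) (hat : ¬ AT z j) :
    ReadyP (fun j z => AW red YZ ⟨2, 0, j, false⟩ y z) j z := by
  have hst : ∀ (z' : St), (z' = z ∨ ∃ n, z' = z.pick n) → ¬ z'.Nonrun → AW red YZ ⟨2, 0, j, false⟩ y z' →
      ReadyP (fun j z => AW red YZ ⟨2, 0, j, false⟩ y z) j z := by
    intro z' hz' hr haw'
    obtain ⟨f, T, _, h1, h2, h3⟩ := jra_b haw' hr
    have h4 : PtrB ⟨2, 0, j, false⟩ z' f := by simpa [YZ] using h1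
    obtain ⟨g, h5, h6⟩ := h4
    subst h6
    exact ⟨z', T, g, hz', hr, h5, h2, h3⟩
  by_cases hr : z.Nonrun
  · rcases jra_n haw hy hr with h1 | ⟨n, ann', _, h1, h2⟩ | ⟨n, ann', _, h1, h2⟩
    · exact absurd h1.2.1 h0
    · simp [YZ] at h1
      exact absurd h1.1 hat
    · simp [YZ] at h1
      rw [h1.2] at h2
      exact hst _ (Or.inr ⟨n, rfl⟩) (pick_not_nonrun n h0) h2
  · exact hst z (Or.inl rfl) hr haw

theorem cut_YZ2 {j : ℕ} {y z : St} (haw : AW red YZ ⟨2, 0, j, false⟩ y z) (hy : y.Nonrun)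
    (hat : AT z j) : z.Nonrun ∧ ∃ n, AW red YZ ⟨3, 0, 0, false⟩ (y.pick n) z := by
  have hz : z.Nonrun := by
    by_contra hr
    obtain ⟨f, T, _, h1, _, _⟩ := jra_b haw hr
    simp [YZ] at h1
    obtain ⟨g, h2, _⟩ := h1
    exact h2.not_at hat
  refine ⟨hz, ?_⟩
  rcases jra_n haw hy hz with h1 | ⟨n, ann', _, h1, h2⟩ | ⟨n, ann', _, h1, h2⟩
  · simp [YZ] at h1
  · simp [YZ] at h1
    rw [h1.2] at h2
    exact ⟨n, h2⟩
  · simp [YZ] at h1
    exact absurd h1.1 hat.not_nt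

theorem ready_YZ3 {y z : St} (haw : AW red YZ ⟨3, 0, 0, false⟩ y z) (hz : z.Nonrun)
    (hy : ¬ y.Nonrun) : Ready (fun y => AW red YZ ⟨3, 0, 0, false⟩ y z) y := by
  obtain ⟨f, T, _, h1, h2, h3⟩ := jra_a haw hy
  have h4 : Same ⟨3, 0, 0, false⟩ f := by
    simp [YZ] at h1
    exact h1.2
  unfold Same at h4
  subst h4
  exact ⟨y, T, Or.inl rfl, hy, h2, h3⟩

end Pool.Agent.H90.Ord
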