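import Pool.Agent.H90.Ord.JL
import Pool.Agent.H90.Ord.JRa
import Pool.Agent.H90.Ord.JF

/-!
# Stages C and D of type II.1 (module J1C)

`stage1D`: the leading board is `yz` (automaton YZ, phase `3`), induction on its win.  `x` waits at `v` on both
boards.  If `z2` is complete: `finalXY` (`Par.stk_nil`, `AW.toWin`).  Choices of `y2`, `z2`: the same hypotheses.
Step of `y2`: `y1` is ready by `ready_XY4` (with flag `true` it is not open, `LayD.not_open`); `y2` has a marked entry,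
otherwise `NM_false`; `par_step` and `LayD.step`; the new flag is `true` if the top of `y1` is outer.  Step of `z2`:
`z1` is ready by `ready_XZ4`, `lead_step`.

`stage1C`: the leading board is `xy` (automaton XY1, phases `2` and `3`), induction on its win.  `z` waits at `u`.
Choice of `x1`: the same hypotheses.  Choice of `y1`: phase `3`, the same hypotheses with `y1.pick n`; if `AT x1`:
`stage1D` with `cut_XZ3` (`Ald.at_iff`) and `LayC.toD`.  Step of `x1`: `x2` is ready by `ready_XZ3`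
(`PtrStep.not_at`, `Ald.at_iff`), `lead_step1`.  Step of `y1` (phase `3`, `HasInnerMark y1`): `y2` is running
(`LayC.run`), ready by `ready_YZ3`, `LayC.lead`.
-/

set_option autoImplicit false

namespace Pool.Agent.H90.Ord

variable {red : List ℕ → List ℕ → Prop}

private theorem ne_of_run {s : St} (h : ¬ s.Nonrun) : s.stk ≠ [] := (not_nonrun.1 h).1

theorem stage1D {ann : Ann} {x1 x2 y1 y2 z1 z2 : St} {κ : ℕ} {fl : Bool}
    (haw : AW red YZ ann y2 z2) (hph : ann.ph = 3) (hx1 : x1.Nonrun) (hx2 : x2.Nonrun)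
    (hx : Par x1 x2) (hxy : AW red XY1 ⟨4, 0, 0, fl⟩ x1 y1)
    (hxz : AW red XZ ⟨4, 0, 0, false⟩ x2 z1) (hy : LayD κ fl y1 y2) (hz : Par z1 z2) :
    Tri red := by
  have fin : ∀ {ann : Ann} {y1 y2 z1 z2 : St} {fl : Bool}, AW red YZ ann y2 z2 → AW red XY1 ⟨4, 0, 0, fl⟩ x1 y1 →
      AW red XZ ⟨4, 0, 0, false⟩ x2 z1 → LayD κ fl y1 y2 → Par z1 z2 → z2.stk = [] → Tri red := by
    intro ann y1 y2 z1 z2 fl h1 h2 h3 h4 h5 h6
    exact finalXY h2.toWin h3.toWin h1.toWin hx h4.par h5.1 (h5.stk_nil.2 h6) h6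
  induction haw generalizing y1 z1 fl with
  | @done ann y2 z2 ha hb h hd =>
    exact fin (AW.done ha hb h hd) hxy hxz hy hz hb
  | @pickA ann ann' y2 z2 n ha hb h0 ht h ih =>
    rcases ht with ⟨h1, _⟩ | ⟨h1, _⟩ | ⟨h1, _⟩ | ⟨h1, _⟩ | ⟨_, _, h2⟩
    · omega
    · omega
    · omega
    · omega
    · subst h2
      exact ih hph hxy hxz (hy.pick2 n) hz
  | @pickB ann ann' y2 z2 n ha hb h0 hr ht h ih =>
    rcases ht with ⟨h1, _⟩ | ⟨h1, _⟩ | ⟨h1, _⟩ | ⟨h1, _⟩ | ⟨_, _, h2⟩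
    · omega
    · omega
    · omega
    · omega
    · subst h2
      exact ih hph hxy hxz hy (hz.pick2 n)
  | @stepA ann y2 z2 f T ha hb ht hT h ih =>
    by_cases hz0 : z2.stk = []
    · exact fin (AW.stepA f T ha hb ht hT h) hxy hxz hy hz hz0
    rcases ht with ⟨h1, _⟩ | ⟨h1, _⟩ | ⟨_, _, h2⟩
    · omega
    · omega
    · have hm : ¬ NMk y2 := fun hm => NM_false (AW.stepA f T ha hb (Or.inr (Or.inr ⟨hph, ‹_›, h2⟩)) hT h) hph hm hz0
      have hy2 : y2.stk ≠ [] := ne_of_run ha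
      have hy1 : y1.stk ≠ [] := fun hc => hy2 (hy.par.stk_nil.1 hc)
      obtain ⟨y1', T1, e1, e2, e3, e4⟩ := ready_XY4 hxy hx1 hy1 (fun hf => by
        subst hf
        exact hy.not_open)
      have hy' : LayD κ fl y1' y2 := by
        rcases e1 with rfl | ⟨n, rfl⟩
        · exact hy
        · exact hy.pick1 n
      have hto : TopOut y1' ↔ TopOut y1 := by
        rcases e1 with rfl | ⟨n, rfl⟩
        · exact Iff.rfl
        · exact Iff.rfl
      obtain ⟨l1, hl1, l2, hl2, _, _, _, _, hlast, _⟩ := par_step hy'.par e3 hT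
      have hf : f l2 = ann := by rw [h2]
      have hph' : (f l2).ph = 3 := by rw [hf]; exact hph
      have hst := hy'.step hm hlast
      by_cases hto1 : TopOut y1
      · exact ih l2 hl2 hph' ((e4 l1 hl1).1 hto1) hxz (hst.1 (hto.2 hto1)) hz
      · exact ih l2 hl2 hph' ((e4 l1 hl1).2 hto1) hxz (hst.2 (fun hc => hto1 (hto.1 hc))) hz
  | @stepB ann y2 z2 f T ha hb ht hT h ih =>
    rcases ht with ⟨h1, _⟩ | ⟨h1, _⟩ | ⟨_, _, h2⟩
    · omega
    · omega
    · have hz2 : z2.stk ≠ [] := ne_of_run hb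
      have hz1 : z1.stk ≠ [] := fun hc => hz2 (hz.stk_nil.1 hc)
      obtain ⟨l, hl, z1', e1, e2⟩ := lead_step hz.symm hT (ready_XZ4 hxz hx2 hz1)
      have hf : f l = ann := by rw [h2]
      have hph' : (f l).ph = 3 := by rw [hf]; exact hph
      exact ih l hl hph' hxy e1 hy e2.symm

theorem stage1C {ann : Ann} {x1 x2 y1 y2 z1 z2 : St} {κ γ : ℕ}
    (haw : AW red XY1 ann x1 y1) (hph : ann.ph = 2 ∨ ann.ph = 3) (hal : Ald true x1 x2 ann.ha)
    (hxz : AW red XZ ⟨3, ann.ha, 0, false⟩ x2 z1) (hz1 : z1.Nonrun) (hz2 : z2.Nonrun)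
    (hz : Par z1 z2) (hyz : AW red YZ ⟨3, 0, 0, false⟩ y2 z2) (hy : LayC κ γ y1 y2) :
    Tri red := by
  induction haw generalizing x2 y2 with
  | @done ann x1 y1 ha hb h hd =>
    have h1 : ann.ph = 5 := hd
    omega
  | @pickA ann ann' x1 y1 n ha hb h0 ht h ih =>
    rcases ht with ⟨h1, _⟩ | ⟨h1, _⟩ | ⟨h1, _⟩ | ⟨_, _, _, h2⟩ | ⟨_, h1, _⟩ | ⟨_, _, _, h2⟩ | ⟨_, h1, _⟩ | ⟨_, h1, _⟩ | ⟨h1, _⟩ |
      ⟨h1, _⟩ | ⟨h1, _⟩
    · omega
    · omega
    · omega
    · subst h2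
      exact ih hph (hal.pick1 n) hxz hyz hy
    · exact absurd h1 (by simp)
    · subst h2
      exact ih hph (hal.pick1 n) hxz hyz hy
    · exact absurd h1 (by simp)
    · exact absurd h1 (by simp)
    · omega
    · omega
    · omega
  | @pickB ann ann' x1 y1 n ha hb h0 hr ht h ih =>
    rcases ht with ⟨h1, _⟩ | ⟨h1, _⟩ | ⟨h1, _⟩ | ⟨_, h1, _⟩ | ⟨_, _, _, _, h2⟩ | ⟨_, h1, _⟩ | ⟨_, _, _, h2⟩ | ⟨_, _, h1, h2⟩ | ⟨h1, _⟩ |
      ⟨h1, _⟩ | ⟨h1, _⟩
    · omega
    · omega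
    · omega
    · exact absurd h1 (by simp)
    · subst h2
      exact ih (Or.inr rfl) hal hxz hyz (hy.pick1 n)
    · exact absurd h1 (by simp)
    · subst h2
      exact ih hph hal hxz hyz (hy.pick1 n)
    · subst h2
      obtain ⟨h3, n', h4⟩ := cut_XZ3 hxz (hal.at_iff.1 h1)
      exact stage1D hyz rfl ha h3 hal.par h h4 (hy.toD.pick1 n) (hz.pick1 n')
    · omega
    · omega
    · omega
  | @stepA ann x1 y1 f T ha hb ht hT h ih =>
    have key : PtrA ann x1 f → Tri red := by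
      rintro ⟨g, hg, rfl⟩
      have hx1 : x1.stk ≠ [] := ne_of_run ha
      have hx2 : x2.stk ≠ [] := fun hc => hx1 (hal.par.stk_nil.2 hc)
      obtain ⟨l, hl, x2', e1, e2⟩ := lead_step1 hal hg hT
        (ready_XZ3 hxz hz1 hx2 (fun hc => hg.not_at (hal.at_iff.2 hc)))
      exact ih l hl hph e2 e1 hyz hy
    rcases ht with ⟨h1, _⟩ | ⟨h1, _⟩ | ⟨_, _, h2⟩ | ⟨_, _, h2⟩ | ⟨_, h1, _⟩ | ⟨h1, _⟩ | ⟨h1, _⟩ | ⟨h1, _⟩
    · omega
    · omega
    · exact key h2
    · exact key h2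
    · exact absurd h1 (by simp)
    · omega
    · omega
    · omega
  | @stepB ann x1 y1 f T ha hb ht hT h ih =>
    rcases ht with ⟨h1, _⟩ | ⟨h1, _⟩ | ⟨_, h1, _⟩ | ⟨_, h1, _⟩ | ⟨_, _, h1, h2⟩ | ⟨h1, _⟩ | ⟨h1, _⟩ | ⟨h1, _⟩
    · omega
    · omega
    · exact absurd h1 (by simp)
    · exact absurd h1 (by simp)
    · obtain ⟨l, hl, y2', e1, e2⟩ := hy.lead h1 hT (ready_YZ3 hyz hz2 (hy.run h1))
      have hf : f l = ann := by rw [h2]
      have hph' : (f l).ph = 2 ∨ (f l).ph = 3 := by rw [hf]; exact hph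
      have hal' : Ald true x1 x2 (f l).ha := by rw [hf]; exact hal
      have hxz' : AW red XZ ⟨3, (f l).ha, 0, false⟩ x2 z1 := by rw [hf]; exact hxz
      exact ih l hl hph' hal' hxz' e1 e2
    · omega
    · omega
    · omega

end Pool.Agent.H90.Ord
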