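import Pool.Agent.H90.Ord.JAB
import Pool.Agent.H90.Ord.J1C

/-!
# Type II.1 (module J1)

`stage1A`: the leading board is `xy` (automaton XY1, phase `1`), induction on its win; `z` has not started.  Choices
with phase `1`: the same hypotheses.  The choice of `x1` with `AT y1` and phase `2`: `stageA2` with
`K h x1 = AW red XY1 ⟨2, h, 0, false⟩ x1 y1`, `ε = true`; `Follow` by `ready_XY2` and `xOpen2`; `Cont` by `stage1C`
with `LayC.of_target`.  Step of `x1`: `x2` is ready by `ready_XZ16` and `xOpen1`, `lead_step1`.  Step of `y1`: `y2` is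
ready by `ready_YZ1`, `lead_step1`.
-/

set_option autoImplicit false

namespace Pool.Agent.H90.Ord

variable {red : List ℕ → List ℕ → Prop}

theorem follow_XY2 {y1 : St} (hy : y1.Nonrun) :
    Follow red true (fun h x1 => AW red XY1 ⟨2, h, 0, false⟩ x1 y1) := by
  intro ann x1 x2 z1 hK hal hph haw
  exact ready_XY2 hK hy hal.pos.2 (fun ho => xOpen2 haw hph hal ho)

theorem cont_1 {y1 y2 : St} {k : ℕ} (hy : Ald true y1 y2 k) (hat : AT y1 k) :
    Cont red true (fun h x1 => AW red XY1 ⟨2, h, 0, false⟩ x1 y1) y2 := by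
  intro h x1 x2 z1 z2 n hK hal hxz hz1 hz2 hz _ hyz
  obtain ⟨κ, γ, hL⟩ := LayC.of_target hy hat n
  exact stage1C hK (Or.inl rfl) hal hxz hz1 hz2 hz hyz hL

theorem stage1A {ann : Ann} {x1 x2 y1 y2 : St} (haw : AW red XY1 ann x1 y1) (hph : ann.ph = 1)
    (hx : Ald true x1 x2 ann.ha) (hy : Ald true y1 y2 ann.hb)
    (hxz : AW red XZ ⟨1, ann.ha, 0, false⟩ x2 start)
    (hyz : AW red YZ ⟨1, ann.hb, 0, false⟩ y2 start) : Tri red := by
  induction haw generalizing x2 y2 with
  | done ha hb h hd =>
    have h5 : _ = 5 := hd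
    rw [hph] at h5
    exact absurd h5 (by norm_num)
  | @pickA ann ann' a b n ha hb h0 ht h ih =>
    rcases ht with h1 | h1 | h1 | h1 | h1 | h1 | h1 | h1 | h1 | h1 | h1
    · obtain ⟨-, -, -, rfl⟩ := h1
      exact ih hph (hx.pick1 n) hy hxz hyz
    · obtain ⟨-, -, hat, -, rfl⟩ := h1
      exact stageA2 (K := fun h x1 => AW red XY1 ⟨2, h, 0, false⟩ x1 b) (hy.at_iff.1 hat)
        (follow_XY2 hb) (cont_1 hy hat) hxz rfl (Or.inl rfl) h (hx.pick1 n) hyz
    · exact absurd h1.2.1 (by simp)
    · exact absurd (hph.symm.trans h1.1) (by norm_num)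
    · exact absurd (hph.symm.trans h1.1) (by norm_num)
    · exact absurd (hph.symm.trans h1.1) (by norm_num)
    · exact absurd (hph.symm.trans h1.1) (by norm_num)
    · rcases h1.1 with h2 | h2
      · exact absurd (hph.symm.trans h2) (by norm_num)
      · exact absurd (hph.symm.trans h2) (by norm_num)
    · exact absurd (hph.symm.trans h1.1) (by norm_num)
    · exact absurd (hph.symm.trans h1.1) (by norm_num)
    · exact absurd (hph.symm.trans h1.1) (by norm_num)
  | @pickB ann ann' a b n ha hb h0 hr ht h ih =>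
    rcases ht with h1 | h1 | h1 | h1 | h1 | h1 | h1 | h1 | h1 | h1 | h1
    · exact absurd h1.2.1 (by simp)
    · exact absurd h1.2.1 (by simp)
    · obtain ⟨-, -, -, rfl⟩ := h1
      exact ih hph hx (hy.pick1 n) hxz hyz
    · exact absurd (hph.symm.trans h1.1) (by norm_num)
    · exact absurd (hph.symm.trans h1.1) (by norm_num)
    · exact absurd (hph.symm.trans h1.1) (by norm_num)
    · exact absurd (hph.symm.trans h1.1) (by norm_num)
    · rcases h1.1 with h2 | h2
      · exact absurd (hph.symm.trans h2) (by norm_num)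
      · exact absurd (hph.symm.trans h2) (by norm_num)
    · exact absurd (hph.symm.trans h1.1) (by norm_num)
    · exact absurd (hph.symm.trans h1.1) (by norm_num)
    · exact absurd (hph.symm.trans h1.1) (by norm_num)
  | @stepA ann a b f T ha hb ht hT h ih =>
    have hfull : AW red XY1 ann a b := AW.stepA f T ha hb ht hT h
    have hne : x2.stk ≠ [] := fun hc => hx.pos.2 (hx.par.stk_nil.2 hc)
    have hR := ready_XZ16 (Or.inl rfl) hxz hne
      (fun ho => Or.inl (xOpen1 hfull hph hx ho))
    rcases ht with h1 | h1 | h1 | h1 | h1 | h1 | h1 | h1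
    · obtain ⟨-, -, g, hg, rfl⟩ := h1
      obtain ⟨l, hl, t', hW, hal'⟩ := lead_step1 hx hg hT hR
      exact ih l hl hph hal' hy hW hyz
    · exact absurd h1.2.1 (by simp)
    · exact absurd (hph.symm.trans h1.1) (by norm_num)
    · exact absurd (hph.symm.trans h1.1) (by norm_num)
    · exact absurd (hph.symm.trans h1.1) (by norm_num)
    · exact absurd (hph.symm.trans h1.1) (by norm_num)
    · exact absurd (hph.symm.trans h1.1) (by norm_num)
    · exact absurd (hph.symm.trans h1.1) (by norm_num)
  | @stepB ann a b f T ha hb ht hT h ih =>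
    rcases ht with h1 | h1 | h1 | h1 | h1 | h1 | h1 | h1
    · exact absurd h1.2.1 (by simp)
    · obtain ⟨-, -, g, hg, rfl⟩ := h1
      have hne : y2.stk ≠ [] := fun hc => hy.pos.2 (hy.par.stk_nil.2 hc)
      have hR := ready_YZ1 hyz hne (fun hc => hg.not_at (hy.at_iff.2 hc))
      obtain ⟨l, hl, t', hW, hal'⟩ := lead_step1 hy hg hT hR
      exact ih l hl hph hx hal' hxz hW
    · exact absurd (hph.symm.trans h1.1) (by norm_num)
    · exact absurd (hph.symm.trans h1.1) (by norm_num)
    · exact absurd (hph.symm.trans h1.1) (by norm_num)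
    · exact absurd (hph.symm.trans h1.1) (by norm_num)
    · exact absurd (hph.symm.trans h1.1) (by norm_num)
    · exact absurd (hph.symm.trans h1.1) (by norm_num)

theorem tri1 (h1 : AW red XY1 ⟨1, 1, 1, false⟩ start start)
    (h2 : AW red XZ ⟨1, 1, 0, false⟩ start start)
    (h3 : AW red YZ ⟨1, 1, 0, false⟩ start start) : Tri red :=
  stage1A h1 rfl (ald_start true) (ald_start true) h2 h3

end Pool.Agent.H90.Ord
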