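import Pool.Agent.H90.Ord.JAB
import Pool.Agent.H90.Ord.JF

/-!
# Type II.2 (module J2)

`x` is aligned in mode `b` (`ε = false`), `y` and `z` in mode `a`; the boards `xy` and `xz` both follow XZ from phase `6`.
`stage2A6`: the leading board is `xy`, phase `6`, `y` has not started: step of `x1`: `x2` is ready by `ready_XZ16`
(second alternative) and `xOpen3`; choice of `y1`: `stage2A2` with `y1.pick n` (pointer `1`, `ald_start`).
`stage2A2`: phase `2`: step of `x1` as before, step of `y1`: `ready_YZ1`; the choice of `x1` with `AT y1`: `stageA2`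
with `K h x1 = AW red XZ ⟨3, h, 0, false⟩ x1 y1`, `ε = false`; `Follow` by `ready_XZ3` and `at_false` with
`Ald.at_iff`; `Cont` by `stage2C`.
`stage2C`: the leading board is `xy`, phase `3`, induction: step of `x1`: `x2` is ready by `ready_XZ3`; choice of `y1`
with `AT x1`: `stage2D` with `cut_XZ3`.
`stage2D`: the leading board is `yz`, phase `3`, induction: if `z2` is complete: `finalXY`; step of `y2`: `y1` is
ready by `ready_XZ4`; step of `z2`: `z1` is ready by `ready_XZ4`; `lead_step` in both cases.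
-/

set_option autoImplicit false

namespace Pool.Agent.H90.Ord

variable {red : List ℕ → List ℕ → Prop}

private theorem j2_ald_ne {ε : Bool} {s t : St} {h : ℕ} (ha : Ald ε s t h) : s.stk ≠ [] ∧ t.stk ≠ [] := by
  obtain ⟨-, h1 | ⟨κ, γ, A, p, B, h2, h3, -, -⟩⟩ := ha
  · rw [h1.1, h1.2.1]
    simp
  · rw [h2, h3]
    simp [p1, p2]

private theorem j2_run_ne {s : St} (h : ¬ s.Nonrun) : s.stk ≠ [] := fun h0 => h (Or.inl h0)

theorem stage2D {ann : Ann} {x1 x2 y1 y2 z1 z2 : St} (haw : AW red YZ ann y2 z2)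
    (hph : ann.ph = 3) (hx1 : x1.Nonrun) (hx2 : x2.Nonrun) (hx : Par x1 x2)
    (hxy : AW red XZ ⟨4, 0, 0, false⟩ x1 y1) (hxz : AW red XZ ⟨4, 0, 0, false⟩ x2 z1)
    (hy : Par y1 y2) (hz : Par z1 z2) : Tri red := by
  induction haw generalizing y1 z1 with
  | done ha hb h hd =>
    exact finalXY hxy.toWin hxz.toWin (AW.done ha hb h hd).toWin hx hy hz.1 (hz.stk_nil.2 hb) hb
  | pickA n ha hb h0 ht h ih =>
    simp [YZ, hph] at ht
    obtain ⟨-, rfl⟩ := ht
    exact ih hph hxy hxz (hy.pick2 n) hz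
  | pickB n ha hb h0 hr ht h ih =>
    simp [YZ, hph] at ht
    obtain ⟨-, rfl⟩ := ht
    exact ih hph hxy hxz hy (hz.pick2 n)
  | stepA f T ha hb ht hT h ih =>
    simp [YZ, hph, Same] at ht
    obtain ⟨-, rfl⟩ := ht
    have h0 := j2_run_ne ha
    obtain ⟨l, hl, y1', h1, h2⟩ := lead_step hy.symm hT (ready_XZ4 hxy hx1 (fun h => h0 (hy.stk_nil.1 h)))
    exact ih l hl hph h1 hxz h2.symm hz
  | stepB f T ha hb ht hT h ih =>
    simp [YZ, hph, Same] at ht
    obtain ⟨-, rfl⟩ := ht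
    have h0 := j2_run_ne hb
    obtain ⟨l, hl, z1', h1, h2⟩ := lead_step hz.symm hT (ready_XZ4 hxz hx2 (fun h => h0 (hz.stk_nil.1 h)))
    exact ih l hl hph hxy h1 hy h2.symm

theorem stage2C {ann : Ann} {x1 x2 y1 y2 z1 z2 : St} (haw : AW red XZ ann x1 y1)
    (hph : ann.ph = 3) (hal : Ald false x1 x2 ann.ha)
    (hxz : AW red XZ ⟨3, ann.ha, 0, false⟩ x2 z1) (hz1 : z1.Nonrun) (hy : Par y1 y2)
    (hz : Par z1 z2) (hyz : AW red YZ ⟨3, 0, 0, false⟩ y2 z2) : Tri red := by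
  induction haw generalizing x2 with
  | done ha hb h hd =>
    have h1 : _ = 5 := hd
    rw [hph] at h1
    exact absurd h1 (by norm_num)
  | pickA n ha hb h0 ht h ih =>
    simp [XZ, hph] at ht
    obtain ⟨-, rfl⟩ := ht
    exact ih hph (hal.pick1 n) hxz hy
  | pickB n ha hb h0 hr ht h ih =>
    simp [XZ, hph] at ht
    obtain ⟨hat, rfl⟩ := ht
    obtain ⟨h1, n', h2⟩ := cut_XZ3 hxz (hal.at_iff.1 hat)
    exact stage2D hyz rfl ha h1 hal.par h h2 (hy.pick1 n) (hz.pick1 n')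
  | stepA f T ha hb ht hT h ih =>
    simp [XZ, hph, PtrA] at ht
    obtain ⟨g, hg, rfl⟩ := ht
    have h1 : ¬ AT _ _ := fun hat => hg.not_at (hal.at_iff.2 hat)
    obtain ⟨l, hl, x2', h2, h3⟩ := lead_step1 hal hg hT (ready_XZ3 hxz hz1 (j2_ald_ne hal).2 h1)
    exact ih l hl rfl h3 h2 hy
  | stepB f T ha hb ht hT h ih =>
    simp [XZ, hph] at ht

theorem follow_XZ3 {y1 : St} (hy : y1.Nonrun) :
    Follow red false (fun h x1 => AW red XZ ⟨3, h, 0, false⟩ x1 y1) := by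
  intro ann x1 x2 z1 hK hal hph haw
  exact ready_XZ3 hK hy (j2_ald_ne hal).1 (fun hat => at_false haw hph (hal.at_iff.1 hat))

theorem stage2A2 {ann : Ann} {x1 x2 y1 y2 : St} (haw : AW red XZ ann x1 y1) (hph : ann.ph = 2)
    (hx : Ald false x1 x2 ann.ha) (hy : Ald true y1 y2 ann.hb)
    (hxz : AW red XZ ⟨6, ann.ha, 0, false⟩ x2 start)
    (hyz : AW red YZ ⟨1, ann.hb, 0, false⟩ y2 start) : Tri red := by
  induction haw generalizing x2 y2 with
  | done ha hb h hd =>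
    have h1 : _ = 5 := hd
    rw [hph] at h1
    exact absurd h1 (by norm_num)
  | @pickA ann ann' a b n ha hb h0 ht h ih =>
    simp [XZ, hph] at ht
    rcases ht with ⟨-, rfl⟩ | ⟨-, hat, rfl⟩
    · exact ih hph (hx.pick1 n) hy hxz hyz
    · have hat2 := hy.at_iff.1 hat
      refine stageA2 (K := fun h x1 => AW red XZ ⟨3, h, 0, false⟩ x1 b) (ann := ⟨6, ann.ha, 0, false⟩) hat2
        (follow_XZ3 hb) ?_ hxz rfl (Or.inr rfl) h (hx.pick1 n) hyz
      intro h' x1' x2' z1' z2' n' hK hal hxz' hz1 hz2 hz _ hyz'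
      exact stage2C hK rfl hal hxz' hz1 (hy.par.pick2 n') hz hyz'
  | pickB n ha hb h0 hr ht h ih =>
    simp [XZ, hph] at ht
    obtain ⟨-, -, rfl⟩ := ht
    exact ih hph hx (hy.pick1 n) hxz hyz
  | @stepA ann a b f T ha hb ht hT h ih =>
    have haw' : AW red XZ ann a b := AW.stepA f T ha hb ht hT h
    simp [XZ, hph, PtrA] at ht
    obtain ⟨g, hg, rfl⟩ := ht
    have hR := ready_XZ16 (Or.inr rfl) hxz (j2_ald_ne hx).2
      (fun ho => Or.inr ⟨rfl, xOpen3 haw' (Or.inr (Or.inr hph)) hx ho⟩)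
    obtain ⟨l, hl, x2', h2, h3⟩ := lead_step1 hx hg hT hR
    exact ih l hl rfl h3 hy h2 hyz
  | stepB f T ha hb ht hT h ih =>
    simp [XZ, hph, PtrB] at ht
    obtain ⟨g, hg, rfl⟩ := ht
    have h1 : ¬ AT _ _ := fun hat => hg.not_at (hy.at_iff.2 hat)
    obtain ⟨l, hl, y2', h2, h3⟩ := lead_step1 hy hg hT (ready_YZ1 hyz (j2_ald_ne hy).2 h1)
    exact ih l hl rfl hx h3 hxz h2

theorem stage2A6 {ann : Ann} {x1 x2 y1 : St} (haw : AW red XZ ann x1 y1) (hph : ann.ph = 6)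
    (hy1 : y1 = start) (hx : Ald false x1 x2 ann.ha)
    (hxz : AW red XZ ⟨6, ann.ha, 0, false⟩ x2 start)
    (hyz : AW red YZ ⟨1, 1, 0, false⟩ start start) : Tri red := by
  induction haw generalizing x2 with
  | done ha hb h hd =>
    have h1 : _ = 5 := hd
    rw [hph] at h1
    exact absurd h1 (by norm_num)
  | pickA n ha hb h0 ht h ih =>
    simp [XZ, hph] at ht
    obtain ⟨-, rfl⟩ := ht
    exact ih hph hy1 (hx.pick1 n) hxz
  | pickB n ha hb h0 hr ht h ih =>
    simp [XZ, hph] at ht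
    obtain ⟨-, -, -, rfl⟩ := ht
    subst hy1
    exact stage2A2 h rfl hx ((ald_start true).pick1 n) hxz hyz
  | @stepA ann a b f T ha hb ht hT h ih =>
    have haw' : AW red XZ ann a b := AW.stepA f T ha hb ht hT h
    simp [XZ, hph, PtrA] at ht
    obtain ⟨g, hg, rfl⟩ := ht
    have hR := ready_XZ16 (Or.inr rfl) hxz (j2_ald_ne hx).2
      (fun ho => Or.inr ⟨rfl, xOpen3 haw' (Or.inr (Or.inl hph)) hx ho⟩)
    obtain ⟨l, hl, x2', h2, h3⟩ := lead_step1 hx hg hT hR
    exact ih l hl rfl hy1 h3 h2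
  | stepB f T ha hb ht hT h ih =>
    subst hy1
    exact absurd start_nonrun hb

theorem tri2 (h2 : AW red XZ ⟨6, 1, 0, false⟩ start start)
    (h3 : AW red YZ ⟨1, 1, 0, false⟩ start start) : Tri red :=
  stage2A6 h2 rfl rfl (ald_start false) h2 h3

end Pool.Agent.H90.Ord
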