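import Pool.Agent.H90.Ord.ALf

/-!
# Following a board (module JA)

`Ready W s`: the state `s` can be moved (perhaps after a choice of the copy number) with a Big set of lists, and
then `W` holds.  `ReadyP` is the same with a pointer.  `lead_step`: the leading board moves `s` with a Big set
`T`, the other board of the same vertex is ready: use `par_step` (module MA).  `lead_step1`, `lead_step2`: the
same with pointers, use `ald_step` (module ALF).
-/

set_option autoImplicit false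

namespace Pool.Agent.H90.Ord

/-- a triangle of `red` -/
def Tri (red : List ℕ → List ℕ → Prop) : Prop := ∃ x y z, red x y ∧ red x z ∧ red y z

/-- `s` can be moved, and then `W` holds -/
def Ready (W : St → Prop) (s : St) : Prop :=
  ∃ (s' : St) (T : Set (List ℕ)), (s' = s ∨ ∃ n, s' = s.pick n) ∧ ¬ s'.Nonrun ∧
    Big (s'.need + 1) T ∧ ∀ l ∈ T, W (s'.step l)

/-- `s` with the pointer `h` can be moved, and then `W` holds -/
def ReadyP (W : ℕ → St → Prop) (h : ℕ) (s : St) : Prop :=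
  ∃ (s' : St) (T : Set (List ℕ)) (g : List ℕ → ℕ), (s' = s ∨ ∃ n, s' = s.pick n) ∧ ¬ s'.Nonrun ∧
    PtrStep h s' g ∧ Big (s'.need + 1) T ∧ ∀ l ∈ T, W (g l) (s'.step l)

/-- at the target no pointer rule applies -/
theorem PtrStep.not_at {h : ℕ} {s : St} {g : List ℕ → ℕ} (hg : PtrStep h s g) : ¬ AT s h := by
  rintro ⟨h1, t, h2⟩
  cases hg with
  | zero =>
    rw [h2] at h1
    simp at h1
  | keep h0 h3 => omega
  | single hs hl =>
    rw [hs, List.cons.injEq, Prod.mk.injEq] at h2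
    rcases hl with hl | hl <;> rw [hl] at h2 <;> exact absurd h2.1.1 (by simp)
  | child k i hs hl hi =>
    rw [hs, List.cons.injEq, Prod.mk.injEq] at h2
    rcases hl with hl | hl <;> rw [hl] at h2 <;> exact absurd h2.1.1 (by simp)

theorem AT.openTop {s : St} {h : ℕ} (h1 : AT s h) : s.OpenTop := by
  obtain ⟨_, t, h2⟩ := h1
  exact ⟨t, Or.inl h2⟩

theorem AT.pin {s : St} {h : ℕ} (h1 : AT s h) : PIn s h := by
  obtain ⟨h1, t, h2⟩ := h1
  refine ⟨(.inn 0, .U), ⟨[], t, h2, ?_⟩, trivial⟩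
  rw [h1, h2]
  rfl

theorem AT.not_nt {s : St} {h : ℕ} (h1 : AT s h) : ¬ NT s h := by
  obtain ⟨h1, t, h2⟩ := h1
  rintro (h3 | ⟨u, h3⟩)
  · omega
  · rw [h2, List.cons.injEq, Prod.mk.injEq] at h3
    exact absurd h3.1.1 (by simp)

theorem start_nonrun : start.Nonrun := by
  exact Or.inr ⟨rfl, [], Or.inr rfl⟩

theorem lead_step {s t : St} (h : Par s t) {T : Set (List ℕ)} (hT : Big (s.need + 1) T)
    {W : St → Prop} (hW : Ready W t) : ∃ l ∈ T, ∃ t', W t' ∧ Par (s.step l) t' := by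
  obtain ⟨t', T', ht', _, hT', hW'⟩ := hW
  have hpar : Par s t' := by
    rcases ht' with rfl | ⟨n, rfl⟩
    · exact h
    · exact h.pick2 n
  obtain ⟨l1, hl1, l2, hl2, _, _, _, _, _, hp⟩ := par_step hpar hT hT'
  exact ⟨l1, hl1, t'.step l2, hW' l2 hl2, hp⟩

/-- the leading board is board `1` -/
theorem lead_step1 {ε : Bool} {s t : St} {h : ℕ} (ha : Ald ε s t h) {g : List ℕ → ℕ}
    (hg : PtrStep h s g) {T : Set (List ℕ)} (hT : Big (s.need + 1) T) {W : ℕ → St → Prop}
    (hW : ReadyP W h t) : ∃ l ∈ T, ∃ t', W (g l) t' ∧ Ald ε (s.step l) t' (g l) := by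
  obtain ⟨t', T', g', ht', _, hg', hT', hW'⟩ := hW
  have ha' : Ald ε s t' h := by
    rcases ht' with rfl | ⟨n, rfl⟩
    · exact ha
    · exact ha.pick2 n
  obtain ⟨l1, hl1, l2, hl2, _, _, _, _, _, hgg, hp⟩ := ald_step ha' hg hg' hT hT'
  refine ⟨l1, hl1, t'.step l2, ?_, hp⟩
  rw [hgg]
  exact hW' l2 hl2

/-- the leading board is board `2` -/
theorem lead_step2 {ε : Bool} {s t : St} {h : ℕ} (ha : Ald ε s t h) {g : List ℕ → ℕ}
    (hg : PtrStep h t g) {T : Set (List ℕ)} (hT : Big (t.need + 1) T) {W : ℕ → St → Prop}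
    (hW : ReadyP W h s) : ∃ l ∈ T, ∃ s', W (g l) s' ∧ Ald ε s' (t.step l) (g l) := by
  obtain ⟨s', T', g', hs', _, hg', hT', hW'⟩ := hW
  have ha' : Ald ε s' t h := by
    rcases hs' with rfl | ⟨n, rfl⟩
    · exact ha
    · exact ha.pick1 n
  obtain ⟨l1, hl1, l2, hl2, _, _, _, _, _, hgg, hp⟩ := ald_step ha' hg' hg hT' hT
  refine ⟨l2, hl2, s'.step l1, ?_, ?_⟩
  · rw [← hgg]
    exact hW' l1 hl1
  · rw [← hgg]
    exact hp

end Pool.Agent.H90.Ord
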