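import Pool.Agent.H90.Ord.JO
import Pool.Agent.H90.Ord.JRa

/-!
# Stages A2 and B of type II (module JAB)

The leading board is `xz` (automaton XZ, first phase `1` or `6`, then phase `2`).  `y` waits at `q` on both boards.
`K h x1` is the situation of the board `xy`, `hK` says that `x1` can always follow.
`stageB`: phase `2`, induction on the win of the board `xz`.  Choices of `x2` and `z1` with the same phase: the same
hypotheses (`Ald.pick1`, `Ald.pick2`).  The choice of `x2` with `AT z1`: continuation `hC`; `z2` is at its target too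
(`Ald.at_iff`), `cut_YZ2`.  Step of `x2`: `lead_step2` with `hK`.  Step of `z1`: `z2` is ready by `ready_YZ2`
(`PtrStep.not_at`, `Ald.at_iff`), `lead_step1`.
`stageA2`: phase `1` or `6`, `z1 = start`: choice of `x2`: the same hypotheses; choice of `z1`: `stageB` with
`z1.pick n` and, by `cut_YZ1`, `z2 = start.pick n'`, aligned with pointer `1` (`ald_start`).  Step of `x2`:
`lead_step2` with `hK`.  A step of `z1` is impossible.
-/

set_option autoImplicit false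

namespace Pool.Agent.H90.Ord

variable {red : List ℕ → List ℕ → Prop}

/-- the continuation after stage B: `x2` moves to `v` (phase `3` of XZ), `z` waits at `u`, `y2` has been chosen -/
def Cont (red : List ℕ → List ℕ → Prop) (ε : Bool) (K : ℕ → St → Prop) (y2 : St) : Prop :=
  ∀ (h : ℕ) (x1 x2 z1 z2 : St) (n : ℕ), K h x1 → Ald ε x1 x2 h →
    AW red XZ ⟨3, h, 0, false⟩ x2 z1 → z1.Nonrun → z2.Nonrun → Par z1 z2 → z1.stk ≠ [] →
    AW red YZ ⟨3, 0, 0, false⟩ (y2.pick n) z2 → Tri red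

/-- `x1` can follow in phases `1, 6, 2` of the board `xz` -/
def Follow (red : List ℕ → List ℕ → Prop) (ε : Bool) (K : ℕ → St → Prop) : Prop :=
  ∀ (ann : Ann) (x1 x2 z1 : St), K ann.ha x1 → Ald ε x1 x2 ann.ha →
    (ann.ph = 1 ∨ ann.ph = 6 ∨ ann.ph = 2) → AW red XZ ann x2 z1 → ReadyP K ann.ha x1

theorem stageB {ε : Bool} {K : ℕ → St → Prop} {y2 : St} (hy2 : y2.Nonrun)
    (hK : Follow red ε K) (hC : Cont red ε K y2) {ann : Ann} {x1 x2 z1 z2 : St}
    (haw : AW red XZ ann x2 z1) (hph : ann.ph = 2) (hx : K ann.ha x1)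
    (hal : Ald ε x1 x2 ann.ha) (hz : Ald true z1 z2 ann.hb)
    (hyz : AW red YZ ⟨2, 0, ann.hb, false⟩ y2 z2) : Tri red := by
  induction haw generalizing x1 z2 with
  | @done ann a b ha hb h hd =>
    have h5 : ann.ph = 5 := hd
    omega
  | @pickA ann ann' a b n ha hb h0 ht h ih =>
    rcases ht with ⟨h1, -⟩ | ⟨-, h2, -⟩ | ⟨-, -, -, rfl⟩ | ⟨-, -, h3, h4, rfl⟩ | ⟨-, h2, -⟩ | ⟨h1, -⟩ |
      ⟨h1, -⟩ | ⟨h1, -⟩ | ⟨h1, -⟩ | ⟨h1, -⟩
    · omega
    · exact absurd h2 (by decide)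
    · exact ih hph hx (hal.pick2 n) hz hyz
    · obtain ⟨hz2, n', hyz'⟩ := cut_YZ2 hyz hy2 (hz.at_iff.1 h4)
      exact hC ann.ha x1 (a.pick n) b z2 n' hx (hal.pick2 n) h hb hz2 hz.par hz.pos.2 hyz'
    · exact absurd h2 (by decide)
    · omega
    · omega
    · omega
    · omega
    · omega
  | @pickB ann ann' a b n ha hb h0 hr ht h ih =>
    rcases ht with ⟨h1, -⟩ | ⟨h1, -⟩ | ⟨-, h2, -⟩ | ⟨-, h2, -⟩ | ⟨-, -, h3, h4, rfl⟩ | ⟨h1, -⟩ |
      ⟨h1, -⟩ | ⟨h1, -⟩ | ⟨h1, -⟩ | ⟨h1, -⟩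
    · omega
    · rcases h1 with h1 | ⟨h1, -⟩ <;> omega
    · exact absurd h2 (by decide)
    · exact absurd h2 (by decide)
    · exact ih hph hx hal (hz.pick1 n) hyz
    · omega
    · omega
    · omega
    · omega
    · omega
  | @stepA ann a b f T ha hb ht hT h ih =>
    have haw : AW red XZ ann a b := AW.stepA f T ha hb ht hT h
    rcases ht with ⟨-, -, g, hg, rfl⟩ | ⟨-, h2, -⟩ | ⟨h1, -⟩ | ⟨h1, -⟩
    · obtain ⟨l, hl, s', hs1, hs2⟩ :=
        lead_step2 hal hg hT (hK ann x1 a b hx hal (Or.inr (Or.inr hph)) haw)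
      exact ih l hl hph hs1 hs2 hz hyz
    · exact absurd h2 (by decide)
    · omega
    · omega
  | @stepB ann a b f T ha hb ht hT h ih =>
    rcases ht with ⟨-, h2, -⟩ | ⟨-, -, g, hg, rfl⟩ | ⟨h1, -⟩ | ⟨h1, -⟩
    · exact absurd h2 (by decide)
    · have h0 : z2.stk ≠ [] := fun h3 => hz.pos.2 (hz.par.stk_nil.2 h3)
      have hat : ¬ AT z2 ann.hb := fun h3 => hg.not_at (hz.at_iff.2 h3)
      obtain ⟨l, hl, t', ht1, ht2⟩ := lead_step1 hz hg hT (ready_YZ2 hyz hy2 h0 hat)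
      exact ih l hl hph hx hal ht2 ht1
    · omega
    · omega

theorem stageA2 {ε : Bool} {K : ℕ → St → Prop} {y2 : St} {k : ℕ} (hy2 : AT y2 k)
    (hK : Follow red ε K) (hC : Cont red ε K y2) {ann : Ann} {x1 x2 z1 : St}
    (haw : AW red XZ ann x2 z1) (hz1 : z1 = start) (hph : ann.ph = 1 ∨ ann.ph = 6)
    (hx : K ann.ha x1) (hal : Ald ε x1 x2 ann.ha)
    (hyz : AW red YZ ⟨1, k, 0, false⟩ y2 start) : Tri red := by
  induction haw generalizing x1 with
  | @done ann a b ha hb h hd =>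
    have h5 : ann.ph = 5 := hd
    omega
  | @pickA ann ann' a b n ha hb h0 ht h ih =>
    rcases ht with ⟨-, -, -, rfl⟩ | ⟨-, h2, -⟩ | ⟨h1, -⟩ | ⟨h1, -⟩ | ⟨h1, -⟩ | ⟨h1, -⟩ |
      ⟨h1, -⟩ | ⟨h1, -⟩ | ⟨h1, -⟩ | ⟨h1, -⟩
    · exact ih hz1 hph hx (hal.pick2 n)
    · exact absurd h2 (by decide)
    all_goals omega
  | @pickB ann ann' a b n ha hb h0 hr ht h ih =>
    rcases ht with ⟨-, h2, -⟩ | ⟨-, -, h3, h4, rfl⟩ | ⟨h1, -⟩ | ⟨h1, -⟩ | ⟨h1, -⟩ | ⟨h1, -⟩ |
      ⟨h1, -⟩ | ⟨h1, -⟩ | ⟨h1, -⟩ | ⟨h1, -⟩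
    · exact absurd h2 (by decide)
    · subst hz1
      obtain ⟨hyn, n', hyz'⟩ := cut_YZ1 hyz hy2
      exact stageB hyn hK hC h rfl hx hal (((ald_start true).pick1 n).pick2 n') hyz'
    all_goals omega
  | @stepA ann a b f T ha hb ht hT h ih =>
    have haw : AW red XZ ann a b := AW.stepA f T ha hb ht hT h
    rcases ht with ⟨-, -, g, hg, rfl⟩ | ⟨-, h2, -⟩ | ⟨h1, -⟩ | ⟨h1, -⟩
    · obtain ⟨l, hl, s', hs1, hs2⟩ :=
        lead_step2 hal hg hT (hK ann x1 a b hx hal (by omega) haw)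
      exact ih l hl hz1 hph hs1 hs2
    · exact absurd h2 (by decide)
    · omega
    · omega
  | @stepB ann a b f T ha hb ht hT h ih =>
    subst hz1
    exact absurd start_nonrun hb

end Pool.Agent.H90.Ord
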