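import Pool.Agent.H90.Ord.JA

/-!
# Bad states, part 1 (module JBA)

`NMk s`: no entry of `s` is marked; such a state is running or complete, and it stays unmarked in steps
(`kids_none`, module MA).

`PM_false` (automaton XY1, phase `1`): a win in phase `1` must reach phase `2` by a choice of `a` with `POut`, since
`done` needs phase `5`.  Induction on `AW`.  Invariant `PMS a h`: the pointed entry is inner (then it stays inner:
`keep`, `child`; `single` only at outer levels; `POut` fails because there is only one entry of height `h`), or the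
pointed entry is `(out k, m)` with `PassO m` and no entry above is marked.  In the second case `a` is never open
(its top is unmarked or the pointed entry, whose level is outer), in a step above the pointed entry the children
are unmarked, a step of the pointed entry `out (k+1)` has the single marked child with mark `m`
(`chM_pass_out`, module ALA), and a step of `out 0` gives the inner entry `inn N` (with any mark).  Moves of `b` do not
change `a`.

`UM_false` (automaton XZ, phases `1`, `6`, `2`): the pointed entry is `(l, U)`, `l ≠ root`, no entry above is marked.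
If `a` is nonrunning it is at the target: `a.stk.length = h` and the top is `(inn 0, U)`; then all choices allowed in
phases `1, 6, 2` (they need `NT` or `h < length` for `a`) are impossible, and so is a step of `b` (phase `2`: it
needs `a` nonrunning, the same invariant holds afterwards).  In a step of `a`: above the pointed entry: children unmarked,
pointer `keep`; at the pointed entry: `inn 0` has no pointer rule, `out 0`: `(inn N, U)`, many children: one marked
child with mark `U` (`markAt_get`), and the pointer is its height.
-/

set_option autoImplicit false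

namespace Pool.Agent.H90.Ord

variable {red : List ℕ → List ℕ → Prop}

/-- no entry is marked -/
def NMk (s : St) : Prop := ∀ e ∈ s.stk, e.2 = .none

theorem NMk.step {s : St} (h : NMk s) (l : List ℕ) : NMk (s.step l) := by
  rcases hs : s.stk with _ | ⟨⟨lv, m⟩, t⟩
  · have h1 : s.step l = s := by simp [St.step, hs]
    rw [h1]
    exact h
  · intro e he
    rw [step_stk hs, List.mem_append] at he
    rcases he with he | he
    · have hm : m = .none := h (lv, m) (by rw [hs]; exact List.mem_cons_self)
      rw [hm, kids_none] at he
      obtain ⟨x, _, rfl⟩ := List.mem_map.1 he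
      rfl
    · exact h e (by rw [hs]; exact List.mem_cons_of_mem _ he)

theorem NMk.pick {s : St} (h : NMk s) (n : ℕ) : NMk (s.pick n) := by
  exact h

theorem NMk.not_open {s : St} (h : NMk s) : ¬ s.OpenTop := by
  rintro ⟨t, h1 | h1⟩
  · have := h (.inn 0, .U) (by rw [h1]; exact List.mem_cons_self)
    exact Mark.noConfusion this
  · have := h (.root, .U) (by rw [h1]; exact List.mem_cons_self)
    exact Mark.noConfusion this

theorem entryAt_unique {s : List (Lev × Mark)} {h : ℕ} {e e' : Lev × Mark} (h1 : EntryAt s h e)
    (h2 : EntryAt s h e') : e = e' := by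
  obtain ⟨A, B, hs, hB⟩ := h1
  obtain ⟨A', B', hs', hB'⟩ := h2
  have h3 : A ++ e :: B = A' ++ e' :: B' := by rw [← hs, ← hs']
  have h4 := List.append_inj' h3 (by rw [List.length_cons, List.length_cons, hB, hB'])
  exact (List.cons.inj h4.2).1

/-- the bad states of `a` in phase `1` of XY1 -/
def PMS (a : St) (h : ℕ) : Prop :=
  PIn a h ∨ ∃ A k m B, a.stk = A ++ (.out k, m) :: B ∧ B.length + 1 = h ∧ (∀ e ∈ A, e.2 = .none) ∧
    PassO m

/-- the children at a level with many children, cut at the marked child number `i` -/
theorem jba_kids_split {lv lv' : Lev}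
    (hl : (∃ k, lv = .inn (k + 1) ∧ lv' = .inn k) ∨ (∃ k, lv = .out (k + 1) ∧ lv' = .out k))
    {m : Mark} {r i : ℕ} {l : List ℕ} (hf : Fresh 0 l)
    (hlen : l.length = (chM lv m r).length + 1) (hi : i < (chM lv m r).length) :
    ∃ A' B' : List (Lev × Mark),
      kids lv m r l.dropLast (l.getLastD 0) = A' ++ (lv', (chM lv m r).getD i .none) :: B' ∧
      ((chM lv m r).length = 1 → ∀ e ∈ A', e.2 = .none) ∧
      B'.length + 1 = l.getLastD 0 - l.getD i 0 := by
  have hkids : ∀ H N, kids lv m r H N =
      (List.range N).map fun i => (lv', markAt H (chM lv m r) i) := by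
    intro H N
    rcases hl with ⟨k, rfl, rfl⟩ | ⟨k, rfl, rfl⟩ <;> rfl
  generalize chM lv m r = M at *
  rcases List.eq_nil_or_concat l with h | ⟨H, N, h⟩
  · rw [h, List.length_nil] at hlen
    omega
  rw [List.concat_eq_append] at h
  subst h
  have hd : (H ++ [N]).dropLast = H := List.dropLast_concat
  have hN : (H ++ [N]).getLastD 0 = N := by simp
  rw [List.length_append, List.length_singleton] at hlen
  have hH : H.length = M.length := by omega
  have hiH : i < H.length := by omega
  have hg : (H ++ [N]).getD i 0 = H.getD i 0 := List.getD_append _ _ _ _ hiH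
  have hs := hf.sorted
  rw [List.pairwise_append] at hs
  have hc : H.getD i 0 + 3 ≤ N := by
    rw [List.getD_eq_getElem _ _ hiH]
    exact hs.2.2 _ (List.getElem_mem hiH) N (List.mem_singleton.2 rfl)
  have hpw : H.Pairwise (· < ·) := hs.1.imp (fun {x y} h => by omega)
  have hmk : markAt H M (H.getD i 0) = M.getD i .none := markAt_get hpw hH hiH
  rw [hd, hN, hg, hkids]
  refine ⟨((List.range N).map fun i => (lv', markAt H M i)).take (H.getD i 0),
    ((List.range N).map fun i => (lv', markAt H M i)).drop (H.getD i 0 + 1), ?_, ?_, ?_⟩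
  · have hcl : H.getD i 0 < ((List.range N).map fun i => (lv', markAt H M i)).length := by
      rw [List.length_map, List.length_range]
      omega
    have h1 : ((List.range N).map fun i => (lv', markAt H M i))[H.getD i 0]'hcl =
        (lv', M.getD i .none) := by
      rw [List.getElem_map, List.getElem_range, hmk]
    rw [← h1, ← List.drop_eq_getElem_cons hcl, List.take_append_drop]
  · intro hM e he
    rw [← List.map_take, List.take_range] at he
    obtain ⟨j, hj, rfl⟩ := List.mem_map.1 he
    have hj' : j < H.getD i 0 := lt_of_lt_of_le (List.mem_range.1 hj) (min_le_left _ _)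
    apply markAt_not_mem
    intro hjH
    have hH1 : H.length = 1 := by omega
    obtain ⟨x, hx⟩ := List.length_eq_one_iff.1 hH1
    subst hx
    have hi0 : i = 0 := by
      rw [List.length_singleton] at hiH
      omega
    subst hi0
    rw [List.mem_singleton] at hjH
    have h2 : ([x] : List ℕ).getD 0 0 = x := rfl
    omega
  · rw [List.length_drop, List.length_map, List.length_range]
    omega

theorem PMS.step {a : St} {h : ℕ} {g : List ℕ → ℕ} (hp : PMS a h) (hg : PtrStep h a g)
    {l : List ℕ} (hf : Fresh 0 l) (hl : l.length = a.need + 1) : PMS (a.step l) (g l) := by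
  cases hg with
  | zero =>
    exfalso
    rcases hp with ⟨e, ⟨A, B, _, hB⟩, _⟩ | ⟨A, k, m, B, _, hB, _⟩ <;> omega
  | keep h0 h1 =>
    have hne : a.stk ≠ [] := by
      intro h2
      rw [h2, List.length_nil] at h1
      omega
    obtain ⟨⟨lv, m0⟩, t, hs⟩ : ∃ x t, a.stk = x :: t := List.exists_cons_of_ne_nil hne
    have hlen : h ≤ t.length := by
      rw [hs, List.length_cons] at h1
      omega
    rcases hp with ⟨e, ⟨A, B, hA, hB⟩, he⟩ | ⟨A, k, m, B, hA, hB, hn, hm⟩
    · left
      rw [hs] at hA
      cases A with
      | nil =>
        exfalso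
        rw [List.nil_append] at hA
        have := (List.cons.inj hA).2
        rw [this] at hlen
        omega
      | cons x A =>
        rw [List.cons_append] at hA
        refine ⟨e, ⟨kids lv m0 a.reg l.dropLast (l.getLastD 0) ++ A, B, ?_, hB⟩, he⟩
        rw [step_stk hs, (List.cons.inj hA).2, List.append_assoc]
    · right
      rw [hs] at hA
      cases A with
      | nil =>
        exfalso
        rw [List.nil_append] at hA
        have := (List.cons.inj hA).2
        rw [this] at hlen
        omega
      | cons x A =>
        rw [List.cons_append] at hA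
        have hx : m0 = .none := by
          have h2 := hn x List.mem_cons_self
          rw [← (List.cons.inj hA).1] at h2
          exact h2
        refine ⟨kids lv m0 a.reg l.dropLast (l.getLastD 0) ++ A, k, m, B, ?_, hB, ?_, hm⟩
        · rw [step_stk hs, (List.cons.inj hA).2, List.append_assoc]
        · intro e he
          rcases List.mem_append.1 he with he | he
          · rw [hx, kids_none] at he
            obtain ⟨y, _, rfl⟩ := List.mem_map.1 he
            rfl
          · exact hn e (List.mem_cons_of_mem _ he)
  | @single s lv m0 t hs hl' =>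
    rcases hp with ⟨e, ⟨A, B, hA, hB⟩, he⟩ | ⟨A, k, m, B, hA, hB, hn, hm⟩
    · exfalso
      have hA0 : A = [] := by
        rw [hA, List.length_append, List.length_cons] at hB
        exact List.length_eq_zero_iff.1 (by omega)
      subst hA0
      rw [hs, List.nil_append] at hA
      rw [← (List.cons.inj hA).1] at he
      rcases hl' with rfl | rfl <;> exact he
    · have hA0 : A = [] := by
        rw [hA, List.length_append, List.length_cons] at hB
        exact List.length_eq_zero_iff.1 (by omega)
      subst hA0
      rw [hs, List.nil_append] at hA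
      obtain ⟨h1, h2⟩ := List.cons.inj hA
      obtain ⟨h3, h4⟩ := Prod.mk.inj h1
      subst h3
      have hk : k = 0 := by
        rcases hl' with h5 | h5
        · exact Lev.out.inj h5
        · cases h5
      subst hk
      left
      have h6 : ∃ mm, kids (.out 0) m0 a.reg l.dropLast (l.getLastD 0) =
          [(.inn (l.getLastD 0), mm)] := by
        rcases m0 with _ | _ | ⟨o, L⟩ | ⟨_ | _, L⟩
        · exact ⟨_, rfl⟩
        · exact ⟨_, rfl⟩
        · exact ⟨_, rfl⟩
        · exact ⟨_, rfl⟩
        · exact ⟨_, rfl⟩
      obtain ⟨mm, h6⟩ := h6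
      refine ⟨(.inn (l.getLastD 0), mm), ⟨[], t, ?_, ?_⟩, trivial⟩
      · rw [step_stk hs, h6]
        rfl
      · change t.length + 1 = a.stk.length
        rw [hs, List.length_cons]
  | @child s lv m0 t k i hs hl' hi =>
    have hneed : a.need = (chM lv m0 a.reg).length := by
      rw [need_cons hs]
      rcases hl' with rfl | rfl <;> rfl
    have hi' : i < (chM lv m0 a.reg).length := by rw [← hneed]; exact hi
    have hl2 : l.length = (chM lv m0 a.reg).length + 1 := by rw [hl, hneed]
    rcases hl' with rfl | rfl
    · obtain ⟨A', B', hk, _, hB'⟩ := jba_kids_split (lv' := .inn k) (Or.inl ⟨k, rfl, rfl⟩) hf hl2 hi'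
      left
      refine ⟨(.inn k, (chM (.inn (k + 1)) m0 a.reg).getD i .none), ⟨A', B' ++ t, ?_, ?_⟩, trivial⟩
      · rw [step_stk hs, hk, List.append_assoc, List.cons_append]
      · change (B' ++ t).length + 1 = t.length + (l.getLastD 0 - l.getD i 0)
        rw [List.length_append]
        omega
    · obtain ⟨A', B', hk, hAn, hB'⟩ := jba_kids_split (lv' := .out k) (Or.inr ⟨k, rfl, rfl⟩) hf hl2 hi'
      right
      rcases hp with ⟨e, ⟨A, B, hA, hB⟩, he⟩ | ⟨A, k', m, B, hA, hB, hn, hm⟩
      · exfalso
        have hA0 : A = [] := by
          rw [hA, List.length_append, List.length_cons] at hB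
          exact List.length_eq_zero_iff.1 (by omega)
        subst hA0
        rw [hs, List.nil_append] at hA
        rw [← (List.cons.inj hA).1] at he
        exact he
      · have hA0 : A = [] := by
          rw [hA, List.length_append, List.length_cons] at hB
          exact List.length_eq_zero_iff.1 (by omega)
        subst hA0
        rw [hs, List.nil_append] at hA
        obtain ⟨h1, h2⟩ := List.cons.inj hA
        obtain ⟨h3, h4⟩ := Prod.mk.inj h1
        have h5 := Lev.out.inj h3
        subst h5
        subst h4
        have hch : chM (.out (k + 1)) m0 a.reg = [m0] := chM_pass_out hm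
        have hi0 : i = 0 := by
          rw [hch, List.length_singleton] at hi'
          omega
        subst hi0
        refine ⟨A', k, m0, B' ++ t, ?_, ?_, hAn (by rw [hch]; rfl), hm⟩
        · rw [step_stk hs, hk, List.append_assoc, List.cons_append, hch]
          rfl
        · change (B' ++ t).length + 1 = t.length + (l.getLastD 0 - l.getD 0 0)
          rw [List.length_append]
          omega

theorem PM_false {ann : Ann} {a b : St} (haw : AW red XY1 ann a b) (hph : ann.ph = 1)
    (hp : PMS a ann.ha) : False := by
  induction haw with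
  | done ha hb h hd =>
    have h5 : _ = 5 := hd
    omega
  | @pickA ann ann' a b n ha hb h0 ht h ih =>
    rcases ht with ⟨_, _, _, rfl⟩ | ⟨_, _, _, ⟨e, he, hne⟩, _⟩ | ⟨_, h2, _⟩ | ⟨h1, _⟩ | ⟨h1, _⟩ |
      ⟨h1, _⟩ | ⟨h1, _⟩ | ⟨h1 | h1, _⟩ | ⟨h1, _⟩ | ⟨h1, _⟩ | ⟨h1, _⟩
    · exact ih hph hp
    · rcases hp with ⟨e', he', hi'⟩ | ⟨A, k, m, B, hA, hB, hn, hm⟩
      · rw [entryAt_unique he he'] at hne
        exact hne hi'
      · rcases ha with ha | ⟨_, t, ha⟩
        · exact h0 ha
        · cases A with
          | nil =>
            rw [List.nil_append] at hA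
            rcases ha with ha | ha <;> rw [hA] at ha <;> cases ha
          | cons x A =>
            rw [List.cons_append] at hA
            have hx := hn x List.mem_cons_self
            rcases ha with ha | ha <;> rw [hA] at ha <;>
              (rw [(List.cons.inj ha).1] at hx; cases hx)
    · cases h2
    all_goals omega
  | @pickB ann ann' a b n ha hb h0 hr ht h ih =>
    rcases ht with ⟨_, h2, _⟩ | ⟨_, h2, _⟩ | ⟨_, _, _, rfl⟩ | ⟨h1, _⟩ | ⟨h1, _⟩ |
      ⟨h1, _⟩ | ⟨h1, _⟩ | ⟨h1 | h1, _⟩ | ⟨h1, _⟩ | ⟨h1, _⟩ | ⟨h1, _⟩
    · cases h2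
    · cases h2
    · exact ih hph hp
    all_goals omega
  | @stepA ann a b f T ha hb ht hT h ih =>
    obtain ⟨l, hlT, hln⟩ := big_nonempty (big_inter hT (big_fresh (a.need + 1) 0))
    rcases ht with ⟨_, _, g, hg, rfl⟩ | ⟨_, h2, _⟩ | ⟨h1, _⟩ | ⟨h1, _⟩ | ⟨h1, _⟩ | ⟨h1, _⟩ |
      ⟨h1, _⟩ | ⟨h1, _⟩
    · exact ih l hlT.1 hph (PMS.step hp hg hlT.2.2 hlT.2.1)
    · cases h2
    all_goals omega
  | @stepB ann a b f T ha hb ht hT h ih =>
    obtain ⟨l, hlT, hln⟩ := big_nonempty (big_inter hT (big_fresh (b.need + 1) 0))
    rcases ht with ⟨_, h2, _⟩ | ⟨_, _, g, hg, rfl⟩ | ⟨h1, _⟩ | ⟨h1, _⟩ | ⟨h1, _⟩ | ⟨h1, _⟩ |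
      ⟨h1, _⟩ | ⟨h1, _⟩
    · cases h2
    · exact ih l hlT.1 hph hp
    all_goals omega

end Pool.Agent.H90.Ord
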