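import Pool.Agent.H90.Ord.JBa

/-!
# Bad states, part 2 (module JBB)

See the header of module JBA for `UM_false`.
`NM_false` (YZ, phase `3`): `a` unmarked and `b` incomplete.  `a` is running or complete; if it is complete all
rules need `b.stk = []`; if it is running the next move is a step of `a`, and the situation is the same.
`NMI_false` (XYI, phase `1`): `a` unmarked: a choice of `a` is impossible (an incomplete nonrunning state has a
marked top), all other moves stay in phase `1`, and `done` needs phase `3`.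
`NMZ_false` (XZI): `b` unmarked, `a` incomplete: whenever `b` is nonrunning it is complete, and all rules need
`a.stk = []`; otherwise `b` makes a step and the situation is the same.
In all of them a Big set contains a fresh list of the right length (`big_fresh`, `big_inter`, `big_nonempty`).
-/

set_option autoImplicit false

namespace Pool.Agent.H90.Ord

variable {red : List ℕ → List ℕ → Prop}

/-- the bad states of `a` in phases `1, 6, 2` of XZ -/
def UMS (a : St) (h : ℕ) : Prop :=
  ∃ A l B, a.stk = A ++ (l, .U) :: B ∧ l ≠ .root ∧ B.length + 1 = h ∧ ∀ e ∈ A, e.2 = .none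

theorem UMS.step {a : St} {h : ℕ} {g : List ℕ → ℕ} (hp : UMS a h) (hg : PtrStep h a g)
    {l : List ℕ} (hf : Fresh 0 l) (hl : l.length = a.need + 1) : UMS (a.step l) (g l) := by
  obtain ⟨A, lu, B, hA, hlu, hB, hn⟩ := hp
  cases hg with
  | zero =>
    exfalso
    omega
  | keep h0 h1 =>
    have hne : a.stk ≠ [] := by
      intro h2
      rw [h2, List.length_nil] at h1
      omega
    obtain ⟨⟨lv, m0⟩, t, hs⟩ : ∃ x t, a.stk = x :: t := List.exists_cons_of_ne_nil hne
    have hlen : h ≤ t.length := by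
      rw [hs, List.length_cons] at h1
      omega
    rw [hs] at hA
    cases A with
    | nil =>
      exfalso
      rw [List.nil_append] at hA
      have := (List.cons.inj hA).2
      rw [this] at hlen
      omega
    | cons x A =>
      rw [List.cons_append] at hA
      have hx : m0 = .none := by
        have h2 := hn x List.mem_cons_self
        rw [← (List.cons.inj hA).1] at h2
        exact h2
      refine ⟨kids lv m0 a.reg l.dropLast (l.getLastD 0) ++ A, lu, B, ?_, hlu, hB, ?_⟩
      · rw [step_stk hs, (List.cons.inj hA).2, List.append_assoc]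
      · intro e he
        rcases List.mem_append.1 he with he | he
        · rw [hx, kids_none] at he
          obtain ⟨y, _, rfl⟩ := List.mem_map.1 he
          rfl
        · exact hn e (List.mem_cons_of_mem _ he)
  | @single s lv m0 t hs hl' =>
    have hA0 : A = [] := by
      rw [hA, List.length_append, List.length_cons] at hB
      exact List.length_eq_zero_iff.1 (by omega)
    subst hA0
    rw [hs, List.nil_append] at hA
    obtain ⟨h1, h2⟩ := List.cons.inj hA
    obtain ⟨h3, h4⟩ := Prod.mk.inj h1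
    subst h3
    subst h4
    have h5 : lv = .out 0 := by
      rcases hl' with h5 | h5
      · exact h5
      · exact absurd h5 hlu
    subst h5
    refine ⟨[], .inn (l.getLastD 0), t, ?_, ?_, ?_, ?_⟩
    · rw [step_stk hs]
      rfl
    · exact fun h => Lev.noConfusion h
    · change t.length + 1 = a.stk.length
      rw [hs, List.length_cons]
    · intro e he
      exact absurd he List.not_mem_nil
  | @child s lv m0 t k i hs hl' hi =>
    have hneed : a.need = (chM lv m0 a.reg).length := by
      rw [need_cons hs]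
      rcases hl' with rfl | rfl <;> rfl
    have hi' : i < (chM lv m0 a.reg).length := by rw [← hneed]; exact hi
    have hl2 : l.length = (chM lv m0 a.reg).length + 1 := by rw [hl, hneed]
    have hA0 : A = [] := by
      rw [hA, List.length_append, List.length_cons] at hB
      exact List.length_eq_zero_iff.1 (by omega)
    subst hA0
    have hA' := hA
    rw [hs, List.nil_append] at hA'
    obtain ⟨h1, h2⟩ := List.cons.inj hA'
    obtain ⟨h3, h4⟩ := Prod.mk.inj h1
    subst h4
    have hch : chM lv .U a.reg = [.U] := by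
      rcases hl' with rfl | rfl <;> rfl
    have hi0 : i = 0 := by
      rw [hch, List.length_singleton] at hi'
      omega
    subst hi0
    obtain ⟨lv', hlv', hl3⟩ : ∃ lv' : Lev, lv' ≠ .root ∧
        ((∃ k, lv = .inn (k + 1) ∧ lv' = .inn k) ∨ (∃ k, lv = .out (k + 1) ∧ lv' = .out k)) := by
      rcases hl' with h5 | h5
      · exact ⟨.inn k, fun h => Lev.noConfusion h, Or.inl ⟨k, h5, rfl⟩⟩
      · exact ⟨.out k, fun h => Lev.noConfusion h, Or.inr ⟨k, h5, rfl⟩⟩
    obtain ⟨A', B', hk, hAn, hB'⟩ := jba_kids_split hl3 hf hl2 hi'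
    refine ⟨A', lv', B' ++ t, ?_, hlv', ?_, hAn (by rw [hch]; rfl)⟩
    · rw [step_stk hs, hk, List.append_assoc, List.cons_append, hch]
      rfl
    · change (B' ++ t).length + 1 = t.length + (l.getLastD 0 - l.getD 0 0)
      rw [List.length_append]
      omega

/-- a nonrunning state of this kind is at its target -/
theorem UMS.at {a : St} {h : ℕ} (hp : UMS a h) (ha : a.Nonrun) : AT a h := by
  obtain ⟨A, lu, B, hA, hlu, hB, hn⟩ := hp
  rcases ha with ha | ⟨_, t, ha⟩
  · exfalso
    rw [ha] at hA
    have := congrArg List.length hA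
    rw [List.length_append, List.length_cons, List.length_nil] at this
    omega
  · cases A with
    | nil =>
      rw [List.nil_append] at hA
      rcases ha with ha | ha
      · refine ⟨?_, t, ha⟩
        rw [hA, List.length_cons]
        exact hB.symm
      · exfalso
        rw [hA] at ha
        exact hlu (Prod.mk.inj (List.cons.inj ha).1).1
    | cons x A =>
      exfalso
      rw [List.cons_append] at hA
      have hx := hn x List.mem_cons_self
      rcases ha with ha | ha <;> rw [hA] at ha <;>
        (rw [(List.cons.inj ha).1] at hx; cases hx)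

theorem UM_false {ann : Ann} {a b : St} (haw : AW red XZ ann a b)
    (hph : ann.ph = 1 ∨ ann.ph = 6 ∨ ann.ph = 2) (hp : UMS a ann.ha) : False := by
  induction haw with
  | done ha hb h hd =>
    have h5 : _ = 5 := hd
    omega
  | @pickA ann ann' a b n ha hb h0 ht h ih =>
    have hat := UMS.at hp ha
    rcases ht with ⟨_, _, h1, _⟩ | ⟨_, h2, _⟩ | ⟨_, _, h1, _⟩ | ⟨_, _, h1, _⟩ | ⟨_, h2, _⟩ |
      ⟨h1, _⟩ | ⟨h1, _⟩ | ⟨h1, _⟩ | ⟨h1, _⟩ | ⟨h1, _⟩
    · exact hat.not_nt h1
    · cases h2
    · exact hat.not_nt h1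
    · have := hat.1
      omega
    · cases h2
    all_goals omega
  | @pickB ann ann' a b n ha hb h0 hr ht h ih =>
    have hat := UMS.at hp ha
    have hlen := hat.1
    rcases ht with ⟨_, h2, _⟩ | ⟨_, _, h1, _⟩ | ⟨_, h2, _⟩ | ⟨_, h2, _⟩ | ⟨_, _, _, h1, _⟩ |
      ⟨h1, _⟩ | ⟨h1, _⟩ | ⟨h1, _⟩ | ⟨h1, _⟩ | ⟨h1, _⟩
    · cases h2
    · omega
    · cases h2
    · cases h2
    all_goals omega
  | @stepA ann a b f T ha hb ht hT h ih =>
    obtain ⟨l, hlT, hln⟩ := big_nonempty (big_inter hT (big_fresh (a.need + 1) 0))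
    rcases ht with ⟨_, _, g, hg, rfl⟩ | ⟨_, h2, _⟩ | ⟨h1, _⟩ | ⟨h1, _⟩
    · exact ih l hlT.1 hph (UMS.step hp hg hlT.2.2 hlT.2.1)
    · cases h2
    all_goals omega
  | @stepB ann a b f T ha hb ht hT h ih =>
    obtain ⟨l, hlT, hln⟩ := big_nonempty (big_inter hT (big_fresh (b.need + 1) 0))
    rcases ht with ⟨_, h2, _⟩ | ⟨_, _, g, hg, rfl⟩ | ⟨h1, _⟩ | ⟨h1, _⟩
    · cases h2
    · exact ih l hlT.1 hph hp
    all_goals omega

theorem NM_false {ann : Ann} {a b : St} (haw : AW red YZ ann a b) (hph : ann.ph = 3)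
    (ha : NMk a) (hb : b.stk ≠ []) : False := by
  induction haw with
  | done ha' hb' h hd => exact hb hb'
  | @pickA ann ann' a b n ha' hb' h0 ht h ih =>
    rcases ha' with h1 | ⟨_, h1⟩
    · exact h0 h1
    · exact ha.not_open h1
  | @pickB ann ann' a b n ha' hb' h0 hr ht h ih =>
    rcases ha' with h1 | ⟨_, h1⟩
    · rcases ht with ⟨h2, _⟩ | ⟨h2, _⟩ | ⟨h2, _⟩ | ⟨h2, _⟩ | ⟨_, h2, _⟩
      · omega
      · omega
      · omega
      · omega
      · exact h0 (h2 h1)
    · exact ha.not_open h1
  | @stepA ann a b f T ha' hb' ht hT h ih =>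
    obtain ⟨l, hlT, hln⟩ := big_nonempty hT
    rcases ht with ⟨h2, _⟩ | ⟨h2, _⟩ | ⟨_, _, h2⟩
    · omega
    · omega
    · refine ih l hlT ?_ (ha.step l) hb
      rw [h2]
      exact hph
  | @stepB ann a b f T ha' hb' ht hT h ih =>
    rcases ha' with h1 | ⟨_, h1⟩
    · rcases ht with ⟨h2, _⟩ | ⟨h2, _⟩ | ⟨_, h2, _⟩
      · omega
      · omega
      · exact hb (h2 h1)
    · exact ha.not_open h1

theorem NMI_false {ann : Ann} {a b : St} (haw : AW red XYI ann a b) (hph : ann.ph = 1)
    (ha : NMk a) : False := by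
  induction haw with
  | done ha' hb' h hd =>
    have h5 : _ = 3 := hd
    omega
  | @pickA ann ann' a b n ha' hb' h0 ht h ih =>
    rcases ha' with h1 | ⟨_, h1⟩
    · exact h0 h1
    · exact ha.not_open h1
  | @pickB ann ann' a b n ha' hb' h0 hr ht h ih =>
    rcases ht with ⟨_, h2, _⟩ | ⟨_, h2, _⟩ | ⟨_, _, _, rfl⟩ | ⟨h2, _⟩ | ⟨h2, _⟩ | ⟨h2, _⟩
    · cases h2
    · cases h2
    · exact ih hph ha
    all_goals omega
  | @stepA ann a b f T ha' hb' ht hT h ih =>
    obtain ⟨l, hlT, hln⟩ := big_nonempty hT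
    rcases ht with ⟨_, _, h2⟩ | ⟨_, h2, _⟩ | ⟨h2, _⟩ | ⟨h2, _⟩
    · refine ih l hlT ?_ (ha.step l)
      rw [h2]
      exact hph
    · cases h2
    all_goals omega
  | @stepB ann a b f T ha' hb' ht hT h ih =>
    obtain ⟨l, hlT, hln⟩ := big_nonempty hT
    rcases ht with ⟨_, h2, _⟩ | ⟨_, _, g, hg, rfl⟩ | ⟨h2, _⟩ | ⟨h2, _⟩
    · cases h2
    · exact ih l hlT hph ha
    all_goals omega

theorem NMZ_false {ann : Ann} {a b : St} (haw : AW red XZI ann a b) (hb : NMk b)
    (ha : a.stk ≠ []) : False := by
  induction haw with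
  | done ha' hb' h hd => exact ha ha'
  | @pickA ann ann' a b n ha' hb' h0 ht h ih =>
    rcases hb' with h1 | ⟨_, h1⟩
    · exact ha (ht.1 h1)
    · exact hb.not_open h1
  | @pickB ann ann' a b n ha' hb' h0 hr ht h ih =>
    rcases hb' with h1 | ⟨_, h1⟩
    · exact h0 h1
    · exact hb.not_open h1
  | @stepA ann a b f T ha' hb' ht hT h ih =>
    rcases hb' with h1 | ⟨_, h1⟩
    · exact ha (ht.1 h1)
    · exact hb.not_open h1
  | @stepB ann a b f T ha' hb' ht hT h ih =>
    obtain ⟨l, hlT, hln⟩ := big_nonempty hT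
    exact ih l hlT (hb.step l) ha

end Pool.Agent.H90.Ord
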