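import Pool.Agent.H11.JN.TI

/-!
# Type I (module JI)

The joint play of type I is proved in `Pool.Agent.H11.JN.TI` (sequential pairs `SeqS`, stages A and B).
-/

set_option autoImplicit false

namespace Pool.Agent.H90.Ord

variable {red : List ℕ → List ℕ → Prop}

theorem triI (h1 : AW red XYI ⟨1, 0, 1, false⟩ start start)
    (h2 : AW red XZI ⟨0, 0, 0, false⟩ start start)
    (h3 : AW red YZI ⟨1, 1, 0, false⟩ start start) : Tri red :=
  joinI h1 h2 h3

end Pool.Agent.H90.Ord
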