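import Pool.Agent.H90.Ord.JBb

/-!
# The vertex `y` after its target, type II.1 (module JL)

`LayC κ γ y1 y2` (stage C): the common stack satisfies `BC true κ γ` everywhere, or this holds below the top
`(inn 0, U, U)` and `y2` has been chosen.  If `y1` has a marked inner entry `inn j` then `j < γ` and (first
alternative) the top is `inn i`, `i ≤ j`, so its mark `2` is `none` and `y2` is not open (`LayC.run`).
`LayC.lead`: `y1` has a marked inner entry, `y1` moves with a Big set, `y2` is ready; the top of `y2` is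
unmarked (or it is the unit `inn 0` and has no children), so the children of the top have no mark `2`, and their mark
`1` is `none` or the level of the top is `< γ`.

`LayD κ fl y1 y2` (stage D): outer entries: mark `1` only at levels `≥ κ`, mark `2` only at levels `< κ`; if the flag is
`true` then inner entries have no mark `1`.  `LayD.top_none`: the top is outer and `y2` has a marked entry: then the
mark `1` of the top is `none` (otherwise the level of the top is at least `κ`, all entries have at least this level,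
and none of them has a mark `2`).  `LayD.step`: if the top is outer, the children have no mark `1` and, if the top is
`out (j+1)` with mark `2`, then `j + 1 < κ`; all entries below are outer.  If the top is inner: the children are inner,
and if the flag is `true` they have no mark `1`.
-/

set_option autoImplicit false

namespace Pool.Agent.H90.Ord

/-- stage C -/
def LayC (κ γ : ℕ) (y1 y2 : St) : Prop :=
  y1.real = y2.real ∧ ∃ D : List DE, y1.stk = p1 D ∧ y2.stk = p2 D ∧ SortedD D ∧
    ((∃ B, D = (.inn 0, .U, .U) :: B ∧ y2.pk = true ∧ ∀ e ∈ B, BC true κ γ e) ∨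
      ∀ e ∈ D, BC true κ γ e)

/-- condition on an entry in stage D -/
def JD (κ : ℕ) (fl : Bool) (e : DE) : Prop :=
  e.1 ≠ .root ∧ (∀ j, e.1 = .out j → (e.2.1 ≠ .none → κ ≤ j) ∧ (e.2.2 ≠ .none → j < κ)) ∧
    (fl = true → e.1.IsInn → e.2.1 = .none)

/-- stage D -/
def LayD (κ : ℕ) (fl : Bool) (y1 y2 : St) : Prop :=
  y1.real = y2.real ∧ ∃ D : List DE, y1.stk = p1 D ∧ y2.stk = p2 D ∧ SortedD D ∧
    ∀ e ∈ D, JD κ fl e

private theorem kidsN (lv : Lev) (r : ℕ) (H : List ℕ) (N : ℕ) :
    ∀ e ∈ kids lv .none r H N, e.2 = Mark.none := by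
  intro e he
  rw [kids_none] at he
  obtain ⟨l, _, rfl⟩ := List.mem_map.1 he
  rfl

private theorem mem_p1 {D : List DE} {e : DE} (h : e ∈ D) : (e.1, e.2.1) ∈ p1 D :=
  List.mem_map.2 ⟨e, h, rfl⟩

private theorem mem_p2 {D : List DE} {e : DE} (h : e ∈ D) : (e.1, e.2.2) ∈ p2 D :=
  List.mem_map.2 ⟨e, h, rfl⟩

/-- the common stack after a step of both boards -/
private theorem dbl_step {s t : St} {d : DE} {D : List DE} (hs : s.stk = p1 (d :: D))
    (ht : t.stk = p2 (d :: D)) (hsort : SortedD (d :: D)) {l1 l2 : List ℕ}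
    (hl : l1.getLastD 0 = l2.getLastD 0) :
    ∃ K : List DE, (s.step l1).stk = p1 (K ++ D) ∧ (t.step l2).stk = p2 (K ++ D) ∧
      SortedD (K ++ D) ∧ K.map Prod.fst = kidsLev d.1 (l1.getLastD 0) ∧
      (d.2.1 = .none → ∀ e ∈ K, e.2.1 = .none) ∧ (d.2.2 = .none → ∀ e ∈ K, e.2.2 = .none) := by
  obtain ⟨lv, m1, m2⟩ := d
  have hs' : s.stk = (lv, m1) :: p1 D := hs
  have ht' : t.stk = (lv, m2) :: p2 D := ht
  obtain ⟨K, h1, h2⟩ := exists_double
    (K1 := kids lv m1 s.reg l1.dropLast (l1.getLastD 0))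
    (K2 := kids lv m2 t.reg l2.dropLast (l2.getLastD 0)) (by rw [kids_fst, kids_fst, hl])
  have hK : K.map Prod.fst = kidsLev lv (l1.getLastD 0) := by
    rw [← kids_fst lv m1 s.reg l1.dropLast (l1.getLastD 0), h1]
    unfold p1
    rw [List.map_map]
    rfl
  refine ⟨K, ?_, ?_, ?_, hK, ?_, ?_⟩
  · rw [step_stk hs', p1_append, h1]
  · rw [step_stk ht', p2_append, h2]
  · exact sortedD_kids (m := (m1, m2)) hsort hK
  · intro h0 e he
    have h0' : m1 = .none := h0
    subst h0'
    have := kidsN lv s.reg l1.dropLast (l1.getLastD 0) (e.1, e.2.1) (by rw [h1]; exact mem_p1 he)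
    exact this
  · intro h0 e he
    have h0' : m2 = .none := h0
    subst h0'
    have := kidsN lv t.reg l2.dropLast (l2.getLastD 0) (e.1, e.2.2) (by rw [h2]; exact mem_p2 he)
    exact this

private theorem kid_lev {K : List DE} {lv : Lev} {N : ℕ} (hK : K.map Prod.fst = kidsLev lv N)
    {e : DE} (he : e ∈ K) : e.1 ∈ kidsLev lv N := by
  rw [← hK]
  exact List.mem_map.2 ⟨e, he, rfl⟩

theorem LayC.of_target {y1 y2 : St} {k : ℕ} (ha : Ald true y1 y2 k) (hat : AT y1 k) (n : ℕ) :
    ∃ κ γ, LayC κ γ y1 (y2.pick n) := by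
  obtain ⟨κ, γ, B, h1, h2, h3, h4⟩ := ha.target hat
  exact ⟨κ, γ, ha.1, _, h1, h2, h3, Or.inl ⟨B, rfl, rfl, h4⟩⟩

theorem LayC.pick1 {κ γ : ℕ} {y1 y2 : St} (h : LayC κ γ y1 y2) (n : ℕ) :
    LayC κ γ (y1.pick n) y2 := h

/-- the top is unmarked on board `2` if a lower (or the same) entry is marked and inner on board `1` -/
private theorem top_unmarked {κ γ : ℕ} {d : DE} {D : List DE} (hsort : SortedD (d :: D))
    (hBC : ∀ e ∈ d :: D, BC true κ γ e) {e : DE} (he : e ∈ d :: D) (hin : e.1.IsInn)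
    (hm : e.2.1 ≠ .none) : (∃ i, d.1 = .inn i ∧ i < γ) ∧ d.2.2 = .none := by
  have hle : d.1.le e.1 := by
    rcases List.mem_cons.1 he with rfl | he'
    · exact le_refl' _
    · exact (List.pairwise_cons.1 hsort).1 e he'
  obtain ⟨l, m1, m2⟩ := e
  rcases l with j | j | _
  · have hj : j < γ := ((hBC _ he).2.1 j rfl).1 hm
    obtain ⟨l', m1', m2'⟩ := d
    rcases l' with i | i | _
    · have hij : i ≤ j := hle
      refine ⟨⟨i, rfl, by omega⟩, ?_⟩
      by_contra hc
      have := ((hBC _ List.mem_cons_self).2.1 i rfl).2 hc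
      omega
    · exact absurd hle (by simp [Lev.le])
    · exact absurd hle (by simp [Lev.le])
  · exact absurd hin (by simp [Lev.IsInn])
  · exact absurd hin (by simp [Lev.IsInn])

private theorem hasInner_dbl {y1 : St} {D : List DE} (h1 : y1.stk = p1 D)
    (hm : HasInnerMark y1) : ∃ e ∈ D, e.1.IsInn ∧ e.2.1 ≠ .none := by
  obtain ⟨e, he, h2, h3⟩ := hm
  rw [h1] at he
  obtain ⟨f, hf, rfl⟩ := List.mem_map.1 he
  exact ⟨f, hf, h2, h3⟩

theorem LayC.run {κ γ : ℕ} {y1 y2 : St} (h : LayC κ γ y1 y2) (hm : HasInnerMark y1) :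
    ¬ y2.Nonrun := by
  obtain ⟨_, D, h1, h2, h3, h4⟩ := h
  obtain ⟨e, he, hin, hmk⟩ := hasInner_dbl h1 hm
  rcases h4 with ⟨B, rfl, hpk, _⟩ | h4
  · rw [not_nonrun]
    refine ⟨?_, Or.inl hpk⟩
    rw [h2]
    simp [p2]
  · rcases D with _ | ⟨d, D⟩
    · cases he
    · obtain ⟨_, h5⟩ := top_unmarked h3 h4 he hin hmk
      rw [not_nonrun]
      refine ⟨by rw [h2]; simp [p2], Or.inr ?_⟩
      have h2' : y2.stk = (d.1, d.2.2) :: p2 D := h2
      rintro ⟨t, ht | ht⟩
      · rw [h2', List.cons.injEq, Prod.mk.injEq] at ht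
        rw [ht.1.2] at h5
        cases h5
      · rw [h2', List.cons.injEq, Prod.mk.injEq] at ht
        rw [ht.1.2] at h5
        cases h5

theorem LayC.lead {κ γ : ℕ} {y1 y2 : St} (h : LayC κ γ y1 y2) (hm : HasInnerMark y1)
    {T : Set (List ℕ)} (hT : Big (y1.need + 1) T) {W : St → Prop} (hW : Ready W y2) :
    ∃ l ∈ T, ∃ y2', W y2' ∧ LayC κ γ (y1.step l) y2' := by
  obtain ⟨s', T', hs', _, hT', hW'⟩ := hW
  have hc : LayC κ γ y1 s' := by
    rcases hs' with rfl | ⟨n, rfl⟩
    · exact h
    · obtain ⟨a, D, b1, b2, b3, b4⟩ := h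
      refine ⟨a, D, b1, b2, b3, ?_⟩
      rcases b4 with ⟨B, e1, _, e3⟩ | b4
      · exact Or.inl ⟨B, e1, rfl, e3⟩
      · exact Or.inr b4
  obtain ⟨hr, D, h1, h2, h3, h4⟩ := hc
  obtain ⟨e, he, hin, hmk⟩ := hasInner_dbl h1 hm
  have hpar : Par y1 s' := by
    refine ⟨hr, ?_⟩
    rw [h1, h2]
    unfold p1 p2
    rw [List.map_map, List.map_map]
    rfl
  obtain ⟨l1, hl1, l2, hl2, _, _, _, _, hl, hpar'⟩ := par_step hpar hT hT'
  refine ⟨l1, hl1, s'.step l2, hW' l2 hl2, hpar'.1, ?_⟩
  rcases D with _ | ⟨d, D⟩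
  · cases he
  · obtain ⟨K, k1, k2, k3, k4, k5, k6⟩ := dbl_step h1 h2 h3 hl
    refine ⟨K ++ D, k1, k2, k3, Or.inr ?_⟩
    rcases h4 with ⟨B, hB, _, hBC⟩ | h4
    · rw [List.cons.injEq] at hB
      obtain ⟨rfl, rfl⟩ := hB
      have hK : K = [] := by
        have : K.map Prod.fst = [] := k4
        exact List.map_eq_nil_iff.1 this
      subst hK
      exact hBC
    · obtain ⟨⟨i, hi, hiγ⟩, h5⟩ := top_unmarked h3 h4 he hin hmk
      intro f hf
      rcases List.mem_append.1 hf with hf | hf
      · have hlev := kid_lev k4 hf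
        rw [hi] at hlev
        rcases i with _ | i
        · cases hlev
        · have hfi : f.1 = .inn i := (List.mem_replicate.1 hlev).2
          refine ⟨?_, ?_, ?_⟩
          · intro j hj
            rw [hfi] at hj
            cases hj
          · intro j hj
            rw [hfi] at hj
            cases hj
            refine ⟨fun _ => by omega, fun hc => ?_⟩
            exact absurd (k6 h5 f hf) hc
          · rw [hfi]
            simp
      · exact h4 f (List.mem_cons_of_mem _ hf)

theorem LayC.toD {κ γ : ℕ} {y1 y2 : St} (h : LayC κ γ y1 y2) : LayD κ false y1 y2 := by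
  obtain ⟨hr, D, h1, h2, h3, h4⟩ := h
  refine ⟨hr, D, h1, h2, h3, ?_⟩
  have key : ∀ e : DE, BC true κ γ e → JD κ false e := by
    intro e he
    exact ⟨he.2.2, he.1, fun h => by cases h⟩
  rcases h4 with ⟨B, rfl, _, hBC⟩ | h4
  · intro e he
    rcases List.mem_cons.1 he with rfl | he
    · refine ⟨by simp, ?_, fun h => by cases h⟩
      intro j hj
      cases hj
    · exact key e (hBC e he)
  · exact fun e he => key e (h4 e he)

theorem LayD.par {κ : ℕ} {fl : Bool} {y1 y2 : St} (h : LayD κ fl y1 y2) : Par y1 y2 := by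
  obtain ⟨hr, D, h1, h2, _⟩ := h
  refine ⟨hr, ?_⟩
  rw [h1, h2]
  unfold p1 p2
  rw [List.map_map, List.map_map]
  rfl

theorem LayD.pick1 {κ : ℕ} {fl : Bool} {y1 y2 : St} (h : LayD κ fl y1 y2) (n : ℕ) :
    LayD κ fl (y1.pick n) y2 := h

theorem LayD.pick2 {κ : ℕ} {fl : Bool} {y1 y2 : St} (h : LayD κ fl y1 y2) (n : ℕ) :
    LayD κ fl y1 (y2.pick n) := h

/-- with flag `true` the state `y1` is never open -/
theorem LayD.not_open {κ : ℕ} {y1 y2 : St} (h : LayD κ true y1 y2) : ¬ y1.OpenTop := by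
  obtain ⟨_, D, h1, _, _, h4⟩ := h
  rcases D with _ | ⟨⟨l, m1, m2⟩, D⟩
  · rintro ⟨t, ht | ht⟩
    · rw [h1] at ht
      cases ht
    · rw [h1] at ht
      cases ht
  · have h1' : y1.stk = (l, m1) :: p1 D := h1
    have h5 := h4 _ List.mem_cons_self
    rintro ⟨t, ht | ht⟩
    · rw [h1', List.cons.injEq, Prod.mk.injEq] at ht
      obtain ⟨⟨rfl, rfl⟩, _⟩ := ht
      have := h5.2.2 rfl trivial
      cases this
    · rw [h1', List.cons.injEq, Prod.mk.injEq] at ht
      exact h5.1 ht.1.1

theorem LayD.top_none {κ : ℕ} {fl : Bool} {y1 y2 : St} {lv : Lev} {m : Mark}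
    {t : List (Lev × Mark)} (h : LayD κ fl y1 y2) (hs : y1.stk = (lv, m) :: t)
    (hl : ¬ lv.IsInn) (hm : ¬ NMk y2) : m = .none := by
  obtain ⟨_, D, h1, h2, h3, h4⟩ := h
  rcases D with _ | ⟨⟨l, m1, m2⟩, D⟩
  · rw [h1] at hs
    cases hs
  · have h1' : y1.stk = (l, m1) :: p1 D := h1
    rw [h1', List.cons.injEq, Prod.mk.injEq] at hs
    obtain ⟨⟨rfl, rfl⟩, _⟩ := hs
    by_contra hne
    have h5 := h4 _ List.mem_cons_self
    rcases l with j | j | _
    · exact hl trivial
    · have hκ : κ ≤ j := (h5.2.1 j rfl).1 hne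
      unfold NMk at hm
      push Not at hm
      obtain ⟨e, he, hem⟩ := hm
      rw [h2] at he
      obtain ⟨f, hf, rfl⟩ := List.mem_map.1 he
      have hle : (Lev.out j).le f.1 := by
        rcases List.mem_cons.1 hf with rfl | hf'
        · exact le_refl' _
        · exact (List.pairwise_cons.1 h3).1 f hf'
      obtain ⟨lf, f1, f2⟩ := f
      rcases lf with j' | j' | _
      · exact absurd hle (by simp [Lev.le])
      · have h6 : j ≤ j' := hle
        have h7 := ((h4 _ hf).2.1 j' rfl).2 hem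
        omega
      · exact (h4 _ hf).1 rfl
    · exact h5.1 rfl

/-- both boards move -/
theorem LayD.step {κ : ℕ} {fl : Bool} {y1 y2 : St} (h : LayD κ fl y1 y2) (hm : ¬ NMk y2)
    {l1 l2 : List ℕ} (hl : l1.getLastD 0 = l2.getLastD 0) :
    (TopOut y1 → LayD κ true (y1.step l1) (y2.step l2)) ∧
      (¬ TopOut y1 → LayD κ fl (y1.step l1) (y2.step l2)) := by
  have hL := h
  obtain ⟨hr, D, h1, h2, h3, h4⟩ := h
  rcases D with _ | ⟨⟨lv, m1, m2⟩, D⟩
  · exfalso
    apply hm
    intro e he
    rw [h2] at he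
    cases he
  · have h1' : y1.stk = (lv, m1) :: p1 D := h1
    have h2' : y2.stk = (lv, m2) :: p2 D := h2
    have hr' : (y1.step l1).real = (y2.step l2).real := by
      rw [step_real (by rw [h1']; simp), step_real (by rw [h2']; simp), hr, hl]
    obtain ⟨K, k1, k2, k3, k4, k5, k6⟩ := dbl_step h1 h2 h3 hl
    have h5 := h4 _ List.mem_cons_self
    constructor
    · rintro ⟨l', m', t', ht', hni⟩
      rw [h1', List.cons.injEq, Prod.mk.injEq] at ht'
      obtain ⟨⟨rfl, rfl⟩, _⟩ := ht'
      have hm1 : m1 = .none := hL.top_none h1' hni hm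
      refine ⟨hr', K ++ D, k1, k2, k3, ?_⟩
      intro f hf
      rcases List.mem_append.1 hf with hf | hf
      · have hlev := kid_lev k4 hf
        refine ⟨(kidsLev_le hlev).2, ?_, fun _ _ => k5 hm1 f hf⟩
        intro j hj
        refine ⟨fun hc => absurd (k5 hm1 f hf) hc, fun hc => ?_⟩
        have hm2 : m2 ≠ .none := fun h0 => hc (k6 h0 f hf)
        rcases lv with i | i | _
        · exact absurd trivial hni
        · have hi : i < κ := (h5.2.1 i rfl).2 hm2
          have hle := (kidsLev_le hlev).1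
          rw [hj] at hle
          have hle' : j ≤ i := hle
          omega
        · exact absurd rfl h5.1
      · have h6 := h4 f (List.mem_cons_of_mem _ hf)
        refine ⟨h6.1, h6.2.1, fun _ hin => ?_⟩
        exfalso
        have hle := (List.pairwise_cons.1 h3).1 f hf
        obtain ⟨lf, f1, f2⟩ := f
        rcases lf with i | i | _
        · rcases lv with j | j | _
          · exact hni trivial
          · exact absurd hle (by simp [Lev.le])
          · exact absurd hle (by simp [Lev.le])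
        · exact absurd hin (by simp [Lev.IsInn])
        · exact absurd hin (by simp [Lev.IsInn])
    · intro hnt
      have hin : lv.IsInn := by
        by_contra hc
        exact hnt ⟨lv, m1, p1 D, h1', hc⟩
      refine ⟨hr', K ++ D, k1, k2, k3, ?_⟩
      intro f hf
      rcases List.mem_append.1 hf with hf | hf
      · have hlev := kid_lev k4 hf
        refine ⟨(kidsLev_le hlev).2, ?_, fun hfl _ => k5 (h5.2.2 hfl hin) f hf⟩
        intro j hj
        exfalso
        have hle := (kidsLev_le hlev).1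
        rw [hj] at hle
        rcases lv with i | i | _
        · exact absurd hle (by simp [Lev.le])
        · exact absurd hin (by simp [Lev.IsInn])
        · exact absurd hin (by simp [Lev.IsInn])
      · exact h4 f (List.mem_cons_of_mem _ hf)

end Pool.Agent.H90.Ord
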