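import Pool.Agent.H90.Ord.JBb

/-!
# When the second board of `x` is open (module JO)

`xOpen1` (type II.1, stage A): `x1` in phase `1` of XY1, `x1`, `x2` aligned in mode `a` (`ε = true`).  If the
common stack is not `[(root, U)]` it is `A ++ p :: B` and the top has mark `U` on board `2` and level `inn 0`
(no entry has level `root`: `GM`, sortedness, `BC`).  `p = out k`, `κ ≤ k`: no mark `2` above `p`, and `p` itself is
outer: impossible.  `p = out k`, `k < κ`: `PM_false` (`AC`: no mark `1` above, `PassO`).  `p` inner: `PM_false`.

`xOpen2` (type II.1, stages A2, B): `x2` in phases `1, 6, 2` of XZ, mode `a`, `x1` open: then the pointed entry is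
not inner.  Otherwise: `p = inn k`, `k < γ`: the high mark (board `2`) is `U`, nothing above marked on board `2`:
`UM_false`.  `γ ≤ k`: no mark `1` above `p`, so `x1` is open only if `A = []` and `p = (inn 0, U, m2)`, then
`m2 = U` by `GM_inn_zero`, again `UM_false`.

`xOpen3` (type II.2, stage A): `x1` in phases `1, 6, 2` of XZ, mode `b` (`ε = false`, the high inner marks are on
board `1`), `x2` open: the pointed entry is not inner; the same proof with the boards exchanged.

`at_false`: in phases `1, 6, 2` of XZ the vertex `a` is never at its target.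
-/

set_option autoImplicit false

namespace Pool.Agent.H90.Ord

variable {red : List ℕ → List ℕ → Prop}

theorem xOpen1 {ann : Ann} {x1 x2 y : St} (haw : AW red XY1 ann x1 y) (hph : ann.ph = 1)
    (hal : Ald true x1 x2 ann.ha) (ho : x2.OpenTop) : ¬ ann.ha < x2.stk.length := by
  intro hlt
  obtain ⟨_, ⟨hs, ht, hh⟩ | ⟨κ, γ, A, p, B, hs, ht, hB, hal⟩⟩ := hal
  · rw [ht, hh, List.length_singleton] at hlt
    omega
  · rw [ht, p2_length, List.length_append, List.length_cons] at hlt
    rcases hp : p.1 with k | k | _
    · refine PM_false haw hph (Or.inl ⟨(p.1, p.2.1), ⟨p1 A, p1 B, ?_, ?_⟩, ?_⟩)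
      · rw [hs, p1_append]
        rfl
      · rw [p1_length]
        exact hB
      · rw [hp]
        trivial
    · rcases Nat.lt_or_ge k κ with hk | hk
      · refine PM_false haw hph (Or.inr ⟨p1 A, k, p.2.1, p1 B, ?_, ?_, ?_, ?_⟩)
        · rw [hs, p1_append, ← hp]
          rfl
        · rw [p1_length]
          exact hB
        · intro e he
          obtain ⟨x, hx, rfl⟩ := List.mem_map.1 he
          exact (hal.hA x hx).2.1 k hp hk
        · exact hal.hp.2.2.2.1 k hp hk
      · cases A with
        | nil =>
          rw [List.length_nil] at hlt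
          omega
        | cons e A =>
          have he : e.2.2 = .none := (hal.hA e List.mem_cons_self).1 k hp hk
          obtain ⟨t, h1⟩ := ho
          have h2 : x2.stk = (e.1, e.2.2) :: p2 (A ++ p :: B) := ht
          rw [h2, he] at h1
          rcases h1 with h1 | h1 <;> exact Mark.noConfusion (Prod.mk.inj (List.cons.inj h1).1).2
    · have := hal.hp.1
      rw [hp] at this
      exact this

theorem xOpen2 {ann : Ann} {x1 x2 z : St} (haw : AW red XZ ann x2 z)
    (hph : ann.ph = 1 ∨ ann.ph = 6 ∨ ann.ph = 2) (hal : Ald true x1 x2 ann.ha)
    (ho : x1.OpenTop) : ¬ PIn x1 ann.ha := by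
  rintro ⟨e, he, hei⟩
  obtain ⟨_, ⟨hs, ht, hh⟩ | ⟨κ, γ, A, p, B, hs, ht, hB, hal⟩⟩ := hal
  · obtain ⟨A, B, hA, hB⟩ := he
    rw [hs] at hA
    cases A with
    | nil =>
      rw [List.nil_append] at hA
      rw [← (List.cons.inj hA).1] at hei
      exact hei
    | cons x A =>
      have := congrArg List.length hA
      simp only [List.length_append, List.length_cons, List.length_nil] at this
      omega
  · have he' : EntryAt x1.stk ann.ha (p.1, p.2.1) := by
      refine ⟨p1 A, p1 B, ?_, ?_⟩
      · rw [hs, p1_append]
        rfl
      · rw [p1_length]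
        exact hB
    rw [entryAt_unique he he'] at hei
    rcases hp : p.1 with k | k | _
    · rcases Nat.lt_or_ge k γ with hk | hk
      · have hpU : p.2.2 = .U := hal.hp.2.2.2.2.2 k hp hk
        refine UM_false haw hph ⟨p2 A, p.1, p2 B, ?_, ?_, ?_, ?_⟩
        · rw [ht, p2_append, ← hpU]
          rfl
        · rw [hp]
          exact fun h => Lev.noConfusion h
        · rw [p2_length]
          exact hB
        · intro e he
          obtain ⟨x, hx, rfl⟩ := List.mem_map.1 he
          exact (hal.hA x hx).2.2.2 k hp hk
      · cases A with
        | nil =>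
          obtain ⟨t, h1⟩ := ho
          have h2 : x1.stk = (p.1, p.2.1) :: p1 B := hs
          have h3 : p.1 = .inn 0 := by
            rw [h2] at h1
            rcases h1 with h1 | h1
            · exact (Prod.mk.inj (List.cons.inj h1).1).1
            · have := (Prod.mk.inj (List.cons.inj h1).1).1
              rw [hp] at this
              cases this
          have h4 : p.2.2 = .U := by
            have := hal.hp.2.1
            rw [h3] at this
            exact GM_inn_zero this
          refine UM_false haw hph ⟨[], p.1, p2 B, ?_, ?_, ?_, ?_⟩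
          · rw [ht, List.nil_append, List.nil_append, ← h4]
            rfl
          · rw [hp]
            exact fun h => Lev.noConfusion h
          · rw [p2_length]
            exact hB
          · intro e he
            exact absurd he List.not_mem_nil
        | cons e A =>
          have he : e.2.1 = .none := (hal.hA e List.mem_cons_self).2.2.1 k hp hk
          obtain ⟨t, h1⟩ := ho
          have h2 : x1.stk = (e.1, e.2.1) :: p1 (A ++ p :: B) := hs
          rw [h2, he] at h1
          rcases h1 with h1 | h1 <;> exact Mark.noConfusion (Prod.mk.inj (List.cons.inj h1).1).2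
    · rw [hp] at hei
      exact hei
    · rw [hp] at hei
      exact hei

theorem xOpen3 {ann : Ann} {x1 x2 y : St} (haw : AW red XZ ann x1 y)
    (hph : ann.ph = 1 ∨ ann.ph = 6 ∨ ann.ph = 2) (hal : Ald false x1 x2 ann.ha)
    (ho : x2.OpenTop) : ¬ PIn x2 ann.ha := by
  rintro ⟨e, he, hei⟩
  obtain ⟨_, ⟨hs, ht, hh⟩ | ⟨κ, γ, A, p, B, hs, ht, hB, hal⟩⟩ := hal
  · obtain ⟨A, B, hA, hB⟩ := he
    rw [ht] at hA
    cases A with
    | nil =>
      rw [List.nil_append] at hA
      rw [← (List.cons.inj hA).1] at hei
      exact hei
    | cons x A =>
      have := congrArg List.length hA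
      simp only [List.length_append, List.length_cons, List.length_nil] at this
      omega
  · have he' : EntryAt x2.stk ann.ha (p.1, p.2.2) := by
      refine ⟨p2 A, p2 B, ?_, ?_⟩
      · rw [ht, p2_append]
        rfl
      · rw [p2_length]
        exact hB
    rw [entryAt_unique he he'] at hei
    rcases hp : p.1 with k | k | _
    · rcases Nat.lt_or_ge k γ with hk | hk
      · have hpU : p.2.1 = .U := hal.hp.2.2.2.2.2 k hp hk
        refine UM_false haw hph ⟨p1 A, p.1, p1 B, ?_, ?_, ?_, ?_⟩
        · rw [hs, p1_append, ← hpU]
          rfl
        · rw [hp]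
          exact fun h => Lev.noConfusion h
        · rw [p1_length]
          exact hB
        · intro e he
          obtain ⟨x, hx, rfl⟩ := List.mem_map.1 he
          exact (hal.hA x hx).2.2.2 k hp hk
      · cases A with
        | nil =>
          obtain ⟨t, h1⟩ := ho
          have h2 : x2.stk = (p.1, p.2.2) :: p2 B := ht
          have h3 : p.1 = .inn 0 := by
            rw [h2] at h1
            rcases h1 with h1 | h1
            · exact (Prod.mk.inj (List.cons.inj h1).1).1
            · have := (Prod.mk.inj (List.cons.inj h1).1).1
              rw [hp] at this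
              cases this
          have h4 : p.2.1 = .U := by
            have := hal.hp.1
            rw [h3] at this
            exact GM_inn_zero this
          refine UM_false haw hph ⟨[], p.1, p1 B, ?_, ?_, ?_, ?_⟩
          · rw [hs, List.nil_append, List.nil_append, ← h4]
            rfl
          · rw [hp]
            exact fun h => Lev.noConfusion h
          · rw [p1_length]
            exact hB
          · intro e he
            exact absurd he List.not_mem_nil
        | cons e A =>
          have he : e.2.2 = .none := (hal.hA e List.mem_cons_self).2.2.1 k hp hk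
          obtain ⟨t, h1⟩ := ho
          have h2 : x2.stk = (e.1, e.2.2) :: p2 (A ++ p :: B) := ht
          rw [h2, he] at h1
          rcases h1 with h1 | h1 <;> exact Mark.noConfusion (Prod.mk.inj (List.cons.inj h1).1).2
    · rw [hp] at hei
      exact hei
    · rw [hp] at hei
      exact hei

theorem at_false {ann : Ann} {a b : St} (haw : AW red XZ ann a b)
    (hph : ann.ph = 1 ∨ ann.ph = 6 ∨ ann.ph = 2) : ¬ AT a ann.ha := by
  rintro ⟨hlen, t, hs⟩
  refine UM_false haw hph ⟨[], .inn 0, t, ?_, ?_, ?_, ?_⟩
  · rw [hs, List.nil_append]
  · exact fun h => Lev.noConfusion h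
  · rw [hlen, hs, List.length_cons]
  · intro e he
    exact absurd he List.not_mem_nil

end Pool.Agent.H90.Ord
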