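import Pool.Agent.H90.Ord.JA

/-!
# The following boards: automata XY1, XYI, XZI, YZI, R1 and the plain game (module JRB)

All by inversion of `AW` (or `Win`), see module JRA.  `ready_XY2`: if `x` is open, a choice of `y` would need
`PIn x h` or `AT x h`, and `AT x h` implies `PIn x h` (`AT.pin`).  `ready_XY4`: if `y` is open then `fl = false`,
and a choice of `x` needs `fl = true` or `y.stk = []`.
-/

set_option autoImplicit false

namespace Pool.Agent.H90.Ord

variable {red : List ℕ → List ℕ → Prop}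

private theorem awA {A : Auto} {ann : Ann} {a b : St} (h : AW red A ann a b) (ha : ¬ a.Nonrun) :
    ∃ (f : List ℕ → Ann) (T : Set (List ℕ)), b.Nonrun ∧ A.stepT ann true a b f ∧
      Big (a.need + 1) T ∧ ∀ l ∈ T, AW red A (f l) (a.step l) b := by
  cases h with
  | done h1 _ _ _ => exact absurd (Or.inl h1) ha
  | pickA n h1 _ _ _ _ => exact absurd h1 ha
  | pickB n h1 _ _ _ _ _ => exact absurd h1 ha
  | stepA f T _ h2 h3 h4 h5 => exact ⟨f, T, h2, h3, h4, h5⟩
  | stepB f T h1 _ _ _ _ => exact absurd h1 ha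

private theorem awB {A : Auto} {ann : Ann} {a b : St} (h : AW red A ann a b) (hb : ¬ b.Nonrun) :
    ∃ (f : List ℕ → Ann) (T : Set (List ℕ)), a.Nonrun ∧ A.stepT ann false a b f ∧
      Big (b.need + 1) T ∧ ∀ l ∈ T, AW red A (f l) a (b.step l) := by
  cases h with
  | done _ h1 _ _ => exact absurd (Or.inl h1) hb
  | pickA n _ h1 _ _ _ => exact absurd h1 hb
  | pickB n _ h1 _ _ _ _ => exact absurd h1 hb
  | stepA f T _ h2 _ _ _ => exact absurd h2 hb
  | stepB f T h1 _ h3 h4 h5 => exact ⟨f, T, h1, h3, h4, h5⟩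

private theorem awN {A : Auto} {ann : Ann} {a b : St} (h : AW red A ann a b) (ha : a.Nonrun)
    (hb : b.Nonrun) : (a.stk = [] ∧ b.stk = []) ∨
      (∃ n ann', a.stk ≠ [] ∧ A.pickT ann true a b ann' ∧ AW red A ann' (a.pick n) b) ∨
      ∃ n ann', b.stk ≠ [] ∧ a.real ≠ [] ∧ A.pickT ann false a b ann' ∧
        AW red A ann' a (b.pick n) := by
  cases h with
  | done h1 h2 _ _ => exact Or.inl ⟨h1, h2⟩
  | pickA n _ _ h3 h4 h5 => exact Or.inr (Or.inl ⟨n, _, h3, h4, h5⟩)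
  | pickB n _ _ h3 h4 h5 h6 => exact Or.inr (Or.inr ⟨n, _, h3, h4, h5, h6⟩)
  | stepA f T h1 _ _ _ _ => exact absurd ha h1
  | stepB f T _ h2 _ _ _ => exact absurd hb h2

private theorem opn {s : St} (h : s.Nonrun) (h0 : s.stk ≠ []) : s.OpenTop := by
  rcases h with h | h
  · exact absurd h h0
  · exact h.2

private theorem rdyPA {A : Auto} {an : ℕ → Ann} {x y : St} {h : ℕ} (haw : AW red A (an h) x y)
    (hy : y.Nonrun) (h0 : x.stk ≠ []) (h1 : ∀ ann', A.pickT (an h) true x y ann' → ann' = an h)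
    (h2 : x.OpenTop → x.real ≠ [] → ∀ ann', ¬ A.pickT (an h) false x y ann')
    (h3 : ∀ x' f, A.stepT (an h) true x' y f → ∃ g, PtrStep h x' g ∧ f = fun l => an (g l)) :
    ReadyP (fun h x => AW red A (an h) x y) h x := by
  have h4 : ∀ x', (x' = x ∨ ∃ n, x' = x.pick n) → ¬ x'.Nonrun → AW red A (an h) x' y →
      ReadyP (fun h x => AW red A (an h) x y) h x := by
    intro x' hx' hr hw
    obtain ⟨f, T, -, h5, h6, h7⟩ := awA hw hr
    obtain ⟨g, h8, h9⟩ := h3 x' f h5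
    refine ⟨x', T, g, hx', hr, h8, h6, fun l hl => ?_⟩
    have h10 := h7 l hl
    rw [h9] at h10
    exact h10
  by_cases hx : x.Nonrun
  · rcases awN haw hx hy with h5 | ⟨n, ann', -, h6, h7⟩ | ⟨n, ann', -, h6, h7, -⟩
    · exact absurd h5.1 h0
    · rw [h1 ann' h6] at h7
      exact h4 (x.pick n) (Or.inr ⟨n, rfl⟩) (pick_not_nonrun n h0) h7
    · exact absurd h7 (h2 (opn hx h0) h6 ann')
  · exact h4 x (Or.inl rfl) hx haw

private theorem rdyA {A : Auto} {ann : Ann} {x y : St} (haw : AW red A ann x y)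
    (hy : y.Nonrun) (h0 : x.stk ≠ []) (h1 : ∀ ann', A.pickT ann true x y ann' → ann' = ann)
    (h2 : x.OpenTop → x.real ≠ [] → ∀ ann', ¬ A.pickT ann false x y ann')
    (h3 : ∀ x' f, A.stepT ann true x' y f → f = fun _ => ann) :
    Ready (fun x => AW red A ann x y) x := by
  have h4 : ∀ x', (x' = x ∨ ∃ n, x' = x.pick n) → ¬ x'.Nonrun → AW red A ann x' y →
      Ready (fun x => AW red A ann x y) x := by
    intro x' hx' hr hw
    obtain ⟨f, T, -, h5, h6, h7⟩ := awA hw hr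
    refine ⟨x', T, hx', hr, h6, fun l hl => ?_⟩
    have h10 := h7 l hl
    rw [h3 x' f h5] at h10
    exact h10
  by_cases hx : x.Nonrun
  · rcases awN haw hx hy with h5 | ⟨n, ann', -, h6, h7⟩ | ⟨n, ann', -, h6, h7, -⟩
    · exact absurd h5.1 h0
    · rw [h1 ann' h6] at h7
      exact h4 (x.pick n) (Or.inr ⟨n, rfl⟩) (pick_not_nonrun n h0) h7
    · exact absurd h7 (h2 (opn hx h0) h6 ann')
  · exact h4 x (Or.inl rfl) hx haw

private theorem rdyB {A : Auto} {ann : Ann} {x y : St} (haw : AW red A ann x y)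
    (hx : x.Nonrun) (h0 : y.stk ≠ []) (h1 : ∀ ann', A.pickT ann false x y ann' → ann' = ann)
    (h2 : ∀ ann', ¬ A.pickT ann true x y ann')
    (h3 : ∀ y' f, A.stepT ann false x y' f → f = fun _ => ann) :
    Ready (fun y => AW red A ann x y) y := by
  have h4 : ∀ y', (y' = y ∨ ∃ n, y' = y.pick n) → ¬ y'.Nonrun → AW red A ann x y' →
      Ready (fun y => AW red A ann x y) y := by
    intro y' hy' hr hw
    obtain ⟨f, T, -, h5, h6, h7⟩ := awB hw hr
    refine ⟨y', T, hy', hr, h6, fun l hl => ?_⟩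
    have h10 := h7 l hl
    rw [h3 y' f h5] at h10
    exact h10
  by_cases hy : y.Nonrun
  · rcases awN haw hx hy with h5 | ⟨n, ann', -, h6, h7⟩ | ⟨n, ann', -, -, h6, h7⟩
    · exact absurd h5.2 h0
    · exact absurd h6 (h2 ann')
    · rw [h1 ann' h6] at h7
      exact h4 (y.pick n) (Or.inr ⟨n, rfl⟩) (pick_not_nonrun n h0) h7
  · exact h4 y (Or.inl rfl) hy haw

theorem ready_XY2 {h : ℕ} {x y : St} (haw : AW red XY1 ⟨2, h, 0, false⟩ x y) (hy : y.Nonrun)
    (h0 : x.stk ≠ []) (ho : x.OpenTop → ¬ PIn x h) :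
    ReadyP (fun h x => AW red XY1 ⟨2, h, 0, false⟩ x y) h x := by
  refine rdyPA (an := fun h => ⟨2, h, 0, false⟩) haw hy h0 ?_ ?_ ?_
  · intro ann' ht
    simp [XY1] at ht
    exact ht.2
  · intro h1 _ ann' ht
    simp [XY1] at ht
    rcases ht with ht | ht
    · exact ho h1 ht.1
    · exact ho h1 ht.1.pin
  · intro x' f ht
    simp [XY1, PtrA] at ht
    exact ht

theorem ready_XY4 {fl : Bool} {x y : St} (haw : AW red XY1 ⟨4, 0, 0, fl⟩ x y) (hx : x.Nonrun)
    (h0 : y.stk ≠ []) (ho : fl = true → ¬ y.OpenTop) :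
    ∃ (y' : St) (T : Set (List ℕ)), (y' = y ∨ ∃ n, y' = y.pick n) ∧ ¬ y'.Nonrun ∧
      Big (y'.need + 1) T ∧ ∀ l ∈ T, (TopOut y → AW red XY1 ⟨4, 0, 0, true⟩ x (y'.step l)) ∧
        (¬ TopOut y → AW red XY1 ⟨4, 0, 0, fl⟩ x (y'.step l)) := by
  have h4 : ∀ y', (y' = y ∨ ∃ n, y' = y.pick n) → ¬ y'.Nonrun →
      AW red XY1 ⟨4, 0, 0, fl⟩ x y' → ∃ (y' : St) (T : Set (List ℕ)),
        (y' = y ∨ ∃ n, y' = y.pick n) ∧ ¬ y'.Nonrun ∧
      Big (y'.need + 1) T ∧ ∀ l ∈ T, (TopOut y → AW red XY1 ⟨4, 0, 0, true⟩ x (y'.step l)) ∧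
        (¬ TopOut y → AW red XY1 ⟨4, 0, 0, fl⟩ x (y'.step l)) := by
    intro y' hy' hr hw
    obtain ⟨f, T, -, h5, h6, h7⟩ := awB hw hr
    have htop : TopOut y' ↔ TopOut y := by
      rcases hy' with h | ⟨n, h⟩
      · rw [h]
      · rw [h]
        exact Iff.rfl
    refine ⟨y', T, hy', hr, h6, fun l hl => ?_⟩
    have h10 := h7 l hl
    simp [XY1, Same] at h5
    rcases h5 with h5 | h5
    · rw [h5.2] at h10
      exact ⟨fun _ => h10, fun h => absurd (htop.1 h5.1) h⟩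
    · rw [h5.2] at h10
      exact ⟨fun h => absurd (htop.2 h) h5.1, fun _ => h10⟩
  by_cases hy : y.Nonrun
  · rcases awN haw hx hy with h5 | ⟨n, ann', -, h6, h7⟩ | ⟨n, ann', -, -, h6, h7⟩
    · exact absurd h5.2 h0
    · simp [XY1, h0] at h6
      exact absurd (opn hy h0) (ho h6.1)
    · simp [XY1] at h6
      rw [h6] at h7
      exact h4 (y.pick n) (Or.inr ⟨n, rfl⟩) (pick_not_nonrun n h0) h7
  · exact h4 y (Or.inl rfl) hy haw

theorem ready_XYI2 {x y : St} (haw : AW red XYI ⟨2, 0, 0, false⟩ x y) (hy : y.Nonrun)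
    (h0 : x.stk ≠ []) : Ready (fun x => AW red XYI ⟨2, 0, 0, false⟩ x y) x := by
  refine rdyA haw hy h0 ?_ ?_ ?_
  · intro ann' ht
    simpa [XYI] using ht
  · intro _ _ ann' ht
    simp [XYI, h0] at ht
  · intro x' f ht
    simpa [XYI, Same] using ht

/-- `x` on the board `xz` before `z` has started -/
theorem ready_XZI {x : St} (haw : AW red XZI ⟨0, 0, 0, false⟩ x start) (h0 : x.stk ≠ [])
    (ho : x.OpenTop → x.real = []) : Ready (fun x => AW red XZI ⟨0, 0, 0, false⟩ x start) x := by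
  refine rdyA haw start_nonrun h0 ?_ ?_ ?_
  · intro ann' ht
    exact ht.2
  · intro h1 h2 ann' _
    exact h2 (ho h1)
  · intro x' f ht
    exact ht.2

theorem ready_YZI1 {k : ℕ} {y : St} (haw : AW red YZI ⟨1, k, 0, false⟩ y start)
    (h0 : y.stk ≠ []) (hat : ¬ AT y k) :
    ReadyP (fun k y => AW red YZI ⟨1, k, 0, false⟩ y start) k y := by
  refine rdyPA (an := fun k => ⟨1, k, 0, false⟩) haw start_nonrun h0 ?_ ?_ ?_
  · intro ann' ht
    simp [YZI] at ht
    exact ht.2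
  · intro _ _ ann' ht
    simp [YZI] at ht
    exact hat ht.1
  · intro x' f ht
    simp [YZI, PtrA] at ht
    exact ht

theorem cut_YZI1 {k : ℕ} {y : St} (haw : AW red YZI ⟨1, k, 0, false⟩ y start) (hat : AT y k) :
    y.Nonrun ∧ ∃ n, AW red YZI ⟨2, 0, 0, false⟩ y (start.pick n) := by
  have hy : y.Nonrun := by
    by_contra hy
    obtain ⟨f, T, -, h5, -, -⟩ := awA haw hy
    simp [YZI, PtrA] at h5
    obtain ⟨g, hg, -⟩ := h5
    exact hg.not_at hat
  refine ⟨hy, ?_⟩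
  rcases awN haw hy start_nonrun with h5 | ⟨n, ann', -, h6, h7⟩ | ⟨n, ann', -, -, h6, h7⟩
  · exact absurd h5.2 (List.cons_ne_nil _ _)
  · simp [YZI] at h6
    exact absurd h6.1 hat.not_nt
  · simp [YZI] at h6
    rw [h6.2] at h7
    exact ⟨n, h7⟩

theorem ready_YZI2 {y z : St} (haw : AW red YZI ⟨2, 0, 0, false⟩ y z) (hy : y.Nonrun)
    (hz : ¬ z.Nonrun) : Ready (fun z => AW red YZI ⟨2, 0, 0, false⟩ y z) z := by
  have _ := hy
  obtain ⟨f, T, -, h5, h6, h7⟩ := awB haw hz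
  simp [YZI, Same] at h5
  refine ⟨z, T, Or.inl rfl, hz, h6, fun l hl => ?_⟩
  have h8 := h7 l hl
  rw [h5] at h8
  exact h8

theorem ready_R2 {x y : St} (haw : AW red R1 ⟨2, 0, 0, false⟩ x y) (hx : x.Nonrun)
    (h0 : y.stk ≠ []) : Ready (fun y => AW red R1 ⟨2, 0, 0, false⟩ x y) y := by
  refine rdyB haw hx h0 ?_ ?_ ?_
  · intro ann' ht
    simpa [R1] using ht
  · intro ann' ht
    simp [R1, h0] at ht
  · intro y' f ht
    simpa [R1, Same] using ht

theorem AW.toWin {A : Auto} {ann : Ann} {a b : St} (h : AW red A ann a b) : Win red a b := by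
  induction h with
  | done h1 h2 h3 _ => exact Win.done h1 h2 h3
  | pickA n h1 h2 h3 _ _ ih => exact Win.pickA n h1 h2 h3 ih
  | pickB n h1 h2 h3 h4 _ _ ih => exact Win.pickB n h1 h2 h3 h4 ih
  | stepA f T h1 h2 _ h4 _ ih => exact Win.stepA T h1 h2 h4 ih
  | stepB f T h1 h2 _ h4 _ ih => exact Win.stepB T h1 h2 h4 ih

/-- `b` is complete -/
theorem ready_WinA {a b : St} (hw : Win red a b) (hb : b.stk = []) (h0 : a.stk ≠ []) :
    Ready (fun a => Win red a b) a := by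
  have hbn : b.Nonrun := Or.inl hb
  have h4 : ∀ a', (a' = a ∨ ∃ n, a' = a.pick n) → ¬ a'.Nonrun → Win red a' b →
      Ready (fun a => Win red a b) a := by
    intro a' ha' hr hw
    cases hw with
    | done h1 _ _ => exact absurd (Or.inl h1) hr
    | pickA n h1 _ _ _ => exact absurd h1 hr
    | pickB n h1 _ _ _ _ => exact absurd h1 hr
    | stepA T _ _ h3 h5 => exact ⟨a', T, ha', hr, h3, h5⟩
    | stepB T h1 _ _ _ => exact absurd h1 hr
  by_cases ha : a.Nonrun
  · cases hw with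
    | done h1 _ _ => exact absurd h1 h0
    | pickA n _ _ _ h5 => exact h4 (a.pick n) (Or.inr ⟨n, rfl⟩) (pick_not_nonrun n h0) h5
    | pickB n _ _ h3 _ _ => exact absurd hb h3
    | stepA T h1 _ _ _ => exact absurd ha h1
    | stepB T _ h2 _ _ => exact absurd hbn h2
  · exact h4 a (Or.inl rfl) ha hw

/-- `a` is complete -/
theorem ready_WinB {a b : St} (hw : Win red a b) (ha : a.stk = []) (h0 : b.stk ≠ []) :
    Ready (fun b => Win red a b) b := by
  have han : a.Nonrun := Or.inl ha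
  have h4 : ∀ b', (b' = b ∨ ∃ n, b' = b.pick n) → ¬ b'.Nonrun → Win red a b' →
      Ready (fun b => Win red a b) b := by
    intro b' hb' hr hw
    cases hw with
    | done _ h1 _ => exact absurd (Or.inl h1) hr
    | pickA n _ h1 _ _ => exact absurd h1 hr
    | pickB n _ h1 _ _ _ => exact absurd h1 hr
    | stepA T _ h1 _ _ => exact absurd h1 hr
    | stepB T _ _ h3 h5 => exact ⟨b', T, hb', hr, h3, h5⟩
  by_cases hb : b.Nonrun
  · cases hw with
    | done _ h1 _ => exact absurd h1 h0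
    | pickA n _ _ h3 _ => exact absurd ha h3
    | pickB n _ _ _ _ h5 => exact h4 (b.pick n) (Or.inr ⟨n, rfl⟩) (pick_not_nonrun n h0) h5
    | stepA T h1 _ _ _ => exact absurd han h1
    | stepB T _ h2 _ _ => exact absurd hb h2
  · exact h4 b (Or.inl rfl) hb hw

end Pool.Agent.H90.Ord
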