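import Pool.Agent.H90.Ord.K4Types

/-!
# Facts about adjacent pairs (module K4A)

Elementary facts about block functions.  `claimP` is Claim P of section 3.2 of proofs 343: the two
`y`-blocks with respect to `z` which contain `y1` and `y2` lie between `z1` and `z3`, where all numbers
of `y` have inner level (their blocks with respect to `x` are between 4 and 10); so the blocks are
3 or 11 (`t2 y1 = 3`, `t2 y2 = 11`), and then the block 5 with its outer number lies between them.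
-/

set_option autoImplicit false

namespace Pool.Agent.H90.Ord

variable {x y z : Vt} {t t1 t2 : ℕ → ℕ} {A B A1 B1 A2 B2 : ℕ}

theorem Blocks.lt_of (hxy : Blocks x y t A B) {m n : ℕ} (h : t m < t n) : m < n := by
  by_contra hc
  have := hxy.mono (not_lt.mp hc)
  omega

theorem during_of (hyz : Blocks y z t2 A2 B2) {n : ℕ} (hn : n ∈ z.s) : During y n := by
  obtain ⟨p, hp, hp1⟩ := hyz.exx 1 (by decide) (by omega)
  obtain ⟨q, hq, hq1⟩ := hyz.exx 13 (by decide) (by omega)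
  obtain ⟨-, h2, h3⟩ := hyz.eveny n hn
  exact ⟨p, hp, q, hq, hyz.lt_of (by omega), hyz.lt_of (by omega)⟩

theorem During.trans (hyz : Blocks y z t2 A2 B2) {n : ℕ} (hn : During z n) : During y n := by
  obtain ⟨p, hp, q, hq, h1, h2⟩ := hn
  obtain ⟨p', hp', -, -, h3, -⟩ := during_of hyz hp
  obtain ⟨-, -, q', hq', -, h4⟩ := during_of hyz hq
  exact ⟨p', hp', q', hq', h3.trans h1, h2.trans h4⟩

theorem blk_during (hxy : Blocks x y t A B) {n : ℕ} (hn : n ∈ x.s) (hd : During y n) :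
    3 ≤ t n ∧ t n ≤ 11 := by
  obtain ⟨p, hp, q, hq, h1, h2⟩ := hd
  obtain ⟨-, h3, -⟩ := hxy.eveny p hp
  obtain ⟨-, -, h4⟩ := hxy.eveny q hq
  have h5 := hxy.mono h1.le
  have h6 := hxy.mono h2.le
  obtain ⟨⟨k, hk⟩, -⟩ := hxy.oddx n hn
  omega

/-- numbers of `y` and of `z` are different -/
theorem Blocks.ne (hyz : Blocks y z t2 A2 B2) {m n : ℕ} (hm : m ∈ y.s) (hn : n ∈ z.s) : m ≠ n := by
  rintro rfl
  obtain ⟨⟨k, hk⟩, -⟩ := hyz.oddx m hm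
  obtain ⟨⟨j, hj⟩, -⟩ := hyz.eveny m hn
  omega

/-- outer numbers of `y` in the life of `z` -/
theorem outerY (hxy : Blocks x y t A B) (hyz : Blocks y z t2 A2 B2) {n : ℕ} (hn : n ∈ y.s)
    (hd : During z n) (ho : ¬ (y.lv n).IsInn) :
    (t n = 2 ∨ t n = 12) ∧ (t2 n = 5 ∨ t2 n = 7 ∨ t2 n = 9) := by
  obtain ⟨⟨j, hj⟩, h1, h2⟩ := hxy.eveny n hn
  obtain ⟨⟨k, hk⟩, -⟩ := hyz.oddx n hn
  obtain ⟨h3, h4⟩ := blk_during hyz hn hd
  have h5 : ¬ (4 ≤ t n ∧ t n ≤ 10) := fun h => ho (hxy.inny n hn h.1 h.2)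
  have h6 : ¬ (t2 n = 3 ∨ t2 n = 11) := fun h => ho (hyz.innx n hn h)
  omega

/-- outer numbers of `x` in the life of `z` -/
theorem outerX (hxy : Blocks x y t A B) (hxz : Blocks x z t1 A1 B1) (hyz : Blocks y z t2 A2 B2)
    {n : ℕ} (hn : n ∈ x.s) (hd : During z n) (ho : ¬ (x.lv n).IsInn) :
    (t n = 5 ∨ t n = 7 ∨ t n = 9) ∧ (t1 n = 5 ∨ t1 n = 7 ∨ t1 n = 9) := by
  obtain ⟨⟨j, hj⟩, -⟩ := hxy.oddx n hn
  obtain ⟨⟨k, hk⟩, -⟩ := hxz.oddx n hn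
  obtain ⟨h1, h2⟩ := blk_during hxy hn (During.trans hyz hd)
  obtain ⟨h3, h4⟩ := blk_during hxz hn hd
  have h5 : ¬ (t n = 3 ∨ t n = 11) := fun h => ho (hxy.innx n hn h)
  have h6 : ¬ (t1 n = 3 ∨ t1 n = 11) := fun h => ho (hxz.innx n hn h)
  omega

/-- for every odd block number between 5 and 9 there is an outer number of `y` in the life of `z` -/
theorem exists_outerY (hyz : Blocks y z t2 A2 B2) {k : ℕ} (hk : k = 5 ∨ k = 7 ∨ k = 9) :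
    ∃ n ∈ y.s, During z n ∧ ¬ (y.lv n).IsInn ∧ t2 n = k := by
  obtain ⟨p, hp, hp1⟩ := hyz.exy 4 (by decide) (by omega) (by omega)
  obtain ⟨q, hq, hq1⟩ := hyz.exy 10 (by decide) (by omega) (by omega)
  have key : ∃ n ∈ y.s, ¬ (y.lv n).IsInn ∧ t2 n = k := by
    rcases hk with rfl | rfl | rfl
    · obtain ⟨n, hn, h1, h2⟩ := hyz.five
      exact ⟨n, hn, by rw [h2]; exact fun h => h, h1⟩
    · obtain ⟨n, hn, h1, h2⟩ := hyz.seven
      exact ⟨n, hn, by rw [h2]; exact fun h => h, h1⟩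
    · obtain ⟨n, hn, h1, h2⟩ := hyz.nine
      exact ⟨n, hn, by rw [h2]; exact fun h => h, h1⟩
  obtain ⟨n, hn, h1, h2⟩ := key
  exact ⟨n, hn, ⟨p, hp, q, hq, hyz.lt_of (by omega), hyz.lt_of (by omega)⟩, h1, h2⟩

theorem claimP (hxy : Blocks x y t A B) (hyz : Blocks y z t2 A2 B2) {z1 z2 z3 y1 y2 : ℕ}
    (hz1 : z1 ∈ z.s) (hz2 : z2 ∈ z.s) (hz3 : z3 ∈ z.s) (hy1 : y1 ∈ y.s) (hy2 : y2 ∈ y.s)
    (h1 : z1 < y1) (h2 : y1 < z2) (h3 : z2 < y2) (h4 : y2 < z3) (h5 : 3 ≤ t z1)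
    (h6 : t z3 ≤ 11) : False := by
  obtain ⟨⟨a1, ha1⟩, -, -⟩ := hyz.eveny z1 hz1
  obtain ⟨⟨a2, ha2⟩, -, -⟩ := hyz.eveny z2 hz2
  obtain ⟨⟨a3, ha3⟩, -, -⟩ := hyz.eveny z3 hz3
  obtain ⟨⟨b1, hb1⟩, -⟩ := hyz.oddx y1 hy1
  obtain ⟨⟨b2, hb2⟩, -⟩ := hyz.oddx y2 hy2
  have m1 := hyz.mono h1.le
  have m2 := hyz.mono h2.le
  have m3 := hyz.mono h3.le
  have m4 := hyz.mono h4.le
  obtain ⟨r1, r2⟩ := blk_during hyz hy1 ⟨z1, hz1, z3, hz3, h1, (h2.trans h3).trans h4⟩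
  obtain ⟨r3, r4⟩ := blk_during hyz hy2 ⟨z1, hz1, z3, hz3, (h1.trans h2).trans h3, h4⟩
  -- no odd number `k` in `{5, 7, 9}` between the blocks of `z1` and `z3`
  have key : ∀ k, (k = 5 ∨ k = 7 ∨ k = 9) → t2 z1 < k → k < t2 z3 → False := by
    intro k hk hk1 hk3
    obtain ⟨n, hn, -, ho, hnk⟩ := exists_outerY hyz hk
    have l1 : z1 < n := hyz.lt_of (by omega)
    have l3 : n < z3 := hyz.lt_of (by omega)
    have c1 := hxy.mono l1.le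
    have c3 := hxy.mono l3.le
    obtain ⟨⟨j, hj⟩, -, -⟩ := hxy.eveny n hn
    exact ho (hxy.inny n hn (by omega) (by omega))
  have k5 := key 5 (by omega)
  have k7 := key 7 (by omega)
  have k9 := key 9 (by omega)
  by_cases c5 : t2 z1 < 5 ∧ 5 < t2 z3
  · exact k5 c5.1 c5.2
  by_cases c7 : t2 z1 < 7 ∧ 7 < t2 z3
  · exact k7 c7.1 c7.2
  by_cases c9 : t2 z1 < 9 ∧ 9 < t2 z3
  · exact k9 c9.1 c9.2
  omega

end Pool.Agent.H90.Ord
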