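import Pool.Agent.H90.Ord.K4A

/-!
# Claim D (module K4D)

Claim D of section 3.2 of proofs 343, in full detail.  Let `p ∈ z`, `q ∈ Y4` (so `t q = 4`) with `p < q`
and suppose some `q' ∈ z` is not below some `y10 ∈ Y10`, so `y10 < q'`.

1. The blocks `X5, X7, X9` of `x` lie between `q` and `y10`, so in the life of `z`.  The outer numbers of
`x` in the life of `z` are in `X5 ∪ X7 ∪ X9` and in the blocks 5, 7, 9 with respect to `z` (`outerX`).
Hence `B1 = B` (both are the maximal outer level of `x` in the life of `z`), numbers of `x` of level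
`out B` in the life of `z` have `t ∈ {7, 9}` and `t1 ∈ {7, 9}`.
2. Take `b1 ∈ x` with `t b1 = 7`, level `out B`, and `b2 ∈ x` with `t b2 = 9`, level `out B`.  Take
`z`-numbers `ζ4, ζ6, ζ8, ζ10` with `t1 = 4, 6, 8, 10`.  Let `c7 ∈ x` be of level `out B` with `t1 c7 = 7`
and `c9` with `t1 c9 = 9`.  `ζ6 < ` every number of `x` of level `out B` in the life of `z` `< ζ10`
(because `t1` of such a number is 7 or 9), in particular `ζ6 < b1 < b2 < ζ10`; `ζ4 <` every outer number of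
`x` in the life of `z`, in particular `ζ4 < a5` where `t a5 = 5`, `a5` outer.  The number `α` of `x` with
`t1 α = 5`, outer, has `ζ4 < α < ζ6` and `t α ≥ 5`.
3. `3 ≤ t ζ4` (there is a number of `x` with `t1 = 3` before `ζ4`, it is in the life of `y`, so its `t` is
at least 3) and `t ζ10 ≤ 11` (there is a number of `x` with `t1 = 11` after `ζ10`).
4. If some `y6 ∈ y`, `t y6 = 6`, has `y6 < ζ6`: then `ζ4 < a5 < y6 < ζ6` and for `y8 ∈ y`, `t y8 = 8`:
`ζ6 < b1 < y8 < b2 < ζ10`: contradiction to `claimP`.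
5. So `ζ6 < y6` for a chosen `y6` with `t y6 = 6`; `y6 < b1`, and `c7 ≥` the first number of level `out B`;
every number of `x` of level `out B` in the life of `z` has `t ≥ 7`, so `y6 < c7 < ζ8`.  If some `y8` with
`t y8 = 8` has `ζ8 < y8`: `y6` and `y8` (`y8 < b2 < ζ10`) contradict `claimP` (with `ζ6 < ζ8 < ζ10`).  So
`y8 < ζ8`.  If some `y10'` with `t y10' = 10` has `y10' < ζ10`: `ζ8 < c9`, `t c9 ≤ 9` so `c9 < y10'`, hence
`ζ8 < y10' < ζ10`, and `ζ6 < y6 < ζ8`: contradiction to `claimP`.  So `ζ10 < y10` for the given `y10`.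
6. `t2 y6` is odd, and the block of `y6` with respect to `z` is between `ζ6` and `ζ8`, where all numbers of
`y` are inner (`inny`, since `3 ≤ t ≤ 11` there).  So `t2 y6` is not 5, 7, 9 (these blocks contain an outer
number).  `t2 y6 ≥ 3` and if `t2 y6 = 3` then `t2 ζ6 = 2`, but `p < q < ζ6` (`q < α < ζ6` as `t q = 4 < 5 ≤
t α`), `t2 p ≥ 2`, `t2 q ≥ 3`, `t2 ζ6 ≥ 4`, contradiction.  `t2 y6 ≤ 11` because `ζ8 > y6`.  So
`t2 y6 = 11`, `t2 ζ8 = 12`, and `ζ8 < ζ10 < y10`, so `t2 y10 ≥ 12`, so `t2 y10 = 13`, but `y10 < q' ∈ z`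
gives `t2 y10 ≤ 12`.  Contradiction.
-/

set_option autoImplicit false

namespace Pool.Agent.H90.Ord

variable {x y z : Vt} {t t1 t2 : ℕ → ℕ} {A B A1 B1 A2 B2 : ℕ}

private theorem kd_lt (h : Blocks x y t A B) {m n : ℕ} (hmn : t m < t n) : m < n :=
  h.lt_of hmn

/-- levels of outer numbers: `out j` with `j ≤ B` -/
private theorem kd_lev (h : Blocks x y t A B) {n : ℕ} (hn : n ∈ x.s) (ht : t n = 5 ∨ t n = 7 ∨ t n = 9)
    {C : ℕ} (hl : x.lv n = .out C) : C ≤ B ∧ (t n = 5 → C ≤ A) := by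
  have hni : ¬ (x.lv n).IsInn := by
    rw [hl]
    exact fun h => h
  have hlt := h.lt
  rcases ht with ht | ht | ht
  · rcases h.five' n hn ht with h1 | ⟨j, hj, h1⟩
    · exact absurd h1 hni
    · rw [hl] at h1
      have h2 : C = j := by injection h1
      exact ⟨by omega, fun _ => by omega⟩
  · rcases h.seven' n hn ht with h1 | ⟨j, hj, h1⟩
    · exact absurd h1 hni
    · rw [hl] at h1
      have h2 : C = j := by injection h1
      exact ⟨by omega, fun h3 => by omega⟩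
  · rcases h.nine' n hn ht with h1 | ⟨j, hj, h1⟩
    · exact absurd h1 hni
    · rw [hl] at h1
      have h2 : C = j := by injection h1
      exact ⟨by omega, fun h3 => by omega⟩

theorem claimD (hxy : Blocks x y t A B) (hxz : Blocks x z t1 A1 B1) (hyz : Blocks y z t2 A2 B2)
    {p q : ℕ} (hp : p ∈ z.s) (hq : q ∈ y.s) (htq : t q = 4) (hpq : p < q) :
    ∀ q' ∈ z.s, ∀ y10 ∈ y.s, t y10 = 10 → q' < y10 := by
  intro q' hq' y10 hy10 ht10
  by_contra hcon
  have hlt : y10 < q' := by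
    have := Blocks.ne hyz hy10 hq'
    omega
  -- step 1
  have hdur : ∀ n, 4 < t n → t n < 10 → During z n := by
    intro n h1 h2
    refine ⟨p, hp, q', hq', ?_, ?_⟩
    · exact hpq.trans (kd_lt hxy (by omega))
    · exact (kd_lt hxy (by omega : t n < t y10)).trans hlt
  obtain ⟨ζ4, hζ4, tζ4⟩ := hxz.exy 4 (by decide) (by norm_num) (by norm_num)
  obtain ⟨ζ6, hζ6, tζ6⟩ := hxz.exy 6 (by decide) (by norm_num) (by norm_num)
  obtain ⟨ζ8, hζ8, tζ8⟩ := hxz.exy 8 (by decide) (by norm_num) (by norm_num)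
  obtain ⟨ζ10, hζ10, tζ10⟩ := hxz.exy 10 (by decide) (by norm_num) (by norm_num)
  obtain ⟨ζ2, hζ2, tζ2⟩ := hxz.exy 2 (by decide) (by norm_num) (by norm_num)
  obtain ⟨ζ12, hζ12, tζ12⟩ := hxz.exy 12 (by decide) (by norm_num) (by norm_num)
  have hdur1 : ∀ n, 2 < t1 n → t1 n < 12 → During z n := by
    intro n h1 h2
    exact ⟨ζ2, hζ2, ζ12, hζ12, kd_lt hxz (by omega), kd_lt hxz (by omega)⟩
  have hout : ∀ (n C : ℕ), x.lv n = .out C → ¬ (x.lv n).IsInn := by
    intro n C h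
    rw [h]
    exact fun h => h
  have hOX : ∀ n ∈ x.s, During z n → ∀ C, x.lv n = .out C →
      (t n = 5 ∨ t n = 7 ∨ t n = 9) ∧ (t1 n = 5 ∨ t1 n = 7 ∨ t1 n = 9) := by
    intro n hn hd C hC
    exact outerX hxy hxz hyz hn hd (hout n C hC)
  obtain ⟨b1, hb1, tb1, lb1⟩ := hxy.seven
  obtain ⟨b2, hb2, tb2, lb2⟩ := hxy.nine
  obtain ⟨a5, ha5, ta5, la5⟩ := hxy.five
  obtain ⟨c7, hc7, tc7, lc7⟩ := hxz.seven
  obtain ⟨c9, hc9, tc9, lc9⟩ := hxz.nine
  obtain ⟨α, hα, tα, lα⟩ := hxz.five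
  have db1 := hdur b1 (by omega) (by omega)
  have db2 := hdur b2 (by omega) (by omega)
  have da5 := hdur a5 (by omega) (by omega)
  have dc7 := hdur1 c7 (by omega) (by omega)
  have dc9 := hdur1 c9 (by omega) (by omega)
  have dα := hdur1 α (by omega) (by omega)
  have ob1 := hOX b1 hb1 db1 _ lb1
  have ob2 := hOX b2 hb2 db2 _ lb2
  have oa5 := hOX a5 ha5 da5 _ la5
  have oc7 := hOX c7 hc7 dc7 _ lc7
  have oc9 := hOX c9 hc9 dc9 _ lc9
  have oα := hOX α hα dα _ lα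
  have hBB : B = B1 := by
    have h1 := (kd_lev hxz hb1 ob1.2 lb1).1
    have h2 := (kd_lev hxy hc7 oc7.1 lc7).1
    omega
  have hAB := hxy.lt
  have hAB1 := hxz.lt
  -- numbers of level `out B`
  have tb1' : t1 b1 = 7 ∨ t1 b1 = 9 := by
    have h1 := (kd_lev hxz hb1 ob1.2 lb1).2
    have h2 := ob1.2
    by_contra h3
    have := h1 (by omega)
    omega
  have tb2' : t1 b2 = 7 ∨ t1 b2 = 9 := by
    have h1 := (kd_lev hxz hb2 ob2.2 lb2).2
    have h2 := ob2.2
    by_contra h3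
    have := h1 (by omega)
    omega
  have tc7' : t c7 = 7 ∨ t c7 = 9 := by
    have h1 := (kd_lev hxy hc7 oc7.1 lc7).2
    have h2 := oc7.1
    by_contra h3
    have := h1 (by omega)
    omega
  have tc9' : t c9 = 7 ∨ t c9 = 9 := by
    have h1 := (kd_lev hxy hc9 oc9.1 lc9).2
    have h2 := oc9.1
    by_contra h3
    have := h1 (by omega)
    omega
  -- step 2
  have l1 : ζ6 < b1 := kd_lt hxz (by omega)
  have l2 : b1 < b2 := kd_lt hxy (by omega)
  have l3 : b2 < ζ10 := kd_lt hxz (by omega)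
  have l4 : ζ4 < a5 := kd_lt hxz (by omega)
  have l5 : ζ4 < α := kd_lt hxz (by omega)
  have l6 : α < ζ6 := kd_lt hxz (by omega)
  -- step 3
  obtain ⟨ξ3, hξ3, tξ3⟩ := hxz.exx 3 (by decide) (by norm_num)
  obtain ⟨ξ11, hξ11, tξ11⟩ := hxz.exx 11 (by decide) (by norm_num)
  have m1 : 3 ≤ t ζ4 := by
    have h1 := blk_during hxy hξ3 ((hdur1 ξ3 (by omega) (by omega)).trans hyz)
    have h2 : ξ3 < ζ4 := kd_lt hxz (by omega)
    have h3 := hxy.mono h2.le
    omega
  have m2 : t ζ10 ≤ 11 := by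
    have h1 := blk_during hxy hξ11 ((hdur1 ξ11 (by omega) (by omega)).trans hyz)
    have h2 : ζ10 < ξ11 := kd_lt hxz (by omega)
    have h3 := hxy.mono h2.le
    omega
  have l7 : ζ4 < ζ6 := kd_lt hxz (by omega)
  have l8 : ζ6 < ζ8 := kd_lt hxz (by omega)
  have l9 : ζ8 < ζ10 := kd_lt hxz (by omega)
  have m3 : 3 ≤ t ζ6 := m1.trans (hxy.mono l7.le)
  have m4 : t ζ8 ≤ 11 := (hxy.mono l9.le).trans m2
  obtain ⟨y6, hy6, ty6⟩ := hxy.exy 6 (by decide) (by norm_num) (by norm_num)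
  obtain ⟨y8, hy8, ty8⟩ := hxy.exy 8 (by decide) (by norm_num) (by norm_num)
  have n1 : b1 < y8 := kd_lt hxy (by omega)
  have n2 : y8 < b2 := kd_lt hxy (by omega)
  have n3 : a5 < y6 := kd_lt hxy (by omega)
  have n4 : y6 < b1 := kd_lt hxy (by omega)
  -- step 4
  have s4 : ζ6 < y6 := by
    have hne := Blocks.ne hyz hy6 hζ6
    by_contra h1
    have h2 : y6 < ζ6 := by omega
    exact claimP hxy hyz hζ4 hζ6 hζ10 hy6 hy8 (l4.trans n3) h2 (l1.trans n1) (n2.trans l3) m1 m2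
  -- step 5
  have n5 : y6 < c7 := kd_lt hxy (by omega)
  have n6 : c7 < ζ8 := kd_lt hxz (by omega)
  have n7 : y6 < ζ8 := n5.trans n6
  have s5 : ζ10 < y10 := by
    have hne := Blocks.ne hyz hy10 hζ10
    by_contra h1
    have h2 : y10 < ζ10 := by omega
    have h3 : ζ8 < c9 := kd_lt hxz (by omega)
    have h4 : c9 < y10 := kd_lt hxy (by omega)
    exact claimP hxy hyz hζ6 hζ8 hζ10 hy6 hy10 s4 n7 (h3.trans h4) h2 m3 m2
  -- step 6
  have r1 := hyz.oddx y6 hy6
  have r2 := hyz.eveny ζ6 hζ6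
  have r3 := hyz.eveny ζ8 hζ8
  have r4 := hyz.mono s4.le
  have r5 := hyz.mono n7.le
  have hinn : ∀ n ∈ y.s, t2 n = t2 y6 → (y.lv n).IsInn := by
    intro n hn htn
    have h1 : ζ6 < n := kd_lt hyz (by
      rw [htn]
      have := r1.1
      have := r2.1
      rw [Nat.odd_iff] at *
      rw [Nat.even_iff] at *
      omega)
    have h2 : n < ζ8 := kd_lt hyz (by
      rw [htn]
      have := r1.1
      have := r3.1
      rw [Nat.odd_iff] at *
      rw [Nat.even_iff] at *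
      omega)
    have h3 := hxy.mono h1.le
    have h4 := hxy.mono h2.le
    have h5 := hxy.eveny n hn
    apply hxy.inny n hn
    · have := h5.1
      rw [Nat.even_iff] at this
      omega
    · have := h5.1
      rw [Nat.even_iff] at this
      omega
  have hnot : ¬ (t2 y6 = 5 ∨ t2 y6 = 7 ∨ t2 y6 = 9) := by
    intro h
    obtain ⟨n, hn, -, h1, h2⟩ := exists_outerY hyz h
    exact h1 (hinn n hn h2)
  have w1 : q < ζ6 := (kd_lt hxy (by omega : t q < t α)).trans l6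
  have w2 := hyz.eveny p hp
  have w3 := hyz.oddx q hq
  have w4 := hyz.mono hpq.le
  have w5 := hyz.mono w1.le
  have w6 := hyz.oddx y10 hy10
  have w7 := hyz.mono (l9.trans s5).le
  have w8 := hyz.eveny q' hq'
  have w9 := hyz.mono hlt.le
  obtain ⟨e1, e1'⟩ := r1
  obtain ⟨e2, e2', e2''⟩ := r2
  obtain ⟨e3, e3', e3''⟩ := r3
  obtain ⟨e4, e4', e4''⟩ := w2
  obtain ⟨e5, e5'⟩ := w3
  obtain ⟨e6, e6'⟩ := w6
  obtain ⟨e7, e7', e7''⟩ := w8
  rw [Nat.odd_iff] at e1 e5 e6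
  rw [Nat.even_iff] at e2 e3 e4 e7
  omega

end Pool.Agent.H90.Ord
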