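import Pool.Agent.H90.Ord.Basic

/-!
# The graph on `VI`

Block structure of an adjacent pair, as a set of numbers with levels (`Vt`) and a monotone function
`t` which gives the number of the block.
-/

set_option autoImplicit false

namespace Pool.Agent.H90.Ord

/-- the levels removed by the numbers of the list -/
def lvls : List Lev → List ℕ → List Lev
  | _, [] => []
  | [], _ :: _ => []
  | l :: s, n :: r => l :: lvls (kidsLev l n ++ s) r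

/-- the numbers of a run with the levels they remove -/
def tagged (r : List ℕ) : List (ℕ × Lev) := r.zip (lvls [.root] r)

/-- every number of `P` is smaller than every number of `Q` -/
def Before (P Q : List (ℕ × Lev)) : Prop := ∀ p ∈ P, ∀ q ∈ Q, p.1 < q.1

/-- all levels are inner -/
def InnerB (P : List (ℕ × Lev)) : Prop := ∀ p ∈ P, p.2.IsInn

/-- the maximal level is `out A` -/
def MaxOut (P : List (ℕ × Lev)) (A : ℕ) : Prop :=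
  (∃ p ∈ P, p.2 = .out A) ∧ ∀ p ∈ P, p.2.IsInn ∨ ∃ j ≤ A, p.2 = .out j

/-- the pattern of an adjacent pair -/
def Pat (x y : List (ℕ × Lev)) : Prop :=
  ∃ X1 X3 X5 X7 X9 X11 X13 Y2 Y4 Y6 Y8 Y10 Y12 : List (ℕ × Lev),
    x = X1 ++ X3 ++ X5 ++ X7 ++ X9 ++ X11 ++ X13 ∧ y = Y2 ++ Y4 ++ Y6 ++ Y8 ++ Y10 ++ Y12 ∧
    (X1 ≠ [] ∧ X3 ≠ [] ∧ X5 ≠ [] ∧ X7 ≠ [] ∧ X9 ≠ [] ∧ X11 ≠ [] ∧ X13 ≠ []) ∧
    (Y2 ≠ [] ∧ Y4 ≠ [] ∧ Y6 ≠ [] ∧ Y8 ≠ [] ∧ Y10 ≠ [] ∧ Y12 ≠ []) ∧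
    (Before X1 Y2 ∧ Before Y2 X3 ∧ Before X3 Y4 ∧ Before Y4 X5 ∧ Before X5 Y6 ∧ Before Y6 X7 ∧
      Before X7 Y8 ∧ Before Y8 X9 ∧ Before X9 Y10 ∧ Before Y10 X11 ∧ Before X11 Y12 ∧
      Before Y12 X13) ∧
    (InnerB X3 ∧ InnerB X11 ∧ InnerB Y4 ∧ InnerB Y6 ∧ InnerB Y8 ∧ InnerB Y10) ∧
    ∃ A B, A < B ∧ MaxOut X5 A ∧ MaxOut X7 B ∧ MaxOut X9 B

/-- the graph: `x` and `y` are adjacent if one of the pairs `(x, y)`, `(y, x)` has the pattern -/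
def GI : SimpleGraph VI where
  Adj x y := x ≠ y ∧ (Pat (tagged x.1) (tagged y.1) ∨ Pat (tagged y.1) (tagged x.1))
  symm := ⟨fun _ _ h => ⟨h.1.symm, h.2.symm⟩⟩
  loopless := ⟨fun _ h => h.1 rfl⟩

/-- a set of numbers with levels -/
structure Vt where
  s : Set ℕ
  lv : ℕ → Lev

/-- `t n` is the number of the block of `n`; blocks of `x` are odd, blocks of `y` even -/
structure Blocks (x y : Vt) (t : ℕ → ℕ) (A B : ℕ) : Prop where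
  mono : Monotone t
  oddx : ∀ n ∈ x.s, Odd (t n) ∧ t n ≤ 13
  eveny : ∀ n ∈ y.s, Even (t n) ∧ 2 ≤ t n ∧ t n ≤ 12
  exx : ∀ k, Odd k → k ≤ 13 → ∃ n ∈ x.s, t n = k
  exy : ∀ k, Even k → 2 ≤ k → k ≤ 12 → ∃ n ∈ y.s, t n = k
  innx : ∀ n ∈ x.s, t n = 3 ∨ t n = 11 → (x.lv n).IsInn
  inny : ∀ n ∈ y.s, 4 ≤ t n → t n ≤ 10 → (y.lv n).IsInn
  lt : A < B
  five : ∃ n ∈ x.s, t n = 5 ∧ x.lv n = .out A
  five' : ∀ n ∈ x.s, t n = 5 → (x.lv n).IsInn ∨ ∃ j ≤ A, x.lv n = .out j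
  seven : ∃ n ∈ x.s, t n = 7 ∧ x.lv n = .out B
  seven' : ∀ n ∈ x.s, t n = 7 → (x.lv n).IsInn ∨ ∃ j ≤ B, x.lv n = .out j
  nine : ∃ n ∈ x.s, t n = 9 ∧ x.lv n = .out B
  nine' : ∀ n ∈ x.s, t n = 9 → (x.lv n).IsInn ∨ ∃ j ≤ B, x.lv n = .out j

/-- `n` is in the life of `z` -/
def During (z : Vt) (n : ℕ) : Prop := ∃ p ∈ z.s, ∃ q ∈ z.s, p < n ∧ n < q

end Pool.Agent.H90.Ord
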