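import Pool.Agent.H90.Ord.K4D

/-!
# Dichotomy (module K4Dich)

Every triple has type `TL` or `TR`.  If some `p ∈ z` is below some `q ∈ y` with `t q = 4`, then `claimD`
gives the second part of `TL`; the outer number `n` of `y` in the life of `z` (`exists_outerY`) has
`t n = 2` or `12` (`outerY`), not `12` as it is below a number of `z`, so `t n = 2`, and a number of `z` is
below `n`: this gives the first part.  Otherwise every `p ∈ z` is above every `q` with `t q = 4`, and the
outer number of `y` in the life of `z` has `t n = 12`.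
-/

set_option autoImplicit false

namespace Pool.Agent.H90.Ord

variable {x y z : Vt} {t t1 t2 : ℕ → ℕ} {A B A1 B1 A2 B2 : ℕ}

theorem dichotomy (hxy : Blocks x y t A B) (hxz : Blocks x z t1 A1 B1)
    (hyz : Blocks y z t2 A2 B2) : TL x y z t ∨ TR y z t := by
  obtain ⟨n, hn, hd, ho, -⟩ := exists_outerY hyz (k := 5) (Or.inl rfl)
  have hY := (outerY hxy hyz hn hd ho).1
  obtain ⟨p', hp', q', hq', h1, h2⟩ := hd
  by_cases hc : ∃ p ∈ z.s, ∃ q ∈ y.s, t q = 4 ∧ p < q
  · left
    obtain ⟨p, hp, q, hq, htq, hpq⟩ := hc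
    have hD := claimD hxy hxz hyz hp hq htq hpq
    refine ⟨⟨p', hp', fun m _ hm => ?_⟩, hD⟩
    obtain ⟨y10, hy10, ty10⟩ := hxy.exy 10 (by decide) (by norm_num) (by norm_num)
    have h3 := hD q' hq' y10 hy10 ty10
    have h4 := hxy.mono (h2.trans h3).le
    have h5 : t n = 2 := by omega
    exact h1.trans (hxy.lt_of (by omega))
  · right
    have hall : ∀ p ∈ z.s, ∀ q ∈ y.s, t q = 4 → q < p := by
      intro p hp q hq htq
      by_contra h3
      have := Blocks.ne hyz hq hp
      exact hc ⟨p, hp, q, hq, htq, by omega⟩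
    obtain ⟨y4, hy4, ty4⟩ := hxy.exy 4 (by decide) (by norm_num) (by norm_num)
    refine ⟨fun p hp => ⟨y4, hy4, ty4, hall p hp y4 hy4 ty4⟩, q', hq', n, hn, ?_, h2⟩
    have h3 := hall p' hp' y4 hy4 ty4
    have h4 := hxy.mono (h3.trans h1).le
    omega

theorem TL.outer (hxy : Blocks x y t A B) (hyz : Blocks y z t2 A2 B2) (h : TL x y z t) {n : ℕ}
    (hn : n ∈ y.s) (hd : During z n) (ho : ¬ (y.lv n).IsInn) : t n = 2 := by
  have hY := (outerY hxy hyz hn hd ho).1
  obtain ⟨p', hp', q', hq', h1, h2⟩ := hd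
  obtain ⟨y10, hy10, ty10⟩ := hxy.exy 10 (by decide) (by norm_num) (by norm_num)
  have h3 := h.2 q' hq' y10 hy10 ty10
  have h4 := hxy.mono (h2.trans h3).le
  omega

theorem TR.outer (hxy : Blocks x y t A B) (hyz : Blocks y z t2 A2 B2) (h : TR y z t) {n : ℕ}
    (hn : n ∈ y.s) (hd : During z n) (ho : ¬ (y.lv n).IsInn) : t n = 12 := by
  have hY := (outerY hxy hyz hn hd ho).1
  obtain ⟨p', hp', q', hq', h1, h2⟩ := hd
  obtain ⟨y4, hy4, ty4, h3⟩ := h.1 p' hp'
  have h4 := hxy.mono (h3.trans h1).le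
  omega

theorem not_TL_and_TR (hxy : Blocks x y t A B) (h1 : TL x y z t) (h2 : TR y z t) : False := by
  obtain ⟨⟨p, hp, h3⟩, -⟩ := h1
  obtain ⟨n, hn, tn, h4⟩ := h2.1 p hp
  obtain ⟨m, hm, tm⟩ := hxy.exx 3 (by decide) (by norm_num)
  have h5 := h3 m hm (by omega)
  have h6 : m < n := hxy.lt_of (by omega)
  omega

end Pool.Agent.H90.Ord
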