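import Pool.Agent.H90.Ord.K4Dich

/-!
# Case L (module K4L)

See the paragraph K4 a<b<c<d, Type L, in section 3.2 of proofs 343.  `TL.abd`, `TR.abd`: the triples `(a,b,c)` and
`(a,b,d)` have the same type.

`caseL`: `TL a b d` (by `TL.abd`) gives `p ∈ d` with `p < n` for every `n ∈ a` with `ab n ≥ 3`.  A number `n`
of `a` with `ac n ≥ 3` is above a number of `c` (with `ac = 2`), so above a number of `b`, so `ab n ≥ 3`; hence
`p < n`.  So `(a,c,d)` is not `TR` (in `TR` the number `p` would be above a number of `c` with `ac = 4`, so above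
a number of `a` with `ac = 3`), so it is `TL` by `dichotomy`.  Outer numbers of `c` during `d` have `ac = 2`,
outer numbers of `b` during `c` have `ab = 2` (`TL.outer`).  Take `m ∈ a` with `ac m = 3`; then `ab m ≥ 3`, so `m`
is above all outer numbers of `b` during `c`.
If `TL b c d`: take `α ∈ a` outer during `d` (`exists_outerY` for the pair `(a,d)`); `ac α ≥ 5` (`outerX`), take
`g ∈ c` with `ac g = 4`; then `m < g < α`; `g` is above all outer numbers of `b` during `c`, in particular above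
the one with `bc = 9`, so `bc g ≥ 10`; a number `q` of `d` is above `α > g`; by `TL b c d` it is below every
number of `c` with `bc = 10`, so `bc g ≤ 10`, `bc g = 10`, `q < g`.  Contradiction.
If `TR b c d`: take `g ∈ c` outer during `d`; `bc g = 12` (`TR.outer`) and `ac g = 2`.  Take `α ∈ a` outer during
`c`; `ab α ≥ 5` (`outerX`), take `h ∈ b` with `ab h = 4` and `m' ∈ a` with `ab m' = 3`: `m' < h < α`, and
`α` is below a number of `c`.  `p < m'` and `p` is above a number of `c`, so `ac m' ≥ 3`, so `g < m' < h`.  So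
`bc h ≥ 12`, `bc h = 13`, but `h` is below a number of `c`.  Contradiction.
-/

set_option autoImplicit false

namespace Pool.Agent.H90.Ord

variable {a b c d : Vt}

theorem TL.abd (Q : Four a b c d) (h : TL a b c Q.ab) : TL a b d Q.ab := by
  rcases dichotomy Q.hab Q.had Q.hbd with h1 | h1
  · exact h1
  · exfalso
    obtain ⟨n, hn, hd, ho, -⟩ := exists_outerY Q.hbd (k := 5) (Or.inl rfl)
    have h2 := TR.outer Q.hab Q.hbd h1 hn hd ho
    have h3 := TL.outer Q.hab Q.hbc h hn (hd.trans Q.hcd) ho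
    omega

theorem TR.abd (Q : Four a b c d) (h : TR b c Q.ab) : TR b d Q.ab := by
  rcases dichotomy Q.hab Q.had Q.hbd with h1 | h1
  · exfalso
    obtain ⟨n, hn, hd, ho, -⟩ := exists_outerY Q.hbd (k := 5) (Or.inl rfl)
    have h2 := TL.outer Q.hab Q.hbd h1 hn hd ho
    have h3 := TR.outer Q.hab Q.hbc h hn (hd.trans Q.hcd) ho
    omega
  · exact h1

/-- every number of `y` is above a number of `x` -/
private theorem kl_below {x y : Vt} {t : ℕ → ℕ} {A B : ℕ} (h : Blocks x y t A B) {n : ℕ} (hn : n ∈ y.s) :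
    ∃ m ∈ x.s, m < n := by
  obtain ⟨m, hm, tm⟩ := h.exx 1 (by decide) (by norm_num)
  have h1 := h.eveny n hn
  exact ⟨m, hm, h.lt_of (by omega)⟩

theorem caseL (Q : Four a b c d) (h : TL a b c Q.ab) : False := by
  have hd := TL.abd Q h
  obtain ⟨⟨p, hp, hpn⟩, -⟩ := hd
  have hac3 : ∀ n ∈ a.s, 3 ≤ Q.ac n → 3 ≤ Q.ab n := by
    intro n hn h3
    obtain ⟨g0, hg0, tg0⟩ := Q.hac.exy 2 (by decide) (by norm_num) (by norm_num)
    have h1 : g0 < n := Q.hac.lt_of (by omega)
    obtain ⟨β, hβ, h2⟩ := kl_below Q.hbc hg0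
    have h4 := Q.hab.mono (h2.trans h1).le
    have h5 := Q.hab.eveny β hβ
    obtain ⟨h6, h7⟩ := Q.hab.oddx n hn
    rw [Nat.odd_iff] at h6
    omega
  have hTL2 : TL a c d Q.ac := by
    rcases dichotomy Q.hac Q.had Q.hcd with h1 | h1
    · exact h1
    · exfalso
      obtain ⟨n, hn, tn, h2⟩ := h1.1 p hp
      obtain ⟨m, hm, tm⟩ := Q.hac.exx 3 (by decide) (by norm_num)
      have h3 : m < n := Q.hac.lt_of (by omega)
      have h4 := hpn m hm (hac3 m hm (by omega))
      omega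
  obtain ⟨m, hm, tm⟩ := Q.hac.exx 3 (by decide) (by norm_num)
  have hm3 := hac3 m hm (by omega)
  have hbm : ∀ n ∈ b.s, During c n → ¬ (b.lv n).IsInn → n < m := by
    intro n hn hdn ho
    have h1 := TL.outer Q.hab Q.hbc h hn hdn ho
    exact Q.hab.lt_of (by omega)
  rcases dichotomy Q.hbc Q.hbd Q.hcd with h1 | h1
  · obtain ⟨α, hα, dα, oα, -⟩ := exists_outerY Q.had (k := 5) (Or.inl rfl)
    have h2 := (outerX Q.hac Q.had Q.hcd hα dα oα).1
    obtain ⟨g, hg, tg⟩ := Q.hac.exy 4 (by decide) (by norm_num) (by norm_num)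
    have h3 : m < g := Q.hac.lt_of (by omega)
    have h4 : g < α := Q.hac.lt_of (by omega)
    obtain ⟨n9, hn9, dn9, on9, tn9⟩ := exists_outerY Q.hbc (k := 9) (Or.inr (Or.inr rfl))
    have h5 := hbm n9 hn9 dn9 on9
    have h6 := Q.hbc.mono (h5.trans h3).le
    obtain ⟨e1, e2, e3⟩ := Q.hbc.eveny g hg
    rw [Nat.even_iff] at e1
    obtain ⟨-, -, q, hq, -, h7⟩ := dα
    obtain ⟨n10, hn10, tn10⟩ := Q.hbc.exy 10 (by decide) (by norm_num) (by norm_num)
    have h8 := h1.2 q hq n10 hn10 tn10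
    have h9 := Q.hbc.mono (h4.trans (h7.trans h8)).le
    have h10 := h1.2 q hq g hg (by omega)
    omega
  · obtain ⟨g, hg, dg, og, -⟩ := exists_outerY Q.hcd (k := 5) (Or.inl rfl)
    have h2 := TR.outer Q.hbc Q.hcd h1 hg dg og
    have h3 := TL.outer Q.hac Q.hcd hTL2 hg dg og
    obtain ⟨α, hα, dα, oα, -⟩ := exists_outerY Q.hac (k := 5) (Or.inl rfl)
    have h4 := (outerX Q.hab Q.hac Q.hbc hα dα oα).1
    obtain ⟨h', hh', th'⟩ := Q.hab.exy 4 (by decide) (by norm_num) (by norm_num)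
    obtain ⟨m', hm', tm'⟩ := Q.hab.exx 3 (by decide) (by norm_num)
    have h5 : m' < h' := Q.hab.lt_of (by omega)
    have h6 : h' < α := Q.hab.lt_of (by omega)
    obtain ⟨-, -, γ', hγ', -, h7⟩ := dα
    have h8 := hpn m' hm' (by omega)
    obtain ⟨γ, hγ, h9⟩ := kl_below Q.hcd hp
    have h10 := Q.hac.mono (h9.trans h8).le
    have h11 := Q.hac.eveny γ hγ
    obtain ⟨e1, e2⟩ := Q.hac.oddx m' hm'
    rw [Nat.odd_iff] at e1
    have h12 : g < m' := Q.hac.lt_of (by omega)
    have h13 := Q.hbc.mono (h12.trans h5).le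
    obtain ⟨e3, e4⟩ := Q.hbc.oddx h' hh'
    rw [Nat.odd_iff] at e3
    have h14 := Q.hbc.mono (h6.trans h7).le
    have h15 := Q.hbc.eveny γ' hγ'
    omega

end Pool.Agent.H90.Ord
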