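import Pool.Agent.H90.Ord.K4L

/-!
# Case R, first part (module K4R1)

See Type R in section 3.2 of proofs 343.  Let `M` be the smallest number of `b` with `ab M = 12`.  Numbers
of `a` in the life of `b` have `ab ≤ 11`, so they are `< M`.
`TR c d ac`: otherwise `TL a c d ac` (dichotomy).  By `TR b d ab` some number of `d` is above `M` (above a
number `≥ M`).  Numbers `n` of `a` with `ac n = 11` are in the life of `c`, so in the life of `b`, so `< M`; a
number of `c` with `ac = 10` is below them; but `TL` says that all numbers of `d` are below the numbers of `c`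
with `ac = 10`.
`TR c d bc`: otherwise `TL b c d bc`.  Take `g ∈ c` outer during `d`: `ac g = 12` by `TR c d ac`, `bc g = 2` by
`TL`.  `g >` every number of `a` during `c`.  There is `α ∈ a` outer during `c` (so `ab α ≤ 9`, `α >` a number
`p` of `c`), there is `h ∈ b` with `ab h = 10` and `n ∈ a` with `ab n = 11`; `α < h < n < M`, and `n` is during
`c` (a number of `c` is above `M` by `TR b c ab`), so `ac n ≤ 11`, `n < g`.  So `p < h < g`, `bc h ≥ 3` but
`bc h ≤ bc g = 2`.  Contradiction.
-/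

set_option autoImplicit false

namespace Pool.Agent.H90.Ord

variable {a b c d : Vt}

theorem TR.acd (Q : Four a b c d) (h : TR b c Q.ab) : TR c d Q.ac := by
  rcases dichotomy Q.hac Q.had Q.hcd with hL | hR
  · exfalso
    obtain ⟨-, q, hq, M, hM, hM12, hMq⟩ := TR.abd Q h
    obtain ⟨c10, hc10, hc10'⟩ := Q.hac.exy 10 (by decide) (by omega) (by omega)
    obtain ⟨c12, hc12, hc12'⟩ := Q.hac.exy 12 (by decide) (by omega) (by omega)
    obtain ⟨a11, ha11, ha11'⟩ := Q.hac.exx 11 (by decide) (by omega)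
    have h1 : q < c10 := hL.2 q hq c10 hc10 hc10'
    have h2 : c10 < a11 := Blocks.lt_of Q.hac (by omega)
    have h3 : a11 < c12 := Blocks.lt_of Q.hac (by omega)
    have h4 : During c a11 := ⟨c10, hc10, c12, hc12, h2, h3⟩
    have h5 := blk_during Q.hab ha11 (During.trans Q.hbc h4)
    have h6 : Q.ab M ≤ Q.ab a11 := Q.hab.mono (by omega)
    omega
  · exact hR

theorem TR.bcd (Q : Four a b c d) (h : TR b c Q.ab) : TR c d Q.bc := by
  rcases dichotomy Q.hbc Q.hbd Q.hcd with hL | hR
  · exfalso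
    obtain ⟨g, hg, hgd, hgo, -⟩ := exists_outerY Q.hcd (Or.inl rfl)
    have hg1 : Q.ac g = 12 := TR.outer Q.hac Q.hcd (TR.acd Q h) hg hgd hgo
    have hg2 : Q.bc g = 2 := TL.outer Q.hbc Q.hcd hL hg hgd hgo
    obtain ⟨α, hα, hαd, hαo, -⟩ := exists_outerY Q.hac (Or.inl rfl)
    have hα1 := (outerX Q.hab Q.hac Q.hbc hα hαd hαo).1
    obtain ⟨p, hp, -, -, hpα, -⟩ := hαd
    obtain ⟨h10, hh10, hh10'⟩ := Q.hab.exy 10 (by decide) (by omega) (by omega)
    obtain ⟨n, hn, hn'⟩ := Q.hab.exx 11 (by decide) (by omega)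
    obtain ⟨-, q, hq, M, hM, hM12, hMq⟩ := h
    have h1 : α < h10 := Blocks.lt_of Q.hab (by omega)
    have h2 : h10 < n := Blocks.lt_of Q.hab (by omega)
    have h3 : n < M := Blocks.lt_of Q.hab (by omega)
    have h4 : During c n := ⟨p, hp, q, hq, by omega, by omega⟩
    have h5 := blk_during Q.hac hn h4
    have h6 : n < g := Blocks.lt_of Q.hac (by omega)
    have h7 : Q.bc p ≤ Q.bc h10 := Q.hbc.mono (by omega)
    have h8 : Q.bc h10 ≤ Q.bc g := Q.hbc.mono (by omega)
    have h9 := (Q.hbc.eveny p hp).2.1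
    obtain ⟨k, hk⟩ := (Q.hbc.oddx h10 hh10).1
    omega
  · exact hR

end Pool.Agent.H90.Ord
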