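import Pool.Agent.H90.Ord.K4R1

/-!
# Case R, second part (module K4R2)

End of section 3.2 of proofs 343, in detail.  `TR b c ab`, `TR b d ab`, `TR c d ac`, `TR c d bc` hold.
1. Outer numbers of `b` during `c` have `ab = 12` (`TR.outer`), outer numbers of `c` during `d` have
`ac = 12` and `bc = 12`.
2. Take `g10 ∈ c` with `ac g10 = 10`.  There are outer numbers of `a` during `d`; they have `ac ≤ 9`
(`outerX`), so `g10` is above a number of `d`.  There is a number of `a` with `ac = 11`, above `g10`; it is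
during `c`, so during `b`, so has `ab ≤ 11`; hence `ab g10 ≤ 11`, `g10 <` all outer numbers of `b` during `c`.
So `bc g10 < 5`; by `TR c d bc` some number of `c` with `bc = 4` is below every number of `d`; so `bc g10 = 4`.
`g10 <` some number of `d` by `TR b d ab` (`∃ q ∈ d` above a number of `b` with `ab = 12`).
So `g10` is during `d`, hence `cd g10 ≥ 3`.
3. Let `g ∈ c` be outer during `d`, `bc g = 12`.  All outer numbers of `b` during `c` (`bc = 5, 7, 9`) are
`< g <` a number of `d`.  They are also above a number of `d` (they are above `g10`).  So the outer numbers of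
`b` during `c` are exactly the outer numbers of `b` during `d`, and `B4 = B5` (maximal levels), numbers of `b`
of level `out B4` during `c` have `bc ∈ {7, 9}`, `bd ∈ {7, 9}`.
4. Take `g6 ∈ c` with `bc g6 = 6`; `d4, d8 ∈ d` with `bd d4 = 4`, `bd d8 = 8`; `β7 ∈ b` with `bd β7 = 7`, level
`out B5`; `bc β7 ≥ 7` so `g6 < β7 < d8`; `β9 ∈ b`, `bd β9 = 9`, level `out B5`: `d8 < β9`, `bc β9 ≤ 9`.  So
`g6 < d8 < β9 <` every outer number of `c` during `d` (`bc = 12`).  `cd g6`: odd, `≥ 3` (`g6 > g10` as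
`bc g6 > bc g10`, and `g6 < d8`), if `cd g6 ≥ 5` then the block 5 of `c` with respect to `d` contains an outer
number `n` (`exists_outerY` of the pair `(c,d)`) with `cd n = 5`; `bc n = 12` so `n > β9 > d8 > g6`; so
`cd d8 ≤ 5`, but `cd d8 > cd g6 ≥ 5`.  Contradiction.  So `cd g6 = 3`.
5. Take `β3 ∈ b` with `bd β3 = 3`; it is during `d`.  `β3 > g10`: otherwise `β3` is between a number of `d`
(below it) and `g10`; by `TR c d bc` there is a number of `c` with `bc = 4` below this number of `d`; so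
`bc β3 ≥ 5`, but `bc β3 ≤ bc g10 = 4`.  So `g10 < β3 < d4`, and `d4 <` the outer number of `b` with `bc = 5`
(it is outer during `d`, so its `bd` is at least 5) `< g6`.  So `3 ≤ cd g10 < cd d4 < cd g6 = 3` (parities
differ).  Contradiction.
-/

set_option autoImplicit false

namespace Pool.Agent.H90.Ord

variable {a b c d : Vt}

private theorem r2_out {l : Lev} {k : ℕ} (h : l = .out k) : ¬ l.IsInn := by
  rw [h]
  exact id

private theorem r2_lvl {y z : Vt} {t : ℕ → ℕ} {A B n C : ℕ} (hyz : Blocks y z t A B) (hn : n ∈ y.s)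
    (ht : t n = 5 ∨ t n = 7 ∨ t n = 9) (ln : y.lv n = .out C) : C ≤ B ∧ (t n = 5 → C ≤ A) := by
  have on := r2_out ln
  have h0 := hyz.lt
  have key : ∀ E, ((y.lv n).IsInn ∨ ∃ j ≤ E, y.lv n = .out j) → C ≤ E := by
    rintro E (h1 | ⟨j, hj, h1⟩)
    · exact absurd h1 on
    · rw [ln] at h1
      injection h1 with h1
      omega
  rcases ht with h | h | h
  · have h1 := key A (hyz.five' n hn h)
    exact ⟨by omega, fun _ => h1⟩
  · have h1 := key B (hyz.seven' n hn h)
    exact ⟨h1, fun h2 => by omega⟩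
  · have h1 := key B (hyz.nine' n hn h)
    exact ⟨h1, fun h2 => by omega⟩

private theorem r2_core {ab ac ad bc bd cd : ℕ → ℕ} {A1 B1 A2 B2 A3 B3 A4 B4 A5 B5 A6 B6 : ℕ}
    (hab : Blocks a b ab A1 B1) (hac : Blocks a c ac A2 B2) (had : Blocks a d ad A3 B3)
    (hbc : Blocks b c bc A4 B4) (hbd : Blocks b d bd A5 B5) (hcd : Blocks c d cd A6 B6)
    (h : TR b c ab) (r1 : TR b d ab) (r3 : TR c d bc) : False := by
  -- step 2
  obtain ⟨g10, hg10, eg10⟩ := hac.exy 10 (by decide) (by norm_num) (by norm_num)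
  obtain ⟨α, hα, dα, oα, eα⟩ := exists_outerY had (k := 5) (Or.inl rfl)
  have hα1 := (outerX hac had hcd hα dα oα).1
  have h1 : α < g10 := hac.lt_of (by omega)
  obtain ⟨dp, hdp, dp', hdp', hdp1, hdp2⟩ := dα
  have h2 : dp < g10 := hdp1.trans h1
  obtain ⟨n11, hn11, en11⟩ := hac.exx 11 (by decide) (by norm_num)
  obtain ⟨g12, hg12, eg12⟩ := hac.exy 12 (by decide) (by norm_num) (by norm_num)
  have h3 : g10 < n11 := hac.lt_of (by omega)
  have h4 : n11 < g12 := hac.lt_of (by omega)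
  have d11 : During c n11 := ⟨g10, hg10, g12, hg12, h3, h4⟩
  have h5 := (blk_during hab hn11 (During.trans hbc d11)).2
  have h6 : ab g10 ≤ 11 := (hab.mono h3.le).trans h5
  have hb1 : ∀ n ∈ b.s, During c n → ¬ (b.lv n).IsInn → g10 < n := by
    intro n hn dn on
    have h7 := TR.outer hab hbc h hn dn on
    exact hab.lt_of (by omega)
  obtain ⟨n5, hn5, dn5, on5, en5⟩ := exists_outerY hbc (k := 5) (Or.inl rfl)
  have h7 := hb1 n5 hn5 dn5 on5
  have h8 : bc g10 ≤ bc n5 := hbc.mono h7.le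
  have e10 := (hbc.eveny g10 hg10).1
  have h9 : bc g10 = 4 := by
    obtain ⟨n4, hn4, en4, hlt⟩ := r3.1 dp hdp
    have h10 : bc n4 ≤ bc g10 := hbc.mono (hlt.trans h2).le
    obtain ⟨k, hk⟩ := e10
    omega
  obtain ⟨q, hq, n12, hn12, en12, hlt12⟩ := r1.2
  have h10 : g10 < q := (hab.lt_of (by omega : ab g10 < ab n12)).trans hlt12
  have dg10 : During d g10 := ⟨dp, hdp, q, hq, h2, h10⟩
  have c10 := (blk_during hcd hg10 dg10).1
  -- step 3
  obtain ⟨g, hg, dg, og, eg⟩ := exists_outerY hcd (k := 5) (Or.inl rfl)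
  have bg : bc g = 12 := TR.outer hbc hcd r3 hg dg og
  have dcd : ∀ n ∈ b.s, During c n → ¬ (b.lv n).IsInn → During d n := by
    intro n hn dn on
    have h11 := (outerY hab hbc hn dn on).2
    have h12 : n < g := hbc.lt_of (by omega)
    obtain ⟨q1, hq1, q2, hq2, hgq1, hgq⟩ := dg
    exact ⟨dp, hdp, q2, hq2, h2.trans (hb1 n hn dn on), h12.trans hgq⟩
  have hB : B4 ≤ B5 := by
    obtain ⟨n, hn, en, ln⟩ := hbc.seven
    obtain ⟨p6, hp6, ep6⟩ := hbc.exy 6 (by decide) (by norm_num) (by norm_num)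
    obtain ⟨p8, hp8, ep8⟩ := hbc.exy 8 (by decide) (by norm_num) (by norm_num)
    have dn : During c n := ⟨p6, hp6, p8, hp8, hbc.lt_of (by omega), hbc.lt_of (by omega)⟩
    have dn' := dcd n hn dn (r2_out ln)
    exact (r2_lvl hbd hn (outerX hbc hbd hcd hn dn' (r2_out ln)).2 ln).1
  -- step 4
  obtain ⟨g6, hg6, eg6⟩ := hbc.exy 6 (by decide) (by norm_num) (by norm_num)
  obtain ⟨d4, hd4, ed4⟩ := hbd.exy 4 (by decide) (by norm_num) (by norm_num)
  obtain ⟨d6, hd6, ed6⟩ := hbd.exy 6 (by decide) (by norm_num) (by norm_num)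
  obtain ⟨d8, hd8, ed8⟩ := hbd.exy 8 (by decide) (by norm_num) (by norm_num)
  obtain ⟨d10, hd10, ed10⟩ := hbd.exy 10 (by decide) (by norm_num) (by norm_num)
  obtain ⟨β7, hβ7, eβ7, lβ7⟩ := hbd.seven
  obtain ⟨β9, hβ9, eβ9, lβ9⟩ := hbd.nine
  have dβ7 : During d β7 := ⟨d6, hd6, d8, hd8, hbd.lt_of (by omega), hbd.lt_of (by omega)⟩
  have dβ9 : During d β9 := ⟨d8, hd8, d10, hd10, hbd.lt_of (by omega), hbd.lt_of (by omega)⟩
  have bβ7 := (outerX hbc hbd hcd hβ7 dβ7 (r2_out lβ7)).1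
  have bβ9 := (outerX hbc hbd hcd hβ9 dβ9 (r2_out lβ9)).1
  have h15 : bc β7 ≠ 5 := by
    intro h5'
    have h16 := (r2_lvl hbc hβ7 (Or.inl h5') lβ7).2 h5'
    have h17 := hbc.lt
    omega
  have h16 : g6 < β7 := hbc.lt_of (by omega)
  have h17 : β7 < d8 := hbd.lt_of (by omega)
  have h18 : d8 < β9 := hbd.lt_of (by omega)
  have h19 : g10 < g6 := hbc.lt_of (by omega)
  have h20 : cd g10 ≤ cd g6 := hcd.mono h19.le
  obtain ⟨k6, hk6⟩ := (hcd.oddx g6 hg6).1
  have h21 : cd g6 < 5 := by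
    by_contra hcon
    have h22 : β9 < g := hbc.lt_of (by omega)
    have h24 : cd d8 ≤ cd g := hcd.mono (h18.trans h22).le
    have h25 : cd g6 ≤ cd d8 := hcd.mono (h16.trans h17).le
    obtain ⟨k, hk⟩ := (hcd.eveny d8 hd8).1
    omega
  -- step 5
  obtain ⟨β3, hβ3, eβ3⟩ := hbd.exx 3 (by decide) (by norm_num)
  obtain ⟨d2, hd2, ed2⟩ := hbd.exy 2 (by decide) (by norm_num) (by norm_num)
  have h26 : d2 < β3 := hbd.lt_of (by omega)
  have h27 : g10 < β3 := by
    by_contra hcon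
    rw [not_lt] at hcon
    obtain ⟨n4, hn4, en4, hlt⟩ := r3.1 d2 hd2
    have h28 : bc n4 ≤ bc β3 := hbc.mono (hlt.trans h26).le
    have h29 : bc β3 ≤ bc g10 := hbc.mono hcon
    obtain ⟨k, hk⟩ := (hbc.oddx β3 hβ3).1
    omega
  have h30 : β3 < d4 := hbd.lt_of (by omega)
  have b5 := (outerX hbc hbd hcd hn5 (dcd n5 hn5 dn5 on5) on5).2
  have h31 : d4 < n5 := hbd.lt_of (by omega)
  have h32 : n5 < g6 := hbc.lt_of (by omega)
  have h33 : cd g10 ≤ cd d4 := hcd.mono (h27.trans h30).le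
  have h34 : cd d4 ≤ cd g6 := hcd.mono (h31.trans h32).le
  obtain ⟨k, hk⟩ := (hcd.eveny d4 hd4).1
  omega

theorem caseR (Q : Four a b c d) (h : TR b c Q.ab) : False := by
  exact r2_core Q.hab Q.hac Q.had Q.hbc Q.hbd Q.hcd h (TR.abd Q h) (TR.bcd Q h)

/-- there are no four pairwise adjacent vertices -/
theorem noFour (Q : Four a b c d) : False := by
  rcases dichotomy Q.hab Q.hac Q.hbc with h | h
  · exact caseL Q h
  · exact caseR Q h

end Pool.Agent.H90.Ord
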