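import Pool.Agent.H90.Ord.K4Defs

/-!
# Types of triples

`TL` and `TR` are the two types of a triple `x < y < z` of pairwise adjacent vertices.
-/

set_option autoImplicit false

namespace Pool.Agent.H90.Ord

/-- type L: `z` starts before the third block of the pair `(x, y)` and ends before the tenth -/
def TL (x y z : Vt) (t : ℕ → ℕ) : Prop :=
  (∃ p ∈ z.s, ∀ n ∈ x.s, 3 ≤ t n → p < n) ∧ ∀ q ∈ z.s, ∀ n ∈ y.s, t n = 10 → q < n

/-- type R: `z` starts after the beginning of the fourth block of the pair `(x, y)` and ends after the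
beginning of the twelfth -/
def TR (y z : Vt) (t : ℕ → ℕ) : Prop :=
  (∀ p ∈ z.s, ∃ n ∈ y.s, t n = 4 ∧ n < p) ∧ ∃ q ∈ z.s, ∃ n ∈ y.s, t n = 12 ∧ n < q

/-- four pairwise adjacent vertices with their block functions -/
structure Four (a b c d : Vt) where
  ab : ℕ → ℕ
  ac : ℕ → ℕ
  ad : ℕ → ℕ
  bc : ℕ → ℕ
  bd : ℕ → ℕ
  cd : ℕ → ℕ
  A1 : ℕ
  B1 : ℕ
  A2 : ℕ
  B2 : ℕ
  A3 : ℕ
  B3 : ℕ
  A4 : ℕ
  B4 : ℕ
  A5 : ℕ
  B5 : ℕ
  A6 : ℕ
  B6 : ℕ
  hab : Blocks a b ab A1 B1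
  hac : Blocks a c ac A2 B2
  had : Blocks a d ad A3 B3
  hbc : Blocks b c bc A4 B4
  hbd : Blocks b d bd A5 B5
  hcd : Blocks c d cd A6 B6

end Pool.Agent.H90.Ord
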