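import Pool.Agent.H90.Ord.Al
import Pool.Agent.H90.Ord.Big

/-!
# Elementary facts about the marked machine (module MA)

`markAt_get`: for a strictly increasing list `H` of the same length as `M` the child at place `H[i]` gets the
mark `M[i]`, all other children get no mark.
-/

set_option autoImplicit false

namespace Pool.Agent.H90.Ord

theorem map_range_const {α : Type} (a : α) (N : ℕ) :
    (List.range N).map (fun _ => a) = List.replicate N a := by
  simp

theorem kids_fst (lv : Lev) (m : Mark) (r : ℕ) (H : List ℕ) (N : ℕ) :
    (kids lv m r H N).map Prod.fst = kidsLev lv N := by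
  rcases lv with (_ | k) | (_ | k) | _
  · simp [kids, kidsLev]
  · simp only [kids, kidsLev, List.map_map]
    exact map_range_const _ N
  · rcases m with _ | _ | ⟨o, L⟩ | ⟨_ | _, L⟩ <;> simp [kids, kidsLev]
  · simp only [kids, kidsLev, List.map_map]
    exact map_range_const _ N
  · rcases m with _ | _ | ⟨o, L⟩ | ⟨_ | _, L⟩ <;> simp [kids, kidsLev]

theorem need_none (lv : Lev) (r : ℕ) : need lv .none r = 0 := by
  rcases lv with (_ | k) | (_ | k) | _ <;> simp [need, chM]

theorem markAt_nil_right (H : List ℕ) (c : ℕ) : markAt H [] c = .none := by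
  simp [markAt]

theorem markAt_nil_left (M : List Mark) (c : ℕ) : markAt [] M c = .none := by
  simp [markAt]

theorem markAt_cons (h : ℕ) (H : List ℕ) (m : Mark) (M : List Mark) (c : ℕ) :
    markAt (h :: H) (m :: M) c = if h = c then m else markAt H M c := by
  unfold markAt
  rw [List.zip_cons_cons, List.find?_cons]
  by_cases hc : h = c
  · simp [hc]
  · simp [hc]

theorem kids_none (lv : Lev) (r : ℕ) (H : List ℕ) (N : ℕ) :
    kids lv .none r H N = (kidsLev lv N).map fun l => (l, Mark.none) := by
  rcases lv with (_ | k) | (_ | k) | _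
  · simp [kids, kidsLev]
  · simp [kids, kidsLev, chM, markAt_nil_right]
  · simp [kids, kidsLev]
  · simp [kids, kidsLev, chM, markAt_nil_right]
  · simp [kids, kidsLev]

theorem markAt_not_mem {H : List ℕ} {M : List Mark} {c : ℕ} (hc : c ∉ H) :
    markAt H M c = .none := by
  induction H generalizing M with
  | nil => exact markAt_nil_left M c
  | cons h H ih =>
    cases M with
    | nil => exact markAt_nil_right _ c
    | cons m M =>
      rw [markAt_cons]
      rw [List.mem_cons, not_or] at hc
      rw [if_neg (fun h' => hc.1 h'.symm)]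
      exact ih hc.2

theorem markAt_mem {H : List ℕ} {M : List Mark} {c : ℕ} (h : markAt H M c ≠ .none) :
    c ∈ H ∧ markAt H M c ∈ M := by
  constructor
  · by_contra hc
    exact h (markAt_not_mem hc)
  · induction H generalizing M with
    | nil => exact absurd (markAt_nil_left M c) h
    | cons a H ih =>
      cases M with
      | nil => exact absurd (markAt_nil_right _ c) h
      | cons m M =>
        rw [markAt_cons] at h ⊢
        by_cases hc : a = c
        · rw [if_pos hc]
          exact List.mem_cons_self
        · rw [if_neg hc] at h ⊢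
          exact List.mem_cons_of_mem _ (ih h)

theorem markAt_get {H : List ℕ} {M : List Mark} (hH : H.Pairwise (· < ·))
    (hl : H.length = M.length) {i : ℕ} (hi : i < H.length) :
    markAt H M (H.getD i 0) = M.getD i .none := by
  induction H generalizing M i with
  | nil => exact absurd hi (Nat.not_lt_zero _)
  | cons h H ih =>
    cases M with
    | nil => simp at hl
    | cons m M =>
      rw [markAt_cons]
      rw [List.pairwise_cons] at hH
      cases i with
      | zero => simp
      | succ i =>
        have hi' : i < H.length := by simpa using hi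
        have hl' : H.length = M.length := by simpa using hl
        have h1 : (h :: H).getD (i + 1) 0 = H.getD i 0 := by simp
        have h2 : (m :: M).getD (i + 1) .none = M.getD i .none := by simp
        rw [h1, h2]
        have h3 : H.getD i 0 ∈ H := by
          rw [List.getD_eq_getElem _ _ hi']
          exact List.getElem_mem hi'
        rw [if_neg (ne_of_lt (hH.1 _ h3))]
        exact ih hH.2 hl' hi'

/-- all children have the same level, at most the level of the parent; used for sortedness -/
theorem kidsLev_le {lv l : Lev} {N : ℕ} (h : l ∈ kidsLev lv N) : l.le lv ∧ l ≠ .root := by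
  rcases lv with (_ | k) | (_ | k) | _
  · simp [kidsLev] at h
  · simp only [kidsLev, List.mem_replicate] at h
    rw [h.2]
    exact ⟨Nat.le_succ k, by simp⟩
  · simp only [kidsLev, List.mem_singleton] at h
    rw [h]
    exact ⟨trivial, by simp⟩
  · simp only [kidsLev, List.mem_replicate] at h
    rw [h.2]
    exact ⟨Nat.le_succ k, by simp⟩
  · simp only [kidsLev, List.mem_singleton] at h
    rw [h]
    exact ⟨trivial, by simp⟩

theorem le_trans' {a b c : Lev} (h : a.le b) (h' : b.le c) : a.le c := by
  rcases a with j | j | _ <;> rcases b with k | k | _ <;> rcases c with l | l | _ <;>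
    simp_all [Lev.le] <;> omega

theorem le_refl' (a : Lev) : a.le a := by
  rcases a with j | j | _ <;> simp [Lev.le]

theorem step_real {s : St} {l : List ℕ} (h : s.stk ≠ []) :
    (s.step l).real = s.real ++ [l.getLastD 0] := by
  rcases hs : s.stk with _ | ⟨⟨lv, m⟩, t⟩
  · exact absurd hs h
  · simp [St.step, hs]

theorem step_fst {s : St} {lv : Lev} {m : Mark} {t : List (Lev × Mark)} (h : s.stk = (lv, m) :: t)
    (l : List ℕ) : (s.step l).stk.map Prod.fst = kidsLev lv (l.getLastD 0) ++ t.map Prod.fst := by
  simp only [St.step, h, List.map_append, kids_fst]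

/-- a state is running iff it is incomplete and (picked or not open) -/
theorem not_nonrun {s : St} : ¬ s.Nonrun ↔ s.stk ≠ [] ∧ (s.pk = true ∨ ¬ s.OpenTop) := by
  unfold St.Nonrun
  rw [not_or, not_and_or, Bool.not_eq_false]

theorem pick_not_nonrun {s : St} (n : ℕ) (h : s.stk ≠ []) : ¬ (s.pick n).Nonrun := by
  rw [not_nonrun]
  exact ⟨h, Or.inl rfl⟩

theorem Par.stk_nil {s t : St} (h : Par s t) : s.stk = [] ↔ t.stk = [] := by
  rw [← List.map_eq_nil_iff (f := Prod.fst) (l := s.stk), h.2, List.map_eq_nil_iff]

theorem Par.pick1 {s t : St} (h : Par s t) (n : ℕ) : Par (s.pick n) t := h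

theorem Par.pick2 {s t : St} (h : Par s t) (n : ℕ) : Par s (t.pick n) := h

theorem Par.symm {s t : St} (h : Par s t) : Par t s := ⟨h.1.symm, h.2.symm⟩

/-- both boards step with the same real number; script: first the numbers of board 1, then those of
board 2 -/
theorem par_step {s t : St} (h : Par s t) {T1 T2 : Set (List ℕ)} (h1 : Big (s.need + 1) T1)
    (h2 : Big (t.need + 1) T2) :
    ∃ l1 ∈ T1, ∃ l2 ∈ T2, Fresh 0 l1 ∧ Fresh 0 l2 ∧ l1.length = s.need + 1 ∧
      l2.length = t.need + 1 ∧ l1.getLastD 0 = l2.getLastD 0 ∧ Par (s.step l1) (t.step l2) := by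
  have e1 : ((List.replicate s.need (true, false) ++ List.replicate t.need (false, true)).filter
      fun p : Bool × Bool => p.1).length = s.need := by simp
  have e2 : ((List.replicate s.need (true, false) ++ List.replicate t.need (false, true)).filter
      fun p : Bool × Bool => p.2).length = t.need := by simp
  obtain ⟨e, N, -, -, hT1, hT2⟩ := big_merge
    (List.replicate s.need (true, false) ++ List.replicate t.need (false, true)) 0
    (T1 := T1 ∩ {l | l.length = s.need + 1 ∧ Fresh 0 l})
    (T2 := T2 ∩ {l | l.length = t.need + 1 ∧ Fresh 0 l})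
    (by rw [e1]; exact big_inter h1 (big_fresh _ 0))
    (by rw [e2]; exact big_inter h2 (big_fresh _ 0))
  refine ⟨_, hT1.1, _, hT2.1, hT1.2.2, hT2.2.2, hT1.2.1, hT2.2.1, ?_, ?_⟩
  · simp
  · rcases hs : s.stk with _ | ⟨⟨lv, m⟩, u⟩
    · have ht : t.stk = [] := h.stk_nil.mp hs
      have h3 : ∀ l, s.step l = s := fun l => by simp [St.step, hs]
      have h4 : ∀ l, t.step l = t := fun l => by simp [St.step, ht]
      rw [h3, h4]
      exact h
    · rcases ht : t.stk with _ | ⟨⟨lv', m'⟩, u'⟩
      · rw [h.stk_nil.mpr ht] at hs
        cases hs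
      · have h5 := h.2
        rw [hs, ht, List.map_cons, List.map_cons, List.cons.injEq] at h5
        have h6 : lv = lv' := h5.1
        subst h6
        constructor
        · rw [step_real (by rw [hs]; simp), step_real (by rw [ht]; simp), h.1]
          simp
        · rw [step_fst hs, step_fst ht, h5.2]
          simp

end Pool.Agent.H90.Ord
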