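import Pool.Agent.H90.Ord.Basic

/-!
# The marked machine

A state consists of the real numbers read so far, a stack of levels with marks, a register and a flag.
-/

set_option autoImplicit false

namespace Pool.Agent.H90.Ord

open Filter

/-- `S` contains almost all lists of length `n` (iterated ultrafilter quantifier) -/
def Big : ℕ → Set (List ℕ) → Prop
  | 0, S => [] ∈ S
  | n + 1, S => ∀ᶠ c in (hyperfilter ℕ : Filter ℕ), Big n {l | c :: l ∈ S}

/-- every element is larger by at least `3` than the one before it (the first one: than `m`) -/
def Fresh : ℕ → List ℕ → Prop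
  | _, [] => True
  | m, c :: l => m + 3 ≤ c ∧ Fresh c l

/-- marks of the entries of the stack; the lists are host levels in descending order -/
inductive Mark
  | none
  | U
  | E (o : Bool) (L : List ℕ)
  | B (o : Bool) (L : List ℕ)
  deriving DecidableEq

/-- the mark of an unsplit copy entry with host levels `L` -/
def mkE : Bool → List ℕ → Mark
  | false, [] => .U
  | o, L => .E o L

/-- the marks of the marked children, from left to right, for levels with many children -/
def chM : Lev → Mark → ℕ → List Mark
  | _, .none, _ => []
  | _, .U, _ => [.U]
  | .inn k, .E false L, _ => if L.head? = some k then [.U, .B false L] else [.E false L]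
  | .out k, .E true L, _ => if L.head? = some k then [.U, .B true L] else [.E true L]
  | _, .E o L, _ => [.E o L]
  | .inn _, .B false L, r => List.replicate r (mkE false L.tail)
  | .out _, .B true L, r => if 2 ≤ L.length then List.replicate r (mkE true L.tail) else [.B true L]
  | _, .B _ _, _ => []

/-- how many hidden numbers are read before the real number -/
def need : Lev → Mark → ℕ → ℕ
  | .inn 0, _, _ => 0
  | .inn (k + 1), m, r => (chM (.inn (k + 1)) m r).length
  | .out 0, .B true _, r => r
  | .out 0, _, _ => 0
  | .out (k + 1), m, r => (chM (.out (k + 1)) m r).length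
  | .root, .U, r => r + 1
  | .root, _, _ => 0

/-- the mark of the child number `i` if the marks `M` are put at the places `H` -/
def markAt (H : List ℕ) (M : List Mark) (i : ℕ) : Mark :=
  match (H.zip M).find? (fun p => p.1 = i) with
  | some p => p.2
  | Option.none => .none

/-- the entries replacing the top entry `(l, m)` when the hidden numbers `H` and the real number `N`
are read with `r` in the register -/
def kids : Lev → Mark → ℕ → List ℕ → ℕ → List (Lev × Mark)
  | .inn 0, _, _, _, _ => []
  | .inn (k + 1), m, r, H, N =>
      (List.range N).map fun i => (.inn k, markAt H (chM (.inn (k + 1)) m r) i)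
  | .out 0, .U, _, _, N => [(.inn N, .U)]
  | .out 0, .E o L, _, _, N => [(.inn N, .E o L)]
  | .out 0, .B true _, _, H, N => [(.inn N, mkE false H.reverse)]
  | .out 0, _, _, _, N => [(.inn N, .none)]
  | .out (k + 1), m, r, H, N =>
      (List.range N).map fun i => (.out k, markAt H (chM (.out (k + 1)) m r) i)
  | .root, .U, _, H, N => [(.out N, .E true H.reverse)]
  | .root, _, _, _, N => [(.out N, .none)]

/-- a state of one vertex -/
structure St where
  real : List ℕ
  stk : List (Lev × Mark)
  reg : ℕ
  pk : Bool

/-- the initial state -/
def start : St := ⟨[], [(.root, .U)], 0, false⟩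

namespace St

/-- the top entry is a marked unit or the marked root -/
def OpenTop (s : St) : Prop := ∃ t, s.stk = (.inn 0, .U) :: t ∨ s.stk = (.root, .U) :: t

/-- the vertex is complete or waits for a decision -/
def Nonrun (s : St) : Prop := s.stk = [] ∨ (s.pk = false ∧ s.OpenTop)

/-- the copy number `n` is chosen -/
def pick (s : St) (n : ℕ) : St := { s with reg := n, pk := true }

/-- how many hidden numbers are read next -/
def need (s : St) : ℕ :=
  match s.stk with
  | [] => 0
  | (l, m) :: _ => Ord.need l m s.reg

/-- the list `l` consists of the hidden numbers and, as its last element, of the real number -/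
def step (s : St) (l : List ℕ) : St :=
  match s.stk with
  | [] => s
  | (lv, m) :: t =>
      ⟨s.real ++ [l.getLastD 0], kids lv m s.reg l.dropLast (l.getLastD 0) ++ t, s.reg, false⟩

end St

/-- `a` (if `v`) or `b` (if not `v`) -/
def sel (v : Bool) (a b : St) : St := if v then a else b

/-- the challenger wins the pair game from the position `(a, b)` -/
inductive Win (red : List ℕ → List ℕ → Prop) : St → St → Prop
  | done {a b : St} (ha : a.stk = []) (hb : b.stk = []) (h : red a.real b.real) : Win red a b
  | pickA {a b : St} (n : ℕ) (ha : a.Nonrun) (hb : b.Nonrun) (h0 : a.stk ≠ [])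
      (h : Win red (a.pick n) b) : Win red a b
  | pickB {a b : St} (n : ℕ) (ha : a.Nonrun) (hb : b.Nonrun) (h0 : b.stk ≠ [])
      (hr : a.real ≠ []) (h : Win red a (b.pick n)) : Win red a b
  | stepA {a b : St} (T : Set (List ℕ)) (ha : ¬ a.Nonrun) (hb : b.Nonrun)
      (hT : Big (a.need + 1) T) (h : ∀ l ∈ T, Win red (a.step l) b) : Win red a b
  | stepB {a b : St} (T : Set (List ℕ)) (ha : a.Nonrun) (hb : ¬ b.Nonrun)
      (hT : Big (b.need + 1) T) (h : ∀ l ∈ T, Win red a (b.step l)) : Win red a b

end Pool.Agent.H90.Ord
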