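import Pool.Agent.H90.Ord.Auto
import Pool.Agent.H90.Ord.Big

/-!
# Status theorem: invariants and the contents of the statuses

Section 2.5 of proofs 343.  A position `(a, b)` of a won pair game gets a status which describes the
shape of the future of the play; the content of a status is a conjunction of statements
`there are pointers with AW ..`.  The status theorem is proved by induction on `Win`; every lemma of the
files `ST*.lean` is one step of this induction.

Statuses with `b` started: `SA` (`a` complete), `SB` (`b` complete), `SI` (both incomplete, `a` will complete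
first), `N0` (`b` alone until it completes), `N2` (`b` completes first, `a` moves before, all these moves of `a`
are inner), `N1` (some of them are outer).  Statuses with `b` not started: `UT`, `UI`, `UR`, `U2`, `U1`.
-/

set_option autoImplicit false

namespace Pool.Agent.H90.Ord

/-- invariant of the reachable states -/
structure Inv (s : St) : Prop where
  sorted : s.stk.Pairwise fun e f => e.1.le f.1
  root : (s.stk = [(.root, .U)] ∧ s.real = []) ∨ ((∀ e ∈ s.stk, e.1 ≠ .root) ∧ s.real ≠ [])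

/-- `s` is not the unpicked initial state -/
def Started (s : St) : Prop := s.real ≠ [] ∨ s.pk = true

/-- the pointer shows a marked entry; if the top is a unit then it is not the top -/
def NotTop (s : St) (h : ℕ) : Prop :=
  PtrOK s h ∧ ((∃ m t, s.stk = (.inn 0, m) :: t) → h < s.stk.length)

/-- the pointer shows a marked entry, and `NotTop` holds if the vertex is running -/
def PtrW (s : St) (h : ℕ) : Prop := PtrOK s h ∧ (¬ s.Nonrun → NotTop s h)

/-- `a` is complete -/
structure SA (red : List ℕ → List ℕ → Prop) (a b : St) : Prop where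
  t2 : AW red T0 ⟨2, 0, 0, false⟩ a b
  t1 : b.Nonrun → b.stk ≠ [] → AW red T0 ⟨1, 0, 0, false⟩ a b
  xy3 : AW red XYI ⟨3, 0, 0, false⟩ a b
  xy2 : b.Nonrun → b.stk ≠ [] → AW red XYI ⟨2, 0, 0, false⟩ a b
  xz : AW red XZI ⟨0, 0, 0, false⟩ a b
  yz : AW red YZI ⟨2, 0, 0, false⟩ a b

/-- `b` is complete -/
structure SB (red : List ℕ → List ℕ → Prop) (a b : St) : Prop where
  xy5 : AW red XY1 ⟨5, 0, 0, false⟩ a b
  xy4 : a.Nonrun → a.stk ≠ [] → ∀ fl, AW red XY1 ⟨4, 0, 0, fl⟩ a b
  xz5 : AW red XZ ⟨5, 0, 0, false⟩ a b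
  xz4 : a.Nonrun → a.stk ≠ [] → AW red XZ ⟨4, 0, 0, false⟩ a b
  yz : AW red YZ ⟨3, 0, 0, false⟩ a b
  r3 : AW red R1 ⟨3, 0, 0, false⟩ a b
  r2 : a.Nonrun → a.stk ≠ [] → AW red R1 ⟨2, 0, 0, false⟩ a b

/-- both incomplete, `b` started, `a` will complete first -/
structure SI (red : List ℕ → List ℕ → Prop) (a b : St) : Prop where
  xz : AW red XZI ⟨0, 0, 0, false⟩ a b
  yz : AW red YZI ⟨2, 0, 0, false⟩ a b
  xy : (∃ h, PtrW b h ∧ AW red XYI ⟨1, 0, h, false⟩ a b) ∨
    (¬ a.Nonrun ∧ AW red XYI ⟨2, 0, 0, false⟩ a b)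

/-- both incomplete, `b` started, `b` moves alone until it completes -/
structure N0 (red : List ℕ → List ℕ → Prop) (a b : St) : Prop where
  na : a.Nonrun
  xy5 : AW red XY1 ⟨5, 0, 0, false⟩ a b
  xy4 : ∀ fl, AW red XY1 ⟨4, 0, 0, fl⟩ a b
  xy2 : b.Nonrun → AW red XY1 ⟨2, a.stk.length, 0, false⟩ a b
  xy3 : b.Nonrun → AW red XY1 ⟨3, a.stk.length, 0, false⟩ a b
  xz4 : AW red XZ ⟨4, 0, 0, false⟩ a b
  xz3 : b.Nonrun → AW red XZ ⟨3, a.stk.length, 0, false⟩ a b
  yz : AW red YZ ⟨3, 0, 0, false⟩ a b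
  r2 : AW red R1 ⟨2, 0, 0, false⟩ a b

/-- both incomplete, `b` started, `b` completes first, some move of `a` before is outer -/
structure N1 (red : List ℕ → List ℕ → Prop) (a b : St) : Prop where
  xy5 : AW red XY1 ⟨5, 0, 0, false⟩ a b
  xy4 : a.Nonrun → AW red XY1 ⟨4, 0, 0, true⟩ a b
  xy1 : (∃ ha hb, NotTop a ha ∧ PtrW b hb ∧ AW red XY1 ⟨1, ha, hb, false⟩ a b) ∨
    (¬ a.Nonrun ∧ ∃ ha, NotTop a ha ∧ POut a ha ∧ AW red XY1 ⟨2, ha, 0, false⟩ a b)
  xz : (∃ ha hb, NotTop a ha ∧ PtrW b hb ∧ AW red XZ ⟨2, ha, hb, false⟩ a b) ∨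
    (¬ a.Nonrun ∧ ∃ ha, NotTop a ha ∧ AW red XZ ⟨3, ha, 0, false⟩ a b)
  yz3 : AW red YZ ⟨3, 0, 0, false⟩ a b
  yz2 : a.Nonrun → ∃ hb, PtrW b hb ∧ AW red YZ ⟨2, 0, hb, false⟩ a b

/-- both incomplete, `b` started, `b` completes first, `a` moves before, all these moves are inner -/
structure N2 (red : List ℕ → List ℕ → Prop) (a b : St) : Prop where
  xy5 : AW red XY1 ⟨5, 0, 0, false⟩ a b
  xy4 : a.Nonrun → AW red XY1 ⟨4, 0, 0, true⟩ a b
  xyk : a.Nonrun → (AW red XY1 ⟨4, 0, 0, false⟩ a b ∨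
    (HasInnerMark b ∧ ∃ ha, NotTop a ha ∧ PIn a ha ∧ AW red XY1 ⟨3, ha, 0, false⟩ a b))
  xy2 : b.Nonrun → ∃ ha, PtrW a ha ∧ PIn a ha ∧ AW red XY1 ⟨2, ha, 0, false⟩ a b
  xy3 : b.Nonrun → ∃ ha, PtrW a ha ∧ PIn a ha ∧ AW red XY1 ⟨3, ha, 0, false⟩ a b
  xz : (∃ ha hb, NotTop a ha ∧ PIn a ha ∧ PtrW b hb ∧ AW red XZ ⟨2, ha, hb, false⟩ a b) ∨
    (¬ a.Nonrun ∧ ∃ ha, NotTop a ha ∧ PIn a ha ∧ AW red XZ ⟨3, ha, 0, false⟩ a b)
  yz3 : AW red YZ ⟨3, 0, 0, false⟩ a b
  yz2 : a.Nonrun → ∃ hb, PtrW b hb ∧ AW red YZ ⟨2, 0, hb, false⟩ a b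

/-- `b` not started: `a` completes before `b` starts -/
def UT (red : List ℕ → List ℕ → Prop) (a b : St) : Prop := AW red T0 ⟨1, 0, 0, false⟩ a b

/-- `b` not started: `a` completes first, after `b` has started -/
structure UI (red : List ℕ → List ℕ → Prop) (a b : St) : Prop where
  xy : AW red XYI ⟨1, 0, 1, false⟩ a b
  xz : AW red XZI ⟨0, 0, 0, false⟩ a b
  yz : ∃ ha, PtrW a ha ∧ AW red YZI ⟨1, ha, 0, false⟩ a b

/-- `b` not started: `b` will be completed without interruption while `a` is incomplete -/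
def UR (red : List ℕ → List ℕ → Prop) (a b : St) : Prop := AW red R1 ⟨1, 0, 0, false⟩ a b

/-- `b` not started: `b` completes first, `a` moves in between, all these moves are inner -/
structure U2 (red : List ℕ → List ℕ → Prop) (a b : St) : Prop where
  xz : ∃ ha, NotTop a ha ∧ AW red XZ ⟨6, ha, 0, false⟩ a b
  yz : ∃ ha, PtrW a ha ∧ AW red YZ ⟨1, ha, 0, false⟩ a b

/-- `b` not started: `b` completes first, `a` moves in between, some of these moves are outer -/
structure U1 (red : List ℕ → List ℕ → Prop) (a b : St) : Prop where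
  xy : ∃ ha, NotTop a ha ∧ AW red XY1 ⟨1, ha, 1, false⟩ a b
  xz : ∃ ha, NotTop a ha ∧ AW red XZ ⟨1, ha, 0, false⟩ a b
  yz : ∃ ha, PtrW a ha ∧ AW red YZ ⟨1, ha, 0, false⟩ a b

/-- the possible statuses of a position with both vertices incomplete and `b` started -/
inductive Sta
  | i
  | n0
  | n1
  | n2
  deriving DecidableEq

instance : Fintype Sta := ⟨{.i, .n0, .n1, .n2}, by intro x; cases x <;> simp⟩

/-- content of a status -/
def ContS (red : List ℕ → List ℕ → Prop) : Sta → St → St → Prop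
  | .i => SI red
  | .n0 => N0 red
  | .n1 => N1 red
  | .n2 => N2 red

/-- the possible statuses of a position with `a` incomplete and `b` not started -/
inductive Stu
  | t
  | i
  | r
  | u2
  | u1
  deriving DecidableEq

instance : Fintype Stu := ⟨{.t, .i, .r, .u2, .u1}, by intro x; cases x <;> simp⟩

/-- content of a status -/
def ContU (red : List ℕ → List ℕ → Prop) : Stu → St → St → Prop
  | .t => UT red
  | .i => UI red
  | .r => UR red
  | .u2 => U2 red
  | .u1 => U1 red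

end Pool.Agent.H90.Ord
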