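import Pool.Agent.H90.Ord.STPtr

/-!
# Prediction of pointers (module STPred)

`ptr_pred`: intersect `T` with `{l | l.length = s.need + 1}` (`big_fresh`).  For every `l` the pointer `h` of
`s.step l` is at most `t.length` (then it is one of finitely many numbers, `PtrStep.keep`), or it shows a marked
new entry.  Then the level of the top is not `inn 0`; for `out 0` and `root` there is one new entry, its height is
`s.stk.length` (`PtrStep.single`); for the other levels use `kids_height`: finitely many `i < s.need`
(`PtrStep.child`; `(l.dropLast).getD i 0 = l.getD i 0` for `i < l.length - 1`).  So finitely many pairs `(h, g)`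
are possible and `big_pigeon` gives one of them.  `PtrOK s h`: the entry of the tail is marked, or the top is
marked by `kids_marked`.
-/

set_option autoImplicit false

namespace Pool.Agent.H90.Ord

theorem ptr_pred {s : St} (h0 : s.stk ≠ []) {T : Set (List ℕ)} (hT : Big (s.need + 1) T)
    (Q : ℕ → List ℕ → Prop) (hQ : ∀ l ∈ T, ∃ h, PtrOK (s.step l) h ∧ Q h l) :
    ∃ h g, PtrStep h s g ∧ NotTop s h ∧
      Big (s.need + 1) {l | l ∈ T ∧ l.length = s.need + 1 ∧ Fresh 0 l ∧ PtrOK (s.step l) (g l) ∧
        Q (g l) l} := by
  classical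
  obtain ⟨⟨lv, m⟩, t, hs⟩ : ∃ x t, s.stk = x :: t := List.exists_cons_of_ne_nil h0
  have hlen : s.stk.length = t.length + 1 := by rw [hs, List.length_cons]
  have hneed : s.need = Ord.need lv m s.reg := by
    unfold St.need
    rw [hs]
  have hstep : ∀ l, (s.step l).stk = kids lv m s.reg l.dropLast (l.getLastD 0) ++ t := by
    intro l
    unfold St.step
    rw [hs]
  have hT' := big_inter hT (big_fresh (s.need + 1) 0)
  set F : Finset (ℕ × (List ℕ → ℕ)) :=
    ((Finset.range (t.length + 1)).image (fun h => (h, fun _ => h)) ∪
      {(s.stk.length, fun _ => s.stk.length)}) ∪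
    (Finset.range s.need).image (fun i => (s.stk.length,
      fun x => t.length + (x.getLastD 0 - x.getD i 0))) with hF
  have hmain : ∀ l ∈ T ∩ {l | l.length = s.need + 1 ∧ Fresh 0 l}, ∃ i ∈ F,
      (PtrStep i.1 s i.2 ∧ NotTop s i.1 ∧ l ∈ T ∧ l.length = s.need + 1 ∧ Fresh 0 l ∧
        PtrOK (s.step l) (i.2 l) ∧ Q (i.2 l) l) := by
    rintro l ⟨hlT, hll, hlf⟩
    obtain ⟨h, hok, hq⟩ := hQ l hlT
    obtain ⟨e, he, hem⟩ := hok
    have he' := he
    rw [hstep l] at he'
    rcases Nat.lt_or_ge t.length h with hh | hh
    · obtain ⟨A, B, hk, hB⟩ := entryAt_append_high hh he'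
      have hmem : e ∈ kids lv m s.reg l.dropLast (l.getLastD 0) := by
        rw [hk]
        exact List.mem_append_right _ List.mem_cons_self
      have hm : m ≠ .none := kids_marked hmem hem
      have hlv : lv ≠ .inn 0 := by
        rintro rfl
        exact absurd hmem List.not_mem_nil
      have hnt : NotTop s s.stk.length := by
        refine ⟨⟨(lv, m), ?_, hm⟩, ?_⟩
        · rw [hs]
          exact entryAt_cons.mpr (Or.inl ⟨by rw [List.length_cons], rfl⟩)
        · rintro ⟨m', t', h'⟩
          exfalso
          rw [hs] at h'
          exact hlv (Prod.mk.inj (List.cons.inj h').1).1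
      have hone : (lv = .out 0 ∨ lv = .root) → h = s.stk.length := by
        intro h1
        have h2 : (kids lv m s.reg l.dropLast (l.getLastD 0)).length = 1 := by
          rcases h1 with rfl | rfl
          · unfold kids
            split <;> simp_all
          · unfold kids
            split <;> simp_all
        rw [hk, List.length_append, List.length_cons] at h2
        omega
      have hchild : ∀ k, (lv = .inn (k + 1) ∨ lv = .out (k + 1)) → ∃ i, i < s.need ∧
          h = t.length + (l.getLastD 0 - l.getD i 0) := by
        intro k h1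
        obtain ⟨i, hi1, hi2, hi3⟩ := kids_height h1 hk hem
        refine ⟨i, by rw [hneed]; exact hi1, ?_⟩
        have h4 : l.dropLast.getD i 0 = l.getD i 0 := by
          rw [List.getD_eq_getElem _ _ hi2, List.getElem_dropLast]
          rw [List.getD_eq_getElem]
        rw [← h4]
        omega
      cases lv with
      | inn k =>
        cases k with
        | zero => exact absurd rfl hlv
        | succ k =>
          obtain ⟨i, hi, hi'⟩ := hchild k (Or.inl rfl)
          refine ⟨(s.stk.length, fun x => t.length + (x.getLastD 0 - x.getD i 0)), ?_,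
            PtrStep.child k i hs (Or.inl rfl) hi, hnt, hlT, hll, hlf, ?_, ?_⟩
          · rw [hF]
            exact Finset.mem_union_right _ (Finset.mem_image_of_mem _ (Finset.mem_range.mpr hi))
          · change PtrOK (s.step l) (t.length + (l.getLastD 0 - l.getD i 0))
            rw [← hi']
            exact ⟨e, he, hem⟩
          · change Q (t.length + (l.getLastD 0 - l.getD i 0)) l
            rw [← hi']
            exact hq
      | out k =>
        cases k with
        | zero =>
          have h1 := hone (Or.inl rfl)
          refine ⟨(s.stk.length, fun _ => s.stk.length), ?_,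
            PtrStep.single hs (Or.inl rfl), hnt, hlT, hll, hlf, ?_, ?_⟩
          · rw [hF]
            exact Finset.mem_union_left _ (Finset.mem_union_right _ (Finset.mem_singleton_self _))
          · change PtrOK (s.step l) s.stk.length
            rw [← h1]
            exact ⟨e, he, hem⟩
          · change Q s.stk.length l
            rw [← h1]
            exact hq
        | succ k =>
          obtain ⟨i, hi, hi'⟩ := hchild k (Or.inr rfl)
          refine ⟨(s.stk.length, fun x => t.length + (x.getLastD 0 - x.getD i 0)), ?_,
            PtrStep.child k i hs (Or.inr rfl) hi, hnt, hlT, hll, hlf, ?_, ?_⟩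
          · rw [hF]
            exact Finset.mem_union_right _ (Finset.mem_image_of_mem _ (Finset.mem_range.mpr hi))
          · change PtrOK (s.step l) (t.length + (l.getLastD 0 - l.getD i 0))
            rw [← hi']
            exact ⟨e, he, hem⟩
          · change Q (t.length + (l.getLastD 0 - l.getD i 0)) l
            rw [← hi']
            exact hq
      | root =>
        have h1 := hone (Or.inr rfl)
        refine ⟨(s.stk.length, fun _ => s.stk.length), ?_,
          PtrStep.single hs (Or.inr rfl), hnt, hlT, hll, hlf, ?_, ?_⟩
        · rw [hF]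
          exact Finset.mem_union_left _ (Finset.mem_union_right _ (Finset.mem_singleton_self _))
        · change PtrOK (s.step l) s.stk.length
          rw [← h1]
          exact ⟨e, he, hem⟩
        · change Q s.stk.length l
          rw [← h1]
          exact hq
    · have he2 : EntryAt t h e := (entryAt_append_low hh).mp he'
      have hhs : h < s.stk.length := by
        rw [hlen]
        omega
      refine ⟨(h, fun _ => h), ?_, PtrStep.keep he.pos.1 hhs, ⟨⟨e, ?_, hem⟩, fun _ => hhs⟩,
        hlT, hll, hlf, ⟨e, he, hem⟩, hq⟩
      · rw [hF]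
        exact Finset.mem_union_left _ (Finset.mem_union_left _
          (Finset.mem_image_of_mem _ (Finset.mem_range.mpr (by omega))))
      · rw [hs]
        exact entryAt_cons.mpr (Or.inr he2)
  obtain ⟨i, _, hi⟩ := big_pigeon hT' F (fun i l => PtrStep i.1 s i.2 ∧ NotTop s i.1 ∧ l ∈ T ∧
    l.length = s.need + 1 ∧ Fresh 0 l ∧ PtrOK (s.step l) (i.2 l) ∧ Q (i.2 l) l) hmain
  obtain ⟨l0, hl0, _⟩ := big_nonempty hi
  exact ⟨i.1, i.2, hl0.1, hl0.2.1, big_mono (fun l hl => hl.2.2) hi⟩

/-- a pointer of the vertex which does not move is constant on a Big set -/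
theorem ptr_const {n : ℕ} {T : Set (List ℕ)} (hT : Big n T) (s : St) (P : ℕ → Prop)
    (hP : ∀ h, P h → PtrOK s h) (Q : ℕ → List ℕ → Prop) (hQ : ∀ l ∈ T, ∃ h, P h ∧ Q h l) :
    ∃ h, P h ∧ Big n {l | l ∈ T ∧ Q h l} := by
  classical
  obtain ⟨h, _, hh⟩ := big_pigeon hT (Finset.range (s.stk.length + 1))
    (fun h l => P h ∧ l ∈ T ∧ Q h l) (by
      intro l hl
      obtain ⟨h, hp, hq⟩ := hQ l hl
      obtain ⟨e, he, _⟩ := hP h hp
      exact ⟨h, Finset.mem_range.mpr (Nat.lt_succ_of_le he.pos.2), hp, hl, hq⟩)
  obtain ⟨l0, hl0, _⟩ := big_nonempty hh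
  exact ⟨h, hl0.1, big_mono (fun l hl => hl.2) hh⟩

end Pool.Agent.H90.Ord
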