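import Pool.Agent.H90.Ord.STDefs

/-!
# Entries of the stack after a step (module STPtr)

`EntryAt s h e` counts heights from the bottom, so an entry of the old tail `t` keeps its height.  The new
entries are `kids l m reg H N` with `H = x.dropLast`, `N = x.getLastD 0`.  For the levels with many children the
entry number `j` from the top of `kids` has the height `t.length + (N - j)`, its mark is
`markAt H (chM l m reg) j`, and if this is not `.none` then `j = H[i]` for some
`i < H.length ⊓ (chM l m reg).length` (look at `List.find?` and `List.zip`).
-/

set_option autoImplicit false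

namespace Pool.Agent.H90.Ord

theorem EntryAt.pos {s : List (Lev × Mark)} {h : ℕ} {e : Lev × Mark} (H : EntryAt s h e) :
    0 < h ∧ h ≤ s.length := by
  obtain ⟨A, B, hs, hB⟩ := H
  subst hs
  rw [List.length_append, List.length_cons]
  omega

theorem entryAt_cons {x : Lev × Mark} {t : List (Lev × Mark)} {h : ℕ} {e : Lev × Mark} :
    EntryAt (x :: t) h e ↔ (h = t.length + 1 ∧ e = x) ∨ EntryAt t h e := by
  constructor
  · rintro ⟨A, B, hs, hB⟩
    cases A with
    | nil =>
      rw [List.nil_append] at hs
      obtain ⟨h1, h2⟩ := List.cons.inj hs
      left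
      exact ⟨by rw [h2]; exact hB.symm, h1.symm⟩
    | cons a A =>
      rw [List.cons_append] at hs
      obtain ⟨h1, h2⟩ := List.cons.inj hs
      right
      exact ⟨A, B, h2, hB⟩
  · rintro (⟨h1, h2⟩ | ⟨A, B, hs, hB⟩)
    · subst h2
      exact ⟨[], t, rfl, h1.symm⟩
    · exact ⟨x :: A, B, by rw [hs, List.cons_append], hB⟩

theorem EntryAt.unique {s : List (Lev × Mark)} {h : ℕ} {e e' : Lev × Mark} (H : EntryAt s h e)
    (H' : EntryAt s h e') : e = e' := by
  obtain ⟨A, B, hs, hB⟩ := H
  obtain ⟨A', B', hs', hB'⟩ := H'
  have h1 : A ++ e :: B = A' ++ e' :: B' := by rw [← hs, ← hs']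
  have h2 := List.append_inj' h1 (by rw [List.length_cons, List.length_cons, hB, hB'])
  exact (List.cons.inj h2.2).1

theorem EntryAt.mem {s : List (Lev × Mark)} {h : ℕ} {e : Lev × Mark} (H : EntryAt s h e) :
    e ∈ s := by
  obtain ⟨A, B, hs, hB⟩ := H
  rw [hs]
  exact List.mem_append_right _ List.mem_cons_self

/-- heights at most `t.length` are heights of entries of the tail -/
theorem entryAt_append_low {C t : List (Lev × Mark)} {h : ℕ} {e : Lev × Mark}
    (hh : h ≤ t.length) : EntryAt (C ++ t) h e ↔ EntryAt t h e := by
  induction C with
  | nil => rw [List.nil_append]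
  | cons c C ih =>
    rw [List.cons_append, entryAt_cons, ih]
    constructor
    · rintro (⟨h1, _⟩ | h1)
      · rw [List.length_append] at h1
        omega
      · exact h1
    · exact Or.inr

/-- greater heights are heights of entries of the upper part -/
theorem entryAt_append_high {C t : List (Lev × Mark)} {h : ℕ} {e : Lev × Mark}
    (hh : t.length < h) (H : EntryAt (C ++ t) h e) :
    ∃ A B, C = A ++ e :: B ∧ h = B.length + t.length + 1 := by
  induction C with
  | nil =>
    rw [List.nil_append] at H
    have := H.pos
    omega
  | cons c C ih =>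
    rw [List.cons_append, entryAt_cons] at H
    rcases H with ⟨h1, h2⟩ | h1
    · subst h2
      refine ⟨[], C, rfl, ?_⟩
      rw [List.length_append] at h1
      exact h1
    · obtain ⟨A, B, h2, h3⟩ := ih h1
      exact ⟨c :: A, B, by rw [h2, List.cons_append], h3⟩

theorem entryAt_exists {s : List (Lev × Mark)} {h : ℕ} (h0 : 0 < h) (h1 : h ≤ s.length) :
    ∃ e, EntryAt s h e := by
  induction s with
  | nil =>
    rw [List.length_nil] at h1
    omega
  | cons x s ih =>
    rw [List.length_cons] at h1
    rcases Nat.lt_or_ge s.length h with h2 | h2
    · exact ⟨x, entryAt_cons.mpr (Or.inl ⟨by omega, rfl⟩)⟩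
    · obtain ⟨e, he⟩ := ih h2
      exact ⟨e, entryAt_cons.mpr (Or.inr he)⟩

/-- a marked place is one of the places `H` -/
theorem markAt_ne {H : List ℕ} {M : List Mark} {j : ℕ} (h : markAt H M j ≠ .none) :
    ∃ i, i < M.length ∧ i < H.length ∧ H.getD i 0 = j := by
  unfold markAt at h
  cases hf : (H.zip M).find? (fun p => decide (p.1 = j)) with
  | none =>
    rw [hf] at h
    exact absurd rfl h
  | some p =>
    have h1 : p ∈ H.zip M := List.mem_of_find?_eq_some hf
    have h2 : p.1 = j := by
      have := List.find?_some hf
      simpa using this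
    obtain ⟨i, hi, hp⟩ := List.mem_iff_getElem.mp h1
    rw [List.length_zip] at hi
    have hiH : i < H.length := lt_of_lt_of_le hi (min_le_left _ _)
    have hiM : i < M.length := lt_of_lt_of_le hi (min_le_right _ _)
    refine ⟨i, hiM, hiH, ?_⟩
    rw [List.getD_eq_getElem _ _ hiH, ← h2, ← hp, List.getElem_zip]

/-- marked children of an entry exist only if the entry is marked -/
theorem kids_marked {l : Lev} {m : Mark} {r : ℕ} {H : List ℕ} {N : ℕ} {e : Lev × Mark}
    (he : e ∈ kids l m r H N) (h : e.2 ≠ .none) : m ≠ .none := by
  rintro rfl
  apply h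
  cases l with
  | inn k =>
    cases k with
    | zero => exact absurd he List.not_mem_nil
    | succ k =>
      simp only [kids, chM, List.mem_map] at he
      obtain ⟨i, _, rfl⟩ := he
      simp [markAt]
  | out k =>
    cases k with
    | zero =>
      simp only [kids, List.mem_singleton] at he
      rw [he]
    | succ k =>
      simp only [kids, chM, List.mem_map] at he
      obtain ⟨i, _, rfl⟩ := he
      simp [markAt]
  | root =>
    simp only [kids, List.mem_singleton] at he
    rw [he]

/-- children have smaller levels -/
theorem kids_le {l : Lev} {m : Mark} {r : ℕ} {H : List ℕ} {N : ℕ} {e : Lev × Mark}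
    (he : e ∈ kids l m r H N) : e.1.le l ∧ e.1 ≠ .root := by
  cases l with
  | inn k =>
    cases k with
    | zero => exact absurd he List.not_mem_nil
    | succ k =>
      simp only [kids, List.mem_map] at he
      obtain ⟨i, _, rfl⟩ := he
      simp [Lev.le]
  | out k =>
    cases k with
    | zero =>
      unfold kids at he
      split at he <;> simp_all [Lev.le]
    | succ k =>
      simp only [kids, List.mem_map] at he
      obtain ⟨i, _, rfl⟩ := he
      simp [Lev.le]
  | root =>
    unfold kids at he
    split at he <;> simp_all [Lev.le]

/-- children of inner levels are inner -/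
theorem kids_inn {l : Lev} {m : Mark} {r : ℕ} {H : List ℕ} {N : ℕ} {e : Lev × Mark}
    (he : e ∈ kids l m r H N) (h : l.IsInn) : e.1.IsInn := by
  cases l with
  | inn k =>
    cases k with
    | zero => exact absurd he List.not_mem_nil
    | succ k =>
      simp only [kids, List.mem_map] at he
      obtain ⟨i, _, rfl⟩ := he
      trivial
  | out k => exact absurd h id
  | root => exact absurd h id

theorem kids_pairwise (l : Lev) (m : Mark) (r : ℕ) (H : List ℕ) (N : ℕ) :
    (kids l m r H N).Pairwise fun e f => e.1.le f.1 := by
  cases l with
  | inn k =>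
    cases k with
    | zero => exact List.Pairwise.nil
    | succ k =>
      simp only [kids]
      rw [List.pairwise_map]
      exact List.pairwise_of_forall (fun _ _ => le_refl k)
  | out k =>
    cases k with
    | zero =>
      unfold kids
      split <;> first | exact List.Pairwise.nil | exact List.pairwise_singleton _ _ | skip
      all_goals simp_all
    | succ k =>
      simp only [kids]
      rw [List.pairwise_map]
      exact List.pairwise_of_forall (fun _ _ => le_refl k)
  | root =>
    unfold kids
    split <;> first | exact List.Pairwise.nil | exact List.pairwise_singleton _ _ | skip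
    all_goals simp_all

/-- a marked child of an entry with many children: its height is given by a hidden number -/
theorem kids_height {l : Lev} {k : ℕ} (hl : l = .inn (k + 1) ∨ l = .out (k + 1)) {m : Mark}
    {r : ℕ} {H : List ℕ} {N : ℕ} {A B : List (Lev × Mark)} {e : Lev × Mark}
    (hk : kids l m r H N = A ++ e :: B) (he : e.2 ≠ .none) :
    ∃ i, i < need l m r ∧ i < H.length ∧ B.length + 1 = N - H.getD i 0 := by
  have hform : ∃ lv : Lev, kids l m r H N = (List.range N).map
      (fun i => (lv, markAt H (chM l m r) i)) ∧ need l m r = (chM l m r).length := by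
    rcases hl with rfl | rfl
    · exact ⟨.inn k, rfl, rfl⟩
    · exact ⟨.out k, rfl, rfl⟩
  obtain ⟨lv, hform, hneed⟩ := hform
  rw [hform] at hk
  have hlen : N = A.length + (B.length + 1) := by
    have := congrArg List.length hk
    rw [List.length_map, List.length_range, List.length_append, List.length_cons] at this
    exact this
  have hj : A.length < ((List.range N).map
      (fun i => (lv, markAt H (chM l m r) i))).length := by
    rw [List.length_map, List.length_range]
    omega
  have h1 : ((List.range N).map (fun i => (lv, markAt H (chM l m r) i)))[A.length]'hj = e := by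
    have h2 : ∀ (L : List (Lev × Mark)) (hL : L = A ++ e :: B) (h : A.length < L.length),
        L[A.length]'h = e := by
      intro L hL h
      subst hL
      rw [List.getElem_append_right (le_refl _)]
      simp
    exact h2 _ hk hj
  rw [List.getElem_map, List.getElem_range] at h1
  have h3 : markAt H (chM l m r) A.length ≠ .none := by
    rw [← h1] at he
    exact he
  obtain ⟨i, hi1, hi2, hi3⟩ := markAt_ne h3
  refine ⟨i, by rw [hneed]; exact hi1, hi2, ?_⟩
  rw [hi3]
  omega

end Pool.Agent.H90.Ord
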