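import Pool.Agent.H90.Ord.STPred
import Pool.Agent.H90.Ord.STCls

/-!
# `a` is complete (module STSA)

Induction on `Win` with `a.stk = []`: only `done`, `pickB`, `stepB` are possible (`a` is nonrunning and `pickA`
needs `a.stk ≠ []`).  For `pickB`: the content at `(a, b.pick n)` gives the content at `(a, b)` by the rules
of the automata (`T0`: phase 1 to 2 and phase 2 to 2; `XYI`: phase 2 to 3 and 3 to 3).  For `stepB`: `b` is
running, so `t1` and `xy2` are vacuous, and the step rules are `Same`.
-/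

set_option autoImplicit false

namespace Pool.Agent.H90.Ord

variable {red : List ℕ → List ℕ → Prop} {a b : St}

theorem sa_of_win (h : Win red a b) (ha : a.stk = []) : SA red a b := by
  induction h with
  | done ha' hb h =>
      exact
        { t2 := .done ha' hb h rfl
          t1 := fun _ h0 => absurd hb h0
          xy3 := .done ha' hb h rfl
          xy2 := fun _ h0 => absurd hb h0
          xz := .done ha' hb h trivial
          yz := .done ha' hb h rfl }
  | pickA n ha' hb h0 h ih => exact absurd ha h0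
  | pickB n ha' hb h0 hr h ih =>
      have i := ih ha
      exact
        { t2 := .pickB n ha' hb h0 hr (Or.inr (Or.inr ⟨rfl, rfl, rfl⟩)) i.t2
          t1 := fun _ _ => .pickB n ha' hb h0 hr (Or.inr (Or.inl ⟨rfl, rfl, ha, rfl⟩)) i.t2
          xy3 := .pickB n ha' hb h0 hr
            (Or.inr (Or.inr (Or.inr (Or.inr (Or.inr ⟨rfl, rfl, rfl⟩))))) i.xy3
          xy2 := fun _ _ => .pickB n ha' hb h0 hr
            (Or.inr (Or.inr (Or.inr (Or.inr (Or.inl ⟨rfl, rfl, ha, rfl⟩))))) i.xy3
          xz := .pickB n ha' hb h0 hr ⟨fun _ => ha, rfl⟩ i.xz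
          yz := .pickB n ha' hb h0 hr (Or.inr (Or.inr ⟨rfl, rfl⟩)) i.yz }
  | stepA T ha' hb hT h ih => exact absurd (Or.inl ha) ha'
  | stepB T ha' hb hT h ih =>
      exact
        { t2 := .stepB (fun _ => ⟨2, 0, 0, false⟩) T ha' hb ⟨Or.inr ⟨rfl, rfl⟩, rfl⟩ hT
            (fun l hl => (ih l hl ha).t2)
          t1 := fun h0 => absurd h0 hb
          xy3 := .stepB (fun _ => ⟨3, 0, 0, false⟩) T ha' hb
            (Or.inr (Or.inr (Or.inr ⟨rfl, rfl, rfl⟩))) hT (fun l hl => (ih l hl ha).xy3)
          xy2 := fun h0 => absurd h0 hb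
          xz := .stepB (fun _ => ⟨0, 0, 0, false⟩) T ha' hb ⟨fun _ => ha, rfl⟩ hT
            (fun l hl => (ih l hl ha).xz)
          yz := .stepB (fun _ => ⟨2, 0, 0, false⟩) T ha' hb (Or.inr ⟨rfl, rfl⟩) hT
            (fun l hl => (ih l hl ha).yz) }

end Pool.Agent.H90.Ord
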