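import Pool.Agent.H90.Ord.UNFin

/-!
# Chapter NEG-UN: `Pool.Agent.H90.Ord.unavoidable` is proved in `UNFin.lean`
-/
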