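import Pool.Agent.H90.Ord.EMA

/-!
# Nodes of the tree of increasing runs (module UNA)
-/

set_option autoImplicit false

namespace Pool.Agent.H90.Ord

/-- increasing numbers leading from `[root]` to the stack `s` -/
def NodeS (u : List ℕ) (s : List Lev) : Prop :=
  u.Pairwise (· < ·) ∧ runS [Lev.root] u = some s

/-- an incomplete increasing run -/
def Inc (u : List ℕ) : Prop := ∃ s, s ≠ [] ∧ NodeS u s

theorem nodeS_nil : NodeS [] [Lev.root] := ⟨List.Pairwise.nil, rfl⟩

theorem NodeS.uniq {u : List ℕ} {s s' : List Lev} (h : NodeS u s) (h' : NodeS u s') : s = s' := by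
  have := h.2.symm.trans h'.2
  exact Option.some.inj this

/-- one more number -/
theorem NodeS.snoc {u : List ℕ} {l : Lev} {t : List Lev} (h : NodeS u (l :: t)) {n : ℕ}
    (hn : ∀ c ∈ u, c < n) : NodeS (u ++ [n]) (kidsLev l n ++ t) := by
  refine ⟨?_, ?_⟩
  · rw [List.pairwise_append]
    refine ⟨h.1, List.pairwise_singleton _ _, ?_⟩
    intro a ha b hb
    rw [List.mem_singleton.1 hb]
    exact hn a ha
  · rw [runS_append, h.2]
    rfl

theorem NodeS.of_snoc {u : List ℕ} {n : ℕ} {s' : List Lev} (h : NodeS (u ++ [n]) s') :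
    ∃ l t, NodeS u (l :: t) ∧ s' = kidsLev l n ++ t ∧ ∀ c ∈ u, c < n := by
  obtain ⟨h1, h2⟩ := h
  rw [runS_append] at h2
  rw [List.pairwise_append] at h1
  rcases hs : runS [Lev.root] u with _ | s
  · rw [hs] at h2
    cases h2
  · rw [hs] at h2
    have h3 : runS s [n] = some s' := h2
    rcases s with _ | ⟨l, t⟩
    · cases h3
    · have h4 : some (kidsLev l n ++ t) = some s' := h3
      exact ⟨l, t, ⟨h1.1, hs⟩, (Option.some.inj h4).symm,
        fun c hc => h1.2.2 c hc n (List.mem_singleton.2 rfl)⟩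

theorem NodeS.pre {u w : List ℕ} {s : List Lev} (h : NodeS (u ++ w) s) :
    ∃ s', NodeS u s' ∧ runS s' w = some s := by
  obtain ⟨h1, h2⟩ := h
  rw [runS_append] at h2
  rcases hs : runS [Lev.root] u with _ | s'
  · rw [hs] at h2
    cases h2
  · rw [hs] at h2
    exact ⟨s', ⟨(List.pairwise_append.1 h1).1, hs⟩, h2⟩

/-- a number larger than given numbers -/
theorem exists_big (u : List ℕ) (m : ℕ) : ∃ n, m < n ∧ ∀ c ∈ u, c < n := by
  induction u with
  | nil => exact ⟨m + 1, Nat.lt_succ_self m, by simp⟩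
  | cons a u ih =>
      obtain ⟨n, h1, h2⟩ := ih
      refine ⟨n + a + 1, by omega, ?_⟩
      intro c hc
      rcases List.mem_cons.1 hc with rfl | hc
      · omega
      · have := h2 c hc
        omega

/-- leaves above a node, with large new numbers -/
theorem exists_leafS (s : List Lev) : ∀ (u : List ℕ) (m : ℕ), NodeS u s →
    ∃ w, NodeS (u ++ w) [] ∧ ∀ c ∈ w, m < c := by
  induction s using stkLt_wf.induction with
  | _ s ih =>
    intro u m hu
    rcases s with _ | ⟨l, t⟩
    · exact ⟨[], by rw [List.append_nil]; exact hu, by simp⟩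
    · obtain ⟨n, hn1, hn2⟩ := exists_big u m
      obtain ⟨w, hw1, hw2⟩ := ih (kidsLev l n ++ t) ⟨l, t, n, rfl, rfl⟩ (u ++ [n]) m (hu.snoc hn2)
      refine ⟨n :: w, ?_, ?_⟩
      · rw [List.append_assoc] at hw1
        exact hw1
      · intro c hc
        rcases List.mem_cons.1 hc with rfl | hc
        · exact hn1
        · exact hw2 c hc

/-- the leaf as a vertex -/
theorem exists_leaf {u : List ℕ} {s : List Lev} (hu : NodeS u s) (m : ℕ) :
    ∃ x : VI, ∃ w, x.1 = u ++ w ∧ ∀ c ∈ w, m < c := by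
  obtain ⟨w, h1, h2⟩ := exists_leafS s u m hu
  exact ⟨⟨u ++ w, h1.2, h1.1⟩, w, rfl, h2⟩

theorem nodeS_of_prefix (x : VI) {u : List ℕ} (h : u <+: x.1) : ∃ s, NodeS u s := by
  obtain ⟨w, hw⟩ := h
  have hx : NodeS (u ++ w) [] := by rw [hw]; exact ⟨x.2.2, x.2.1⟩
  obtain ⟨s, hs, _⟩ := hx.pre
  exact ⟨s, hs⟩

/-- a proper prefix of a vertex is an incomplete node -/
theorem inc_of_prefix (x : VI) {u : List ℕ} {k : ℕ} (h : u ++ [k] <+: x.1) : Inc u := by
  obtain ⟨s, hs⟩ := nodeS_of_prefix x h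
  obtain ⟨l, t, h1, _⟩ := hs.of_snoc
  exact ⟨l :: t, by simp, h1⟩

/-- a prefix of a vertex with empty stack is the vertex -/
theorem eq_of_complete (x : VI) {u : List ℕ} (h : u <+: x.1) (hu : NodeS u []) : u = x.1 := by
  obtain ⟨w, hw⟩ := h
  have hx : NodeS (u ++ w) [] := by rw [hw]; exact ⟨x.2.2, x.2.1⟩
  obtain ⟨s', h1, h2⟩ := hx.pre
  have := hu.uniq h1
  subst this
  rcases w with _ | ⟨a, w⟩
  · rw [List.append_nil] at hw
    exact hw
  · cases h2

/-- comparison of lists with a common prefix -/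
theorem lt_of_next {u : List ℕ} {a b : ℕ} {x y : List ℕ} (hx : u ++ [a] <+: x)
    (hy : u ++ [b] <+: y) (h : a < b) : x < y := by
  obtain ⟨w, rfl⟩ := hx
  obtain ⟨w', rfl⟩ := hy
  rw [List.append_assoc, List.append_assoc, append_lt_append_left]
  exact List.Lex.rel h

theorem next_le {u : List ℕ} {a b : ℕ} {x y : List ℕ} (hx : u ++ [a] <+: x)
    (hy : u ++ [b] <+: y) (h : x < y) : a ≤ b := by
  by_contra hc
  exact lt_asymm h (lt_of_next hy hx (not_le.1 hc))

end Pool.Agent.H90.Ord
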