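import Pool.Agent.H90.Ord.UNGn

/-!
# Nodes which are met generically (module UN-AW)

`aw_gn`, `aw_le` by induction on `Aw`.  `aw_ex`: `nd_ind`: if `¬ Aw s (¬ P) u` then `s < (stk u).length` (otherwise `done`).
If `P u` take `v = u`.  Otherwise it is not true that for almost all `n` `Aw s (¬ P) (u ++ [n])`, so for almost all `n` it is
false (ultrafilter, `Ultrafilter.eventually_not`); take such an `n` for which also `Gn s Q (u ++ [n])` (`gn_step`), the node is a node
(`nd_ev`, `ev_ge`) and its real prefix extends the one of `u` (`Rep.step`); use the induction hypothesis.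
-/

set_option autoImplicit false

namespace Pool.Agent.H90.Ord.UN

open Filter

variable {R : List ℕ → List ℕ} {s s' m : ℕ} {P P' Q Q' : List ℕ → Prop} {u v w : List ℕ}

theorem aw_true (hu : Nd u) (s : ℕ) : Aw s (fun _ => True) u := by
  refine nd_ind (P := fun u => Aw s (fun _ => True) u) ?_ u hu
  intro u hu ih
  by_cases hs : (stk u).length ≤ s
  · exact Aw.done u hs
  · have hs' : s < (stk u).length := not_le.1 hs
    have hne : stk u ≠ [] := by
      intro h0
      rw [h0] at hs'
      exact absurd hs' (Nat.not_lt_zero _)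
    obtain ⟨n0, hn0⟩ := nd_ev hu hne
    exact Aw.step u hs' trivial {n | n0 ≤ n} (ev_ge n0) (fun n hn => ih n (hn0 n hn))

theorem aw_le (h : Aw s P u) (hs : s ≤ s') : Aw s' P u := by
  induction h with
  | done u h => exact Aw.done u (h.trans hs)
  | step u h hP T hT _ ih =>
      by_cases h' : s' < (stk u).length
      · exact Aw.step u h' hP T hT ih
      · exact Aw.done u (not_lt.1 h')

theorem aw_gn (h : Aw s P u) (hs : s ≤ s') : Gn s' (Aw s P) u := by
  induction h with
  | done u h => exact Gn.done u (h.trans hs) (Aw.done u h)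
  | step u h hP T hT hQ ih =>
      by_cases h' : s' < (stk u).length
      · exact Gn.step u h' T hT ih
      · exact Gn.done u (not_lt.1 h') (Aw.step u h hP T hT hQ)

theorem aw_at (h : Aw s P u) (hs : s < (stk u).length) : P u := by
  cases h with
  | done _ h => omega
  | step _ _ hP _ _ _ => exact hP

theorem aw_step (h : Aw s P u) (hs : s < (stk u).length) :
    ∀ᶠ n in (hyperfilter ℕ : Filter ℕ), Aw s P (u ++ [n]) := by
  cases h with
  | done _ h => omega
  | step _ _ _ T hT h1 => exact Filter.mem_of_superset hT h1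

theorem aw_ex (hR : Rep R) (hu : Nd u) (h : ¬ Aw s (fun v => ¬ P v) u) (hQ : Gn s Q u) :
    ∃ v, Ext R u v ∧ s < (stk v).length ∧ P v ∧ Gn s Q v := by
  have key : ∀ u, Nd u → ¬ Aw s (fun v => ¬ P v) u → Gn s Q u →
      ∃ v, Ext R u v ∧ s < (stk v).length ∧ P v ∧ Gn s Q v := by
    intro u hu
    refine nd_ind (P := fun u => ¬ Aw s (fun v => ¬ P v) u → Gn s Q u →
      ∃ v, Ext R u v ∧ s < (stk v).length ∧ P v ∧ Gn s Q v) ?_ u hu
    intro u hu ih h hQ
    by_cases hs : (stk u).length ≤ s
    · exact absurd (Aw.done u hs) h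
    · have hs' : s < (stk u).length := not_le.1 hs
      by_cases hp : P u
      · exact ⟨u, Ext.refl hu, hs', hp, hQ⟩
      · have hne : stk u ≠ [] := by
          intro h0
          rw [h0] at hs'
          exact absurd hs' (Nat.not_lt_zero _)
        have hnev : ¬ ∀ᶠ n in (hyperfilter ℕ : Filter ℕ), Aw s (fun v => ¬ P v) (u ++ [n]) := by
          intro hev
          exact h (Aw.step u hs' hp {n | Aw s (fun v => ¬ P v) (u ++ [n])} hev (fun n hn => hn))
        have hev := Ultrafilter.eventually_not.2 hnev
        obtain ⟨n0, hn0⟩ := nd_ev hu hne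
        obtain ⟨n1, hn1⟩ := hR.step u hu hne 0
        obtain ⟨n, ha, hb, hc, hd⟩ :=
          (hev.and ((gn_step hQ hs').and ((ev_ge n0).and (ev_ge n1)))).exists
        have hnd := hn0 n hc
        obtain ⟨k, r, hk, _⟩ := hn1 n hd
        obtain ⟨v, hv1, hv2⟩ := ih n hnd ha hb
        exact ⟨v, Ext.trans ⟨hnd, by rw [hk]; exact List.prefix_append _ _⟩ hv1, hv2⟩
  exact key u hu h hQ

end Pool.Agent.H90.Ord.UN
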