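import Pool.Agent.H90.Ord.UNA

/-!
# The limit map (module UNB)

`Lim f u ρ`: the values of the leaves above `u ++ [n]` extend `ρ ++ [k]` with `k → ∞` for `n → ∞`.
Every incomplete node `u` has such a `ρ` (`exists_lim`); `R f u` is a choice.
-/

set_option autoImplicit false

namespace Pool.Agent.H90.Ord

/-- the next number after `ρ` in the values above `u ++ [n]` tends to infinity -/
def Lim (f : VI → VI) (u ρ : List ℕ) : Prop :=
  ∀ m, ∃ n0, ∀ n, n0 ≤ n → ∀ x : VI, u ++ [n] <+: x.1 → ∃ k, m ≤ k ∧ ρ ++ [k] <+: (f x).1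

/-- `ρ` is a prefix of all values above `u ++ [n]`, for large `n` -/
def Ev (f : VI → VI) (u ρ : List ℕ) : Prop :=
  ∃ n0, ∀ n, n0 ≤ n → ∀ x : VI, u ++ [n] <+: x.1 → ρ <+: (f x).1

theorem leaf_lt {u : List ℕ} {n n' : ℕ} (h : n < n') {x y : VI} (hx : u ++ [n] <+: x.1)
    (hy : u ++ [n'] <+: y.1) : x < y := lt_of_next hx hy h

theorem exists_above {u : List ℕ} {s : List Lev} (hs : s ≠ []) (hu : NodeS u s) {n : ℕ}
    (hn : ∀ c ∈ u, c < n) (m : ℕ) : ∃ x : VI, ∃ w, x.1 = (u ++ [n]) ++ w ∧ ∀ c ∈ w, m < c := by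
  rcases s with _ | ⟨l, t⟩
  · exact absurd rfl hs
  · exact exists_leaf (hu.snoc hn) m

theorem exists_above' {u : List ℕ} (hu : Inc u) {n : ℕ} (hn : ∀ c ∈ u, c < n) :
    ∃ x : VI, u ++ [n] <+: x.1 := by
  obtain ⟨s, hs, h⟩ := hu
  obtain ⟨x, w, hx, _⟩ := exists_above hs h hn 0
  exact ⟨x, ⟨w, hx.symm⟩⟩

theorem exists_lim_aux {f : VI → VI} (hf : StrictMono f) {u : List ℕ} (hu : Inc u)
    (σ : List Lev) : ∀ ρ, NodeS ρ σ → Ev f u ρ → ∃ ρ', Lim f u ρ' := by
  induction σ using stkLt_wf.induction with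
  | _ σ ih =>
    intro ρ hρ hev
    by_cases hL : Lim f u ρ
    · exact ⟨ρ, hL⟩
    · obtain ⟨n0, hn0⟩ := hev
      obtain ⟨N, _, hN⟩ := exists_big u n0
      have hN0 : n0 ≤ N := by
        obtain ⟨N', h1, h2⟩ := exists_big u n0
        omega
      -- the next number
      have hnext : ∀ n, n0 ≤ n → ∀ x : VI, u ++ [n] <+: x.1 → ∃ k, ρ ++ [k] <+: (f x).1 := by
        intro n hn x hx
        obtain ⟨w, hw⟩ := hn0 n hn x hx
        rcases w with _ | ⟨k, w⟩
        · exfalso
          rw [List.append_nil] at hw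
          -- `ρ = f x` is complete
          have hc : ∀ c ∈ u, c < n := by
            obtain ⟨s, hs⟩ := nodeS_of_prefix x hx
            obtain ⟨_, _, _, _, h⟩ := hs.of_snoc
            exact h
          obtain ⟨y, hy⟩ := exists_above' hu (n := n + 1) (fun c hc' => by have := hc c hc'; omega)
          have h1 : ρ <+: (f y).1 := hn0 (n + 1) (by omega) y hy
          have h2 : NodeS ρ [] := by
            rw [hw]
            exact ⟨(f x).2.2, (f x).2.1⟩
          have h3 : ρ = (f y).1 := eq_of_complete _ h1 h2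
          have h4 : f x = f y := Subtype.ext (by rw [← hw, ← h3])
          have h5 : x < y := leaf_lt (Nat.lt_succ_self n) hx hy
          have h6 := hf h5
          rw [h4] at h6
          exact lt_irrefl _ h6
        · exact ⟨k, ⟨w, by rw [← hw]; simp⟩⟩
      -- bounded
      unfold Lim at hL
      push Not at hL
      obtain ⟨m, hm⟩ := hL
      have hbd : ∀ n, n0 ≤ n → ∀ x : VI, u ++ [n] <+: x.1 → ∀ k, ρ ++ [k] <+: (f x).1 → k < m := by
        intro n hn x hx k hk
        obtain ⟨n', hn', y, hy, hyk⟩ := hm (n + 1)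
        obtain ⟨k', hk'⟩ := hnext n' (by omega) y hy
        have h1 : k' < m := by
          by_contra hc
          exact hyk k' (by omega) hk'
        have h2 : k ≤ k' := next_le hk hk' (hf (leaf_lt (by omega) hx hy))
        omega
      -- chosen leaves
      have hch : ∀ j : ℕ, ∃ k, ∃ x : VI, u ++ [N + j] <+: x.1 ∧ ρ ++ [k] <+: (f x).1 := by
        intro j
        obtain ⟨x, hx⟩ := exists_above' hu (n := N + j) (fun c hc => by have := hN c hc; omega)
        obtain ⟨k, hk⟩ := hnext (N + j) (by omega) x hx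
        exact ⟨k, x, hx, hk⟩
      choose K X hX1 hX2 using hch
      have hmono : ∀ i j, i < j → K i ≤ K j := by
        intro i j hij
        exact next_le (hX2 i) (hX2 j) (hf (leaf_lt (by omega) (hX1 i) (hX1 j)))
      have hKb : ∀ j, K j < m := fun j => hbd (N + j) (by omega) (X j) (hX1 j) (K j) (hX2 j)
      -- eventually constant
      obtain ⟨j0, hj0⟩ : ∃ j0, ∀ j, j0 ≤ j → K j = K j0 := by
        have hmax : ∃ j0, ∀ j, K j ≤ K j0 := by
          by_contra hcon
          push Not at hcon
          have hgrow : ∀ a : ℕ, ∃ j, a ≤ K j := by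
            intro a
            induction a with
            | zero => exact ⟨0, Nat.zero_le _⟩
            | succ a ih =>
                obtain ⟨j, hj⟩ := ih
                obtain ⟨j', hj'⟩ := hcon j
                exact ⟨j', by omega⟩
          obtain ⟨j, hj⟩ := hgrow m
          have := hKb j
          omega
        obtain ⟨j0, hj0⟩ := hmax
        refine ⟨j0, fun j hj => ?_⟩
        rcases Nat.eq_or_lt_of_le hj with rfl | hj
        · rfl
        · exact le_antisymm (hj0 j) (hmono j0 j hj)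
      have hev' : Ev f u (ρ ++ [K j0]) := by
        refine ⟨N + j0 + 1, fun n hn x hx => ?_⟩
        obtain ⟨k, hk⟩ := hnext n (by omega) x hx
        have h1 : K j0 ≤ k := next_le (hX2 j0) hk (hf (leaf_lt (by omega) (hX1 j0) hx))
        have h2 : k ≤ K (n - N + 1) :=
          next_le hk (hX2 (n - N + 1)) (hf (leaf_lt (by omega) hx (hX1 (n - N + 1))))
        have h3 := hj0 (n - N + 1) (by omega)
        have h4 : k = K j0 := by omega
        rw [← h4]
        exact hk
      obtain ⟨x, hx⟩ := exists_above' hu (n := N + j0 + 1)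
        (fun c hc => by have := hN c hc; omega)
      have hnode : ρ ++ [K j0] <+: (f x).1 := by
        obtain ⟨k, hk⟩ := hnext _ (by omega) x hx
        have h1 : K j0 ≤ k := next_le (hX2 j0) hk (hf (leaf_lt (by omega) (hX1 j0) hx))
        have h2 : k ≤ K (j0 + 2) :=
          next_le hk (hX2 (j0 + 2)) (hf (leaf_lt (by omega) hx (hX1 (j0 + 2))))
        have h3 := hj0 (j0 + 2) (by omega)
        have h4 : k = K j0 := by omega
        rw [← h4]
        exact hk
      obtain ⟨σ', hσ'⟩ := nodeS_of_prefix (f x) hnode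
      obtain ⟨l, t, h1, h2, _⟩ := hσ'.of_snoc
      have h3 : σ = l :: t := hρ.uniq h1
      exact ih σ' ⟨l, t, K j0, h3, h2⟩ _ hσ' hev'

theorem exists_lim {f : VI → VI} (hf : StrictMono f) {u : List ℕ} (hu : Inc u) :
    ∃ ρ, Lim f u ρ :=
  exists_lim_aux hf hu _ [] nodeS_nil ⟨0, fun _ _ _ _ => List.nil_prefix⟩

open Classical in
/-- the limit value: `f u` for leaves, a limit prefix for incomplete nodes -/
noncomputable def R (f : VI → VI) (u : List ℕ) : List ℕ :=
  if h : runS [Lev.root] u = some [] ∧ u.Pairwise (· < ·) then (f ⟨u, h⟩).1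
  else if h : ∃ ρ, Lim f u ρ then Classical.choose h else []

theorem R_leaf (f : VI → VI) (x : VI) : R f x.1 = (f x).1 := by
  unfold R
  rw [dif_pos x.2]

theorem R_leaf' (f : VI → VI) {u : List ℕ} (h : NodeS u []) : R f u = (f ⟨u, h.2, h.1⟩).1 := by
  unfold R
  rw [dif_pos ⟨h.2, h.1⟩]

theorem R_lim {f : VI → VI} (hf : StrictMono f) {u : List ℕ} (hu : Inc u) : Lim f u (R f u) := by
  have h1 : ¬ (runS [Lev.root] u = some [] ∧ u.Pairwise (· < ·)) := by
    rintro ⟨h, h'⟩
    obtain ⟨s, hs, hn⟩ := hu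
    exact hs (hn.uniq ⟨h', h⟩)
  have h2 : ∃ ρ, Lim f u ρ := exists_lim hf hu
  unfold R
  rw [dif_neg h1, dif_pos h2]
  exact Classical.choose_spec h2

/-- the value of a large child extends the value of the node by a large number -/
theorem R_ext {f : VI → VI} (hf : StrictMono f) {u : List ℕ} (hu : Inc u) (m : ℕ) :
    ∃ n0, ∀ n, n0 ≤ n → (∀ c ∈ u, c < n) →
      (∃ k, m ≤ k ∧ R f u ++ [k] <+: R f (u ++ [n])) := by
  obtain ⟨n0, hn0⟩ := R_lim hf hu m
  refine ⟨n0, fun n hn hcn => ?_⟩
  obtain ⟨s, hs, hnode⟩ := hu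
  rcases s with _ | ⟨l, t⟩
  · exact absurd rfl hs
  have hnode' := hnode.snoc hcn
  rcases hs' : kidsLev l n ++ t with _ | ⟨l', t'⟩
  · -- a leaf
    rw [hs'] at hnode'
    rw [R_leaf' f hnode']
    exact hn0 n hn ⟨u ++ [n], hnode'.2, hnode'.1⟩ (List.prefix_refl _)
  · rw [hs'] at hnode'
    have hinc : Inc (u ++ [n]) := ⟨_, by simp, hnode'⟩
    -- a leaf above `u ++ [n + 1]`
    obtain ⟨y, hy⟩ := exists_above' ⟨_, hs, hnode⟩ (n := n + 1)
      (fun c hc => by have := hcn c hc; omega)
    obtain ⟨ky, _, hky⟩ := hn0 (n + 1) (by omega) y hy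
    -- a leaf above `u ++ [n]`, far out
    obtain ⟨n1, hn1⟩ := R_lim hf hinc (ky + 1 + (R f u).sum)
    obtain ⟨n2, hn2, hn2'⟩ := exists_big (u ++ [n]) n1
    obtain ⟨x, hx⟩ := exists_above' hinc hn2'
    obtain ⟨k', hk', hkx'⟩ := hn1 n2 (by omega) x hx
    have hx' : u ++ [n] <+: x.1 := (List.prefix_append _ _).trans hx
    obtain ⟨k, hk, hkx⟩ := hn0 n hn x hx'
    refine ⟨k, hk, ?_⟩
    rcases Nat.lt_or_ge (R f u).length (R f (u ++ [n])).length with hlen | hlen
    · exact List.prefix_of_prefix_length_le hkx ((List.prefix_append _ _).trans hkx')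
        (by simpa using hlen)
    · exfalso
      rcases Nat.eq_or_lt_of_le hlen with hlen | hlen
      · -- the same prefix, the next number is bounded by that of `y`
        have he : R f (u ++ [n]) = R f u := by
          have h1 : R f (u ++ [n]) <+: (f x).1 := (List.prefix_append _ _).trans hkx'
          have h2 : R f u <+: (f x).1 := (List.prefix_append _ _).trans hkx
          exact (List.prefix_of_prefix_length_le h1 h2 (le_of_eq hlen)).eq_of_length hlen
        rw [he] at hkx'
        have h3 : k' ≤ ky := next_le hkx' hky (hf (leaf_lt (Nat.lt_succ_self n) hx' hy))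
        omega
      · -- the next number is a member of `R f u`
        have h1 : R f (u ++ [n]) ++ [k'] <+: R f u := by
          refine List.prefix_of_prefix_length_le hkx' ((List.prefix_append _ _).trans hkx) ?_
          simpa using hlen
        have h2 : k' ∈ R f u := h1.subset (by simp)
        have h3 : k' ≤ (R f u).sum := List.le_sum_of_mem h2
        omega

/-- the value is an incomplete node for incomplete nodes -/
theorem R_inc {f : VI → VI} (hf : StrictMono f) {u : List ℕ} (hu : Inc u) : Inc (R f u) := by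
  obtain ⟨n0, hn0⟩ := R_lim hf hu 0
  obtain ⟨n, hn, hn'⟩ := exists_big u n0
  obtain ⟨x, hx⟩ := exists_above' hu hn'
  obtain ⟨k, _, hk⟩ := hn0 n (by omega) x hx
  exact inc_of_prefix _ hk

end Pool.Agent.H90.Ord
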