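import Pool.Agent.H90.Ord.UNStp

/-!
# Processing an entry of level `l` removes a real level at least `l` (module UN-C)

`claimC`: for `inn k` by induction on `k`: `inn 0`: reading one number (`gn_of_step`, then the stack is `t`, `Gn.done`) removes
something (`Rep.step`, `rl_length`), every level is at least `inn 0`; `inn (k+1)`: `cstep` with `P = True` (`aw_true`).  Then `out 0`: let `M` be
as in `inn_max (stk (R u))`; for `n > M` let `w = u ++ [n]`, `stk w = inn n :: t`, so generically there is `l' ≥ inn n` in
`rl (R w) (R v)`; if all levels in `rl (R u) (R v)` were inner, then `l' ≤ inn M` (`inn_bound`); so there is an outer one (which is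
`≥ out 0`; a level which is not inner is at least `out 0`).  `out (k+1)`: `cstep`.

`R_nil`: if `R [] = N0 :: r` take `n > N0` large, `stk [n] = [out n]`; by `claimC` and `gn_ex'` with `s = 0` there is `v` with a level
`≥ out n` in `rl (R [n]) (R v)`; but `R [n]` begins with `N0`, so by `head_bound` it is `≤ out N0`.
-/

set_option autoImplicit false

namespace Pool.Agent.H90.Ord.UN

open Filter

variable {R : List ℕ → List ℕ}

private theorem inn0_le (l : Lev) : (Lev.inn 0).le l := by
  cases l with
  | inn k => exact Nat.zero_le _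
  | out k => trivial
  | root => trivial

private theorem out0_le {l : Lev} (h : ¬ l.IsInn) : (Lev.out 0).le l := by
  cases l with
  | inn k => exact absurd trivial h
  | out k => exact Nat.zero_le _
  | root => trivial

private theorem inn_le_inn {n M : ℕ} {l : Lev} (h : (Lev.inn n).le l) (h' : l.le (.inn M)) :
    n ≤ M := by
  cases l with
  | inn k => exact le_trans h h'
  | out k => exact absurd h' id
  | root => exact absurd h' id

private theorem out_le_out {n M : ℕ} {l : Lev} (h : (Lev.out n).le l) (h' : l.le (.out M)) :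
    n ≤ M := by
  cases l with
  | inn k => exact absurd h id
  | out k => exact le_trans h h'
  | root => exact absurd h' id

private theorem out_not_inn {n : ℕ} {l : Lev} (h : (Lev.out n).le l) : ¬ l.IsInn := by
  cases l with
  | inn k => exact absurd h id
  | out k => exact id
  | root => exact id

private theorem clC_inn (hR : Rep R) (k : ℕ) : ∀ (u : List ℕ) (t : List Lev), Nd u →
    stk u = .inn k :: t → Gn t.length (fun v => ∃ l' ∈ rl (R u) (R v), (Lev.inn k).le l') u := by
  induction k with
  | zero =>
    intro u t hu hs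
    have hne : stk u ≠ [] := by rw [hs]; exact List.cons_ne_nil _ _
    obtain ⟨n1, hn1⟩ := nd_ev hu hne
    obtain ⟨n0, hn0⟩ := hR.step u hu hne 0
    refine gn_of_step (by rw [hs]; simp) ?_
    filter_upwards [ev_ge n0, ev_ge n1] with n hna hnb
    have hnd := hn1 n hnb
    obtain ⟨k, r, hk, -⟩ := hn0 n hna
    have hst : stk (u ++ [n]) = t := stk_snoc hu hs n
    refine Gn.done _ (by rw [hst]) ?_
    have hnR := hR.nd _ hnd
    rw [hk] at hnR
    have hlen := rl_length hnR
    rw [hk]
    have hpos : 0 < (rl (R u) (R u ++ k :: r)).length := by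
      rw [hlen]
      simp
    obtain ⟨a, ha⟩ := List.exists_mem_of_length_pos hpos
    exact ⟨a, ha, inn0_le a⟩
  | succ k ih =>
    intro u t hu hs
    exact cstep hR (fun _ => True) (.inn k) (.inn (k + 1)) (.inn k) (fun n => rfl) (by simp)
      (fun w t' hw hs' _ => ih w t' hw hs') u t hu hs (aw_true hu _)

private theorem clC_out (hR : Rep R) (k : ℕ) : ∀ (u : List ℕ) (t : List Lev), Nd u →
    stk u = .out k :: t → Gn t.length (fun v => ∃ l' ∈ rl (R u) (R v), (Lev.out k).le l') u := by
  induction k with
  | zero =>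
    intro u t hu hs
    have hne : stk u ≠ [] := by rw [hs]; exact List.cons_ne_nil _ _
    obtain ⟨n1, hn1⟩ := nd_ev hu hne
    obtain ⟨n0, hn0⟩ := hR.step u hu hne 0
    obtain ⟨M, hM⟩ := inn_max (stk (R u))
    refine gn_of_step (by rw [hs]; simp) ?_
    filter_upwards [ev_ge n0, ev_ge n1, ev_ge (M + 1)] with n hna hnb hnc
    have hnd := hn1 n hnb
    obtain ⟨k, r, hk, -⟩ := hn0 n hna
    have hst : stk (u ++ [n]) = .inn n :: t := stk_snoc hu hs n
    refine gn_mono (gn_ext hR hnd (clC_inn hR n (u ++ [n]) t hnd hst)) ?_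
    rintro v ⟨⟨hv, hext⟩, l', hl', hle⟩
    have hnv := hR.nd v hv
    have hp1 : R u <+: R (u ++ [n]) := by rw [hk]; exact List.prefix_append _ _
    have htr := rl_trans hnv hp1 hext
    by_contra hcon
    push Not at hcon
    have hinn : ∀ l ∈ rl (R u) (R v), l.IsInn := by
      intro l hl
      by_contra h
      exact hcon l hl (out0_le h)
    have hb := inn_bound hnv (hp1.trans hext) hinn hM l' (by
      rw [htr]
      exact List.mem_append_right _ hl')
    have := inn_le_inn hle hb
    omega
  | succ k ih =>
    intro u t hu hs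
    exact cstep hR (fun _ => True) (.out k) (.out (k + 1)) (.out k) (fun n => rfl) (by simp)
      (fun w t' hw hs' _ => ih w t' hw hs') u t hu hs (aw_true hu _)

theorem claimC (hR : Rep R) (l : Lev) (hl : l ≠ .root) (u : List ℕ) (t : List Lev) (hu : Nd u)
    (hs : stk u = l :: t) : Gn t.length (fun v => ∃ l' ∈ rl (R u) (R v), l.le l') u := by
  cases l with
  | inn k => exact clC_inn hR k u t hu hs
  | out k => exact clC_out hR k u t hu hs
  | root => exact absurd rfl hl

theorem R_nil (hR : Rep R) : R [] = [] := by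
  by_contra hne
  obtain ⟨N0, r, hN⟩ := List.exists_cons_of_ne_nil hne
  have hs0 : stk ([] : List ℕ) ≠ [] := by rw [stk_nil]; exact List.cons_ne_nil _ _
  obtain ⟨n1, hn1⟩ := nd_ev nd_nil hs0
  obtain ⟨n0, hn0⟩ := hR.step [] nd_nil hs0 0
  obtain ⟨n, hn⟩ : ∃ n, n = n0 + n1 + N0 + 1 := ⟨_, rfl⟩
  have hnd := hn1 n (by omega)
  obtain ⟨k, r', hk, -⟩ := hn0 n (by omega)
  have hst : stk ([] ++ [n]) = [.out n] := stk_snoc nd_nil stk_nil n
  have hg := claimC hR (.out n) (by simp) _ [] hnd hst
  obtain ⟨v, ⟨hv, hext⟩, -, -, l', hl', hle⟩ :=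
    gn_ex' hR hnd (s := 0) (Nat.zero_le _) hg
  have hRw : R ([] ++ [n]) = N0 :: (r ++ k :: r') := by
    rw [hk, hN]
    rfl
  rw [hRw] at hext hl'
  have hb := head_bound (hR.nd v hv) hext l' hl'
  have := out_le_out hle hb
  omega

/-- processing an outer entry removes an outer level -/
theorem claimO (hR : Rep R) (k : ℕ) (u : List ℕ) (t : List Lev) (hu : Nd u)
    (hs : stk u = .out k :: t) : Gn t.length (fun v => ∃ l' ∈ rl (R u) (R v), ¬ l'.IsInn) u := by
  refine gn_mono (claimC hR (.out k) (by simp) u t hu hs) ?_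
  rintro v ⟨l', hl', hle⟩
  exact ⟨l', hl', out_not_inn hle⟩

end Pool.Agent.H90.Ord.UN
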