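import Pool.Agent.H90.Ord.K4Defs
import Pool.Agent.H90.Ord.WF

/-!
# Chapter NEG-UN (section 3.3 of proofs 343): definitions

`f : VI → VI` is strictly monotone.  A node is an increasing run `u` from the stack `[root]`, complete or
not (`Nd u`), `stk u` is its stack.  Every node has a real prefix `rp f u` (`Lim`); the rest of the chapter
uses only the properties `Rep` of the function `rp f`.
-/

set_option autoImplicit false

namespace Pool.Agent.H90.Ord.UN

open Filter

/-- the stack after the numbers `u` have been read from the stack `[root]` -/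
def stk (u : List ℕ) : List Lev := (runS [Lev.root] u).getD []

/-- increasing runs from the root, complete or not -/
def Nd (u : List ℕ) : Prop := (∃ s, runS [Lev.root] u = some s) ∧ u.Pairwise (· < ·)

/-- for `n → ∞` the values of `f` above `u ++ [n]` are `ρ ++ k :: _` with `k → ∞` -/
def Lim (f : VI → VI) (u ρ : List ℕ) : Prop :=
  ∀ m, ∃ n0, ∀ n, n0 ≤ n → ∀ x : VI, u ++ [n] <+: x.1 → ∃ k r, (f x).1 = ρ ++ k :: r ∧ m ≤ k

open Classical in
/-- the real prefix of the node `u` -/
noncomputable def rp (f : VI → VI) (u : List ℕ) : List ℕ :=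
  if h : runS [Lev.root] u = some [] ∧ u.Pairwise (· < ·) then (f ⟨u, h⟩).1
  else if h : ∃ ρ, Lim f u ρ then h.choose else []

/-- what is used about real prefixes -/
structure Rep (R : List ℕ → List ℕ) : Prop where
  nd : ∀ u, Nd u → Nd (R u)
  step : ∀ u, Nd u → stk u ≠ [] → ∀ m, ∃ n0, ∀ n, n0 ≤ n → ∃ k r, R (u ++ [n]) = R u ++ k :: r ∧ m ≤ k

/-- the real levels removed between `ρ` and `ρ'` -/
def rl (ρ ρ' : List ℕ) : List Lev := (lvls [Lev.root] ρ').drop ρ.length

/-- `u'` is a node with a longer (or equal) real prefix -/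
def Ext (R : List ℕ → List ℕ) (u u' : List ℕ) : Prop := Nd u' ∧ R u <+: R u'

/-- `u'` is a node whose real prefix is longer, the first new number is at least `m` -/
def Adv (R : List ℕ → List ℕ) (m : ℕ) (u u' : List ℕ) : Prop :=
  Nd u' ∧ ∃ k r, R u' = R u ++ k :: r ∧ m ≤ k

/-- generically (`hyperfilter ℕ`), when the stack above `u` has at most `s` entries, `Q` holds -/
inductive Gn (s : ℕ) (Q : List ℕ → Prop) : List ℕ → Prop
  | done (u : List ℕ) (h : (stk u).length ≤ s) (hQ : Q u) : Gn s Q u
  | step (u : List ℕ) (h : s < (stk u).length) (T : Set ℕ) (hT : T ∈ hyperfilter ℕ)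
      (hQ : ∀ n ∈ T, Gn s Q (u ++ [n])) : Gn s Q u

/-- all nodes which are met generically above `u`, as long as the stack has more than `s` entries, have
the property `P` -/
inductive Aw (s : ℕ) (P : List ℕ → Prop) : List ℕ → Prop
  | done (u : List ℕ) (h : (stk u).length ≤ s) : Aw s P u
  | step (u : List ℕ) (h : s < (stk u).length) (hP : P u) (T : Set ℕ) (hT : T ∈ hyperfilter ℕ)
      (hQ : ∀ n ∈ T, Aw s P (u ++ [n])) : Aw s P u

/-- `k` generic moves from `u` remove only inner real levels, and the stack is not empty after them -/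
def Inn (R : List ℕ → List ℕ) : ℕ → List ℕ → Prop
  | 0, u => stk u ≠ []
  | k + 1, u => stk u ≠ [] ∧
      ∀ᶠ n in (hyperfilter ℕ : Filter ℕ), (∀ l ∈ rl (R u) (R (u ++ [n])), l.IsInn) ∧ Inn R k (u ++ [n])

/-- `k + 1` for `out k`, otherwise `0` -/
def oc : Lev → ℕ
  | .out k => k + 1
  | _ => 0

/-- the maximal outer level plus one, `0` if all levels are inner -/
def ofl (L : List Lev) : ℕ := (L.map oc).foldr max 0

/-- the generic flags (`ofl`) of the next copies are the elements of the list, after them `Q` holds -/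
def Sq (R : List ℕ → List ℕ) (Q : List ℕ → Prop) : List ℕ → List ℕ → Prop
  | [], u => Q u
  | F :: Fs, u => Gn ((stk u).length - 1) (fun v => ofl (rl (R u) (R v)) = F ∧ Sq R Q Fs v) u

/-- the level plus one -/
def suc : Lev → Lev
  | .inn k => .inn (k + 1)
  | .out k => .out (k + 1)
  | .root => .root

/-- the maximal level is `out A` -/
def MaxO (L : List Lev) (A : ℕ) : Prop :=
  (∃ l ∈ L, l = .out A) ∧ ∀ l ∈ L, l.IsInn ∨ ∃ j ≤ A, l = .out j

end Pool.Agent.H90.Ord.UN
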