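import Pool.Agent.H90.Ord.UNLv

/-!
# The pattern (module UN-PT)

`tagged_append` several times (`Nd.pre` for the shorter lists); the blocks are `X1 = tagged r1`, `X3 = d3.zip (rl r1 (r1 ++ d3))` and so on.  `rl_length`: the lists which are zipped have the same
length, so a block is empty only if the list of numbers is; first components of elements of a block are in the list of numbers
(`List.of_mem_zip`), the second components are the levels.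
-/

set_option autoImplicit false

namespace Pool.Agent.H90.Ord.UN

theorem zip_ne_nil {d : List ℕ} {L : List Lev} (hL : L.length = d.length) (hd : d ≠ []) :
    d.zip L ≠ [] := by
  intro h
  apply hd
  have h2 := congrArg List.length h
  rw [List.length_zip, hL, min_self] at h2
  exact List.length_eq_zero_iff.1 h2

theorem before_zip {d e : List ℕ} {L M : List Lev} (h : ∀ a ∈ d, ∀ c ∈ e, a < c) :
    Before (d.zip L) (e.zip M) := fun _ hp _ hq =>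
  h _ (List.of_mem_zip hp).1 _ (List.of_mem_zip hq).1

theorem inner_zip {d : List ℕ} {L : List Lev} (h : ∀ l ∈ L, l.IsInn) : InnerB (d.zip L) :=
  fun _ hp => h _ (List.of_mem_zip hp).2

theorem maxOut_zip {d : List ℕ} {L : List Lev} {A : ℕ} (hL : L.length = d.length)
    (h : MaxO L A) : MaxOut (d.zip L) A := by
  obtain ⟨⟨l, hl, e⟩, h2⟩ := h
  refine ⟨?_, fun p hp => h2 _ (List.of_mem_zip hp).2⟩
  have hm : l ∈ (d.zip L).map Prod.snd := by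
    rw [List.map_snd_zip hL.le]
    exact hl
  obtain ⟨p, hp, hpl⟩ := List.mem_map.1 hm
  exact ⟨p, hp, hpl.trans e⟩

theorem tagged_len {r : List ℕ} (h : Nd r) : (lvls [Lev.root] r).length = r.length :=
  lvls_length h.run

theorem pat_of {r1 d3 d5 d7 d9 d11 d13 r2 e4 e6 e8 e10 e12 : List ℕ}
    (hx : Nd (r1 ++ d3 ++ d5 ++ d7 ++ d9 ++ d11 ++ d13))
    (hy : Nd (r2 ++ e4 ++ e6 ++ e8 ++ e10 ++ e12))
    (n1 : r1 ≠ []) (n3 : d3 ≠ []) (n5 : d5 ≠ []) (n7 : d7 ≠ []) (n9 : d9 ≠ []) (n11 : d11 ≠ [])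
    (n13 : d13 ≠ []) (n2 : r2 ≠ []) (n4 : e4 ≠ []) (n6 : e6 ≠ []) (n8 : e8 ≠ []) (n10 : e10 ≠ [])
    (n12 : e12 ≠ [])
    (b1 : ∀ a ∈ r1, ∀ c ∈ r2, a < c) (b2 : ∀ a ∈ r2, ∀ c ∈ d3, a < c)
    (b3 : ∀ a ∈ d3, ∀ c ∈ e4, a < c) (b4 : ∀ a ∈ e4, ∀ c ∈ d5, a < c)
    (b5 : ∀ a ∈ d5, ∀ c ∈ e6, a < c) (b6 : ∀ a ∈ e6, ∀ c ∈ d7, a < c)
    (b7 : ∀ a ∈ d7, ∀ c ∈ e8, a < c) (b8 : ∀ a ∈ e8, ∀ c ∈ d9, a < c)
    (b9 : ∀ a ∈ d9, ∀ c ∈ e10, a < c) (b10 : ∀ a ∈ e10, ∀ c ∈ d11, a < c)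
    (b11 : ∀ a ∈ d11, ∀ c ∈ e12, a < c) (b12 : ∀ a ∈ e12, ∀ c ∈ d13, a < c)
    (i3 : ∀ l ∈ rl r1 (r1 ++ d3), l.IsInn)
    (i11 : ∀ l ∈ rl (r1 ++ d3 ++ d5 ++ d7 ++ d9) (r1 ++ d3 ++ d5 ++ d7 ++ d9 ++ d11), l.IsInn)
    (i4 : ∀ l ∈ rl r2 (r2 ++ e4), l.IsInn) (i6 : ∀ l ∈ rl (r2 ++ e4) (r2 ++ e4 ++ e6), l.IsInn)
    (i8 : ∀ l ∈ rl (r2 ++ e4 ++ e6) (r2 ++ e4 ++ e6 ++ e8), l.IsInn)
    (i10 : ∀ l ∈ rl (r2 ++ e4 ++ e6 ++ e8) (r2 ++ e4 ++ e6 ++ e8 ++ e10), l.IsInn)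
    {A B : ℕ} (hAB : A < B) (m5 : MaxO (rl (r1 ++ d3) (r1 ++ d3 ++ d5)) A)
    (m7 : MaxO (rl (r1 ++ d3 ++ d5) (r1 ++ d3 ++ d5 ++ d7)) B)
    (m9 : MaxO (rl (r1 ++ d3 ++ d5 ++ d7) (r1 ++ d3 ++ d5 ++ d7 ++ d9)) B) :
    Pat (tagged (r1 ++ d3 ++ d5 ++ d7 ++ d9 ++ d11 ++ d13))
      (tagged (r2 ++ e4 ++ e6 ++ e8 ++ e10 ++ e12)) := by
  have x11 := hx.pre
  have x9 := x11.pre
  have x7 := x9.pre
  have x5 := x7.pre
  have x3 := x5.pre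
  have x1 := x3.pre
  have y10 := hy.pre
  have y8 := y10.pre
  have y6 := y8.pre
  have y4 := y6.pre
  have y2 := y4.pre
  refine ⟨tagged r1, d3.zip (rl r1 (r1 ++ d3)), d5.zip (rl (r1 ++ d3) (r1 ++ d3 ++ d5)),
    d7.zip (rl (r1 ++ d3 ++ d5) (r1 ++ d3 ++ d5 ++ d7)),
    d9.zip (rl (r1 ++ d3 ++ d5 ++ d7) (r1 ++ d3 ++ d5 ++ d7 ++ d9)),
    d11.zip (rl (r1 ++ d3 ++ d5 ++ d7 ++ d9) (r1 ++ d3 ++ d5 ++ d7 ++ d9 ++ d11)),
    d13.zip (rl (r1 ++ d3 ++ d5 ++ d7 ++ d9 ++ d11) (r1 ++ d3 ++ d5 ++ d7 ++ d9 ++ d11 ++ d13)),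
    tagged r2, e4.zip (rl r2 (r2 ++ e4)), e6.zip (rl (r2 ++ e4) (r2 ++ e4 ++ e6)),
    e8.zip (rl (r2 ++ e4 ++ e6) (r2 ++ e4 ++ e6 ++ e8)),
    e10.zip (rl (r2 ++ e4 ++ e6 ++ e8) (r2 ++ e4 ++ e6 ++ e8 ++ e10)),
    e12.zip (rl (r2 ++ e4 ++ e6 ++ e8 ++ e10) (r2 ++ e4 ++ e6 ++ e8 ++ e10 ++ e12)),
    ?_, ?_, ⟨zip_ne_nil (tagged_len x1) n1, zip_ne_nil (rl_length x3) n3,
      zip_ne_nil (rl_length x5) n5, zip_ne_nil (rl_length x7) n7, zip_ne_nil (rl_length x9) n9,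
      zip_ne_nil (rl_length x11) n11, zip_ne_nil (rl_length hx) n13⟩,
    ⟨zip_ne_nil (tagged_len y2) n2, zip_ne_nil (rl_length y4) n4,
      zip_ne_nil (rl_length y6) n6, zip_ne_nil (rl_length y8) n8, zip_ne_nil (rl_length y10) n10,
      zip_ne_nil (rl_length hy) n12⟩,
    ⟨before_zip b1, before_zip b2, before_zip b3, before_zip b4, before_zip b5, before_zip b6,
      before_zip b7, before_zip b8, before_zip b9, before_zip b10, before_zip b11,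
      before_zip b12⟩,
    ⟨inner_zip i3, inner_zip i11, inner_zip i4, inner_zip i6, inner_zip i8, inner_zip i10⟩,
    A, B, hAB, maxOut_zip (rl_length x5) m5, maxOut_zip (rl_length x7) m7,
    maxOut_zip (rl_length x9) m9⟩
  · rw [tagged_append hx, tagged_append x11, tagged_append x9, tagged_append x7,
      tagged_append x5, tagged_append x3]
  · rw [tagged_append hy, tagged_append y10, tagged_append y8, tagged_append y6,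
      tagged_append y4]

end Pool.Agent.H90.Ord.UN
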