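import Pool.Agent.H90.Ord.UNB

/-!
# The limit map in the form used by the chapter NEG-UN (module UNR)
-/

set_option autoImplicit false

namespace Pool.Agent.H90.Ord

/-- an increasing run with stack `s` (the same as `NodeS`) -/
def Nd (u : List ℕ) (s : List Lev) : Prop :=
  u.Pairwise (· < ·) ∧ runS [Lev.root] u = some s

/-- the limit map -/
structure Rl (f : VI → VI) (R : List ℕ → List ℕ) : Prop where
  leaf : ∀ x : VI, R x.1 = (f x).1
  node : ∀ u s, Nd u s → ∃ s', Nd (R u) s'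
  next : ∀ u l σ, Nd u (l :: σ) → ∀ m, ∃ n0, ∀ n, n0 ≤ n → ∃ k W, m ≤ k ∧ R (u ++ [n]) = R u ++ k :: W

theorem exists_R (f : VI → VI) (hf : StrictMono f) : ∃ R, Rl f R := by
  refine ⟨R f, R_leaf f, ?_, ?_⟩
  · intro u s hu
    rcases s with _ | ⟨l, t⟩
    · have hu' : NodeS u [] := hu
      rw [R_leaf' f hu']
      exact ⟨[], (f _).2.2, (f _).2.1⟩
    · obtain ⟨s', _, h⟩ := R_inc hf ⟨l :: t, by simp, hu⟩
      exact ⟨s', h⟩
  · intro u l σ hu m
    obtain ⟨n0, hn0⟩ := R_ext hf ⟨l :: σ, by simp, hu⟩ m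
    obtain ⟨N, hN, hN'⟩ := exists_big u n0
    refine ⟨N, fun n hn => ?_⟩
    obtain ⟨k, hk, w, hw⟩ := hn0 n (by omega) (fun c hc => by have := hN' c hc; omega)
    refine ⟨k, w, hk, ?_⟩
    rw [← hw, List.append_assoc]
    rfl

theorem Nd.snoc {u : List ℕ} {l : Lev} {σ : List Lev} {n : ℕ} (hu : Nd u (l :: σ))
    (hn : ∀ a ∈ u, a < n) : Nd (u ++ [n]) (kidsLev l n ++ σ) := NodeS.snoc hu hn

theorem leaf_above {u : List ℕ} {l : Lev} {σ : List Lev} (hu : Nd u (l :: σ)) (m : ℕ) :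
    ∃ (x : VI) (n : ℕ) (W : List ℕ), m ≤ n ∧ x.1 = u ++ n :: W := by
  obtain ⟨n, hn, hn'⟩ := exists_big u m
  obtain ⟨x, w, hx, _⟩ := exists_above (s := l :: σ) (by simp) hu hn' 0
  refine ⟨x, n, w, hn.le, ?_⟩
  rw [hx, List.append_assoc]
  rfl

end Pool.Agent.H90.Ord
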