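import Pool.Agent.H90.Ord.UNNd
import Pool.Agent.H90.Ord.UNR

/-!
# The real prefixes (module UN-REP)

The limit map of helper11 (UNA, UNB, UNR) satisfies `Rep`.
-/

set_option autoImplicit false

namespace Pool.Agent.H90.Ord.UN

open Filter

theorem exists_rep {f : VI → VI} (hf : StrictMono f) :
    ∃ R, Rep R ∧ ∀ x : VI, R x.1 = (f x).1 := by
  obtain ⟨R, hR⟩ := exists_R f hf
  refine ⟨R, ⟨?_, ?_⟩, hR.leaf⟩
  · rintro u ⟨⟨s, hs⟩, hu⟩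
    obtain ⟨s', h1, h2⟩ := hR.node u s ⟨hu, hs⟩
    exact ⟨⟨s', h2⟩, h1⟩
  · rintro u ⟨⟨s, hs⟩, hu⟩ hne m
    have h1 : stk u = s := by simp [stk, hs]
    rcases s with _ | ⟨l, σ⟩
    · exact absurd h1 hne
    · obtain ⟨n0, hn0⟩ := hR.next u l σ ⟨hu, hs⟩ m
      refine ⟨n0, fun n hn => ?_⟩
      obtain ⟨k, W, hk, hW⟩ := hn0 n hn
      exact ⟨k, W, hW, hk⟩

end Pool.Agent.H90.Ord.UN
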