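import Pool.Agent.H90.Ord.UNSeg

/-!
# Two consecutive copies with smaller flags (module UN-XB1)

1. `h` is `Gn t.length (fun w => ofl (rl (R v) (R w)) = b + 1 ∧ Sq R Q Fs w) v`; by `gn_ext`, `gn_suf` (a suffix of `out (l+1) :: t` of length `t.length` is `t`)
`Gn t.length Qw v` with `Qw w := stk w = t ∧ ofl (rl (R v) (R w)) = b + 1 ∧ Sq R Q Fs w` (with `Ext R v w` where needed).
2. `c = (stk (R v)).count (out b)`; take a large `n ≥ 2 * c + 2` with `v' = v ++ [n]` a node, `Gn t.length Qw v'` (`gn_step`), `Ext R v v'`, `stk v' = replicate n (out l) ++ t`.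
3. `sq_exists` at `v'` (`j = n`, `Q = Qw`) gives `Gs`; `sq_gn` with `Gs ++ []` and `gn_ex'` give `w'` with `Ext R v' w'`, `Qw w'`, `ofl (rl (R v') (R w')) = Gs.foldr max 0` and counts; so
all elements of `Gs` are `≤ b + 1` (`ext_trans_rl`, `ofl_append`, `foldr_max_le`) and `Gs.count (b + 1) ≤ (rl (R v) (R w')).count (out b) ≤ c` (`count_rl`; all levels of
`rl (R v) (R w')` are `≤ out b` because `ofl = b + 1` and no `root`, `ext_root`, `ofl_ge`).  `sq_pos`: the elements are `≥ 1`.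
4. `two_small`: `Gs = P ++ G1 :: G2 :: Q'`; `sq_gn` with `P` and `gn_ex'` give `w`.
-/

set_option autoImplicit false

namespace Pool.Agent.H90.Ord.UN

open Filter

variable {R : List ℕ → List ℕ} {Q : List ℕ → Prop}

theorem xb1 (hR : Rep R) (b l : ℕ) (Fs : List ℕ) (v : List ℕ) (t : List Lev) (hv : Nd v)
    (hh : R v ≠ []) (hs : stk v = .out (l + 1) :: t) (h : Sq R Q ((b + 1) :: Fs) v) :
    ∃ (G1 G2 : ℕ) (Q' w : List ℕ), Ext R v w ∧ (1 ≤ G1 ∧ G1 ≤ b) ∧ (1 ≤ G2 ∧ G2 ≤ b) ∧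
      stk w = List.replicate (Q'.length + 2) (.out l) ++ t ∧
      Sq R (fun w' => stk w' = t ∧ ofl (rl (R v) (R w')) = b + 1 ∧ Sq R Q Fs w') (G1 :: G2 :: Q')
        w := by
  classical
  have hlen : (stk v).length - 1 = t.length := by rw [hs]; simp
  have h1 : Gn t.length (fun w' => stk w' = t ∧ ofl (rl (R v) (R w')) = b + 1 ∧ Sq R Q Fs w') v := by
    have h0 : Gn ((stk v).length - 1) (fun w' => ofl (rl (R v) (R w')) = b + 1 ∧ Sq R Q Fs w') v := h
    rw [hlen] at h0
    have h2 := gn_suf hv (by rw [hs]; simp) h0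
    refine gn_mono h2 ?_
    rintro w' ⟨⟨hsuf, hl'⟩, hq⟩
    refine ⟨?_, hq⟩
    rw [hs] at hsuf
    have h3 : stk w' <:+ t :=
      List.suffix_of_suffix_length_le hsuf (List.suffix_cons _ _) (le_of_eq hl')
    exact h3.eq_of_length hl'
  have hlt : t.length < (stk v).length := by rw [hs]; simp
  have hne : stk v ≠ [] := by rw [hs]; simp
  obtain ⟨n1, hn1⟩ := nd_ev hv hne
  obtain ⟨n2, hn2⟩ := hR.step v hv hne 0
  obtain ⟨n, hn⟩ := ((gn_step h1 hlt).and ((ev_ge (2 * (stk (R v)).count (.out b) + 2)).and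
    ((ev_ge n1).and (ev_ge n2)))).exists
  obtain ⟨hG, hnc, hnn1, hnn2⟩ := hn
  have hv' : Nd (v ++ [n]) := hn1 n hnn1
  obtain ⟨k0, r0, hk0, -⟩ := hn2 n hnn2
  have hE : Ext R v (v ++ [n]) := ⟨hv', by rw [hk0]; exact List.prefix_append _ _⟩
  have hs' : stk (v ++ [n]) = List.replicate n (.out l) ++ t := by
    rw [stk_snoc hv hs n]; rfl
  have hh' : R (v ++ [n]) ≠ [] := ext_ne hE hh
  obtain ⟨N0, r, hN⟩ : ∃ N0 r, R (v ++ [n]) = N0 :: r := List.exists_cons_of_ne_nil hh'
  have hl1 : (stk (v ++ [n])).length - n = t.length := by rw [hs']; simp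
  obtain ⟨Gs, hGl, -, hSq⟩ := sq_exists hR n (v ++ [n]) r hv' hN (by rw [hs']; simp)
    (by rw [hl1]; exact hG)
  have hGlen : Gs.length ≤ (stk (v ++ [n])).length := by rw [hs', hGl]; simp
  obtain ⟨w', hw1, -, -, hw4, hw5, hw6⟩ :=
    let h' := gn_ex' hR hv' (Nat.sub_le _ _)
      (sq_gn hR Gs [] (v ++ [n]) hv' hGlen (by rw [List.append_nil]; exact hSq))
    show ∃ w', Ext R (v ++ [n]) w' ∧ True ∧ True ∧ ofl (rl (R (v ++ [n])) (R w')) = Gs.foldr max 0 ∧
      (∀ b, Gs.count (b + 1) ≤ (rl (R (v ++ [n])) (R w')).count (.out b)) ∧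
      (stk w' = t ∧ ofl (rl (R v) (R w')) = b + 1 ∧ Sq R Q Fs w') from by
      obtain ⟨w', a1, -, -, -, -, -, a4, a5, a6⟩ := h'
      exact ⟨w', a1, trivial, trivial, a4, a5, a6⟩
  obtain ⟨-, hw7, -⟩ := hw6
  have hrl := ext_trans_rl hR hE hw1
  have hmax : Gs.foldr max 0 ≤ b + 1 := by
    rw [← hw4, ← hw7, hrl, ofl_append]; exact le_max_right _ _
  have hle : ∀ a ∈ Gs, a ≤ b + 1 := foldr_max_le.1 hmax
  have hEw : Ext R v w' := hE.trans hw1
  have hcnt : Gs.count (b + 1) ≤ (stk (R v)).count (.out b) := by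
    refine (hw5 b).trans ?_
    refine le_trans (b := (rl (R v) (R w')).count (.out b)) ?_ ?_
    · rw [hrl, List.count_append]; exact Nat.le_add_left _ _
    · refine count_rl (by simp) (hR.nd _ hEw.1) hEw.2 ?_
      intro l' hl'
      have hroot := ext_root hR hEw hh l' hl'
      cases l' with
      | inn k => trivial
      | out j =>
        have := ofl_ge hl'
        rw [hw7] at this
        show j ≤ b
        omega
      | root => exact absurd rfl hroot
  have hpos : ∀ F ∈ Gs, 1 ≤ F :=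
    sq_pos hR Gs (v ++ [n]) (List.replicate n (.out l)) t hv' hh' hs' (by simp [hGl])
      (by intro l' hl'; exact ⟨l, List.eq_of_mem_replicate hl'⟩) hSq
  obtain ⟨P, G1, G2, Q', hGs, hG1, hG2⟩ := two_small (b + 1) _ Gs hcnt hle (by rw [hGl]; exact hnc)
  have hPl : P.length ≤ (stk (v ++ [n])).length := by
    refine le_trans ?_ hGlen
    rw [hGs]; simp
  obtain ⟨w, hw, hsuf, hwl, hSw⟩ :=
    let h' := gn_ex' hR hv' (Nat.sub_le _ _)
      (sq_gn hR P (G1 :: G2 :: Q') (v ++ [n]) hv' hPl (by rw [← hGs]; exact hSq))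
    show ∃ w, Ext R (v ++ [n]) w ∧ stk w <:+ stk (v ++ [n]) ∧
      (stk w).length = (stk (v ++ [n])).length - P.length ∧
      Sq R (fun w' => stk w' = t ∧ ofl (rl (R v) (R w')) = b + 1 ∧ Sq R Q Fs w') (G1 :: G2 :: Q') w
      from by
      obtain ⟨w, a1, a2, a3, -, -, -, -, -, a6⟩ := h'
      exact ⟨w, a1, a2, a3, a6⟩
  have hnl : n = P.length + (Q'.length + 2) := by
    rw [← hGl, hGs]; simp
  refine ⟨G1, G2, Q', w, hE.trans hw, ⟨hpos _ (by rw [hGs]; simp), by omega⟩,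
    ⟨hpos _ (by rw [hGs]; simp), by omega⟩, ?_, hSw⟩
  have h5 : List.replicate (Q'.length + 2) (Lev.out l) ++ t <:+ stk (v ++ [n]) := by
    have h8 : List.replicate n (Lev.out l) =
        List.replicate P.length (Lev.out l) ++ List.replicate (Q'.length + 2) (Lev.out l) := by
      rw [← List.replicate_add, ← hnl]
    rw [hs', h8, List.append_assoc]
    exact List.suffix_append _ _
  have h6 : (stk w).length = (List.replicate (Q'.length + 2) (Lev.out l) ++ t).length := by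
    rw [hwl, hs']
    simp only [List.length_append, List.length_replicate]
    omega
  have h7 := List.suffix_of_suffix_length_le hsuf h5 (le_of_eq h6)
  exact h7.eq_of_length h6

end Pool.Agent.H90.Ord.UN
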