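import Pool.Agent.H90.Ord.UNSeg

/-!
# The blocks `X1`, `X3`, `X5` (module UN-XB2)

Let `t2 = out l :: (replicate Q'.length (out l) ++ t)`, so `stk w = out l :: t2`, `s1 = t2.length`.  `h` gives `Gn s1 (fun w1 => ofl (rl (R w) (R w1)) = G1 ∧ Sq R Qw (G2 :: Q') w1) w`, add
`Ext R w w1` and `(stk w1).length = s1` (`gn_ext`, `gn_suf`).  `lemmaI` (`k = 1`) and `aw_ex`: `u1` with `Ext R w u1`, `s1 < (stk u1).length`, `Inn R 1 u1` and the generic property at `u1`.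
`m3`: `inn_ex` gives `u3` with the generic property, `s1 ≤ (stk u3).length`.
`m5`: `gn_comp` (`s = s1 - 1`, `s' = s1`, from right to left) and `gn_ext` at `u3`: generically at `s1 - 1` there is `w2` with `G2 ≤ ofl (rl (R u3) (R w2)) ≤ max G1 G2` and `Sq R Qw Q' w2`,
`(stk w2).length = s1 - 1` (`ext_trans_rl`, `ofl_append`); `gn_ex` gives `u5`; `A = ofl (rl (R u3) (R u5)) - 1`, `maxO_of`, `ext_root`.
The last statement: `sq_gn` at `u5` with `Q' ++ []`: `(stk u5).length - Q'.length = t.length`; `Ext R v u5`, so `rl (R v) (R w') = rl (R v) (R u5) ++ rl (R u5) (R w')`.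
-/

set_option autoImplicit false

namespace Pool.Agent.H90.Ord.UN

open Filter

variable {R : List ℕ → List ℕ} {Q : List ℕ → Prop}

theorem xb2 (hR : Rep R) (b l G1 G2 : ℕ) (Q' Fs v w : List ℕ) (t : List Lev) (hv : Nd v)
    (hh : R v ≠ []) (hvw : Ext R v w) (h1 : 1 ≤ G1 ∧ G1 ≤ b) (h2 : 1 ≤ G2 ∧ G2 ≤ b)
    (hs : stk w = List.replicate (Q'.length + 2) (.out l) ++ t)
    (h : Sq R (fun w' => stk w' = t ∧ ofl (rl (R v) (R w')) = b + 1 ∧ Sq R Q Fs w')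
      (G1 :: G2 :: Q') w) :
    ∃ u1, Nd u1 ∧ R u1 ≠ [] ∧
      ∀ m3, ∃ u3, Adv R m3 u1 u3 ∧ (∀ x ∈ rl (R u1) (R u3), x.IsInn) ∧
        ∀ m5, ∃ u5, Adv R m5 u3 u5 ∧ (∃ A, A < b ∧ MaxO (rl (R u3) (R u5)) A) ∧
          t.length ≤ (stk u5).length ∧
          Gn t.length (fun w' => stk w' = t ∧ ofl (rl (R u5) (R w')) ≤ b + 1 ∧ Sq R Q Fs w')
            u5 := by
  have hw : Nd w := hvw.1
  have hRw : R w ≠ [] := ext_ne hvw hh
  have hlen : (stk w).length = Q'.length + 2 + t.length := by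
    rw [hs, List.length_append, List.length_replicate]
  obtain ⟨s1, hs1⟩ : ∃ s1, s1 = Q'.length + 1 + t.length := ⟨_, rfl⟩
  have hs' : stk w = .out l :: (List.replicate (Q'.length + 1) (.out l) ++ t) := by
    rw [hs]
    rfl
  have ht2 : (List.replicate (Q'.length + 1) (Lev.out l) ++ t).length = s1 := by
    rw [List.length_append, List.length_replicate, hs1]
  have hl1 : (stk w).length - 1 = s1 := by omega
  have g0 : Gn s1 (fun w1 => ofl (rl (R w) (R w1)) = G1 ∧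
      Sq R (fun w' => stk w' = t ∧ ofl (rl (R v) (R w')) = b + 1 ∧ Sq R Q Fs w') (G2 :: Q') w1)
      w := by
    rw [← hl1]
    exact h
  have g1 := gn_suf hw (by omega) (gn_ext hR hw g0)
  have hI := lemmaI hR 1 l w _ hw hs' hRw
  rw [ht2] at hI
  obtain ⟨u1, e1, k1, i1, g2⟩ := aw_ex (P := fun u => Inn R 1 u) hR hw hI g1
  refine ⟨u1, e1.1, ext_ne e1 hRw, ?_⟩
  intro m3
  obtain ⟨u3, a3, in3, _, g3, k3⟩ := inn_ex hR e1.1 i1 k1 g2 m3
  refine ⟨u3, a3, in3, ?_⟩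
  intro m5
  have e3 : Ext R w u3 := e1.trans a3.ext
  have hu3 : Nd u3 := e3.1
  have hR3 : R u3 ≠ [] := ext_ne e3 hRw
  have g4 : Gn (s1 - 1) (fun w2 => Ext R u3 w2 ∧ Ext R w w2 ∧ G2 ≤ ofl (rl (R u3) (R w2)) ∧
      ofl (rl (R u3) (R w2)) ≤ max G1 G2 ∧
      Sq R (fun w' => stk w' = t ∧ ofl (rl (R v) (R w')) = b + 1 ∧ Sq R Q Fs w') Q' w2) u3 := by
    rw [gn_comp (Nat.sub_le s1 1)]
    refine gn_mono (gn_ext hR hu3 g3) ?_
    rintro w1 ⟨ea, ⟨_, kb⟩, eb, fb, sb⟩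
    have sb' : Gn ((stk w1).length - 1) (fun w2 => ofl (rl (R w1) (R w2)) = G2 ∧
        Sq R (fun w' => stk w' = t ∧ ofl (rl (R v) (R w')) = b + 1 ∧ Sq R Q Fs w') Q' w2) w1 := sb
    rw [kb] at sb'
    refine gn_mono (gn_ext hR ea.1 sb') ?_
    rintro w2 ⟨ec, fc, sc⟩
    have q1 := ext_trans_rl hR ea ec
    have q2 := ext_trans_rl hR e3 ea
    have q3 : ofl (rl (R u3) (R w1)) ≤ G1 := by
      rw [← fb, q2, ofl_append]
      exact le_max_right _ _
    refine ⟨ea.trans ec, eb.trans ec, ?_, ?_, sc⟩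
    · rw [q1, ofl_append, fc]
      exact le_max_right _ _
    · rw [q1, ofl_append, fc]
      exact max_le_max q3 (le_refl _)
  obtain ⟨u5, a5, _, k5, _, e5, lo5, hi5, sq5⟩ := gn_ex hR hu3 (by omega) g4 m5
  refine ⟨u5, a5, ⟨ofl (rl (R u3) (R u5)) - 1, ?_, ?_⟩, by omega, ?_⟩
  · have h6 : max G1 G2 ≤ b := max_le h1.2 h2.2
    have h7 := h2.1
    omega
  · refine maxO_of (ext_root hR a5.ext hR3) ?_
    have h7 := h2.1
    omega
  · have hu5 : Nd u5 := e5.1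
    have g5 := sq_gn (Gs := []) hR Q' u5 hu5 (by omega) (by rw [List.append_nil]; exact sq5)
    have h8 : (stk u5).length - Q'.length = t.length := by omega
    rw [h8] at g5
    refine gn_mono g5 ?_
    rintro w' ⟨ew, _, _, _, _, sw⟩
    have sw' : stk w' = t ∧ ofl (rl (R v) (R w')) = b + 1 ∧ Sq R Q Fs w' := sw
    refine ⟨sw'.1, ?_, sw'.2.2⟩
    rw [← sw'.2.1, ext_trans_rl hR (hvw.trans e5) ew, ofl_append]
    exact le_max_right _ _

end Pool.Agent.H90.Ord.UN
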