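import Pool.Agent.H90.Ord.UNXa
import Pool.Agent.H90.Ord.UNXb
import Pool.Agent.H90.Ord.UNXc
import Pool.Agent.H90.Ord.UNPt
import Pool.Agent.H90.Ord.UNRep

/-!
# Every strictly monotone map of `VI` has an edge between two values (assembly of NEG-UN)
-/

set_option autoImplicit false

namespace Pool.Agent.H90.Ord.UN

open Filter

variable {R : List ℕ → List ℕ}

theorem xpart (hR : Rep R) : ∃ (B : ℕ) (u1 : List ℕ), Nd u1 ∧ R u1 ≠ [] ∧
    ∀ m3, ∃ u3, Adv R m3 u1 u3 ∧ (∀ x ∈ rl (R u1) (R u3), x.IsInn) ∧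
    ∀ m5, ∃ u5, Adv R m5 u3 u5 ∧ (∃ A, A < B ∧ MaxO (rl (R u3) (R u5)) A) ∧
    ∀ m7, ∃ u7, Adv R m7 u5 u7 ∧ MaxO (rl (R u5) (R u7)) B ∧
    ∀ m9, ∃ u9, Adv R m9 u7 u9 ∧ MaxO (rl (R u7) (R u9)) B ∧
    ∀ m11, ∃ u11, Adv R m11 u9 u11 ∧ (∀ x ∈ rl (R u9) (R u11), x.IsInn) ∧
    ∀ m13, ∃ u13, Adv R m13 u11 u13 ∧ stk u13 = [] := by
  obtain ⟨b, l, W1, W2, W3, Qs, v, hv, hvR, hs, hSq, hW⟩ := xa hR
  set Fs : List ℕ := (W1 ++ [b + 1]) ++ ((W2 ++ (b + 1) :: W3) ++ (b + 1) :: Qs) with hFs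
  set t : List Lev := List.replicate Fs.length (.out (l + 1)) with ht
  have hs' : stk v = .out (l + 1) :: t := by
    rw [hs, List.length_cons, List.replicate_succ]
  obtain ⟨G1, G2, Q', w, hvw, h1, h2, hsw, hSw⟩ := xb1 hR b l Fs v t hv hvR hs' hSq
  obtain ⟨u1, hu1, hu1R, H⟩ := xb2 hR b l G1 G2 Q' Fs v w t hv hvR hvw h1 h2 hsw hSw
  refine ⟨b, u1, hu1, hu1R, fun m3 => ?_⟩
  obtain ⟨u3, hu3, hi3, H⟩ := H m3
  refine ⟨u3, hu3, hi3, fun m5 => ?_⟩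
  obtain ⟨u5, hu5, hA, hlen, hG⟩ := H m5
  have hne3 : R u3 ≠ [] := ext_ne hu3.ext hu1R
  have hne5 : R u5 ≠ [] := ext_ne hu5.ext hne3
  refine ⟨u5, hu5, hA, fun m7 => ?_⟩
  have htl : t.length = Fs.length := by rw [ht, List.length_replicate]
  have hFl : Fs.length = (W1.length + 1) + ((W2.length + (W3.length + 1)) + (Qs.length + 1)) := by
    rw [hFs]
    simp only [List.length_append, List.length_cons, List.length_nil]
  obtain ⟨u7, hu7, hM7, hs7, hS7⟩ := seg hR (b := b) (W1 ++ [b + 1])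
    ((W2 ++ (b + 1) :: W3) ++ (b + 1) :: Qs) u5 t hu5.1 hne5 hlen (by
      intro a ha
      rcases List.mem_append.1 ha with ha | ha
      · exact hW a (by simp [ha])
      · rw [List.mem_singleton] at ha
        omega) (by simp) (by
      rw [htl, hFl, List.length_append]
      simp only [List.length_cons, List.length_nil]
      omega) hG m7
  refine ⟨u7, hu7, hM7, fun m9 => ?_⟩
  have hne7 : R u7 ≠ [] := ext_ne hu7.ext hne5
  have hl7 : (stk u7).length = ((W2.length + (W3.length + 1)) + (Qs.length + 1)) := by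
    rw [hs7, List.length_drop, htl, hFl, List.length_append]
    simp only [List.length_cons, List.length_nil]
    omega
  obtain ⟨w6, hw6, hM6, hs6, hS6⟩ := seg hR (b := b) (W2 ++ (b + 1) :: W3) ((b + 1) :: Qs) u7
    (stk u7) hu7.1 hne7 le_rfl (by
      intro a ha
      rcases List.mem_append.1 ha with ha | ha
      · exact hW a (by simp [ha])
      · rcases List.mem_cons.1 ha with ha | ha
        · omega
        · exact hW a (by simp [ha])) (by simp) (by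
      rw [hl7, List.length_append, List.length_cons]
      omega) (Gn.done u7 le_rfl ⟨rfl, by
        rw [rl_self (hR.nd u7 hu7.1), ofl_nil]
        exact Nat.zero_le _, hS7⟩) m9
  have hne6 : R w6 ≠ [] := ext_ne hw6.ext hne7
  -- the stack of `w6`
  have hs6' : stk w6 = .out (l + 1) :: List.replicate Qs.length (.out (l + 1)) := by
    rw [hs6, hs7, List.drop_drop, ht, List.drop_replicate, hFl, List.length_append,
      List.length_append]
    simp only [List.length_cons, List.length_nil]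
    have e : W1.length + 1 + (W2.length + (W3.length + 1) + (Qs.length + 1)) -
        (W1.length + (0 + 1) + (W2.length + (W3.length + 1))) = Qs.length + 1 := by omega
    rw [e, List.replicate_succ]
  have hG6 : Gn (List.replicate Qs.length (Lev.out (l + 1))).length
      (fun v => ofl (rl (R w6) (R v)) = b + 1) w6 := by
    have h : Gn ((stk w6).length - 1)
        (fun v => ofl (rl (R w6) (R v)) = b + 1 ∧ Sq R (fun _ => True) Qs v) w6 := hS6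
    rw [hs6', List.length_cons, Nat.add_sub_cancel] at h
    exact gn_mono h fun v hv => hv.1
  exact xtail hR b (l + 1) m9 u7 w6 _ hu7.1 hne7 hw6 hM6 hs6' hG6

theorem ypart (hR : Rep R) : ∀ m2, ∃ w2, Nd w2 ∧ (∃ k r, R w2 = k :: r ∧ m2 ≤ k) ∧
    ∀ m4, ∃ w4, Adv R m4 w2 w4 ∧ (∀ x ∈ rl (R w2) (R w4), x.IsInn) ∧
    ∀ m6, ∃ w6, Adv R m6 w4 w6 ∧ (∀ x ∈ rl (R w4) (R w6), x.IsInn) ∧
    ∀ m8, ∃ w8, Adv R m8 w6 w8 ∧ (∀ x ∈ rl (R w6) (R w8), x.IsInn) ∧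
    ∀ m10, ∃ w10, Adv R m10 w8 w10 ∧ (∀ x ∈ rl (R w8) (R w10), x.IsInn) ∧
    ∀ m12, ∃ w12, Adv R m12 w10 w12 ∧ stk w12 = [] := by
  intro m2
  -- the header
  have h0 : stk [] ≠ [] := by rw [stk_nil]; simp
  obtain ⟨n0, hn0⟩ := hR.step [] nd_nil h0 m2
  obtain ⟨n1, hn1⟩ := nd_ev nd_nil h0
  set n := max n0 n1 with hn
  obtain ⟨k, r, hk, hmk⟩ := hn0 n (le_max_left _ _)
  have hnd : Nd ([] ++ [n]) := hn1 n (le_max_right _ _)
  rw [List.nil_append] at hk hnd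
  rw [R_nil hR, List.nil_append] at hk
  have hsn : stk [n] = [.out n] := by
    have := stk_snoc nd_nil stk_nil n
    simpa [kidsLev] using this
  have hne : R [n] ≠ [] := by rw [hk]; simp
  have hI := lemmaI hR 4 n [n] [] hnd hsn hne
  obtain ⟨w2, hw2, hl2, hI2, -⟩ := aw_ex hR hnd hI (gn_true hnd _)
  have inn0 : ∀ (k : ℕ) (u : List ℕ), Inn R (k + 1) u → stk u ≠ [] := fun k u h => h.1
  have pos : ∀ u : List ℕ, stk u ≠ [] → 0 < (stk u).length := fun u h => List.length_pos_iff.2 h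
  refine ⟨w2, hw2.1, ?_, fun m4 => ?_⟩
  · obtain ⟨d, hd⟩ := hw2.2
    rw [hk] at hd
    exact ⟨k, r ++ d, by rw [← hd]; rfl, hmk⟩
  obtain ⟨w4, hw4, hi4, hI4, -, -⟩ := inn_ex hR hw2.1 hI2 (pos _ (inn0 _ _ hI2)) (gn_true hw2.1 0) m4
  refine ⟨w4, hw4, hi4, fun m6 => ?_⟩
  obtain ⟨w6, hw6, hi6, hI6, -, -⟩ := inn_ex hR hw4.1 hI4 (pos _ (inn0 _ _ hI4)) (gn_true hw4.1 0) m6
  refine ⟨w6, hw6, hi6, fun m8 => ?_⟩
  obtain ⟨w8, hw8, hi8, hI8, -, -⟩ := inn_ex hR hw6.1 hI6 (pos _ (inn0 _ _ hI6)) (gn_true hw6.1 0) m8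
  refine ⟨w8, hw8, hi8, fun m10 => ?_⟩
  obtain ⟨w10, hw10, hi10, hI10, -, -⟩ :=
    inn_ex hR hw8.1 hI8 (pos _ (inn0 _ _ hI8)) (gn_true hw8.1 0) m10
  exact ⟨w10, hw10, hi10, fun m12 => leaf_ex hR hw10.1 hI10 m12⟩

/-- a bound for a list -/
theorem exists_bd (L : List ℕ) : ∃ m, ∀ a ∈ L, a < m := by
  induction L with
  | nil => exact ⟨0, by simp⟩
  | cons a L ih =>
    obtain ⟨m, hm⟩ := ih
    refine ⟨max m (a + 1), fun c hc => ?_⟩
    rcases List.mem_cons.1 hc with rfl | hc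
    · exact lt_of_lt_of_le (Nat.lt_succ_self _) (le_max_right _ _)
    · exact lt_of_lt_of_le (hm c hc) (le_max_left _ _)

theorem new_ge {ρ r : List ℕ} {k m : ℕ} (h : Nd (ρ ++ k :: r)) (hm : m ≤ k) {σ : List ℕ}
    (hσ : ∀ a ∈ σ, a < m) : ∀ a ∈ σ, ∀ c ∈ k :: r, a < c := by
  intro a ha c hc
  have h1 := (List.pairwise_append.1 h.2).2.1
  rw [List.pairwise_cons] at h1
  have h2 : a < k := lt_of_lt_of_le (hσ a ha) hm
  rcases List.mem_cons.1 hc with rfl | hc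
  · exact h2
  · exact h2.trans (h1.1 c hc)

theorem exists_pat (hR : Rep R) : ∃ u w : List ℕ, (Nd u ∧ stk u = []) ∧ (Nd w ∧ stk w = []) ∧
    Pat (tagged (R u)) (tagged (R w)) ∧ R u ≠ R w := by
  obtain ⟨B, u1, hu1, hu1R, H⟩ := xpart hR
  obtain ⟨m2, hm2⟩ := exists_bd (R u1)
  obtain ⟨w2, hw2, ⟨k2, r2, hk2, hmk2⟩, K⟩ := ypart hR m2
  obtain ⟨m3, hm3⟩ := exists_bd (R w2)
  obtain ⟨u3, ⟨hu3, k3, r3, hk3, hmk3⟩, hi3, H⟩ := H m3
  obtain ⟨m4, hm4⟩ := exists_bd (R u3)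
  obtain ⟨w4, ⟨hw4, k4, r4, hk4, hmk4⟩, hi4, K⟩ := K m4
  obtain ⟨m5, hm5⟩ := exists_bd (R w4)
  obtain ⟨u5, ⟨hu5, k5, r5, hk5, hmk5⟩, ⟨A, hAB, hA⟩, H⟩ := H m5
  obtain ⟨m6, hm6⟩ := exists_bd (R u5)
  obtain ⟨w6, ⟨hw6, k6, r6, hk6, hmk6⟩, hi6, K⟩ := K m6
  obtain ⟨m7, hm7⟩ := exists_bd (R w6)
  obtain ⟨u7, ⟨hu7, k7, r7, hk7, hmk7⟩, hM7, H⟩ := H m7
  obtain ⟨m8, hm8⟩ := exists_bd (R u7)
  obtain ⟨w8, ⟨hw8, k8, r8, hk8, hmk8⟩, hi8, K⟩ := K m8
  obtain ⟨m9, hm9⟩ := exists_bd (R w8)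
  obtain ⟨u9, ⟨hu9, k9, r9, hk9, hmk9⟩, hM9, H⟩ := H m9
  obtain ⟨m10, hm10⟩ := exists_bd (R u9)
  obtain ⟨w10, ⟨hw10, k10, r10, hk10, hmk10⟩, hi10, K⟩ := K m10
  obtain ⟨m11, hm11⟩ := exists_bd (R w10)
  obtain ⟨u11, ⟨hu11, k11, r11, hk11, hmk11⟩, hi11, H⟩ := H m11
  obtain ⟨m12, hm12⟩ := exists_bd (R u11)
  obtain ⟨w12, ⟨hw12, k12, r12, hk12, hmk12⟩, hs12⟩ := K m12
  obtain ⟨m13, hm13⟩ := exists_bd (R w12)
  obtain ⟨u13, ⟨hu13, k13, r13, hk13, hmk13⟩, hs13⟩ := H m13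
  -- the real nodes
  have nu3 := hR.nd u3 hu3
  have nu5 := hR.nd u5 hu5
  have nu7 := hR.nd u7 hu7
  have nu9 := hR.nd u9 hu9
  have nu11 := hR.nd u11 hu11
  have nu13 := hR.nd u13 hu13
  have nw2 := hR.nd w2 hw2
  have nw4 := hR.nd w4 hw4
  have nw6 := hR.nd w6 hw6
  have nw8 := hR.nd w8 hw8
  have nw10 := hR.nd w10 hw10
  have nw12 := hR.nd w12 hw12
  have b1 : ∀ a ∈ R u1, ∀ c ∈ k2 :: r2, a < c := new_ge (ρ := []) (by rw [hk2] at nw2; exact nw2) hmk2 hm2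
  have b2 := new_ge (by rw [hk3] at nu3; exact nu3) hmk3 hm3
  have b3 := new_ge (by rw [hk4] at nw4; exact nw4) hmk4 hm4
  have b4 := new_ge (by rw [hk5] at nu5; exact nu5) hmk5 hm5
  have b5 := new_ge (by rw [hk6] at nw6; exact nw6) hmk6 hm6
  have b6 := new_ge (by rw [hk7] at nu7; exact nu7) hmk7 hm7
  have b7 := new_ge (by rw [hk8] at nw8; exact nw8) hmk8 hm8
  have b8 := new_ge (by rw [hk9] at nu9; exact nu9) hmk9 hm9
  have b9 := new_ge (by rw [hk10] at nw10; exact nw10) hmk10 hm10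
  have b10 := new_ge (by rw [hk11] at nu11; exact nu11) hmk11 hm11
  have b11 := new_ge (by rw [hk12] at nw12; exact nw12) hmk12 hm12
  have b12 := new_ge (by rw [hk13] at nu13; exact nu13) hmk13 hm13
  have key := pat_of (r1 := R u1) (d3 := k3 :: r3) (d5 := k5 :: r5) (d7 := k7 :: r7)
    (d9 := k9 :: r9) (d11 := k11 :: r11) (d13 := k13 :: r13) (r2 := R w2) (e4 := k4 :: r4)
    (e6 := k6 :: r6) (e8 := k8 :: r8) (e10 := k10 :: r10) (e12 := k12 :: r12)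
    (by rw [← hk3, ← hk5, ← hk7, ← hk9, ← hk11, ← hk13]; exact nu13)
    (by rw [← hk4, ← hk6, ← hk8, ← hk10, ← hk12]; exact nw12)
    hu1R (by simp) (by simp) (by simp) (by simp) (by simp) (by simp) (by rw [hk2]; simp)
    (by simp) (by simp) (by simp) (by simp) (by simp)
    (by rw [hk2]; exact b1) b2
    (fun a ha => b3 a (by rw [hk3]; exact List.mem_append_right _ ha))
    (fun a ha => b4 a (by rw [hk4]; exact List.mem_append_right _ ha))
    (fun a ha => b5 a (by rw [hk5]; exact List.mem_append_right _ ha))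
    (fun a ha => b6 a (by rw [hk6]; exact List.mem_append_right _ ha))
    (fun a ha => b7 a (by rw [hk7]; exact List.mem_append_right _ ha))
    (fun a ha => b8 a (by rw [hk8]; exact List.mem_append_right _ ha))
    (fun a ha => b9 a (by rw [hk9]; exact List.mem_append_right _ ha))
    (fun a ha => b10 a (by rw [hk10]; exact List.mem_append_right _ ha))
    (fun a ha => b11 a (by rw [hk11]; exact List.mem_append_right _ ha))
    (fun a ha => b12 a (by rw [hk12]; exact List.mem_append_right _ ha))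
    (by rw [← hk3]; exact hi3)
    (by rw [← hk3, ← hk5, ← hk7, ← hk9, ← hk11]; exact hi11)
    (by rw [← hk4]; exact hi4) (by rw [← hk4, ← hk6]; exact hi6)
    (by rw [← hk4, ← hk6, ← hk8]; exact hi8) (by rw [← hk4, ← hk6, ← hk8, ← hk10]; exact hi10)
    hAB (by rw [← hk3, ← hk5]; exact hA) (by rw [← hk3, ← hk5, ← hk7]; exact hM7)
    (by rw [← hk3, ← hk5, ← hk7, ← hk9]; exact hM9)
  rw [← hk3, ← hk5, ← hk7, ← hk9, ← hk11, ← hk13, ← hk4, ← hk6, ← hk8, ← hk10, ← hk12] at key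
  refine ⟨u13, w12, ⟨hu13, hs13⟩, ⟨hw12, hs12⟩, key, fun he => ?_⟩
  -- the first numbers are different
  obtain ⟨a, r1, ha⟩ := List.exists_cons_of_ne_nil hu1R
  have e1 : (R u13).head? = some a := by
    rw [hk13, hk11, hk9, hk7, hk5, hk3, ha]
    rfl
  have e2 : (R w12).head? = some k2 := by
    rw [hk12, hk10, hk8, hk6, hk4, hk2]
    rfl
  rw [he, e2] at e1
  have e3 : k2 = a := Option.some.inj e1
  have e4 := b1 a (by rw [ha]; simp) k2 (by simp)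
  omega

end Pool.Agent.H90.Ord.UN

namespace Pool.Agent.H90.Ord

open UN in
/-- every strictly monotone map has an edge between two of its values -/
theorem unavoidable (f : VI → VI) (hf : StrictMono f) : ∃ x y : VI, GI.Adj (f x) (f y) := by
  obtain ⟨R, hR, hf'⟩ := UN.exists_rep hf
  obtain ⟨u, w, ⟨hu, hsu⟩, ⟨hw, hsw⟩, hP, hne⟩ := UN.exists_pat hR
  have eu : runS [Lev.root] u = some [] := hu.run.trans (by rw [hsu])
  have ew : runS [Lev.root] w = some [] := hw.run.trans (by rw [hsw])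
  have h1 := hf' ⟨u, eu, hu.2⟩
  have h2 := hf' ⟨w, ew, hw.2⟩
  refine ⟨⟨u, eu, hu.2⟩, ⟨w, ew, hw.2⟩, fun he => hne ?_, Or.inl ?_⟩
  · rw [he] at h1
    exact h1.trans h2.symm
  · rw [← h1, ← h2]
    exact hP

end Pool.Agent.H90.Ord
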