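import Pool.Agent.H90.Ord.UNNd

/-!
# Real levels (module UN-LV)

`lvls_append`, `lvls_length` by induction on `r`.  `rl_eq`: `lvls_append` and `lvls_length`, `List.drop_left'`.  `count_aux`:
induction on `r`; if the removed level `a` is `l`, the new entries are not `l` (children have strictly lower levels), so
the number of entries `l` goes down by one; if it is another level `≤ l` the new entries are not `l` either.
-/

set_option autoImplicit false

namespace Pool.Agent.H90.Ord.UN

theorem lvls_nil_right (s : List Lev) : lvls s [] = [] := by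
  cases s <;> rfl

theorem lvls_append {s s' : List Lev} {r r' : List ℕ} (h : runS s r = some s') :
    lvls s (r ++ r') = lvls s r ++ lvls s' r' := by
  induction r generalizing s with
  | nil =>
    have h1 : s = s' := by
      cases s <;> exact Option.some.inj h
    subst h1
    rw [lvls_nil_right]
    rfl
  | cons n r ih =>
    cases s with
    | nil => exact absurd h (by simp [runS])
    | cons l s =>
      have h1 : runS (kidsLev l n ++ s) r = some s' := h
      have h2 := ih h1
      show l :: lvls (kidsLev l n ++ s) (r ++ r') = l :: lvls (kidsLev l n ++ s) r ++ lvls s' r'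
      rw [h2]
      rfl

theorem lvls_length {s s' : List Lev} {r : List ℕ} (h : runS s r = some s') :
    (lvls s r).length = r.length := by
  induction r generalizing s with
  | nil =>
    rw [lvls_nil_right]
    rfl
  | cons n r ih =>
    cases s with
    | nil => exact absurd h (by simp [runS])
    | cons l s =>
      have h1 : runS (kidsLev l n ++ s) r = some s' := h
      show (l :: lvls (kidsLev l n ++ s) r).length = (n :: r).length
      rw [List.length_cons, List.length_cons, ih h1]

theorem rl_eq {ρ δ : List ℕ} (h : Nd (ρ ++ δ)) : rl ρ (ρ ++ δ) = lvls (stk ρ) δ := by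
  have h1 := h.pre.run
  unfold rl
  rw [lvls_append h1, ← lvls_length h1, List.drop_left]

theorem rl_self {ρ : List ℕ} (h : Nd ρ) : rl ρ ρ = [] := by
  have h1 : Nd (ρ ++ []) := by rwa [List.append_nil]
  have h2 := rl_eq h1
  rwa [List.append_nil, lvls_nil_right] at h2

theorem rl_length {ρ δ : List ℕ} (h : Nd (ρ ++ δ)) : (rl ρ (ρ ++ δ)).length = δ.length := by
  rw [rl_eq h, lvls_length h.runs]

theorem rl_trans {ρ ρ' ρ'' : List ℕ} (h : Nd ρ'') (h1 : ρ <+: ρ') (h2 : ρ' <+: ρ'') :
    rl ρ ρ'' = rl ρ ρ' ++ rl ρ' ρ'' := by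
  obtain ⟨a, rfl⟩ := h1
  obtain ⟨b, rfl⟩ := h2
  have h3 : Nd (ρ ++ a) := h.pre
  rw [rl_eq h3, rl_eq h]
  have h4 : Nd (ρ ++ (a ++ b)) := by rwa [← List.append_assoc]
  rw [List.append_assoc, rl_eq h4, lvls_append h3.runs]

theorem tagged_append {ρ δ : List ℕ} (h : Nd (ρ ++ δ)) :
    tagged (ρ ++ δ) = tagged ρ ++ δ.zip (rl ρ (ρ ++ δ)) := by
  have h1 := h.pre.run
  rw [rl_eq h]
  unfold tagged
  rw [lvls_append h1, List.zip_append (lvls_length h1).symm]

theorem lle_trans {a b c : Lev} (h : a.le b) (h' : b.le c) : a.le c := by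
  rcases a with j | j | _ <;> rcases b with k | k | _ <;> rcases c with l | l | _ <;>
    simp_all [Lev.le] <;> omega

theorem lle_refl (a : Lev) : a.le a := by
  rcases a with j | j | _ <;> simp [Lev.le]

theorem lle_antisymm {a b : Lev} (h : a.le b) (h' : b.le a) : a = b := by
  rcases a with j | j | _ <;> rcases b with k | k | _ <;> simp_all [Lev.le] <;> omega

theorem kids_lt {a l : Lev} {n : ℕ} (h : l ∈ kidsLev a n) : ¬ a.le l ∧ l.le a ∧ l ≠ .root := by
  rcases a with (_ | k) | (_ | k) | _
  · simp [kidsLev] at h
  · simp only [kidsLev, List.mem_replicate] at h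
    rw [h.2]
    refine ⟨?_, Nat.le_succ k, by simp⟩
    intro h1
    have h2 : k + 1 ≤ k := h1
    omega
  · simp only [kidsLev, List.mem_singleton] at h
    rw [h]
    exact ⟨fun h1 => h1, trivial, by simp⟩
  · simp only [kidsLev, List.mem_replicate] at h
    rw [h.2]
    refine ⟨?_, Nat.le_succ k, by simp⟩
    intro h1
    have h2 : k + 1 ≤ k := h1
    omega
  · simp only [kidsLev, List.mem_singleton] at h
    rw [h]
    exact ⟨fun h1 => h1, trivial, by simp⟩

theorem count_aux {l : Lev} (hl : l ≠ .root) {s s' : List Lev} {r : List ℕ} (h : runS s r = some s')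
    (hb : ∀ l' ∈ lvls s r, l'.le l) : (lvls s r).count l ≤ s.count l := by
  induction r generalizing s with
  | nil =>
    rw [lvls_nil_right, List.count_nil]
    exact Nat.zero_le _
  | cons n r ih =>
    cases s with
    | nil => exact absurd h (by simp [runS])
    | cons a s =>
      have h1 : runS (kidsLev a n ++ s) r = some s' := h
      have h2 : lvls (a :: s) (n :: r) = a :: lvls (kidsLev a n ++ s) r := rfl
      rw [h2] at hb ⊢
      have h3 := ih h1 (fun l' hl' => hb l' (List.mem_cons_of_mem _ hl'))
      have h4 : a.le l := hb a List.mem_cons_self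
      have h5 : (kidsLev a n).count l = 0 := by
        rw [List.count_eq_zero]
        intro h6
        exact (kids_lt h6).1 h4
      rw [List.count_append, h5, Nat.zero_add] at h3
      rw [List.count_cons, List.count_cons]
      exact Nat.add_le_add_right h3 _

theorem count_rl {l : Lev} (hl : l ≠ .root) {ρ ρ' : List ℕ} (h : Nd ρ') (hp : ρ <+: ρ')
    (hb : ∀ l' ∈ rl ρ ρ', l'.le l) : (rl ρ ρ').count l ≤ (stk ρ).count l := by
  obtain ⟨δ, rfl⟩ := hp
  rw [rl_eq h] at hb ⊢
  exact count_aux hl h.runs hb

theorem inn_bound_aux {M : ℕ} {s : List Lev} {r : List ℕ}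
    (hin : ∀ l ∈ lvls s r, l.IsInn) (hM : ∀ l ∈ s, l.IsInn → l.le (.inn M)) :
    ∀ l ∈ lvls s r, l.le (.inn M) := by
  induction r generalizing s with
  | nil =>
    rw [lvls_nil_right]
    intro l hl
    cases hl
  | cons n r ih =>
    cases s with
    | nil =>
      intro l hl
      cases hl
    | cons a s =>
      have h2 : lvls (a :: s) (n :: r) = a :: lvls (kidsLev a n ++ s) r := rfl
      rw [h2] at hin ⊢
      have h3 : a.le (.inn M) := hM a List.mem_cons_self (hin a List.mem_cons_self)
      have h4 := ih (s := kidsLev a n ++ s) (fun l' hl' => hin l' (List.mem_cons_of_mem _ hl')) (by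
        intro l' hl' _
        rcases List.mem_append.1 hl' with h5 | h5
        · exact lle_trans (kids_lt h5).2.1 h3
        · exact hM l' (List.mem_cons_of_mem _ h5) (by assumption))
      intro l hl
      rcases List.mem_cons.1 hl with rfl | hl
      · exact h3
      · exact h4 l hl

/-- if only inner levels are removed, they are bounded by the inner levels of the stack -/
theorem inn_bound {M : ℕ} {ρ ρ' : List ℕ} (h : Nd ρ') (hp : ρ <+: ρ')
    (hin : ∀ l ∈ rl ρ ρ', l.IsInn) (hM : ∀ l ∈ stk ρ, l.IsInn → l.le (.inn M)) :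
    ∀ l ∈ rl ρ ρ', l.le (.inn M) := by
  obtain ⟨δ, rfl⟩ := hp
  rw [rl_eq h] at hin ⊢
  exact inn_bound_aux hin hM

theorem inn_max (σ : List Lev) : ∃ M, ∀ l ∈ σ, l.IsInn → l.le (.inn M) := by
  induction σ with
  | nil => exact ⟨0, fun l hl => absurd hl List.not_mem_nil⟩
  | cons a σ ih =>
    obtain ⟨M, hM⟩ := ih
    rcases a with k | k | _
    · refine ⟨max M k, ?_⟩
      intro l hl hi
      rcases List.mem_cons.1 hl with rfl | hl
      · exact le_max_right M k
      · have h1 : (Lev.inn M).le (.inn (max M k)) := le_max_left M k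
        exact lle_trans (hM l hl hi) h1
    · refine ⟨M, ?_⟩
      intro l hl hi
      rcases List.mem_cons.1 hl with rfl | hl
      · exact absurd hi id
      · exact hM l hl hi
    · refine ⟨M, ?_⟩
      intro l hl hi
      rcases List.mem_cons.1 hl with rfl | hl
      · exact absurd hi id
      · exact hM l hl hi

theorem lvls_le {b : Lev} {s : List Lev} {r : List ℕ} (h : ∀ l ∈ s, l.le b) :
    ∀ l ∈ lvls s r, l.le b := by
  induction r generalizing s with
  | nil =>
    rw [lvls_nil_right]
    intro l hl
    cases hl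
  | cons n r ih =>
    cases s with
    | nil =>
      intro l hl
      cases hl
    | cons a s =>
      have h2 : lvls (a :: s) (n :: r) = a :: lvls (kidsLev a n ++ s) r := rfl
      rw [h2]
      have h4 := ih (s := kidsLev a n ++ s) (by
        intro l' hl'
        rcases List.mem_append.1 hl' with h5 | h5
        · exact lle_trans (kids_lt h5).2.1 (h a List.mem_cons_self)
        · exact h l' (List.mem_cons_of_mem _ h5))
      intro l hl
      rcases List.mem_cons.1 hl with rfl | hl
      · exact h l List.mem_cons_self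
      · exact h4 l hl

/-- after the header `N0` all levels are at most `out N0` -/
theorem head_bound {N0 : ℕ} {r ρ' : List ℕ} (h : Nd ρ') (hp : N0 :: r <+: ρ') :
    ∀ l ∈ rl (N0 :: r) ρ', l.le (.out N0) := by
  obtain ⟨δ, rfl⟩ := hp
  intro l hl
  unfold rl at hl
  have h1 : lvls [Lev.root] (N0 :: r ++ δ) = .root :: lvls [.out N0] (r ++ δ) := rfl
  rw [h1, List.length_cons, List.drop_succ_cons] at hl
  refine lvls_le ?_ l (List.mem_of_mem_drop hl)
  intro l' hl'
  rw [List.mem_singleton] at hl'
  rw [hl']
  exact lle_refl _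

/-- the number of levels at least `lam` -/
noncomputable def cnt (lam : Lev) (L : List Lev) : ℕ := by
  classical exact L.countP (fun l => decide (lam.le l))

theorem cnt_append (lam : Lev) (L L' : List Lev) : cnt lam (L ++ L') = cnt lam L + cnt lam L' := by
  unfold cnt
  exact List.countP_append

theorem cnt_pos {lam : Lev} {L : List Lev} (h : ∃ l ∈ L, lam.le l) : 1 ≤ cnt lam L := by
  unfold cnt
  obtain ⟨l, hl, h1⟩ := h
  exact List.countP_pos_iff.2 ⟨l, hl, by simpa using h1⟩

theorem cnt_le_count {lam : Lev} {L : List Lev} (h : ∀ l ∈ L, l.le lam) : cnt lam L ≤ L.count lam := by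
  unfold cnt
  rw [List.count_eq_countP]
  refine List.countP_mono_left ?_
  intro l hl h1
  have h2 : lam.le l := by simpa using h1
  have h3 : l = lam := lle_antisymm (h l hl) h2
  rw [h3]
  simp

theorem le_of_not_suc {lam l : Lev} (h : ¬ (suc lam).le l) : l.le lam := by
  rcases lam with j | j | _ <;> rcases l with k | k | _ <;> simp_all [Lev.le, suc]

end Pool.Agent.H90.Ord.UN
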