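import Pool.Agent.H90.Ord.UNGn
import Pool.Agent.H90.Ord.UNLv

/-!
# Flags (module UN-FL)

Elementary facts about `ofl`.  `inn_ex`: from the definition of `Inn`, `gn_step`, `nd_ev`, `ev_ge`, `Rep.step`: take one `n` in the
intersection of the sets, `u' = u ++ [n]`.
-/

set_option autoImplicit false

namespace Pool.Agent.H90.Ord.UN

open Filter

variable {R : List ℕ → List ℕ}

theorem ofl_nil : ofl [] = 0 := rfl

private theorem ofl_cons (l : Lev) (L : List Lev) : ofl (l :: L) = max (oc l) (ofl L) := rfl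

theorem ofl_append (L L' : List Lev) : ofl (L ++ L') = max (ofl L) (ofl L') := by
  induction L with
  | nil => rw [List.nil_append, ofl_nil, Nat.zero_max]
  | cons a L ih => rw [List.cons_append, ofl_cons, ofl_cons, ih, max_assoc]

theorem ofl_le_iff {L : List Lev} {F : ℕ} : ofl L ≤ F ↔ ∀ l ∈ L, oc l ≤ F := by
  induction L with
  | nil => simp [ofl_nil]
  | cons a L ih => rw [ofl_cons, max_le_iff, ih]; simp

theorem ofl_ge {L : List Lev} {j : ℕ} (h : Lev.out j ∈ L) : j + 1 ≤ ofl L :=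
  ofl_le_iff.1 le_rfl _ h

theorem ofl_mem {L : List Lev} {j : ℕ} (h : ofl L = j + 1) : Lev.out j ∈ L := by
  induction L with
  | nil => rw [ofl_nil] at h; omega
  | cons a L ih =>
    rw [ofl_cons] at h
    rcases le_total (oc a) (ofl L) with h1 | h1
    · rw [max_eq_right h1] at h
      exact List.mem_cons_of_mem _ (ih h)
    · rw [max_eq_left h1] at h
      cases a with
      | inn k => exact absurd h (by simp [oc])
      | out k =>
        have h2 : k + 1 = j + 1 := h
        have h3 : k = j := by omega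
        rw [h3]
        exact List.mem_cons_self
      | root => exact absurd h (by simp [oc])

theorem maxO_of {L : List Lev} {A : ℕ} (hr : ∀ l ∈ L, l ≠ .root) (h : ofl L = A + 1) : MaxO L A := by
  refine ⟨⟨_, ofl_mem h, rfl⟩, fun l hl => ?_⟩
  cases l with
  | inn k => exact Or.inl trivial
  | out j =>
    have h1 := ofl_ge hl
    exact Or.inr ⟨j, by omega, rfl⟩
  | root => exact absurd rfl (hr _ hl)

theorem ofl_pos {L : List Lev} (hr : ∀ l ∈ L, l ≠ .root) (h : ∃ l ∈ L, ¬ l.IsInn) : 1 ≤ ofl L := by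
  obtain ⟨l, hl, h1⟩ := h
  cases l with
  | inn k => exact absurd trivial h1
  | out j =>
    have h2 := ofl_ge hl
    omega
  | root => exact absurd rfl (hr _ hl)

/-- after the header no `root` is removed and the flags are bounded -/
theorem head_ofl {N0 : ℕ} {r ρ' : List ℕ} (h : Nd ρ') (hp : N0 :: r <+: ρ') :
    (∀ l ∈ rl (N0 :: r) ρ', l ≠ .root) ∧ ofl (rl (N0 :: r) ρ') ≤ N0 + 1 := by
  have h1 := head_bound h hp
  constructor
  · rintro l hl rfl
    exact (h1 _ hl : False)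
  · rw [ofl_le_iff]
    intro l hl
    have h2 := h1 l hl
    cases l with
    | inn k => exact Nat.zero_le _
    | out j =>
      have h3 : j ≤ N0 := h2
      show j + 1 ≤ N0 + 1
      omega
    | root => exact Nat.zero_le _

theorem ext_root (hR : Rep R) {u v : List ℕ} (h : Ext R u v) (hu : R u ≠ []) :
    ∀ l ∈ rl (R u) (R v), l ≠ .root := by
  obtain ⟨N0, r, e⟩ := List.exists_cons_of_ne_nil hu
  have h1 := (head_ofl (N0 := N0) (r := r) (hR.nd v h.1) (by rw [← e]; exact h.2)).1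
  rwa [← e] at h1

theorem ext_trans_rl (hR : Rep R) {u v w : List ℕ} (h : Ext R u v) (h' : Ext R v w) :
    rl (R u) (R w) = rl (R u) (R v) ++ rl (R v) (R w) :=
  rl_trans (hR.nd w h'.1) h.2 h'.2

theorem ext_ne {u v : List ℕ} (h : Ext R u v) (hu : R u ≠ []) : R v ≠ [] := by
  intro h1
  have h2 := h.2
  rw [h1] at h2
  exact hu (List.prefix_nil.1 h2)

theorem inn_ex (hR : Rep R) {k s : ℕ} {Q : List ℕ → Prop} {u : List ℕ} (hu : Nd u) (h : Inn R (k + 1) u)
    (hs : s < (stk u).length) (hQ : Gn s Q u) (m : ℕ) :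
    ∃ v, Adv R m u v ∧ (∀ l ∈ rl (R u) (R v), l.IsInn) ∧ Inn R k v ∧ Gn s Q v ∧
      s ≤ (stk v).length := by
  obtain ⟨h0, h1⟩ := h
  obtain ⟨n0, hn0⟩ := nd_ev hu h0
  obtain ⟨n1, hn1⟩ := hR.step u hu h0 m
  obtain ⟨n, ⟨⟨h2, h3⟩, h4⟩, h5, h6⟩ :=
    ((h1.and (gn_step hQ hs)).and ((ev_ge n0).and (ev_ge n1))).exists
  have h7 := hn0 n h5
  obtain ⟨k', r, e, hk⟩ := hn1 n h6
  refine ⟨u ++ [n], ⟨h7, k', r, e, hk⟩, h2, h3, h4, ?_⟩
  obtain ⟨l, t, e1⟩ := List.exists_cons_of_ne_nil h0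
  rw [stk_snoc hu e1, List.length_append]
  rw [e1, List.length_cons] at hs
  omega

end Pool.Agent.H90.Ord.UN
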