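import Pool.Agent.H90.Ord.UNF

/-!
# Chapter NEG-UN: nodes with inner moves (module UNG)

`non_of_not_inn`: ultrafilter property, induction on `k`.
`exists_inn`: let `u` be a node with stack `out j :: τ`, `R u ≠ []`, `Gn Q u [out j]`, and suppose that there is no such
`v`.  Call `v` good (`Gd`) if it is a node with stack `ρ ++ τ`, `ρ ≠ []`, `Ext R u v`, `Gn Q v ρ`; so `Non R k v` for all
good `v`.  `gd_next`: if `v` is good with stack `l :: ρ' ++ τ` then for generic `n` the node `v ++ [n]` is good, or its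
stack is `τ`.  `gd_split`: if `v` is good with part `ρ1 ++ ρ2`, `ρ2 ≠ []`, then generically, after the part `ρ1`, the
reached node is good with part `ρ2` (`gn_append`, `gn_ext`).
`non_run`: `Non R k w`, `k ≤ n`, `w` a node with stack `replicate n (inn 0) ++ τ'`: then generically a level which is not
inner is removed while this part is processed (induction on `k`).
`gd_inn`: for all `i`, if `v` is good with part `inn (i+1) :: ρ'` then generically a level `≥ out i` is removed while
`inn (i+1)` is processed.  Induction on `i`: `i = 0`: `Non R k v`; the first move reads `n ≥ k`, then `n` copies of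
`inn 0` (`non_run`; a level which is not inner is `≥ out 0`).  `i+1`: `n` copies of `inn (i+1)`, each removes a level
`≥ out i` (by `gd_split` the nodes at the beginning of each copy are good), so `Has n (out i)`; if no level
`≥ out (i+1)` is removed, `n ≤` the number of entries `out i` in `stkOf (R v)` (`Has.count`, `count_le`).
End: after `j` generic moves from `u` there is a good node with part `out 0 :: ρ'` (or `j = 0`: `u` itself); reading a
generic `n > N0 + 1` gives a good node with part `inn n :: ρ'`, and a level `≥ out (n-1)` is removed, against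
`hdr` (`R u = N0 :: _` since `R u ≠ []`).
-/

set_option autoImplicit false

namespace Pool.Agent.H90.Ord

open Filter

variable {f : VI → VI} {R : List ℕ → List ℕ} {Q : List ℕ → Prop}

theorem non_of_not_inn {k : ℕ} {v : List ℕ} (h : ¬ Inn R k v) : Non R k v := by
  induction k generalizing v with
  | zero => exact absurd trivial h
  | succ k ih =>
    have h1 : ¬ ∀ᶠ n in (hyperfilter ℕ : Filter ℕ),
        (∀ l ∈ NL R v (v ++ [n]), l.IsInn) ∧ Inn R k (v ++ [n]) := h
    have h2 := Ultrafilter.eventually_not.2 h1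
    show ∀ᶠ n in (hyperfilter ℕ : Filter ℕ),
      (∃ l ∈ NL R v (v ++ [n]), ¬ l.IsInn) ∨ Non R k (v ++ [n])
    filter_upwards [h2] with n hn
    by_cases h3 : ∃ l ∈ NL R v (v ++ [n]), ¬ l.IsInn
    · exact Or.inl h3
    · push Not at h3
      exact Or.inr (ih fun h4 => hn ⟨h3, h4⟩)

/-- good nodes inside the processing of the top of `u` -/
def Gd (R : List ℕ → List ℕ) (Q : List ℕ → Prop) (u : List ℕ) (τ : List Lev) (v : List ℕ)
    (ρ : List Lev) : Prop :=
  Nd v (ρ ++ τ) ∧ ρ ≠ [] ∧ Ext R u v ∧ Gn Q v ρ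

theorem gd_split (hR : Rl f R) {u v : List ℕ} {τ ρ1 ρ2 : List Lev}
    (h : Gd R Q u τ v (ρ1 ++ ρ2)) (h2 : ρ2 ≠ []) :
    Gn (fun w => Gd R Q u τ w ρ2 ∧ Ext R v w) v ρ1 := by
  obtain ⟨h1, -, h3, h4⟩ := h
  rw [List.append_assoc] at h1
  refine gn_mono ?_ (gn_ext hR h1 (gn_append.1 h4))
  rintro w ⟨h5, h6, h7⟩
  exact ⟨⟨h6, h2, h3.trans h7, h5⟩, h7⟩

theorem gd_next (hR : Rl f R) {u v : List ℕ} {τ ρ : List Lev} {l : Lev}
    (h : Gd R Q u τ v (l :: ρ)) :
    ∀ᶠ n in (hyperfilter ℕ : Filter ℕ), kidsLev l n ++ ρ ≠ [] →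
      Gd R Q u τ (v ++ [n]) (kidsLev l n ++ ρ) := by
  obtain ⟨h1, -, h3, h4⟩ := h
  have h1' : Nd v (l :: (ρ ++ τ)) := h1
  filter_upwards [ev_next hR h1' 0, gn_cons.1 h4] with n hn hn' hne
  refine ⟨?_, hne, h3.trans hn.2.1.ext, hn'⟩
  rw [List.append_assoc]
  exact hn.1

theorem gn_true {u : List ℕ} {ρ : List Lev} : Gn (fun _ => True) u ρ := by
  by_contra h
  obtain ⟨v, hv⟩ := gn_exists (gn_not h)
  exact hv trivial

theorem non_run (hR : Rl f R) (k : ℕ) {n : ℕ} (hk : k ≤ n) {w : List ℕ} {τ : List Lev}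
    (hw : Nd w (List.replicate n (.inn 0) ++ τ)) (h : Non R k w) :
    Gn (fun v => ∃ l ∈ NL R w v, ¬ l.IsInn) w (List.replicate n (.inn 0)) := by
  induction k generalizing n w with
  | zero => exact absurd h id
  | succ k ih =>
    obtain ⟨m, rfl⟩ : ∃ m, n = m + 1 := ⟨n - 1, by omega⟩
    rw [List.replicate_succ] at hw ⊢
    have hw' : Nd w (.inn 0 :: (List.replicate m (.inn 0) ++ τ)) := hw
    have h1 : ∀ᶠ n in (hyperfilter ℕ : Filter ℕ),
      (∃ l ∈ NL R w (w ++ [n]), ¬ l.IsInn) ∨ Non R k (w ++ [n]) := h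
    rw [gn_cons]
    filter_upwards [h1, ev_next hR hw' 0] with j hj hj'
    obtain ⟨h2, h3, -⟩ := hj'
    have h2' : Nd (w ++ [j]) (List.replicate m (.inn 0) ++ τ) := h2
    show Gn _ (w ++ [j]) (List.replicate m (.inn 0))
    rcases hj with ⟨l, hl, hli⟩ | hj
    · refine gn_mono ?_ (gn_ext hR h2' gn_true)
      rintro x ⟨-, hx, hext⟩
      refine ⟨l, ?_, hli⟩
      rw [NL_trans hR hw' h2 hx h3.ext hext]
      exact List.mem_append_left _ hl
    · refine gn_mono ?_ (gn_ext hR h2' (ih (by omega) h2' hj))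
      rintro x ⟨⟨l, hl, hli⟩, hx, hext⟩
      refine ⟨l, ?_, hli⟩
      rw [NL_trans hR hw' h2 hx h3.ext hext]
      exact List.mem_append_right _ hl

theorem many_gd (hR : Rl f R) {u : List ℕ} {τ : List Lev} {p q : Lev}
    (hp : ∀ {v : List ℕ} {ρ : List Lev}, Gd R Q u τ v (p :: ρ) →
      Gn (fun w => ∃ l ∈ NL R v w, q.le l) v [p]) (m : ℕ) {v : List ℕ} {ρ : List Lev}
    (h : Gd R Q u τ v (List.replicate m p ++ ρ)) :
    Gn (fun w => Has m q (NL R v w)) v (List.replicate m p) := by
  induction m generalizing v with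
  | zero => exact Gn.stop ⟨[], List.nil_sublist _, rfl, by simp⟩
  | succ m ih =>
    rw [List.replicate_succ] at h ⊢
    have h' : Gd R Q u τ v (p :: (List.replicate m p ++ ρ)) := h
    have h1 := hp h'
    rcases Nat.eq_zero_or_pos m with rfl | hm
    · refine gn_mono ?_ h1
      rintro w ⟨l, hl, hql⟩
      exact Has.one hl hql
    · have hne : List.replicate m p ++ ρ ≠ [] := by
        intro h0
        have h2 := congrArg List.length h0
        rw [List.length_append, List.length_replicate, List.length_nil] at h2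
        omega
      have hs : Gd R Q u τ v ([p] ++ (List.replicate m p ++ ρ)) := h'
      have h2 := gd_split hR hs hne
      rw [← List.singleton_append, gn_append]
      refine gn_mono ?_ (gn_and h1 h2)
      rintro w ⟨⟨l, hl, hql⟩, hg, hext⟩
      have hv : Nd v ([p] ++ ((List.replicate m p ++ ρ) ++ τ)) := h'.1
      have hw : Nd w (List.replicate m p ++ (ρ ++ τ)) := by
        rw [← List.append_assoc]
        exact hg.1
      refine gn_mono ?_ (gn_ext hR hw (ih hg))
      rintro x ⟨hH, hx, hext'⟩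
      rw [NL_trans hR hv hw hx hext hext', Nat.add_comm]
      exact Has.append (Has.one hl hql) hH

theorem gd_inn (hR : Rl f R) {k : ℕ} {u : List ℕ} {τ : List Lev}
    (hbad : ∀ v ρ, Gd R Q u τ v ρ → Non R k v) (i : ℕ) {v : List ℕ} {ρ : List Lev}
    (h : Gd R Q u τ v (.inn (i + 1) :: ρ)) :
    Gn (fun w => ∃ l ∈ NL R v w, (Lev.out i).le l) v [.inn (i + 1)] := by
  induction i generalizing v ρ with
  | zero =>
    have h1 : Non R k v := hbad _ _ h
    have hnd : Nd v (.inn 1 :: (ρ ++ τ)) := h.1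
    cases k with
    | zero => exact absurd h1 id
    | succ k =>
      have h2 : ∀ᶠ n in (hyperfilter ℕ : Filter ℕ),
        (∃ l ∈ NL R v (v ++ [n]), ¬ l.IsInn) ∨ Non R k (v ++ [n]) := h1
      rw [gn_cons]
      filter_upwards [h2, ev_next hR hnd k] with n hn hn'
      obtain ⟨h3, h4, h5⟩ := hn'
      have h3' : Nd (v ++ [n]) (List.replicate n (.inn 0) ++ (ρ ++ τ)) := h3
      have key : ∀ l : Lev, ¬ l.IsInn → (Lev.out 0).le l := by
        intro l hl
        cases l with
        | inn j => exact absurd trivial hl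
        | out j => exact Nat.zero_le j
        | root => exact trivial
      rw [List.append_nil]
      show Gn _ (v ++ [n]) (List.replicate n (.inn 0))
      rcases hn with ⟨l, hl, hli⟩ | hn
      · refine gn_mono ?_ (gn_ext hR h3' gn_true)
        rintro x ⟨-, hx, hext⟩
        refine ⟨l, ?_, key l hli⟩
        rw [NL_trans hR hnd h3 hx h4.ext hext]
        exact List.mem_append_left _ hl
      · refine gn_mono ?_ (gn_ext hR h3' (non_run hR k h5 h3' hn))
        rintro x ⟨⟨l, hl, hli⟩, hx, hext⟩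
        refine ⟨l, ?_, key l hli⟩
        rw [NL_trans hR hnd h3 hx h4.ext hext]
        exact List.mem_append_right _ hl
  | succ i ih =>
    have hnd : Nd v (.inn (i + 2) :: (ρ ++ τ)) := h.1
    rw [gn_cons]
    filter_upwards [gd_next hR h, ev_next hR hnd ((stkOf (R v)).count (.out i) + 1)]
      with n hn hn'
    obtain ⟨h3, h4, h5⟩ := hn'
    obtain ⟨m, rfl⟩ : ∃ m, n = m + 1 := ⟨n - 1, by omega⟩
    have h3' : Nd (v ++ [m + 1]) (List.replicate (m + 1) (.inn (i + 1)) ++ (ρ ++ τ)) := h3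
    have hg : Gd R Q u τ (v ++ [m + 1]) (List.replicate (m + 1) (.inn (i + 1)) ++ ρ) :=
      hn (by simp [kidsLev, List.replicate_succ])
    rw [List.append_nil]
    show Gn _ (v ++ [m + 1]) (List.replicate (m + 1) (.inn (i + 1)))
    have h6 := gn_ext hR h3' (many_gd hR (fun h => ih h) (m + 1) hg)
    refine gn_mono ?_ h6
    rintro x ⟨hH, hx, hext⟩
    by_contra hcon
    push Not at hcon
    have h7 : ∀ l ∈ NL R v x, l.le (.out i) := fun l hl => lev_not_le_out (hcon l hl)
    have h8 : Has (m + 1) (.out i) (NL R v x) := by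
      rw [NL_trans hR hnd h3 hx h4.ext hext]
      exact hH.mono (List.sublist_append_right _ _) le_rfl
    have h9 := h8.count h7
    have h10 : (NL R v x).count (.out i) ≤ (stkOf (R v)).count (.out i) :=
      count_le (stkOf (R v)) ((R x).drop (R v).length) h7
    omega

theorem exists_inn (hR : Rl f R) (k : ℕ) {u : List ℕ} {j : ℕ} {τ : List Lev}
    (hu : Nd u (.out j :: τ)) (h0 : R u ≠ []) (hQ : Gn Q u [.out j]) :
    ∃ v ρ, Nd v (ρ ++ τ) ∧ ρ ≠ [] ∧ Ext R u v ∧ Gn Q v ρ ∧ Inn R k v := by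
  by_contra hcon
  push Not at hcon
  have hbad : ∀ v ρ, Gd R Q u τ v ρ → Non R k v := fun v ρ h =>
    non_of_not_inn (hcon v ρ h.1 h.2.1 h.2.2.1 h.2.2.2)
  have hst : Gd R Q u τ u [.out j] := ⟨hu, by simp, Ext.refl u, hQ⟩
  obtain ⟨N0, r, hN⟩ := List.exists_cons_of_ne_nil h0
  have hdown : ∀ j v ρ, Gd R Q u τ v (.out j :: ρ) → ∃ v' ρ', Gd R Q u τ v' (.out 0 :: ρ') := by
    intro j
    induction j with
    | zero => exact fun v ρ h => ⟨v, ρ, h⟩
    | succ j ih =>
      intro v ρ h
      have hnd : Nd v (.out (j + 1) :: (ρ ++ τ)) := h.1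
      obtain ⟨n, hn, hn'⟩ := ((gd_next hR h).and (ev_next hR hnd 1)).exists
      obtain ⟨m, rfl⟩ : ∃ m, n = m + 1 := ⟨n - 1, by have := hn'.2.2; omega⟩
      have h1 := hn (by simp [kidsLev, List.replicate_succ])
      exact ih _ (List.replicate m (.out j) ++ ρ) h1
  obtain ⟨v, ρ, hv⟩ := hdown j u [] hst
  have hnd : Nd v (.out 0 :: (ρ ++ τ)) := hv.1
  obtain ⟨n, hn, hn'⟩ := ((gd_next hR hv).and (ev_next hR hnd (N0 + 2))).exists
  obtain ⟨h3, h4, h5⟩ := hn'
  obtain ⟨i, rfl⟩ : ∃ i, n = i + 1 := ⟨n - 1, by omega⟩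
  have h1 : Gd R Q u τ (v ++ [i + 1]) (.inn (i + 1) :: ρ) := hn (by simp [kidsLev])
  have h1n : Nd (v ++ [i + 1]) ([.inn (i + 1)] ++ (ρ ++ τ)) := h1.1
  obtain ⟨w, ⟨l, hl, hle⟩, hw, hext⟩ := gn_exists (gn_ext hR h1n (gd_inn hR hbad i h1))
  obtain ⟨W, hW⟩ := h1.2.2.1
  have h6 : R (v ++ [i + 1]) = N0 :: (r ++ W) := by rw [hW, hN]; rfl
  have h7 := hdr hR h1n hw hext h6 l hl
  rcases h7 with h7 | ⟨j', hj', rfl⟩
  · cases l with
    | inn j => exact hle
    | out j => exact h7
    | root => exact h7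
  · have h8 : i ≤ j' := hle
    omega

end Pool.Agent.H90.Ord
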