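import Pool.Agent.H90.Ord.UNNd

/-!
# Generic nodes (module UN-GN)

`gn_mono`, `gn_not`, `gn_and`, `gn_comp`, `gn_ext`, `gn_suf` by induction on `Gn`; `gn_or` by `nd_ind` (if `s < (stk u).length`
then for almost all `n` the node `u ++ [n]` satisfies one of the two, use that `hyperfilter ℕ` is an ultrafilter, for
example `Ultrafilter.eventually_or`).  `gn_suf`: a list `stk v` which is a suffix of `kidsLev l n ++ t` with length at
most `t.length` is a suffix of `t` (`List.suffix_of_suffix_length_le`).  `gn_fin` by induction on the finite set with `gn_or`.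
-/

set_option autoImplicit false

namespace Pool.Agent.H90.Ord.UN

open Filter

variable {R : List ℕ → List ℕ} {s s' m : ℕ} {Q Q' : List ℕ → Prop} {u v w : List ℕ}

theorem Ext.refl (hu : Nd u) : Ext R u u := ⟨hu, List.prefix_refl _⟩

theorem Ext.trans (h : Ext R u v) (h' : Ext R v w) : Ext R u w := ⟨h'.1, h.2.trans h'.2⟩

theorem Adv.ext (h : Adv R m u v) : Ext R u v := by
  obtain ⟨h1, k, r, h2, _⟩ := h
  exact ⟨h1, by rw [h2]; exact List.prefix_append _ _⟩

theorem Adv.trans (h : Adv R m u v) (h' : Ext R v w) : Adv R m u w := by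
  obtain ⟨_, k, r, h2, h3⟩ := h
  obtain ⟨h4, q, h5⟩ := h'
  refine ⟨h4, k, r ++ q, ?_, h3⟩
  rw [← h5, h2, List.append_assoc]
  rfl

theorem gn_mono (h : Gn s Q u) (hQ : ∀ v, Q v → Q' v) : Gn s Q' u := by
  induction h with
  | done u h h1 => exact Gn.done u h (hQ u h1)
  | step u h T hT _ ih => exact Gn.step u h T hT ih

theorem gn_at (h : Gn s Q u) (hs : (stk u).length ≤ s) : Q u := by
  cases h with
  | done _ _ h1 => exact h1
  | step _ h _ _ _ => omega

theorem gn_step (h : Gn s Q u) (hs : s < (stk u).length) :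
    ∀ᶠ n in (hyperfilter ℕ : Filter ℕ), Gn s Q (u ++ [n]) := by
  cases h with
  | done _ h _ => omega
  | step _ _ T hT h1 => exact Filter.mem_of_superset hT h1

theorem gn_of_step (hs : s < (stk u).length)
    (h : ∀ᶠ n in (hyperfilter ℕ : Filter ℕ), Gn s Q (u ++ [n])) : Gn s Q u :=
  Gn.step u hs {n | Gn s Q (u ++ [n])} h (fun _ hn => hn)

theorem gn_not (h : Gn s Q u) (h' : Gn s (fun v => ¬ Q v) u) : False := by
  induction h with
  | done u h h1 => exact gn_at h' h h1
  | step u h T hT _ ih =>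
      obtain ⟨n, hn, hn'⟩ := ((Filter.eventually_mem_set.2 hT).and (gn_step h' h)).exists
      exact ih n hn hn'

theorem gn_and (h : Gn s Q u) (h' : Gn s Q' u) : Gn s (fun v => Q v ∧ Q' v) u := by
  induction h with
  | done u h h1 => exact Gn.done u h ⟨h1, gn_at h' h⟩
  | step u h T hT _ ih =>
      refine gn_of_step h ?_
      exact ((Filter.eventually_mem_set.2 hT).and (gn_step h' h)).mono
        (fun n hn => ih n hn.1 hn.2)

theorem gn_or (hu : Nd u) (s : ℕ) (Q : List ℕ → Prop) : Gn s Q u ∨ Gn s (fun v => ¬ Q v) u := by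
  refine nd_ind (P := fun u => Gn s Q u ∨ Gn s (fun v => ¬ Q v) u) ?_ u hu
  intro u hu ih
  by_cases hs : (stk u).length ≤ s
  · by_cases hq : Q u
    · exact Or.inl (Gn.done u hs hq)
    · exact Or.inr (Gn.done u hs hq)
  · have hs' : s < (stk u).length := not_le.1 hs
    have hne : stk u ≠ [] := by
      intro h0
      rw [h0] at hs'
      exact absurd hs' (Nat.not_lt_zero _)
    obtain ⟨n0, hn0⟩ := nd_ev hu hne
    have hev : ∀ᶠ n in (hyperfilter ℕ : Filter ℕ),
        Gn s Q (u ++ [n]) ∨ Gn s (fun v => ¬ Q v) (u ++ [n]) :=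
      (ev_ge n0).mono (fun n hn => ih n (hn0 n hn))
    rcases Ultrafilter.eventually_or.1 hev with h | h
    · exact Or.inl (gn_of_step hs' h)
    · exact Or.inr (gn_of_step hs' h)

theorem gn_true (hu : Nd u) (s : ℕ) : Gn s (fun _ => True) u := by
  rcases gn_or hu s (fun _ => True) with h | h
  · exact h
  · exact gn_mono h (fun _ _ => trivial)

/-- processing in two parts -/
theorem gn_comp (hs : s ≤ s') : Gn s Q u ↔ Gn s' (Gn s Q) u := by
  constructor
  · intro h
    induction h with
    | done u h h1 => exact Gn.done u (h.trans hs) (Gn.done u h h1)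
    | step u h T hT hQ ih =>
        by_cases h' : s' < (stk u).length
        · exact Gn.step u h' T hT ih
        · exact Gn.done u (not_lt.1 h') (Gn.step u h T hT hQ)
  · intro h
    induction h with
    | done u h h1 => exact h1
    | step u h T hT _ ih => exact Gn.step u (lt_of_le_of_lt hs h) T hT ih

private theorem ne_of_lt_len {u : List ℕ} {s : ℕ} (h : s < (stk u).length) : stk u ≠ [] := by
  intro h0
  rw [h0] at h
  exact absurd h (Nat.not_lt_zero _)

theorem gn_ext (hR : Rep R) (hu : Nd u) (h : Gn s Q u) : Gn s (fun v => Ext R u v ∧ Q v) u := by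
  induction h with
  | done u h h1 => exact Gn.done u h ⟨Ext.refl hu, h1⟩
  | step u h T hT _ ih =>
      have hne := ne_of_lt_len h
      obtain ⟨n0, hn0⟩ := nd_ev hu hne
      obtain ⟨n1, hn1⟩ := hR.step u hu hne 0
      refine gn_of_step h ?_
      refine ((Filter.eventually_mem_set.2 hT).and ((ev_ge n0).and (ev_ge n1))).mono ?_
      rintro n ⟨ha, hb, hc⟩
      have hnd := hn0 n hb
      obtain ⟨k, r, hk, _⟩ := hn1 n hc
      refine gn_mono (ih n ha hnd) ?_
      rintro v ⟨hv, hq⟩
      exact ⟨Ext.trans ⟨hnd, by rw [hk]; exact List.prefix_append _ _⟩ hv, hq⟩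

theorem gn_suf (hu : Nd u) (hs : s ≤ (stk u).length) (h : Gn s Q u) :
    Gn s (fun v => (stk v <:+ stk u ∧ (stk v).length = s) ∧ Q v) u := by
  induction h with
  | done u h h1 => exact Gn.done u h ⟨⟨List.suffix_refl _, le_antisymm h hs⟩, h1⟩
  | step u h T hT _ ih =>
      have hne := ne_of_lt_len h
      obtain ⟨n0, hn0⟩ := nd_ev hu hne
      refine gn_of_step h ?_
      refine ((Filter.eventually_mem_set.2 hT).and (ev_ge n0)).mono ?_
      rintro n ⟨ha, hb⟩
      have hnd := hn0 n hb
      obtain ⟨l, t, hlt⟩ := List.exists_cons_of_ne_nil hne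
      have hst := stk_snoc hu hlt n
      have hlen : (stk u).length = t.length + 1 := by rw [hlt]; rfl
      have hs2 : s ≤ (stk (u ++ [n])).length := by
        rw [hst, List.length_append]
        omega
      refine gn_mono (ih n ha hnd hs2) ?_
      rintro v ⟨⟨hv1, hv2⟩, hq⟩
      refine ⟨⟨?_, hv2⟩, hq⟩
      rw [hst] at hv1
      have h3 : t <:+ kidsLev l n ++ t := List.suffix_append _ _
      have h4 : stk v <:+ t := List.suffix_of_suffix_length_le hv1 h3 (by omega)
      rw [hlt]
      exact h4.trans (List.suffix_cons _ _)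

theorem gn_fin {ι : Type} (S : Finset ι) (P : ι → List ℕ → Prop) (hu : Nd u)
    (h : Gn s (fun v => ∃ i ∈ S, P i v) u) : ∃ i ∈ S, Gn s (P i) u := by
  classical
  induction S using Finset.induction_on with
  | empty =>
      exfalso
      refine gn_not h (gn_mono (gn_true hu s) ?_)
      rintro v _ ⟨i, hi, _⟩
      exact absurd hi (Finset.notMem_empty i)
  | insert a S _ ih =>
      rcases gn_or hu s (P a) with h1 | h1
      · exact ⟨a, Finset.mem_insert_self _ _, h1⟩
      · have h2 : Gn s (fun v => ∃ i ∈ S, P i v) u := by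
          refine gn_mono (gn_and h h1) ?_
          rintro v ⟨⟨i, hi, hp⟩, hna⟩
          rcases Finset.mem_insert.1 hi with rfl | hi
          · exact absurd hp hna
          · exact ⟨i, hi, hp⟩
        obtain ⟨i, hi, hp⟩ := ih h2
        exact ⟨i, Finset.mem_insert_of_mem hi, hp⟩

/-- a generic node exists -/
theorem gn_ex' (hR : Rep R) (hu : Nd u) (hs : s ≤ (stk u).length) (h : Gn s Q u) :
    ∃ v, Ext R u v ∧ stk v <:+ stk u ∧ (stk v).length = s ∧ Q v := by
  have key : ∀ {Q : List ℕ → Prop} {u : List ℕ}, Gn s Q u → ∃ v, Q v := by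
    intro Q u h
    induction h with
    | done u _ h1 => exact ⟨u, h1⟩
    | step u _ T hT _ ih =>
        obtain ⟨n, hn⟩ := (Filter.eventually_mem_set.2 hT).exists
        exact ih n hn
  obtain ⟨v, hv1, ⟨hv2, hv3⟩, hv4⟩ := key (gn_ext hR hu (gn_suf hu hs h))
  exact ⟨v, hv1, hv2, hv3, hv4⟩

/-- a generic node exists, with a large new number -/
theorem gn_ex (hR : Rep R) (hu : Nd u) (hs : s < (stk u).length) (h : Gn s Q u) (m : ℕ) :
    ∃ v, Adv R m u v ∧ stk v <:+ stk u ∧ (stk v).length = s ∧ Q v := by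
  have hne := ne_of_lt_len hs
  obtain ⟨n0, hn0⟩ := nd_ev hu hne
  obtain ⟨n1, hn1⟩ := hR.step u hu hne m
  obtain ⟨n, ha, hb, hc⟩ := ((gn_step h hs).and ((ev_ge n0).and (ev_ge n1))).exists
  have hnd := hn0 n hb
  obtain ⟨k, r, hk, hm⟩ := hn1 n hc
  obtain ⟨l, t, hlt⟩ := List.exists_cons_of_ne_nil hne
  have hst := stk_snoc hu hlt n
  have hlen : (stk u).length = t.length + 1 := by rw [hlt]; rfl
  have hs2 : s ≤ (stk (u ++ [n])).length := by
    rw [hst, List.length_append]
    omega
  obtain ⟨v, hv1, hv2, hv3, hv4⟩ := gn_ex' hR hnd hs2 ha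
  refine ⟨v, Adv.trans ⟨hnd, k, r, hk, hm⟩ hv1, ?_, hv3, hv4⟩
  rw [hst] at hv2
  have h3 : t <:+ kidsLev l n ++ t := List.suffix_append _ _
  have h4 : stk v <:+ t := List.suffix_of_suffix_length_le hv2 h3 (by omega)
  rw [hlt]
  exact h4.trans (List.suffix_cons _ _)

end Pool.Agent.H90.Ord.UN
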