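import Pool.Agent.H90.Ord.UNCl

/-!
# Inner moves (module UN-I)

`units`: induction on `k`.  `k = 0`: `Inn R 0 w` holds, contradiction.  `k + 1`: since `stk w ≠ []`, for almost all `n` either some level in
`rl (R w) (R (w ++ [n]))` is not inner, or `¬ Inn R k (w ++ [n])`.  In the first case use `gn_true` and `gn_ext` for `w ++ [n]`, in the second
one the induction hypothesis (`stk (w ++ [n]) = replicate (k+1) (inn 0) ++ t`), `gn_ext`, `rl_trans`; `gn_of_step`.

`inn_step` (`i = 0`): `stk u = inn 1 :: t`: for `n ≥ k + 1` the node `w = u ++ [n]` has the stack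
`replicate (k+1) (inn 0) ++ (replicate (n-k-1) (inn 0) ++ t)` and is not `Inn R k` (`aw_step`, `aw_at`): `units`, then `gn_comp` and `gn_ext`
(for the rest use `gn_true`).  `i + 1`: `cstep` with `l = inn (i+1)`, `lam = out i`, `P = fun u => ¬ Inn R k u`.

`lemmaI`: induction on `l` for all `v`, `t`.  `l + 1`: for a large `n ≥ 1` the node `w = v ++ [n]` has the stack `out l :: (replicate (n-1) (out l) ++ t)`
and `Aw` (`aw_step`, `aw_le`), `R w ≠ []` (`Rep.step`); induction hypothesis.  `l = 0`: let `R v = N0 :: r`; for a large `n > N0 + 1`, `w = v ++ [n]` has the stack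
`inn n :: t`; by `inn_step` (with `i = n - 1`) and `gn_ex'` there is a level `≥ out (n-1)` in `rl (R w) (R v')`, which is in `rl (R v) (R v')`, so it is
`≤ out N0` (`head_bound`).
-/

set_option autoImplicit false

namespace Pool.Agent.H90.Ord.UN

open Filter

variable {R : List ℕ → List ℕ}

private theorem etr (hR : Rep R) {u v w : List ℕ} (h : Ext R u v) (h' : Ext R v w) :
    rl (R u) (R w) = rl (R u) (R v) ++ rl (R v) (R w) := rl_trans (hR.nd w h'.1) h.2 h'.2

private theorem ext_snoc {u : List ℕ} {n : ℕ} (h : Nd (u ++ [n]))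
    (hs : ∃ k r, R (u ++ [n]) = R u ++ k :: r ∧ 0 ≤ k) : Ext R u (u ++ [n]) := by
  obtain ⟨k, r, h1, -⟩ := hs
  exact ⟨h, by rw [h1]; exact List.prefix_append _ _⟩

theorem units (hR : Rep R) (k : ℕ) (w : List ℕ) (t : List Lev) (hw : Nd w)
    (hs : stk w = List.replicate (k + 1) (.inn 0) ++ t) (hn : ¬ Inn R k w) :
    Gn t.length (fun v => ∃ l' ∈ rl (R w) (R v), ¬ l'.IsInn) w := by
  induction k generalizing w with
  | zero =>
    refine absurd ?_ hn
    unfold Inn
    rw [hs]
    simp
  | succ k ih =>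
    have hne : stk w ≠ [] := by rw [hs]; simp [List.replicate_succ]
    have hlen : t.length < (stk w).length := by
      rw [hs, List.length_append, List.length_replicate]; omega
    apply gn_of_step hlen
    have hev : ∀ᶠ n in (hyperfilter ℕ : Filter ℕ),
        ¬ ((∀ l ∈ rl (R w) (R (w ++ [n])), l.IsInn) ∧ Inn R k (w ++ [n])) := by
      refine Ultrafilter.eventually_not.2 fun h => hn ?_
      unfold Inn
      exact ⟨hne, h⟩
    obtain ⟨n0, hn0⟩ := nd_ev hw hne
    obtain ⟨n1, hn1⟩ := hR.step w hw hne 0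
    filter_upwards [hev, ev_ge n0, ev_ge n1] with n h1 h2 h3
    have hnd : Nd (w ++ [n]) := hn0 n h2
    have hext : Ext R w (w ++ [n]) := ext_snoc hnd (hn1 n h3)
    have hsw : stk w = Lev.inn 0 :: (List.replicate (k + 1) (.inn 0) ++ t) := by
      rw [hs, List.replicate_succ, List.cons_append]
    by_cases hc : ∀ l ∈ rl (R w) (R (w ++ [n])), l.IsInn
    · have h4 : ¬ Inn R k (w ++ [n]) := fun h => h1 ⟨hc, h⟩
      have h5 := ih (w ++ [n]) hnd (by rw [stk_snoc hw hsw n]; rfl) h4
      refine gn_mono (gn_ext hR hnd h5) ?_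
      rintro v ⟨hv, l', hl', hni⟩
      exact ⟨l', by rw [etr hR hext hv]; exact List.mem_append_right _ hl', hni⟩
    · push Not at hc
      obtain ⟨l', hl', hni⟩ := hc
      refine gn_mono (gn_ext hR hnd (gn_true hnd t.length)) ?_
      rintro v ⟨hv, -⟩
      exact ⟨l', by rw [etr hR hext hv]; exact List.mem_append_left _ hl', hni⟩

theorem inn_step (hR : Rep R) (k i : ℕ) : ∀ u t, Nd u → stk u = .inn (i + 1) :: t →
    Aw t.length (fun u => ¬ Inn R k u) u →
      Gn t.length (fun v => ∃ l' ∈ rl (R u) (R v), (Lev.out i).le l') u := by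
  induction i with
  | zero =>
    intro u t hu hs haw
    have hne : stk u ≠ [] := by rw [hs]; simp
    have hlen : t.length < (stk u).length := by rw [hs]; simp
    apply gn_of_step hlen
    obtain ⟨n0, hn0⟩ := nd_ev hu hne
    obtain ⟨n1, hn1⟩ := hR.step u hu hne 0
    filter_upwards [aw_step haw hlen, ev_ge n0, ev_ge n1, ev_ge (k + 1)] with n h1 h2 h3 h4
    have hnd : Nd (u ++ [n]) := hn0 n h2
    have hext : Ext R u (u ++ [n]) := ext_snoc hnd (hn1 n h3)
    have hsw : stk (u ++ [n]) = List.replicate (k + 1) (.inn 0) ++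
        (List.replicate (n - (k + 1)) (.inn 0) ++ t) := by
      rw [stk_snoc hu hs n, ← List.append_assoc, ← List.replicate_add,
        Nat.add_sub_cancel' h4]
      rfl
    have hlw : t.length < (stk (u ++ [n])).length := by
      rw [hsw]; simp only [List.length_append, List.length_replicate]; omega
    have h5 := units hR k (u ++ [n]) _ hnd hsw (aw_at h1 hlw)
    have hle : t.length ≤ (List.replicate (n - (k + 1)) (Lev.inn 0) ++ t).length := by
      rw [List.length_append]; omega
    refine (gn_comp hle).2 (gn_mono (gn_ext hR hnd h5) ?_)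
    rintro v ⟨hv, l', hl', hni⟩
    refine gn_mono (gn_ext hR hv.1 (gn_true hv.1 t.length)) ?_
    rintro v' ⟨hv', -⟩
    refine ⟨l', ?_, ?_⟩
    · rw [etr hR hext (hv.trans hv'), etr hR hv hv']
      exact List.mem_append_right _ (List.mem_append_left _ hl')
    · cases l' with
      | inn k => exact absurd trivial hni
      | out k => exact Nat.zero_le k
      | root => trivial
  | succ i ih =>
    intro u t hu hs haw
    exact cstep hR (fun u => ¬ Inn R k u) (.inn (i + 1)) (.inn (i + 1 + 1)) (.out i)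
      (fun n => rfl) (by simp) (fun w t' hw hs' ha => ih w t' hw hs' ha) u t hu hs haw

/-- in the processing of an outer entry there are nodes with `k` inner moves -/
theorem lemmaI (hR : Rep R) (k l : ℕ) (v : List ℕ) (t : List Lev) (hv : Nd v)
    (hs : stk v = .out l :: t) (hh : R v ≠ []) : ¬ Aw t.length (fun u => ¬ Inn R k u) v := by
  induction l generalizing v t with
  | zero =>
    intro haw
    have hne : stk v ≠ [] := by rw [hs]; simp
    have hlen : t.length < (stk v).length := by rw [hs]; simp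
    obtain ⟨N0, r, hN⟩ := List.exists_cons_of_ne_nil hh
    obtain ⟨n0, hn0⟩ := nd_ev hv hne
    obtain ⟨n1, hn1⟩ := hR.step v hv hne 0
    obtain ⟨n, h1, h2, h3, h4⟩ := ((aw_step haw hlen).and ((ev_ge n0).and ((ev_ge n1).and
      (ev_ge (N0 + 2))))).exists
    have hnd : Nd (v ++ [n]) := hn0 n h2
    have hext : Ext R v (v ++ [n]) := ext_snoc hnd (hn1 n h3)
    obtain ⟨i, rfl⟩ : ∃ i, n = i + 1 := ⟨n - 1, by omega⟩
    have hsw : stk (v ++ [i + 1]) = .inn (i + 1) :: t := by
      rw [stk_snoc hv hs]; rfl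
    have h5 := inn_step hR k i (v ++ [i + 1]) t hnd hsw h1
    obtain ⟨v', hv', -, -, l', hl', hle⟩ := gn_ex' hR hnd (by rw [hsw]; simp) h5
    have hE := hext.trans hv'
    have h6 : l' ∈ rl (R v) (R v') := by
      rw [etr hR hext hv']; exact List.mem_append_right _ hl'
    have h7 : l'.le (.out N0) := by
      rw [hN] at h6
      refine head_bound (hR.nd v' hE.1) ?_ l' h6
      rw [← hN]; exact hE.2
    have h8 : i ≤ N0 := lle_trans hle h7
    omega
  | succ l ih =>
    intro haw
    have hne : stk v ≠ [] := by rw [hs]; simp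
    have hlen : t.length < (stk v).length := by rw [hs]; simp
    obtain ⟨n0, hn0⟩ := nd_ev hv hne
    obtain ⟨n1, hn1⟩ := hR.step v hv hne 0
    obtain ⟨n, h1, h2, h3, h4⟩ := ((aw_step haw hlen).and ((ev_ge n0).and ((ev_ge n1).and
      (ev_ge 1)))).exists
    have hnd : Nd (v ++ [n]) := hn0 n h2
    obtain ⟨i, rfl⟩ : ∃ i, n = i + 1 := ⟨n - 1, by omega⟩
    have hsw : stk (v ++ [i + 1]) = .out l :: (List.replicate i (.out l) ++ t) := by
      rw [stk_snoc hv hs]; rfl
    obtain ⟨k', r, h5, -⟩ := hn1 _ h3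
    refine ih (v ++ [i + 1]) _ hnd hsw (by rw [h5]; simp) (aw_le h1 ?_)
    rw [List.length_append]; omega

end Pool.Agent.H90.Ord.UN
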