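import Pool.Agent.H90.Ord.UNDef

/-!
# Nodes (module UN-ND)

Use `runS_append` of WF.lean.  `nd_ind`: well-founded induction on the stack (`stkLt_wf`).  `leaf_above`:
`nd_ind` and `Nd.snoc` with a large number.
-/

set_option autoImplicit false

namespace Pool.Agent.H90.Ord.UN

open Filter

private theorem runS_nil (s : List Lev) : runS s [] = some s := by
  cases s <;> rfl

theorem stk_of {u : List ℕ} {s : List Lev} (h : runS [Lev.root] u = some s) : stk u = s := by
  unfold stk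
  rw [h]
  rfl

theorem Nd.run {u : List ℕ} (h : Nd u) : runS [Lev.root] u = some (stk u) := by
  obtain ⟨⟨s, hs⟩, -⟩ := h
  rw [stk_of hs]
  exact hs

theorem nd_nil : Nd [] := ⟨⟨[Lev.root], rfl⟩, List.Pairwise.nil⟩

theorem stk_nil : stk [] = [Lev.root] := rfl

private theorem run_snoc {u : List ℕ} (h : Nd u) {l : Lev} {t : List Lev} (hs : stk u = l :: t)
    (n : ℕ) : runS [Lev.root] (u ++ [n]) = some (kidsLev l n ++ t) := by
  rw [runS_append, h.run, hs]
  change runS (l :: t) [n] = _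
  change runS (kidsLev l n ++ t) [] = _
  exact runS_nil _

theorem stk_snoc {u : List ℕ} (h : Nd u) {l : Lev} {t : List Lev} (hs : stk u = l :: t) (n : ℕ) :
    stk (u ++ [n]) = kidsLev l n ++ t := stk_of (run_snoc h hs n)

theorem Nd.snoc {u : List ℕ} (h : Nd u) (hs : stk u ≠ []) {n : ℕ} (hn : ∀ a ∈ u, a < n) :
    Nd (u ++ [n]) := by
  obtain ⟨l, t, ht⟩ := List.exists_cons_of_ne_nil hs
  refine ⟨⟨_, run_snoc h ht n⟩, ?_⟩
  rw [List.pairwise_append]
  refine ⟨h.2, List.pairwise_singleton _ _, ?_⟩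
  intro a ha b hb
  rw [List.mem_singleton] at hb
  rw [hb]
  exact hn a ha

theorem Nd.pre {u v : List ℕ} (h : Nd (u ++ v)) : Nd u := by
  obtain ⟨⟨s, hs⟩, hp⟩ := h
  refine ⟨?_, (List.pairwise_append.1 hp).1⟩
  rw [runS_append] at hs
  cases hr : runS [Lev.root] u with
  | none =>
    rw [hr] at hs
    exact absurd hs (by simp)
  | some s' => exact ⟨s', rfl⟩

theorem Nd.runs {u v : List ℕ} (h : Nd (u ++ v)) : runS (stk u) v = some (stk (u ++ v)) := by
  have h1 := h.run
  rw [runS_append, h.pre.run] at h1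
  exact h1

theorem stk_ne_of {u r : List ℕ} {n : ℕ} (h : Nd (u ++ n :: r)) : stk u ≠ [] := by
  intro h1
  have h2 := h.runs
  rw [h1] at h2
  exact absurd h2 (by simp [runS])

private theorem le_sum {u : List ℕ} {a : ℕ} (h : a ∈ u) : a ≤ u.sum := by
  induction u with
  | nil => exact absurd h (by simp)
  | cons b u ih =>
    rw [List.sum_cons]
    rcases List.mem_cons.1 h with h1 | h1
    · omega
    · have := ih h1
      omega

theorem nd_ev {u : List ℕ} (h : Nd u) (hs : stk u ≠ []) : ∃ n0, ∀ n, n0 ≤ n → Nd (u ++ [n]) := by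
  refine ⟨u.sum + 1, fun n hn => h.snoc hs fun a ha => ?_⟩
  have := le_sum ha
  omega

theorem nd_ind {P : List ℕ → Prop}
    (h : ∀ u, Nd u → (∀ n, Nd (u ++ [n]) → P (u ++ [n])) → P u) (u : List ℕ) (hu : Nd u) : P u := by
  have key : ∀ s : List Lev, ∀ u, Nd u → stk u = s → P u := by
    intro s
    induction s using stkLt_wf.induction with
    | _ s ih =>
      intro u hu hs
      refine h u hu fun n hn => ih (stk (u ++ [n])) ?_ _ hn rfl
      obtain ⟨l, t, ht⟩ := List.exists_cons_of_ne_nil (stk_ne_of hn)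
      exact ⟨l, t, n, hs ▸ ht, stk_snoc hu ht n⟩
  exact key _ u hu rfl

theorem leaf_above {u : List ℕ} (h : Nd u) : ∃ x : VI, u <+: x.1 := by
  refine nd_ind (P := fun u => ∃ x : VI, u <+: x.1) ?_ u h
  intro u hu ih
  by_cases hs : stk u = []
  · exact ⟨⟨u, hs ▸ hu.run, hu.2⟩, List.prefix_rfl⟩
  · obtain ⟨n0, hn0⟩ := nd_ev hu hs
    obtain ⟨x, hx⟩ := ih n0 (hn0 n0 le_rfl)
    exact ⟨x, (List.prefix_append _ _).trans hx⟩

theorem nd_val (x : VI) : Nd x.1 ∧ stk x.1 = [] := ⟨⟨⟨[], x.2.1⟩, x.2.2⟩, stk_of x.2.1⟩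

theorem ev_ge (m : ℕ) : ∀ᶠ n in (hyperfilter ℕ : Filter ℕ), m ≤ n := by
  have h1 : ∀ᶠ c in (cofinite : Filter ℕ), m ≤ c := by
    rw [Nat.cofinite_eq_atTop]
    exact eventually_ge_atTop m
  exact h1.filter_mono hyperfilter_le_cofinite

end Pool.Agent.H90.Ord.UN
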