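import Mathlib

/-!
# Windows (module UN-WIN)

`window`: induction on `M`; `K (M+1) = 4 * K M + 4` or so, `K 0 = 4`: if `M + 1` occurs at least four times in `L` split `L` at its first four occurrences
(`B = M + 1`).  Otherwise `L` is the concatenation of at most four lists over `{0..M}` and at most three elements `M + 1`, one of the lists has length
`≥ K M`.  (Convenient: prove first by induction on `c` that a list with at most `c` elements equal to `M + 1` and length `≥ (c + 1) * (K + 1)` has
an infix of length `≥ K` without `M + 1`.)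

`two_small`: if no two consecutive elements are both different from `B` then the length is at most `2 * count + 1`; induction on the list.
-/

set_option autoImplicit false

namespace Pool.Agent.H90.Ord.UN

private theorem win_cut (M K : ℕ) : ∀ (c : ℕ) (L : List ℕ), L.count M ≤ c →
    (c + 1) * (K + 1) ≤ L.length → ∃ P V Q, L = P ++ V ++ Q ∧ K ≤ V.length ∧ M ∉ V := by
  intro c
  induction c with
  | zero =>
    intro L hc hl
    refine ⟨[], L, [], by simp, by omega, ?_⟩
    exact List.count_eq_zero.1 (by omega)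
  | succ c ih =>
    intro L hc hl
    by_cases hM : M ∈ L
    · obtain ⟨P, R, rfl, hP⟩ := List.eq_append_cons_of_mem hM
      by_cases hK : K ≤ P.length
      · exact ⟨[], P, M :: R, by simp, hK, hP⟩
      · have h1 : R.count M ≤ c := by
          rw [List.count_append, List.count_cons_self] at hc
          omega
        have h2 : (c + 1) * (K + 1) ≤ R.length := by
          rw [List.length_append, List.length_cons] at hl
          have h3 : (c + 1 + 1) * (K + 1) = (c + 1) * (K + 1) + (K + 1) := by ring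
          rw [h3] at hl
          omega
        obtain ⟨P', V, Q, rfl, h3, h4⟩ := ih R h1 h2
        exact ⟨P ++ M :: P', V, Q, by simp, h3, h4⟩
    · refine ⟨[], L, [], by simp, ?_, hM⟩
      have h3 : (c + 1 + 1) * (K + 1) = (c + 1) * (K + 1) + (K + 1) := by ring
      rw [h3] at hl
      omega

private theorem win_split {M n : ℕ} {L : List ℕ} (h : n + 1 ≤ L.count M) :
    ∃ P R, L = P ++ M :: R ∧ n ≤ R.count M := by
  have hM : M ∈ L := List.count_pos_iff.1 (by omega)
  obtain ⟨P, R, rfl, hP⟩ := List.eq_append_cons_of_mem hM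
  refine ⟨P, R, rfl, ?_⟩
  rw [List.count_append, List.count_cons_self, List.count_eq_zero_of_not_mem hP] at h
  omega

private theorem window_aux (M : ℕ) : ∃ K, ∀ L : List ℕ, (∀ a ∈ L, a < M) → K ≤ L.length →
    ∃ (B : ℕ) (P W1 W2 W3 Q : List ℕ),
      L = P ++ (B :: W1) ++ (B :: W2) ++ (B :: W3) ++ (B :: Q) ∧ (∀ a ∈ W1 ++ W2 ++ W3, a ≤ B) := by
  induction M with
  | zero =>
    refine ⟨1, fun L hL hl => ?_⟩
    cases L with
    | nil => simp at hl
    | cons a L => exact absurd (hL a List.mem_cons_self) (by omega)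
  | succ M ih =>
    obtain ⟨K, hK⟩ := ih
    refine ⟨(3 + 1) * (K + 1), fun L hL hl => ?_⟩
    by_cases h4 : 4 ≤ L.count M
    · obtain ⟨P, R1, rfl, h1⟩ := win_split (n := 3) h4
      obtain ⟨W1, R2, rfl, h2⟩ := win_split (n := 2) h1
      obtain ⟨W2, R3, rfl, h3⟩ := win_split (n := 1) h2
      obtain ⟨W3, Q, rfl, -⟩ := win_split (n := 0) h3
      refine ⟨M, P, W1, W2, W3, Q, by simp, fun a ha => ?_⟩
      have : a ∈ P ++ M :: (W1 ++ M :: (W2 ++ M :: (W3 ++ M :: Q))) := by
        simp only [List.mem_append, List.mem_cons] at ha ⊢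
        tauto
      have := hL a this
      omega
    · obtain ⟨P, V, Q, rfl, h1, h2⟩ := win_cut M K 3 L (by omega) hl
      obtain ⟨B, P', W1, W2, W3, Q', e, h3⟩ := hK V (fun a ha => by
        have h4 : a < M + 1 := hL a (by simp [ha])
        have h5 : a ≠ M := fun h => h2 (h ▸ ha)
        omega) h1
      exact ⟨B, P ++ P', W1, W2, W3, Q' ++ Q, by rw [e]; simp, h3⟩

theorem window (M : ℕ) : ∃ K, ∀ L : List ℕ, (∀ a ∈ L, a ≤ M) → K ≤ L.length →
    ∃ (B : ℕ) (P W1 W2 W3 Q : List ℕ),
      L = P ++ (B :: W1) ++ (B :: W2) ++ (B :: W3) ++ (B :: Q) ∧ (∀ a ∈ W1 ++ W2 ++ W3, a ≤ B) := by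
  obtain ⟨K, hK⟩ := window_aux (M + 1)
  exact ⟨K, fun L hL => hK L fun a ha => Nat.lt_succ_of_le (hL a ha)⟩

private theorem two_small_aux (B : ℕ) : ∀ (n c : ℕ) (L : List ℕ), L.length ≤ n → L.count B ≤ c →
    (∀ a ∈ L, a ≤ B) → 2 * c + 2 ≤ L.length → ∃ (P : List ℕ) (G1 G2 : ℕ) (Q : List ℕ),
      L = P ++ G1 :: G2 :: Q ∧ G1 < B ∧ G2 < B := by
  intro n
  induction n with
  | zero => intro c L hn hc hB hl; omega
  | succ n ih =>
    intro c L hn hc hB hl
    match L with
    | [] => simp at hl
    | [a] => simp at hl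
    | a :: b :: L' =>
      have ha : a ≤ B := hB a (by simp)
      have hb : b ≤ B := hB b (by simp)
      rcases Nat.lt_or_ge a B with h1 | h1
      · rcases Nat.lt_or_ge b B with h2 | h2
        · exact ⟨[], a, b, L', rfl, h1, h2⟩
        · have h3 : b = B := by omega
          subst h3
          rw [List.count_cons_of_ne (by omega), List.count_cons_self] at hc
          obtain ⟨P, G1, G2, Q, e, h4, h5⟩ := ih (c - 1) L' (by simp at hn; omega) (by omega)
            (fun x hx => hB x (by simp [hx])) (by simp at hl; omega)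
          exact ⟨a :: b :: P, G1, G2, Q, by rw [e]; rfl, h4, h5⟩
      · have h3 : a = B := by omega
        subst h3
        rw [List.count_cons_self] at hc
        obtain ⟨P, G1, G2, Q, e, h4, h5⟩ := ih (c - 1) (b :: L') (by simp at hn ⊢; omega) (by omega)
          (fun x hx => hB x (by simp at hx ⊢; tauto)) (by simp at hl ⊢; omega)
        exact ⟨a :: P, G1, G2, Q, by rw [e]; rfl, h4, h5⟩

theorem two_small (B c : ℕ) (L : List ℕ) (hc : L.count B ≤ c) (hB : ∀ a ∈ L, a ≤ B)
    (hl : 2 * c + 2 ≤ L.length) : ∃ (P : List ℕ) (G1 G2 : ℕ) (Q : List ℕ),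
      L = P ++ G1 :: G2 :: Q ∧ G1 < B ∧ G2 < B :=
  two_small_aux B L.length c L le_rfl hc hB hl

theorem foldr_max_le {L : List ℕ} {B : ℕ} : L.foldr max 0 ≤ B ↔ ∀ a ∈ L, a ≤ B := by
  induction L with
  | nil => simp
  | cons a L ih => simp [ih]

theorem foldr_max_eq {L : List ℕ} {B : ℕ} (h : ∀ a ∈ L, a ≤ B) (hB : B ∈ L) : L.foldr max 0 = B :=
  le_antisymm (foldr_max_le.2 h) (foldr_max_le.1 le_rfl B hB)

end Pool.Agent.H90.Ord.UN
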