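import Pool.Agent.H90.Ord.UNSq
import Pool.Agent.H90.Ord.UNLI
import Pool.Agent.H90.Ord.UNWin

/-!
# Segments (module UN-SEG)

`seg`: for generic `v'` (`h`, `gn_ext`, `Rep`) use `sq_gn` at `v'` (`(stk v').length = t.length`), so by `gn_comp` (from right to left, `s' = t.length`)
`Gn (t.length - W.length) (fun v => Ext R u v ∧ stk v <:+ t ∧ ofl (rl (R u) (R v)) = b + 1 ∧ Sq R Q Fs v) u` (`ext_trans_rl`, `ofl_append`, `foldr_max_eq`).
Since `t.length - W.length < (stk u).length` use `gn_ex`; `maxO_of`, `ext_root`; `stk v = t.drop W.length` from `List.suffix_iff_eq_drop`.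

`leaf_ex`: `gn_ex` with `s = 0`, `gn_true`.

`xtail`: `lemmaI` with `k = 1` at `w`, `aw_ex` with the generic property `ofl (rl (R w) (R v)) = b + 1 ∧ Ext R w v` gives `u9` with `Ext R w u9`, `Inn R 1 u9` and a generic
node `v` above `u9` (`gn_ex'`; `gn_ext` for `u9`); so `ofl (rl (R w) (R u9)) ≤ b + 1` and `MaxO (rl (R u) (R u9)) b` (`ext_trans_rl`).  Then `inn_ex`
(with `s = 0`, `gn_true`) and `leaf_ex`.
-/

set_option autoImplicit false

namespace Pool.Agent.H90.Ord.UN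

open Filter

variable {R : List ℕ → List ℕ} {Q : List ℕ → Prop}

theorem seg (hR : Rep R) {b : ℕ} (W Fs : List ℕ) (u : List ℕ) (t : List Lev) (hu : Nd u)
    (hh : R u ≠ []) (hs : t.length ≤ (stk u).length) (hW : ∀ a ∈ W, a ≤ b + 1) (hb : b + 1 ∈ W)
    (hl : W.length ≤ t.length)
    (h : Gn t.length (fun v => stk v = t ∧ ofl (rl (R u) (R v)) ≤ b + 1 ∧ Sq R Q (W ++ Fs) v) u)
    (m : ℕ) : ∃ v, Adv R m u v ∧ MaxO (rl (R u) (R v)) b ∧ stk v = t.drop W.length ∧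
      Sq R Q Fs v := by
  have hG : Gn (t.length - W.length) (fun v => Ext R u v ∧ stk v <:+ t ∧
      (stk v).length = t.length - W.length ∧ ofl (rl (R u) (R v)) = b + 1 ∧ Sq R Q Fs v) u := by
    refine (gn_comp (s' := t.length) (by omega)).2 (gn_mono (gn_ext hR hu h) ?_)
    rintro v ⟨hE, hst, ho, hS⟩
    have h2 := sq_gn hR W Fs v hE.1 (by rw [hst]; exact hl) hS
    rw [hst] at h2
    refine gn_mono h2 ?_
    rintro w ⟨hE', hsuf, hlen, hF, -, hS'⟩
    refine ⟨hE.trans hE', hsuf, hlen, ?_, hS'⟩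
    rw [ext_trans_rl hR hE hE', ofl_append, hF, foldr_max_eq hW hb]
    exact max_eq_right ho
  have hpos : 0 < W.length := List.length_pos_of_mem hb
  obtain ⟨v, hA, -, -, hE, hsuf, hlen, hF, hS⟩ := gn_ex hR hu (by omega) hG m
  refine ⟨v, hA, maxO_of (ext_root hR hE hh) hF, ?_, hS⟩
  have h3 := List.suffix_iff_eq_drop.1 hsuf
  rw [hlen, Nat.sub_sub_self hl] at h3
  exact h3

theorem leaf_ex (hR : Rep R) {u : List ℕ} (hu : Nd u) (hs : stk u ≠ []) (m : ℕ) :
    ∃ v, Adv R m u v ∧ stk v = [] := by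
  obtain ⟨v, hA, -, hl, -⟩ := gn_ex hR hu (List.length_pos_of_ne_nil hs) (gn_true hu 0) m
  exact ⟨v, hA, List.length_eq_zero_iff.1 hl⟩

theorem xtail (hR : Rep R) (b l m : ℕ) (u w : List ℕ) (t : List Lev) (hu : Nd u) (hh : R u ≠ [])
    (huw : Adv R m u w) (hM : MaxO (rl (R u) (R w)) b) (hs : stk w = .out l :: t)
    (h : Gn t.length (fun v => ofl (rl (R w) (R v)) = b + 1) w) :
    ∃ u9, Adv R m u u9 ∧ MaxO (rl (R u) (R u9)) b ∧
      ∀ m11, ∃ u11, Adv R m11 u9 u11 ∧ (∀ x ∈ rl (R u9) (R u11), x.IsInn) ∧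
        ∀ m13, ∃ u13, Adv R m13 u11 u13 ∧ stk u13 = [] := by
  have hw : Nd w := huw.ext.1
  have hRw : R w ≠ [] := ext_ne huw.ext hh
  obtain ⟨u9, hE9, hlt, hI, hG⟩ := aw_ex hR hw (lemmaI hR 1 l w t hw hs hRw) (gn_ext hR hw h)
  obtain ⟨v, hE', -, -, -, hof⟩ := gn_ex' hR hE9.1 hlt.le hG
  have h9 : ofl (rl (R w) (R u9)) ≤ b + 1 := by
    rw [← hof, ext_trans_rl hR hE9 hE', ofl_append]
    exact le_max_left _ _
  refine ⟨u9, huw.trans hE9, ?_, ?_⟩
  · rw [ext_trans_rl hR huw.ext hE9]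
    refine ⟨?_, ?_⟩
    · obtain ⟨a, ha, hab⟩ := hM.1
      exact ⟨a, List.mem_append_left _ ha, hab⟩
    · intro a ha
      rcases List.mem_append.1 ha with ha | ha
      · exact hM.2 a ha
      · have h10 := ofl_le_iff.1 h9 a ha
        have h11 := ext_root hR hE9 hRw a ha
        cases a with
        | inn k => exact Or.inl trivial
        | out k => exact Or.inr ⟨k, by simpa [oc] using h10, rfl⟩
        | root => exact absurd rfl h11
  · intro m11
    obtain ⟨u11, hA, hin, hI0, -, -⟩ := inn_ex hR hE9.1 hI (s := 0) (by omega)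
      (gn_true hE9.1 0) m11
    refine ⟨u11, hA, hin, fun m13 => ?_⟩
    exact leaf_ex hR hA.ext.1 hI0 m13

end Pool.Agent.H90.Ord.UN
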