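import Pool.Agent.H90.Ord.UNFl
import Pool.Agent.H90.Ord.UNCl

/-!
# Lists of generic flags (module UN-SQ)

`sq_exists`: induction on `j` for all `u`, `r`.  `j = 0`: `gn_at`.  `j + 1`: by `gn_comp` with `s' = (stk u).length - 1`, `gn_suf`, `gn_ext` for generic `v` the
hypothesis holds for `v` and `j` (`(stk v).length - j = (stk u).length - (j+1)`), and `R v = N0 :: _`; so there are `F ≤ N0 + 1` (`head_ofl`) and a list `Fs` of
length `j` with elements `≤ N0 + 1` and `ofl (rl (R u) (R v)) = F ∧ Sq R Q Fs v`.  There are finitely many pairs `(F, Fs)` (`gn_fin` with a finite set of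
lists `F :: Fs`, for example from `List.finite_length_eq` or by induction on the length), so one of them is generic.

`sq_gn`: induction on `Fs` for all `u`: `[]`: `Gn.done`.  `F :: Fs`: `gn_comp` (from right to left) with `s' = (stk u).length - 1`, `gn_ext`, `gn_suf`, the
induction hypothesis, `ext_trans_rl`, `ofl_append`, `List.count_append`, `ofl_mem` (if `F = b + 1` then `out b` is in
`rl (R u) (R v)`, so the count is at least one there).

`sq_pos`: induction on `Fs`: `claimO`, `ofl_pos`, `ext_root`, `gn_and`, `gn_ext`, `gn_suf`, `gn_ex'`.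
-/

set_option autoImplicit false

namespace Pool.Agent.H90.Ord.UN

open Filter

variable {R : List ℕ → List ℕ} {Q : List ℕ → Prop}

private theorem suf_eq {a b c : List Lev} (h1 : a <:+ c) (h2 : b <:+ c) (hl : a.length = b.length) :
    a = b :=
  (List.suffix_of_suffix_length_le h1 h2 hl.le).eq_of_length hl

theorem sq_exists (hR : Rep R) {N0 : ℕ} (j : ℕ) (u : List ℕ) (r : List ℕ) (hu : Nd u)
    (hN : R u = N0 :: r) (hj : j ≤ (stk u).length) (h : Gn ((stk u).length - j) Q u) :
    ∃ Fs : List ℕ, Fs.length = j ∧ (∀ F ∈ Fs, F ≤ N0 + 1) ∧ Sq R Q Fs u := by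
  induction j generalizing u r with
  | zero => exact ⟨[], rfl, by simp, gn_at h (by omega)⟩
  | succ j ih =>
    have h1 : Gn ((stk u).length - 1) (Gn ((stk u).length - (j + 1)) Q) u :=
      (gn_comp (by omega)).1 h
    have h3 := gn_ext hR hu (gn_suf hu (by omega) h1)
    let L : Finset (List ℕ) := (Finset.univ : Finset (Fin (j + 1) → Fin (N0 + 2))).image
      fun g => List.ofFn fun i => (g i : ℕ)
    have hL : ∀ G : List ℕ, G.length = j + 1 → (∀ F ∈ G, F ≤ N0 + 1) → G ∈ L := by
      intro G h1 h2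
      refine Finset.mem_image.2 ⟨fun i => ⟨G.get (i.cast h1.symm), ?_⟩, Finset.mem_univ _, ?_⟩
      · have := h2 _ (List.get_mem G (i.cast h1.symm))
        omega
      · refine List.ext_getElem (by rw [List.length_ofFn, h1]) ?_
        intro n h3 h4
        rw [List.getElem_ofFn]
        rfl
    have hL2 : ∀ G ∈ L, G.length = j + 1 ∧ ∀ F ∈ G, F ≤ N0 + 1 := by
      intro G hG
      obtain ⟨g, -, rfl⟩ := Finset.mem_image.1 hG
      refine ⟨by simp, ?_⟩
      intro F hF
      rw [List.mem_ofFn] at hF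
      obtain ⟨i, rfl⟩ := hF
      have := (g i).2
      omega
    have h4 : Gn ((stk u).length - 1) (fun v => ∃ G ∈ L, ∃ F Fs, G = F :: Fs ∧
        ofl (rl (R u) (R v)) = F ∧ Sq R Q Fs v) u := by
      refine gn_mono h3 ?_
      rintro v ⟨hE, ⟨-, hlen⟩, hg⟩
      have hp : N0 :: r <+: R v := by rw [← hN]; exact hE.2
      obtain ⟨r', hr'⟩ := hp
      obtain ⟨Fs, h5, h6, h7⟩ := ih v (r ++ r') hE.1 (by rw [← hr']; rfl) (by omega) (by
        rw [show (stk v).length - j = (stk u).length - (j + 1) by omega]; exact hg)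
      have h8 := (head_ofl (hR.nd v hE.1) (by rw [← hN]; exact hE.2)).2
      rw [← hN] at h8
      refine ⟨ofl (rl (R u) (R v)) :: Fs, hL _ (by simp [h5]) ?_, _, Fs, rfl, rfl, h7⟩
      intro F hF
      rcases List.mem_cons.1 hF with rfl | hF
      · exact h8
      · exact h6 F hF
    obtain ⟨G, hG, hg⟩ := gn_fin L (fun G v => ∃ F Fs, G = F :: Fs ∧
        ofl (rl (R u) (R v)) = F ∧ Sq R Q Fs v) hu h4
    obtain ⟨h5, h6⟩ := hL2 G hG
    refine ⟨G, h5, h6, ?_⟩
    cases G with
    | nil => simp at h5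
    | cons F Fs =>
      refine gn_mono hg ?_
      rintro v ⟨F', Fs', h7, h8, h9⟩
      rw [List.cons.injEq] at h7
      rw [h7.1, h7.2]
      exact ⟨h8, h9⟩

theorem sq_gn (hR : Rep R) (Fs Gs : List ℕ) (u : List ℕ) (hu : Nd u)
    (hj : Fs.length ≤ (stk u).length) (h : Sq R Q (Fs ++ Gs) u) :
    Gn ((stk u).length - Fs.length) (fun v => Ext R u v ∧ stk v <:+ stk u ∧
      (stk v).length = (stk u).length - Fs.length ∧ ofl (rl (R u) (R v)) = Fs.foldr max 0 ∧
      (∀ b, Fs.count (b + 1) ≤ (rl (R u) (R v)).count (.out b)) ∧ Sq R Q Gs v) u := by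
  induction Fs generalizing u with
  | nil =>
    refine Gn.done u (by simp) ⟨Ext.refl hu, List.suffix_refl _, by simp, ?_, by simp, h⟩
    rw [rl_self (hR.nd u hu), ofl_nil]
    rfl
  | cons F Fs ih =>
    rw [List.length_cons] at hj
    have h0 : Gn ((stk u).length - 1)
        (fun v => ofl (rl (R u) (R v)) = F ∧ Sq R Q (Fs ++ Gs) v) u := h
    refine (gn_comp (s' := (stk u).length - 1) (by rw [List.length_cons]; omega)).2 ?_
    refine gn_mono (gn_ext hR hu (gn_suf hu (by omega) h0)) ?_
    rintro v ⟨hE, ⟨hsuf, hlen⟩, hF, hS⟩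
    have h1 := ih v hE.1 (by omega) hS
    rw [show (stk v).length - Fs.length = (stk u).length - (F :: Fs).length by
      rw [List.length_cons]; omega] at h1
    refine gn_mono h1 ?_
    rintro w ⟨hE', hsuf', hlen', hF', hc, hS'⟩
    have htr := ext_trans_rl hR hE hE'
    refine ⟨hE.trans hE', hsuf'.trans hsuf, hlen', ?_, ?_, hS'⟩
    · rw [htr, ofl_append, hF, hF']
      rfl
    · intro b
      rw [htr, List.count_append, List.count_cons]
      have h2 := hc b
      split_ifs with h3
      · have h4 : F = b + 1 := by simpa using h3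
        have h5 : Lev.out b ∈ rl (R u) (R v) := ofl_mem (by rw [hF, h4])
        have h6 := List.count_pos_iff.2 h5
        omega
      · omega

theorem sq_pos (hR : Rep R) (Fs : List ℕ) (u : List ℕ) (L t : List Lev) (hu : Nd u) (hh : R u ≠ [])
    (hs : stk u = L ++ t) (hL : L.length = Fs.length) (ho : ∀ l ∈ L, ∃ k, l = .out k)
    (h : Sq R Q Fs u) : ∀ F ∈ Fs, 1 ≤ F := by
  induction Fs generalizing u L with
  | nil => simp
  | cons F Fs ih =>
    cases L with
    | nil => simp at hL
    | cons l L =>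
      obtain ⟨k, rfl⟩ := ho l (by simp)
      have hs' : stk u = .out k :: (L ++ t) := hs
      have hlen : (stk u).length - 1 = (L ++ t).length := by rw [hs']; simp
      have h0 : Gn ((stk u).length - 1)
        (fun v => ofl (rl (R u) (R v)) = F ∧ Sq R Q Fs v) u := h
      rw [hlen] at h0
      obtain ⟨v, hE, hsuf, hl, ⟨hF, hS⟩, hni⟩ := gn_ex' hR hu (by rw [hs']; simp)
        (gn_and h0 (claimO hR k u (L ++ t) hu hs'))
      have h1 : stk v = L ++ t := suf_eq hsuf (by rw [hs']; exact List.suffix_cons _ _) hl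
      intro G hG
      rcases List.mem_cons.1 hG with rfl | hG
      · rw [← hF]
        exact ofl_pos (ext_root hR hE hh) hni
      · exact ih v L hE.1 (ext_ne hE hh) h1 (by simpa using hL)
          (fun l hl => ho l (List.mem_cons_of_mem _ hl)) hS G hG

end Pool.Agent.H90.Ord.UN
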