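import Pool.Agent.H90.Ord.UNAw
import Pool.Agent.H90.Ord.UNLv

/-!
# The counting step (module UN-STP)

`copies`: induction on `n`.  For `n + 1` the first copy (`aw_le`, hypothesis `H` with `t' = replicate n l ++ t`) removes a level at
least `lam`; then use `gn_comp` (from right to left), `gn_suf` (the stack is then `replicate n l ++ t`), `gn_ext`, `aw_gn` and the
induction hypothesis, `rl_trans`, `cnt_append`.  For `n = 0` the stack is `t` (`Gn.done`).

`cstep`: for almost all `n` (`n` larger than `(stk (R u)).count lam`, `ev_ge`) let `w = u ++ [n]`; its stack is `replicate n l ++ t`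
(`stk_snoc`); by `copies` generically `n ≤ cnt lam (rl (R w) (R v))`, and `rl (R u) (R v) = rl (R u) (R w) ++ rl (R w) (R v)`.  If no
level of `rl (R u) (R v)` is `≥ suc lam`, all are `≤ lam` (`le_of_not_suc`), so `n ≤ cnt ≤ count ≤ (stk (R u)).count lam`
(`cnt_le_count`, `count_rl`), a contradiction.  Use `gn_of_step` and `gn_mono`, `gn_ext`.
-/

set_option autoImplicit false

namespace Pool.Agent.H90.Ord.UN

open Filter

variable {R : List ℕ → List ℕ}

theorem copies (hR : Rep R) (P : List ℕ → Prop) (l lam : Lev)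
    (H : ∀ w t', Nd w → stk w = l :: t' → Aw t'.length P w →
      Gn t'.length (fun v => ∃ l' ∈ rl (R w) (R v), lam.le l') w)
    (n : ℕ) (t : List Lev) (w : List ℕ) (hw : Nd w) (hs : stk w = List.replicate n l ++ t)
    (ha : Aw t.length P w) : Gn t.length (fun v => n ≤ cnt lam (rl (R w) (R v))) w := by
  induction n generalizing w with
  | zero =>
    refine Gn.done w ?_ (Nat.zero_le _)
    rw [hs]
    simp
  | succ n ih =>
    have hs' : stk w = l :: (List.replicate n l ++ t) := by
      rw [hs, List.replicate_succ, List.cons_append]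
    have hlen : t.length ≤ (List.replicate n l ++ t).length := by
      rw [List.length_append]
      omega
    have g1 := H w _ hw hs' (aw_le ha hlen)
    have g2 := aw_gn ha hlen
    have g3 := gn_ext hR hw (gn_and g1 g2)
    have hlen2 : (List.replicate n l ++ t).length ≤ (stk w).length := by
      rw [hs', List.length_cons]
      omega
    have g4 := gn_suf hw hlen2 g3
    refine (gn_comp hlen).2 (gn_mono g4 ?_)
    rintro v ⟨⟨hv1, hv2⟩, hv3, hv4, hv5⟩
    have hv6 : stk v = List.replicate n l ++ t := by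
      rw [hs'] at hv1
      rcases List.suffix_cons_iff.1 hv1 with h1 | h1
      · rw [h1, List.length_cons] at hv2
        omega
      · exact h1.eq_of_length hv2
    have g5 := gn_ext hR hv3.1 (ih v hv3.1 hv6 hv5)
    refine gn_mono g5 ?_
    rintro v' ⟨h1, h2⟩
    rw [rl_trans (hR.nd v' h1.1) hv3.2 h1.2, cnt_append]
    have h3 := cnt_pos hv4
    omega

theorem cstep (hR : Rep R) (P : List ℕ → Prop) (l l1 lam : Lev)
    (hl1 : ∀ n, kidsLev l1 n = List.replicate n l) (hlam : lam ≠ .root)
    (H : ∀ w t', Nd w → stk w = l :: t' → Aw t'.length P w →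
      Gn t'.length (fun v => ∃ l' ∈ rl (R w) (R v), lam.le l') w) :
    ∀ u t, Nd u → stk u = l1 :: t → Aw t.length P u →
      Gn t.length (fun v => ∃ l' ∈ rl (R u) (R v), (suc lam).le l') u := by
  intro u t hu hs ha
  have hlt : t.length < (stk u).length := by
    rw [hs, List.length_cons]
    omega
  have hne : stk u ≠ [] := by
    rw [hs]
    simp
  obtain ⟨n0, hn0⟩ := nd_ev hu hne
  obtain ⟨n1, hn1⟩ := hR.step u hu hne 0
  refine gn_of_step hlt ?_
  filter_upwards [aw_step ha hlt, ev_ge n0, ev_ge n1, ev_ge ((stk (R u)).count lam + 1)]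
    with n h1 h2 h3 h4
  have hw : Nd (u ++ [n]) := hn0 n h2
  have hws : stk (u ++ [n]) = List.replicate n l ++ t := by
    rw [stk_snoc hu hs, hl1]
  have g1 := gn_ext hR hw (copies hR P l lam H n t _ hw hws h1)
  refine gn_mono g1 ?_
  rintro v ⟨⟨hv1, hv2⟩, hv3⟩
  have hpre : R u <+: R (u ++ [n]) := by
    obtain ⟨k, r, hk, -⟩ := hn1 n h3
    exact ⟨k :: r, hk.symm⟩
  by_contra hcon
  have hb : ∀ l' ∈ rl (R u) (R v), l'.le lam := by
    intro l' hl'
    refine le_of_not_suc fun h5 => hcon ⟨l', hl', h5⟩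
  have h6 := cnt_le_count hb
  have h7 := count_rl hlam (hR.nd v hv1) (hpre.trans hv2) hb
  rw [rl_trans (hR.nd v hv1) hpre hv2, cnt_append] at h6
  rw [← rl_trans (hR.nd v hv1) hpre hv2] at h6
  omega

end Pool.Agent.H90.Ord.UN
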