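import Pool.Agent.H90.Ord.UNSeg

/-!
# The start of `x` (module UN-XA)

`n ≥ 2` large with `R [n] = N0 :: r` (`Rep.step` at `[]`, `R_nil`), `[n]` a node with stack `[out n]`.  `K` from `window (N0 + 1)`.  `n1 ≥ K` large, `v0 = [n, n1]` a node with the stack
`replicate n1 (out (n - 1))`, `R v0 = N0 :: _`.  `sq_exists` (`j = n1`, `Q = True`, `gn_true`) gives a list `Fs` of length `n1` with elements `≤ N0 + 1`, they are `≥ 1` by
`sq_pos`; `window`: `Fs = P ++ (B :: W1) ++ (B :: W2) ++ (B :: W3) ++ (B :: Qs)`, `B = b + 1`.  `sq_gn` with `P` and `gn_ex'` give `v`.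
-/

set_option autoImplicit false

namespace Pool.Agent.H90.Ord.UN

open Filter

variable {R : List ℕ → List ℕ} {Q : List ℕ → Prop}

theorem xa (hR : Rep R) : ∃ (b l : ℕ) (W1 W2 W3 Qs v : List ℕ), Nd v ∧ R v ≠ [] ∧
    stk v = List.replicate
      ((b + 1) :: ((W1 ++ [b + 1]) ++ ((W2 ++ (b + 1) :: W3) ++ (b + 1) :: Qs))).length
      (.out (l + 1)) ∧
    Sq R (fun _ => True) ((b + 1) :: ((W1 ++ [b + 1]) ++ ((W2 ++ (b + 1) :: W3) ++ (b + 1) :: Qs)))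
      v ∧ (∀ a ∈ W1 ++ W2 ++ W3, a ≤ b + 1) := by
  have h0 : stk [] ≠ [] := by rw [stk_nil]; simp
  obtain ⟨n0, hn0⟩ := hR.step [] nd_nil h0 0
  obtain ⟨n1, hn1⟩ := nd_ev nd_nil h0
  obtain ⟨l, hl0, hl1⟩ : ∃ l, n0 ≤ l + 2 ∧ n1 ≤ l + 2 := ⟨max n0 n1, by omega, by omega⟩
  obtain ⟨N0, r, hN, -⟩ := hn0 (l + 2) hl0
  have hnd := hn1 (l + 2) hl1
  rw [List.nil_append] at hN hnd
  rw [R_nil hR, List.nil_append] at hN
  have hsn : stk [l + 2] = [.out (l + 2)] := by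
    have := stk_snoc nd_nil stk_nil (l + 2)
    simpa [kidsLev] using this
  obtain ⟨K, hK⟩ := window (N0 + 1)
  have hne : stk [l + 2] ≠ [] := by rw [hsn]; simp
  obtain ⟨p0, hp0⟩ := hR.step _ hnd hne 0
  obtain ⟨p1, hp1⟩ := nd_ev hnd hne
  obtain ⟨p, hpK, hp0', hp1'⟩ : ∃ p, K ≤ p ∧ p0 ≤ p ∧ p1 ≤ p :=
    ⟨max K (max p0 p1), by omega, by omega, by omega⟩
  obtain ⟨k, r', hk, -⟩ := hp0 p hp0'
  have hv0 : Nd ([l + 2] ++ [p]) := hp1 p hp1'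
  obtain ⟨v0, hv0e⟩ : ∃ v0, v0 = [l + 2] ++ [p] := ⟨_, rfl⟩
  rw [← hv0e] at hv0 hk
  have hs0 : stk v0 = List.replicate p (.out (l + 1)) := by
    have := stk_snoc hnd hsn p
    rw [hv0e]
    simpa [kidsLev] using this
  have hR0 : R v0 = N0 :: (r ++ k :: r') := by rw [hk, hN]; rfl
  obtain ⟨Fs, hFl, hFb, hSq⟩ := sq_exists hR (Q := fun _ => True) p v0 _ hv0 hR0
    (by rw [hs0]; simp) (gn_true hv0 _)
  have hpos := sq_pos hR Fs v0 (List.replicate p (.out (l + 1))) [] hv0 (by rw [hR0]; simp)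
    (by rw [hs0, List.append_nil]) (by rw [List.length_replicate, hFl])
    (fun l' hl' => ⟨l + 1, List.eq_of_mem_replicate hl'⟩) hSq
  obtain ⟨B, P, W1, W2, W3, Qs, hFs, hW⟩ := hK Fs hFb (by omega)
  have hB : 1 ≤ B := hpos B (by rw [hFs]; simp)
  obtain ⟨b, rfl⟩ : ∃ b, B = b + 1 := ⟨B - 1, by omega⟩
  have hFs' : Fs = P ++
      ((b + 1) :: ((W1 ++ [b + 1]) ++ ((W2 ++ (b + 1) :: W3) ++ (b + 1) :: Qs))) := by
    rw [hFs]
    simp
  have hlen : p = P.length +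
      ((b + 1) :: ((W1 ++ [b + 1]) ++ ((W2 ++ (b + 1) :: W3) ++ (b + 1) :: Qs))).length := by
    rw [← List.length_append, ← hFs', hFl]
  rw [hFs'] at hSq
  have hg := sq_gn hR P _ v0 hv0 (by rw [hs0, List.length_replicate]; omega) hSq
  obtain ⟨v, hv, -, -, -, h2, h3, -, -, h6⟩ := gn_ex' hR hv0 (Nat.sub_le _ _) hg
  refine ⟨b, l, W1, W2, W3, Qs, v, hv.1, ext_ne hv (by rw [hR0]; simp), ?_, h6, hW⟩
  rw [hs0, List.length_replicate] at h3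
  rw [hs0] at h2
  rw [List.eq_replicate_iff]
  refine ⟨by rw [h3]; omega, fun x hx => List.eq_of_mem_replicate (h2.subset hx)⟩

end Pool.Agent.H90.Ord.UN
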