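import Pool.Agent.H90.Ord.EMA

/-!
# `V` is a countable well-order (module WO)

`exists_least`: every nonempty subset `S` of `Run s` has a least element: well-founded induction on `s`
(`stkLt_wf`).  For `s = []` clear.  For `s = l :: t` let `n` be the smallest first number of an element of
`S` and take the least element `r` of `{r | n :: r ∈ S}`, which is a subset of `Run (kidsLev l n ++ t)`.
-/

set_option autoImplicit false

namespace Pool.Agent.H90.Ord

theorem exists_least (s : List Lev) (S : Set (List ℕ)) (hS : S ⊆ Run s) (hne : S.Nonempty) :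
    ∃ r ∈ S, ∀ r' ∈ S, r ≤ r' := by
  classical
  induction s using stkLt_wf.induction generalizing S with
  | _ s ih =>
    rcases s with _ | ⟨l, t⟩
    · obtain ⟨r, hr⟩ := hne
      have h1 : ∀ r' ∈ S, r' = [] := by
        intro r' hr'
        have := hS hr'
        rw [run_nil] at this
        exact this
      refine ⟨r, hr, fun r' hr' => ?_⟩
      rw [h1 r hr, h1 r' hr']
    · -- first numbers
      have hex : ∃ n, ∃ r, (n :: r) ∈ S := by
        obtain ⟨r, hr⟩ := hne
        obtain ⟨n, r', h1, _⟩ := run_cons.1 (hS hr)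
        exact ⟨n, r', h1 ▸ hr⟩
      let n := Nat.find hex
      have hn : ∃ r, (n :: r) ∈ S := Nat.find_spec hex
      have hmin : ∀ m, (∃ r, (m :: r) ∈ S) → n ≤ m := fun m hm => Nat.find_min' hex hm
      obtain ⟨r, hr, hleast⟩ := ih (kidsLev l n ++ t) ⟨l, t, n, rfl, rfl⟩ {r | (n :: r) ∈ S} (by
        intro r hr
        obtain ⟨m, r', h1, h2⟩ := run_cons.1 (hS (show (n :: r) ∈ S from hr))
        have h3 : n = m ∧ r = r' := by simpa using h1
        rw [h3.1, h3.2]
        exact h2) hn
      refine ⟨n :: r, hr, fun r' hr' => ?_⟩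
      obtain ⟨m, r'', h1, h2⟩ := run_cons.1 (hS hr')
      subst h1
      rcases (hmin m ⟨r'', hr'⟩).lt_or_eq with h | h
      · exact le_of_lt (List.Lex.rel h)
      · have h3 : (n :: r'') ∈ S := by rw [h]; exact hr'
        have h4 := hleast r'' h3
        rw [← h]
        rcases h4.lt_or_eq with h5 | h5
        · exact le_of_lt (List.Lex.cons h5)
        · rw [h5]

instance : WellFoundedLT V := by
  refine ⟨?_⟩
  rw [WellFounded.wellFounded_iff_has_min]
  intro S hne
  obtain ⟨r, ⟨v, hv, hvr⟩, hr⟩ := exists_least [Lev.root] ((fun x : V => x.1) '' S) (by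
    rintro _ ⟨x, _, rfl⟩
    exact x.2) (hne.image _)
  refine ⟨v, hv, fun x hx hlt => ?_⟩
  have h1 := hr x.1 ⟨x, hx, rfl⟩
  rw [← hvr] at h1
  exact absurd hlt (not_lt.2 h1)

instance : WellFoundedLT VI := by
  refine ⟨?_⟩
  rw [WellFounded.wellFounded_iff_has_min]
  intro S hne
  obtain ⟨r, ⟨v, hv, hvr⟩, hr⟩ := exists_least [Lev.root] ((fun x : VI => x.1) '' S) (by
    rintro _ ⟨x, _, rfl⟩
    exact x.2.1) (hne.image _)
  refine ⟨v, hv, fun x hx hlt => ?_⟩
  have h1 := hr x.1 ⟨x, hx, rfl⟩
  rw [← hvr] at h1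
  exact absurd hlt (not_lt.2 h1)

theorem VI.exists_elt : Nonempty VI := by
  refine ⟨⟨[0, 1, 2, 3, 4], ?_, ?_⟩⟩
  · simp [runS, kidsLev]
  · simp

/-- two well-orders which embed in each other are isomorphic -/
theorem iso_of_emb {α β : Type} [LinearOrder α] [LinearOrder β] [WellFoundedLT α]
    [WellFoundedLT β] (f : α → β) (hf : StrictMono f) (g : β → α) (hg : StrictMono g) :
    Nonempty (α ≃o β) := by
  have h1 : Ordinal.type (fun a b : α => a < b) ≤ Ordinal.type (fun a b : β => a < b) :=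
    Ordinal.type_le_iff'.2 ⟨(OrderEmbedding.ofStrictMono f hf).ltEmbedding⟩
  have h2 : Ordinal.type (fun a b : β => a < b) ≤ Ordinal.type (fun a b : α => a < b) :=
    Ordinal.type_le_iff'.2 ⟨(OrderEmbedding.ofStrictMono g hg).ltEmbedding⟩
  obtain ⟨e⟩ := Ordinal.type_eq.1 (le_antisymm h1 h2)
  exact ⟨OrderIso.ofRelIsoLT e⟩

end Pool.Agent.H90.Ord
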